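import Mathlib

/-!
# Arithmetic of Hilbert functions
-/

set_option maxHeartbeats 4000000

namespace Pool.Agent.Lib.Pc2352a

theorem arith4 (n b c m p q r A2 A3 A4 A5 A6 A7 : ℕ)
  (hn : n ≤ 4) (hsum : 2*(1+n+b+c)+m ≤ 40)
  (i4 : m ≤ 4 → c < m) (i5 : c ≤ 5 → b < c) (i6 : b ≤ 6 → n < b) (i7 : n ≤ 7 → 1 < n)
  (c4 : r ≤ 4 → q < r) (c5 : q ≤ 5 → p < q) (c6 : p ≤ 6 → 1 < p)
  (e2 : b = p + A2) (e3 : c = q + A3) (e4 : m = r + A4) (e5 : c = r + A5) (e6 : b = q + A6)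
  (e7 : n = p + A7)
  (a1 : n ≤ 2 → A2 + 1 ≤ n) (a2 : A2 ≤ 2 → A3 ≤ A2) (a3 : A3 ≤ 3 → A4 ≤ A3)
  (a4 : A4 ≤ 4 → A5 < A4 ∨ A4 = 0) (a4' : A4 = 0 → A5 = 0)
  (a5 : A5 ≤ 5 → A6 < A5 ∨ A5 = 0) (a5' : A5 = 0 → A6 = 0)
  (a6 : A6 ≤ 6 → A7 < A6 ∨ A6 = 0) (a6' : A6 = 0 → A7 = 0) :
  (n = 2 ∧ b = 3 ∧ c = 4 ∧ m = 5) ∨ (n = 3 ∧ b = 5 ∧ c = 7 ∧ m = 8) ∨
  (n ≥ 3 ∧ c = m ∧ r = c) ∨ (n ≥ 3 ∧ c ≠ m ∧ A4 = 1 ∧ A3 = 1) := by
  have hn2 : 2 ≤ n := by clear * - i7 hn; omega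
  have hp : p ≤ n := by clear * - e7; omega
  have hp2 : 2 ≤ p := by clear * - c6 hp hn; omega
  have hb2 : n + 1 ≤ b := by clear * - i6 hn; omega
  have hq2 : p + 1 ≤ q := by clear * - c5 hp hn; omega
  have hr2 : 5 ≤ r ∨ (r = 4 ∧ q = 3) := by clear * - c4 hq2 hp2; omega
  have hc2 : 6 ≤ c ∨ (b + 1 ≤ c ∧ c ≤ 5) := by clear * - i5; omega
  have hm2 : 5 ≤ m ∨ (c + 1 ≤ m ∧ m ≤ 4) := by clear * - i4; omega
  have h6 : (A6 = 0 ∧ A7 = 0) ∨ A7 + 1 ≤ A6 := by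
    clear * - a6 a6' e7 hn; omega
  have h5 : (A5 = 0 ∧ A6 = 0) ∨ A6 + 1 ≤ A5 ∨ (6 ≤ A5 ∧ A5 ≤ A6) := by clear * - a5 a5'; omega
  have h4 : (A4 = 0 ∧ A5 = 0) ∨ A5 + 1 ≤ A4 ∨ (5 ≤ A4 ∧ A4 ≤ A5) := by clear * - a4 a4'; omega
  have h3 : 4 ≤ A3 ∨ A4 ≤ A3 := by clear * - a3; omega
  have h2 : 3 ≤ A2 ∨ A3 ≤ A2 := by clear * - a2; omega
  have h1 : 3 ≤ n ∨ (n = 2 ∧ A2 ≤ 1) := by clear * - a1 hn2; omega
  clear i4 i5 i6 i7 c4 c5 c6 a1 a2 a3 a4 a4' a5 a5' a6 a6'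
  have hN : n = 2 ∨ n = 3 ∨ n = 4 := by clear * - hn hn2; omega
  rcases hN with rfl | rfl | rfl
  · have hp3 : p = 2 := by clear * - hp hp2; omega
    subst hp3
    have hA2 : A2 ≤ 1 := by clear * - h1; omega
    have hb3 : b = 3 := by clear * - e2 hb2 hA2; omega
    have hq3 : q = 3 := by clear * - hb3 e6 hq2; omega
    have hA3 : A3 ≤ 1 := by clear * - h2 hA2; omega
    have hc3 : c = 4 := by clear * - e3 hq3 hA3 hc2 hb3; omega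
    have hr3 : r = 4 := by clear * - hr2 e5 hc3; omega
    have hA4 : A4 ≤ 1 := by clear * - h3 hA3; omega
    have hm3 : m = 5 := by clear * - hm2 e4 hr3 hA4 hc3; omega
    exact Or.inl ⟨rfl, hb3, hc3, hm3⟩
  · have hp3 : p = 2 ∨ p = 3 := by clear * - hp hp2; omega
    rcases hp3 with rfl | rfl
    · have g6 : 2 ≤ A6 := by clear * - h6 e7; omega
      have g5 : 3 ≤ A5 := by clear * - h5 g6; omega
      have g4 : 4 ≤ A4 := by clear * - h4 g5; omega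
      have gr : 4 ≤ r := by clear * - hr2; omega
      right; left
      clear * - g6 g5 g4 gr e4 e5 e6 hsum hq2
      omega
    · have gr : 5 ≤ r := by clear * - hr2 hq2; omega
      have hA2 : b = 3 + A2 := e2
      have hb3 : b = 4 ∨ b = 5 ∨ b = 6 ∨ b = 7 ∨ 8 ≤ b := by clear * - hb2; omega
      rcases hb3 with rfl | rfl | rfl | rfl | hb3
      · have hq3 : q = 4 := by clear * - hq2 e6; omega
        have hA3 : A3 ≤ 1 := by clear * - h2 e2; omega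
        have hc3 : c = 5 := by clear * - e3 hq3 hA3 hc2; omega
        have hA5 : A5 = 0 := by clear * - e5 gr hc3; omega
        have hA4 : A4 ≤ 1 := by clear * - h3 hA3; omega
        clear * - hq3 hA3 hc3 hA5 hA4 e3 e4 e5
        omega
      · have hA3 : A3 ≤ 2 := by clear * - h2 e2; omega
        have hA4 : A4 ≤ A3 := by clear * - h3 hA3; omega
        have hA5 : A5 + 1 ≤ A4 ∨ (A4 = 0 ∧ A5 = 0) := by clear * - h4 hA4 hA3; omega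
        have hA6 : A6 + 1 ≤ A5 ∨ A6 = 0 := by clear * - h5 hA5 hA4 hA3; omega
        have hc3 : 6 ≤ c := by clear * - hc2; omega
        have hq3 : q = 5 := by clear * - hA3 hA4 hA5 hA6 e3 e5 e6 hc3 gr hq2; omega
        have hA6' : A6 = 0 := by clear * - hq3 e6; omega
        clear h1 h2 h3 h4 h5 h6 hm2 hr2 hc2 hA6
        have : c = 6 ∨ c = 7 := by clear * - hc3 e3 hq3 hA3; omega
        rcases this with rfl | rfl
        · clear * - hA3 hA4 hA5 hq3 e3 e4 e5 gr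
          omega
        · clear * - hA3 hA4 hA5 hq3 e3 e4 e5 gr hsum
          omega
      · have hc3 : 6 ≤ c := by clear * - hc2; omega
        have hc4 : c = 6 ∨ c = 7 := by clear * - hsum hc3 hm2; omega
        rcases hc4 with rfl | rfl
        · have hA3 : A3 ≤ 2 := by clear * - e3 hq2; omega
          have hA4 : A4 ≤ A3 := by clear * - h3 hA3; omega
          have hA5 : A5 + 1 ≤ A4 ∨ (A4 = 0 ∧ A5 = 0) := by clear * - h4 hA4 hA3; omega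
          have hA6 : A6 + 1 ≤ A5 ∨ A6 = 0 := by clear * - h5 hA5 hA4 hA3; omega
          clear * - hA3 hA4 hA5 hA6 e3 e4 e5 e6 gr hsum
          omega
        · exfalso
          have hm3 : m ≤ 6 := by clear * - hsum; omega
          have hA3 : A3 ≤ 3 := by clear * - e3 hq2; omega
          have hA4 : A4 ≤ A3 := by clear * - h3 hA3; omega
          clear * - h4 hA4 hA3 e4 e5 hm3
          omega
      · exfalso
        have hc3 : c = 6 := by clear * - hc2 hm2 hsum; omega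
        have hA3 : A3 ≤ 2 := by clear * - e3 hq2 hc3; omega
        have hA4 : A4 ≤ A3 := by clear * - h3 hA3; omega
        have hA6 : 1 ≤ A6 := by clear * - e3 e6 hc3; omega
        have hA5 : A5 + 1 ≤ A4 ∨ (A4 = 0 ∧ A5 = 0) := by clear * - h4 hA4 hA3; omega
        clear * - h5 hA5 hA6 hA4 hA3 e3 e6 hc3
        omega
      · exfalso
        clear * - hsum hb3 hc2 hm2
        omega
  · have hp3 : p = 2 ∨ p = 3 ∨ p = 4 := by clear * - hp hp2; omega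
    rcases hp3 with rfl | rfl | rfl
    · exfalso
      have g6 : 3 ≤ A6 := by clear * - h6 e7; omega
      have g5 : 4 ≤ A5 := by clear * - h5 g6; omega
      have g4 : 5 ≤ A4 := by clear * - h4 g5; omega
      have gr : 4 ≤ r := by clear * - hr2; omega
      clear * - g6 g5 g4 gr e4 e5 e6 hsum hq2
      omega
    · exfalso
      have g6 : 2 ≤ A6 := by clear * - h6 e7; omega
      have g5 : 3 ≤ A5 := by clear * - h5 g6; omega
      have g4 : 4 ≤ A4 := by clear * - h4 g5; omega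
      have gr : 5 ≤ r := by clear * - hr2 hq2; omega
      clear * - g6 g5 g4 gr e4 e5 e6 hsum hq2
      omega
    · have gr : 5 ≤ r := by clear * - hr2 hq2; omega
      have hc3 : 6 ≤ c := by clear * - hc2 hb2; omega
      have hb3 : b = 5 ∨ b = 6 ∨ 7 ≤ b := by clear * - hb2; omega
      rcases hb3 with rfl | rfl | hb3
      · have hA3 : A3 ≤ 1 := by clear * - h2 e2; omega
        have hq3 : q = 5 := by clear * - hq2 e6; omega
        have hc4 : c = 6 := by clear * - hc3 hA3 e3 hq3; omega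
        have hA4 : A4 ≤ A3 := by clear * - h3 hA3; omega
        have hA5 : A5 + 1 ≤ A4 ∨ (A4 = 0 ∧ A5 = 0) := by clear * - h4 hA4 hA3; omega
        clear * - hA3 hq3 hc4 hA4 hA5 e3 e4 e5
        omega
      · have hc4 : c = 6 := by clear * - hsum hc3 hm2; omega
        have hA3 : A3 ≤ 2 := by clear * - h2 e2; omega
        have hA4 : A4 ≤ A3 := by clear * - h3 hA3; omega
        have hA5 : A5 + 1 ≤ A4 ∨ (A4 = 0 ∧ A5 = 0) := by clear * - h4 hA4 hA3; omega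
        have hA6 : A6 + 1 ≤ A5 ∨ A6 = 0 := by clear * - h5 hA5 hA4 hA3; omega
        clear * - hA3 hA4 hA5 hA6 e3 e4 e5 e6 hc4
        omega
      · exfalso
        clear * - hsum hb3 hc3 hm2
        omega

theorem arith3 (n b c p q A2 A3 A4 A5 : ℕ)
  (hn : n ≤ 4) (hsum : 2*(1+n+b)+c ≤ 24)
  (i3 : c ≤ 3 → b < c) (i4 : b ≤ 4 → n < b) (i5 : n ≤ 5 → 1 < n)
  (c3 : q ≤ 3 → p < q) (c4 : p ≤ 4 → 1 < p)
  (e2 : b = p + A2) (e3 : c = q + A3) (e4 : b = q + A4) (e5 : n = p + A5)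
  (a1 : n ≤ 2 → A2 + 1 ≤ n) (a2 : A2 ≤ 2 → A3 ≤ A2)
  (a3 : A3 ≤ 3 → A4 < A3 ∨ A3 = 0) (a3' : A3 = 0 → A4 = 0)
  (a4 : A4 ≤ 4 → A5 < A4 ∨ A4 = 0) (a4' : A4 = 0 → A5 = 0) :
  (n = 2 ∧ b = 3 ∧ c = 4) ∨ (n = 3 ∧ b = 5 ∧ c = 6) ∨
  (n ≥ 3 ∧ b = c ∧ q = b) ∨ (n ≥ 3 ∧ b ≠ c ∧ A3 = 1 ∧ A2 = 1) := by
  have hn2 : 2 ≤ n := by clear * - i5 hn; omega
  have hp : p ≤ n := by clear * - e5; omega
  have hp2 : 2 ≤ p := by clear * - c4 hp hn; omega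
  have hb2 : n + 1 ≤ b := by clear * - i4 hn; omega
  have hq2 : 4 ≤ q ∨ (q = 3 ∧ p = 2) := by clear * - c3 hp2; omega
  have hc2 : 4 ≤ c := by clear * - i3 hb2 hn2; omega
  have h5 : (A4 = 0 ∧ A5 = 0) ∨ A5 + 1 ≤ A4 := by clear * - a4 a4' e5 hn; omega
  have h4 : (A3 = 0 ∧ A4 = 0) ∨ A4 + 1 ≤ A3 ∨ (4 ≤ A3 ∧ A3 ≤ A4) := by clear * - a3 a3'; omega
  have h2 : 3 ≤ A2 ∨ A3 ≤ A2 := by clear * - a2; omega
  have h1 : 3 ≤ n ∨ (n = 2 ∧ A2 ≤ 1) := by clear * - a1 hn2; omega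
  clear i3 i4 i5 c3 c4 a1 a2 a3 a3' a4 a4'
  have hN : n = 2 ∨ n = 3 ∨ n = 4 := by clear * - hn hn2; omega
  rcases hN with rfl | rfl | rfl
  · omega
  · have hp3 : p = 2 ∨ p = 3 := by clear * - hp hp2; omega
    rcases hp3 with rfl | rfl <;> omega
  · have hp3 : p = 2 ∨ p = 3 ∨ p = 4 := by clear * - hp hp2; omega
    rcases hp3 with rfl | rfl | rfl <;> omega

theorem arith2 (n b p A2 A3 : ℕ)
  (hn : n ≤ 4) (hsum : 2*(1+n)+b ≤ 12)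
  (i2 : b ≤ 2 → n < b) (i3 : n ≤ 3 → 1 < n)
  (c2 : p ≤ 2 → 1 < p)
  (e2 : b = p + A2) (e3 : n = p + A3)
  (a1 : n ≤ 2 → A2 + 1 ≤ n)
  (a2 : A2 ≤ 2 → A3 < A2 ∨ A2 = 0) (a2' : A2 = 0 → A3 = 0) :
  (n = 2 ∧ b = 3) ∨ (n = 3 ∧ b = 4) ∨ (n ≥ 3 ∧ n = b ∧ p = n) := by
  omega

end Pool.Agent.Lib.Pc2352a
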