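import Pool.Agent.Lib.Pc2352a.Defs

/-!
# Basic properties of graded ideals
-/

open MvPolynomial Module

namespace Pool.Agent.Lib.Pc2352a

instance finFm (k : ℕ) : FiniteDimensional ℂ (Fm k) :=
  Module.Finite.iff_fg.mpr (homogeneousSubmodule_fg (Fin 5) ℂ k)

lemma mul_mem_Fm {k : ℕ} {l g : Poly} (hl : l ∈ Fm 1) (hg : g ∈ Fm k) : l * g ∈ Fm (k + 1) := by
  have := (hl : l.IsHomogeneous 1).mul (hg : g.IsHomogeneous k)
  rw [add_comm] at this
  exact this

private lemma X_mem (i : Fin 5) : (X i : Poly) ∈ Fm 1 := isHomogeneous_X ℂ i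

lemma span_mul (k : ℕ) (V : Submodule ℂ Poly) (h : ∀ l ∈ Fm 1, ∀ g ∈ Fm k, l * g ∈ V) :
    Fm (k + 1) ≤ V := by
  intro p hp
  have hp' : p.IsHomogeneous (k + 1) := hp
  rw [p.as_sum]
  refine Submodule.sum_mem _ fun d hd => ?_
  have hdeg : d.degree = k + 1 := by
    have := hp' (mem_support_iff.mp hd)
    rw [Finsupp.degree_eq_weight_one]
    exact this
  -- some variable occurs
  obtain ⟨i, hi⟩ : ∃ i, d i ≠ 0 := by
    by_contra hc
    push Not at hc
    have : d = 0 := Finsupp.ext hc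
    rw [this] at hdeg
    simp at hdeg
  have hd' : d = Finsupp.single i 1 + (d - Finsupp.single i 1) := by
    rw [add_tsub_cancel_of_le]
    rw [Finsupp.single_le_iff]
    omega
  have hm : monomial d (coeff d p) =
      (X i : Poly) * monomial (d - Finsupp.single i 1) (coeff d p) := by
    rw [X, monomial_mul, one_mul, ← hd']
  rw [hm]
  refine h _ (X_mem i) _ ?_
  have h2 : (d - Finsupp.single i 1).degree = k := by
    have h3 := congrArg Finsupp.degree hd'
    rw [map_add, Finsupp.degree_single, hdeg] at h3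
    omega
  exact isHomogeneous_monomial _ h2

lemma dl_add (I : GId) (k : ℕ) : dl I k + finrank ℂ (I.J k) = finrank ℂ (Fm k) := by
  have h := Submodule.finrank_mono (I.le k)
  unfold dl
  omega

lemma dl_mono {I I' : GId} (k : ℕ) (h : I.J k ≤ I'.J k) : dl I' k ≤ dl I k := by
  have : FiniteDimensional ℂ (I'.J k) := Submodule.finiteDimensional_of_le (I'.le k)
  have h1 := Submodule.finrank_mono h
  unfold dl
  omega

lemma dl_eq_zero_iff (I : GId) (k : ℕ) : dl I k = 0 ↔ I.J k = Fm k := by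
  have h := dl_add I k
  constructor
  · intro h0
    rw [h0, zero_add] at h
    exact Submodule.eq_of_le_of_finrank_eq (I.le k) h
  · intro h0
    unfold dl
    rw [h0, Nat.sub_self]

lemma dl_zero_succ {I : GId} {k : ℕ} (h : dl I k = 0) : dl I (k + 1) = 0 := by
  rw [dl_eq_zero_iff] at h ⊢
  refine le_antisymm (I.le _) (span_mul k _ ?_)
  intro l hl g hg
  rw [← h] at hg
  exact I.mul k g hg l hl

private lemma Fm_zero_eq : (Fm 0 : Submodule ℂ Poly) = Submodule.span ℂ {1} := by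
  apply le_antisymm
  · intro p hp
    have hp' : p.IsHomogeneous 0 := hp
    rw [← totalDegree_zero_iff_isHomogeneous] at hp'
    rw [totalDegree_eq_zero_iff_eq_C] at hp'
    rw [hp', Submodule.mem_span_singleton]
    exact ⟨coeff 0 p, by rw [← C_mul', mul_one]⟩
  · rw [Submodule.span_singleton_le_iff_mem]
    exact isHomogeneous_one _ _

private lemma finrank_Fm_zero : finrank ℂ (Fm 0 : Submodule ℂ Poly) = 1 := by
  rw [Fm_zero_eq]
  exact finrank_span_singleton one_ne_zero

lemma dl_zero_le (I : GId) : dl I 0 ≤ 1 := by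
  have := dl_add I 0
  rw [finrank_Fm_zero] at this
  omega

lemma bpf_succ {I : GId} {t : ℕ} (h : Bpf I t) : Bpf I (t + 1) := by
  intro v hv
  obtain ⟨g, hg, hgv⟩ := h v hv
  obtain ⟨i, hi⟩ : ∃ i, v i ≠ 0 := by
    by_contra hc
    push Not at hc
    exact hv (funext hc)
  refine ⟨X i * g, I.mul t g hg _ (X_mem i), ?_⟩
  rw [map_mul, eval_X]
  exact mul_ne_zero hi hgv

lemma le_colon (I : GId) (l : Poly) (hl : l ∈ Fm 1) (k : ℕ) : I.J k ≤ (colon I l hl).J k := by
  intro g hg
  exact Submodule.mem_inf.mpr ⟨I.le k hg, I.mul k g hg l hl⟩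

lemma le_addl (I : GId) (l : Poly) (hl : l ∈ Fm 1) (k : ℕ) : I.J k ≤ (addl I l hl).J k := by
  cases k with
  | zero => exact le_rfl
  | succ k => exact le_sup_left

lemma bpf_of_le {I I' : GId} {t : ℕ} (h : I.J t ≤ I'.J t) (hb : Bpf I t) : Bpf I' t := by
  intro v hv
  obtain ⟨g, hg, hgv⟩ := hb v hv
  exact ⟨g, h hg, hgv⟩

lemma dl_exact (I : GId) (l : Poly) (hl : l ∈ Fm 1) (hl0 : l ≠ 0) (k : ℕ) :
    dl I (k + 1) = dl (colon I l hl) k + dl (addl I l hl) (k + 1) := by
  have hinj : Function.Injective (LinearMap.mulLeft ℂ l : Poly →ₗ[ℂ] Poly) := by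
    intro a b hab
    exact mul_left_cancel₀ hl0 hab
  set A := I.J (k + 1) with hA
  set B := (Fm k).map (LinearMap.mulLeft ℂ l) with hB
  have : FiniteDimensional ℂ A := Submodule.finiteDimensional_of_le (I.le (k + 1))
  have : FiniteDimensional ℂ B := by
    rw [hB]; infer_instance
  have h1 := Submodule.finrank_sup_add_finrank_inf_eq A B
  have h2 : finrank ℂ B = finrank ℂ (Fm k) :=
    (Submodule.equivMapOfInjective _ hinj (Fm k)).finrank_eq.symm
  have h3 : A ⊓ B = ((colon I l hl).J k).map (LinearMap.mulLeft ℂ l) := by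
    apply le_antisymm
    · rintro _ ⟨ha, ⟨g, hg, rfl⟩⟩
      exact ⟨g, Submodule.mem_inf.mpr ⟨hg, ha⟩, rfl⟩
    · rintro _ ⟨g, hg, rfl⟩
      have hg' := Submodule.mem_inf.mp hg
      exact ⟨hg'.2, ⟨g, hg'.1, rfl⟩⟩
  have h4 : finrank ℂ (A ⊓ B : Submodule ℂ Poly) = finrank ℂ ((colon I l hl).J k) := by
    rw [h3]
    exact (Submodule.equivMapOfInjective _ hinj _).finrank_eq.symm
  have h5 := dl_add I (k + 1)
  have h6 := dl_add (colon I l hl) k
  have h7 := dl_add (addl I l hl) (k + 1)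
  have h8 : (addl I l hl).J (k + 1) = A ⊔ B := rfl
  rw [h8] at h7
  rw [← hA] at h5
  omega

lemma dl_addl_zero (I : GId) (l : Poly) (hl : l ∈ Fm 1) : dl (addl I l hl) 0 = dl I 0 := rfl

lemma dl_addl_one (I : GId) (l : Poly) (hl : l ∈ Fm 1) (h : l ∉ I.J 1) :
    dl (addl I l hl) 1 + 1 = dl I 1 := by
  have hl0 : l ≠ 0 := by
    rintro rfl
    exact h (Submodule.zero_mem _)
  have h1 := dl_exact I l hl hl0 0
  rw [zero_add] at h1
  have h2 := dl_zero_le (colon I l hl)
  have h3 : dl (colon I l hl) 0 ≠ 0 := by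
    intro h0
    rw [dl_eq_zero_iff] at h0
    have h4 : (1 : Poly) ∈ (colon I l hl).J 0 := by
      rw [h0]
      exact isHomogeneous_one _ _
    have h5 := (Submodule.mem_inf.mp h4).2
    apply h
    have h6 : l * 1 ∈ I.J 1 := h5
    rwa [mul_one] at h6
  omega

end Pool.Agent.Lib.Pc2352a
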