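import Pool.Agent.Lib.Pc2352a.Basic

/-!
# A linear form that is not injective

G_k = Fm k / J_k. If multiplication by l₁ : G_t → G_{t+1} is not injective take l = l₁, otherwise it
is bijective (equal dimensions); take an eigenvalue μ of l₁⁻¹ l₀ on G_t ≠ 0 and l = l₀ - μ l₁.
-/

open MvPolynomial Module

namespace Pool.Agent.Lib.Pc2352a

namespace BijAux

/-- The graded piece of the ideal inside the forms. -/
noncomputable abbrev N (I : GId) (k : ℕ) : Submodule ℂ (Fm k) := (I.J k).comap (Fm k).subtype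

/-- The graded piece of the quotient. -/
noncomputable abbrev G (I : GId) (k : ℕ) : Type := (Fm k) ⧸ (N I k)

lemma finrank_N (I : GId) (k : ℕ) : finrank ℂ (N I k) = finrank ℂ (I.J k) :=
  (Submodule.submoduleOfEquivOfLe (I.le k)).finrank_eq

lemma finrank_G (I : GId) (k : ℕ) : finrank ℂ (G I k) = dl I k := by
  have h1 := Submodule.finrank_quotient_add_finrank (N I k)
  have h2 := dl_add I k
  rw [finrank_N] at h1
  exact Nat.add_right_cancel (h1.trans h2.symm)

/-- Multiplication on forms. -/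
noncomputable def mulF (l : Poly) (hl : l ∈ Fm 1) (k : ℕ) : Fm k →ₗ[ℂ] Fm (k + 1) :=
  (LinearMap.mulLeft ℂ l).restrict (fun _ hg => mul_mem_Fm hl hg)

lemma mulF_coe (l : Poly) (hl : l ∈ Fm 1) (k : ℕ) (g : Fm k) :
    ((mulF l hl k g : Fm (k + 1)) : Poly) = l * g := rfl

lemma N_le (I : GId) (l : Poly) (hl : l ∈ Fm 1) (k : ℕ) :
    N I k ≤ (N I (k + 1)).comap (mulF l hl k) := by
  intro g hg
  exact I.mul k g hg l hl

/-- Multiplication on the quotient. -/
noncomputable def mulG (I : GId) (l : Poly) (hl : l ∈ Fm 1) (k : ℕ) : G I k →ₗ[ℂ] G I (k + 1) :=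
  (N I k).mapQ (N I (k + 1)) (mulF l hl k) (N_le I l hl k)

lemma mulG_mk (I : GId) (l : Poly) (hl : l ∈ Fm 1) (k : ℕ) (g : Fm k) :
    mulG I l hl k (Submodule.Quotient.mk g) = Submodule.Quotient.mk (mulF l hl k g) := rfl

lemma mk_eq_zero_iff (I : GId) (k : ℕ) (g : Fm k) :
    (Submodule.Quotient.mk g : G I k) = 0 ↔ (g : Poly) ∈ I.J k := by
  rw [Submodule.Quotient.mk_eq_zero]
  rfl

lemma lt_of_kernel (I : GId) (t : ℕ) (l : Poly) (hl : l ∈ Fm 1) (g : Poly) (hg : g ∈ Fm t)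
    (hg' : g ∉ I.J t) (h : l * g ∈ I.J (t + 1)) : dl (colon I l hl) t < dl I t := by
  have h1 := dl_add I t
  have h2 := dl_add (colon I l hl) t
  have h3 : finrank ℂ (I.J t) < finrank ℂ ((colon I l hl).J t) := by
    have : FiniteDimensional ℂ ((colon I l hl).J t) :=
      Submodule.finiteDimensional_of_le ((colon I l hl).le t)
    refine Submodule.finrank_lt_finrank_of_lt (lt_of_le_of_ne (le_colon I l hl t) fun he => ?_)
    apply hg'
    rw [he]
    exact Submodule.mem_inf.mpr ⟨hg, h⟩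
  omega

lemma exists_pair (I : GId) (h2 : 2 ≤ dl I 1) :
    ∃ l0 ∈ Fm 1, ∃ l1 ∈ Fm 1, l1 ∉ I.J 1 ∧ ∀ c : ℂ, l0 - c • l1 ∉ I.J 1 := by
  rw [← finrank_G] at h2
  obtain ⟨v, hv⟩ : ∃ v : G I 1, v ≠ 0 := by
    have : Nontrivial (G I 1) := Module.nontrivial_of_finrank_pos (R := ℂ) (by omega)
    exact exists_ne 0
  obtain ⟨w, hw⟩ : ∃ w : G I 1, w ∉ Submodule.span ℂ {v} := by
    by_contra hcon
    push Not at hcon
    have htop : Submodule.span ℂ {v} = ⊤ := by
      rw [eq_top_iff]; intro x _; exact hcon x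
    have h3 : finrank ℂ (Submodule.span ℂ ({v} : Set (G I 1))) = 1 := finrank_span_singleton hv
    rw [htop, finrank_top] at h3
    omega
  obtain ⟨l1, rfl⟩ := Submodule.Quotient.mk_surjective _ v
  obtain ⟨l0, rfl⟩ := Submodule.Quotient.mk_surjective _ w
  refine ⟨l0, l0.2, l1, l1.2, fun h => hv ((mk_eq_zero_iff I 1 l1).mpr h), fun c h => hw ?_⟩
  have h4 : (Submodule.Quotient.mk (l0 - c • l1) : G I 1) = 0 := (mk_eq_zero_iff I 1 _).mpr h
  rw [Submodule.Quotient.mk_sub, Submodule.Quotient.mk_smul, sub_eq_zero] at h4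
  rw [h4]
  exact Submodule.smul_mem _ _ (Submodule.mem_span_singleton_self _)

end BijAux

open BijAux

theorem bij (I : GId) (t : ℕ) (h : dl I t = dl I (t + 1)) (h0 : 0 < dl I t) (h2 : 2 ≤ dl I 1) :
    ∃ (l : Poly) (hl : l ∈ Fm 1), l ∉ I.J 1 ∧ dl (colon I l hl) t < dl I t := by
  obtain ⟨l0, hl0, l1, hl1, hn1, hn⟩ := exists_pair I h2
  by_cases hinj : Function.Injective (mulG I l1 hl1 t)
  · have hfr : finrank ℂ (G I t) = finrank ℂ (G I (t + 1)) := by
      rw [finrank_G, finrank_G, h]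
    have : Nontrivial (G I t) := Module.nontrivial_of_finrank_pos (R := ℂ) (by
      rw [finrank_G]; exact h0)
    let e : G I t ≃ₗ[ℂ] G I (t + 1) := LinearEquiv.ofInjectiveOfFinrankEq (mulG I l1 hl1 t) hinj hfr
    have he : ∀ x, e x = mulG I l1 hl1 t x := fun x => rfl
    let f : Module.End ℂ (G I t) := e.symm.toLinearMap ∘ₗ mulG I l0 hl0 t
    obtain ⟨μ, hμ⟩ := Module.End.exists_eigenvalue f
    obtain ⟨v, hv⟩ := hμ.exists_hasEigenvector
    have hv1 : f v = μ • v := hv.apply_eq_smul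
    have hv0 : v ≠ 0 := hv.2
    have hv2 : mulG I l0 hl0 t v = μ • mulG I l1 hl1 t v := by
      have := congrArg e hv1
      rw [map_smul, he v] at this
      rw [← this]
      simp [f]
    obtain ⟨g, rfl⟩ := Submodule.Quotient.mk_surjective _ v
    rw [mulG_mk, mulG_mk, ← Submodule.Quotient.mk_smul, ← sub_eq_zero,
      ← Submodule.Quotient.mk_sub, mk_eq_zero_iff] at hv2
    have hg' : (g : Poly) ∉ I.J t := fun hh => hv0 ((mk_eq_zero_iff I t g).mpr hh)
    refine ⟨l0 - μ • l1, Submodule.sub_mem _ hl0 (Submodule.smul_mem _ _ hl1), hn μ,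
      lt_of_kernel I t _ _ g g.2 hg' ?_⟩
    have h5 : (l0 - μ • l1) * (g : Poly) = l0 * g - μ • (l1 * g) := by
      rw [sub_mul, smul_mul_assoc]
    rw [h5]
    exact hv2
  · rw [← LinearMap.ker_eq_bot, Submodule.eq_bot_iff] at hinj
    push Not at hinj
    obtain ⟨v, hv, hv0⟩ := hinj
    obtain ⟨g, rfl⟩ := Submodule.Quotient.mk_surjective _ v
    rw [LinearMap.mem_ker, mulG_mk, mk_eq_zero_iff] at hv
    have hg' : (g : Poly) ∉ I.J t := fun hh => hv0 ((mk_eq_zero_iff I t g).mpr hh)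
    exact ⟨l1, hl1, hn1, lt_of_kernel I t _ _ g g.2 hg' hv⟩

end Pool.Agent.Lib.Pc2352a
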