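import Pool.Agent.Lib.Pc2352a.Basic

/-!
# Restriction to a linear subspace

PROOF SKETCH. `pull L g` is the composition g ∘ L (substitute X i ↦ ∑ j, (L e_j)_i X j). It is
evaluated by eval_pull, maps forms to forms of the same degree, and is onto on forms of degree k
(L has a left inverse M, and pull of g ∘ M is g). pderiv_pull is the chain rule (check on X i and
products: both sides are derivations along the algebra map, MvPolynomial.induction_on).
pull_dim: with Z = image of Z' under L, g vanishes on Z iff pull L g vanishes on Z', so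
Fm k / (van Z)_k ≅ (forms in n variables) / (those vanishing on Z'). card_forms: number of
monomials of degree k in n variables (only n = 3, 4 are needed).
-/

open MvPolynomial Module

namespace Pool.Agent.Lib.Pc2352a

/-- Forms in `n` variables. -/
abbrev Fn (n k : ℕ) : Submodule ℂ (MvPolynomial (Fin n) ℂ) := homogeneousSubmodule (Fin n) ℂ k

/-- Forms of degree `k` in `n` variables vanishing on `Z`. -/
noncomputable def vanN {n : ℕ} (Z : Finset (Fin n → ℂ)) (k : ℕ) :
    Submodule ℂ (MvPolynomial (Fin n) ℂ) where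
  carrier := {g | g ∈ Fn n k ∧ ∀ v ∈ Z, eval v g = 0}
  add_mem' := by
    rintro a b ⟨ha, ha'⟩ ⟨hb, hb'⟩
    exact ⟨Submodule.add_mem _ ha hb, fun v hv => by rw [map_add, ha' v hv, hb' v hv, add_zero]⟩
  zero_mem' := ⟨Submodule.zero_mem _, fun v _ => by simp⟩
  smul_mem' := by
    rintro c a ⟨ha, ha'⟩
    exact ⟨Submodule.smul_mem _ c ha, fun v hv => by rw [smul_eval, ha' v hv, mul_zero]⟩

/-- Composition with a linear map. -/
noncomputable def pull {n : ℕ} (L : (Fin n → ℂ) →ₗ[ℂ] Vec) : Poly →ₐ[ℂ] MvPolynomial (Fin n) ℂ :=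
  aeval (fun i => ∑ j, C (L (Pi.single j 1) i) * X j)

namespace PullAux

/-- Composition with a linear map, general version. -/
noncomputable def pl {a b : ℕ} (M : (Fin a → ℂ) →ₗ[ℂ] (Fin b → ℂ)) :
    MvPolynomial (Fin b) ℂ →ₐ[ℂ] MvPolynomial (Fin a) ℂ :=
  aeval (fun i => ∑ j, C (M (Pi.single j 1) i) * X j)

lemma lin_apply {a b : ℕ} (M : (Fin a → ℂ) →ₗ[ℂ] (Fin b → ℂ)) (y : Fin a → ℂ) (i : Fin b) :
    M y i = ∑ j, M (Pi.single j 1) i * y j := by
  have h1 : y = ∑ j, y j • (Pi.single j (1:ℂ) : Fin a → ℂ) := by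
    ext k
    rw [Finset.sum_apply]
    simp [Pi.single_apply]
  conv_lhs => rw [h1]
  rw [map_sum, Finset.sum_apply]
  refine Finset.sum_congr rfl fun j _ => ?_
  rw [map_smul, Pi.smul_apply, smul_eq_mul, mul_comm]

lemma eval_pl {a b : ℕ} (M : (Fin a → ℂ) →ₗ[ℂ] (Fin b → ℂ)) (g : MvPolynomial (Fin b) ℂ)
    (y : Fin a → ℂ) : eval y (pl M g) = eval (M y) g := by
  have h : (aeval y : MvPolynomial (Fin a) ℂ →ₐ[ℂ] ℂ).comp (pl M) = aeval (M y) := by
    apply MvPolynomial.algHom_ext
    intro i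
    rw [AlgHom.comp_apply]
    unfold pl
    rw [aeval_X, aeval_X, map_sum, lin_apply M y i]
    refine Finset.sum_congr rfl fun j _ => ?_
    rw [map_mul, aeval_X, aeval_C]
    rfl
  have h2 := DFunLike.congr_fun h g
  rw [AlgHom.comp_apply] at h2
  rw [← aeval_eq_eval, ← aeval_eq_eval]
  exact h2

lemma pl_mem {a b : ℕ} (M : (Fin a → ℂ) →ₗ[ℂ] (Fin b → ℂ)) {k : ℕ} {g : MvPolynomial (Fin b) ℂ}
    (hg : g.IsHomogeneous k) : (pl M g).IsHomogeneous k := by
  have h1 : ∀ i : Fin b, (∑ j, C (M (Pi.single j 1) i) * X j :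
      MvPolynomial (Fin a) ℂ).IsHomogeneous 1 := by
    intro i
    refine IsHomogeneous.sum _ _ _ fun j _ => ?_
    have h2 := (isHomogeneous_C (Fin a) (M (Pi.single j 1) i)).mul (isHomogeneous_X ℂ j)
    rwa [zero_add] at h2
  have h2 := hg.aeval (fun i => ∑ j, C (M (Pi.single j 1) i) * X j) h1
  rwa [one_mul] at h2

end PullAux

lemma eval_pull {n : ℕ} (L : (Fin n → ℂ) →ₗ[ℂ] Vec) (g : Poly) (y : Fin n → ℂ) :
    eval y (pull L g) = eval (L y) g :=
  PullAux.eval_pl L g y

lemma pull_mem {n : ℕ} (L : (Fin n → ℂ) →ₗ[ℂ] Vec) {k : ℕ} {g : Poly} (hg : g ∈ Fm k) :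
    pull L g ∈ Fn n k :=
  PullAux.pl_mem L hg

lemma pull_surj {n : ℕ} (L : (Fin n → ℂ) →ₗ[ℂ] Vec) (hL : Function.Injective L) (k : ℕ)
    (g : MvPolynomial (Fin n) ℂ) (hg : g ∈ Fn n k) : ∃ g' ∈ Fm k, pull L g' = g := by
  obtain ⟨M, hM⟩ := LinearMap.exists_leftInverse_of_injective L (LinearMap.ker_eq_bot.2 hL)
  refine ⟨PullAux.pl M g, PullAux.pl_mem M hg, ?_⟩
  apply MvPolynomial.funext
  intro y
  rw [eval_pull, PullAux.eval_pl]
  have h1 : M (L y) = y := DFunLike.congr_fun hM y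
  rw [h1]

lemma pderiv_pull {n : ℕ} (L : (Fin n → ℂ) →ₗ[ℂ] Vec) (g : Poly) (j : Fin n) :
    pderiv j (pull L g) = ∑ i, C (L (Pi.single j 1) i) * pull L (pderiv i g) := by
  induction g using MvPolynomial.induction_on with
  | C a =>
    have h1 : pull L (C a) = C a := by
      unfold pull
      rw [aeval_C]
      rfl
    rw [h1, pderiv_C]
    symm
    refine Finset.sum_eq_zero fun i _ => ?_
    rw [pderiv_C, map_zero, mul_zero]
  | add p q hp hq =>
    rw [map_add, map_add, hp, hq, ← Finset.sum_add_distrib]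
    refine Finset.sum_congr rfl fun i _ => ?_
    rw [map_add, map_add, mul_add]
  | mul_X p k hp =>
    have hX : pull L (X k) = ∑ j, C (L (Pi.single j 1) k) * X j := by
      unfold pull
      rw [aeval_X]
    have hdX : pderiv j (pull L (X k)) = C (L (Pi.single j 1) k) := by
      rw [hX, map_sum]
      rw [Finset.sum_eq_single j]
      · rw [pderiv_C_mul, pderiv_X_self, mul_one]
      · intro b _ hb
        rw [pderiv_C_mul, pderiv_X_of_ne hb, mul_zero]
      · intro h
        exact absurd (Finset.mem_univ _) h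
    rw [map_mul, pderiv_mul, hp, hdX]
    have h2 : ∀ i, C (L (Pi.single j 1) i) * pull L (pderiv i (p * X k)) =
        C (L (Pi.single j 1) i) * pull L (pderiv i p) * pull L (X k) +
          (if i = k then pull L p * C (L (Pi.single j 1) k) else 0) := by
      intro i
      rw [pderiv_mul, map_add, map_mul, map_mul, mul_add, mul_assoc]
      congr 1
      by_cases hik : i = k
      · subst hik
        rw [pderiv_X_self, map_one, if_pos rfl]
        ring
      · rw [pderiv_X_of_ne (fun h => hik h.symm), map_zero, mul_zero, mul_zero, if_neg hik]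
    rw [Finset.sum_congr rfl fun i _ => h2 i, Finset.sum_add_distrib, Finset.sum_ite_eq',
      if_pos (Finset.mem_univ _), Finset.sum_mul]

instance finFn (n k : ℕ) : FiniteDimensional ℂ (Fn n k) :=
  Module.Finite.iff_fg.mpr (homogeneousSubmodule_fg (Fin n) ℂ k)

namespace PullAux

lemma finrank_map_aux {V V' : Type*} [AddCommGroup V] [Module ℂ V] [AddCommGroup V'] [Module ℂ V']
    (φ : V →ₗ[ℂ] V') (p : Submodule ℂ V) [FiniteDimensional ℂ p] :
    finrank ℂ (p.map φ) + finrank ℂ (LinearMap.ker φ ⊓ p : Submodule ℂ V) = finrank ℂ p := by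
  have h1 := LinearMap.finrank_range_add_finrank_ker (φ.domRestrict p)
  rw [LinearMap.range_domRestrict] at h1
  have h2 : (LinearMap.ker (φ.domRestrict p)).map p.subtype = LinearMap.ker φ ⊓ p := by
    ext x
    constructor
    · rintro ⟨y, hy, rfl⟩
      exact ⟨hy, y.2⟩
    · rintro ⟨hx1, hx2⟩
      exact ⟨⟨x, hx2⟩, hx1, rfl⟩
  have h3 := Submodule.finrank_map_subtype_eq p (LinearMap.ker (φ.domRestrict p))
  rw [h2] at h3
  rw [h3, h1]

end PullAux

theorem pull_dim {n : ℕ} (L : (Fin n → ℂ) →ₗ[ℂ] Vec) (hL : Function.Injective L)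
    (Z' : Finset (Fin n → ℂ)) (Z : Finset Vec) (hZ : ∀ v, v ∈ Z ↔ ∃ y ∈ Z', L y = v) (k : ℕ) :
    finrank ℂ (vanN Z' k) + dl (van Z) k = finrank ℂ (Fn n k) := by
  have e1 : (Fm k).map (pull L).toLinearMap = Fn n k := by
    apply le_antisymm
    · rintro _ ⟨g, hg, rfl⟩
      exact pull_mem L hg
    · intro g hg
      obtain ⟨g', hg', rfl⟩ := pull_surj L hL k g hg
      exact ⟨g', hg', rfl⟩
  have e2 : ((van Z).J k).map (pull L).toLinearMap = vanN Z' k := by
    apply le_antisymm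
    · rintro _ ⟨g, hg, rfl⟩
      refine ⟨pull_mem L hg.1, fun y hy => ?_⟩
      show eval y (pull L g) = 0
      rw [eval_pull]
      exact hg.2 _ ((hZ _).2 ⟨y, hy, rfl⟩)
    · intro g hg
      obtain ⟨g', hg', rfl⟩ := pull_surj L hL k g hg.1
      refine ⟨g', ⟨hg', fun v hv => ?_⟩, rfl⟩
      obtain ⟨y, hy, rfl⟩ := (hZ v).1 hv
      rw [← eval_pull]
      exact hg.2 y hy
  have e3 : LinearMap.ker (pull L).toLinearMap ⊓ (van Z).J k =
      LinearMap.ker (pull L).toLinearMap ⊓ Fm k := by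
    apply le_antisymm
    · exact inf_le_inf_left _ ((van Z).le k)
    · rintro g ⟨hg1, hg2⟩
      refine ⟨hg1, hg2, fun v hv => ?_⟩
      obtain ⟨y, _, rfl⟩ := (hZ v).1 hv
      rw [← eval_pull]
      have h1 : pull L g = 0 := hg1
      rw [h1, map_zero]
  have hfin : FiniteDimensional ℂ ((van Z).J k) :=
    Submodule.finiteDimensional_of_le ((van Z).le k)
  have h1 := PullAux.finrank_map_aux (pull L).toLinearMap (Fm k)
  have h2 := PullAux.finrank_map_aux (pull L).toLinearMap ((van Z).J k)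
  rw [e1] at h1
  rw [e2, e3] at h2
  have h3 := dl_add (van Z) k
  omega

namespace PullAux

lemma finrank_Fn (n k : ℕ) : finrank ℂ (Fn n k) = (n + k - 1).choose k := by
  have h1 : Fn n k = restrictSupport ℂ {d : Fin n →₀ ℕ | d.degree = k} :=
    homogeneousSubmodule_eq_finsupp_supported (Fin n) ℂ k
  rw [h1, Module.finrank_eq_nat_card_basis (basisRestrictSupport ℂ {d : Fin n →₀ ℕ | d.degree = k})]
  have h2 : {d : Fin n →₀ ℕ | d.degree = k} =
      ((Finset.univ : Finset (Fin n)).finsuppAntidiag k : Set (Fin n →₀ ℕ)) := by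
    ext d
    rw [Set.mem_ofPred_eq, Finset.mem_coe, Finset.mem_finsuppAntidiag, Finsupp.degree_eq_sum]
    exact ⟨fun h => ⟨h, Finset.subset_univ _⟩, fun h => h.1⟩
  rw [h2, Nat.card_coe_set_eq, Set.ncard_coe_finset, Finset.card_finsuppAntidiag_nat_eq_choose,
    Finset.card_univ, Fintype.card_fin]

end PullAux

lemma card_forms3 (k : ℕ) : finrank ℂ (Fn 3 k) = (k + 2).choose 2 := by
  rw [PullAux.finrank_Fn, show 3 + k - 1 = k + 2 by omega, ← Nat.choose_symm_add]

lemma card_forms4 (k : ℕ) : finrank ℂ (Fn 4 k) = (k + 3).choose 3 := by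
  rw [PullAux.finrank_Fn, show 4 + k - 1 = k + 3 by omega, ← Nat.choose_symm_add]

end Pool.Agent.Lib.Pc2352a
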