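import Pool.Agent.Lib.Pc2352a.Points
import Pool.Agent.Lib.Pc2352a.Pull

/-!
# Singular points on a quadric surface: transversality

PROOF SKETCH. pull L F vanishes where q does; q is irreducible, so q ∣ pull L F (Nullstellensatz:
MvPolynomial.vanishingIdeal_zeroLocus_eq_radical, (q) is prime), pull L F = q B with B a form of
degree d-2. Choose n ∈ ℂ⁵ not in the range of L and A = ∑ i, C (n i) * pull L (pderiv i F), a form of
degree d-1. If q(y) = B(y) = 0 then all partial derivatives of q B vanish at y, that is (chain rule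
pderiv_pull) the derivatives of F at L y in the directions of range L vanish; A(y) = 0 is the
derivative in direction n; so all partial derivatives of F vanish at L y.
Independence: suppose ∇q(y), ∇A(y), ∇B(y) span at most 2 dimensions; K = {u ∈ ℂ⁴ orthogonal to the
three} has dimension ≥ 2. For u ∈ K, L u is in the kernel of hess F (L y): pairing with L u':
second derivative of q B at y in directions u, u' = (∇q·u)(∇B·u') + (∇q·u')(∇B·u) (as q, B vanish at
y) = 0; pairing with n: derivative of A at y in direction u = ∇A·u = 0. So the kernel of the 5 × 5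
Hessian has dimension ≥ 2 and its rank is ≤ 3, contradiction with 4.
-/

open MvPolynomial Module

namespace Pool.Agent.Lib.Pc2352a

namespace CountA

/-- The linear functional with coefficients `c`. -/
noncomputable def fun5 (c : Vec) : Vec →ₗ[ℂ] ℂ := ∑ i, c i • LinearMap.proj i

lemma fun5_apply (c w : Vec) : fun5 c w = ∑ i, w i * c i := by
  simp [fun5, mul_comm]

lemma map_eq_sum {n : ℕ} (L : (Fin n → ℂ) →ₗ[ℂ] Vec) (u : Fin n → ℂ) :
    L u = ∑ j, u j • L (Pi.single j 1) := by
  conv_lhs => rw [pi_eq_sum_univ' u]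
  rw [map_sum]
  refine Finset.sum_congr rfl fun j _ => ?_
  rw [map_smul]

/-- A functional vanishing on the range of `L` and on a vector outside it is zero. -/
lemma fun5_zero (L : (Fin 4 → ℂ) →ₗ[ℂ] Vec) (hL : Function.Injective L) (n : Vec)
    (hn : n ∉ LinearMap.range L) (c : Vec) (h1 : ∀ j, fun5 c (L (Pi.single j 1)) = 0)
    (h2 : fun5 c n = 0) : c = 0 := by
  have hr : finrank ℂ (LinearMap.range L) = 4 := by
    rw [LinearMap.finrank_range_of_inj hL]; simp
  have hle : LinearMap.range L ≤ LinearMap.ker (fun5 c) := by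
    rintro _ ⟨u, rfl⟩
    rw [LinearMap.mem_ker, map_eq_sum, map_sum]
    refine Finset.sum_eq_zero fun j _ => ?_
    rw [map_smul, h1, smul_zero]
  have hlt : LinearMap.range L < LinearMap.ker (fun5 c) := by
    refine lt_of_le_of_ne hle fun he => hn ?_
    rw [he]; exact h2
  have h5 : finrank ℂ (LinearMap.ker (fun5 c)) = 5 := by
    have h3 := Submodule.finrank_lt_finrank_of_lt hlt
    have h4 := Submodule.finrank_le (LinearMap.ker (fun5 c))
    simp only [finrank_fintype_fun_eq_card, Fintype.card_fin] at h4
    omega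
  have htop : LinearMap.ker (fun5 c) = ⊤ := by
    apply Submodule.eq_top_of_finrank_eq
    simp [h5]
  have h0 : fun5 c = 0 := LinearMap.ker_eq_top.mp htop
  funext i
  have := congrArg (fun f => f (Pi.single i 1)) h0
  simpa [fun5_apply, Pi.single_apply] using this

lemma exists_not_range (L : (Fin 4 → ℂ) →ₗ[ℂ] Vec) (hL : Function.Injective L) :
    ∃ n : Vec, n ∉ LinearMap.range L := by
  by_contra hc
  push Not at hc
  have htop : LinearMap.range L = ⊤ := by
    rw [eq_top_iff]; intro x _; exact hc x
  have hr : finrank ℂ (LinearMap.range L) = 4 := by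
    rw [LinearMap.finrank_range_of_inj hL]; simp
  rw [htop] at hr
  simp at hr

lemma pderiv_comm' {σ : Type*} (i j : σ) (f : MvPolynomial σ ℂ) :
    pderiv i (pderiv j f) = pderiv j (pderiv i f) := by
  classical
  induction f using MvPolynomial.induction_on with
  | C a => simp
  | add p q hp hq => simp [hp, hq]
  | mul_X p k hp =>
    simp only [pderiv_mul, map_add, hp]
    have h1 : ∀ a b : σ, pderiv a (pderiv b (X k : MvPolynomial σ ℂ)) = 0 := by
      intro a b
      rw [pderiv_X, Pi.single_apply]
      split_ifs <;> simp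
    rw [h1, h1]
    ring

lemma dsum (a : Vec) (H : Fin 5 → Fin 5 → ℂ) (hH : ∀ i j, H i j = H j i) (b : Fin 4 → Vec)
    (u : Fin 4 → ℂ) :
    ∑ i, a i * ∑ j, H i j * ∑ k, u k * b k j = ∑ k, u k * ∑ i, a i * ∑ m, b k m * H m i := by
  simp only [Finset.mul_sum]
  conv_rhs => rw [Finset.sum_comm]
  refine Finset.sum_congr rfl fun i _ => ?_
  rw [Finset.sum_comm]
  refine Finset.sum_congr rfl fun k _ => ?_
  refine Finset.sum_congr rfl fun m _ => ?_
  rw [hH i m]
  ring

/-- Extracting the degree part of a factorisation. -/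
lemma factor {d e : ℕ} {P q B : MvPolynomial (Fin 4) ℂ} (hP : P.IsHomogeneous (e + d))
    (hq : q.IsHomogeneous e) (h : P = q * B) :
    ∃ B' : MvPolynomial (Fin 4) ℂ, B'.IsHomogeneous d ∧ P = q * B' := by
  refine ⟨homogeneousComponent d B, homogeneousComponent_isHomogeneous _ _, ?_⟩
  have h1 : homogeneousComponent (e + d) P = P := homogeneousComponent_eq_self hP
  have h2 : homogeneousComponent (e + d) (q * B) = q * homogeneousComponent d B := by
    let := MvPolynomial.gradedAlgebra (σ := Fin 4) (R := ℂ)
    have h3 := DirectSum.coe_decompose_mul_of_left_mem_of_le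
      (𝒜 := homogeneousSubmodule (Fin 4) ℂ) (a := q) (b := B) (n := e + d) (i := e) hq (by omega)
    rw [Nat.add_sub_cancel_left] at h3
    have h4 : ∀ (φ : MvPolynomial (Fin 4) ℂ) (i : ℕ),
        ((DirectSum.decompose (homogeneousSubmodule (Fin 4) ℂ) φ i : _) :
          MvPolynomial (Fin 4) ℂ) = homogeneousComponent i φ := fun φ i =>
      decomposition.decompose'_apply φ i
    rw [h4, h4] at h3
    exact h3
  rw [← h1, h, h2]

end CountA

open CountA

theorem countA (d : ℕ) (hd : 3 ≤ d) (F : Poly) (hF : F.IsHomogeneous d)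
    (hr : ∀ v : Vec, v ≠ 0 → (∀ i, eval v (pderiv i F) = 0) → (hess F v).rank = 4)
    (L : (Fin 4 → ℂ) →ₗ[ℂ] Vec) (hL : Function.Injective L) (q : MvPolynomial (Fin 4) ℂ)
    (hq : q.IsHomogeneous 2) (hqi : Irreducible q)
    (hqF : ∀ v, eval v q = 0 → eval (L v) F = 0) :
    ∃ A B : MvPolynomial (Fin 4) ℂ, A.IsHomogeneous (d - 1) ∧ B.IsHomogeneous (d - 2) ∧
      (∀ y, eval y q = 0 → eval y A = 0 → eval y B = 0 → ∀ i, eval (L y) (pderiv i F) = 0) ∧
      ∀ y, y ≠ 0 → eval y q = 0 → eval y A = 0 → eval y B = 0 →
        LinearIndependent ℂ ![fun i => eval y (pderiv i q), fun i => eval y (pderiv i A),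
          fun i => eval y (pderiv i B)] := by
  classical
  -- the factorisation
  have hPd : (pull L F).IsHomogeneous d := pull_mem L hF
  have hdiv : q ∣ pull L F := by
    have hprime : (Ideal.span {q} : Ideal (MvPolynomial (Fin 4) ℂ)).IsPrime :=
      (Ideal.span_singleton_prime hqi.ne_zero).mpr hqi.prime
    rw [← Ideal.mem_span_singleton, ← MvPolynomial.IsPrime.vanishingIdeal_zeroLocus (K := ℂ)
      (Ideal.span {q}), mem_vanishingIdeal_iff]
    intro x hx
    have h1 : eval x q = 0 := by
      have := hx q (Ideal.mem_span_singleton_self q)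
      simpa [MvPolynomial.coe_aeval_eq_eval] using this
    have h2 := hqF x h1
    rw [← eval_pull] at h2
    simpa [MvPolynomial.coe_aeval_eq_eval] using h2
  obtain ⟨B0, hB0⟩ := hdiv
  have hd2 : 2 + (d - 2) = d := by omega
  obtain ⟨B, hBd, hPB⟩ := factor (d := d - 2) (e := 2) (by rw [hd2]; exact hPd) hq hB0
  obtain ⟨n, hn⟩ := exists_not_range L hL
  set A : MvPolynomial (Fin 4) ℂ := ∑ i, C (n i) * pull L (pderiv i F) with hA
  have hAd : A.IsHomogeneous (d - 1) := by
    refine IsHomogeneous.sum _ _ _ fun i _ => ?_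
    exact (pull_mem L (hF.pderiv : (pderiv i F).IsHomogeneous (d - 1))).C_mul _
  -- chain rules
  have hch1 : ∀ y j, eval y (pderiv j (pull L F)) =
      ∑ i, (L (Pi.single j 1) i) * eval (L y) (pderiv i F) := by
    intro y j
    rw [pderiv_pull, map_sum]
    refine Finset.sum_congr rfl fun i _ => ?_
    rw [map_mul, eval_C, eval_pull]
  have hch2 : ∀ y j l, eval y (pderiv l (pderiv j (pull L F))) =
      ∑ i, (L (Pi.single j 1) i) * ∑ m, (L (Pi.single l 1) m) *
        eval (L y) (pderiv m (pderiv i F)) := by
    intro y j l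
    rw [pderiv_pull, map_sum, map_sum]
    refine Finset.sum_congr rfl fun i _ => ?_
    rw [pderiv_C_mul, map_mul, eval_C, pderiv_pull, map_sum]
    congr 1
    refine Finset.sum_congr rfl fun m _ => ?_
    rw [map_mul, eval_C, eval_pull]
  have hchA : ∀ y j, eval y (pderiv j A) =
      ∑ i, n i * ∑ m, (L (Pi.single j 1) m) * eval (L y) (pderiv m (pderiv i F)) := by
    intro y j
    rw [hA, map_sum, map_sum]
    refine Finset.sum_congr rfl fun i _ => ?_
    rw [pderiv_C_mul, map_mul, eval_C, pderiv_pull, map_sum]
    congr 1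
    refine Finset.sum_congr rfl fun m _ => ?_
    rw [map_mul, eval_C, eval_pull]
  have hAe : ∀ y, eval y A = ∑ i, n i * eval (L y) (pderiv i F) := by
    intro y
    rw [hA, map_sum]
    refine Finset.sum_congr rfl fun i _ => ?_
    rw [map_mul, eval_C, eval_pull]
  have hsing : ∀ y, eval y q = 0 → eval y A = 0 → eval y B = 0 →
      ∀ i, eval (L y) (pderiv i F) = 0 := by
    intro y hyq hyA hyB
    have h0 : (fun i => eval (L y) (pderiv i F)) = (0 : Vec) := by
      apply fun5_zero L hL n hn
      · intro j
        rw [fun5_apply, ← hch1, hPB, pderiv_mul, map_add, map_mul, map_mul, hyq, hyB]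
        ring
      · rw [fun5_apply, ← hAe, hyA]
    intro i
    exact congrFun h0 i
  refine ⟨A, B, hAd, hBd, hsing, ?_⟩
  intro y hy0 hyq hyA hyB
  by_contra hdep
  have hLy : L y ≠ 0 := fun h => hy0 (hL (by rw [h, map_zero]))
  have hrank := hr (L y) hLy (hsing y hyq hyA hyB)
  -- the space orthogonal to the three gradients
  set G : Fin 3 → (Fin 4 → ℂ) := ![fun i => eval y (pderiv i q), fun i => eval y (pderiv i A),
          fun i => eval y (pderiv i B)] with hG
  have hspan : finrank ℂ (Submodule.span ℂ (Set.range G)) ≤ 2 := by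
    by_contra hc
    apply hdep
    rw [linearIndependent_iff_card_le_finrank_span]
    simp only [Fintype.card_fin, Set.finrank]
    omega
  set M : Matrix (Fin 3) (Fin 4) ℂ := Matrix.of G with hM
  have hMr : M.rank ≤ 2 := by
    rw [Matrix.rank_eq_finrank_span_row]
    exact hspan
  have hK : 2 ≤ finrank ℂ (LinearMap.ker M.mulVecLin) := by
    have h1 := LinearMap.finrank_range_add_finrank_ker M.mulVecLin
    simp only [finrank_fintype_fun_eq_card, Fintype.card_fin] at h1
    have h2 : finrank ℂ (LinearMap.range M.mulVecLin) ≤ 2 := hMr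
    omega
  have hker : (LinearMap.ker M.mulVecLin).map L ≤ LinearMap.ker (hess F (L y)).mulVecLin := by
    rintro _ ⟨u, hu, rfl⟩
    have hu' : ∀ k, ∑ j, G k j * u j = 0 := by
      intro k
      have h1 : M.mulVec u = 0 := by simpa using hu
      have h2 := congrFun h1 k
      simpa [Matrix.mulVec, dotProduct, hM] using h2
    have hu0 : ∑ j, eval y (pderiv j q) * u j = 0 := by simpa [hG] using hu' 0
    have hu1 : ∑ j, eval y (pderiv j A) * u j = 0 := by simpa [hG] using hu' 1
    have hu2 : ∑ j, eval y (pderiv j B) * u j = 0 := by simpa [hG] using hu' 2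
    rw [LinearMap.mem_ker, Matrix.mulVecLin_apply]
    have hLu : ∀ i, L u i = ∑ k, u k * L (Pi.single k 1) i := by
      intro i
      rw [map_eq_sum L u]
      simp
    apply fun5_zero L hL n hn
    · intro l
      rw [fun5_apply]
      have h1 : ∑ i, L (Pi.single l 1) i * ((hess F (L y)).mulVec (L u)) i =
          ∑ k, u k * eval y (pderiv k (pderiv l (pull L F))) := by
        simp only [hch2, Matrix.mulVec, dotProduct, hess, Matrix.of_apply, hLu]
        exact dsum (L (Pi.single l 1)) (fun i j => eval (L y) (pderiv i (pderiv j F)))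
          (fun i j => by rw [pderiv_comm']) (fun k => L (Pi.single k 1)) u
      rw [h1, hPB]
      have h2 : ∀ k, eval y (pderiv k (pderiv l (q * B))) =
          eval y (pderiv l q) * eval y (pderiv k B) + eval y (pderiv k q) * eval y (pderiv l B) := by
        intro k
        rw [pderiv_mul, map_add, pderiv_mul, pderiv_mul]
        simp only [map_add, map_mul, hyq, hyB]
        ring
      simp only [h2, mul_add, Finset.sum_add_distrib]
      have h3 : ∑ k, u k * (eval y (pderiv l q) * eval y (pderiv k B)) =
          eval y (pderiv l q) * ∑ k, eval y (pderiv k B) * u k := by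
        rw [Finset.mul_sum]
        exact Finset.sum_congr rfl fun k _ => by ring
      have h4 : ∑ k, u k * (eval y (pderiv k q) * eval y (pderiv l B)) =
          eval y (pderiv l B) * ∑ k, eval y (pderiv k q) * u k := by
        rw [Finset.mul_sum]
        exact Finset.sum_congr rfl fun k _ => by ring
      rw [h3, h4, hu2, hu0]
      ring
    · rw [fun5_apply]
      have h1 : ∑ i, n i * ((hess F (L y)).mulVec (L u)) i =
          ∑ k, eval y (pderiv k A) * u k := by
        simp only [hchA, Matrix.mulVec, dotProduct, hess, Matrix.of_apply, hLu]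
        rw [dsum n (fun i j => eval (L y) (pderiv i (pderiv j F)))
          (fun i j => by rw [pderiv_comm']) (fun k => L (Pi.single k 1)) u]
        exact Finset.sum_congr rfl fun k _ => mul_comm _ _
      rw [h1, hu1]
  have h6 : finrank ℂ (LinearMap.ker M.mulVecLin) ≤
      finrank ℂ (LinearMap.ker (hess F (L y)).mulVecLin) := by
    rw [LinearEquiv.finrank_eq (Submodule.equivMapOfInjective L hL (LinearMap.ker M.mulVecLin))]
    exact Submodule.finrank_mono hker
  have h7 := LinearMap.finrank_range_add_finrank_ker (hess F (L y)).mulVecLin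
  simp only [finrank_fintype_fun_eq_card, Fintype.card_fin] at h7
  have h8 : finrank ℂ (LinearMap.range (hess F (L y)).mulVecLin) = 4 := hrank
  omega

end Pool.Agent.Lib.Pc2352a
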