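import Pool.Agent.Lib.Pc2352a.Pull

/-!
# Counting the common zeros on a quadric: lower bound of the Hilbert function

PROOF SKETCH. idl4 q A B a b k = q Fn(k-2) + A Fn(k-a) + B Fn(k-b). dim (Fn k / q Fn(k-2)) =
(k+3).choose 3 - (k+1).choose 3 = (k+1)^2 =: h k. Put R' k = Fn k / q Fn (k-2).
Case q ∤ A: multiplication by A is injective on R' (q is prime), so
dim (Fn k / (q,A)_k) = h k - h (k-a) = a (2k + 2 - a) for k ≥ a, and (B Fn(k-b) has image a quotient
of Fn(k-b)/(q,A)_(k-b)) dim (Fn k / idl) ≥ a (2k+2-a) - a (2(k-b)+2-a) = 2ab for k ≥ a+b.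
Case q ∣ A: idl = q Fn(k-2) + B Fn(k-b) (A Fn(k-a) ⊆ q Fn(k-2) since the quotient A/q is a form of
degree a-2), dim (Fn k / idl) ≥ h k - h (k-b) = b (2k+2-b) ≥ 2ab for k ≥ a + b.
-/

open MvPolynomial Module

namespace Pool.Agent.Lib.Pc2352a

/-- Degree `k` part of the ideal `(q, A, B)`. -/
noncomputable def idl4 (q A B : MvPolynomial (Fin 4) ℂ) (a b k : ℕ) :
    Submodule ℂ (MvPolynomial (Fin 4) ℂ) :=
  (Fn 4 (k - 2)).map (LinearMap.mulLeft ℂ q) ⊔ (Fn 4 (k - a)).map (LinearMap.mulLeft ℂ A) ⊔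
    (Fn 4 (k - b)).map (LinearMap.mulLeft ℂ B)

namespace CountBAux

/-- A cofactor of a form in a form is a form. -/
lemma factor_mem {σ : Type*} {m n : ℕ} {q x : MvPolynomial σ ℂ} (hq : q.IsHomogeneous m)
    (hq0 : q ≠ 0) (h : (q * x).IsHomogeneous (n + m)) : x.IsHomogeneous n := by
  have h1 : homogeneousComponent (n + m) (q * x) = q * x := homogeneousComponent_eq_self h
  have h2 : homogeneousComponent (n + m) (q * x) =
      ∑ i ∈ Finset.range (x.totalDegree + 1), if i = n then q * homogeneousComponent i x else 0 := by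
    conv_lhs => rw [← sum_homogeneousComponent x]
    rw [Finset.mul_sum, map_sum]
    refine Finset.sum_congr rfl fun i _ => ?_
    have h3 : q * homogeneousComponent i x ∈ homogeneousSubmodule σ ℂ (m + i) :=
      hq.mul (homogeneousComponent_isHomogeneous i x)
    rw [homogeneousComponent_of_mem h3]
    by_cases hi : i = n
    · rw [if_pos (by omega), if_pos hi]
    · rw [if_neg (by omega), if_neg hi]
  rw [Finset.sum_ite_eq'] at h2
  split_ifs at h2 with h3
  · have h4 : q * x = q * homogeneousComponent n x := h1.symm.trans h2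
    have h5 := mul_left_cancel₀ hq0 h4
    rw [h5]
    exact homogeneousComponent_isHomogeneous n x
  · have h4 : q * x = 0 := h1.symm.trans h2
    rw [(mul_eq_zero.1 h4).resolve_left hq0]
    exact isHomogeneous_zero _ _ _

/-- The dimension of a sum with an image. -/
lemma finrank_sup_map_le {V : Type*} [AddCommGroup V] [Module ℂ V] (φ : V →ₗ[ℂ] V)
    (W F K : Submodule ℂ V) [FiniteDimensional ℂ W] [FiniteDimensional ℂ F] (hK : K ≤ F)
    (h : K.map φ ≤ W) :
    finrank ℂ (W ⊔ F.map φ : Submodule ℂ V) + finrank ℂ K ≤ finrank ℂ W + finrank ℂ F := by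
  obtain ⟨C, hC⟩ := exists_isCompl K
  have h1 : K ⊔ (C ⊓ F) = F := by
    rw [← sup_inf_assoc_of_le C hK, hC.sup_eq_top, top_inf_eq]
  have h2 : K ⊓ (C ⊓ F) = ⊥ := by
    rw [← inf_assoc, hC.inf_eq_bot, bot_inf_eq]
  have hKf : FiniteDimensional ℂ K := Submodule.finiteDimensional_of_le hK
  have hCf : FiniteDimensional ℂ (C ⊓ F : Submodule ℂ V) :=
    Submodule.finiteDimensional_of_le inf_le_right
  have h3 := Submodule.finrank_sup_add_finrank_inf_eq K (C ⊓ F)
  rw [h1, h2, finrank_bot, add_zero] at h3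
  have h4 : W ⊔ F.map φ ≤ W ⊔ (C ⊓ F).map φ := by
    refine sup_le le_sup_left ?_
    rw [← h1, Submodule.map_sup]
    refine sup_le (h.trans le_sup_left) ?_
    rw [h1]
    exact le_sup_right
  have h5 := Submodule.finrank_mono h4
  have h6 := Submodule.finrank_add_le_finrank_add_finrank W ((C ⊓ F).map φ)
  have h7 := Submodule.finrank_map_le φ (C ⊓ F)
  omega

lemma finrank_mulLeft {n : ℕ} {q : MvPolynomial (Fin n) ℂ} (hq : q ≠ 0)
    (S : Submodule ℂ (MvPolynomial (Fin n) ℂ)) :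
    finrank ℂ (S.map (LinearMap.mulLeft ℂ q)) = finrank ℂ S := by
  have hinj : Function.Injective (LinearMap.mulLeft ℂ q) := mul_right_injective₀ hq
  exact (LinearEquiv.finrank_eq (Submodule.equivMapOfInjective _ hinj S)).symm

lemma finrank_mulLeft_le {n : ℕ} (q : MvPolynomial (Fin n) ℂ)
    (S : Submodule ℂ (MvPolynomial (Fin n) ℂ)) [FiniteDimensional ℂ S] :
    finrank ℂ (S.map (LinearMap.mulLeft ℂ q)) ≤ finrank ℂ S :=
  Submodule.finrank_map_le _ _

lemma choose_step (x : ℕ) : (x + 5).choose 3 = (x + 3).choose 3 + (x + 3) ^ 2 := by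
  have h2 : (x + 3).choose 2 + (x + 4).choose 2 = (x + 3) ^ 2 := by
    induction x with
    | zero => decide
    | succ x ih =>
      have e1 : (x + 1 + 3).choose 2 = (x + 3) + (x + 3).choose 2 := by
        rw [show x + 1 + 3 = (x + 3) + 1 by omega, Nat.choose_succ_succ' (x + 3) 1,
          Nat.choose_one_right]
      have e2 : (x + 1 + 4).choose 2 = (x + 4) + (x + 4).choose 2 := by
        rw [show x + 1 + 4 = (x + 4) + 1 by omega, Nat.choose_succ_succ' (x + 4) 1,
          Nat.choose_one_right]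
      rw [e1, e2]
      nlinarith
  have e1 : (x + 5).choose 3 = (x + 4).choose 2 + (x + 4).choose 3 :=
    Nat.choose_succ_succ' (x + 4) 2
  have e2 : (x + 4).choose 3 = (x + 3).choose 2 + (x + 3).choose 3 :=
    Nat.choose_succ_succ' (x + 3) 2
  omega

lemma mul_mem_Fn {n i j : ℕ} {f g : MvPolynomial (Fin n) ℂ} (hf : f.IsHomogeneous i)
    (hg : g ∈ Fn n j) : f * g ∈ Fn n (i + j) := hf.mul hg

lemma U_upper {n : ℕ} (q A : MvPolynomial (Fin n) ℂ) (a m : ℕ) (hq : q.IsHomogeneous 2)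
    (hA : A.IsHomogeneous a) (hq0 : q ≠ 0) :
    finrank ℂ ((Fn n (m + a)).map (LinearMap.mulLeft ℂ q) ⊔
      (Fn n (m + 2)).map (LinearMap.mulLeft ℂ A) : Submodule ℂ (MvPolynomial (Fin n) ℂ)) +
      finrank ℂ (Fn n m) ≤ finrank ℂ (Fn n (m + a)) + finrank ℂ (Fn n (m + 2)) := by
  have h1 := finrank_sup_map_le (LinearMap.mulLeft ℂ A)
    ((Fn n (m + a)).map (LinearMap.mulLeft ℂ q)) (Fn n (m + 2))
    ((Fn n m).map (LinearMap.mulLeft ℂ q)) (by
      rintro _ ⟨g, hg, rfl⟩
      have := mul_mem_Fn hq hg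
      rwa [add_comm] at this) (by
      rintro _ ⟨_, ⟨g, hg, rfl⟩, rfl⟩
      refine ⟨A * g, ?_, ?_⟩
      · have := mul_mem_Fn hA hg
        rwa [add_comm] at this
      · simp only [LinearMap.mulLeft_apply]; ring)
  rw [finrank_mulLeft hq0, finrank_mulLeft hq0] at h1
  exact h1

lemma U_lower {n : ℕ} (q A : MvPolynomial (Fin n) ℂ) (a m : ℕ) (hq : q.IsHomogeneous 2)
    (hqp : Prime q) (hqA : ¬ q ∣ A) :
    finrank ℂ (Fn n (m + a)) + finrank ℂ (Fn n (m + 2)) ≤
    finrank ℂ ((Fn n (m + a)).map (LinearMap.mulLeft ℂ q) ⊔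
      (Fn n (m + 2)).map (LinearMap.mulLeft ℂ A) : Submodule ℂ (MvPolynomial (Fin n) ℂ)) +
      finrank ℂ (Fn n m) := by
  have hq0 : q ≠ 0 := hqp.ne_zero
  have hA0 : A ≠ 0 := fun h => hqA (h ▸ dvd_zero q)
  have h1 := Submodule.finrank_sup_add_finrank_inf_eq ((Fn n (m + a)).map (LinearMap.mulLeft ℂ q))
    ((Fn n (m + 2)).map (LinearMap.mulLeft ℂ A))
  rw [finrank_mulLeft hq0, finrank_mulLeft hA0] at h1
  have h2 : (Fn n (m + a)).map (LinearMap.mulLeft ℂ q) ⊓
      (Fn n (m + 2)).map (LinearMap.mulLeft ℂ A) ≤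
      (Fn n m).map (LinearMap.mulLeft ℂ (q * A)) := by
    intro u hu
    obtain ⟨⟨x, hx, rfl⟩, ⟨y, hy, hxy⟩⟩ := Submodule.mem_inf.mp hu
    simp only [LinearMap.mulLeft_apply] at hxy
    have h3 : q ∣ A * y := ⟨x, hxy⟩
    obtain ⟨z, rfl⟩ := (hqp.dvd_or_dvd h3).resolve_left hqA
    refine ⟨z, factor_mem hq hq0 hy, ?_⟩
    simp only [LinearMap.mulLeft_apply]
    rw [← hxy]; ring
  have h3 := Submodule.finrank_mono h2
  have h4 := finrank_mulLeft_le (q * A) (Fn n m)
  omega

end CountBAux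

open CountBAux in
theorem countB1 (q A B : MvPolynomial (Fin 4) ℂ) (a b k : ℕ) (ha : 1 ≤ a) (hb : 1 ≤ b)
    (hk : a + b + 2 ≤ k) (hq : q.IsHomogeneous 2) (hqi : Irreducible q)
    (hA : A.IsHomogeneous a) (hB : B.IsHomogeneous b) :
    2 * a * b + finrank ℂ (idl4 q A B a b k) ≤ finrank ℂ (Fn 4 k) := by
  have hqp : Prime q := hqi.prime
  have hq0 : q ≠ 0 := hqp.ne_zero
  obtain ⟨x, rfl⟩ : ∃ x, k = x + a + b + 2 := ⟨k - (a + b + 2), by omega⟩
  have hcf : ∀ m, finrank ℂ (Fn 4 (m + 2)) = finrank ℂ (Fn 4 m) + (m + 3) ^ 2 := fun m => by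
    rw [card_forms4, card_forms4]
    exact choose_step m
  have hk2 : x + a + b + 2 - 2 = x + b + a := by omega
  have hka : x + a + b + 2 - a = x + b + 2 := by omega
  have hkb : x + a + b + 2 - b = x + a + 2 := by omega
  unfold idl4
  rw [hk2, hka, hkb]
  by_cases hqA : q ∣ A
  · obtain ⟨A', rfl⟩ := hqA
    have hle : (Fn 4 (x + b + 2)).map (LinearMap.mulLeft ℂ (q * A')) ≤
        (Fn 4 (x + b + a)).map (LinearMap.mulLeft ℂ q) := by
      rintro _ ⟨g, hg, rfl⟩
      refine ⟨A' * g, ?_, ?_⟩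
      · have h1 : (q * (A' * g)).IsHomogeneous (x + b + a + 2) := by
          have h2 := mul_mem_Fn hA hg
          rw [← mul_assoc, show x + b + a + 2 = a + (x + b + 2) by omega]
          exact h2
        exact factor_mem hq hq0 h1
      · simp only [LinearMap.mulLeft_apply]; ring
    rw [sup_eq_left.2 hle]
    have h1 := finrank_sup_map_le (LinearMap.mulLeft ℂ B)
      ((Fn 4 (x + b + a)).map (LinearMap.mulLeft ℂ q)) (Fn 4 (x + a + 2))
      ((Fn 4 (x + a)).map (LinearMap.mulLeft ℂ q)) (by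
        rintro _ ⟨g, hg, rfl⟩
        have := mul_mem_Fn hq hg
        rwa [add_comm] at this) (by
        rintro _ ⟨_, ⟨g, hg, rfl⟩, rfl⟩
        refine ⟨B * g, ?_, ?_⟩
        · have := mul_mem_Fn hB hg
          rwa [show b + (x + a) = x + b + a by omega] at this
        · simp only [LinearMap.mulLeft_apply]; ring)
    rw [finrank_mulLeft hq0, finrank_mulLeft hq0, hcf (x + a)] at h1
    have h2 := hcf (x + b + a)
    rw [show x + a + b + 2 = x + b + a + 2 by omega, h2]
    have h3 : 2 * a * b + (x + a + 3) ^ 2 ≤ (x + b + a + 3) ^ 2 := by nlinarith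
    omega
  · have h1 := finrank_sup_map_le (LinearMap.mulLeft ℂ B)
      ((Fn 4 (x + b + a)).map (LinearMap.mulLeft ℂ q) ⊔
        (Fn 4 (x + b + 2)).map (LinearMap.mulLeft ℂ A)) (Fn 4 (x + a + 2))
      ((Fn 4 (x + a)).map (LinearMap.mulLeft ℂ q) ⊔ (Fn 4 (x + 2)).map (LinearMap.mulLeft ℂ A))
      (by
        refine sup_le ?_ ?_
        · rintro _ ⟨g, hg, rfl⟩
          have := mul_mem_Fn hq hg
          rwa [add_comm] at this
        · rintro _ ⟨g, hg, rfl⟩
          have := mul_mem_Fn hA hg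
          rwa [show a + (x + 2) = x + a + 2 by omega] at this) (by
        rw [Submodule.map_sup]
        refine sup_le_sup ?_ ?_
        · rintro _ ⟨_, ⟨g, hg, rfl⟩, rfl⟩
          refine ⟨B * g, ?_, ?_⟩
          · have := mul_mem_Fn hB hg
            rwa [show b + (x + a) = x + b + a by omega] at this
          · simp only [LinearMap.mulLeft_apply]; ring
        · rintro _ ⟨_, ⟨g, hg, rfl⟩, rfl⟩
          refine ⟨B * g, ?_, ?_⟩
          · have := mul_mem_Fn hB hg
            rwa [show b + (x + 2) = x + b + 2 by omega] at this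
          · simp only [LinearMap.mulLeft_apply]; ring)
    have h2 := U_upper q A a (x + b) hq hA hq0
    have h3 := U_lower q A a x hq hqp hqA
    have e1 := hcf (x + b + a)
    have e2 := hcf (x + b)
    have e3 := hcf (x + a)
    have e4 := hcf x
    rw [show x + a + b + 2 = x + b + a + 2 by omega]
    have h4 : 2 * a * b + (x + a + 3) ^ 2 + (x + b + 3) ^ 2 = (x + b + a + 3) ^ 2 + (x + 3) ^ 2 := by
      ring
    omega

end Pool.Agent.Lib.Pc2352a
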