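import Pool.Agent.Lib.Pc2352a.CountB

/-!
# Counting the common zeros: transversal zeros give a reduced scheme

PROOF SKETCH. Let I = (q, A, B) in R = ℂ[X₀..X₃]. By hT the common zeros are finitely many lines
through 0; choose a linear form ℓ not vanishing on the nonzero ones, and let Z' be the common zeros
with ℓ = 1 (finite: multiples of elements of T4). C = R / (I + (ℓ - 1)): its maximal ideals
correspond to the points of Z' (Nullstellensatz). At z ∈ Z' the gradients of q, A, B and ℓ are
independent: they are 4 vectors in ℂ⁴, q, A, B have gradients orthogonal to z (Euler: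
∇q(z)·z = 2 q(z) = 0 etc.) and independent (hind), ℓ(z) = 1 ≠ 0. So for the maximal ideal m of C at z,
m = m² (X_i - z_i is a combination of q, A, B, ℓ-1 modulo (ideal of z)²). C is noetherian, every
maximal ideal satisfies m = m² hence is generated by an idempotent; so C is a finite product of
copies of ℂ (noetherian with all primes maximal: dim C = 0 since every local ring is a field),
dim C = Z'.card. Upper bound: the map R_k → C, g ↦ class of g, has kernel K_k ⊇ idl4 k, so
finrank (Fn 4 k) ≤ finrank K_k + Z'.card. Finally K_k = idl4 k for large k: g ∈ K_k iff ℓ^N g ∈ I for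
some N (homogenise g = ∑ a_i f_i + c (ℓ-1)). R/(I+(ℓ)) has no nonzero zeros, so (Nullstellensatz)
Fn 4 k ⊆ idl4 k + ℓ Fn 4 (k-1) for k ≥ k₁: multiplication by ℓ : (R/I)_(k-1) → (R/I)_k is onto,
dimensions are non-increasing, hence eventually constant and ℓ is injective on (R/I)_k for k ≥ k₀,
so K_k = I_k for k ≥ k₀. I_k = idl4 k (k ≥ a, b, 2) as the generators are homogeneous.
-/

open MvPolynomial Module

namespace Pool.Agent.Lib.Pc2352a

namespace CountC

/-- The polynomial ring in four variables. -/
abbrev R4 := MvPolynomial (Fin 4) ℂ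

lemma hom_eval {n : ℕ} {f : R4} (hf : f.IsHomogeneous n) (c : ℂ) (v : Fin 4 → ℂ) :
    eval (c • v) f = c ^ n * eval v f := by
  rw [eval_eq, eval_eq, Finset.mul_sum]
  refine Finset.sum_congr rfl fun d hd => ?_
  have hd' : d.degree = n := by
    have := hf (mem_support_iff.mp hd)
    rwa [Finsupp.degree_eq_weight_one]
  simp only [Pi.smul_apply, smul_eq_mul, mul_pow]
  rw [Finset.prod_mul_distrib, Finset.prod_pow_eq_pow_sum]
  have : ∑ i ∈ d.support, d i = n := by rw [← hd']; rfl
  rw [this]
  ring

/-! ### The ideal -/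

/-- The three generators. -/
noncomputable def gen (q A B : R4) : Fin 3 → R4 := ![q, A, B]

/-- The ideal. -/
noncomputable def Id (q A B : R4) : Ideal R4 := Ideal.span (Set.range (gen q A B))

/-- The polynomials vanishing on the common zeros. -/
noncomputable def JJ (q A B : R4) : Ideal R4 where
  carrier := {g | ∀ y, (∀ r, eval y (gen q A B r) = 0) → eval y g = 0}
  add_mem' := by
    intro a b ha hb y hy
    rw [map_add, ha y hy, hb y hy, add_zero]
  zero_mem' := fun y _ => map_zero _
  smul_mem' := by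
    intro c a ha y hy
    rw [smul_eq_mul, map_mul, ha y hy, mul_zero]

/-- The transporter of `JJ` into `Id`. -/
noncomputable def QQ (q A B : R4) : Ideal R4 where
  carrier := {h | ∀ g ∈ JJ q A B, h * g ∈ Id q A B}
  add_mem' := by
    intro a b ha hb g hg
    rw [add_mul]
    exact Ideal.add_mem _ (ha g hg) (hb g hg)
  zero_mem' := fun g _ => by rw [zero_mul]; exact Ideal.zero_mem _
  smul_mem' := by
    intro c a ha g hg
    rw [smul_eq_mul, mul_assoc]
    exact Ideal.mul_mem_left _ _ (ha g hg)

variable {q A B : R4} {a b : ℕ}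

lemma gen_mem (r : Fin 3) : gen q A B r ∈ Id q A B := Ideal.subset_span ⟨r, rfl⟩

lemma gen_mem_JJ (r : Fin 3) : gen q A B r ∈ JJ q A B := fun _ hy => hy r

/-! ### The local argument -/

/-- The linear forms vanishing at `z`. -/
noncomputable def lin (z : Fin 4 → ℂ) (i₀ : Fin 4) (i : Fin 3) : R4 :=
  X (i₀.succAbove i) - C (z (i₀.succAbove i) / z i₀) * X i₀

lemma eval_lin (z : Fin 4 → ℂ) {i₀ : Fin 4} (h0 : z i₀ ≠ 0) (i : Fin 3) :
    eval z (lin z i₀ i) = 0 := by
  unfold lin
  rw [map_sub, map_mul, eval_X, eval_X, eval_C, div_mul_cancel₀ _ h0, sub_self]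

/-- The substitution onto the line through `z`. -/
noncomputable def onto (z : Fin 4 → ℂ) (i₀ : Fin 4) : R4 →ₐ[ℂ] R4 :=
  aeval (fun i => C (z i / z i₀) * X i₀)

lemma eval_onto (z y : Fin 4 → ℂ) (i₀ : Fin 4) (g : R4) :
    eval y (onto z i₀ g) = eval ((y i₀ / z i₀) • z) g := by
  unfold onto
  have h1 : (eval y : R4 →+* ℂ).comp (aeval (fun i => C (z i / z i₀) * X i₀) : R4 →ₐ[ℂ] R4).toRingHom =
      (eval ((y i₀ / z i₀) • z) : R4 →+* ℂ) := by
    apply MvPolynomial.ringHom_ext
    · intro r
      simp
    · intro i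
      simp
      ring
  exact congrArg (fun f : R4 →+* ℂ => f g) h1

lemma sub_onto_mem (z : Fin 4 → ℂ) {i₀ : Fin 4} (h0 : z i₀ ≠ 0) (g : R4) :
    g - onto z i₀ g ∈ Ideal.span (Set.range (lin z i₀)) := by
  rw [← Ideal.Quotient.mk_eq_mk_iff_sub_mem]
  have h1 : (Ideal.Quotient.mkₐ ℂ (Ideal.span (Set.range (lin z i₀)))) =
      (Ideal.Quotient.mkₐ ℂ (Ideal.span (Set.range (lin z i₀)))).comp (onto z i₀) := by
    apply MvPolynomial.algHom_ext
    intro i
    rw [AlgHom.comp_apply, Ideal.Quotient.mkₐ_eq_mk]
    unfold onto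
    rw [aeval_X, Ideal.Quotient.mk_eq_mk_iff_sub_mem]
    by_cases hi : i = i₀
    · subst hi
      rw [div_self h0, C_1, one_mul, sub_self]
      exact Ideal.zero_mem _
    · obtain ⟨k, rfl⟩ := Fin.exists_succAbove_eq hi
      exact Ideal.subset_span ⟨k, rfl⟩
  exact congrArg (fun f : R4 →ₐ[ℂ] _ => f g) h1

lemma mem_span_lin (hq : q.IsHomogeneous 2) (hA : A.IsHomogeneous a) (hB : B.IsHomogeneous b)
    {z : Fin 4 → ℂ} {i₀ : Fin 4} (h0 : z i₀ ≠ 0) (hz : ∀ r, eval z (gen q A B r) = 0) {g : R4}
    (hg : g ∈ JJ q A B) : g ∈ Ideal.span (Set.range (lin z i₀)) := by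
  have h1 : onto z i₀ g = 0 := by
    apply MvPolynomial.funext
    intro y
    rw [eval_onto, map_zero]
    apply hg
    intro r
    fin_cases r
    · have := hz 0
      simp only [gen] at this ⊢
      simp only [Matrix.cons_val_zero, Fin.zero_eta] at this ⊢
      rw [hom_eval hq, this, mul_zero]
    · have := hz 1
      simp only [gen] at this ⊢
      simp only [Matrix.cons_val_one, Fin.mk_one, Matrix.cons_val_zero] at this ⊢
      rw [hom_eval hA, this, mul_zero]
    · have := hz 2
      simp only [gen] at this ⊢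
      simp only [Matrix.cons_val, Fin.reduceFinMk] at this ⊢
      rw [hom_eval hB, this, mul_zero]
  have := sub_onto_mem z h0 g
  rwa [h1, sub_zero] at this

lemma exists_QQ (hq : q.IsHomogeneous 2) (hA : A.IsHomogeneous a) (hB : B.IsHomogeneous b)
    (hind : ∀ y, y ≠ 0 → eval y q = 0 → eval y A = 0 → eval y B = 0 →
        LinearIndependent ℂ ![fun i => eval y (pderiv i q), fun i => eval y (pderiv i A),
          fun i => eval y (pderiv i B)]) {z : Fin 4 → ℂ} (hz : z ≠ 0) :
    ∃ h ∈ QQ q A B, eval z h ≠ 0 := by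
  by_cases hzero : ∀ r, eval z (gen q A B r) = 0
  · obtain ⟨i₀, h0⟩ : ∃ i₀, z i₀ ≠ 0 := by
      by_contra hcon
      push Not at hcon
      exact hz (funext hcon)
    have hgen : ∀ r, ∃ m : Fin 3 → R4, ∑ i, m i * lin z i₀ i = gen q A B r := by
      intro r
      exact Ideal.mem_span_range_iff_exists_fun.mp
        (mem_span_lin hq hA hB h0 hzero (gen_mem_JJ r))
    choose m hm using hgen
    set M : Matrix (Fin 3) (Fin 3) R4 := Matrix.of m with hM
    have hMl : M.mulVec (lin z i₀) = gen q A B := by
      funext r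
      rw [← hm r]
      rfl
    have hadj : ∀ i, M.det * lin z i₀ i ∈ Id q A B := by
      intro i
      have h1 : M.adjugate.mulVec (gen q A B) = M.det • lin z i₀ := by
        rw [← hMl, Matrix.mulVec_mulVec, Matrix.adjugate_mul, Matrix.smul_mulVec, Matrix.one_mulVec]
      have h2 : M.det * lin z i₀ i = M.adjugate.mulVec (gen q A B) i := by
        rw [h1]
        rfl
      rw [h2]
      unfold Matrix.mulVec dotProduct
      exact Ideal.sum_mem _ fun r _ => Ideal.mul_mem_left _ _ (gen_mem r)
    refine ⟨M.det, ?_, ?_⟩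
    · intro g hg
      obtain ⟨n, hn⟩ := Ideal.mem_span_range_iff_exists_fun.mp
        (mem_span_lin hq hA hB h0 hzero hg)
      rw [← hn, Finset.mul_sum]
      refine Ideal.sum_mem _ fun i _ => ?_
      rw [show M.det * (n i * lin z i₀ i) = n i * (M.det * lin z i₀ i) by ring]
      exact Ideal.mul_mem_left _ _ (hadj i)
    · intro hdet
      have hdet' : ((eval z : R4 →+* ℂ).mapMatrix M).det = 0 := by
        rw [← RingHom.map_det]
        exact hdet
      obtain ⟨v, hv0, hv⟩ := Matrix.exists_vecMul_eq_zero_iff.mpr hdet'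
      have hi := hind z hz (hzero 0) (hzero 1) (hzero 2)
      rw [Fintype.linearIndependent_iff] at hi
      apply hv0
      funext r
      refine hi v ?_ r
      funext j
      have hgrad : ∀ r : Fin 3, (![fun i => eval z (pderiv i q), fun i => eval z (pderiv i A),
          fun i => eval z (pderiv i B)] : Fin 3 → Fin 4 → ℂ) r j =
          ∑ i, eval z (m r i) * eval z (pderiv j (lin z i₀ i)) := by
        intro r
        have e1 : (![fun i => eval z (pderiv i q), fun i => eval z (pderiv i A),
          fun i => eval z (pderiv i B)] : Fin 3 → Fin 4 → ℂ) r j =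
            eval z (pderiv j (gen q A B r)) := by
          fin_cases r <;> rfl
        rw [e1, ← hm r, map_sum, map_sum]
        refine Finset.sum_congr rfl fun i _ => ?_
        rw [pderiv_mul, map_add, map_mul, map_mul, eval_lin z h0, mul_zero, zero_add]
      simp only [Finset.sum_apply, Pi.smul_apply, smul_eq_mul, Pi.zero_apply]
      simp_rw [hgrad, Finset.mul_sum]
      rw [Finset.sum_comm]
      refine Finset.sum_eq_zero fun i _ => ?_
      have hvi : ∑ r, v r * eval z (m r i) = 0 := by
        have := congrFun hv i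
        exact this
      calc ∑ r, v r * (eval z (m r i) * eval z (pderiv j (lin z i₀ i)))
          = (∑ r, v r * eval z (m r i)) * eval z (pderiv j (lin z i₀ i)) := by
            rw [Finset.sum_mul]
            refine Finset.sum_congr rfl fun r _ => ?_
            ring
        _ = 0 := by rw [hvi, zero_mul]
  · push Not at hzero
    obtain ⟨r, hr⟩ := hzero
    exact ⟨gen q A B r, fun g _ => Ideal.mul_mem_right _ _ (gen_mem r), hr⟩

/-! ### The global argument -/

lemma exists_pow (hq : q.IsHomogeneous 2) (hA : A.IsHomogeneous a) (hB : B.IsHomogeneous b)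
    (hind : ∀ y, y ≠ 0 → eval y q = 0 → eval y A = 0 → eval y B = 0 →
        LinearIndependent ℂ ![fun i => eval y (pderiv i q), fun i => eval y (pderiv i A),
          fun i => eval y (pderiv i B)]) :
    ∃ N : ℕ, (Ideal.span (Set.range (X : Fin 4 → R4))) ^ N ≤ QQ q A B := by
  apply Ideal.exists_pow_le_of_le_radical_of_fg
  · rw [← vanishingIdeal_zeroLocus_eq_radical (K := ℂ), Ideal.span_le]
    rintro _ ⟨i, rfl⟩
    rw [SetLike.mem_coe, mem_vanishingIdeal_iff]
    intro x hx
    rw [mem_zeroLocus_iff] at hx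
    have hx0 : x = 0 := by
      by_contra hne
      obtain ⟨h, hh, hne'⟩ := exists_QQ hq hA hB hind hne
      apply hne'
      have := hx h hh
      rwa [aeval_eq_eval] at this
    rw [hx0]
    simp
  · exact IsNoetherian.noetherian _

lemma hom_mem_pow {n N : ℕ} (hn : N ≤ n) {f : R4} (hf : f.IsHomogeneous n) :
    f ∈ (Ideal.span (Set.range (X : Fin 4 → R4))) ^ N := by
  refine Ideal.pow_le_pow_right hn ?_
  rw [Ideal.mem_span_pow_iff_exists_isHomogeneous]
  refine ⟨MvPolynomial.map C f, hf.map _, ?_⟩
  rw [eval_map]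
  exact eval₂_eta f

lemma comp_mul_eq (k : ℕ) (f p : R4) : homogeneousComponent k (f * p) =
    ∑ i ∈ Finset.range (f.totalDegree + 1), homogeneousComponent k (homogeneousComponent i f * p) := by
  conv_lhs => rw [← sum_homogeneousComponent f, Finset.sum_mul, map_sum]

lemma comp_mul_mem {n k : ℕ} {p : R4} (hp : p.IsHomogeneous n) (f : R4) :
    homogeneousComponent k (f * p) ∈ (Fn 4 (k - n)).map (LinearMap.mulLeft ℂ p) := by
  rw [comp_mul_eq]
  refine Submodule.sum_mem _ fun i _ => ?_
  have h1 : (homogeneousComponent i f * p) ∈ homogeneousSubmodule (Fin 4) ℂ (i + n) :=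
    (homogeneousComponent_isHomogeneous i f).mul hp
  rw [homogeneousComponent_of_mem h1]
  split_ifs with hk
  · refine ⟨homogeneousComponent i f, ?_, ?_⟩
    · rw [hk, Nat.add_sub_cancel]
      exact homogeneousComponent_mem _ _
    · simp only [LinearMap.mulLeft_apply]
      ring
  · exact Submodule.zero_mem _

lemma comp_mem_idl (hq : q.IsHomogeneous 2) (hA : A.IsHomogeneous a) (hB : B.IsHomogeneous b)
    (k : ℕ) {u : R4} (hu : u ∈ Id q A B) : homogeneousComponent k u ∈ idl4 q A B a b k := by
  obtain ⟨c, hc⟩ := Ideal.mem_span_range_iff_exists_fun.mp hu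
  rw [← hc, Fin.sum_univ_three, map_add, map_add]
  unfold idl4
  refine Submodule.add_mem_sup (Submodule.add_mem_sup ?_ ?_) ?_
  · exact comp_mul_mem hq (c 0)
  · exact comp_mul_mem hA (c 1)
  · exact comp_mul_mem hB (c 2)

lemma exists_bound (hq : q.IsHomogeneous 2) (hA : A.IsHomogeneous a) (hB : B.IsHomogeneous b)
    (hind : ∀ y, y ≠ 0 → eval y q = 0 → eval y A = 0 → eval y B = 0 →
        LinearIndependent ℂ ![fun i => eval y (pderiv i q), fun i => eval y (pderiv i A),
          fun i => eval y (pderiv i B)]) :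
    ∃ k₀ : ℕ, ∀ k ≥ k₀, ∀ g : R4, g.IsHomogeneous k → g ∈ JJ q A B → g ∈ idl4 q A B a b k := by
  obtain ⟨N, hN⟩ := exists_pow hq hA hB hind
  obtain ⟨G, hG⟩ := (inferInstance : IsNoetherianRing R4).noetherian (JJ q A B)
  set D : ℕ := G.sup totalDegree with hD
  refine ⟨N + D + 1, fun k hk g hgk hg => ?_⟩
  have key : ∀ f ∈ JJ q A B, ∀ h : R4, homogeneousComponent k (h * f) ∈ idl4 q A B a b k := by
    intro f hf
    rw [← hG] at hf
    induction hf using Submodule.span_induction with
    | mem γ hγ =>
      intro h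
      have hγJ : γ ∈ JJ q A B := by
        rw [← hG]
        exact Submodule.subset_span hγ
      rw [comp_mul_eq]
      refine Submodule.sum_mem _ fun i _ => ?_
      by_cases hi : N ≤ i
      · refine comp_mem_idl hq hA hB k ?_
        exact hN (hom_mem_pow hi (homogeneousComponent_isHomogeneous i h)) γ hγJ
      · rw [homogeneousComponent_eq_zero]
        · exact Submodule.zero_mem _
        · have h1 : γ.totalDegree ≤ D := Finset.le_sup (f := totalDegree) hγ
          have h2 : (homogeneousComponent i h).totalDegree ≤ i :=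
            (homogeneousComponent_isHomogeneous i h).totalDegree_le
          have h3 := totalDegree_mul (homogeneousComponent i h) γ
          omega
    | zero =>
      intro h
      rw [mul_zero, map_zero]
      exact Submodule.zero_mem _
    | add x y _ _ hx hy =>
      intro h
      rw [mul_add, map_add]
      exact Submodule.add_mem _ (hx h) (hy h)
    | smul c x _ hx =>
      intro h
      rw [smul_eq_mul, ← mul_assoc]
      exact hx (h * c)
  have := key g hg 1
  rwa [one_mul, homogeneousComponent_eq_self hgk] at this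

end CountC

open CountC in
theorem countB2 (q A B : MvPolynomial (Fin 4) ℂ) (a b : ℕ) (ha : 1 ≤ a) (hb : 1 ≤ b)
    (hq : q.IsHomogeneous 2) (hA : A.IsHomogeneous a) (hB : B.IsHomogeneous b)
    (T4 : Finset (Fin 4 → ℂ))
    (hT : ∀ y, y ≠ 0 → eval y q = 0 → eval y A = 0 → eval y B = 0 →
      ∃ t ∈ T4, ∃ c : ℂ, y = c • t)
    (hind : ∀ y, y ≠ 0 → eval y q = 0 → eval y A = 0 → eval y B = 0 →
        LinearIndependent ℂ ![fun i => eval y (pderiv i q), fun i => eval y (pderiv i A),
          fun i => eval y (pderiv i B)]) :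
    ∃ (Z' : Finset (Fin 4 → ℂ)) (k₀ : ℕ),
      (∀ y ∈ Z', y ≠ 0 ∧ eval y q = 0 ∧ eval y A = 0 ∧ eval y B = 0) ∧
      (∀ y ∈ Z', ∀ y' ∈ Z', ∀ c : ℂ, y = c • y' → y = y') ∧
      ∀ k ≥ k₀, finrank ℂ (Fn 4 k) ≤ finrank ℂ (idl4 q A B a b k) + Z'.card := by
  classical
  obtain ⟨k₀, hk₀⟩ := exists_bound hq hA hB hind
  set S : Set (Projectivization ℂ (Fin 4 → ℂ)) :=
    {p | eval p.rep q = 0 ∧ eval p.rep A = 0 ∧ eval p.rep B = 0} with hS
  have hSfin : S.Finite := by
    have hsub : S ⊆ (fun t : {t : Fin 4 → ℂ // t ≠ 0} => Projectivization.mk ℂ t.1 t.2) ''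
        ((fun t : {t : Fin 4 → ℂ // t ≠ 0} => t.1) ⁻¹' (T4 : Set (Fin 4 → ℂ))) := by
      intro p hp
      obtain ⟨t, ht, c, hc⟩ := hT p.rep p.rep_nonzero hp.1 hp.2.1 hp.2.2
      have ht0 : t ≠ 0 := by
        rintro rfl
        rw [smul_zero] at hc
        exact p.rep_nonzero hc
      refine ⟨⟨t, ht0⟩, ht, ?_⟩
      rw [← p.mk_rep, Projectivization.mk_eq_mk_iff']
      have hc0 : c ≠ 0 := by
        rintro rfl
        rw [zero_smul] at hc
        exact p.rep_nonzero hc
      exact ⟨c⁻¹, by rw [hc, inv_smul_smul₀ hc0]⟩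
    refine Set.Finite.subset (Set.Finite.image _ ?_) hsub
    exact T4.finite_toSet.preimage (Subtype.val_injective.injOn)
  refine ⟨hSfin.toFinset.image Projectivization.rep, k₀ + 1, ?_, ?_, ?_⟩
  · intro y hy
    obtain ⟨p, hp, rfl⟩ := Finset.mem_image.mp hy
    rw [Set.Finite.mem_toFinset] at hp
    exact ⟨p.rep_nonzero, hp⟩
  · intro y hy y' hy' c hc
    obtain ⟨p, hp, rfl⟩ := Finset.mem_image.mp hy
    obtain ⟨p', hp', rfl⟩ := Finset.mem_image.mp hy'
    congr 1
    rw [← p.mk_rep, ← p'.mk_rep, Projectivization.mk_eq_mk_iff']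
    exact ⟨c, hc.symm⟩
  · intro k hk
    set Z' := hSfin.toFinset.image Projectivization.rep with hZ'
    -- the evaluation map
    set ev : Fn 4 k →ₗ[ℂ] (Z' → ℂ) :=
      LinearMap.pi (fun z : Z' => (aeval z.1 : R4 →ₐ[ℂ] ℂ).toLinearMap.comp (Fn 4 k).subtype) with hev
    have hrn := ev.finrank_range_add_finrank_ker
    have h1 : finrank ℂ (LinearMap.range ev) ≤ Z'.card := by
      have := (LinearMap.range ev).finrank_le
      rw [Module.finrank_fintype_fun_eq_card, Fintype.card_coe] at this
      exact this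
    have hker : (LinearMap.ker ev).map (Fn 4 k).subtype ≤ idl4 q A B a b k := by
      rintro _ ⟨g, hg, rfl⟩
      refine hk₀ k (by omega) _ g.2 ?_
      intro y hy
      by_cases hy0 : y = 0
      · have := hom_eval (n := k) (f := (g : R4)) g.2 0 0
        rw [smul_zero, zero_pow (by omega), zero_mul] at this
        rw [hy0]
        exact this
      · obtain ⟨c, hc⟩ := Projectivization.exists_smul_eq_mk_rep ℂ y hy0
        set p := Projectivization.mk ℂ y hy0 with hp
        have hc' : p.rep = (c : ℂ) • y := hc.symm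
        have hyp : y = ((c⁻¹ : ℂˣ) : ℂ) • p.rep := by
          rw [hc', smul_smul, Units.inv_mul, one_smul]
        have hpS : p ∈ S := by
          refine ⟨?_, ?_, ?_⟩
          · rw [hc', hom_eval hq]
            have := hy 0
            simp only [gen, Matrix.cons_val_zero] at this
            rw [this, mul_zero]
          · rw [hc', hom_eval hA]
            have := hy 1
            simp only [gen, Matrix.cons_val_one, Matrix.cons_val_zero] at this
            rw [this, mul_zero]
          · rw [hc', hom_eval hB]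
            have := hy 2
            simp only [gen, Matrix.cons_val] at this
            rw [this, mul_zero]
        have hpZ : p.rep ∈ Z' :=
          Finset.mem_image.mpr ⟨p, hSfin.mem_toFinset.mpr hpS, rfl⟩
        have hgz : eval p.rep (g : R4) = 0 := by
          have h3 : ev g = 0 := hg
          have h4 := congrFun h3 ⟨p.rep, hpZ⟩
          exact h4
        rw [hyp]
        have h5 := hom_eval (n := k) (f := (g : R4)) g.2 ((c⁻¹ : ℂˣ) : ℂ) p.rep
        rw [hgz, mul_zero] at h5
        exact h5
    have h2 : finrank ℂ (LinearMap.ker ev) ≤ finrank ℂ (idl4 q A B a b k) := by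
      have hfd : FiniteDimensional ℂ (idl4 q A B a b k) := by
        unfold idl4
        infer_instance
      rw [← Submodule.finrank_map_subtype_eq (Fn 4 k) (LinearMap.ker ev)]
      exact Submodule.finrank_mono hker
    omega

end Pool.Agent.Lib.Pc2352a
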