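import Mathlib

/-!
# Graded ideals in five variables: definitions

`GId` is a homogeneous ideal of `ℂ[x₀,…,x₄]`, given by its graded pieces. `dl I k` is the Hilbert
function of the quotient. `ann Λ s` is the Gorenstein ideal of a functional on forms of degree `s`
(everything in degrees above `s`), `van Z` the ideal of forms vanishing on a finite set of vectors.
-/

open MvPolynomial Module

namespace Pool.Agent.Lib.Pc2352a

/-- The polynomial ring. -/
abbrev Poly := MvPolynomial (Fin 5) ℂ

/-- Vectors. -/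
abbrev Vec := Fin 5 → ℂ

/-- Forms of degree `k`. -/
abbrev Fm (k : ℕ) : Submodule ℂ Poly := homogeneousSubmodule (Fin 5) ℂ k

/-- Graded ideals. -/
structure GId where
  /-- The graded pieces. -/
  J : ℕ → Submodule ℂ Poly
  le : ∀ k, J k ≤ Fm k
  mul : ∀ k, ∀ g ∈ J k, ∀ l ∈ Fm 1, l * g ∈ J (k + 1)

/-- The Hilbert function of the quotient. -/
noncomputable def dl (I : GId) (k : ℕ) : ℕ := finrank ℂ (Fm k) - finrank ℂ (I.J k)

/-- `I : l`. -/
noncomputable def colon (I : GId) (l : Poly) (hl : l ∈ Fm 1) : GId where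
  J k := Fm k ⊓ (I.J (k + 1)).comap (LinearMap.mulLeft ℂ l)
  le k := inf_le_left
  mul k g hg m hm := by
    have h1 := Submodule.mem_inf.mp hg
    have h1' : l * g ∈ I.J (k + 1) := h1.2
    refine Submodule.mem_inf.mpr ⟨?_, ?_⟩
    · have := (hm : m.IsHomogeneous 1).mul (h1.1 : g.IsHomogeneous k)
      rw [add_comm] at this
      exact this
    · have h2 := I.mul (k + 1) (l * g) h1' m hm
      show l * (m * g) ∈ I.J (k + 1 + 1)
      rwa [show l * (m * g) = m * (l * g) by ring]

/-- `I + (l)`. -/
noncomputable def addl (I : GId) (l : Poly) (hl : l ∈ Fm 1) : GId where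
  J k := match k with
    | 0 => I.J 0
    | (k + 1) => I.J (k + 1) ⊔ (Fm k).map (LinearMap.mulLeft ℂ l)
  le k := by
    cases k with
    | zero => exact I.le 0
    | succ k =>
      refine sup_le (I.le _) ?_
      rintro _ ⟨g, hg, rfl⟩
      have := (hl : l.IsHomogeneous 1).mul (hg : g.IsHomogeneous k)
      rw [add_comm] at this
      exact this
  mul k g hg m hm := by
    cases k with
    | zero => exact Submodule.mem_sup_left (I.mul 0 g hg m hm)
    | succ k =>
      obtain ⟨a, ha, b, hb, rfl⟩ := Submodule.mem_sup.mp hg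
      obtain ⟨c, hc, rfl⟩ := hb
      rw [mul_add]
      refine Submodule.add_mem_sup (I.mul _ a ha m hm) ⟨m * c, ?_, ?_⟩
      · have := (hm : m.IsHomogeneous 1).mul (hc : c.IsHomogeneous k)
        rw [add_comm] at this
        exact this
      · simp only [LinearMap.mulLeft_apply]; ring

/-- No common zeros in degree `t`. -/
def Bpf (I : GId) (t : ℕ) : Prop := ∀ v : Vec, v ≠ 0 → ∃ g ∈ I.J t, eval v g ≠ 0

/-- The Gorenstein ideal of a functional on forms of degree `s`. -/
noncomputable def ann (L : Poly →ₗ[ℂ] ℂ) (s : ℕ) : GId where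
  J k :=
    { carrier := {g | g ∈ Fm k ∧ (k ≤ s → ∀ h ∈ Fm (s - k), L (g * h) = 0)}
      add_mem' := by
        rintro a b ⟨ha, ha'⟩ ⟨hb, hb'⟩
        refine ⟨Submodule.add_mem _ ha hb, fun hk h hh => ?_⟩
        rw [add_mul, map_add, ha' hk h hh, hb' hk h hh, add_zero]
      zero_mem' := ⟨Submodule.zero_mem _, fun _ h _ => by simp⟩
      smul_mem' := by
        rintro c a ⟨ha, ha'⟩
        refine ⟨Submodule.smul_mem _ c ha, fun hk h hh => ?_⟩
        rw [smul_mul_assoc, map_smul, ha' hk h hh, smul_zero] }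
  le k := fun g hg => hg.1
  mul k g hg m hm := by
    refine ⟨?_, fun hk h hh => ?_⟩
    · have := (hm : m.IsHomogeneous 1).mul (hg.1 : g.IsHomogeneous k)
      rw [add_comm] at this
      exact this
    · have h1 : m * h ∈ Fm (s - k) := by
        have := (hm : m.IsHomogeneous 1).mul (hh : h.IsHomogeneous (s - (k + 1)))
        have h2 : 1 + (s - (k + 1)) = s - k := by omega
        rw [h2] at this
        exact this
      have h3 := hg.2 (by omega) (m * h) h1
      rwa [show m * g * h = g * (m * h) by ring]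

/-- The ideal of forms vanishing on a finite set. -/
noncomputable def van (Z : Finset Vec) : GId where
  J k :=
    { carrier := {g | g ∈ Fm k ∧ ∀ v ∈ Z, eval v g = 0}
      add_mem' := by
        rintro a b ⟨ha, ha'⟩ ⟨hb, hb'⟩
        exact ⟨Submodule.add_mem _ ha hb, fun v hv => by rw [map_add, ha' v hv, hb' v hv, add_zero]⟩
      zero_mem' := ⟨Submodule.zero_mem _, fun v _ => by simp⟩
      smul_mem' := by
        rintro c a ⟨ha, ha'⟩
        exact ⟨Submodule.smul_mem _ c ha, fun v hv => by rw [smul_eval, ha' v hv, mul_zero]⟩ }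
  le k := fun g hg => hg.1
  mul k g hg m hm := by
    refine ⟨?_, fun v hv => by rw [map_mul, hg.2 v hv, mul_zero]⟩
    have := (hm : m.IsHomogeneous 1).mul (hg.1 : g.IsHomogeneous k)
    rw [add_comm] at this
    exact this

/-- The functional of a weighted finite set. -/
noncomputable def fnl (Z : Finset Vec) (w : Vec → ℂ) : Poly →ₗ[ℂ] ℂ :=
  ∑ v ∈ Z, w v • (aeval v : Poly →ₐ[ℂ] ℂ).toLinearMap

end Pool.Agent.Lib.Pc2352a
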