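import Pool.Agent.Lib.Pc2352a.Final

/-!
# Surfaces of degree two, not necessarily irreducible
-/

open MvPolynomial Module

namespace Pool.Agent.Lib.Pc2352a

open CountA

theorem countAd (d : ℕ) (hd : 3 ≤ d) (F : Poly) (hF : F.IsHomogeneous d)
    (hr : ∀ v : Vec, v ≠ 0 → (∀ i, eval v (pderiv i F) = 0) → (hess F v).rank = 4)
    (L : (Fin 4 → ℂ) →ₗ[ℂ] Vec) (hL : Function.Injective L) (q : MvPolynomial (Fin 4) ℂ)
    (hq : q.IsHomogeneous 2) (hdiv : q ∣ pull L F) :
    ∃ A B : MvPolynomial (Fin 4) ℂ, A.IsHomogeneous (d - 1) ∧ B.IsHomogeneous (d - 2) ∧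
      pull L F = q * B ∧
      (∀ y, eval y q = 0 → eval y A = 0 → (∀ j, eval y (pderiv j q) * eval y B = 0) →
        ∀ i, eval (L y) (pderiv i F) = 0) ∧
      ∀ y, y ≠ 0 → eval y q = 0 → eval y A = 0 → eval y B = 0 →
        LinearIndependent ℂ ![fun i => eval y (pderiv i q), fun i => eval y (pderiv i A),
          fun i => eval y (pderiv i B)] := by
  classical
  -- the factorisation
  have hPd : (pull L F).IsHomogeneous d := pull_mem L hF
  obtain ⟨B0, hB0⟩ := hdiv
  have hd2 : 2 + (d - 2) = d := by omega
  obtain ⟨B, hBd, hPB⟩ := factor (d := d - 2) (e := 2) (by rw [hd2]; exact hPd) hq hB0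
  obtain ⟨n, hn⟩ := exists_not_range L hL
  set A : MvPolynomial (Fin 4) ℂ := ∑ i, C (n i) * pull L (pderiv i F) with hA
  have hAd : A.IsHomogeneous (d - 1) := by
    refine IsHomogeneous.sum _ _ _ fun i _ => ?_
    exact (pull_mem L (hF.pderiv : (pderiv i F).IsHomogeneous (d - 1))).C_mul _
  -- chain rules
  have hch1 : ∀ y j, eval y (pderiv j (pull L F)) =
      ∑ i, (L (Pi.single j 1) i) * eval (L y) (pderiv i F) := by
    intro y j
    rw [pderiv_pull, map_sum]
    refine Finset.sum_congr rfl fun i _ => ?_
    rw [map_mul, eval_C, eval_pull]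
  have hch2 : ∀ y j l, eval y (pderiv l (pderiv j (pull L F))) =
      ∑ i, (L (Pi.single j 1) i) * ∑ m, (L (Pi.single l 1) m) *
        eval (L y) (pderiv m (pderiv i F)) := by
    intro y j l
    rw [pderiv_pull, map_sum, map_sum]
    refine Finset.sum_congr rfl fun i _ => ?_
    rw [pderiv_C_mul, map_mul, eval_C, pderiv_pull, map_sum]
    congr 1
    refine Finset.sum_congr rfl fun m _ => ?_
    rw [map_mul, eval_C, eval_pull]
  have hchA : ∀ y j, eval y (pderiv j A) =
      ∑ i, n i * ∑ m, (L (Pi.single j 1) m) * eval (L y) (pderiv m (pderiv i F)) := by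
    intro y j
    rw [hA, map_sum, map_sum]
    refine Finset.sum_congr rfl fun i _ => ?_
    rw [pderiv_C_mul, map_mul, eval_C, pderiv_pull, map_sum]
    congr 1
    refine Finset.sum_congr rfl fun m _ => ?_
    rw [map_mul, eval_C, eval_pull]
  have hAe : ∀ y, eval y A = ∑ i, n i * eval (L y) (pderiv i F) := by
    intro y
    rw [hA, map_sum]
    refine Finset.sum_congr rfl fun i _ => ?_
    rw [map_mul, eval_C, eval_pull]
  have hsing : ∀ y, eval y q = 0 → eval y A = 0 → (∀ j, eval y (pderiv j q) * eval y B = 0) →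
      ∀ i, eval (L y) (pderiv i F) = 0 := by
    intro y hyq hyA hyB
    have h0 : (fun i => eval (L y) (pderiv i F)) = (0 : Vec) := by
      apply fun5_zero L hL n hn
      · intro j
        rw [fun5_apply, ← hch1, hPB, pderiv_mul, map_add, map_mul, map_mul, hyq, hyB j]
        ring
      · rw [fun5_apply, ← hAe, hyA]
    intro i
    exact congrFun h0 i
  refine ⟨A, B, hAd, hBd, hPB, hsing, ?_⟩
  intro y hy0 hyq hyA hyB
  by_contra hdep
  have hLy : L y ≠ 0 := fun h => hy0 (hL (by rw [h, map_zero]))
  have hrank := hr (L y) hLy (hsing y hyq hyA (fun j => by rw [hyB, mul_zero]))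
  -- the space orthogonal to the three gradients
  set G : Fin 3 → (Fin 4 → ℂ) := ![fun i => eval y (pderiv i q), fun i => eval y (pderiv i A),
          fun i => eval y (pderiv i B)] with hG
  have hspan : finrank ℂ (Submodule.span ℂ (Set.range G)) ≤ 2 := by
    by_contra hc
    apply hdep
    rw [linearIndependent_iff_card_le_finrank_span]
    simp only [Fintype.card_fin, Set.finrank]
    omega
  set M : Matrix (Fin 3) (Fin 4) ℂ := Matrix.of G with hM
  have hMr : M.rank ≤ 2 := by
    rw [Matrix.rank_eq_finrank_span_row]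
    exact hspan
  have hK : 2 ≤ finrank ℂ (LinearMap.ker M.mulVecLin) := by
    have h1 := LinearMap.finrank_range_add_finrank_ker M.mulVecLin
    simp only [finrank_fintype_fun_eq_card, Fintype.card_fin] at h1
    have h2 : finrank ℂ (LinearMap.range M.mulVecLin) ≤ 2 := hMr
    omega
  have hker : (LinearMap.ker M.mulVecLin).map L ≤ LinearMap.ker (hess F (L y)).mulVecLin := by
    rintro _ ⟨u, hu, rfl⟩
    have hu' : ∀ k, ∑ j, G k j * u j = 0 := by
      intro k
      have h1 : M.mulVec u = 0 := by simpa using hu
      have h2 := congrFun h1 k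
      simpa [Matrix.mulVec, dotProduct, hM] using h2
    have hu0 : ∑ j, eval y (pderiv j q) * u j = 0 := by simpa [hG] using hu' 0
    have hu1 : ∑ j, eval y (pderiv j A) * u j = 0 := by simpa [hG] using hu' 1
    have hu2 : ∑ j, eval y (pderiv j B) * u j = 0 := by simpa [hG] using hu' 2
    rw [LinearMap.mem_ker, Matrix.mulVecLin_apply]
    have hLu : ∀ i, L u i = ∑ k, u k * L (Pi.single k 1) i := by
      intro i
      rw [map_eq_sum L u]
      simp
    apply fun5_zero L hL n hn
    · intro l
      rw [fun5_apply]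
      have h1 : ∑ i, L (Pi.single l 1) i * ((hess F (L y)).mulVec (L u)) i =
          ∑ k, u k * eval y (pderiv k (pderiv l (pull L F))) := by
        simp only [hch2, Matrix.mulVec, dotProduct, hess, Matrix.of_apply, hLu]
        exact dsum (L (Pi.single l 1)) (fun i j => eval (L y) (pderiv i (pderiv j F)))
          (fun i j => by rw [pderiv_comm']) (fun k => L (Pi.single k 1)) u
      rw [h1, hPB]
      have h2 : ∀ k, eval y (pderiv k (pderiv l (q * B))) =
          eval y (pderiv l q) * eval y (pderiv k B) + eval y (pderiv k q) * eval y (pderiv l B) := by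
        intro k
        rw [pderiv_mul, map_add, pderiv_mul, pderiv_mul]
        simp only [map_add, map_mul, hyq, hyB]
        ring
      simp only [h2, mul_add, Finset.sum_add_distrib]
      have h3 : ∑ k, u k * (eval y (pderiv l q) * eval y (pderiv k B)) =
          eval y (pderiv l q) * ∑ k, eval y (pderiv k B) * u k := by
        rw [Finset.mul_sum]
        exact Finset.sum_congr rfl fun k _ => by ring
      have h4 : ∑ k, u k * (eval y (pderiv k q) * eval y (pderiv l B)) =
          eval y (pderiv l B) * ∑ k, eval y (pderiv k q) * u k := by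
        rw [Finset.mul_sum]
        exact Finset.sum_congr rfl fun k _ => by ring
      rw [h3, h4, hu2, hu0]
      ring
    · rw [fun5_apply]
      have h1 : ∑ i, n i * ((hess F (L y)).mulVec (L u)) i =
          ∑ k, eval y (pderiv k A) * u k := by
        simp only [hchA, Matrix.mulVec, dotProduct, hess, Matrix.of_apply, hLu]
        rw [dsum n (fun i j => eval (L y) (pderiv i (pderiv j F)))
          (fun i j => by rw [pderiv_comm']) (fun k => L (Pi.single k 1)) u]
        exact Finset.sum_congr rfl fun k _ => mul_comm _ _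
      rw [h1, hu1]
  have h6 : finrank ℂ (LinearMap.ker M.mulVecLin) ≤
      finrank ℂ (LinearMap.ker (hess F (L y)).mulVecLin) := by
    rw [LinearEquiv.finrank_eq (Submodule.equivMapOfInjective L hL (LinearMap.ker M.mulVecLin))]
    exact Submodule.finrank_mono hker
  have h7 := LinearMap.finrank_range_add_finrank_ker (hess F (L y)).mulVecLin
  simp only [finrank_fintype_fun_eq_card, Fintype.card_fin] at h7
  have h8 : finrank ℂ (LinearMap.range (hess F (L y)).mulVecLin) = 4 := hrank
  omega

end Pool.Agent.Lib.Pc2352a
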