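import Pool.Agent.Lib.Pc2352a.DegTwoA

/-!
# A nodal threefold with at most `N(d)` nodes contains no reducible surface of degree two
-/

open MvPolynomial Module

namespace Pool.Agent.Lib.Pc2352a

namespace DegTwo

open Quat CountBAux

/-- Three forms of positive degree in four variables have a nontrivial common zero. -/
lemma exists_common_zero {A B C : R4} {a b c : ℕ} (hA : A.IsHomogeneous a)
    (hB : B.IsHomogeneous b) (hC : C.IsHomogeneous c) (ha : 0 < a) (hb : 0 < b) (hc : 0 < c) :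
    ∃ y : Fin 4 → ℂ, y ≠ 0 ∧ eval y A = 0 ∧ eval y B = 0 ∧ eval y C = 0 := by
  classical
  by_contra hcon
  push Not at hcon
  set r : R4 →ₐ[ℂ] Poly := rename Fin.castSucc with hr
  have hev : ∀ (g : R4) (z : Vec), eval z (r g) = eval (fun i => z (Fin.castSucc i)) g := by
    intro g z
    rw [hr, eval_rename]
    rfl
  have hmax : ∀ {g : R4} {n : ℕ}, g.IsHomogeneous n → 0 < n →
      r g ∈ _root_.Pc2352a.maxI := by
    intro g n hg hn
    exact _root_.Pc2352a.FacIrrAux.mem_maxI_of_homog (hg.rename_isHomogeneous) hn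
  have hX : (X (Fin.last 4) : Poly) ∈ _root_.Pc2352a.maxI :=
    _root_.Pc2352a.FacIrrAux.mem_maxI_of_homog (isHomogeneous_X ℂ _) one_pos
  have hrad := _root_.Pc2352a.radical_eq_maxI
    (Ideal.span (({r A, r B, r C, X (Fin.last 4)} : Finset Poly) : Set Poly)) (by
      rw [Ideal.span_le]
      intro g hg
      simp only [Finset.coe_insert, Finset.coe_singleton, Set.mem_insert_iff,
        Set.mem_singleton_iff] at hg
      rcases hg with rfl | rfl | rfl | rfl
      · exact hmax hA ha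
      · exact hmax hB hb
      · exact hmax hC hc
      · exact hX) (by
      intro w hw
      by_contra hw0
      have h1 := hw (r A) (Ideal.subset_span (by simp))
      have h2 := hw (r B) (Ideal.subset_span (by simp))
      have h3 := hw (r C) (Ideal.subset_span (by simp))
      have h4 := hw (X (Fin.last 4)) (Ideal.subset_span (by simp))
      rw [hev] at h1 h2 h3
      rw [eval_X] at h4
      refine hcon _ ?_ h1 h2 h3
      intro h5
      apply hw0
      funext i
      refine Fin.lastCases h4 (fun j => ?_) i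
      exact congrFun h5 j)
  have h1 := Ideal.height_le_card_of_mem_minimalPrimes_span_finset
    (_root_.Pc2352a.FacIrrAux.maxI_mem_minimalPrimes hrad)
  rw [_root_.Pc2352a.height_maxI] at h1
  have h2 : ((({r A, r B, r C, X (Fin.last 4)} : Finset Poly).card : ℕ) : ℕ∞) ≤
      ((4 : ℕ) : ℕ∞) := by
    exact_mod_cast Finset.card_le_four
  have h3 := h1.trans h2
  norm_cast at h3

lemma U_lower' {n : ℕ} (q A : MvPolynomial (Fin n) ℂ) (a m : ℕ) (hq : q.IsHomogeneous 2)
    (hq0 : q ≠ 0) (hA0 : A ≠ 0) (hqA : ∀ x, q ∣ A * x → q ∣ x) :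
    finrank ℂ (Fn n (m + a)) + finrank ℂ (Fn n (m + 2)) ≤
    finrank ℂ ((Fn n (m + a)).map (LinearMap.mulLeft ℂ q) ⊔
      (Fn n (m + 2)).map (LinearMap.mulLeft ℂ A) : Submodule ℂ (MvPolynomial (Fin n) ℂ)) +
      finrank ℂ (Fn n m) := by
  have h1 := Submodule.finrank_sup_add_finrank_inf_eq ((Fn n (m + a)).map (LinearMap.mulLeft ℂ q))
    ((Fn n (m + 2)).map (LinearMap.mulLeft ℂ A))
  rw [finrank_mulLeft hq0, finrank_mulLeft hA0] at h1
  have h2 : (Fn n (m + a)).map (LinearMap.mulLeft ℂ q) ⊓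
      (Fn n (m + 2)).map (LinearMap.mulLeft ℂ A) ≤
      (Fn n m).map (LinearMap.mulLeft ℂ (q * A)) := by
    intro u hu
    obtain ⟨⟨x, hx, rfl⟩, ⟨y, hy, hxy⟩⟩ := Submodule.mem_inf.mp hu
    simp only [LinearMap.mulLeft_apply] at hxy
    have h3 : q ∣ A * y := ⟨x, hxy⟩
    obtain ⟨z, rfl⟩ := hqA y h3
    refine ⟨z, factor_mem hq hq0 hy, ?_⟩
    simp only [LinearMap.mulLeft_apply]
    rw [← hxy]; ring
  have h3 := Submodule.finrank_mono h2
  have h4 := finrank_mulLeft_le (q * A) (Fn n m)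
  omega

theorem countB1' (q A B : MvPolynomial (Fin 4) ℂ) (a b k : ℕ) (ha : 1 ≤ a) (hb : 1 ≤ b)
    (hk : a + b + 2 ≤ k) (hq : q.IsHomogeneous 2) (hq0 : q ≠ 0) (hA0 : A ≠ 0)
    (hqA : ∀ x, q ∣ A * x → q ∣ x) (hA : A.IsHomogeneous a) (hB : B.IsHomogeneous b) :
    2 * a * b + finrank ℂ (idl4 q A B a b k) ≤ finrank ℂ (Fn 4 k) := by
  obtain ⟨x, rfl⟩ : ∃ x, k = x + a + b + 2 := ⟨k - (a + b + 2), by omega⟩
  have hcf : ∀ m, finrank ℂ (Fn 4 (m + 2)) = finrank ℂ (Fn 4 m) + (m + 3) ^ 2 := fun m => by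
    rw [card_forms4, card_forms4]
    exact choose_step m
  have hk2 : x + a + b + 2 - 2 = x + b + a := by omega
  have hka : x + a + b + 2 - a = x + b + 2 := by omega
  have hkb : x + a + b + 2 - b = x + a + 2 := by omega
  unfold idl4
  rw [hk2, hka, hkb]
  have h1 := finrank_sup_map_le (LinearMap.mulLeft ℂ B)
    ((Fn 4 (x + b + a)).map (LinearMap.mulLeft ℂ q) ⊔
      (Fn 4 (x + b + 2)).map (LinearMap.mulLeft ℂ A)) (Fn 4 (x + a + 2))
    ((Fn 4 (x + a)).map (LinearMap.mulLeft ℂ q) ⊔ (Fn 4 (x + 2)).map (LinearMap.mulLeft ℂ A))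
    (by
      refine sup_le ?_ ?_
      · rintro _ ⟨g, hg, rfl⟩
        have := mul_mem_Fn hq hg
        rwa [add_comm] at this
      · rintro _ ⟨g, hg, rfl⟩
        have := mul_mem_Fn hA hg
        rwa [show a + (x + 2) = x + a + 2 by omega] at this) (by
      rw [Submodule.map_sup]
      refine sup_le_sup ?_ ?_
      · rintro _ ⟨_, ⟨g, hg, rfl⟩, rfl⟩
        refine ⟨B * g, ?_, ?_⟩
        · have := mul_mem_Fn hB hg
          rwa [show b + (x + a) = x + b + a by omega] at this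
        · simp only [LinearMap.mulLeft_apply]; ring
      · rintro _ ⟨_, ⟨g, hg, rfl⟩, rfl⟩
        refine ⟨B * g, ?_, ?_⟩
        · have := mul_mem_Fn hB hg
          rwa [show b + (x + 2) = x + b + 2 by omega] at this
        · simp only [LinearMap.mulLeft_apply]; ring)
  have h2 := U_upper q A a (x + b) hq hA hq0
  have h3 := U_lower' q A a x hq hq0 hA0 hqA
  have e1 := hcf (x + b + a)
  have e2 := hcf (x + b)
  have e3 := hcf (x + a)
  have e4 := hcf x
  rw [show x + a + b + 2 = x + b + a + 2 by omega]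
  have h4 : 2 * a * b + (x + a + 3) ^ 2 + (x + b + 3) ^ 2 = (x + b + a + 3) ^ 2 + (x + 3) ^ 2 := by
    ring
  omega

/-- No reducible or double surface of degree two, if there are at most `N(d)` nodes. -/
theorem no_reducible (d : ℕ) (hd : 3 ≤ d) (F : Poly) (hF : F.IsHomogeneous d)
    (hr : ∀ v : Vec, v ≠ 0 → (∀ i, eval v (pderiv i F) = 0) → (hess F v).rank = 4)
    (T : Finset Vec)
    (hT : ∀ w : Vec, w ≠ 0 → (∀ i, eval w (pderiv i F) = 0) → ∃ c : ℂ, ∃ v ∈ T, w = c • v)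
    (hTc : T.card ≤ 2 * (d - 1) * (d - 2))
    (L : (Fin 4 → ℂ) →ₗ[ℂ] Vec) (hL : Function.Injective L) (l m : R4)
    (hl : l.IsHomogeneous 1) (hm : m.IsHomogeneous 1) (hl0 : l ≠ 0) (hm0 : m ≠ 0)
    (hdiv : l * m ∣ pull L F) : False := by
  classical
  have hq : (l * m).IsHomogeneous 2 := hl.mul hm
  have hq0 : l * m ≠ 0 := mul_ne_zero hl0 hm0
  obtain ⟨A, B, hA, hB, hPB, hsing, hind⟩ := countAd d hd F hF hr L hL (l * m) hq hdiv
  have hgrad : ∀ y, eval y l = 0 → eval y m = 0 → ∀ j, eval y (pderiv j (l * m)) = 0 := by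
    intro y h1 h2 j
    rw [pderiv_mul, map_add, map_mul, map_mul, h1, h2]
    ring
  -- no common zero on the singular locus of the quadric
  have hno : ∀ y, y ≠ 0 → eval y l = 0 → eval y m = 0 → eval y A = 0 → eval y B = 0 → False := by
    intro y hy h1 h2 h3 h4
    have h5 := hind y hy (by rw [map_mul, h1, zero_mul]) h3 h4
    have h6 := h5.ne_zero 0
    apply h6
    funext j
    exact hgrad y h1 h2 j
  have hA0 : A ≠ 0 := by
    rintro rfl
    obtain ⟨y, hy, h1, h2, h3⟩ := exists_common_zero hl hm hB one_pos one_pos (by omega)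
    exact hno y hy h1 h2 (map_zero _) h3
  have hlA : ¬ l ∣ A := by
    rintro ⟨A', rfl⟩
    obtain ⟨y, hy, h1, h2, h3⟩ := exists_common_zero hl hm hB one_pos one_pos (by omega)
    exact hno y hy h1 h2 (by rw [map_mul, h1, zero_mul]) h3
  have hmA : ¬ m ∣ A := by
    rintro ⟨A', rfl⟩
    obtain ⟨y, hy, h1, h2, h3⟩ := exists_common_zero hl hm hB one_pos one_pos (by omega)
    exact hno y hy h1 h2 (by rw [map_mul, h2, zero_mul]) h3
  have hlm : ¬ m ∣ l := by
    rintro ⟨c, hc⟩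
    obtain ⟨y, hy, h1, h2, h3⟩ := exists_common_zero hm hA hB one_pos (by omega) (by omega)
    exact hno y hy (by rw [hc, map_mul, h1, zero_mul]) h1 h2 h3
  have hlp := linear_prime hl hl0
  have hmp := linear_prime hm hm0
  have hco : ∀ x, l * m ∣ A * x → l * m ∣ x := by
    intro x hx
    obtain ⟨x', rfl⟩ := (hlp.dvd_or_dvd ((dvd_mul_right l m).trans hx)).resolve_left hlA
    refine mul_dvd_mul_left l ?_
    rw [show A * (l * x') = l * (A * x') by ring] at hx
    have h1 := (mul_dvd_mul_iff_left hl0).1 hx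
    exact (hmp.dvd_or_dvd h1).resolve_left hmA
  -- the count
  obtain ⟨M, hM⟩ := LinearMap.exists_leftInverse_of_injective L (LinearMap.ker_eq_bot.mpr hL)
  have hM' : ∀ y, M (L y) = y := fun y => LinearMap.congr_fun hM y
  have hLy : ∀ y, y ≠ 0 → L y ≠ 0 := by
    intro y hy h
    exact hy (hL (by rw [h, map_zero]))
  have hex : ∀ y, y ≠ 0 → eval y (l * m) = 0 → eval y A = 0 → eval y B = 0 →
      ∃ c : ℂ, ∃ v ∈ T, L y = c • v := fun y hy h1 h2 h3 =>
    hT (L y) (hLy y hy) (hsing y h1 h2 (fun j => by rw [h3, mul_zero]))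
  obtain ⟨Z', k₀, hZ', hprop, hk₀⟩ := countB2 (l * m) A B (d - 1) (d - 2) (by omega) (by omega)
    hq hA hB (T.image M) (by
      intro y hy h1 h2 h3
      obtain ⟨c, v, hv, hcv⟩ := hex y hy h1 h2 h3
      refine ⟨M v, Finset.mem_image_of_mem _ hv, c, ?_⟩
      rw [← map_smul, ← hcv, hM']) hind
  have h1 := countB1' (l * m) A B (d - 1) (d - 2) (k₀ + (d - 1) + (d - 2) + 2) (by omega)
    (by omega) (by omega) hq hq0 hA0 hco hA hB
  have h2 := hk₀ (k₀ + (d - 1) + (d - 2) + 2) (by omega)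
  have h3 : 2 * (d - 1) * (d - 2) ≤ Z'.card := by omega
  have hex' : ∀ y ∈ Z', ∃ v ∈ T, ∃ c : ℂ, L y = c • v := by
    intro y hy
    obtain ⟨h4, h5, h6, h7⟩ := hZ' y hy
    obtain ⟨c, v, hv, hcv⟩ := hex y h4 h5 h6 h7
    exact ⟨v, hv, c, hcv⟩
  choose! φ hφ c hc using hex'
  have hc0 : ∀ y ∈ Z', c y ≠ 0 := by
    intro y hy h
    have h5 := hc y hy
    rw [h, zero_smul] at h5
    exact hLy y (hZ' y hy).1 h5
  have hinj : Set.InjOn φ Z' := by
    intro y hy y' hy' hyy
    have h4 := hc y hy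
    have h5 := hc y' hy'
    refine hprop y hy y' hy' (c y / c y') (hL ?_)
    rw [map_smul, h5, h4, ← hyy, smul_smul, div_mul_cancel₀ _ (hc0 y' hy')]
  -- one more node
  obtain ⟨y₀, hy₀, g1, g2, g3⟩ := exists_common_zero hl hm hA one_pos one_pos (by omega)
  obtain ⟨c₀, v₀, hv₀, hcv₀⟩ := hT (L y₀) (hLy y₀ hy₀)
    (hsing y₀ (by rw [map_mul, g1, zero_mul]) g3 (fun j => by rw [hgrad y₀ g1 g2 j, zero_mul]))
  have hc₀ : c₀ ≠ 0 := by
    rintro rfl
    rw [zero_smul] at hcv₀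
    exact hLy y₀ hy₀ hcv₀
  have hnot : v₀ ∉ Z'.image φ := by
    intro hmem
    obtain ⟨y, hy, hyv⟩ := Finset.mem_image.1 hmem
    have h4 := hc y hy
    rw [hyv] at h4
    have h5 : y₀ = (c₀ / c y) • y := by
      apply hL
      rw [map_smul, h4, hcv₀, smul_smul, div_mul_cancel₀ _ (hc0 y hy)]
    have h6 : eval y₀ B = 0 := by
      rw [h5, CountC.hom_eval hB, (hZ' y hy).2.2.2, mul_zero]
    exact hno y₀ hy₀ g1 g2 g3 h6
  have h4 : (insert v₀ (Z'.image φ)).card ≤ T.card := by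
    apply Finset.card_le_card
    intro v hv
    rcases Finset.mem_insert.1 hv with rfl | hv
    · exact hv₀
    · obtain ⟨y, hy, rfl⟩ := Finset.mem_image.1 hv
      exact hφ y hy
  rw [Finset.card_insert_of_notMem hnot, Finset.card_image_of_injOn hinj] at h4
  omega

end DegTwo

end Pool.Agent.Lib.Pc2352a
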