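import Pool.Agent.Lib.Pc2352a.DegTwoB

/-!
# Planes and surfaces of degree two as ideals; converse
-/

open MvPolynomial Module

namespace Pool.Agent.Lib.Pc2352a

namespace DegTwo

/-- A nonzero linear form is a nonzero functional. -/
lemma linear_eq {h : Poly} (hh : h.IsHomogeneous 1) :
    ∃ f : Vec →ₗ[ℂ] ℂ, ∀ v, f v = eval v h := by
  obtain ⟨a, rfl⟩ := Asm.exists_lin hh
  refine ⟨∑ i, a i • LinearMap.proj i, fun v => ?_⟩
  rw [Asm.eval_lin]
  simp

/-- Nonzero linear forms are prime. -/
lemma linear_prime5 {h : Poly} (hh : h.IsHomogeneous 1) (h0 : h ≠ 0) : Prime h := by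
  have hirr : Irreducible h := by
    have htd := hh.totalDegree h0
    have hunit : ∀ a : Poly, a ≠ 0 → a.totalDegree = 0 → IsUnit a := by
      intro a ha h1
      rw [totalDegree_eq_zero_iff_eq_C] at h1
      have hc : coeff 0 a ≠ 0 := by
        intro h0
        rw [h0, C_0] at h1
        exact ha h1
      rw [h1]
      exact (isUnit_iff_ne_zero.2 hc).map C
    constructor
    · intro hu
      obtain ⟨u, hu'⟩ := hu.exists_right_inv
      have hu0 : u ≠ 0 := by
        rintro rfl
        rw [mul_zero] at hu'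
        exact zero_ne_one hu'
      have h1 : (h * u).totalDegree = 0 := by
        rw [hu']
        exact totalDegree_one
      rw [totalDegree_mul_of_isDomain h0 hu0, htd] at h1
      omega
    · rintro a b rfl
      have ha0 : a ≠ 0 := left_ne_zero_of_mul h0
      have hb0 : b ≠ 0 := right_ne_zero_of_mul h0
      rw [totalDegree_mul_of_isDomain ha0 hb0] at htd
      rcases Nat.eq_zero_or_pos a.totalDegree with h | h
      · exact Or.inl (hunit a ha0 h)
      · exact Or.inr (hunit b hb0 (by omega))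
  exact hirr.prime

/-- A polynomial vanishing on the hyperplane `h = 0` is divisible by `h`. -/
lemma dvd_of_vanish {h g : Poly} (hh : h.IsHomogeneous 1) (h0 : h ≠ 0)
    (hg : ∀ v, eval v h = 0 → eval v g = 0) : h ∣ g := by
  have hprime : (Ideal.span {h} : Ideal Poly).IsPrime :=
    (Ideal.span_singleton_prime h0).mpr (linear_prime5 hh h0)
  rw [← Ideal.mem_span_singleton, ← MvPolynomial.IsPrime.vanishingIdeal_zeroLocus (K := ℂ)
    (Ideal.span {h}), mem_vanishingIdeal_iff]
  intro x hx
  have h1 : eval x h = 0 := by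
    have := hx h (Ideal.mem_span_singleton_self h)
    simpa [MvPolynomial.coe_aeval_eq_eval] using this
  simpa [MvPolynomial.coe_aeval_eq_eval] using hg x h1

/-- A parametrisation of the hyperplane `h = 0`. -/
lemma exists_param {h : Poly} (hh : h.IsHomogeneous 1) (h0 : h ≠ 0) :
    ∃ L : (Fin 4 → ℂ) →ₗ[ℂ] Vec, Function.Injective L ∧
      ∀ v, (∃ y, L y = v) ↔ eval v h = 0 := by
  obtain ⟨f, hf⟩ := linear_eq hh
  have hf0 : f ≠ 0 := by
    rintro rfl
    apply h0
    apply MvPolynomial.funext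
    intro v
    rw [← hf v]
    simp
  have h1 : finrank ℂ (LinearMap.ker f) = 4 := by
    have h2 := LinearMap.finrank_range_add_finrank_ker f
    have h3 : LinearMap.range f = ⊤ := LinearMap.range_eq_top.mpr
      (LinearMap.surjective hf0)
    rw [h3, finrank_top] at h2
    simp only [finrank_self, finrank_fintype_fun_eq_card, Fintype.card_fin] at h2
    omega
  have e : (Fin 4 → ℂ) ≃ₗ[ℂ] LinearMap.ker f := LinearEquiv.ofFinrankEq _ _ (by rw [h1]; simp)
  refine ⟨(LinearMap.ker f).subtype ∘ₗ e.toLinearMap, ?_, fun v => ?_⟩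
  · exact (Submodule.injective_subtype _).comp e.injective
  · constructor
    · rintro ⟨y, rfl⟩
      rw [← hf]
      exact (e y).2
    · intro hv
      rw [← hf] at hv
      refine ⟨e.symm ⟨v, hv⟩, ?_⟩
      simp

/-- Surfaces of degree two in a nodal threefold with at most `N(d)` nodes. -/
theorem degTwo (d : ℕ) (hd : 3 ≤ d) (F : Poly) (hF : F.IsHomogeneous d)
    (hr : ∀ v : Vec, v ≠ 0 → (∀ i, eval v (pderiv i F) = 0) → (hess F v).rank = 4)
    (hcard : (SingP F).encard ≤ ((2 * (d - 2) * (d - 1) : ℕ) : ℕ∞))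
    (h q : Poly) (hh : h.IsHomogeneous 1) (h0 : h ≠ 0) (hq : q.IsHomogeneous 2)
    (hqh : ¬ h ∣ q) (hFq : F ∈ Ideal.span {h, q}) :
    (SingP F).encard = ((2 * (d - 2) * (d - 1) : ℕ) : ℕ∞) ∧
      ∀ a b : Poly, a.IsHomogeneous 1 → b.IsHomogeneous 1 → ¬ h ∣ q - a * b := by
  have hfin : (SingP F).Finite := Set.finite_of_encard_le_coe hcard
  obtain ⟨l, T, -, -, -, hT, hTc, -⟩ := exists_T d (by omega) F hF hfin
  have hTcard : T.card ≤ 2 * (d - 2) * (d - 1) := by
    rw [hTc] at hcard
    exact_mod_cast hcard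
  have hcomm : 2 * (d - 1) * (d - 2) = 2 * (d - 2) * (d - 1) := by ring
  obtain ⟨L, hL, hLh⟩ := exists_param hh h0
  have hLh0 : ∀ y, eval (L y) h = 0 := fun y => (hLh _).1 ⟨y, rfl⟩
  have hq0 : pull L q ≠ 0 := by
    intro h1
    apply hqh
    apply dvd_of_vanish hh h0
    intro v hv
    obtain ⟨y, rfl⟩ := (hLh v).2 hv
    rw [← eval_pull, h1, map_zero]
  have hdiv : pull L q ∣ pull L F := by
    obtain ⟨a, b, hab⟩ := Ideal.mem_span_pair.1 hFq
    have h1 : pull L h = 0 := by
      apply MvPolynomial.funext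
      intro y
      rw [eval_pull, hLh0, map_zero]
    rw [← hab, map_add, map_mul, map_mul, h1, mul_zero, zero_add]
    exact dvd_mul_left _ _
  have hirr : Irreducible (pull L q) := by
    by_contra hirr
    obtain ⟨m, u, hm, hu, hm0, hu0, hmu⟩ := Quat.quad_split (pull_mem L hq) hq0 hirr
    rw [hmu] at hdiv
    exact no_reducible d hd F hF hr T hT (by omega) L hL m u hm hu hm0 hu0 hdiv
  constructor
  · have h1 := Asm.count_quadric d hd F hF hr T hT L hL (pull L q) (pull_mem L hq) hirr (by
      intro y hy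
      obtain ⟨c, hc⟩ := hdiv
      rw [← eval_pull, hc, map_mul, hy, zero_mul])
    have h2 : T.card = 2 * (d - 2) * (d - 1) := by omega
    rw [hTc, h2]
  · intro a b ha hb hdvd
    obtain ⟨c, hc⟩ := hdvd
    have h1 : pull L q = pull L a * pull L b := by
      apply MvPolynomial.funext
      intro y
      have h2 := congrArg (eval (L y)) hc
      rw [map_sub, map_mul, map_mul, hLh0, zero_mul, sub_eq_zero] at h2
      rw [map_mul, eval_pull, eval_pull, eval_pull, h2]
    have ha0 : pull L a ≠ 0 := fun h => hq0 (by rw [h1, h, zero_mul])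
    have hb0 : pull L b ≠ 0 := fun h => hq0 (by rw [h1, h, mul_zero])
    rcases hirr.isUnit_or_isUnit h1 with h2 | h2
    · exact Quat.not_isUnit_of_hom one_pos (pull_mem L ha) ha0 h2
    · exact Quat.not_isUnit_of_hom one_pos (pull_mem L hb) hb0 h2

/-- The syzygies of `h, q`. -/
lemma syzygy {h q x y : Poly} (hp : Prime h) (hq : ¬ h ∣ q) (hxy : x * h + y * q = 0) :
    ∃ z, x = z * q ∧ y = - (z * h) := by
  have h1 : h ∣ y * q := by
    refine ⟨-x, ?_⟩
    linear_combination hxy
  obtain ⟨z, hz⟩ := (hp.dvd_or_dvd h1).resolve_right hq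
  refine ⟨-z, ?_, ?_⟩
  · rw [hz] at hxy
    have h2 : h * (x + z * q) = 0 := by linear_combination hxy
    rcases mul_eq_zero.1 h2 with h3 | h3
    · exact absurd h3 hp.ne_zero
    · linear_combination h3
  · rw [hz]; ring

/-- A surface `h = q = 0` in `F = 0` is not Cartier at a point where the cofactors vanish. -/
theorem not_cartier {F h q A B : Poly} (hp : Prime h) (hq : ¬ h ∣ q) (hF : F = A * h + B * q)
    {v : Vec} (hvh : eval v h = 0) (hvq : eval v q = 0) (hvA : eval v A = 0)
    (hvB : eval v B = 0) :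
    ¬ ∃ G ∈ Ideal.span {h, q}, ∃ s : Poly, eval v s ≠ 0 ∧
      ∀ p ∈ Ideal.span {h, q}, s * p ∈ Ideal.span {F, G} := by
  rintro ⟨G, hG, s, hs, hsP⟩
  obtain ⟨α, β, hG'⟩ := Ideal.mem_span_pair.1 hG
  obtain ⟨a, b, hab⟩ := Ideal.mem_span_pair.1 (hsP h (Ideal.subset_span (by simp)))
  obtain ⟨c, e, hce⟩ := Ideal.mem_span_pair.1 (hsP q (Ideal.subset_span (by simp)))
  obtain ⟨z, hz1, hz2⟩ := syzygy (x := a * A + b * α - s) (y := a * B + b * β) hp hq (by
    rw [hF, ← hG'] at hab
    linear_combination hab)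
  obtain ⟨w, hw1, hw2⟩ := syzygy (x := c * A + e * α) (y := c * B + e * β - s) hp hq (by
    rw [hF, ← hG'] at hce
    linear_combination hce)
  have e1 := congrArg (eval v) hz1
  have e2 := congrArg (eval v) hz2
  have e3 := congrArg (eval v) hw1
  have e4 := congrArg (eval v) hw2
  simp only [map_add, map_sub, map_mul, map_neg, hvh, hvq, hvA, hvB, mul_zero, zero_add,
    neg_zero] at e1 e2 e3 e4
  -- b α = s, b β = 0, e α = 0, e β = s
  have hb : eval v b * eval v α = eval v s := by linear_combination e1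
  have he : eval v e * eval v β = eval v s := by linear_combination e4
  rcases mul_eq_zero.1 e2 with h1 | h1
  · rw [h1, zero_mul] at hb
    exact hs hb.symm
  · rw [h1, mul_zero] at he
    exact hs he.symm

end DegTwo

end Pool.Agent.Lib.Pc2352a
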