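import Pool.Agent.Lib.Pc2352a.DegTwoC

/-!
# Factoriality in terms of prime divisors; full statement
-/

open MvPolynomial Module

namespace Pool.Agent.Lib.Pc2352a

namespace DegTwo

lemma pull_lift {n : ℕ} (L : (Fin n → ℂ) →ₗ[ℂ] Vec) (hL : Function.Injective L)
    (g : MvPolynomial (Fin n) ℂ) :
    ∃ g' : Poly, pull L g' = g ∧ ∀ k, g.IsHomogeneous k → g'.IsHomogeneous k := by
  obtain ⟨M, hM⟩ := LinearMap.exists_leftInverse_of_injective L (LinearMap.ker_eq_bot.2 hL)
  refine ⟨PullAux.pl M g, ?_, fun k hk => PullAux.pl_mem M hk⟩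
  apply MvPolynomial.funext
  intro y
  rw [eval_pull, PullAux.eval_pl]
  have h1 : M (L y) = y := DFunLike.congr_fun hM y
  rw [h1]

/-- The equation of the image of an injective linear map. -/
lemma exists_equation (L : (Fin 4 → ℂ) →ₗ[ℂ] Vec) (hL : Function.Injective L) :
    ∃ h : Poly, h.IsHomogeneous 1 ∧ h ≠ 0 ∧ ∀ v, (∃ y, L y = v) ↔ eval v h = 0 := by
  have hr : finrank ℂ (LinearMap.range L) = 4 := by
    rw [LinearMap.finrank_range_of_inj hL]; simp
  obtain ⟨n, hn⟩ := CountA.exists_not_range L hL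
  obtain ⟨f, hf, hfV⟩ := Submodule.exists_le_ker_of_notMem hn
  refine ⟨_root_.Pc2352a.FacHtAux.lin f, ?_, ?_, fun v => ?_⟩
  · unfold _root_.Pc2352a.FacHtAux.lin
    refine IsHomogeneous.sum _ _ _ fun i _ => ?_
    have h2 := (isHomogeneous_C (Fin 5) (f (Pi.single i 1))).mul (isHomogeneous_X ℂ i)
    rwa [zero_add] at h2
  · intro h0
    apply hf
    rw [← _root_.Pc2352a.FacHtAux.eval_lin, h0, map_zero]
  · rw [_root_.Pc2352a.FacHtAux.eval_lin]
    constructor
    · rintro ⟨y, rfl⟩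
      exact hfV ⟨y, rfl⟩
    · intro hv
      have hk : finrank ℂ (LinearMap.ker f) ≤ 4 := by
        have h2 := LinearMap.finrank_range_add_finrank_ker f
        have h3 : LinearMap.range f = ⊤ := LinearMap.range_eq_top.mpr
          (LinearMap.surjective (fun h => hf (by rw [h]; simp)))
        rw [h3, finrank_top] at h2
        simp only [finrank_self, finrank_fintype_fun_eq_card, Fintype.card_fin] at h2
        omega
      have heq : LinearMap.range L = LinearMap.ker f :=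
        Submodule.eq_of_le_of_finrank_le hfV (by rw [hr]; exact hk)
      have h1 : v ∈ LinearMap.range L := by
        rw [heq]; exact hv
      exact h1

section hyper

variable {h : Poly} (hh : h.IsHomogeneous 1) (h0 : h ≠ 0) {L : (Fin 4 → ℂ) →ₗ[ℂ] Vec}
  (hL : Function.Injective L) (hLh : ∀ v, (∃ y, L y = v) ↔ eval v h = 0)

include hh h0 hLh in
lemma pull_eq_zero_iff (g : Poly) : pull L g = 0 ↔ h ∣ g := by
  constructor
  · intro h1
    apply dvd_of_vanish hh h0
    intro v hv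
    obtain ⟨y, rfl⟩ := (hLh v).2 hv
    rw [← eval_pull, h1, map_zero]
  · rintro ⟨c, rfl⟩
    apply MvPolynomial.funext
    intro y
    rw [eval_pull, map_mul, (hLh _).1 ⟨y, rfl⟩, zero_mul, map_zero]

include hh h0 hL hLh in
lemma mem_span_iff (q g : Poly) : g ∈ Ideal.span {h, q} ↔ pull L q ∣ pull L g := by
  have hph : pull L h = 0 := (pull_eq_zero_iff hh h0 hLh h).2 dvd_rfl
  constructor
  · intro hg
    obtain ⟨a, b, rfl⟩ := Ideal.mem_span_pair.1 hg
    rw [map_add, map_mul, map_mul, hph, mul_zero, zero_add]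
    exact dvd_mul_left _ _
  · rintro ⟨c, hc⟩
    obtain ⟨c', rfl, -⟩ := pull_lift L hL c
    have h1 : pull L (g - q * c') = 0 := by
      rw [map_sub, map_mul, hc, sub_self]
    obtain ⟨b, hb⟩ := (pull_eq_zero_iff hh h0 hLh _).1 h1
    refine Ideal.mem_span_pair.2 ⟨b, c', ?_⟩
    linear_combination -hb

include hh h0 hL hLh in
lemma span_isPrime {q : Poly} (hq : Irreducible (pull L q)) :
    (Ideal.span {h, q} : Ideal Poly).IsPrime := by
  have h1 : (Ideal.span {h, q} : Ideal Poly) =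
      (Ideal.span {pull L q}).comap (pull L : Poly →ₐ[ℂ] MvPolynomial (Fin 4) ℂ) := by
    ext g
    rw [mem_span_iff hh h0 hL hLh, Ideal.mem_comap, Ideal.mem_span_singleton]
  rw [h1]
  haveI : (Ideal.span {pull L q}).IsPrime :=
    (Ideal.span_singleton_prime hq.ne_zero).mpr hq.prime
  exact Ideal.IsPrime.comap _

include hh h0 hL hLh in
lemma span_height {q : Poly} (hq : Irreducible (pull L q)) :
    (Ideal.span {h, q} : Ideal Poly).height = 2 := by
  classical
  haveI hp := span_isPrime hh h0 hL hLh hq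
  apply le_antisymm
  · have h1 : (Ideal.span {h, q} : Ideal Poly) =
        Ideal.span ((({h, q} : Finset Poly) : Set Poly)) := by simp
    have h2 : (Ideal.span {h, q} : Ideal Poly) ∈
        (Ideal.span ((({h, q} : Finset Poly) : Set Poly))).minimalPrimes := by
      rw [← h1]
      rw [Ideal.minimalPrimes_eq_subsingleton_self]
      exact rfl
    refine (Ideal.height_le_card_of_mem_minimalPrimes_span_finset h2).trans ?_
    exact_mod_cast Finset.card_le_two
  · haveI hp1 : (Ideal.span {h} : Ideal Poly).IsPrime :=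
      (Ideal.span_singleton_prime h0).mpr (linear_prime5 hh h0)
    haveI hp0 : (⊥ : Ideal Poly).IsPrime := Ideal.isPrime_bot
    have h1 : (⊥ : Ideal Poly) < Ideal.span {h} := by
      rw [bot_lt_iff_ne_bot, Ne, Ideal.span_singleton_eq_bot]
      exact h0
    have h2 : (Ideal.span {h} : Ideal Poly) < Ideal.span {h, q} := by
      refine lt_of_le_of_ne (Ideal.span_mono (by simp)) ?_
      intro heq
      have h3 : q ∈ Ideal.span {h} := by
        rw [heq]
        exact Ideal.subset_span (by simp)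
      rw [Ideal.mem_span_singleton] at h3
      exact hq.ne_zero ((pull_eq_zero_iff hh h0 hLh q).2 h3)
    have e1 := Ideal.height_add_one_le_of_lt_of_isPrime h1
    have e2 := Ideal.height_add_one_le_of_lt_of_isPrime h2
    calc (2 : ℕ∞) = 0 + 1 + 1 := by norm_num
      _ ≤ (⊥ : Ideal Poly).height + 1 + 1 := by gcongr; exact zero_le
      _ ≤ (Ideal.span {h}).height + 1 := by gcongr
      _ ≤ _ := e2

end hyper

/-- Four forms of positive degree in five variables have a nontrivial common zero. -/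
lemma exists_common_zero5 {A B C D : Poly} {a b c e : ℕ} (hA : A.IsHomogeneous a)
    (hB : B.IsHomogeneous b) (hC : C.IsHomogeneous c) (hD : D.IsHomogeneous e) (ha : 0 < a)
    (hb : 0 < b) (hc : 0 < c) (he : 0 < e) :
    ∃ y : Vec, y ≠ 0 ∧ eval y A = 0 ∧ eval y B = 0 ∧ eval y C = 0 ∧ eval y D = 0 := by
  classical
  by_contra hcon
  push Not at hcon
  have hmax : ∀ {g : Poly} {n : ℕ}, g.IsHomogeneous n → 0 < n →
      g ∈ _root_.Pc2352a.maxI := by
    intro g n hg hn
    exact _root_.Pc2352a.FacIrrAux.mem_maxI_of_homog hg hn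
  have hrad := _root_.Pc2352a.radical_eq_maxI
    (Ideal.span (({A, B, C, D} : Finset Poly) : Set Poly)) (by
      rw [Ideal.span_le]
      intro g hg
      simp only [Finset.coe_insert, Finset.coe_singleton, Set.mem_insert_iff,
        Set.mem_singleton_iff] at hg
      rcases hg with rfl | rfl | rfl | rfl
      · exact hmax hA ha
      · exact hmax hB hb
      · exact hmax hC hc
      · exact hmax hD he) (by
      intro w hw
      by_contra hw0
      exact hcon w hw0 (hw A (Ideal.subset_span (by simp))) (hw B (Ideal.subset_span (by simp)))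
        (hw C (Ideal.subset_span (by simp))) (hw D (Ideal.subset_span (by simp))))
  have h1 := Ideal.height_le_card_of_mem_minimalPrimes_span_finset
    (_root_.Pc2352a.FacIrrAux.maxI_mem_minimalPrimes hrad)
  rw [_root_.Pc2352a.height_maxI] at h1
  have h2 : ((({A, B, C, D} : Finset Poly).card : ℕ) : ℕ∞) ≤ ((4 : ℕ) : ℕ∞) := by
    exact_mod_cast Finset.card_le_four
  have h3 := h1.trans h2
  norm_cast at h3

/-- Homogeneous cofactors. -/
lemma homog_cofactors {F h q : Poly} {d a b : ℕ} (hF : F.IsHomogeneous d)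
    (hh : h.IsHomogeneous a) (hq : q.IsHomogeneous b) (ha : a ≤ d) (hb : b ≤ d)
    (hFq : F ∈ Ideal.span {h, q}) :
    ∃ A B : Poly, A.IsHomogeneous (d - a) ∧ B.IsHomogeneous (d - b) ∧ F = A * h + B * q := by
  obtain ⟨x, y, hxy⟩ := Ideal.mem_span_pair.1 hFq
  refine ⟨homogeneousComponent (d - a) x, homogeneousComponent (d - b) y,
    homogeneousComponent_isHomogeneous _ _, homogeneousComponent_isHomogeneous _ _, ?_⟩
  have h1 := congrArg (homogeneousComponent d) hxy
  rw [map_add, mul_comm x h, mul_comm y q, _root_.Pc2352a.FacHAux.homComp_mul hh,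
    _root_.Pc2352a.FacHAux.homComp_mul hq, if_pos ha, if_pos hb,
    homogeneousComponent_eq_self hF] at h1
  rw [← h1]; ring

/-- A plane or an irreducible quadric surface in `F = 0` is a prime divisor which is not Cartier. -/
theorem exists_noncartier {F h q : Poly} {d b : ℕ} (hd : 3 ≤ d) (hF : F.IsHomogeneous d)
    (hh : h.IsHomogeneous 1) (h0 : h ≠ 0) (hq : q.IsHomogeneous b) (hb : 1 ≤ b) (hb2 : b ≤ 2)
    (hirr : ∀ L : (Fin 4 → ℂ) →ₗ[ℂ] Vec, Function.Injective L →
      (∀ v, (∃ y, L y = v) ↔ eval v h = 0) → Irreducible (pull L q))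
    (hFq : F ∈ Ideal.span {h, q}) :
    ∃ P : Ideal Poly, P.IsPrime ∧ (∀ p ∈ P, ∀ k, homogeneousComponent k p ∈ P) ∧ F ∈ P ∧
      P.height = 2 ∧ ∃ v : Vec, v ≠ 0 ∧ eval v F = 0 ∧
        ¬ ∃ G ∈ P, ∃ s : Poly, eval v s ≠ 0 ∧ ∀ p ∈ P, s * p ∈ Ideal.span {F, G} := by
  obtain ⟨L, hL, hLh⟩ := exists_param hh h0
  have hi := hirr L hL hLh
  obtain ⟨A, B, hA, hB, hFAB⟩ := homog_cofactors hF hh hq (by omega) (by omega) hFq
  obtain ⟨v, hv, h1, h2, h3, h4⟩ := exists_common_zero5 hh hq hA hB one_pos (by omega)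
    (by omega) (by omega)
  have hhq : ¬ h ∣ q := fun hdvd => hi.ne_zero ((pull_eq_zero_iff hh h0 hLh q).2 hdvd)
  refine ⟨Ideal.span {h, q}, span_isPrime hh h0 hL hLh hi, ?_, hFq,
    span_height hh h0 hL hLh hi, v, hv, ?_, not_cartier (linear_prime5 hh h0) hhq hFAB h1 h2 h3 h4⟩
  · intro p hp k
    obtain ⟨x, y, rfl⟩ := Ideal.mem_span_pair.1 hp
    rw [map_add, mul_comm x h, mul_comm y q, _root_.Pc2352a.FacHAux.homComp_mul hh,
      _root_.Pc2352a.FacHAux.homComp_mul hq]
    refine Ideal.add_mem _ ?_ ?_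
    · split_ifs
      · exact Ideal.mul_mem_right _ _ (Ideal.subset_span (by simp))
      · exact Ideal.zero_mem _
    · split_ifs
      · exact Ideal.mul_mem_right _ _ (Ideal.subset_span (by simp))
      · exact Ideal.zero_mem _
  · rw [hFAB, map_add, map_mul, map_mul, h1, h2, mul_zero, mul_zero, add_zero]

/-- A prime polynomial divides the polynomials vanishing on its zero set. -/
lemma dvd_of_zero {q g : MvPolynomial (Fin 4) ℂ} (hq : Prime q) (hg : ∀ y, eval y q = 0 → eval y g = 0) : q ∣ g := by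
  have hprime : (Ideal.span {q} : Ideal (MvPolynomial (Fin 4) ℂ)).IsPrime :=
    (Ideal.span_singleton_prime hq.ne_zero).mpr hq
  rw [← Ideal.mem_span_singleton, ← MvPolynomial.IsPrime.vanishingIdeal_zeroLocus (K := ℂ)
    (Ideal.span {q}), mem_vanishingIdeal_iff]
  intro x hx
  have h1 : eval x q = 0 := by
    have := hx q (Ideal.mem_span_singleton_self q)
    simpa [MvPolynomial.coe_aeval_eq_eval] using this
  simpa [MvPolynomial.coe_aeval_eq_eval] using hg x h1

/-- Extension of a parametrisation of a plane to a hyperplane. -/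
lemma exists_extension (L₃ : (Fin 3 → ℂ) →ₗ[ℂ] Vec) (h3 : Function.Injective L₃) :
    ∃ L : (Fin 4 → ℂ) →ₗ[ℂ] Vec, Function.Injective L ∧
      ∀ y : Fin 4 → ℂ, y (Fin.last 3) = 0 → L y = L₃ (fun i => y (Fin.castSucc i)) := by
  have hr : finrank ℂ (LinearMap.range L₃) = 3 := by
    rw [LinearMap.finrank_range_of_inj h3]; simp
  obtain ⟨n, hn⟩ : ∃ n : Vec, n ∉ LinearMap.range L₃ := by
    by_contra hc
    push Not at hc
    have htop : LinearMap.range L₃ = ⊤ := by
      rw [eq_top_iff]; intro x _; exact hc x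
    rw [htop] at hr
    simp at hr
  let L : (Fin 4 → ℂ) →ₗ[ℂ] Vec :=
    L₃ ∘ₗ (LinearMap.funLeft ℂ ℂ Fin.castSucc) +
      (LinearMap.toSpanSingleton ℂ Vec n) ∘ₗ (LinearMap.proj (Fin.last 3))
  have hL : ∀ y, L y = L₃ (fun i => y (Fin.castSucc i)) + y (Fin.last 3) • n := fun y => rfl
  refine ⟨L, ?_, fun y hy => by rw [hL, hy, zero_smul, add_zero]⟩
  rw [← LinearMap.ker_eq_bot, LinearMap.ker_eq_bot']
  intro y hy
  rw [hL] at hy
  have h0 : y (Fin.last 3) = 0 := by
    by_contra hne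
    apply hn
    refine ⟨-((y (Fin.last 3))⁻¹ • (fun i => y (Fin.castSucc i))), ?_⟩
    rw [map_neg, map_smul, eq_neg_of_add_eq_zero_left hy, smul_neg, neg_neg, smul_smul,
      inv_mul_cancel₀ hne, one_smul]
  rw [h0, zero_smul, add_zero] at hy
  have h1 := h3 (hy.trans (map_zero L₃).symm)
  funext i
  refine Fin.lastCases h0 (fun j => ?_) i
  exact congrFun h1 j

/-- A plane in `F = 0`, as an ideal. -/
theorem plane_ideal {F : Poly}
    (hF : ∃ L : (Fin 3 → ℂ) →ₗ[ℂ] Vec, Function.Injective L ∧ ∀ v, eval (L v) F = 0) :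
    ∃ h l : Poly, h.IsHomogeneous 1 ∧ l.IsHomogeneous 1 ∧ h ≠ 0 ∧ ¬ h ∣ l ∧
      F ∈ Ideal.span {h, l} := by
  obtain ⟨L₃, h3, hF3⟩ := hF
  obtain ⟨L, hL, hL3⟩ := exists_extension L₃ h3
  obtain ⟨h, hh, h0, hLh⟩ := exists_equation L hL
  obtain ⟨l, hl, hlh⟩ := pull_lift L hL (X (Fin.last 3))
  have hX0 : (X (Fin.last 3) : MvPolynomial (Fin 4) ℂ) ≠ 0 := X_ne_zero _
  refine ⟨h, l, hh, hlh 1 (isHomogeneous_X ℂ _), h0, ?_, ?_⟩
  · intro hdvd
    rw [← pull_eq_zero_iff hh h0 hLh, hl] at hdvd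
    exact hX0 hdvd
  · rw [mem_span_iff hh h0 hL hLh, hl]
    apply dvd_of_zero (Quat.linear_prime (isHomogeneous_X ℂ _) hX0)
    intro y hy
    rw [eval_X] at hy
    rw [eval_pull, hL3 y hy]
    exact hF3 _

/-- An irreducible quadric surface in `F = 0`, as an ideal. -/
theorem quadric_ideal {F : Poly}
    (hF : ∃ (L : (Fin 4 → ℂ) →ₗ[ℂ] Vec) (q : MvPolynomial (Fin 4) ℂ), Function.Injective L ∧
      q.IsHomogeneous 2 ∧ Irreducible q ∧ ∀ v, eval v q = 0 → eval (L v) F = 0) :
    ∃ h q : Poly, h.IsHomogeneous 1 ∧ h ≠ 0 ∧ q.IsHomogeneous 2 ∧ ¬ h ∣ q ∧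
      F ∈ Ideal.span {h, q} ∧
      ∀ a b : Poly, a.IsHomogeneous 1 → b.IsHomogeneous 1 → ¬ h ∣ q - a * b := by
  obtain ⟨L, q', hL, hq', hqi, hF4⟩ := hF
  obtain ⟨h, hh, h0, hLh⟩ := exists_equation L hL
  obtain ⟨q, rfl, hqh⟩ := pull_lift L hL q'
  refine ⟨h, q, hh, h0, hqh 2 hq', ?_, ?_, ?_⟩
  · intro hdvd
    rw [← pull_eq_zero_iff hh h0 hLh] at hdvd
    exact hqi.ne_zero hdvd
  · rw [mem_span_iff hh h0 hL hLh]
    apply dvd_of_zero hqi.prime
    intro y hy
    rw [eval_pull]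
    exact hF4 y hy
  · intro a b ha hb hdvd
    rw [← pull_eq_zero_iff hh h0 hLh, map_sub, map_mul, sub_eq_zero] at hdvd
    have ha0 : pull L a ≠ 0 := fun h => hqi.ne_zero (by rw [hdvd, h, zero_mul])
    have hb0 : pull L b ≠ 0 := fun h => hqi.ne_zero (by rw [hdvd, h, mul_zero])
    rcases hqi.isUnit_or_isUnit hdvd with h2 | h2
    · exact Quat.not_isUnit_of_hom one_pos (pull_mem L ha) ha0 h2
    · exact Quat.not_isUnit_of_hom one_pos (pull_mem L hb) hb0 h2

/-- Irreducibility of the restriction. -/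
lemma irreducible_pull {h q : Poly} (hh : h.IsHomogeneous 1) (h0 : h ≠ 0)
    (hq : q.IsHomogeneous 2) (hqh : ¬ h ∣ q)
    (hirr : ∀ a b : Poly, a.IsHomogeneous 1 → b.IsHomogeneous 1 → ¬ h ∣ q - a * b)
    (L : (Fin 4 → ℂ) →ₗ[ℂ] Vec) (hL : Function.Injective L)
    (hLh : ∀ v, (∃ y, L y = v) ↔ eval v h = 0) : Irreducible (pull L q) := by
  by_contra hcon
  have hq0 : pull L q ≠ 0 := fun h1 => hqh ((pull_eq_zero_iff hh h0 hLh q).1 h1)
  obtain ⟨m, u, hm, hu, -, -, hmu⟩ := Quat.quad_split (pull_mem L hq) hq0 hcon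
  obtain ⟨a, rfl, ha⟩ := pull_lift L hL m
  obtain ⟨b, rfl, hb⟩ := pull_lift L hL u
  apply hirr a b (ha 1 hm) (hb 1 hu)
  rw [← pull_eq_zero_iff hh h0 hLh, map_sub, map_mul, hmu, sub_self]

end DegTwo

end Pool.Agent.Lib.Pc2352a
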