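import Pool.Agent.Lib.Pc2352a.FacH

set_option autoImplicit false

/-!
# FacConn (1h): a cocycle modulo `F^k` has an (ambient, homogeneous) connection modulo `F^(k-1)`

Fix `m`. `c0 = u10 D_m u01`, `c1 = u21 D_m u12`, `c2 = u02 D_m u20` are homogeneous of degree `-1`. Since
`u01 u12 u20 - 1 ∈ F^k S[1/(a_0 a_1 a_2)]`, its derivative is in `F^(k-1)`; `D_m(u01 u12 u20) = u12 u20 D_m u01 + ...`
and `u12 u20 = u10 + ε k` (`coc 1 2 0`), so `c0 + c1 + c2 ∈ F^(k-1) S[1/(a_0 a_1 a_2)]`. `H1hom` with `k - 1` and degree `-1`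
gives `e`; put `A m i := e i`. This is `Conn.eq` for `(i,j) = (0,1), (1,2), (2,0)`. For `(j,i)`: `u_ij u_ji - 1 ∈ F^k`,
so `u_ij D u_ji + u_ji D u_ij ∈ F^(k-1)`; for `(i,i)`: `u_ii = 1`, `D 1 = 0`.
`Conn.tr`: the transposed cocycle has the connection `-A` (same computation), degrees `-γ`.
`Coc.tr`, `Coc.mono`, `Sec.mono`, `Sec.congr` are formal.
-/

namespace Pc2352a

open MvPolynomial

section
variable {K : Type} [Field K] [Algebra S5 K] [IsFractionRing S5 K]
variable {D : Fin 5 → Derivation ℤ K K}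
  (hD : ∀ i p, D i (algebraMap S5 K p) = algebraMap S5 K (pderiv i p))
variable {F : S5} {d : ℕ} {a : Fin 3 → S5} {α : Fin 3 → ℕ} {l : S5} {γ : Fin 3 → ℤ} {k : ℕ}
  {u u' : Fin 3 → Fin 3 → K}

omit [IsFractionRing S5 K] in
private lemma sub_mem_Loc' {F g : S5} {k : ℕ} {x y : K} (hx : x ∈ Loc K F g k)
    (hy : y ∈ Loc K F g k) : x - y ∈ Loc K F g k := Submodule.sub_mem _ hx hy

include hD in
private lemma D_mem_pred {g : S5} (hg : g ≠ 0) (m : Fin 5) {x : K} (hx : x ∈ Loc K F g k) :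
    D m x ∈ Loc K F g (k - 1) := by
  rcases Nat.eq_zero_or_pos k with h0 | h0
  · subst h0
    exact D_mem_Loc0 D hD hg m hx
  · obtain ⟨k', rfl⟩ : ∃ k', k = k' + 1 := ⟨k - 1, by omega⟩
    exact D_mem_Loc D hD hg m hx

include hD in
private lemma symm_conn (C : Cov F d a α l) (hu : Coc D F a γ k u) (m : Fin 5) (i j : Fin 3) :
    u i j * D m (u j i) + u j i * D m (u i j) ∈ Loc K F (a i * a j) (k - 1) := by
  have h1 : u i j * u j i - 1 ∈ Loc K F (a i * a j) k := by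
    have h := hu.coc i j i
    rw [hu.one i] at h
    refine Loc_of_dvd_pow (n := 2) ?_ h
    exact ⟨a j, by ring⟩
  have h2 := D_mem_pred hD (mul_ne_zero (C.ne_zero i) (C.ne_zero j)) m h1
  have h3 : D m (u i j * u j i - 1) = u i j * D m (u j i) + u j i * D m (u i j) := by
    rw [map_sub, Derivation.map_one_eq_zero, sub_zero, Derivation.leibniz]
    simp only [smul_eq_mul]
  rw [h3] at h2
  exact h2

include hD in
private lemma conn_one (C : Cov F d a α l) (hk : 1 ≤ k) (hu : Coc D F a γ k u) (m : Fin 5) :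
    ∃ e : Fin 3 → K, (∀ i, e i ∈ Loc K F (a i) 0) ∧ (∀ i, IsHom D (-1) (e i)) ∧
      ∀ i j, u j i * D m (u i j) - (e j - e i) ∈ Loc K F (a i * a j) (k - 1) := by
  have hne : ∀ i j, a i * a j ≠ 0 := fun i j => mul_ne_zero (C.ne_zero i) (C.ne_zero j)
  have hg : a 0 * a 1 * a 2 ≠ 0 := mul_ne_zero (hne 0 1) (C.ne_zero 2)
  have hmem : ∀ i j, u j i * D m (u i j) ∈ Loc K F (a i * a j) 0 := by
    intro i j
    refine Loc_mul_left ?_ (D_mem_Loc0 D hD (hne i j) m (hu.mem i j))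
    rw [mul_comm (a i) (a j)]
    exact hu.mem j i
  have hhom : ∀ i j, IsHom D (-1) (u j i * D m (u i j)) := by
    intro i j
    have h := (hu.hom j i).mul (IsHom.deriv hD (hu.hom i j) m)
    have e : γ i - γ j + (γ j - γ i - 1) = -1 := by ring
    rw [e] at h
    exact h
  -- the big open
  have hbig : ∀ i j, ∀ n, ∀ x : K, x ∈ Loc K F (a i * a j) n → i ≠ j →
      x ∈ Loc K F (a 0 * a 1 * a 2) n := by
    intro i j n x hx hij
    refine Loc_of_dvd_pow (n := 1) ?_ hx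
    rw [pow_one]
    fin_cases i <;> fin_cases j <;> simp at hij ⊢
    · exact ⟨a 1, by ring⟩
    · exact ⟨a 2, by ring⟩
    · exact ⟨a 0, by ring⟩
    · exact ⟨a 1, by ring⟩
    · exact ⟨a 0, by ring⟩
  have hD0 : ∀ i j, i ≠ j → D m (u i j) ∈ Loc K F (a 0 * a 1 * a 2) 0 := fun i j hij =>
    hbig i j 0 _ (D_mem_Loc0 D hD (hne i j) m (hu.mem i j)) hij
  have hP : u 0 1 * u 1 2 * u 2 0 - 1 ∈ Loc K F (a 0 * a 1 * a 2) k := by
    have h1 : (u 0 1 * u 1 2 - u 0 2) * u 2 0 ∈ Loc K F (a 0 * a 1 * a 2) k :=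
      Loc_mul_right (hu.coc 0 1 2) (hbig 2 0 0 _ (hu.mem 2 0) (by decide))
    have h2 : u 0 2 * u 2 0 - 1 ∈ Loc K F (a 0 * a 1 * a 2) k := by
      have h := hu.coc 0 2 0
      rw [hu.one 0] at h
      refine Loc_of_dvd_pow (n := 2) ?_ h
      exact ⟨a 1 ^ 2 * a 2, by ring⟩
    have h3 := Submodule.add_mem _ h1 h2
    have e : (u 0 1 * u 1 2 - u 0 2) * u 2 0 + (u 0 2 * u 2 0 - 1) =
        u 0 1 * u 1 2 * u 2 0 - 1 := by ring
    rw [e] at h3
    exact h3
  have hDP := D_mem_pred hD hg m hP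
  have hr0 : (u 1 2 * u 2 0 - u 1 0) * D m (u 0 1) ∈ Loc K F (a 0 * a 1 * a 2) (k - 1) := by
    refine Loc_anti (Nat.sub_le k 1) (Loc_mul_right ?_ (hD0 0 1 (by decide)))
    have h := hu.coc 1 2 0
    have e : a 1 * a 2 * a 0 = a 0 * a 1 * a 2 := by ring
    rw [e] at h
    exact h
  have hr1 : (u 2 0 * u 0 1 - u 2 1) * D m (u 1 2) ∈ Loc K F (a 0 * a 1 * a 2) (k - 1) := by
    refine Loc_anti (Nat.sub_le k 1) (Loc_mul_right ?_ (hD0 1 2 (by decide)))
    have h := hu.coc 2 0 1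
    have e : a 2 * a 0 * a 1 = a 0 * a 1 * a 2 := by ring
    rw [e] at h
    exact h
  have hr2 : (u 0 1 * u 1 2 - u 0 2) * D m (u 2 0) ∈ Loc K F (a 0 * a 1 * a 2) (k - 1) :=
    Loc_anti (Nat.sub_le k 1) (Loc_mul_right (hu.coc 0 1 2) (hD0 2 0 (by decide)))
  have hsum : u 1 0 * D m (u 0 1) + u 2 1 * D m (u 1 2) + u 0 2 * D m (u 2 0) ∈
      Loc K F (a 0 * a 1 * a 2) (k - 1) := by
    have h := sub_mem_Loc' (sub_mem_Loc' (sub_mem_Loc' hDP hr0) hr1) hr2
    have e : D m (u 0 1 * u 1 2 * u 2 0 - 1) - (u 1 2 * u 2 0 - u 1 0) * D m (u 0 1) -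
        (u 2 0 * u 0 1 - u 2 1) * D m (u 1 2) - (u 0 1 * u 1 2 - u 0 2) * D m (u 2 0) =
        u 1 0 * D m (u 0 1) + u 2 1 * D m (u 1 2) + u 0 2 * D m (u 2 0) := by
      rw [map_sub, Derivation.map_one_eq_zero, sub_zero, Derivation.leibniz, Derivation.leibniz]
      simp only [smul_eq_mul]
      ring
    rw [e] at h
    exact h
  obtain ⟨e, he, hehom, e01, e12, e20⟩ := H1hom hD C (k - 1) _ _ _ (hmem 0 1) (hmem 1 2)
    (hmem 2 0) hsum (-1) (hhom 0 1) (hhom 1 2) (hhom 2 0)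
  refine ⟨e, he, hehom, ?_⟩
  have hflip : ∀ i j, u j i * D m (u i j) - (e j - e i) ∈ Loc K F (a i * a j) (k - 1) →
      u i j * D m (u j i) - (e i - e j) ∈ Loc K F (a j * a i) (k - 1) := by
    intro i j h
    have h2 := sub_mem_Loc' (symm_conn hD C hu m i j) h
    rw [mul_comm (a j) (a i)]
    have e' : u i j * D m (u j i) + u j i * D m (u i j) - (u j i * D m (u i j) - (e j - e i)) =
        u i j * D m (u j i) - (e i - e j) := by ring
    rw [e'] at h2
    exact h2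
  have hdiag : ∀ i, u i i * D m (u i i) - (e i - e i) ∈ Loc K F (a i * a i) (k - 1) := by
    intro i
    rw [hu.one i, Derivation.map_one_eq_zero, mul_zero, sub_self, sub_self]
    exact Submodule.zero_mem _
  intro i j
  fin_cases i <;> fin_cases j
  · exact hdiag 0
  · exact e01
  · exact hflip 2 0 e20
  · exact hflip 0 1 e01
  · exact hdiag 1
  · exact e12
  · exact e20
  · exact hflip 1 2 e12
  · exact hdiag 2

include hD in
theorem exists_conn (C : Cov F d a α l) (hk : 1 ≤ k) (hu : Coc D F a γ k u) :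
    ∃ A : Fin 5 → Fin 3 → K, Conn D F a k u A := by
  choose A h1 h2 h3 using fun m => conn_one hD C hk hu m
  exact ⟨A, ⟨h1, h2, h3⟩⟩

omit [IsFractionRing S5 K] in
theorem Coc.tr (hu : Coc D F a γ k u) : Coc D F a (fun i => - γ i) k (tr u) := by
  refine ⟨?_, ?_, ?_, ?_⟩
  · intro i j
    rw [mul_comm (a i) (a j)]
    exact hu.mem j i
  · intro i
    exact hu.one i
  · intro i j l
    have h := hu.coc l j i
    have e : a l * a j * a i = a i * a j * a l := by ring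
    rw [e] at h
    have e' : Pc2352a.tr u i j * Pc2352a.tr u j l - Pc2352a.tr u i l =
        u l j * u j i - u l i := by
      simp only [Pc2352a.tr]; ring
    rw [e']
    exact h
  · intro i j
    have h := hu.hom j i
    have e : γ i - γ j = -γ j - -γ i := by ring
    rw [e] at h
    exact h

include hD in
theorem Conn.tr (C : Cov F d a α l) (hu : Coc D F a γ k u) {A : Fin 5 → Fin 3 → K}
    (hA : Conn D F a k u A) : Conn D F a k (tr u) (fun m i => - A m i) := by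
  refine ⟨?_, ?_, ?_⟩
  · intro m i
    exact Submodule.neg_mem _ (hA.mem m i)
  · intro m i
    exact (hA.hom m i).neg
  · intro m i j
    have h2 := sub_mem_Loc' (symm_conn hD C hu m i j) (hA.eq m i j)
    have e' : u i j * D m (u j i) + u j i * D m (u i j) -
        (u j i * D m (u i j) - (A m j - A m i)) =
        Pc2352a.tr u j i * D m (Pc2352a.tr u i j) - (-A m j - -A m i) := by
      simp only [Pc2352a.tr]; ring
    rw [e'] at h2
    exact h2

theorem Coc.mono {j : ℕ} (hjk : j ≤ k) (hu : Coc D F a γ k u) : Coc D F a γ j u :=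
  ⟨hu.mem, hu.one, fun i j' l => Loc_anti hjk (hu.coc i j' l), hu.hom⟩

theorem Sec.mono {j : ℕ} (hjk : j ≤ k) {s : Fin 3 → K} (hs : Sec F a u k s) : Sec F a u j s :=
  ⟨hs.1, fun i j' => Loc_anti hjk (hs.2 i j')⟩

/-- sections modulo `F^k` only depend on the cocycle modulo `F^k` -/
theorem Sec.congr (C : Cov F d a α l) (h : ∀ i j, u' i j - u i j ∈ Loc K F (a i * a j) k)
    {s : Fin 3 → K} (hs : Sec F a u k s) : Sec F a u' k s := by
  refine ⟨hs.1, ?_⟩
  intro i j
  have h1 : s j ∈ Loc K F (a i * a j) 0 := by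
    refine Loc_of_dvd_pow (n := 1) ?_ (hs.1 j)
    rw [pow_one]
    exact ⟨a i, by ring⟩
  have h2 := sub_mem_Loc' (hs.2 i j) (Loc_mul_right (h i j) h1)
  have e : s i - u i j * s j - (u' i j - u i j) * s j = s i - u' i j * s j := by ring
  rw [e] at h2
  exact h2

end

end Pc2352a
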