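import Pool.Agent.Lib.Pc2352a.FacH
import Pool.Agent.Lib.Pc2352a.FacConn

set_option autoImplicit false

/-!
# FacAux (1h): auxiliary sections modulo `F`

`u` a cocycle modulo `F` (`k = 1`). For `N` large (`mul_pow_mem_Loc`, finitely many conditions),
`x l i := a_l^N u l i ∈ S[1/a_i]` (l, i : Fin 3), `x l l = a_l^N` (as `u l l = 1`), and `x l j ≡ u i j * x l i` modulo
`F S[1/(a_i a_j)]`: the difference `a_l^N (u l j - u l i u i j)` lies in `F S[1/(a_l a_i a_j)]` (`coc l i j`) and in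
`S[1/(a_i a_j)]`, so use `Loc_inter` (`F` does not divide the products of the `a`'s: `Cov.not_dvd`, `C.prime`).
`t i := a_0^N u i 0 ∈ S[1/a_i]` is not in `F S[1/a_i]`: otherwise `a_0^N = t i * u 0 i` modulo `F S[1/(a_i a_0)]` would be in
`F S[1/(a_0 a_i)]` (`algMap_mem_iff`). `t i ≡ u i j * t j` mod `F S[1/(a_i a_j)]`. So `t i * x l i` and `t j * x l j` agree modulo
`F S[1/(a_i a_j)]` (`t_i x_li ≡ u_ij t_j x_li ≡ t_j x_lj`) and `H0` (k = 1) gives `A l`.
-/

namespace Pc2352a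

open MvPolynomial

/-- auxiliary sections modulo `F` -/
structure Aux {K : Type} [Field K] [Algebra S5 K] (F : S5) (a : Fin 3 → S5)
    (u : Fin 3 → Fin 3 → K) (N : ℕ) (x : Fin 3 → Fin 3 → K) (t : Fin 3 → K)
    (A : Fin 3 → S5) : Prop where
  hx : ∀ l i, x l i ∈ Loc K F (a i) 0
  hxd : ∀ l, x l l = algebraMap S5 K (a l ^ N)
  hxs : ∀ l i j, x l j - u i j * x l i ∈ Loc K F (a i * a j) 1
  ht : ∀ i, t i ∈ Loc K F (a i) 0
  ht1 : ∀ i, t i ∉ Loc K F (a i) 1
  hA : ∀ l i, algebraMap S5 K (A l) - t i * x l i ∈ Loc K F (a i) 1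

theorem exists_aux {K : Type} [Field K] [Algebra S5 K] [IsFractionRing S5 K]
    {D : Fin 5 → Derivation ℤ K K}
    {F : S5} {d : ℕ} {a : Fin 3 → S5} {α : Fin 3 → ℕ} {l : S5} (C : Cov F d a α l)
    {γ : Fin 3 → ℤ} {u : Fin 3 → Fin 3 → K} (hu : Coc D F a γ 1 u) :
    ∃ (N : ℕ) (x : Fin 3 → Fin 3 → K) (t : Fin 3 → K) (A : Fin 3 → S5), Aux F a u N x t A := by
  classical
  have hP := C.prime
  have nd : ∀ i, ¬ F ∣ a i := C.not_dvd
  have nd2 : ∀ {p q : S5}, ¬ F ∣ p → ¬ F ∣ q → ¬ F ∣ p * q := by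
    intro p q hp hq h
    rcases hP.dvd_or_dvd h with h | h
    · exact hp h
    · exact hq h
  -- the exponent
  have h0 : ∀ i m : Fin 3, ∃ N0 : ℕ, ∀ N, N0 ≤ N →
      algebraMap S5 K (a m ^ N) * u m i ∈ Loc K F (a i) 0 := by
    intro i m
    have := hu.mem m i
    rw [mul_comm] at this
    exact mul_pow_mem_Loc this
  have h0' : ∀ i m : Fin 3, ∃ N0 : ℕ, ∀ N, N0 ≤ N →
      algebraMap S5 K (a m ^ N) * u i m ∈ Loc K F (a i) 0 := by
    intro i m
    exact mul_pow_mem_Loc (hu.mem i m)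
  choose N0 hN0 using h0
  choose N1 hN1 using h0'
  obtain ⟨N, hNa, hNb⟩ : ∃ N, (∀ i m, N0 i m ≤ N) ∧ (∀ i m, N1 i m ≤ N) := by
    refine ⟨∑ i, ∑ m, (N0 i m + N1 i m), ?_, ?_⟩
    · intro i m
      calc N0 i m ≤ N0 i m + N1 i m := Nat.le_add_right _ _
        _ ≤ ∑ m, (N0 i m + N1 i m) :=
            Finset.single_le_sum (f := fun m => N0 i m + N1 i m)
              (fun _ _ => Nat.zero_le _) (Finset.mem_univ m)
        _ ≤ ∑ i, ∑ m, (N0 i m + N1 i m) :=
            Finset.single_le_sum (f := fun i => ∑ m, (N0 i m + N1 i m))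
              (fun _ _ => Nat.zero_le _) (Finset.mem_univ i)
    · intro i m
      calc N1 i m ≤ N0 i m + N1 i m := Nat.le_add_left _ _
        _ ≤ ∑ m, (N0 i m + N1 i m) :=
            Finset.single_le_sum (f := fun m => N0 i m + N1 i m)
              (fun _ _ => Nat.zero_le _) (Finset.mem_univ m)
        _ ≤ ∑ i, ∑ m, (N0 i m + N1 i m) :=
            Finset.single_le_sum (f := fun i => ∑ m, (N0 i m + N1 i m))
              (fun _ _ => Nat.zero_le _) (Finset.mem_univ i)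
  have hx : ∀ m i, algebraMap S5 K (a m ^ N) * u m i ∈ Loc K F (a i) 0 :=
    fun m i => hN0 i m N (hNa i m)
  have ht : ∀ i, algebraMap S5 K (a 0 ^ N) * u i 0 ∈ Loc K F (a i) 0 :=
    fun i => hN1 i 0 N (hNb i 0)
  have L1 : ∀ {i j : Fin 3} {x : K} {k : ℕ}, x ∈ Loc K F (a i) k → x ∈ Loc K F (a i * a j) k := by
    intro i j x k h
    exact Loc_of_dvd_pow (n := 1) (by rw [pow_one]; exact Dvd.intro _ rfl) h
  have L2 : ∀ {i j : Fin 3} {x : K} {k : ℕ}, x ∈ Loc K F (a j) k → x ∈ Loc K F (a i * a j) k := by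
    intro i j x k h
    exact Loc_of_dvd_pow (n := 1) (by rw [pow_one]; exact Dvd.intro_left _ rfl) h
  have hxs : ∀ m i j, algebraMap S5 K (a m ^ N) * u m j -
      u i j * (algebraMap S5 K (a m ^ N) * u m i) ∈ Loc K F (a i * a j) 1 := by
    intro m i j
    have e : algebraMap S5 K (a m ^ N) * u m j - u i j * (algebraMap S5 K (a m ^ N) * u m i) =
        -(algebraMap S5 K (a m ^ N) * (u m i * u i j - u m j)) := by ring
    have m1 : algebraMap S5 K (a m ^ N) * u m j -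
        u i j * (algebraMap S5 K (a m ^ N) * u m i) ∈ Loc K F (a i * a j) 0 :=
      Submodule.sub_mem _ (L2 (hx m j)) (Loc_mul_left (hu.mem i j) (L1 (hx m i)))
    have m2 : algebraMap S5 K (a m ^ N) * u m j -
        u i j * (algebraMap S5 K (a m ^ N) * u m i) ∈ Loc K F (a m * a i * a j) 1 := by
      rw [e]
      exact Submodule.neg_mem _ (Loc_mul_left (algMap_mem F _ _) (hu.coc m i j))
    exact Loc_inter hP (nd2 (nd i) (nd j)) (nd2 (nd2 (nd m) (nd i)) (nd j)) m1 m2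
  have hts : ∀ i j, algebraMap S5 K (a 0 ^ N) * u i 0 -
      u i j * (algebraMap S5 K (a 0 ^ N) * u j 0) ∈ Loc K F (a i * a j) 1 := by
    intro i j
    have e : algebraMap S5 K (a 0 ^ N) * u i 0 - u i j * (algebraMap S5 K (a 0 ^ N) * u j 0) =
        -(algebraMap S5 K (a 0 ^ N) * (u i j * u j 0 - u i 0)) := by ring
    have m1 : algebraMap S5 K (a 0 ^ N) * u i 0 -
        u i j * (algebraMap S5 K (a 0 ^ N) * u j 0) ∈ Loc K F (a i * a j) 0 :=
      Submodule.sub_mem _ (L1 (ht i)) (Loc_mul_left (hu.mem i j) (L2 (ht j)))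
    have m2 : algebraMap S5 K (a 0 ^ N) * u i 0 -
        u i j * (algebraMap S5 K (a 0 ^ N) * u j 0) ∈ Loc K F (a i * a j * a 0) 1 := by
      rw [e]
      exact Submodule.neg_mem _ (Loc_mul_left (algMap_mem F _ _) (hu.coc i j 0))
    exact Loc_inter hP (nd2 (nd i) (nd j)) (nd2 (nd2 (nd i) (nd j)) (nd 0)) m1 m2
  have hprod : ∀ m i j,
      (algebraMap S5 K (a 0 ^ N) * u i 0) * (algebraMap S5 K (a m ^ N) * u m i) -
        (algebraMap S5 K (a 0 ^ N) * u j 0) * (algebraMap S5 K (a m ^ N) * u m j) ∈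
        Loc K F (a i * a j) 1 := by
    intro m i j
    have e : (algebraMap S5 K (a 0 ^ N) * u i 0) * (algebraMap S5 K (a m ^ N) * u m i) -
        (algebraMap S5 K (a 0 ^ N) * u j 0) * (algebraMap S5 K (a m ^ N) * u m j) =
        (algebraMap S5 K (a m ^ N) * u m i) * (algebraMap S5 K (a 0 ^ N) * u i 0 -
          u i j * (algebraMap S5 K (a 0 ^ N) * u j 0)) -
        (algebraMap S5 K (a 0 ^ N) * u j 0) * (algebraMap S5 K (a m ^ N) * u m j -
          u i j * (algebraMap S5 K (a m ^ N) * u m i)) := by ring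
    rw [e]
    exact Submodule.sub_mem _ (Loc_mul_left (L1 (hx m i)) (hts i j))
      (Loc_mul_left (L2 (ht j)) (hxs m i j))
  have hH : ∀ m, ∃ y : S5, ∀ i,
      (algebraMap S5 K (a 0 ^ N) * u i 0) * (algebraMap S5 K (a m ^ N) * u m i) -
        algebraMap S5 K y ∈ Loc K F (a i) 1 := by
    intro m
    exact H0 C 1 (fun i => (algebraMap S5 K (a 0 ^ N) * u i 0) *
      (algebraMap S5 K (a m ^ N) * u m i)) (fun i => Loc_mul_left (ht i) (hx m i))
      (fun i j => hprod m i j)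
  choose A hA using hH
  refine ⟨N, fun m i => algebraMap S5 K (a m ^ N) * u m i,
    fun i => algebraMap S5 K (a 0 ^ N) * u i 0, A, hx, ?_, hxs, ht, ?_, ?_⟩
  · intro m
    simp only [hu.one m, mul_one]
  · intro i hi
    have m1 : (algebraMap S5 K (a 0 ^ N) * u i 0) * u 0 i ∈ Loc K F (a i * a 0) 1 := by
      refine Loc_mul_right (L1 hi) ?_
      have := hu.mem 0 i
      rwa [mul_comm] at this
    have m1' : (algebraMap S5 K (a 0 ^ N) * u i 0) * u 0 i ∈ Loc K F (a i * a 0 * a i) 1 :=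
      Loc_of_dvd_pow (n := 1) (by rw [pow_one]; exact Dvd.intro _ rfl) m1
    have m2 : algebraMap S5 K (a 0 ^ N) * (u i 0 * u 0 i - u i i) ∈
        Loc K F (a i * a 0 * a i) 1 := Loc_mul_left (algMap_mem F _ _) (hu.coc i 0 i)
    have m3 := Submodule.sub_mem _ m1' m2
    have e : (algebraMap S5 K (a 0 ^ N) * u i 0) * u 0 i -
        algebraMap S5 K (a 0 ^ N) * (u i 0 * u 0 i - u i i) = algebraMap S5 K (a 0 ^ N) := by
      rw [hu.one i]; ring
    rw [e] at m3
    have h3 := (algMap_mem_iff hP (nd2 (nd2 (nd i) (nd 0)) (nd i))).1 m3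
    rw [pow_one] at h3
    exact nd 0 (hP.dvd_of_dvd_pow h3)
  · intro m i
    have := Submodule.neg_mem _ (hA m i)
    rwa [neg_sub] at this

/-- the obstruction relation: `s` is a section modulo `F^k`, `y` represents its obstruction -/
def EE {K : Type} [Field K] [Algebra S5 K] (F : S5) (a : Fin 3 → S5) (x : Fin 3 → Fin 3 → K)
    (A : Fin 3 → S5) (k : ℕ) (v : Fin 3 → Fin 3 → K) (s : Fin 3 → K)
    (y : Fin 3 → Fin 3 → S5) : Prop :=
  Sec F a v k s ∧ ∃ b : Fin 3 → Fin 3 → K, (∀ l i, b l i ∈ Loc K F (a i) 0) ∧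
    (∀ i j l, x l i * (s i - v i j * s j) - algebraMap S5 K (F ^ k) * (b l j - b l i) ∈
      Loc K F (a i * a j) (k + 1)) ∧
    ∀ l m i, algebraMap S5 K (A l) * b m i - algebraMap S5 K (A m) * b l i -
      algebraMap S5 K (y l m) ∈ Loc K F (a i) 1

end Pc2352a
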