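import Pool.Agent.Lib.Pc2352a.FacHt

set_option autoImplicit false

/-!
# FacAvoid (1.2h): homogeneous avoidance and homogeneous minimal primes

`HIdeal I`: `I` is closed under taking homogeneous components.
* `hideal_span`: generated by forms.
* `minimalPrimes_hideal`: minimal primes of a homogeneous ideal are homogeneous (the ideal generated by
  the homogeneous elements of a prime is prime; Mathlib has `Ideal.IsPrime.homogeneousCore` and
  `Ideal.IsHomogeneous` for `MvPolynomial.homogeneousSubmodule`), they are finitely many, and a proper homogeneous ideal is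
  contained in `maxI`.
* `hom_avoid`: `I` homogeneous, `B q` (`q ∈ T` finite) ideals, and for each `q ∈ T` some variable `X_i` such that for `g ∈ I`,
  `X_i g ∈ B q` implies `g ∈ B q`. If `I ≰ B q` for all `q ∈ T` there is a form `g ∈ I` of positive degree with `g ∉ B q` for all `q ∈ T`.
  Proof: for each `q` some `g ∈ I` is not in `B q`, so some homogeneous component `g_q ∈ I` is not in `B q` (as `B q` is
  closed under sums). Multiply by powers of the variable `X_i` of `q` to reach a common positive degree `n`. So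
  the vector space `I_n` of forms of degree `n` in `I` is not contained in any `B q`; as `C` is infinite it is not
  contained in the finite union.
* `linear_avoid`: a linear form outside finitely many ideals `q ∈ T` (primes, none contains all variables) and nonzero at finitely many
  nonzero points.
-/

namespace Pc2352a

open MvPolynomial

/-- homogeneous ideal -/
def HIdeal (I : Ideal S5) : Prop := ∀ g ∈ I, ∀ n, homogeneousComponent n g ∈ I

namespace FacAvoid

attribute [local instance] MvPolynomial.gradedAlgebra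

theorem hideal_iff (I : Ideal S5) :
    HIdeal I ↔ I.IsHomogeneous (homogeneousSubmodule (Fin 5) ℂ) := by
  constructor
  · intro h i r hr
    have := h r hr i
    rw [← decomposition.decompose'_apply] at this
    exact this
  · intro h g hg n
    exact homogeneousComponent_mem_of_mem h hg n

theorem span_aux (s : Set S5) (hs : ∀ g ∈ s, ∃ n, g.IsHomogeneous n) :
    HIdeal (Ideal.span s) := by
  rw [hideal_iff]
  apply Ideal.homogeneous_span
  intro x hx
  obtain ⟨n, hn⟩ := hs x hx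
  exact ⟨n, hn⟩

theorem hcore_aux (P : Ideal S5) (hP : P.IsPrime) : ∃ P' : Ideal S5, P'.IsPrime ∧ HIdeal P' ∧
    P' ≤ P ∧ (∀ (g : S5) (n : ℕ), g.IsHomogeneous n → g ∈ P → g ∈ P') ∧
    (∀ I : Ideal S5, HIdeal I → I ≤ P → I ≤ P') := by
  refine ⟨(P.homogeneousCore (homogeneousSubmodule (Fin 5) ℂ)).toIdeal, hP.homogeneousCore, ?_,
    Ideal.toIdeal_homogeneousCore_le _ _, ?_, ?_⟩
  · rw [hideal_iff]
    exact HomogeneousIdeal.isHomogeneous _
  · intro g n hg hgP
    exact Ideal.mem_homogeneousCore_of_homogeneous_of_mem ⟨n, hg⟩ hgP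
  · intro I hI hIP
    rw [hideal_iff] at hI
    rw [← hI.toIdeal_homogeneousCore_eq_self]
    exact Ideal.homogeneousCore_mono _ hIP

theorem avoid_aux {E : Type} [AddCommGroup E] [Module ℂ E] {ι : Type} [Finite ι]
    (p : ι → Submodule ℂ E) (hp : ∀ i, p i ≠ ⊤) : ∃ x : E, ∀ i, x ∉ p i := by
  by_contra hcon
  push Not at hcon
  have hcov : ⋃ i, (p i : Set E) = Set.univ := by
    apply Set.eq_univ_of_forall
    intro x
    obtain ⟨i, hi⟩ := hcon x
    exact Set.mem_iUnion.2 ⟨i, hi⟩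
  obtain ⟨i, hi⟩ := Subspace.exists_eq_top_of_iUnion_eq_univ hcov
  exact hp i hi

theorem pow_avoid (I B : Ideal S5) (i : Fin 5) (h : ∀ g ∈ I, X i * g ∈ B → g ∈ B) (g : S5)
    (hg : g ∈ I) (hgB : g ∉ B) (m : ℕ) : X i ^ m * g ∉ B := by
  induction m with
  | zero => simpa using hgB
  | succ m ih =>
    intro hmem
    apply ih
    apply h _ (I.mul_mem_left _ hg)
    rw [pow_succ'] at hmem
    rw [← mul_assoc]
    exact hmem

end FacAvoid

open FacAvoid

theorem hideal_span (s : Set S5) (hs : ∀ g ∈ s, ∃ n, g.IsHomogeneous n) :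
    HIdeal (Ideal.span s) := span_aux s hs

theorem hideal_minimalPrimes (I : Ideal S5) (hI : HIdeal I) (Q : Ideal S5)
    (hQ : Q ∈ I.minimalPrimes) : HIdeal Q := by
  obtain ⟨⟨hQp, hIQ⟩, hmin⟩ := hQ
  obtain ⟨Q', hQ'p, hQ'h, hQ'Q, -, h5⟩ := hcore_aux Q hQp
  have hle : Q ≤ Q' := hmin ⟨hQ'p, h5 I hI hIQ⟩ hQ'Q
  rwa [le_antisymm hle hQ'Q]

theorem finite_minimalPrimes (I : Ideal S5) : I.minimalPrimes.Finite :=
  I.finite_minimalPrimes_of_isNoetherianRing

theorem hideal_le_maxI (I : Ideal S5) (hI : HIdeal I) (h : I ≠ ⊤) : I ≤ maxI := by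
  intro g hg
  have h0 := hI g hg 0
  rw [homogeneousComponent_zero] at h0
  show g ∈ RingHom.ker (eval (0 : Fin 5 → ℂ))
  rw [RingHom.mem_ker, MvPolynomial.eval_zero, constantCoeff_eq]
  by_contra hne
  apply h
  rw [Ideal.eq_top_iff_one]
  have := I.mul_mem_left (C ((coeff 0 g)⁻¹)) h0
  rwa [← C_mul, inv_mul_cancel₀ hne, C_1] at this

/-- the homogeneous core of a prime is a prime -/
theorem hcore (P : Ideal S5) (hP : P.IsPrime) : ∃ P' : Ideal S5, P'.IsPrime ∧ HIdeal P' ∧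
    P' ≤ P ∧ ∀ (g : S5) (n : ℕ), g.IsHomogeneous n → g ∈ P → g ∈ P' := by
  obtain ⟨P', h1, h2, h3, h4, -⟩ := hcore_aux P hP
  exact ⟨P', h1, h2, h3, h4⟩

theorem hom_avoid {ι : Type} (T : Finset ι) (I : Ideal S5) (hI : HIdeal I) (B : ι → Ideal S5)
    (hB : ∀ q ∈ T, ∃ i : Fin 5, ∀ g ∈ I, X i * g ∈ B q → g ∈ B q) (hIB : ∀ q ∈ T, ¬ I ≤ B q) :
    ∃ (g : S5) (n : ℕ), 0 < n ∧ g.IsHomogeneous n ∧ g ∈ I ∧ ∀ q ∈ T, g ∉ B q := by
  have key : ∀ q ∈ T, ∃ n : ℕ, ∃ g : S5, g.IsHomogeneous n ∧ g ∈ I ∧ g ∉ B q := by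
    intro q hq
    obtain ⟨g, hgI, hgB⟩ := Set.not_subset.1 (hIB q hq)
    by_contra hcon
    push Not at hcon
    apply hgB
    rw [← sum_homogeneousComponent g]
    apply Ideal.sum_mem
    intro n _
    exact hcon n _ (homogeneousComponent_isHomogeneous n g) (hI g hgI n)
  choose! n g hgn hgI hgB using key
  set N := T.sup n + 1 with hN
  have key2 : ∀ q ∈ T, ∃ f : S5, f.IsHomogeneous N ∧ f ∈ I ∧ f ∉ B q := by
    intro q hq
    obtain ⟨i, hi⟩ := hB q hq
    have hle : n q ≤ N := (Finset.le_sup hq).trans (Nat.le_succ _)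
    refine ⟨X i ^ (N - n q) * g q, ?_, I.mul_mem_left _ (hgI q hq),
      pow_avoid I (B q) i hi _ (hgI q hq) (hgB q hq) _⟩
    have h1 : (X i ^ (N - n q) : S5).IsHomogeneous (1 * (N - n q)) :=
      (isHomogeneous_X ℂ i).pow _
    have h2 := h1.mul (hgn q hq)
    rwa [one_mul, Nat.sub_add_cancel hle] at h2
  let V : Submodule ℂ S5 := homogeneousSubmodule (Fin 5) ℂ N ⊓ I.restrictScalars ℂ
  let p : T → Submodule ℂ V := fun q => ((B q.1).restrictScalars ℂ).comap V.subtype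
  have hp : ∀ q, p q ≠ ⊤ := by
    rintro ⟨q, hq⟩ htop
    obtain ⟨f, h1, h2, h3⟩ := key2 q hq
    have hf : f ∈ V := ⟨h1, h2⟩
    have : (⟨f, hf⟩ : V) ∈ p ⟨q, hq⟩ := by rw [htop]; trivial
    exact h3 this
  obtain ⟨⟨f, hfV⟩, hf⟩ := avoid_aux p hp
  exact ⟨f, N, Nat.succ_pos _, hfV.1, hfV.2, fun q hq hmem => hf ⟨q, hq⟩ hmem⟩

theorem linear_avoid (T : Finset (Ideal S5)) (hT : ∀ q ∈ T, ∃ i : Fin 5, X i ∉ q)
    (Z : Finset (Fin 5 → ℂ)) (hZ : ∀ z ∈ Z, z ≠ 0) :
    ∃ l : S5, l.IsHomogeneous 1 ∧ (∀ q ∈ T, l ∉ q) ∧ ∀ z ∈ Z, eval z l ≠ 0 := by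
  let V : Submodule ℂ S5 := homogeneousSubmodule (Fin 5) ℂ 1
  let p : T ⊕ Z → Submodule ℂ V := fun q => match q with
    | Sum.inl q => (q.1.restrictScalars ℂ).comap V.subtype
    | Sum.inr z => (LinearMap.ker (aeval z.1 : S5 →ₐ[ℂ] ℂ).toLinearMap).comap V.subtype
  have hX : ∀ i : Fin 5, (X i : S5) ∈ V := fun i => isHomogeneous_X ℂ i
  have hp : ∀ q, p q ≠ ⊤ := by
    rintro (⟨q, hq⟩ | ⟨z, hz⟩) htop
    · obtain ⟨i, hi⟩ := hT q hq
      have : (⟨X i, hX i⟩ : V) ∈ p (Sum.inl ⟨q, hq⟩) := by rw [htop]; trivial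
      exact hi this
    · obtain ⟨i, hi⟩ := Function.ne_iff.1 (hZ z hz)
      have : (⟨X i, hX i⟩ : V) ∈ p (Sum.inr ⟨z, hz⟩) := by rw [htop]; trivial
      have h2 : aeval z (X i : S5) = 0 := this
      rw [aeval_X] at h2
      exact hi h2
  obtain ⟨⟨f, hfV⟩, hf⟩ := avoid_aux p hp
  refine ⟨f, hfV, fun q hq hmem => hf (Sum.inl ⟨q, hq⟩) hmem, fun z hz h0 => ?_⟩
  apply hf (Sum.inr ⟨z, hz⟩)
  show (aeval z f : ℂ) = 0
  rw [aeval_eq_eval]
  exact h0

end Pc2352a
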