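import Pool.Agent.Lib.Pc2352a.FacH
import Pool.Agent.Lib.Pc2352a.FacAvoid

set_option autoImplicit false

/-!
# FacBase (1.2h): the cocycle of `P` modulo `F`, and the conclusion from its triviality

Data as produced by `exists_cover`: `a_i P ⊆ (F, G_i)`, `G_i ∈ P` forms of degree `g i`, not divisible by `F`.
`exists_base`: `a_i G_j = b_ij G_i + F c_ij` with `b_ij` a form of degree `α_i + g_j - g_i` (take homogeneous components;
`b_ij = 0` if that is negative — impossible since `F ∤ a_i G_j`, but not needed). Put `u i j := b_ij / a_i` for `i ≠ j`, `u i i = 1`;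
so `G_j ≡ u i j G_i` mod `F S[1/a_i]`. Cocycle: `(u_ij u_jl - u_il) G_i ≡ 0` mod `F S[1/(a_i a_j a_l)]`, cancel `G_i`
(`Loc_cancel` or `Loc_prime`). Homogeneous of degree `g j - g i`.
`conclude`: let `s`, `x` be as in `formal_trivial` for this cocycle. `s_i G_i ≡ s_j G_j` mod `F` (`s_i ≡ u_ij s_j`, `G_j ≡ u_ij G_i`), `H0hom` (k = 1)
gives `q : S5`, `q ≡ s_i G_i` mod `F S[1/a_i]`, homogeneous (`IsHom.poly`, or `q = 0`). `q ∈ P`: for the `i` of `hPa`, `a_i^n q ∈ (F, G_i) ⊆ P`. For `p ∈ P`: `a_i p = p_i' G_i` mod `F`, i.e.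
`p ≡ p_i G_i` mod `F S[1/a_i]` with `p_i = p_i'/a_i ∈ S[1/a_i]`; `p_i ≡ u_ij p_j` mod `F` (cancel `G_i`). `r_i := p_i x_i`: `r_i ≡ u_ij p_j x_i ≡ p_j x_j = r_j`. `H0` gives
`r : S5`, `r ≡ r_i`, and `r q ≡ p_i x_i s_i G_i ≡ p_i G_i ≡ p` mod `F S[1/a_i]`, so `F ∣ r q - p` (`algMap_mem_iff`). So `P = (F, q)`.
-/

namespace Pc2352a

open MvPolynomial

namespace FacBaseAux

/-- homogeneous component of a multiple of a form -/
lemma comp_mul_form {G : S5} {g : ℕ} (hG : G.IsHomogeneous g) (q : S5) (n : ℕ) :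
    ∃ b : S5, homogeneousComponent n (q * G) = b * G ∧
      (b = 0 ∨ ∃ k, k + g = n ∧ b.IsHomogeneous k) := by
  have h1 : q * G = ∑ k ∈ Finset.range (q.totalDegree + 1), homogeneousComponent k q * G := by
    rw [← Finset.sum_mul, sum_homogeneousComponent]
  have h2 : homogeneousComponent n (q * G) =
      (∑ k ∈ Finset.range (q.totalDegree + 1),
        if n = k + g then homogeneousComponent k q else 0) * G := by
    rw [h1, map_sum, Finset.sum_mul]
    refine Finset.sum_congr rfl fun k _ => ?_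
    have h3 : homogeneousComponent k q * G ∈ homogeneousSubmodule (Fin 5) ℂ (k + g) :=
      (mem_homogeneousSubmodule _ _).2 ((homogeneousComponent_isHomogeneous k q).mul hG)
    rw [homogeneousComponent_of_mem h3]
    split_ifs with h
    · rfl
    · rw [zero_mul]
  refine ⟨_, h2, ?_⟩
  by_cases hgn : g ≤ n
  · right
    refine ⟨n - g, by omega, ?_⟩
    refine IsHomogeneous.sum _ _ _ fun k _ => ?_
    split_ifs with h
    · have : n - g = k := by omega
      rw [this]
      exact homogeneousComponent_isHomogeneous k q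
    · exact isHomogeneous_zero _ _ _
  · left
    refine Finset.sum_eq_zero fun k _ => ?_
    rw [if_neg (by omega)]

/-- homogeneous coefficients -/
lemma exists_hom_coeff {F G a H : S5} {d g α h : ℕ} (hF : F.IsHomogeneous d)
    (hG : G.IsHomogeneous g) (ha : a.IsHomogeneous α) (hH : H.IsHomogeneous h)
    (hmem : a * H ∈ Ideal.span {F, G}) :
    ∃ b c : S5, a * H = c * F + b * G ∧ (b = 0 ∨ ∃ k, k + g = α + h ∧ b.IsHomogeneous k) := by
  obtain ⟨p, q, hpq⟩ := Ideal.mem_span_pair.1 hmem
  obtain ⟨c, hc, -⟩ := comp_mul_form hF p (α + h)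
  obtain ⟨b, hb, hb'⟩ := comp_mul_form hG q (α + h)
  refine ⟨b, c, ?_, hb'⟩
  have h3 : a * H ∈ homogeneousSubmodule (Fin 5) ℂ (α + h) :=
    (mem_homogeneousSubmodule _ _).2 (ha.mul hH)
  have h4 := homogeneousComponent_of_mem (m := α + h) h3
  rw [if_pos rfl] at h4
  rw [← h4, ← hpq, map_add, hc, hb]

end FacBaseAux

section
variable {K : Type} [Field K] [Algebra S5 K] [IsFractionRing S5 K]
variable {D : Fin 5 → Derivation ℤ K K}
  (hD : ∀ i p, D i (algebraMap S5 K p) = algebraMap S5 K (pderiv i p))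
variable {F : S5} {d : ℕ} {a : Fin 3 → S5} {α : Fin 3 → ℕ} {l : S5}

include hD in
theorem exists_base (C : Cov F d a α l) (P : Ideal S5) (G : Fin 3 → S5) (g : Fin 3 → ℕ)
    (hG : ∀ i, G i ∈ P ∧ ¬ F ∣ G i ∧ (G i).IsHomogeneous (g i))
    (haP : ∀ i, ∀ p ∈ P, a i * p ∈ Ideal.span {F, G i}) :
    ∃ u : Fin 3 → Fin 3 → K, Coc D F a (fun i => (g i : ℤ)) 1 u ∧
      ∀ i j, algebraMap S5 K (G j) - u i j * algebraMap S5 K (G i) ∈ Loc K F (a i) 1 := by
  have hex : ∀ i j, ∃ b c : S5, a i * G j = c * F + b * G i ∧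
      (b = 0 ∨ ∃ k, k + g i = α i + g j ∧ b.IsHomogeneous k) := fun i j =>
    FacBaseAux.exists_hom_coeff C.hF (hG i).2.2 (C.ha i) (hG j).2.2 (haP i _ (hG j).1)
  choose b c hbc hb using hex
  have ha0 : ∀ i, algebraMap S5 K (a i) ≠ 0 := fun i => algMap_ne (C.ne_zero i)
  let u : Fin 3 → Fin 3 → K := fun i j =>
    if i = j then 1 else algebraMap S5 K (b i j) * (algebraMap S5 K (a i))⁻¹
  have hue : ∀ i, u i i = 1 := fun i => if_pos rfl
  have hun : ∀ i j, i ≠ j → u i j = algebraMap S5 K (b i j) * (algebraMap S5 K (a i))⁻¹ :=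
    fun i j hij => if_neg hij
  have hmem : ∀ i j, u i j ∈ Loc K F (a i) 0 := by
    intro i j
    by_cases hij : i = j
    · subst hij
      rw [hue, ← map_one (algebraMap S5 K)]
      exact algMap_mem F _ 1
    · rw [hun i j hij]
      refine ⟨1, b i j, ?_⟩
      rw [pow_one, pow_zero, one_mul]
      field_simp [ha0 i]
  have huG : ∀ i j, algebraMap S5 K (G j) - u i j * algebraMap S5 K (G i) ∈
      Loc K F (a i) 1 := by
    intro i j
    by_cases hij : i = j
    · subst hij
      rw [hue, one_mul, sub_self]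
      exact Submodule.zero_mem _
    · rw [hun i j hij]
      refine ⟨1, c i j, ?_⟩
      have h1 := congrArg (algebraMap S5 K) (hbc i j)
      rw [map_mul, map_add, map_mul, map_mul] at h1
      rw [pow_one, pow_one, map_mul]
      have h2 : algebraMap S5 K (a i) * (algebraMap S5 K (G j) -
          algebraMap S5 K (b i j) * (algebraMap S5 K (a i))⁻¹ * algebraMap S5 K (G i)) =
          algebraMap S5 K (a i) * algebraMap S5 K (G j) -
          algebraMap S5 K (b i j) * algebraMap S5 K (G i) := by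
        field_simp [ha0 i]
      rw [h2, h1]
      ring
  refine ⟨u, ⟨?_, hue, ?_, ?_⟩, huG⟩
  · intro i j
    exact Loc_of_dvd_pow (n := 1) (by rw [pow_one]; exact dvd_mul_right _ _) (hmem i j)
  · intro i j k
    have d1 : a i ∣ (a i * a j * a k) ^ 1 := by
      rw [pow_one, mul_assoc]; exact dvd_mul_right _ _
    have d2 : a j ∣ (a i * a j * a k) ^ 1 := by
      rw [pow_one, mul_assoc]; exact Dvd.dvd.mul_left (dvd_mul_right _ _) _
    have nd : ¬ F ∣ a i * a j * a k := by
      intro h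
      rcases C.prime.dvd_or_dvd h with h | h
      · rcases C.prime.dvd_or_dvd h with h | h
        · exact C.not_dvd i h
        · exact C.not_dvd j h
      · exact C.not_dvd k h
    have m1 : ∀ i', u i i' ∈ Loc K F (a i * a j * a k) 0 := fun i' =>
      Loc_of_dvd_pow d1 (hmem i i')
    have m2 : ∀ i', u j i' ∈ Loc K F (a i * a j * a k) 0 := fun i' =>
      Loc_of_dvd_pow d2 (hmem j i')
    refine Loc_cancel (y := algebraMap S5 K (G i)) C.prime nd
      (Submodule.sub_mem _ (Loc_mul_left (m1 j) (m2 k)) (m1 k)) (algMap_mem F _ _) ?_ ?_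
    · rw [algMap_mem_iff C.prime nd, pow_one]
      exact (hG i).2.1
    · have e1 := Loc_of_dvd_pow d1 (huG i j)
      have e2 := Loc_of_dvd_pow d2 (huG j k)
      have e3 := Loc_of_dvd_pow d1 (huG i k)
      have e4 := Submodule.sub_mem _ (Submodule.sub_mem _ e3 e2) (Loc_mul_left (m2 k) e1)
      convert e4 using 1
      ring
  · intro i j
    by_cases hij : i = j
    · subst hij
      rw [hue, sub_self]
      exact IsHom.one
    · rw [hun i j hij]
      rcases hb i j with h | ⟨k, hk, hbk⟩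
      · rw [h, map_zero, zero_mul]
        exact IsHom.zero _
      · have h1 := (IsHom.algMap hD hbk).mul (IsHom.algMap hD (C.ha i)).inv
        have h2 : (k : ℤ) + -(α i : ℤ) = (g j : ℤ) - (g i : ℤ) := by
          have : (k : ℤ) + g i = α i + g j := by exact_mod_cast hk
          linarith
        rw [h2] at h1
        exact h1

include hD in
theorem conclude (C : Cov F d a α l) (P : Ideal S5) (hP : P.IsPrime) (hFP : F ∈ P)
    (hPa : ∃ i, a i ∉ P) (G : Fin 3 → S5)
    (g : Fin 3 → ℕ) (hG : ∀ i, G i ∈ P ∧ ¬ F ∣ G i ∧ (G i).IsHomogeneous (g i))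
    (haP : ∀ i, ∀ p ∈ P, a i * p ∈ Ideal.span {F, G i})
    (u : Fin 3 → Fin 3 → K) (hu : Coc D F a (fun i => (g i : ℤ)) 1 u)
    (huG : ∀ i j, algebraMap S5 K (G j) - u i j * algebraMap S5 K (G i) ∈ Loc K F (a i) 1)
    (m : ℤ) (s x : Fin 3 → K) (hs : Sec F a u 1 s) (hsm : SHom D (fun i => (g i : ℤ)) m s)
    (hx : Sec F a (tr u) 1 x) (hsx : ∀ i, s i * x i - 1 ∈ Loc K F (a i) 1) :
    ∃ (q : S5) (n : ℕ), q.IsHomogeneous n ∧ P = Ideal.span {F, q} := by
  have dl : ∀ i j, a i ∣ (a i * a j) ^ 1 := fun i j => by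
    rw [pow_one]; exact dvd_mul_right _ _
  have dr : ∀ i j, a j ∣ (a i * a j) ^ 1 := fun i j => by
    rw [pow_one]; exact dvd_mul_left _ _
  have nd2 : ∀ i j, ¬ F ∣ a i * a j := by
    intro i j h
    rcases C.prime.dvd_or_dvd h with h | h
    · exact C.not_dvd i h
    · exact C.not_dvd j h
  have ha0 : ∀ i, algebraMap S5 K (a i) ≠ 0 := fun i => algMap_ne (C.ne_zero i)
  -- the form q
  obtain ⟨q, hqm, hq⟩ := H0hom hD C 1 (fun i => s i * algebraMap S5 K (G i))
    (fun i => Loc_mul_left (hs.1 i) (algMap_mem F _ _))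
    (by
      intro i j
      have e1 := Loc_mul_right (hs.2 i j) (algMap_mem (K := K) F (a i * a j) (G i))
      have e2 := Loc_mul_left (Loc_of_dvd_pow (dr i j) (hs.1 j))
        (Loc_of_dvd_pow (dl i j) (huG i j))
      have e3 := Submodule.sub_mem _ e1 e2
      convert e3 using 1
      ring)
    m
    (by
      intro i
      have h1 := (hsm i).mul (IsHom.algMap hD (hG i).2.2)
      have h2 : m - (g i : ℤ) + (g i : ℤ) = m := by ring
      simp only at h1
      rw [h2] at h1
      exact h1)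
  obtain ⟨n, hqn⟩ : ∃ n : ℕ, q.IsHomogeneous n := by
    by_cases h0 : q = 0
    · exact ⟨0, by rw [h0]; exact isHomogeneous_zero _ _ _⟩
    · obtain ⟨k, -, hk⟩ := IsHom.poly hD hqm h0
      exact ⟨k, hk⟩
  have hqP : q ∈ P := by
    obtain ⟨i, hi⟩ := hPa
    obtain ⟨n1, r1, h1⟩ := hs.1 i
    obtain ⟨n2, r2, h2⟩ := hq i
    have h3 : a i ^ (n1 + n2) * q = a i ^ n2 * (F ^ 0 * r1) * G i - a i ^ n1 * (F ^ 1 * r2) := by
      apply IsFractionRing.injective S5 K
      rw [map_sub, map_mul, map_mul, map_mul, map_mul (algebraMap S5 K) (a i ^ n1), ← h1, ← h2,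
        pow_add, map_mul]
      ring
    have h4 : a i ^ (n1 + n2) * q ∈ P := by
      rw [h3]
      refine P.sub_mem (P.mul_mem_left _ (hG i).1) (P.mul_mem_left _ ?_)
      rw [pow_one]
      exact P.mul_mem_right _ hFP
    rcases hP.mem_or_mem h4 with h5 | h5
    · exact absurd (hP.mem_of_pow_mem _ h5) hi
    · exact h5
  refine ⟨q, n, hqn, le_antisymm ?_ ?_⟩
  · intro p hp
    have hex : ∀ i, ∃ c b : S5, a i * p = c * F + b * G i := by
      intro i
      obtain ⟨c, b, h⟩ := Ideal.mem_span_pair.1 (haP i p hp)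
      exact ⟨c, b, h.symm⟩
    choose c b hbc using hex
    let w : Fin 3 → K := fun i => algebraMap S5 K (b i) * (algebraMap S5 K (a i))⁻¹
    have hw : ∀ i, w i ∈ Loc K F (a i) 0 := by
      intro i
      refine ⟨1, b i, ?_⟩
      rw [pow_one, pow_zero, one_mul]
      change algebraMap S5 K (a i) * (algebraMap S5 K (b i) * (algebraMap S5 K (a i))⁻¹) = _
      field_simp [ha0 i]
    have hwG : ∀ i, algebraMap S5 K p - w i * algebraMap S5 K (G i) ∈ Loc K F (a i) 1 := by
      intro i
      refine ⟨1, c i, ?_⟩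
      have h1 := congrArg (algebraMap S5 K) (hbc i)
      rw [map_mul, map_add, map_mul, map_mul] at h1
      rw [pow_one, pow_one, map_mul]
      have h2 : algebraMap S5 K (a i) * (algebraMap S5 K p -
          w i * algebraMap S5 K (G i)) =
          algebraMap S5 K (a i) * algebraMap S5 K p -
          algebraMap S5 K (b i) * algebraMap S5 K (G i) := by
        change algebraMap S5 K (a i) * (algebraMap S5 K p -
          algebraMap S5 K (b i) * (algebraMap S5 K (a i))⁻¹ * algebraMap S5 K (G i)) = _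
        field_simp [ha0 i]
      rw [h2, h1]
      ring
    have hww : ∀ i j, w i - u i j * w j ∈ Loc K F (a i * a j) 1 := by
      intro i j
      refine Loc_cancel (y := algebraMap S5 K (G i)) C.prime (nd2 i j)
        (Submodule.sub_mem _ (Loc_of_dvd_pow (dl i j) (hw i))
          (Loc_mul_left (hu.mem i j) (Loc_of_dvd_pow (dr i j) (hw j)))) (algMap_mem F _ _) ?_ ?_
      · rw [algMap_mem_iff C.prime (nd2 i j), pow_one]
        exact (hG i).2.1
      · have e1 := Loc_of_dvd_pow (dl i j) (hwG i)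
        have e2 := Loc_of_dvd_pow (dr i j) (hwG j)
        have e3 := Loc_mul_left (Loc_of_dvd_pow (dr i j) (hw j))
          (Loc_of_dvd_pow (dl i j) (huG i j))
        have e4 := Submodule.add_mem _ (Submodule.sub_mem _ e2 e1) e3
        convert e4 using 1
        ring
    obtain ⟨r, hr⟩ := H0 C 1 (fun i => w i * x i)
      (fun i => Loc_mul_left (hw i) (hx.1 i))
      (by
        intro i j
        have e1 := Loc_mul_right (hww i j) (Loc_of_dvd_pow (dl i j) (hx.1 i))
        have h5 := hx.2 j i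
        rw [mul_comm (a j) (a i)] at h5
        have e2 := Loc_mul_left (Loc_of_dvd_pow (dr i j) (hw j)) h5
        have e3 := Submodule.sub_mem _ e1 e2
        convert e3 using 1
        simp only [tr]
        ring)
    have hfin : algebraMap S5 K (r * q - p) ∈ Loc K F (a 0) 1 := by
      have e1 := Loc_mul_right (hr 0) (algMap_mem (K := K) F (a 0) q)
      have e2 := Loc_mul_left (Loc_mul_left (hw 0) (hx.1 0)) (hq 0)
      have e3 := Loc_mul_left (Loc_mul_left (hw 0) (algMap_mem (K := K) F (a 0) (G 0))) (hsx 0)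
      have e4 := hwG 0
      have e5 := Submodule.sub_mem _ (Submodule.sub_mem _ (Submodule.sub_mem _ e3 e1) e2) e4
      convert e5 using 1
      rw [map_sub, map_mul]
      ring
    rw [algMap_mem_iff C.prime (C.not_dvd 0), pow_one] at hfin
    obtain ⟨t, ht⟩ := hfin
    refine Ideal.mem_span_pair.2 ⟨-t, r, ?_⟩
    linear_combination ht
  · rw [Ideal.span_le]
    intro y hy
    rcases hy with rfl | hy
    · exact hFP
    · rw [Set.mem_singleton_iff] at hy
      rw [hy]
      exact hqP

end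

end Pc2352a
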