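import Pool.Agent.Lib.Pc2352a.FacHom

set_option autoImplicit false

/-!
# FacComp (1h): homogeneous components of elements of `K` with homogeneous denominator

`HD = {x in K : there are a nonzero form q and r in S5 with q x = r}`.
For `x = r / q` in `HD` put `comp m x = (component of r of degree m + deg q) / q` (zero if the degree is
negative). Independent of the choice: `q x = r`, `q' x = r'` give `q' r = q r'`, compare components.
All properties then follow from those of `MvPolynomial.homogeneousComponent` (additive; for a form `g`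
of degree `δ` the component of `g r` of degree `n + δ` is `g` times the component of `r` of degree `n`,
and it is zero below degree `δ`).
For `comp_mul`: `u` is homogeneous in the sense `IsHom`; if also `u` lies in `HD`, `u = p / q` with `p`
homogeneous by `IsHom.num`.
For `comp_mem`: `x = F^k r / g^n`, the components of `F^k r` are `F^k` times components of `r`.
-/

namespace Pc2352a

open MvPolynomial

/-- elements of `K` with a homogeneous denominator -/
def HD (K : Type) [Field K] [Algebra S5 K] : Set K :=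
  {x | ∃ q r : S5, q ≠ 0 ∧ (∃ e, q.IsHomogeneous e) ∧
    algebraMap S5 K q * x = algebraMap S5 K r}

namespace CompAux

lemma hc_mul {e : ℕ} {q : S5} (hq : q.IsHomogeneous e) (r : S5) (n : ℕ) :
    homogeneousComponent (n + e) (q * r) = q * homogeneousComponent n r := by
  let := MvPolynomial.gradedAlgebra (σ := Fin 5) (R := ℂ)
  have h3 := DirectSum.coe_decompose_mul_of_left_mem_of_le
    (𝒜 := homogeneousSubmodule (Fin 5) ℂ) (a := q) (b := r) (n := n + e) (i := e) hq (by omega)
  rw [Nat.add_sub_cancel] at h3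
  have h4 : ∀ (φ : S5) (i : ℕ),
      ((DirectSum.decompose (homogeneousSubmodule (Fin 5) ℂ) φ i : _) : S5) =
        homogeneousComponent i φ := fun φ i => decomposition.decompose'_apply φ i
  rw [h4, h4] at h3
  exact h3

lemma hc_mul_lt {e : ℕ} {q : S5} (hq : q.IsHomogeneous e) (r : S5) {n : ℕ} (hn : n < e) :
    homogeneousComponent n (q * r) = 0 := by
  let := MvPolynomial.gradedAlgebra (σ := Fin 5) (R := ℂ)
  have h3 := DirectSum.coe_decompose_mul_of_left_mem_of_not_le
    (𝒜 := homogeneousSubmodule (Fin 5) ℂ) (a := q) (b := r) (n := n) (i := e) hq (by omega)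
  have h4 : ∀ (φ : S5) (i : ℕ),
      ((DirectSum.decompose (homogeneousSubmodule (Fin 5) ℂ) φ i : _) : S5) =
        homogeneousComponent i φ := fun φ i => decomposition.decompose'_apply φ i
  rw [h4] at h3
  exact h3

/-- The component of integer degree. -/
noncomputable def hcZ (n : ℤ) (r : S5) : S5 :=
  if 0 ≤ n then homogeneousComponent n.toNat r else 0

lemma hcZ_mul {e : ℕ} {q : S5} (hq : q.IsHomogeneous e) (r : S5) (n : ℤ) :
    hcZ (n + e) (q * r) = q * hcZ n r := by
  unfold hcZ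
  by_cases h1 : 0 ≤ n
  · have h2 : 0 ≤ n + e := by omega
    rw [if_pos h1, if_pos h2]
    have h3 : (n + e).toNat = n.toNat + e := by omega
    rw [h3, hc_mul hq]
  · rw [if_neg h1, mul_zero]
    split_ifs with h2
    · exact hc_mul_lt hq r (by omega)
    · rfl

lemma hcZ_sub (n : ℤ) (r s : S5) : hcZ n (r - s) = hcZ n r - hcZ n s := by
  unfold hcZ
  split_ifs <;> simp

lemma hcZ_self {k : ℕ} {r : S5} (hr : r.IsHomogeneous k) : hcZ k r = r := by
  unfold hcZ
  rw [if_pos (by omega)]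
  exact homogeneousComponent_eq_self (by simpa using hr)

lemma hcZ_zero (n : ℤ) : hcZ n 0 = 0 := by
  unfold hcZ
  split_ifs <;> simp

open Classical in
/-- The components. -/
noncomputable def comp {K : Type} [Field K] [Algebra S5 K] (m : ℤ) (x : K) : K :=
  if h : x ∈ HD K then
    algebraMap S5 K (hcZ (m + h.choose_spec.choose_spec.2.1.choose) h.choose_spec.choose) /
      algebraMap S5 K h.choose
  else 0

section
variable {K : Type} [Field K] [Algebra S5 K] [IsFractionRing S5 K]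

lemma alg_ne {p : S5} (hp : p ≠ 0) : algebraMap S5 K p ≠ 0 := by
  intro h
  exact hp ((IsFractionRing.injective S5 K) (by rw [h, map_zero]))

lemma indep {x : K} {q r q' r' : S5} {e e' : ℕ} (hq : q ≠ 0) (hqe : q.IsHomogeneous e)
    (h : algebraMap S5 K q * x = algebraMap S5 K r) (hq' : q' ≠ 0) (hqe' : q'.IsHomogeneous e')
    (h' : algebraMap S5 K q' * x = algebraMap S5 K r') (m : ℤ) :
    algebraMap S5 K (hcZ (m + e) r) / algebraMap S5 K q =
      algebraMap S5 K (hcZ (m + e') r') / algebraMap S5 K q' := by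
  have h1 : q' * r = q * r' := by
    apply IsFractionRing.injective S5 K
    rw [map_mul, map_mul, ← h, ← h']
    ring
  have h2 : q' * hcZ (m + e) r = q * hcZ (m + e') r' := by
    rw [← hcZ_mul hqe', ← hcZ_mul hqe, h1]
    congr 1
    ring
  rw [div_eq_div_iff (alg_ne hq) (alg_ne hq'), ← map_mul, ← map_mul, mul_comm _ q', h2,
    mul_comm _ q]

lemma comp_eq {x : K} {q r : S5} {e : ℕ} (hq : q ≠ 0) (hqe : q.IsHomogeneous e)
    (h : algebraMap S5 K q * x = algebraMap S5 K r) (m : ℤ) :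
    comp m x = algebraMap S5 K (hcZ (m + e) r) / algebraMap S5 K q := by
  have hx : x ∈ HD K := ⟨q, r, hq, ⟨e, hqe⟩, h⟩
  unfold comp
  rw [dif_pos hx]
  exact indep hx.choose_spec.choose_spec.1 hx.choose_spec.choose_spec.2.1.choose_spec
    hx.choose_spec.choose_spec.2.2 hq hqe h m

end

end CompAux

open CompAux

section
variable {K : Type} [Field K] [Algebra S5 K] [IsFractionRing S5 K]
variable {D : Fin 5 → Derivation ℤ K K}
  (hD : ∀ i p, D i (algebraMap S5 K p) = algebraMap S5 K (pderiv i p))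

lemma Loc_subset_HD {F g : S5} {k : ℕ} (hg : g ≠ 0) (hgh : ∃ e, g.IsHomogeneous e) {x : K}
    (hx : x ∈ Loc K F g k) : x ∈ HD K := by
  obtain ⟨n, r, hr⟩ := hx
  obtain ⟨e, he⟩ := hgh
  exact ⟨g ^ n, F ^ k * r, pow_ne_zero _ hg, ⟨e * n, he.pow n⟩, hr⟩

lemma HD_sub {x y : K} (hx : x ∈ HD K) (hy : y ∈ HD K) : x - y ∈ HD K := by
  obtain ⟨q, r, hq, ⟨e, he⟩, h⟩ := hx
  obtain ⟨q', r', hq', ⟨e', he'⟩, h'⟩ := hy
  refine ⟨q * q', q' * r - q * r', mul_ne_zero hq hq', ⟨e + e', he.mul he'⟩, ?_⟩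
  rw [map_sub, map_mul, map_mul, map_mul, ← h, ← h']
  ring

lemma HD_mul {x y : K} (hx : x ∈ HD K) (hy : y ∈ HD K) : x * y ∈ HD K := by
  obtain ⟨q, r, hq, ⟨e, he⟩, h⟩ := hx
  obtain ⟨q', r', hq', ⟨e', he'⟩, h'⟩ := hy
  refine ⟨q * q', r * r', mul_ne_zero hq hq', ⟨e + e', he.mul he'⟩, ?_⟩
  rw [map_mul, map_mul, ← h, ← h']
  ring

include hD in
theorem exists_comp : ∃ π : ℤ → K → K,
    (∀ m x, x ∈ HD K → IsHom D m x → π m x = x) ∧
    (∀ m x y, x ∈ HD K → y ∈ HD K → π m (x - y) = π m x - π m y) ∧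
    (∀ m j u x, IsHom D j u → u ∈ HD K → x ∈ HD K → π (m + j) (u * x) = u * π m x) ∧
    (∀ (F g : S5) (k : ℕ) (m : ℤ) (x : K), g ≠ 0 → (∃ e, g.IsHomogeneous e) →
      (∃ d, F.IsHomogeneous d) → x ∈ Loc K F g k → π m x ∈ Loc K F g k ∧ IsHom D m (π m x)) := by
  refine ⟨comp, ?_, ?_, ?_, ?_⟩
  · rintro m x ⟨q, r, hq, ⟨e, he⟩, h⟩ hm
    rw [comp_eq hq he h]
    have hq0 : algebraMap S5 K q ≠ 0 := alg_ne hq
    have hxr : x = algebraMap S5 K r / algebraMap S5 K q := by
      rw [← h]; field_simp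
    rcases eq_or_ne r 0 with hr | hr
    · rw [hr, hcZ_zero, map_zero, zero_div, hxr, hr, map_zero, zero_div]
    · obtain ⟨k, hk, hrk⟩ := IsHom.num hD he hm (N := 1) (by rw [pow_one]; exact h) hr
      have h2 : m + (e : ℤ) = (k : ℤ) := by rw [hk]; push_cast; ring
      rw [h2, hcZ_self hrk, hxr]
  · rintro m x y ⟨q, r, hq, ⟨e, he⟩, h⟩ ⟨q', r', hq', ⟨e', he'⟩, h'⟩
    have hq0 : algebraMap S5 K q ≠ 0 := alg_ne hq
    have hq0' : algebraMap S5 K q' ≠ 0 := alg_ne hq'
    have h3 : algebraMap S5 K (q * q') * (x - y) = algebraMap S5 K (q' * r - q * r') := by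
      rw [map_sub, map_mul, map_mul, map_mul, ← h, ← h']
      ring
    rw [comp_eq hq he h, comp_eq hq' he' h', comp_eq (mul_ne_zero hq hq') (he.mul he') h3, hcZ_sub]
    have h4 : hcZ (m + ((e + e' : ℕ) : ℤ)) (q' * r) = q' * hcZ (m + e) r := by
      rw [← hcZ_mul he']; congr 1; push_cast; ring
    have h5 : hcZ (m + ((e + e' : ℕ) : ℤ)) (q * r') = q * hcZ (m + e') r' := by
      rw [← hcZ_mul he]; congr 1; push_cast; ring
    rw [h4, h5, map_sub, map_mul, map_mul, map_mul]
    field_simp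
  · rintro m j u x hu ⟨q, p, hq, ⟨e, he⟩, h⟩ ⟨q', r, hq', ⟨e', he'⟩, h'⟩
    have hq0 : algebraMap S5 K q ≠ 0 := alg_ne hq
    have hq0' : algebraMap S5 K q' ≠ 0 := alg_ne hq'
    have h3 : algebraMap S5 K (q * q') * (u * x) = algebraMap S5 K (p * r) := by
      rw [map_mul, map_mul, ← h, ← h']
      ring
    have hup : u = algebraMap S5 K p / algebraMap S5 K q := by
      rw [← h]; field_simp
    rw [comp_eq (mul_ne_zero hq hq') (he.mul he') h3, comp_eq hq' he' h']
    rcases eq_or_ne p 0 with hp | hp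
    · rw [hup, hp, zero_mul, hcZ_zero]; simp
    · obtain ⟨k, hk, hpk⟩ := IsHom.num hD he hu (N := 1) (by rw [pow_one]; exact h) hp
      have h4 : m + j + ((e + e' : ℕ) : ℤ) = (m + e') + (k : ℤ) := by rw [hk]; push_cast; ring
      rw [h4, hcZ_mul hpk, hup, map_mul, map_mul]
      field_simp
  · rintro F g k m x hg ⟨e, he⟩ ⟨d, hd⟩ ⟨n, r, hr⟩
    have hgn : (g ^ n).IsHomogeneous (e * n) := he.pow n
    have hg0 : algebraMap S5 K (g ^ n) ≠ 0 := alg_ne (pow_ne_zero _ hg)
    rw [comp_eq (pow_ne_zero n hg) hgn hr]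
    constructor
    · have h1 : hcZ (m + ((e * n : ℕ) : ℤ)) (F ^ k * r) =
          F ^ k * hcZ (m + ((e * n : ℕ) : ℤ) - ((d * k : ℕ) : ℤ)) r := by
        rw [← hcZ_mul (hd.pow k)]; congr 1; ring
      refine ⟨n, hcZ (m + ((e * n : ℕ) : ℤ) - ((d * k : ℕ) : ℤ)) r, ?_⟩
      rw [h1]
      field_simp
    · have h2 : IsHom D (m + ((e * n : ℕ) : ℤ))
          (algebraMap S5 K (hcZ (m + ((e * n : ℕ) : ℤ)) (F ^ k * r))) := by
        unfold hcZ
        split_ifs with h3
        · have h4 := IsHom.algMap (K := K) hD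
            (homogeneousComponent_isHomogeneous (m + ((e * n : ℕ) : ℤ)).toNat (F ^ k * r))
          rwa [Int.toNat_of_nonneg h3] at h4
        · rw [map_zero]; exact IsHom.zero _
      have h3 : IsHom D (-((e * n : ℕ) : ℤ)) (algebraMap S5 K (g ^ n))⁻¹ :=
        (IsHom.algMap hD hgn).inv
      have h4 := h2.mul h3
      rw [div_eq_mul_inv]
      rwa [add_neg_cancel_right] at h4

end

end Pc2352a
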