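import Mathlib

set_option autoImplicit false

/-!
# MP_c2352a_ag, Part 2 (factoriality): shared definitions

`S5 = C[x_0,...,x_4]`, `K` any fraction field of `S5` with the five partial derivatives
`D : Fin 5 -> Derivation Z K K` (hypothesis `hD : forall i p, D i p = pderiv i p`).

* `Loc K F g k` is `F^k S5[1/g]` inside `K` (an `S5`-submodule of `K`).
* `IsHom D m x`: `x` in `K` is homogeneous of degree `m` (Euler operator has eigenvalue `m`).
* `Cov F d a α l`: the cover data. `F` prime form of degree `d`, `a 0, a 1, a 2` forms of positive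
  degree, `l` a linear form, and `F, a 0, a 1, a 2, l` have only the trivial common zero.
* `Coc D F a γ k u`: `u i j` in `S5[1/(a_i a_j)]` is a homogeneous multiplicative cocycle modulo `F^k`.
* `Sec K F a u k`: the sections modulo `F^k` of the line bundle glued by `u`:
  triples `s i` in `S5[1/a_i]` with `s i = u i j * s j` modulo `F^k S5[1/(a_i a_j)]`.
-/

namespace Pc2352a

open MvPolynomial

/-- The polynomial ring in five variables over `ℂ`. -/
abbrev S5 := MvPolynomial (Fin 5) ℂ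

/-- `F` is nodal: at every nonzero zero of all the partial derivatives the Hessian has rank four. -/
def Nodal (F : S5) : Prop :=
  ∀ z : Fin 5 → ℂ, z ≠ 0 → (∀ i, eval z (pderiv i F) = 0) →
    (Matrix.of (fun i j : Fin 5 => eval z (pderiv i (pderiv j F)))).rank = 4

/-- `Z` is a finite set of representatives of the nodes of `F`. -/
def NodeSet (F : S5) (Z : Finset (Fin 5 → ℂ)) : Prop :=
  (∀ z ∈ Z, z ≠ 0 ∧ ∀ i, eval z (pderiv i F) = 0) ∧
    ∀ w : Fin 5 → ℂ, (∀ i, eval w (pderiv i F) = 0) → w = 0 ∨ ∃ z ∈ Z, ∃ c : ℂ, w = c • z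

/-- Evaluation of forms of degree `m` on `Z` is onto. -/
def EvalOnto (Z : Finset (Fin 5 → ℂ)) (m : ℕ) : Prop :=
  ∀ φ : (Fin 5 → ℂ) → ℂ, ∃ g : S5, g.IsHomogeneous m ∧ ∀ z ∈ Z, eval z g = φ z

/-- Cover data. -/
structure Cov (F : S5) (d : ℕ) (a : Fin 3 → S5) (α : Fin 3 → ℕ) (l : S5) : Prop where
  dpos : 0 < d
  hF : F.IsHomogeneous d
  prime : Prime F
  αpos : ∀ i, 0 < α i
  ha : ∀ i, (a i).IsHomogeneous (α i)
  hl : l.IsHomogeneous 1
  triv : ∀ w : Fin 5 → ℂ, eval w F = 0 → (∀ i, eval w (a i) = 0) → eval w l = 0 → w = 0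

/-- The ideal `(F^k, a_j^(p j) : j in T)`. -/
noncomputable def CI (F : S5) (a : Fin 3 → S5) (k : ℕ) (p : Fin 3 → ℕ) (T : Set (Fin 3)) : Ideal S5 :=
  Ideal.span ({F ^ k} ∪ (fun j => a j ^ p j) '' T)

section K

variable (K : Type) [Field K] [Algebra S5 K]

/-- `F^k S5[1/g]` inside `K`. -/
def Loc (F g : S5) (k : ℕ) : Submodule S5 K where
  carrier := {x | ∃ (n : ℕ) (r : S5), algebraMap S5 K (g ^ n) * x = algebraMap S5 K (F ^ k * r)}
  zero_mem' := ⟨0, 0, by simp⟩
  add_mem' := by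
    rintro x y ⟨n, r, hr⟩ ⟨m, s, hs⟩
    refine ⟨n + m, g ^ m * r + g ^ n * s, ?_⟩
    have e1 : algebraMap S5 K (g ^ (n + m)) * (x + y) =
        algebraMap S5 K (g ^ m) * (algebraMap S5 K (g ^ n) * x) +
        algebraMap S5 K (g ^ n) * (algebraMap S5 K (g ^ m) * y) := by
      rw [pow_add, map_mul]; ring
    rw [e1, hr, hs]
    simp only [map_mul, map_add]; ring
  smul_mem' := by
    rintro c x ⟨n, r, hr⟩
    refine ⟨n, c * r, ?_⟩
    have e1 : algebraMap S5 K (g ^ n) * (c • x) =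
        algebraMap S5 K c * (algebraMap S5 K (g ^ n) * x) := by
      rw [Algebra.smul_def]; ring
    rw [e1, hr]
    simp only [map_mul]; ring

variable {K}

/-- `x` is homogeneous of degree `m`: the Euler operator acts on it as `m`. -/
def IsHom (D : Fin 5 → Derivation ℤ K K) (m : ℤ) (x : K) : Prop :=
  ∑ i, algebraMap S5 K (X i) * D i x = (m : K) * x

/-- Homogeneous cocycle modulo `F^k` for the three opens `a i ≠ 0`, of degrees `γ j - γ i`. -/
structure Coc (D : Fin 5 → Derivation ℤ K K) (F : S5) (a : Fin 3 → S5) (γ : Fin 3 → ℤ) (k : ℕ)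
    (u : Fin 3 → Fin 3 → K) : Prop where
  mem : ∀ i j, u i j ∈ Loc K F (a i * a j) 0
  one : ∀ i, u i i = 1
  coc : ∀ i j l, u i j * u j l - u i l ∈ Loc K F (a i * a j * a l) k
  hom : ∀ i j, IsHom D (γ j - γ i) (u i j)

/-- Sections modulo `F^k` of the line bundle glued by `u`. -/
def Sec (F : S5) (a : Fin 3 → S5) (u : Fin 3 → Fin 3 → K) (k : ℕ) (s : Fin 3 → K) : Prop :=
  (∀ i, s i ∈ Loc K F (a i) 0) ∧ ∀ i j, s i - u i j * s j ∈ Loc K F (a i * a j) k

/-- `s` is homogeneous of degree `m` (for the line bundle with local generators of degree `γ`). -/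
def SHom (D : Fin 5 → Derivation ℤ K K) (γ : Fin 3 → ℤ) (m : ℤ) (s : Fin 3 → K) : Prop :=
  ∀ i, IsHom D (m - γ i) (s i)

/-- Transposed cocycle (the dual line bundle). -/
def tr (u : Fin 3 → Fin 3 → K) : Fin 3 → Fin 3 → K := fun i j => u j i

/-- `h` in `S5[1/(a_0 a_1 a_2)]` is a coboundary modulo `F`. -/
def Triv (F : S5) (a : Fin 3 → S5) (h : K) : Prop :=
  ∃ w0 w1 w2 : K, w0 ∈ Loc K F (a 0 * a 1) 0 ∧ w1 ∈ Loc K F (a 1 * a 2) 0 ∧
    w2 ∈ Loc K F (a 2 * a 0) 0 ∧ h - (w0 + w1 + w2) ∈ Loc K F (a 0 * a 1 * a 2) 1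

/-- Connection forms for `u` modulo `F^(k-1)`, homogeneous of degree `-1`. -/
structure Conn (D : Fin 5 → Derivation ℤ K K) (F : S5) (a : Fin 3 → S5) (k : ℕ)
    (u : Fin 3 → Fin 3 → K) (A : Fin 5 → Fin 3 → K) : Prop where
  mem : ∀ m i, A m i ∈ Loc K F (a i) 0
  hom : ∀ m i, IsHom D (-1) (A m i)
  eq : ∀ m i j, u j i * D m (u i j) - (A m j - A m i) ∈ Loc K F (a i * a j) (k - 1)

end K

end Pc2352a
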