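import Pool.Agent.Lib.Pc2352a.FacSoc
import Pool.Agent.Lib.Pc2352a.FacDefs

set_option autoImplicit false

/-!
# FacCovReg (0.8h): `F^k, a_0^p0, a_1^p1, a_2^p2, l` is a regular sequence in every order, and its socle

Black boxes `sys_reg`, `sys_soc` (n = 5) for the system
`![F^k, a 0 ^ p 0, a 1 ^ p 1, a 2 ^ p 2, l]` (only trivial common zero by `Cov.triv`), with degrees
`![k d, p0 α0, p1 α1, p2 α2, 1]`. Translate the span of an image of a subset of `Fin 5` into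
`CI F a k p T = (F^k, a_j^(p j) : j ∈ T)`. (Work with `k ≥ 1`, `p j ≥ 1`; `Cov.reg0` allows `k = 0`, trivial.)
`Cov.not_dvd`: `F ∣ a i` would give `a i * 1 ∈ (F)`, so `1 ∈ (F)` by `Cov.reg` with `T = ∅`.
`Cov.soc` is only needed for `k = 1`.
-/

namespace Pc2352a

open MvPolynomial

namespace FacCovReg

variable {F : S5} {d : ℕ} {a : Fin 3 → S5} {α : Fin 3 → ℕ} {l : S5}

/-- the system `F^k, a_0^p0, a_1^p1, a_2^p2, l` -/
noncomputable def sy (F : S5) (a : Fin 3 → S5) (l : S5) (k : ℕ) (p : Fin 3 → ℕ) : Fin 5 → S5 :=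
  ![F ^ k, a 0 ^ p 0, a 1 ^ p 1, a 2 ^ p 2, l]

/-- its degrees -/
def dy (d : ℕ) (α : Fin 3 → ℕ) (k : ℕ) (p : Fin 3 → ℕ) : Fin 5 → ℕ :=
  ![d * k, α 0 * p 0, α 1 * p 1, α 2 * p 2, 1]

/-- the index of `a j` -/
def ix : Fin 3 → Fin 5 := ![1, 2, 3]

lemma sy_ix (k : ℕ) (p : Fin 3 → ℕ) (j : Fin 3) : sy F a l k p (ix j) = a j ^ p j := by
  fin_cases j <;> rfl

lemma ix_ne0 (j : Fin 3) : ix j ≠ 0 := by fin_cases j <;> decide

lemma ix_ne4 (j : Fin 3) : ix j ≠ 4 := by fin_cases j <;> decide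

lemma ix_inj : Function.Injective ix := by decide

lemma sys (C : Cov F d a α l) {k : ℕ} (hk : 1 ≤ k) {p : Fin 3 → ℕ} (hp : ∀ i, 1 ≤ p i) :
    Sys 5 (sy F a l k p) (dy d α k p) := by
  refine ⟨?_, ?_, ?_⟩
  · intro i
    have h0 := C.dpos
    fin_cases i
    · exact Nat.mul_pos C.dpos hk
    · exact Nat.mul_pos (C.αpos 0) (hp 0)
    · exact Nat.mul_pos (C.αpos 1) (hp 1)
    · exact Nat.mul_pos (C.αpos 2) (hp 2)
    · exact Nat.one_pos
  · intro i
    fin_cases i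
    · exact C.hF.pow k
    · exact (C.ha 0).pow _
    · exact (C.ha 1).pow _
    · exact (C.ha 2).pow _
    · exact C.hl
  · intro w hw
    refine C.triv w ?_ ?_ ?_
    · have h := hw 0
      simp only [sy, Matrix.cons_val_zero, map_pow] at h
      exact pow_eq_zero_iff (by omega) |>.mp h
    · intro j
      have h := hw (ix j)
      rw [sy_ix, map_pow] at h
      exact pow_eq_zero_iff (by have := hp j; omega) |>.mp h
    · exact hw 4

lemma CI_eq (k : ℕ) (p : Fin 3 → ℕ) (T : Set (Fin 3)) :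
    CI F a k p T = Ideal.span (sy F a l k p '' ({0} ∪ ix '' T)) := by
  rw [CI, Set.image_union, Set.image_singleton, Set.image_image]
  have h : (fun j => a j ^ p j) '' T = (fun j => sy F a l k p (ix j)) '' T :=
    Set.image_congr fun j _ => (sy_ix k p j).symm
  rw [h]
  rfl

lemma CI_zero (p : Fin 3 → ℕ) (T : Set (Fin 3)) : CI F a 0 p T = ⊤ := by
  rw [Ideal.eq_top_iff_one]
  exact Ideal.subset_span (Or.inl (by simp))

lemma CI_l (p : Fin 3 → ℕ) :
    CI F a 1 p Set.univ ⊔ Ideal.span {l} = Ideal.span (Set.range (sy F a l 1 p)) := by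
  rw [CI_eq (l := l), ← Ideal.span_union, ← Set.image_univ]
  have h1 : ({l} : Set S5) = sy F a l 1 p '' {4} := by rw [Set.image_singleton]; rfl
  rw [h1, ← Set.image_union]
  congr 2
  ext i
  simp only [Set.mem_union, Set.mem_singleton_iff, Set.mem_image, Set.mem_univ, true_and, iff_true]
  fin_cases i
  · exact Or.inl (Or.inl rfl)
  · exact Or.inl (Or.inr ⟨0, rfl⟩)
  · exact Or.inl (Or.inr ⟨1, rfl⟩)
  · exact Or.inl (Or.inr ⟨2, rfl⟩)
  · exact Or.inr rfl

end FacCovReg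

section
variable {F : S5} {d : ℕ} {a : Fin 3 → S5} {α : Fin 3 → ℕ} {l : S5}

open FacCovReg

theorem Cov.reg (C : Cov F d a α l) (k : ℕ) (p : Fin 3 → ℕ) (hp : ∀ i, 1 ≤ p i)
    (T : Set (Fin 3)) (i : Fin 3) (hi : i ∉ T) (m : ℕ) (b : S5) (hb : a i ^ m * b ∈ CI F a k p T) :
    b ∈ CI F a k p T := by
  rcases Nat.eq_zero_or_pos k with rfl | hk
  · rw [CI_zero]; trivial
  have hsys := sys C hk hp
  have hi' : ix i ∉ ({0} ∪ ix '' T : Set (Fin 5)) := by
    rintro (h | ⟨j, hj, hji⟩)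
    · exact ix_ne0 i h
    · exact hi (ix_inj hji ▸ hj)
  have step : ∀ b : S5, a i * b ∈ CI F a k p T → b ∈ CI F a k p T := by
    intro b hb
    rw [CI_eq (l := l)] at hb ⊢
    refine sys_reg hsys _ (ix i) hi' b ?_
    rw [sy_ix]
    have e : a i ^ p i * b = a i ^ (p i - 1) * (a i * b) := by
      rw [← mul_assoc, ← pow_succ, Nat.sub_add_cancel (hp i)]
    rw [e]
    exact Ideal.mul_mem_left _ _ hb
  induction m with
  | zero => simpa using hb
  | succ m ih =>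
    apply ih
    apply step
    rwa [← mul_assoc, ← pow_succ']

theorem Cov.reg_l (C : Cov F d a α l) (k : ℕ) (p : Fin 3 → ℕ) (hp : ∀ i, 1 ≤ p i)
    (T : Set (Fin 3)) (b : S5) (hb : l * b ∈ CI F a k p T) : b ∈ CI F a k p T := by
  rcases Nat.eq_zero_or_pos k with rfl | hk
  · rw [CI_zero]; trivial
  rw [CI_eq (l := l)] at hb ⊢
  refine sys_reg (sys C hk hp) _ 4 ?_ b hb
  rintro (h | ⟨j, hj, hji⟩)
  · exact absurd h (by decide)
  · exact ix_ne4 j hji

theorem Cov.not_dvd (C : Cov F d a α l) (i : Fin 3) : ¬ F ∣ a i := by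
  intro h
  have h1 : a i ^ 1 * 1 ∈ CI F a 1 (fun _ => 1) ∅ := by
    rw [CI, Set.image_empty, Set.union_empty, pow_one, pow_one, mul_one]
    exact Ideal.mem_span_singleton.mpr h
  have h2 := C.reg 1 (fun _ => 1) (fun _ => le_rfl) ∅ i (by simp) 1 1 h1
  rw [CI, Set.image_empty, Set.union_empty, pow_one, Ideal.mem_span_singleton] at h2
  exact C.prime.not_unit (isUnit_of_dvd_one h2)

theorem Cov.ne_zero (C : Cov F d a α l) (i : Fin 3) : a i ≠ 0 := by
  intro h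
  exact C.not_dvd i (h ▸ dvd_zero F)

theorem Cov.soc (C : Cov F d a α l) (p : Fin 3 → ℕ) (hp : ∀ i, 1 ≤ p i) {τ : S5} {m : ℕ}
    (hτ : τ.IsHomogeneous m) (hm : m + 4 ≠ d + ∑ i, p i * α i)
    (hx : ∀ i, X i * τ ∈ CI F a 1 p Set.univ ⊔ Ideal.span {l}) :
    τ ∈ CI F a 1 p Set.univ ⊔ Ideal.span {l} := by
  rw [CI_l] at hx ⊢
  refine sys_soc (sys C le_rfl hp) hτ ?_ hx
  have h1 : ∑ i, dy d α 1 p i = d + ∑ i, p i * α i + 1 := by
    rw [Fin.sum_univ_five, Fin.sum_univ_three]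
    simp only [dy, Matrix.cons_val]
    ring
  rw [h1]
  omega

/-- homogeneous coefficients for membership in `CI` -/
theorem Cov.coeffs (C : Cov F d a α l) (k : ℕ) (p : Fin 3 → ℕ) {τ : S5} (m : ℕ)
    (hτ : τ.IsHomogeneous m) (hmem : τ ∈ CI F a k p Set.univ) :
    ∃ (q : S5) (r : Fin 3 → S5), τ = F ^ k * q + ∑ j, a j ^ p j * r j ∧
      (q = 0 ∨ ∃ e, e + k * d = m ∧ q.IsHomogeneous e) ∧
      ∀ j, r j = 0 ∨ ∃ e, e + p j * α j = m ∧ (r j).IsHomogeneous e := by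
  rw [CI, Set.image_univ, Ideal.span_union, Submodule.mem_sup] at hmem
  obtain ⟨y, hy, z, hz, hyz⟩ := hmem
  obtain ⟨q, rfl⟩ := Ideal.mem_span_singleton'.mp hy
  obtain ⟨r, rfl⟩ := Ideal.mem_span_range_iff_exists_fun.mp hz
  have key : ∀ (g b : S5) (δ : ℕ), g.IsHomogeneous δ → ∃ b' : S5,
      homogeneousComponent m (b * g) = g * b' ∧ (b' = 0 ∨ ∃ e, e + δ = m ∧ b'.IsHomogeneous e) := by
    intro g b δ hg
    by_cases h : δ ≤ m
    · refine ⟨homogeneousComponent (m - δ) b, ?_, Or.inr ⟨m - δ, by omega,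
        homogeneousComponent_isHomogeneous _ _⟩⟩
      have h1 := FacRegAux.comp_mul_right (a := b) (d := m - δ) hg
      rw [Nat.sub_add_cancel h] at h1
      rw [h1, mul_comm]
    · refine ⟨0, ?_, Or.inl rfl⟩
      rw [FacRegAux.comp_mul_right_of_lt hg (by omega), mul_zero]
  have hτ' : homogeneousComponent m τ = τ := by
    have h := homogeneousComponent_of_mem (n := m) (m := m) ((mem_homogeneousSubmodule m τ).mpr hτ)
    simpa using h
  obtain ⟨q', hq', hq''⟩ := key (F ^ k) q (d * k) (C.hF.pow k)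
  choose r' hr' hr'' using fun j => key (a j ^ p j) (r j) (α j * p j) ((C.ha j).pow (p j))
  refine ⟨q', r', ?_, ?_, ?_⟩
  · rw [← hτ', ← hyz, map_add, map_sum, hq']
    congr 1
    exact Finset.sum_congr rfl fun j _ => hr' j
  · rcases hq'' with h | ⟨e, he, h⟩
    · exact Or.inl h
    · exact Or.inr ⟨e, by rw [mul_comm k d]; exact he, h⟩
  · intro j
    rcases hr'' j with h | ⟨e, he, h⟩
    · exact Or.inl h
    · exact Or.inr ⟨e, by rw [mul_comm (p j)]; exact he, h⟩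

end

end Pc2352a
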