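import Pool.Agent.Lib.Pc2352a.FacHt
import Pool.Agent.Lib.P5c592f.Factor

set_option autoImplicit false

/-!
# FacIrr (1.5h): primes containing all partial derivatives; a nodal form is prime

* `four_le_height_of_nodes`: if a prime `Q` contains all `pderiv i F` and the common zeros are `0` and the multiples of
  the `z ∈ Z`, `Z` finite, then `Q` has height `≥ 4`: `Q` is radical, so equal to the vanishing ideal of its zero
  set (Nullstellensatz), which lies in `{0} ∪ ⋃ C z`; the product (or intersection) of the `lineIdeal z`, `z ∈ Z`, and of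
  `ker (eval 0)` lies in `Q`, so `Q` contains one of them (`Ideal.IsPrime.inf_le'`/`prod_le`).
* `prime_of_nodal`: a nodal form of degree `d ≥ 2` is prime. `F ≠ 0` (else Hessian zero at any point), not a unit. If
  `F = A B` with non-units `A`, `B`, these are forms of positive degree (factors of a nonzero form are forms: compare
  lowest and highest components). There is a common zero `z ≠ 0` of `A` and `B` (otherwise `ker (eval 0)`, of height 5, would be
  minimal over `(A,B)` by the Nullstellensatz, contradicting Krull: height `≤ 2`). At `z` all partials of `F` vanish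
  and the Hessian is `a b^T + b a^T` with the gradients `a`, `b` of `A`, `B` at `z`, of rank `≤ 2`.
-/

namespace Pc2352a

open MvPolynomial

theorem four_le_height_of_nodes {F : S5} {Z : Finset (Fin 5 → ℂ)} (hZ : NodeSet F Z)
    (Q : Ideal S5) (hQ : Q.IsPrime) (hJ : ∀ i, pderiv i F ∈ Q) : 4 ≤ Q.height := by
  have hle : Z.inf lineIdeal ⊓ maxI ≤ Q := by
    intro g hg
    obtain ⟨hg1, hg2⟩ := Submodule.mem_inf.1 hg
    have h1 : g ∈ vanishingIdeal ℂ (zeroLocus ℂ Q) := by
      rw [mem_vanishingIdeal_iff]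
      intro w hw
      rw [mem_zeroLocus_iff] at hw
      rw [aeval_eq_eval]
      have h2 : ∀ i, eval w (pderiv i F) = 0 := fun i => by
        have := hw _ (hJ i)
        rwa [aeval_eq_eval] at this
      rcases hZ.2 w h2 with rfl | ⟨z, hz, c, rfl⟩
      · exact hg2
      · have h3 : g ∈ lineIdeal z := (Finset.inf_le hz : Z.inf lineIdeal ≤ lineIdeal z) hg1
        exact (mem_lineIdeal_iff z g).1 h3 c
    rwa [IsPrime.vanishingIdeal_zeroLocus] at h1
  rcases (Ideal.IsPrime.inf_le hQ).1 hle with h1 | h1
  · obtain ⟨z, hz, hzQ⟩ := (Ideal.IsPrime.inf_le' hQ).1 h1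
    rw [← height_lineIdeal z (hZ.1 z hz).1]
    exact Ideal.height_mono hzQ
  · have h2 := Ideal.height_mono h1
    rw [height_maxI] at h2
    exact le_trans (by norm_num) h2

namespace FacIrrAux

lemma mem_maxI_of_homog {G : S5} {n : ℕ} (hG : G.IsHomogeneous n) (hn : 0 < n) : G ∈ maxI := by
  have h := FacHtAux.eval_smul_of_homog hG 0 0
  rw [zero_smul, zero_pow (by omega), zero_mul] at h
  exact h

lemma maxI_mem_minimalPrimes {I : Ideal S5} (h : I.radical = maxI) : maxI ∈ I.minimalPrimes := by
  refine ⟨⟨maxI_isPrime, h ▸ Ideal.le_radical⟩, ?_⟩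
  rintro q ⟨hq, hIq⟩ _
  rw [← h]
  exact (Ideal.IsPrime.radical_le_iff hq).2 hIq

/-- Two elements of `maxI` have a nontrivial common zero. -/
lemma exists_common_zero {A B : S5} (hA : A ∈ maxI) (hB : B ∈ maxI) :
    ∃ z : Fin 5 → ℂ, z ≠ 0 ∧ eval z A = 0 ∧ eval z B = 0 := by
  classical
  by_contra hcon
  push Not at hcon
  have hrad := radical_eq_maxI (Ideal.span (({A, B} : Finset S5) : Set S5)) (by
    rw [Ideal.span_le]
    intro g hg
    simp only [Finset.coe_insert, Finset.coe_singleton, Set.mem_insert_iff,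
      Set.mem_singleton_iff] at hg
    rcases hg with rfl | rfl
    · exact hA
    · exact hB) (by
    intro w hw
    by_contra hw0
    exact hcon w hw0 (hw A (Ideal.subset_span (by simp))) (hw B (Ideal.subset_span (by simp))))
  have h1 := Ideal.height_le_card_of_mem_minimalPrimes_span_finset (maxI_mem_minimalPrimes hrad)
  rw [height_maxI] at h1
  have h2 : ((({A, B} : Finset S5).card : ℕ) : ℕ∞) ≤ ((2 : ℕ) : ℕ∞) := by
    exact_mod_cast Finset.card_le_two
  have h3 := h1.trans h2
  norm_cast at h3

lemma hess_mul {A B : S5} {z : Fin 5 → ℂ} (hA : eval z A = 0) (hB : eval z B = 0) (i j : Fin 5) :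
    eval z (pderiv i (pderiv j (A * B))) =
      eval z (pderiv i A) * eval z (pderiv j B) + eval z (pderiv j A) * eval z (pderiv i B) := by
  simp only [Derivation.leibniz, smul_eq_mul, map_add, map_mul, hA, hB]
  ring

lemma pderiv_mul_zero {A B : S5} {z : Fin 5 → ℂ} (hA : eval z A = 0) (hB : eval z B = 0)
    (i : Fin 5) : eval z (pderiv i (A * B)) = 0 := by
  simp only [Derivation.leibniz, smul_eq_mul, map_add, map_mul, hA, hB]
  ring

lemma matrix_rank_add_le (M N : Matrix (Fin 5) (Fin 5) ℂ) : (M + N).rank ≤ M.rank + N.rank := by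
  unfold Matrix.rank
  have h1 : LinearMap.range (M + N).mulVecLin ≤
      LinearMap.range M.mulVecLin ⊔ LinearMap.range N.mulVecLin := by
    rintro _ ⟨v, rfl⟩
    rw [Matrix.mulVecLin_add, LinearMap.add_apply]
    exact Submodule.add_mem_sup ⟨v, rfl⟩ ⟨v, rfl⟩
  exact (Submodule.finrank_mono h1).trans (Submodule.finrank_add_le_finrank_add_finrank _ _)

lemma rank_le_two {A B : S5} {z : Fin 5 → ℂ} (hA : eval z A = 0) (hB : eval z B = 0) :
    (Matrix.of (fun i j : Fin 5 => eval z (pderiv i (pderiv j (A * B))))).rank ≤ 2 := by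
  have h1 : Matrix.of (fun i j : Fin 5 => eval z (pderiv i (pderiv j (A * B)))) =
      Matrix.vecMulVec (fun i => eval z (pderiv i A)) (fun j => eval z (pderiv j B)) +
      Matrix.vecMulVec (fun i => eval z (pderiv i B)) (fun j => eval z (pderiv j A)) := by
    ext i j
    rw [Matrix.of_apply, Matrix.add_apply, Matrix.vecMulVec_apply, Matrix.vecMulVec_apply,
      hess_mul hA hB]
    ring
  rw [h1]
  refine (matrix_rank_add_le _ _).trans ?_
  have h2 := Matrix.rank_vecMulVec_le (fun i => eval z (pderiv i A))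
    (fun j => eval z (pderiv j B))
  have h3 := Matrix.rank_vecMulVec_le (fun i => eval z (pderiv i B))
    (fun j => eval z (pderiv j A))
  omega

end FacIrrAux

open FacIrrAux in
theorem prime_of_nodal {F : S5} {d : ℕ} (hd : 2 ≤ d) (hF : F.IsHomogeneous d) (hn : Nodal F) :
    Prime F := by
  have hF0 : F ≠ 0 := by
    rintro rfl
    have h1 := hn (Pi.single 0 1) (by
      intro h
      have := congrFun h 0
      simp at this) (fun i => by simp)
    have h2 : Matrix.of (fun i j : Fin 5 => eval (Pi.single 0 1 : Fin 5 → ℂ)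
        (pderiv i (pderiv j (0 : S5)))) = 0 := by
      ext i j
      simp
    rw [h2, Matrix.rank_zero] at h1
    omega
  have hFm : F ∈ maxI := mem_maxI_of_homog hF (by omega)
  rw [← UniqueFactorizationMonoid.irreducible_iff_prime]
  refine ⟨fun hu => maxI_isPrime.ne_top (Ideal.eq_top_of_isUnit_mem _ hFm hu), ?_⟩
  intro A B hAB
  by_contra hcon
  push Not at hcon
  obtain ⟨hAu, hBu⟩ := hcon
  rw [hAB] at hF hF0 hn
  have hA0 : A ≠ 0 := left_ne_zero_of_mul hF0
  have hB0 : B ≠ 0 := right_ne_zero_of_mul hF0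
  have hAh := Pool.Agent.Lib.P5c592f.hom_of_mul_left hF hF0
  have hBh := Pool.Agent.Lib.P5c592f.hom_of_mul_right hF hF0
  have hpos : ∀ G : S5, G ≠ 0 → ¬ IsUnit G → 0 < G.totalDegree := by
    intro G hG hGu
    by_contra h0
    have h1 : G.totalDegree = 0 := by omega
    rw [totalDegree_eq_zero_iff_eq_C] at h1
    apply hGu
    rw [h1]
    apply IsUnit.map C
    rw [isUnit_iff_ne_zero]
    intro h2
    rw [h2, C_0] at h1
    exact hG h1
  obtain ⟨z, hz, hzA, hzB⟩ := exists_common_zero (mem_maxI_of_homog hAh (hpos A hA0 hAu))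
    (mem_maxI_of_homog hBh (hpos B hB0 hBu))
  have h1 := hn z hz (fun i => pderiv_mul_zero hzA hzB i)
  have h2 := rank_le_two hzA hzB
  omega

end Pc2352a
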