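import Pool.Agent.Lib.Pc2352a.FacDefs

set_option autoImplicit false

/-!
# FacLocPrin (2h): a height two prime through `F` is locally principal modulo `F` where `V(F)` is smooth

Let `F ∈ P`, `P` prime of height 2, and `Q ∋ F` a prime of height `≤ 3` with some `pderiv i F ∉ Q`. CLAIM: there are `G ∈ P`
and `a ∉ Q` with `a P ⊆ (F, G)`.
If `P` is not contained in `Q` take `g ∈ P`, `g ∉ Q`, `G = a = g`. So let `P ≤ Q`, height `Q` = 2 or 3 (height `P` = 2).
`A := S_Q = Localization.AtPrime Q` is a regular local ring (instance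
`MvPolynomial.isRegularRing_of_isRegularRing`, `IsRegularRing.isRegularLocalRing_localization`) of dimension `height Q`
(`IsLocalization.AtPrime.ringKrullDim_eq_height`), `n` its maximal ideal. `F ∉ n^2`: otherwise `s F ∈ Q^2` for some `s ∉ Q`, so
`s ∂_i F = ∂_i (s F) - F ∂_i s ∈ Q` for all `i`, a contradiction. So `F` is part of a minimal system of generators of `n`
(the cotangent space has dimension `height Q`, `IsRegularLocalRing.iff_finrank_cotangentSpace`; extend the class of `F`
to a basis, Nakayama): `n = (F, b)` or `n = (F, b, c)`.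
* height `Q` = 2: `P = Q`, `P_Q = n = (F, b)`.
* height `Q` = 3: let `B := A / (F, b)`, a Noetherian local ring whose maximal ideal is generated by the image of `c`; every
  ideal of `B` is `0` or a power of the maximal ideal, in particular principal (Mathlib:
  `IsLocalRing`/`IsArtinian`... or by hand: a nonzero `x` is `c^n` times a unit by Krull's intersection theorem). A prime
  ideal of `B` is `0` or the maximal ideal (`x ∈ 𝔭`, `x = c y`, `c ∉ 𝔭` gives `𝔭 = c 𝔭`, so `𝔭 = 0` by Nakayama).
  Let `P' = P_Q ≠ n` (height 2 < 3). If `b ∈ P'`, then `P' / (F, b)` is a prime of `B`, not maximal, so `P' = (F, b)`.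
  If `b ∉ P'`: `P'` modulo `(F, b)` is principal, generated by the image of some `g ∈ P'`; each `p ∈ P'` is
  `p = r g + s b + t F`, so `s b ∈ P'`, `s ∈ P'`: `P' = (F, g) + b P'`, so `P' = (F, g)` by Nakayama.
Finally `P_Q = (F, g)` with `g ∈ P` (multiply by a unit), and `P` is finitely generated, so there is a common
denominator `a ∉ Q` with `a P ⊆ (F, g)`.
-/

namespace Pc2352a

open MvPolynomial

namespace LocPrin

section Local

open IsLocalRing

variable {A : Type*} [CommRing A] [IsLocalRing A]

lemma isUnit_of_notMem {a : A} (h : a ∉ maximalIdeal A) : IsUnit a := by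
  simpa using h

/-- exchange, three generators -/
lemma exchange {f x y z : A} (hn : maximalIdeal A = Ideal.span {x, y, z})
    (hf : f ∈ maximalIdeal A) (hf2 : f ∉ maximalIdeal A ^ 2) :
    ∃ b c, maximalIdeal A = Ideal.span {f, b, c} := by
  have hx : x ∈ maximalIdeal A := hn ▸ Ideal.subset_span (by simp)
  have hy : y ∈ maximalIdeal A := hn ▸ Ideal.subset_span (by simp)
  have hz : z ∈ maximalIdeal A := hn ▸ Ideal.subset_span (by simp)
  have hf' := hf
  rw [hn, Ideal.mem_span_insert] at hf'
  obtain ⟨p, t, ht, rfl⟩ := hf'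
  rw [Ideal.mem_span_pair] at ht
  obtain ⟨q, r, rfl⟩ := ht
  by_cases hp : p ∈ maximalIdeal A
  · by_cases hq : q ∈ maximalIdeal A
    · by_cases hr : r ∈ maximalIdeal A
      · exfalso
        apply hf2
        rw [pow_two]
        exact Ideal.add_mem _ (Ideal.mul_mem_mul hp hx)
          (Ideal.add_mem _ (Ideal.mul_mem_mul hq hy) (Ideal.mul_mem_mul hr hz))
      · obtain ⟨v, hv⟩ := (isUnit_of_notMem hr).exists_left_inv
        refine ⟨x, y, le_antisymm ?_ ?_⟩
        · conv_lhs => rw [hn]
          rw [Ideal.span_le]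
          have e : z = v * (p * x + (q * y + r * z)) + (-(v * p)) * x + (-(v * q)) * y := by
            linear_combination (-z) * hv
          rintro w (rfl | rfl | rfl)
          · exact Ideal.subset_span (by simp)
          · exact Ideal.subset_span (by simp)
          · rw [SetLike.mem_coe]
            generalize p * x + (q * y + r * w) = g at e
            rw [e]
            refine Ideal.add_mem _ (Ideal.add_mem _ (Ideal.mul_mem_left _ _ ?_)
              (Ideal.mul_mem_left _ _ ?_)) (Ideal.mul_mem_left _ _ ?_)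
            all_goals exact Ideal.subset_span (by simp)
        · rw [Ideal.span_le]
          rintro w (rfl | rfl | rfl)
          · exact hf
          · exact hx
          · exact hy
    · obtain ⟨v, hv⟩ := (isUnit_of_notMem hq).exists_left_inv
      refine ⟨x, z, le_antisymm ?_ ?_⟩
      · conv_lhs => rw [hn]
        rw [Ideal.span_le]
        have e : y = v * (p * x + (q * y + r * z)) + (-(v * p)) * x + (-(v * r)) * z := by
          linear_combination (-y) * hv
        rintro w (rfl | rfl | rfl)
        · exact Ideal.subset_span (by simp)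
        · rw [SetLike.mem_coe]
          generalize p * x + (q * w + r * z) = g at e
          rw [e]
          refine Ideal.add_mem _ (Ideal.add_mem _ (Ideal.mul_mem_left _ _ ?_)
            (Ideal.mul_mem_left _ _ ?_)) (Ideal.mul_mem_left _ _ ?_)
          all_goals exact Ideal.subset_span (by simp)
        · exact Ideal.subset_span (by simp)
      · rw [Ideal.span_le]
        rintro w (rfl | rfl | rfl)
        · exact hf
        · exact hx
        · exact hz
  · obtain ⟨v, hv⟩ := (isUnit_of_notMem hp).exists_left_inv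
    refine ⟨y, z, le_antisymm ?_ ?_⟩
    · conv_lhs => rw [hn]
      rw [Ideal.span_le]
      have e : x = v * (p * x + (q * y + r * z)) + (-(v * q)) * y + (-(v * r)) * z := by
        linear_combination (-x) * hv
      rintro w (rfl | rfl | rfl)
      · rw [SetLike.mem_coe]
        generalize p * w + (q * y + r * z) = g at e
        rw [e]
        refine Ideal.add_mem _ (Ideal.add_mem _ (Ideal.mul_mem_left _ _ ?_)
          (Ideal.mul_mem_left _ _ ?_)) (Ideal.mul_mem_left _ _ ?_)
        all_goals exact Ideal.subset_span (by simp)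
      · exact Ideal.subset_span (by simp)
      · exact Ideal.subset_span (by simp)
    · rw [Ideal.span_le]
      rintro w (rfl | rfl | rfl)
      · exact hf
      · exact hy
      · exact hz

/-- exchange, two generators -/
lemma exchange2 {f x y : A} (hn : maximalIdeal A = Ideal.span {x, y})
    (hf : f ∈ maximalIdeal A) (hf2 : f ∉ maximalIdeal A ^ 2) :
    ∃ b, maximalIdeal A = Ideal.span {f, b} := by
  have hx : x ∈ maximalIdeal A := hn ▸ Ideal.subset_span (by simp)
  have hy : y ∈ maximalIdeal A := hn ▸ Ideal.subset_span (by simp)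
  have hf' := hf
  rw [hn, Ideal.mem_span_pair] at hf'
  obtain ⟨p, q, rfl⟩ := hf'
  by_cases hp : p ∈ maximalIdeal A
  · by_cases hq : q ∈ maximalIdeal A
    · exfalso
      apply hf2
      rw [pow_two]
      exact Ideal.add_mem _ (Ideal.mul_mem_mul hp hx) (Ideal.mul_mem_mul hq hy)
    · obtain ⟨v, hv⟩ := (isUnit_of_notMem hq).exists_left_inv
      refine ⟨x, le_antisymm ?_ ?_⟩
      · conv_lhs => rw [hn]
        rw [Ideal.span_le]
        have e : y = v * (p * x + q * y) + (-(v * p)) * x := by
          linear_combination (-y) * hv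
        rintro w (rfl | rfl)
        · exact Ideal.subset_span (by simp)
        · rw [SetLike.mem_coe]
          generalize p * x + q * w = g at e
          rw [e]
          refine Ideal.add_mem _ (Ideal.mul_mem_left _ _ ?_) (Ideal.mul_mem_left _ _ ?_)
          all_goals exact Ideal.subset_span (by simp)
      · rw [Ideal.span_le]
        rintro w (rfl | rfl)
        · exact hf
        · exact hx
  · obtain ⟨v, hv⟩ := (isUnit_of_notMem hp).exists_left_inv
    refine ⟨y, le_antisymm ?_ ?_⟩
    · conv_lhs => rw [hn]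
      rw [Ideal.span_le]
      have e : x = v * (p * x + q * y) + (-(v * q)) * y := by
        linear_combination (-x) * hv
      rintro w (rfl | rfl)
      · rw [SetLike.mem_coe]
        generalize p * w + q * y = g at e
        rw [e]
        refine Ideal.add_mem _ (Ideal.mul_mem_left _ _ ?_) (Ideal.mul_mem_left _ _ ?_)
        all_goals exact Ideal.subset_span (by simp)
      · exact Ideal.subset_span (by simp)
    · rw [Ideal.span_le]
      rintro w (rfl | rfl)
      · exact hf
      · exact hy

variable [IsNoetherianRing A]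

/-- Krull: an ideal contained in all `(c^k) + I` is contained in `I`. -/
lemma krull {c : A} (hc : c ∈ maximalIdeal A) (I : Ideal A) {x : A}
    (hx : ∀ k : ℕ, x ∈ Ideal.span {c ^ k} ⊔ I) : x ∈ I := by
  have h1 : Ideal.span {c} ≠ ⊤ := by
    intro h
    have := (Ideal.span_singleton_eq_top.1 h)
    exact (IsLocalRing.mem_maximalIdeal c).1 hc this
  have h2 := Ideal.iInf_pow_smul_eq_bot_of_isLocalRing (M := A ⧸ I) (I := Ideal.span {c}) h1
  have h3 : (Ideal.Quotient.mk I x) ∈ (⨅ i : ℕ, (Ideal.span {c}) ^ i • (⊤ : Submodule A (A ⧸ I))) := by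
    rw [Submodule.mem_iInf]
    intro k
    obtain ⟨y, hy, z, hz, hyz⟩ := Submodule.mem_sup.1 (hx k)
    obtain ⟨t, rfl⟩ := Ideal.mem_span_singleton'.1 hy
    have e : Ideal.Quotient.mk I x = (c ^ k) • Ideal.Quotient.mk I t := by
      rw [← hyz, map_add, Ideal.Quotient.eq_zero_iff_mem.2 hz, add_zero, Algebra.smul_def, mul_comm,
        map_mul]
      rfl
    rw [e]
    exact Submodule.smul_mem_smul (Ideal.pow_mem_pow (Ideal.mem_span_singleton_self c) k)
      Submodule.mem_top
  rw [h2, Submodule.mem_bot] at h3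
  exact Ideal.Quotient.eq_zero_iff_mem.1 h3

/-- A prime through `f`, not maximal, when the maximal ideal is `(f, b, c)`. -/
lemma prime_two {f b c : A} (hn : maximalIdeal A = Ideal.span {f, b, c}) (P : Ideal A)
    [hP : P.IsPrime] (hfP : f ∈ P) (hPn : P ≠ maximalIdeal A) :
    ∃ g ∈ P, P ≤ Ideal.span {f, g} := by
  have hPle : P ≤ maximalIdeal A := IsLocalRing.le_maximalIdeal hP.ne_top
  have hf : f ∈ maximalIdeal A := hPle hfP
  have hb : b ∈ maximalIdeal A := hn ▸ Ideal.subset_span (by simp)
  have hc : c ∈ maximalIdeal A := hn ▸ Ideal.subset_span (by simp)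
  by_cases hbP : b ∈ P
  · refine ⟨b, hbP, ?_⟩
    have hcP : c ∉ P := by
      intro hcP
      apply hPn
      refine le_antisymm hPle ?_
      rw [hn, Ideal.span_le]
      rintro w (rfl | rfl | rfl)
      · exact hfP
      · exact hbP
      · exact hcP
    refine Submodule.le_of_le_smul_of_le_jacobson_bot (I := maximalIdeal A)
      (IsNoetherian.noetherian _) (IsLocalRing.maximalIdeal_le_jacobson _) ?_
    intro x hx
    have hx' := hPle hx
    rw [hn, Ideal.mem_span_insert] at hx'
    obtain ⟨p, t, ht, rfl⟩ := hx'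
    rw [Ideal.mem_span_pair] at ht
    obtain ⟨q, r, rfl⟩ := ht
    have hr : r ∈ P := by
      have h1 : r * c ∈ P := by
        have h2 : r * c = (p * f + (q * b + r * c)) - p * f - q * b := by ring
        rw [h2]
        exact Ideal.sub_mem _ (Ideal.sub_mem _ hx (Ideal.mul_mem_left _ _ hfP))
          (Ideal.mul_mem_left _ _ hbP)
      exact (hP.mem_or_mem h1).resolve_right hcP
    have e : p * f + (q * b + r * c) = (p * f + q * b) + c * r := by ring
    rw [e]
    refine Submodule.add_mem_sup ?_ ?_
    · exact Ideal.mem_span_pair.2 ⟨p, q, rfl⟩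
    · exact Submodule.smul_mem_smul hc hr
  · -- the image of `P` modulo `(f, b)` is principal
    have key : ∃ g ∈ P, P ≤ Ideal.span {g} ⊔ Ideal.span {f, b} := by
      by_cases hJ : P ≤ Ideal.span {f, b}
      · exact ⟨f, hfP, hJ.trans le_sup_right⟩
      · have hex : ∃ k : ℕ, ¬ P ≤ Ideal.span {c ^ k} ⊔ Ideal.span {f, b} := by
          by_contra hcon
          push Not at hcon
          exact hJ fun x hx => krull hc _ fun k => hcon k hx
        classical
        obtain ⟨k, hk, hmin⟩ : ∃ k : ℕ, ¬ P ≤ Ideal.span {c ^ k} ⊔ Ideal.span {f, b} ∧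
            ∀ m < k, P ≤ Ideal.span {c ^ m} ⊔ Ideal.span {f, b} :=
          ⟨Nat.find hex, Nat.find_spec hex, fun m hm => not_not.1 (Nat.find_min hex hm)⟩
        have hk0 : k ≠ 0 := by
          rintro rfl
          apply hk
          rw [pow_zero, Ideal.span_singleton_one, top_sup_eq]
          exact le_top
        obtain ⟨m, rfl⟩ := Nat.exists_eq_succ_of_ne_zero hk0
        have hm := hmin m (Nat.lt_succ_self m)
        obtain ⟨g, hgP, hg⟩ := SetLike.not_le_iff_exists.1 hk
        refine ⟨g, hgP, hm.trans ?_⟩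
        obtain ⟨y, hy, z, hz, hyz⟩ := Submodule.mem_sup.1 (hm hgP)
        obtain ⟨u, rfl⟩ := Ideal.mem_span_singleton'.1 hy
        have hu : IsUnit u := by
          by_contra hu
          have hu' : u ∈ maximalIdeal A := (IsLocalRing.mem_maximalIdeal u).2 hu
          apply hg
          rw [hn, Ideal.mem_span_insert] at hu'
          obtain ⟨p, t, ht, rfl⟩ := hu'
          rw [Ideal.mem_span_pair] at ht
          obtain ⟨q, r, rfl⟩ := ht
          have e : g = r * c ^ (m + 1) + ((p * c ^ m * f + q * c ^ m * b) + z) := by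
            rw [← hyz]; ring
          rw [e]
          refine Submodule.add_mem_sup (Ideal.mem_span_singleton'.2 ⟨r, rfl⟩)
            (Ideal.add_mem _ (Ideal.mem_span_pair.2 ⟨_, _, rfl⟩) hz)
        obtain ⟨v, hv⟩ := hu.exists_left_inv
        refine sup_le ?_ le_sup_right
        rw [Ideal.span_singleton_le_iff_mem]
        have e : c ^ m = v * g + (-(v * z)) := by
          rw [← hyz]
          linear_combination (-c ^ m) * hv
        rw [e]
        exact Submodule.add_mem_sup (Ideal.mem_span_singleton'.2 ⟨v, rfl⟩)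
          (Ideal.neg_mem_iff _ |>.2 (Ideal.mul_mem_left _ _ hz))
    obtain ⟨g, hgP, hg⟩ := key
    refine ⟨g, hgP, ?_⟩
    refine Submodule.le_of_le_smul_of_le_jacobson_bot (I := maximalIdeal A)
      (IsNoetherian.noetherian _) (IsLocalRing.maximalIdeal_le_jacobson _) ?_
    intro x hx
    obtain ⟨y, hy, z, hz, hyz⟩ := Submodule.mem_sup.1 (hg hx)
    obtain ⟨r, rfl⟩ := Ideal.mem_span_singleton'.1 hy
    obtain ⟨t, s, rfl⟩ := Ideal.mem_span_pair.1 hz
    have hs : s ∈ P := by
      have h1 : s * b ∈ P := by
        have h2 : s * b = x - r * g - t * f := by rw [← hyz]; ring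
        rw [h2]
        exact Ideal.sub_mem _ (Ideal.sub_mem _ hx (Ideal.mul_mem_left _ _ hgP))
          (Ideal.mul_mem_left _ _ hfP)
      exact (hP.mem_or_mem h1).resolve_right hbP
    have e : x = (t * f + r * g) + b * s := by rw [← hyz]; ring
    rw [e]
    exact Submodule.add_mem_sup (Ideal.mem_span_pair.2 ⟨t, r, rfl⟩) (Submodule.smul_mem_smul hb hs)

/-- The conclusion for a regular local ring of dimension two or three. -/
lemma local_main {f : A} (P : Ideal A) [hP : P.IsPrime] (hfP : f ∈ P)
    (hf2 : f ∉ maximalIdeal A ^ 2)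
    (h : (maximalIdeal A).spanFinrank = 2 ∨
      ((maximalIdeal A).spanFinrank = 3 ∧ P ≠ maximalIdeal A)) :
    ∃ g ∈ P, P ≤ Ideal.span {f, g} := by
  have hPle : P ≤ maximalIdeal A := IsLocalRing.le_maximalIdeal hP.ne_top
  have hfg : (maximalIdeal A).FG := IsNoetherian.noetherian _
  rcases h with h | ⟨h, hPn⟩
  · rw [← Submodule.FG.generators_ncard hfg, Set.ncard_eq_two] at h
    obtain ⟨x, y, -, hxy⟩ := h
    have hn : maximalIdeal A = Ideal.span {x, y} := by
      rw [← hxy]
      exact (Submodule.span_generators _).symm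
    obtain ⟨b, hb⟩ := exchange2 hn (hPle hfP) hf2
    by_cases hPn : P = maximalIdeal A
    · refine ⟨b, ?_, ?_⟩
      · rw [hPn, hb]
        exact Ideal.subset_span (by simp)
      · rw [hPn, hb]
    · refine prime_two (b := b) (c := 0) ?_ P hfP hPn
      rw [hb]
      apply le_antisymm
      · exact Ideal.span_mono (by
          rintro w (rfl | rfl) <;> simp)
      · rw [Ideal.span_le]
        rintro w (rfl | rfl | rfl)
        · exact Ideal.subset_span (by simp)
        · exact Ideal.subset_span (by simp)
        · exact Ideal.zero_mem _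
  · rw [← Submodule.FG.generators_ncard hfg, Set.ncard_eq_three] at h
    obtain ⟨x, y, z, -, -, -, hxy⟩ := h
    have hn : maximalIdeal A = Ideal.span {x, y, z} := by
      rw [← hxy]
      exact (Submodule.span_generators _).symm
    obtain ⟨b, c, hbc⟩ := exchange hn (hPle hfP) hf2
    exact prime_two hbc P hfP hPn

end Local

/-- A derivation maps the square of an ideal into the ideal. -/
lemma pderiv_mem (Q : Ideal S5) (i : Fin 5) {x : S5} (hx : x ∈ Q ^ 2) : pderiv i x ∈ Q := by
  rw [pow_two] at hx
  refine Submodule.mul_induction_on hx ?_ ?_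
  · intro m hm n hn
    rw [(pderiv i).leibniz, smul_eq_mul, smul_eq_mul]
    exact Ideal.add_mem _ (Ideal.mul_mem_right _ _ hm) (Ideal.mul_mem_right _ _ hn)
  · intro x y hx hy
    rw [map_add]
    exact Ideal.add_mem _ hx hy

end LocPrin

theorem loc_prin {F : S5} (P Q : Ideal S5) (hP : P.IsPrime) (hQ : Q.IsPrime) (hFP : F ∈ P)
    (hFQ : F ∈ Q) (hP2 : P.height = 2) (hQ3 : Q.height ≤ 3) (hreg : ∃ i, pderiv i F ∉ Q) :
    ∃ G ∈ P, ∃ a, a ∉ Q ∧ ∀ p ∈ P, a * p ∈ Ideal.span {F, G} := by
  by_cases hPQ : P ≤ Q
  swap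
  · obtain ⟨g, hgP, hgQ⟩ := SetLike.not_le_iff_exists.1 hPQ
    refine ⟨g, hgP, g, hgQ, fun p _ => ?_⟩
    rw [mul_comm]
    exact Ideal.mul_mem_left _ _ (Ideal.subset_span (by simp))
  have hreg0 : IsRegularLocalRing (Localization.AtPrime Q) := inferInstance
  set A := Localization.AtPrime Q with hA
  have hmax : Ideal.map (algebraMap S5 A) Q = IsLocalRing.maximalIdeal A :=
    Localization.AtPrime.map_eq_maximalIdeal
  -- the image of `P`
  have hdisj : Disjoint (Q.primeCompl : Set S5) (P : Set S5) := by
    rw [Set.disjoint_left]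
    intro x hx hxP
    exact hx (hPQ hxP)
  have hP' : (P.map (algebraMap S5 A)).IsPrime :=
    IsLocalization.isPrime_of_isPrime_disjoint Q.primeCompl A P hP hdisj
  have hfP' : algebraMap S5 A F ∈ P.map (algebraMap S5 A) := Ideal.mem_map_of_mem _ hFP
  -- `F` is not in the square of the maximal ideal
  have hf2 : algebraMap S5 A F ∉ IsLocalRing.maximalIdeal A ^ 2 := by
    intro hcon
    rw [← hmax, ← Ideal.map_pow,
      IsLocalization.algebraMap_mem_map_algebraMap_iff Q.primeCompl] at hcon
    obtain ⟨s, hs, hsF⟩ := hcon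
    obtain ⟨i, hi⟩ := hreg
    have h1 := LocPrin.pderiv_mem Q i hsF
    rw [(pderiv i).leibniz, smul_eq_mul, smul_eq_mul] at h1
    have h2 : s * pderiv i F ∈ Q := by
      have h3 : s * pderiv i F = (s * pderiv i F + F * pderiv i s) - F * pderiv i s := by ring
      rw [h3]
      exact Ideal.sub_mem _ h1 (Ideal.mul_mem_right _ _ hFQ)
    rcases hQ.mem_or_mem h2 with h | h
    · exact hs h
    · exact hi h
  -- dimension
  have hdim : ((IsLocalRing.maximalIdeal A).spanFinrank : WithBot ℕ∞) = Q.height := by
    rw [(isRegularLocalRing_iff A).1 hreg0]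
    exact IsLocalization.AtPrime.ringKrullDim_eq_height Q A
  have hdim' : ((IsLocalRing.maximalIdeal A).spanFinrank : ℕ∞) = Q.height := by
    have := hdim
    exact_mod_cast this
  have hcase : (IsLocalRing.maximalIdeal A).spanFinrank = 2 ∨
      ((IsLocalRing.maximalIdeal A).spanFinrank = 3 ∧
        P.map (algebraMap S5 A) ≠ IsLocalRing.maximalIdeal A) := by
    have h2 : (2 : ℕ∞) ≤ Q.height := hP2 ▸ Ideal.height_mono hPQ
    rw [← hdim'] at h2 hQ3
    have h2' : 2 ≤ (IsLocalRing.maximalIdeal A).spanFinrank := by exact_mod_cast h2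
    have h3' : (IsLocalRing.maximalIdeal A).spanFinrank ≤ 3 := by exact_mod_cast hQ3
    rcases Nat.lt_or_ge 2 (IsLocalRing.maximalIdeal A).spanFinrank with h | h
    · refine Or.inr ⟨by omega, fun hcon => ?_⟩
      have e1 : P = Q := by
        rw [← IsLocalization.under_map_of_isPrime_disjoint Q.primeCompl A hP hdisj, hcon, ← hmax,
          IsLocalization.under_map_of_isPrime_disjoint Q.primeCompl A hQ]
        rw [Set.disjoint_left]
        intro x hx hxQ
        exact hx hxQ
      have e2 : ((IsLocalRing.maximalIdeal A).spanFinrank : ℕ∞) = 2 := by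
        rw [hdim', ← e1, hP2]
      have e3 : (IsLocalRing.maximalIdeal A).spanFinrank = 2 := by exact_mod_cast e2
      omega
    · exact Or.inl (by omega)
  obtain ⟨g', hg'P, hg'⟩ := LocPrin.local_main (P.map (algebraMap S5 A)) hfP' hf2 hcase
  -- clear the denominator of `g'`
  rw [IsLocalization.mem_map_algebraMap_iff Q.primeCompl] at hg'P
  obtain ⟨⟨⟨G, hG⟩, s⟩, hGs⟩ := hg'P
  simp only at hGs
  have hs : IsUnit (algebraMap S5 A s) := IsLocalization.map_units A s
  have hmap : Ideal.span {algebraMap S5 A F, g'} ≤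
      Ideal.map (algebraMap S5 A) (Ideal.span {F, G}) := by
    rw [Ideal.span_le]
    rintro w (rfl | rfl)
    · exact Ideal.mem_map_of_mem _ (Ideal.subset_span (by simp))
    · obtain ⟨v, hv⟩ := hs.exists_left_inv
      have e : w = v * algebraMap S5 A G := by
        rw [← hGs]
        linear_combination (-w) * hv
      rw [e]
      exact Ideal.mul_mem_left _ _ (Ideal.mem_map_of_mem _ (Ideal.subset_span (by simp)))
  have hden : ∀ p ∈ P, ∃ a, a ∉ Q ∧ a * p ∈ Ideal.span {F, G} := by
    intro p hp
    have h1 := hmap (hg' (Ideal.mem_map_of_mem (algebraMap S5 A) hp))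
    rw [IsLocalization.algebraMap_mem_map_algebraMap_iff Q.primeCompl] at h1
    obtain ⟨m, hm, hmp⟩ := h1
    exact ⟨m, hm, hmp⟩
  refine ⟨G, hG, ?_⟩
  obtain ⟨T, hT⟩ : P.FG := IsNoetherian.noetherian P
  have hTP : ∀ t ∈ T, t ∈ P := fun t ht => hT ▸ Ideal.subset_span ht
  choose! a ha1 ha2 using hden
  refine ⟨∏ t ∈ T, a t, ?_, fun p hp => ?_⟩
  · rw [hQ.prod_mem_iff]
    push Not
    exact fun t ht => ha1 t (hTP t ht)
  · rw [← hT] at hp
    refine Submodule.span_induction ?_ ?_ ?_ ?_ hp
    · intro t ht
      rw [← Finset.mul_prod_erase T a (Finset.mem_coe.1 ht)]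
      have e : a t * (∏ x ∈ T.erase t, a x) * t = (∏ x ∈ T.erase t, a x) * (a t * t) := by ring
      rw [e]
      exact Ideal.mul_mem_left _ _ (ha2 t (hTP t ht))
    · rw [mul_zero]
      exact Ideal.zero_mem _
    · intro x y _ _ hx hy
      rw [mul_add]
      exact Ideal.add_mem _ hx hy
    · intro r x _ hx
      rw [smul_eq_mul, mul_left_comm]
      exact Ideal.mul_mem_left _ _ hx

end Pc2352a
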