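import Pool.Agent.Lib.Pc2352a.FacAvoid
import Pool.Agent.Lib.Pc2352a.FacIrr
import Pool.Agent.Lib.Pc2352a.FacLocPrin

set_option autoImplicit false

/-!
# FacCover (1.8h): the cover data for a homogeneous height two prime `P ∋ F`

Black boxes: `loc_prin`, `four_le_height_of_nodes`, `hom_avoid`, `linear_avoid`, `height_maxI`, `height_lineIdeal`, ...

`semilocal`: let `T` be a finite set of homogeneous primes `Q ∋ F` of height `≤ 3`. There are a form `G ∈ P` and a form `a` of
positive degree, `a ∉ Q` for all `Q ∈ T`, with `a P ⊆ (F, G)` (and `F ∤ G` if `T` is nonempty).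
Proof: for `Q ∈ T` (some `pderiv i F ∉ Q` because `height Q < 4`) `loc_prin` gives `G_Q ∈ P`, `a_Q ∉ Q`. `F ∤ G_Q` (otherwise
`a_Q P ⊆ (F)`, `a_Q ∉ (F)` as `F ∈ Q`, so `P ⊆ (F)`, but `P` has height 2 and `(F)` has height `≤ 1`). Let `N_Q` be the ideal
`{g ∈ P | ∃ c ∈ Q, a_Q g - c G_Q ∈ (F)}`. `G_Q ∉ N_Q` (if `a_Q G_Q - c G_Q ∈ (F)`, `c ∈ Q`, then `a_Q - c ∈ (F) ⊆ Q`). If `X_i ∉ Q`
(exists, otherwise `maxI ≤ Q`, height 5), `g ∈ P` and `X_i g ∈ N_Q` then `g ∈ N_Q`: `a_Q g = c' G_Q` mod `F`, `X_i a_Q g = c G_Q` mod `F` with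
`c ∈ Q`, so `X_i c' - c ∈ (F) ⊆ Q`, so `c' ∈ Q`. So `hom_avoid` (I = P, B_Q = N_Q) gives a form `G ∈ P` in no `N_Q`.
If `g ∈ P`, `g ∉ N_Q`: `a_Q g = c G_Q` mod `F` with `c ∉ Q`, and for `p ∈ P`, `a_Q p = c_p G_Q` mod `F`, so
`(c a_Q) p = c_p c G_Q = c_p a_Q g` mod `F`: `c a_Q ∉ Q` and `(c a_Q) P ⊆ (F, g)`. Apply this to `g = G`, and then apply
`hom_avoid` to the homogeneous ideal `I = ((F, G) : P)`, `B_Q = Q`, to get the form `a`.

`exists_cover`: (1) `T = {(F)}` gives `G_0, a_0` with `a_0 ∉ (F)`. (2) `T` = minimal primes of `(F, a_0)`, heights `≤ 2` (Krull), gives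
`G_1, a_1`. (3) `T` = minimal primes of `(F, a_0, a_1)`, heights `≤ 3`, gives `G_2, a_2`. (4) a linear form `l` outside all minimal
primes `≠ maxI` of `(F, a_0, a_1, a_2)`, nonzero at all `z ∈ Z`. `Cov.triv`: let `w ≠ 0` be a common zero of `F, a_0, a_1, a_2, l`. The prime
`lineIdeal w` (height 4) contains a minimal prime `q3` of `(F, a_0, a_1, a_2)`, `l ∉ q3`, so `q3 < lineIdeal w`; `q3` contains a
minimal prime `q2` of `(F, a_0, a_1)`, `a_2 ∉ q2`; `q2` contains a minimal prime `q1` of `(F, a_0)`, `a_1 ∉ q1`; `(F) < q1`, `0 < (F)`. The chain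
`0 < (F) < q1 < q2 < q3 < lineIdeal w` shows that the height of `lineIdeal w` is at least 5, a contradiction.
`∃ i, a i ∉ P`: if `a_0 ∈ P` then `P` (height 2) is a minimal prime of `(F, a_0)`, so `a_1 ∉ P`.
-/

namespace Pc2352a

open MvPolynomial

namespace CoverAux

section Graded

attribute [local instance] MvPolynomial.gradedAlgebra

/-- homogeneous components of a product with a form -/
lemma hc_mul (a p : S5) {m : ℕ} (hp : p.IsHomogeneous m) (n : ℕ) :
    homogeneousComponent (n + m) (a * p) = homogeneousComponent n a * p := by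
  have h := DirectSum.coe_decompose_mul_add_of_right_mem (homogeneousSubmodule (Fin 5) ℂ)
    (i := n) (j := m) (a := a) (b := p) hp
  have e : ∀ (x : S5) (k : ℕ),
      ((DirectSum.decompose (homogeneousSubmodule (Fin 5) ℂ) x) k : S5) =
        homogeneousComponent k x := fun x k => decomposition.decompose'_apply x k
  rw [e, e] at h
  exact h

end Graded

/-- The colon ideal `(I : P)`. -/
def colonI (I P : Ideal S5) : Ideal S5 where
  carrier := {a | ∀ p ∈ P, a * p ∈ I}
  zero_mem' := fun p _ => by rw [zero_mul]; exact I.zero_mem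
  add_mem' := fun {x y} hx hy p hp => by
    rw [add_mul]; exact I.add_mem (hx p hp) (hy p hp)
  smul_mem' := fun c x hx p hp => by
    rw [smul_eq_mul, mul_assoc]; exact I.mul_mem_left _ (hx p hp)

lemma mem_colonI {I P : Ideal S5} {a : S5} : a ∈ colonI I P ↔ ∀ p ∈ P, a * p ∈ I := Iff.rfl

lemma hideal_colonI {I P : Ideal S5} (hI : HIdeal I) (hP : HIdeal P) : HIdeal (colonI I P) := by
  intro a ha n
  rw [mem_colonI]
  intro p hp
  have hsum : p = ∑ i ∈ Finset.range (p.totalDegree + 1), homogeneousComponent i p :=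
    (sum_homogeneousComponent p).symm
  rw [hsum, Finset.mul_sum]
  refine Ideal.sum_mem _ fun i _ => ?_
  rw [← hc_mul a _ (homogeneousComponent_isHomogeneous i p) n]
  exact hI _ (ha _ (hP p hp i)) _

/-- The ideal `{g | a g = c G mod F for some c ∈ Q}`. -/
def badI (F G a : S5) (Q : Ideal S5) : Ideal S5 where
  carrier := {g | ∃ c ∈ Q, a * g - c * G ∈ Ideal.span {F}}
  zero_mem' := ⟨0, Q.zero_mem, by simp⟩
  add_mem' := by
    rintro x y ⟨c, hc, h1⟩ ⟨c', hc', h2⟩
    refine ⟨c + c', Q.add_mem hc hc', ?_⟩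
    have e : a * (x + y) - (c + c') * G = (a * x - c * G) + (a * y - c' * G) := by ring
    rw [e]
    exact Ideal.add_mem _ h1 h2
  smul_mem' := by
    rintro t x ⟨c, hc, h1⟩
    refine ⟨t * c, Q.mul_mem_left _ hc, ?_⟩
    have e : a * (t • x) - t * c * G = t * (a * x - c * G) := by rw [smul_eq_mul]; ring
    rw [e]
    exact Ideal.mul_mem_left _ _ h1

lemma mem_badI {F G a : S5} {Q : Ideal S5} {g : S5} :
    g ∈ badI F G a Q ↔ ∃ c ∈ Q, a * g - c * G ∈ Ideal.span {F} := Iff.rfl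

/-- Membership in `(F, G)` modulo `F`. -/
lemma mem_pair {F G x : S5} (h : x ∈ Ideal.span {F, G}) :
    ∃ c, x - c * G ∈ Ideal.span {F} := by
  obtain ⟨s, c, rfl⟩ := Ideal.mem_span_pair.1 h
  refine ⟨c, ?_⟩
  rw [Ideal.mem_span_singleton']
  exact ⟨s, by ring⟩

lemma of_pair {F G x c : S5} (h : x - c * G ∈ Ideal.span {F}) : x ∈ Ideal.span {F, G} := by
  rw [Ideal.mem_span_singleton'] at h
  obtain ⟨s, hs⟩ := h
  exact Ideal.mem_span_pair.2 ⟨s, c, by linear_combination hs⟩

lemma maxI_le {Q : Ideal S5} (h : ∀ i, (X i : S5) ∈ Q) : maxI ≤ Q := by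
  intro g hg
  have h1 : g ∈ idealOfVars (Fin 5) ℂ ^ 1 := by
    rw [mem_pow_idealOfVars_iff']
    intro x hx
    have hx0 : x = 0 := by
      rw [← Finsupp.degree_eq_zero_iff]
      omega
    rw [hx0, ← constantCoeff_eq, ← eval_zero']
    exact hg
  rw [pow_one] at h1
  refine (Ideal.span_le.2 ?_ : idealOfVars (Fin 5) ℂ ≤ Q) h1
  rintro _ ⟨i, rfl⟩
  exact h i

lemma exists_X_notMem {Q : Ideal S5} (hQ : Q.height ≤ 3) : ∃ i, (X i : S5) ∉ Q := by
  by_contra hcon
  push Not at hcon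
  have h1 := Ideal.height_mono (maxI_le hcon)
  rw [height_maxI] at h1
  have h2 := h1.trans hQ
  norm_num at h2

lemma height_F {F : S5} (hFp : Prime F) : (Ideal.span {F}).height ≤ 1 :=
  Ideal.height_span_singleton_le_one hFp.not_isUnit

lemma not_le_F {F : S5} (hFp : Prime F) {P : Ideal S5} (hP2 : P.height = 2) :
    ¬ P ≤ Ideal.span {F} := by
  intro h
  have h1 := (Ideal.height_mono h).trans (height_F hFp)
  rw [hP2] at h1
  norm_num at h1

end CoverAux

open CoverAux

theorem semilocal {F : S5} {d : ℕ} (hF : F.IsHomogeneous d) (hFp : Prime F)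
    {Z : Finset (Fin 5 → ℂ)} (hZ : NodeSet F Z) (P : Ideal S5) (hP : P.IsPrime) (hPh : HIdeal P)
    (hFP : F ∈ P) (hP2 : P.height = 2) (T : Finset (Ideal S5)) (hT0 : T.Nonempty)
    (hT : ∀ Q ∈ T, Q.IsPrime ∧ HIdeal Q ∧ F ∈ Q ∧ Q.height ≤ 3) :
    ∃ (G a : S5) (g α : ℕ), G ∈ P ∧ ¬ F ∣ G ∧ G.IsHomogeneous g ∧ a.IsHomogeneous α ∧ 0 < α ∧
      (∀ Q ∈ T, a ∉ Q) ∧ ∀ p ∈ P, a * p ∈ Ideal.span {F, G} := by
  have hFI : (Ideal.span {F} : Ideal S5).IsPrime :=
    (Ideal.span_singleton_prime hFp.ne_zero).2 hFp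
  have hspF : ∀ Q ∈ T, Ideal.span {F} ≤ Q := fun Q hQ =>
    (Ideal.span_singleton_le_iff_mem _).2 (hT Q hQ).2.2.1
  have hloc : ∀ Q ∈ T, ∃ G a : S5, G ∈ P ∧ a ∉ Q ∧ ∀ p ∈ P, a * p ∈ Ideal.span {F, G} := by
    intro Q hQ
    obtain ⟨h1, h2, h3, h4⟩ := hT Q hQ
    have hreg : ∃ i, pderiv i F ∉ Q := by
      by_contra hcon
      push Not at hcon
      have h5 := (four_le_height_of_nodes hZ Q h1 hcon).trans h4
      norm_num at h5
    obtain ⟨G, hG, a, ha, hp⟩ := loc_prin P Q hP h1 hFP h3 hP2 h4 hreg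
    exact ⟨G, a, hG, ha, hp⟩
  choose! GQ aQ hGP haQ hap using hloc
  have hFG : ∀ Q ∈ T, ¬ F ∣ GQ Q := by
    intro Q hQ hcon
    apply not_le_F hFp hP2
    intro p hp
    have h1 := hap Q hQ p hp
    have h2 : Ideal.span {F, GQ Q} ≤ Ideal.span {F} := by
      rw [Ideal.span_le]
      rintro w (rfl | rfl)
      · exact Ideal.mem_span_singleton_self _
      · exact Ideal.mem_span_singleton.2 hcon
    exact (hFI.mem_or_mem (h2 h1)).resolve_left fun h => haQ Q hQ (hspF Q hQ h)
  -- avoidance for `G`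
  obtain ⟨G, n, hn, hGh, hGPP, hGN⟩ := hom_avoid T P hPh (fun Q => badI F (GQ Q) (aQ Q) Q)
    (by
      intro Q hQ
      obtain ⟨i, hi⟩ := exists_X_notMem (hT Q hQ).2.2.2
      refine ⟨i, fun g hg hXg => ?_⟩
      obtain ⟨c', hc'⟩ := mem_pair (hap Q hQ g hg)
      obtain ⟨c, hc, hcg⟩ := mem_badI.1 hXg
      refine mem_badI.2 ⟨c', ?_, hc'⟩
      have h1 : (X i * c' - c) * GQ Q ∈ Ideal.span {F} := by
        have e : (X i * c' - c) * GQ Q =
            (aQ Q * (X i * g) - c * GQ Q) - X i * (aQ Q * g - c' * GQ Q) := by ring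
        rw [e]
        exact Ideal.sub_mem _ hcg (Ideal.mul_mem_left _ _ hc')
      rcases hFI.mem_or_mem h1 with h2 | h2
      · have h3 : X i * c' ∈ Q := by
          have e : X i * c' = (X i * c' - c) + c := by ring
          rw [e]
          exact Q.add_mem (hspF Q hQ h2) hc
        exact ((hT Q hQ).1.mem_or_mem h3).resolve_left hi
      · exact absurd (Ideal.mem_span_singleton.1 h2) (hFG Q hQ))
    (by
      intro Q hQ hle
      obtain ⟨c, hc, hcg⟩ := mem_badI.1 (hle (hGP Q hQ))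
      have h1 : (aQ Q - c) * GQ Q ∈ Ideal.span {F} := by
        have e : (aQ Q - c) * GQ Q = aQ Q * GQ Q - c * GQ Q := by ring
        rw [e]
        exact hcg
      rcases hFI.mem_or_mem h1 with h2 | h2
      · apply haQ Q hQ
        have e : aQ Q = (aQ Q - c) + c := by ring
        rw [e]
        exact Q.add_mem (hspF Q hQ h2) hc
      · exact absurd (Ideal.mem_span_singleton.1 h2) (hFG Q hQ))
  have hFG' : ¬ F ∣ G := by
    intro hcon
    obtain ⟨Q, hQ⟩ := hT0
    apply hGN Q hQ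
    refine mem_badI.2 ⟨0, Q.zero_mem, ?_⟩
    rw [zero_mul, sub_zero]
    exact Ideal.mul_mem_left _ _ (Ideal.mem_span_singleton.2 hcon)
  -- the colon ideal is not contained in any `Q`
  have hcolon : ∀ Q ∈ T, ¬ colonI (Ideal.span {F, G}) P ≤ Q := by
    intro Q hQ hle
    obtain ⟨c, hc⟩ := mem_pair (hap Q hQ G hGPP)
    have hcQ : c ∉ Q := fun h => hGN Q hQ (mem_badI.2 ⟨c, h, hc⟩)
    have h1 : c * aQ Q ∈ colonI (Ideal.span {F, G}) P := by
      rw [mem_colonI]
      intro p hp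
      obtain ⟨cp, hcp⟩ := mem_pair (hap Q hQ p hp)
      refine of_pair (c := cp * aQ Q) ?_
      have e : c * aQ Q * p - cp * aQ Q * G =
          c * (aQ Q * p - cp * GQ Q) - cp * (aQ Q * G - c * GQ Q) := by ring
      rw [e]
      exact Ideal.sub_mem _ (Ideal.mul_mem_left _ _ hcp) (Ideal.mul_mem_left _ _ hc)
    rcases (hT Q hQ).1.mem_or_mem (hle h1) with h | h
    · exact hcQ h
    · exact haQ Q hQ h
  have hspan : HIdeal (Ideal.span {F, G}) := hideal_span _ (by
    rintro w (rfl | rfl)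
    · exact ⟨d, hF⟩
    · exact ⟨n, hGh⟩)
  obtain ⟨a, α, hα, hah, haI, haT⟩ := hom_avoid T (colonI (Ideal.span {F, G}) P)
    (hideal_colonI hspan hPh) (fun Q => Q)
    (by
      intro Q hQ
      obtain ⟨i, hi⟩ := exists_X_notMem (hT Q hQ).2.2.2
      exact ⟨i, fun g _ hg => ((hT Q hQ).1.mem_or_mem hg).resolve_left hi⟩)
    hcolon
  exact ⟨G, a, n, α, hGPP, hFG', hGh, hah, hα, haT, haI⟩

namespace CoverAux

/-- forms of positive degree generate a proper ideal -/
lemma span_le_maxI (s : Set S5) (hs : ∀ g ∈ s, ∃ n, 0 < n ∧ g.IsHomogeneous n) :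
    Ideal.span s ≤ maxI := by
  rw [Ideal.span_le]
  intro g hg
  obtain ⟨n, hn, hgn⟩ := hs g hg
  change eval (fun _ => (0 : ℂ)) g = 0
  rw [eval_zero', constantCoeff_eq]
  exact hgn.coeff_eq_zero (by simpa using hn.ne)

lemma span_ne_top (s : Set S5) (hs : ∀ g ∈ s, ∃ n, 0 < n ∧ g.IsHomogeneous n) :
    Ideal.span s ≠ ⊤ := by
  intro h
  have h1 := span_le_maxI s hs
  rw [h, top_le_iff] at h1
  exact maxI_isPrime.ne_top h1

/-- The semilocal step for the minimal primes of an ideal generated by at most three forms. -/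
lemma step {F : S5} {d : ℕ} (hd : 0 < d) (hF : F.IsHomogeneous d) (hFp : Prime F)
    {Z : Finset (Fin 5 → ℂ)} (hZ : NodeSet F Z) (P : Ideal S5) (hP : P.IsPrime) (hPh : HIdeal P)
    (hFP : F ∈ P) (hP2 : P.height = 2) (s : Finset S5)
    (hs : ∀ g ∈ s, ∃ n, 0 < n ∧ g.IsHomogeneous n) (hFs : F ∈ s) (hcard : s.card ≤ 3) :
    ∃ (G a : S5) (g α : ℕ), G ∈ P ∧ ¬ F ∣ G ∧ G.IsHomogeneous g ∧ a.IsHomogeneous α ∧ 0 < α ∧
      (∀ Q ∈ (Ideal.span (s : Set S5)).minimalPrimes, a ∉ Q) ∧
      ∀ p ∈ P, a * p ∈ Ideal.span {F, G} := by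
  classical
  have hfin := finite_minimalPrimes (Ideal.span (s : Set S5))
  have hne : (Ideal.span (s : Set S5)).minimalPrimes.Nonempty :=
    Set.nonempty_coe_sort.1 (Ideal.nonempty_minimalPrimes (span_ne_top _ hs))
  obtain ⟨G, a, g, α, h1, h2, h3, h4, h5, h6, h7⟩ := semilocal hF hFp hZ P hP hPh hFP hP2
    hfin.toFinset (by rwa [Set.Finite.toFinset_nonempty]) (by
      intro Q hQ
      rw [Set.Finite.mem_toFinset] at hQ
      refine ⟨hQ.1.1, hideal_minimalPrimes _ (hideal_span _ fun g hg => ?_) Q hQ,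
        hQ.1.2 (Ideal.subset_span hFs), ?_⟩
      · obtain ⟨n, -, hn⟩ := hs g hg
        exact ⟨n, hn⟩
      · refine (Ideal.height_le_card_of_mem_minimalPrimes_span_finset hQ).trans ?_
        exact_mod_cast hcard)
  exact ⟨G, a, g, α, h1, h2, h3, h4, h5, fun Q hQ => h6 Q (by
    rwa [Set.Finite.mem_toFinset]), h7⟩

lemma height_lt {I J : Ideal S5} {n : ℕ} (hI : I.IsPrime) (hJ : J.IsPrime) (h : I < J)
    (hn : (n : ℕ∞) ≤ I.height) : ((n + 1 : ℕ) : ℕ∞) ≤ J.height := by
  refine le_trans ?_ (Ideal.height_add_one_le_of_lt_of_isPrime h)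
  push_cast
  exact add_le_add_left hn 1

end CoverAux

theorem exists_cover {F : S5} {d : ℕ} (hd : 0 < d) (hF : F.IsHomogeneous d) (hFp : Prime F)
    {Z : Finset (Fin 5 → ℂ)} (hZ : NodeSet F Z) (P : Ideal S5) (hP : P.IsPrime) (hPh : HIdeal P)
    (hFP : F ∈ P) (hP2 : P.height = 2) :
    ∃ (a G : Fin 3 → S5) (α g : Fin 3 → ℕ) (l : S5), Cov F d a α l ∧
      (∀ z ∈ Z, eval z l ≠ 0) ∧ (∀ i, G i ∈ P ∧ ¬ F ∣ G i ∧ (G i).IsHomogeneous (g i)) ∧
      (∀ i, ∀ p ∈ P, a i * p ∈ Ideal.span {F, G i}) ∧ ∃ i, a i ∉ P := by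
  classical
  have hFI : (Ideal.span {F} : Ideal S5).IsPrime :=
    (Ideal.span_singleton_prime hFp.ne_zero).2 hFp
  have hF1 : ((1 : ℕ) : ℕ∞) ≤ (Ideal.span {F} : Ideal S5).height := by
    refine height_lt (n := 0) Ideal.isPrime_bot hFI ?_ (by simp)
    rw [bot_lt_iff_ne_bot, Ne, Ideal.span_singleton_eq_bot]
    exact hFp.ne_zero
  -- step 0
  obtain ⟨G0, a0, g0, α0, hG0P, hG0F, hG0h, ha0h, hα0, ha0, hp0⟩ :=
    step hd hF hFp hZ P hP hPh hFP hP2 {F}
      (fun g hg => by rw [Finset.mem_singleton] at hg; exact ⟨d, hd, hg ▸ hF⟩)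
      (Finset.mem_singleton_self _) (by simp)
  have ha0F : a0 ∉ (Ideal.span {F} : Ideal S5) := by
    apply ha0
    rw [Finset.coe_singleton, Ideal.minimalPrimes_eq_subsingleton_self]
    exact Set.mem_singleton _
  -- step 1
  obtain ⟨G1, a1, g1, α1, hG1P, hG1F, hG1h, ha1h, hα1, ha1, hp1⟩ :=
    step hd hF hFp hZ P hP hPh hFP hP2 {F, a0}
      (fun g hg => by
        rw [Finset.mem_insert, Finset.mem_singleton] at hg
        rcases hg with rfl | rfl
        · exact ⟨d, hd, hF⟩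
        · exact ⟨α0, hα0, ha0h⟩)
      (by simp) (Finset.card_le_two.trans (by norm_num))
  -- step 2
  obtain ⟨G2, a2, g2, α2, hG2P, hG2F, hG2h, ha2h, hα2, ha2, hp2⟩ :=
    step hd hF hFp hZ P hP hPh hFP hP2 {F, a0, a1}
      (fun g hg => by
        rw [Finset.mem_insert, Finset.mem_insert, Finset.mem_singleton] at hg
        rcases hg with rfl | rfl | rfl
        · exact ⟨d, hd, hF⟩
        · exact ⟨α0, hα0, ha0h⟩
        · exact ⟨α1, hα1, ha1h⟩)
      (by simp) Finset.card_le_three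
  -- step 3: the linear form
  set I3 : Ideal S5 := Ideal.span {F, a0, a1, a2} with hI3
  have hI3h : HIdeal I3 := hideal_span _ (by
    rintro w (rfl | rfl | rfl | rfl)
    · exact ⟨d, hF⟩
    · exact ⟨α0, ha0h⟩
    · exact ⟨α1, ha1h⟩
    · exact ⟨α2, ha2h⟩)
  have hfin := finite_minimalPrimes I3
  obtain ⟨l, hl1, hlT, hlZ⟩ := linear_avoid (hfin.toFinset.erase maxI) (by
    intro q hq
    rw [Finset.mem_erase, Set.Finite.mem_toFinset] at hq
    by_contra hcon
    push Not at hcon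
    apply hq.1
    refine le_antisymm (hideal_le_maxI q (hideal_minimalPrimes _ hI3h q hq.2) hq.2.1.1.ne_top)
      (maxI_le hcon)) Z (fun z hz => (hZ.1 z hz).1)
  refine ⟨![a0, a1, a2], ![G0, G1, G2], ![α0, α1, α2], ![g0, g1, g2], l, ?_, hlZ, ?_, ?_, ?_⟩
  · refine ⟨hd, hF, hFp, ?_, ?_, hl1, ?_⟩
    · intro i
      fin_cases i
      · exact hα0
      · exact hα1
      · exact hα2
    · intro i
      fin_cases i
      · exact ha0h
      · exact ha1h
      · exact ha2h
    · intro w hwF hwa hwl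
      by_contra hw
      have hL := lineIdeal_isPrime w
      have hFL : F ∈ lineIdeal w := mem_lineIdeal_of_form w F d hd hF hwF
      have ha0L : a0 ∈ lineIdeal w := mem_lineIdeal_of_form w a0 α0 hα0 ha0h (hwa 0)
      have ha1L : a1 ∈ lineIdeal w := mem_lineIdeal_of_form w a1 α1 hα1 ha1h (hwa 1)
      have ha2L : a2 ∈ lineIdeal w := mem_lineIdeal_of_form w a2 α2 hα2 ha2h (hwa 2)
      have hlL : l ∈ lineIdeal w := mem_lineIdeal_of_form w l 1 one_pos hl1 hwl
      have hI3L : I3 ≤ lineIdeal w := by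
        rw [hI3, Ideal.span_le]
        rintro v (rfl | rfl | rfl | rfl)
        · exact hFL
        · exact ha0L
        · exact ha1L
        · exact ha2L
      obtain ⟨q3, hq3, hq3L⟩ := Ideal.exists_minimalPrimes_le hI3L
      have hq3max : q3 ≠ maxI := by
        rintro rfl
        have h1 := Ideal.height_mono hq3L
        rw [height_maxI, height_lineIdeal w hw] at h1
        norm_num at h1
      have hlq3 : l ∉ q3 := hlT q3 (by
        rw [Finset.mem_erase, Set.Finite.mem_toFinset]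
        exact ⟨hq3max, hq3⟩)
      have h3L : q3 < lineIdeal w := lt_of_le_of_ne hq3L (by
        rintro rfl
        exact hlq3 hlL)
      have hsub2 : Ideal.span (({F, a0, a1} : Finset S5) : Set S5) ≤ q3 := by
        rw [Ideal.span_le]
        intro v hv
        rw [Finset.mem_coe, Finset.mem_insert, Finset.mem_insert, Finset.mem_singleton] at hv
        rcases hv with rfl | rfl | rfl
        · exact hq3.1.2 (Ideal.subset_span (by simp))
        · exact hq3.1.2 (Ideal.subset_span (by simp))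
        · exact hq3.1.2 (Ideal.subset_span (by simp))
      have : q3.IsPrime := hq3.1.1
      obtain ⟨q2, hq2, hq23⟩ := Ideal.exists_minimalPrimes_le hsub2
      have h23 : q2 < q3 := lt_of_le_of_ne hq23 (by
        rintro rfl
        exact ha2 _ hq2 (hq3.1.2 (Ideal.subset_span (by simp))))
      have hsub1 : Ideal.span (({F, a0} : Finset S5) : Set S5) ≤ q2 := by
        rw [Ideal.span_le]
        intro v hv
        rw [Finset.mem_coe, Finset.mem_insert, Finset.mem_singleton] at hv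
        rcases hv with rfl | rfl
        · exact hq2.1.2 (Ideal.subset_span (by simp))
        · exact hq2.1.2 (Ideal.subset_span (by simp))
      have : q2.IsPrime := hq2.1.1
      obtain ⟨q1, hq1, hq12⟩ := Ideal.exists_minimalPrimes_le hsub1
      have h12 : q1 < q2 := lt_of_le_of_ne hq12 (by
        rintro rfl
        exact ha1 _ hq1 (hq2.1.2 (Ideal.subset_span (by simp))))
      have hF1' : (Ideal.span {F} : Ideal S5) < q1 := by
        refine lt_of_le_of_ne ?_ ?_
        · rw [Ideal.span_singleton_le_iff_mem]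
          exact hq1.1.2 (Ideal.subset_span (by simp))
        · intro h
          apply ha0F
          rw [h]
          exact hq1.1.2 (Ideal.subset_span (by simp))
      have e1 := height_lt hFI hq1.1.1 hF1' hF1
      have e2 := height_lt hq1.1.1 hq2.1.1 h12 e1
      have e3 := height_lt hq2.1.1 hq3.1.1 h23 e2
      have e4 := height_lt hq3.1.1 hL h3L e3
      rw [height_lineIdeal w hw] at e4
      norm_num at e4
  · intro i
    fin_cases i
    · exact ⟨hG0P, hG0F, hG0h⟩
    · exact ⟨hG1P, hG1F, hG1h⟩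
    · exact ⟨hG2P, hG2F, hG2h⟩
  · intro i
    fin_cases i
    · exact hp0
    · exact hp1
    · exact hp2
  · by_cases h0 : a0 ∈ P
    · refine ⟨1, ?_⟩
      have hsub : Ideal.span (({F, a0} : Finset S5) : Set S5) ≤ P := by
        rw [Ideal.span_le]
        intro v hv
        rw [Finset.mem_coe, Finset.mem_insert, Finset.mem_singleton] at hv
        rcases hv with rfl | rfl
        · exact hFP
        · exact h0
      obtain ⟨q1, hq1, hq1P⟩ := Ideal.exists_minimalPrimes_le hsub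
      have hF1' : (Ideal.span {F} : Ideal S5) < q1 := by
        refine lt_of_le_of_ne ?_ ?_
        · rw [Ideal.span_singleton_le_iff_mem]
          exact hq1.1.2 (Ideal.subset_span (by simp))
        · intro h
          apply ha0F
          rw [h]
          exact hq1.1.2 (Ideal.subset_span (by simp))
      have e1 := height_lt hFI hq1.1.1 hF1' hF1
      have hq1P' : q1 = P := by
        by_contra hne
        have e2 := height_lt hq1.1.1 hP (lt_of_le_of_ne hq1P hne) e1
        rw [hP2] at e2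
        norm_num at e2
      have := ha1 q1 hq1
      rw [hq1P'] at this
      exact this
    · exact ⟨0, h0⟩

end Pc2352a
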