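import Pool.Agent.Lib.Pc2352a.FacConn

set_option autoImplicit false

/-!
# FacFlat (1.5h): from a section of low degree to a flat section

`u` a cocycle modulo `F^k`, `A` its connection.
(1) If `s` is a section mod `F^j`, `1 ≤ j ≤ k`, homogeneous of degree `m`, then for each `n : Fin 5`,
`∇_n s := (D n (s i) + A n i * s i)_i` is a section mod `F^(j-1)` (for `u`), homogeneous of degree `m - 1`:
`s_i = u_ij s_j + ε j`, `D s_i = (D u_ij) s_j + u_ij D s_j + ε (j-1)` and `D u_ij ≡ u_ij (A_j - A_i)` mod `F^(k-1)`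
(multiply `Conn.eq` by `u_ij`, `u_ij u_ji ≡ 1` mod `F^k`).
(2) If `s` is a section mod `F^j`, homogeneous of degree `m`, `s 0 ∈ F^r S[1/a_0]`, `r ≤ j`, then all
`s i ∈ F^r S[1/a_i]` (`s_i ≡ u_i0 s_0` mod `F^j`, `Loc_inter`) and `s = F^r s'` with `s'` a section mod `F^(j-r)`,
homogeneous of degree `m - r d`.
(3) `exists_flat` by strong induction on `n`: if `∇_i s` has 0-entry in `F^(j-1) S[1/a_0]` for all `i`, then `s` itself
works (all entries are in `F^(j-1)`, `j - 1 ≥ 1`). Otherwise choose `i` with the 0-entry of `∇_i s` not in `F^(j-1) S[1/a_0]`, let `r < j - 1`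
be maximal with the 0-entry in `F^r S[1/a_0]`, `∇_i s = F^r s'`, `s'` a section mod `F^(j-1-r)`, not zero mod `F`, of degree
`m' = m - 1 - r d`. By `hB`, `m' ≥ B`, so `n' := m' - B < n` (`n ≥ m - B`), and `j - 1 - r ≥ n' + 2` since `d ≥ 1`. Apply the induction hypothesis.
-/

namespace Pc2352a

open MvPolynomial

namespace FacFlat

section
variable {K : Type} [Field K] [Algebra S5 K] [IsFractionRing S5 K]
variable {D : Fin 5 → Derivation ℤ K K}
  (hD : ∀ i p, D i (algebraMap S5 K p) = algebraMap S5 K (pderiv i p))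
variable {F : S5} {d : ℕ} {a : Fin 3 → S5} {α : Fin 3 → ℕ} {l : S5} {γ : Fin 3 → ℤ} {k : ℕ}
  {u : Fin 3 → Fin 3 → K} {A : Fin 5 → Fin 3 → K}

omit [IsFractionRing S5 K] in
/-- the covariant derivative of a section -/
def nab (D : Fin 5 → Derivation ℤ K K) (A : Fin 5 → Fin 3 → K) (n : Fin 5) (s : Fin 3 → K) :
    Fin 3 → K := fun i => D n (s i) + A n i * s i

lemma not_dvd_mul (C : Cov F d a α l) (i j : Fin 3) : ¬ F ∣ a i * a j := by
  intro h
  rcases C.prime.dvd_or_dvd h with h | h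
  · exact C.not_dvd i h
  · exact C.not_dvd j h

lemma up_left {i j : Fin 3} {e : ℕ} {x : K} (hx : x ∈ Loc K F (a i) e) :
    x ∈ Loc K F (a i * a j) e :=
  Loc_of_dvd_pow (n := 1) (by rw [pow_one]; exact Dvd.intro _ rfl) hx

lemma up_right {i j : Fin 3} {e : ℕ} {x : K} (hx : x ∈ Loc K F (a j) e) :
    x ∈ Loc K F (a i * a j) e :=
  Loc_of_dvd_pow (n := 1) (by rw [pow_one]; exact Dvd.intro_left _ rfl) hx

include hD in
lemma nab_sec (C : Cov F d a α l) (hu : Coc D F a γ k u) (hA : Conn D F a k u A) {j : ℕ}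
    (hj : 1 ≤ j) (hjk : j ≤ k) {s : Fin 3 → K} (hs : Sec F a u j s) (n : Fin 5) :
    Sec F a u (j - 1) (nab D A n s) := by
  have hane : ∀ i, a i ≠ 0 := C.ne_zero
  refine ⟨fun i => ?_, fun i i' => ?_⟩
  · exact Submodule.add_mem _ (D_mem_Loc0 D hD (hane i) n (hs.1 i))
      (Loc_mul_left (hA.mem n i) (hs.1 i))
  · have hne : a i * a i' ≠ 0 := mul_ne_zero (hane i) (hane i')
    have he : s i - u i i' * s i' ∈ Loc K F (a i * a i') ((j - 1) + 1) := by
      rw [Nat.sub_add_cancel hj]; exact hs.2 i i'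
    have hDe : D n (s i - u i i' * s i') ∈ Loc K F (a i * a i') (j - 1) :=
      D_mem_Loc D hD hne n he
    have hth := hA.eq n i i'
    have hcoc : u i i' * u i' i - u i i ∈ Loc K F (a i * a i') k :=
      Loc_of_dvd_pow (n := 2) ⟨a i', by ring⟩ (hu.coc i i' i)
    rw [hu.one i] at hcoc
    have hz : D n (u i i') - u i i' * (A n i' - A n i) ∈ Loc K F (a i * a i') (j - 1) := by
      have e1 : D n (u i i') - u i i' * (A n i' - A n i) =
          u i i' * (u i' i * D n (u i i') - (A n i' - A n i)) -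
            (u i i' * u i' i - 1) * D n (u i i') := by ring
      rw [e1]
      refine Submodule.sub_mem _ ?_ ?_
      · exact Loc_anti (by omega) (Loc_mul_left (hu.mem i i') hth)
      · exact Loc_anti (by omega)
          (Loc_mul_right hcoc (D_mem_Loc0 D hD hne n (hu.mem i i')))
    have e2 : nab D A n s i - u i i' * nab D A n s i' =
        D n (s i - u i i' * s i') + s i' * (D n (u i i') - u i i' * (A n i' - A n i)) +
          A n i * (s i - u i i' * s i') := by
      simp only [nab, map_sub, Derivation.leibniz, smul_eq_mul]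
      ring
    rw [e2]
    refine Submodule.add_mem _ (Submodule.add_mem _ hDe ?_) ?_
    · exact Loc_mul_left (up_right (hs.1 i')) hz
    · exact Loc_mul_left (up_left (hA.mem n i)) (Loc_anti (by omega) he)

include hD in
lemma nab_hom (hA : Conn D F a k u A) {m : ℤ} {s : Fin 3 → K} (hs : SHom D γ m s) (n : Fin 5) :
    SHom D γ (m - 1) (nab D A n s) := by
  intro i
  have h1 : IsHom D (m - γ i - 1) (D n (s i)) := (hs i).deriv hD n
  have h2 : IsHom D (-1 + (m - γ i)) (A n i * s i) := (hA.hom n i).mul (hs i)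
  have e1 : m - 1 - γ i = m - γ i - 1 := by ring
  have e2 : -1 + (m - γ i) = m - γ i - 1 := by ring
  rw [e1]
  rw [e2] at h2
  exact h1.add h2

lemma sec_mem (C : Cov F d a α l) (hu : Coc D F a γ k u) {j r : ℕ} (hr : r ≤ j)
    {s : Fin 3 → K} (hs : Sec F a u j s) (h0 : s 0 ∈ Loc K F (a 0) r) (i : Fin 3) :
    s i ∈ Loc K F (a i) r := by
  refine Loc_inter C.prime (C.not_dvd i) (not_dvd_mul C i 0) (hs.1 i) ?_
  have e : s i = (s i - u i 0 * s 0) + u i 0 * s 0 := by ring
  rw [e]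
  exact Submodule.add_mem _ (Loc_anti hr (hs.2 i 0)) (Loc_mul_left (hu.mem i 0) (up_right h0))

include hD in
lemma sec_div (C : Cov F d a α l) (hu : Coc D F a γ k u) {j r : ℕ} (hr : r ≤ j)
    {s : Fin 3 → K} (hs : Sec F a u j s) (h0 : s 0 ∈ Loc K F (a 0) r) {m : ℤ}
    (hm : SHom D γ m s) :
    ∃ s' : Fin 3 → K, (∀ i, s i = algebraMap S5 K (F ^ r) * s' i) ∧ Sec F a u (j - r) s' ∧
      SHom D γ (m - r * d) s' := by
  have hF0 : F ≠ 0 := C.prime.ne_zero
  have h := fun i => exists_of_mem_Loc hF0 (sec_mem C hu hr hs h0 i)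
  choose s' hs' hss using h
  refine ⟨s', hss, ⟨hs', fun i i' => ?_⟩, fun i => ?_⟩
  · have h1 := hs.2 i i'
    have e1 : s i - u i i' * s i' = algebraMap S5 K (F ^ r) * (s' i - u i i' * s' i') := by
      rw [hss i, hss i']; ring
    rw [e1] at h1
    have e2 : j = r + (j - r) := by omega
    rw [e2] at h1
    exact (F_mul_mem_iff hF0).1 h1
  · have h1 := hm i
    rw [hss i] at h1
    have hFr : IsHom D ((d * r : ℕ) : ℤ) (algebraMap S5 K (F ^ r)) := IsHom.algMap hD (C.hF.pow r)
    have e : m - γ i = ((d * r : ℕ) : ℤ) + (m - r * d - γ i) := by push_cast; ring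
    rw [e] at h1
    exact IsHom.of_mul hD hFr (algMap_ne (pow_ne_zero r hF0)) h1

end

end FacFlat

open FacFlat in
theorem exists_flat {K : Type} [Field K] [Algebra S5 K] [IsFractionRing S5 K]
    {D : Fin 5 → Derivation ℤ K K}
    (hD : ∀ i p, D i (algebraMap S5 K p) = algebraMap S5 K (pderiv i p))
    {F : S5} {d : ℕ} {a : Fin 3 → S5} {α : Fin 3 → ℕ} {l : S5} (C : Cov F d a α l)
    (γ : Fin 3 → ℤ) (k : ℕ) (hk : 1 ≤ k) (u : Fin 3 → Fin 3 → K) (hu : Coc D F a γ k u)
    (A : Fin 5 → Fin 3 → K) (hA : Conn D F a k u A) (B : ℤ)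
    (hB : ∀ (m : ℤ) (s : Fin 3 → K), Sec F a u 1 s → SHom D γ m s → s 0 ∉ Loc K F (a 0) 1 →
      B ≤ m)
    (n j : ℕ) (hj : n + 2 ≤ j) (hjk : j ≤ k) (m : ℤ) (hm : m ≤ B + n) (s : Fin 3 → K)
    (hs : Sec F a u j s) (hsm : SHom D γ m s) (hs0 : s 0 ∉ Loc K F (a 0) 1) :
    ∃ (m' : ℤ) (s' : Fin 3 → K), Sec F a u 2 s' ∧ SHom D γ m' s' ∧ s' 0 ∉ Loc K F (a 0) 1 ∧
      ∀ (i : Fin 5) (q : Fin 3), D i (s' q) + A i q * s' q ∈ Loc K F (a q) 1 := by
  classical
  have hF0 : F ≠ 0 := C.prime.ne_zero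
  induction n using Nat.strong_induction_on generalizing j m s with
  | _ n ih =>
    by_cases hall : ∀ i : Fin 5, nab D A i s 0 ∈ Loc K F (a 0) (j - 1)
    · refine ⟨m, s, Sec.mono (by omega) hs, hsm, hs0, fun i q => ?_⟩
      have h1 := sec_mem C hu (le_refl (j - 1)) (nab_sec hD C hu hA (by omega) hjk hs i)
        (hall i) q
      exact Loc_anti (by omega) h1
    · push Not at hall
      obtain ⟨i, hi⟩ := hall
      set t := nab D A i s with ht
      have htS : Sec F a u (j - 1) t := nab_sec hD C hu hA (by omega) hjk hs i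
      have htm : SHom D γ (m - 1) t := nab_hom hD hA hsm i
      have hex : ∃ r, t 0 ∉ Loc K F (a 0) r := ⟨j - 1, hi⟩
      obtain ⟨r, hr⟩ : ∃ r, Nat.find hex = r + 1 := by
        refine Nat.exists_eq_succ_of_ne_zero ?_
        intro h0
        have := Nat.find_spec hex
        rw [h0] at this
        exact this (htS.1 0)
      have hr1 : t 0 ∉ Loc K F (a 0) (r + 1) := by
        have := Nat.find_spec hex
        rwa [hr] at this
      have hr0 : t 0 ∈ Loc K F (a 0) r := by
        by_contra hcon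
        have := Nat.find_min' hex hcon
        omega
      have hrj : r + 1 ≤ j - 1 := by
        have := Nat.find_min' hex hi
        omega
      obtain ⟨s', hss, hsS, hsh⟩ := sec_div hD C hu (by omega : r ≤ j - 1) htS hr0 htm
      have hs'0 : s' 0 ∉ Loc K F (a 0) 1 := by
        intro hcon
        apply hr1
        rw [hss 0]
        exact (F_mul_mem_iff hF0).2 hcon
      have hBm := hB _ s' (Sec.mono (by omega) hsS) hsh hs'0
      have hdr : (r : ℤ) ≤ r * d := by
        have hd : (1 : ℤ) ≤ d := by exact_mod_cast C.dpos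
        nlinarith
      obtain ⟨n', hn'⟩ : ∃ n' : ℕ, (n' : ℤ) = m - 1 - r * d - B :=
        ⟨(m - 1 - r * d - B).toNat, Int.toNat_of_nonneg (by linarith)⟩
      have hjZ : (n : ℤ) + 2 ≤ j := by exact_mod_cast hj
      have hsub : ((j - 1 - r : ℕ) : ℤ) = (j : ℤ) - 1 - r := by omega
      have hn'n : n' < n := by
        have : (n' : ℤ) < n := by linarith
        exact_mod_cast this
      have hj' : n' + 2 ≤ j - 1 - r := by
        have : (n' : ℤ) + 2 ≤ ((j - 1 - r : ℕ) : ℤ) := by rw [hsub]; linarith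
        exact_mod_cast this
      exact ih n' hn'n (j - 1 - r) hj' (by omega) (m - 1 - r * d) (by linarith) s' hsS hsh hs'0

end Pc2352a
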