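import Pool.Agent.Lib.Pc2352a.FacNoeth
import Pool.Agent.Lib.Pc2352a.FacFlat

set_option autoImplicit false

/-!
# FacFormal (1.2h): a compatible system of cocycles modulo all `F^k` is trivial modulo `F`

`exists_sections` for `U` (degree `m⁺`) and for the transposed system (`Coc.tr`, degrees `-γ`; degree `m⁻`).
Lower bound: if `s` is a section of `U 1` mod `F` of degree `m`, not zero mod `F`, and `x` a section of `tr (U 1)` mod `F` of
degree `m⁻`, not zero mod `F`, then `s i x i` agree mod `F` (`s_i x_i ≡ u_ij s_j x_i ≡ s_j x_j`), so by `H0hom` there is `f : S5`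
with `f ≡ s_i x_i`, homogeneous of degree `m + m⁻`, not divisible by `F` (`Loc_prime`), so `m + m⁻ ≥ 0` (`IsHom.poly`). So `hB` holds with
`B = - m⁻`, and for the dual with `B = - m⁺`. (The sections mod `F` for `U k` and `U 1` are the same: `Sec.congr`, `U k ≡ U 1` mod `F`
by induction.) Take `k = n + 2` with `n ≥ m⁺ + m⁻`, `A` a connection of `U k` (`exists_conn`), `-A` for the dual
(`Conn.tr`). `exists_flat` twice: `s`, `x` sections mod `F^2` of `U k`, `tr (U k)`, not zero mod `F`, with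
`D s + A s ≡ 0`, `D x - A x ≡ 0` mod `F`. `H0hom` with `k = 2`: `f ≡ s_i x_i` mod `F^2 S[1/a_i]`, homogeneous of degree `e`, not divisible by `F`.
`D_n f ≡ D_n (s_i x_i) = (D_n s_i + A s_i) x_i + s_i (D_n x_i - A x_i) ≡ 0` mod `F` (`D_mem_Loc`: the derivative of an element
of `F^2 S[1/a_i]` is in `F S[1/a_i]`). So `F ∣ pderiv n f` for all `n` (`algMap_mem_iff`), by Euler `F ∣ e f`, so `e = 0` and `f` is a
nonzero constant. Divide `x` by it.
-/

namespace Pc2352a

open MvPolynomial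

namespace FacFormal

section
variable {K : Type} [Field K] [Algebra S5 K]
variable {F : S5} {a : Fin 3 → S5} {k : ℕ} {u : Fin 3 → Fin 3 → K} {s x : Fin 3 → K}
  {D : Fin 5 → Derivation ℤ K K} {γ : Fin 3 → ℤ} {m m' : ℤ}

lemma Loc_comm {g h : S5} {z : K} (hz : z ∈ Loc K F (g * h) k) : z ∈ Loc K F (h * g) k := by
  rwa [mul_comm h g]

variable [IsFractionRing S5 K]

lemma left_mem {g h : S5} {z : K} (hz : z ∈ Loc K F g k) : z ∈ Loc K F (g * h) k :=
  Loc_of_dvd_pow (n := 1) (by rw [pow_one]; exact dvd_mul_right _ _) hz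

lemma right_mem {g h : S5} {z : K} (hz : z ∈ Loc K F h k) : z ∈ Loc K F (g * h) k :=
  Loc_of_dvd_pow (n := 1) (by rw [pow_one]; exact dvd_mul_left _ _) hz

lemma pair_agree (hs : Sec F a u k s) (hx : Sec F a (tr u) k x) (i j : Fin 3) :
    s i * x i - s j * x j ∈ Loc K F (a i * a j) k := by
  have e : s i * x i - s j * x j = (s i - u i j * s j) * x i - s j * (x j - tr u j i * x i) := by
    simp only [tr]; ring
  rw [e]
  refine Submodule.sub_mem _ (Loc_mul_right (hs.2 i j) (left_mem (hx.1 i))) ?_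
  exact Loc_mul_left (right_mem (hs.1 j)) (Loc_comm (hx.2 j i))

lemma pair_hom (hs : SHom D γ m s) (hx : SHom D (fun i => - γ i) m' x) (i : Fin 3) :
    IsHom D (m + m') (s i * x i) := by
  have h := (hs i).mul (hx i)
  have e : m + m' = (m - γ i) + (m' - - γ i) := by ring
  rw [e]; exact h

lemma pair {d : ℕ} {α : Fin 3 → ℕ} {l : S5}
    (hD : ∀ i p, D i (algebraMap S5 K p) = algebraMap S5 K (pderiv i p))
    (C : Cov F d a α l) (hk : 1 ≤ k) (hs : Sec F a u k s) (hx : Sec F a (tr u) k x)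
    (hs' : SHom D γ m s) (hx' : SHom D (fun i => - γ i) m' x) (hs0 : s 0 ∉ Loc K F (a 0) 1)
    (hx0 : x 0 ∉ Loc K F (a 0) 1) :
    ∃ (f : S5) (e : ℕ), (e : ℤ) = m + m' ∧ f.IsHomogeneous e ∧ ¬ F ∣ f ∧
      ∀ i, s i * x i - algebraMap S5 K f ∈ Loc K F (a i) k := by
  obtain ⟨f, hf, hfs⟩ := H0hom hD C k (fun i => s i * x i)
    (fun i => Loc_mul_left (hs.1 i) (hx.1 i)) (fun i j => pair_agree hs hx i j) (m + m')
    (fun i => pair_hom hs' hx' i)
  have hFf : ¬ F ∣ f := by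
    intro h
    have h1 : algebraMap S5 K f ∈ Loc K F (a 0) 1 := by
      rw [algMap_mem_iff C.prime (C.not_dvd 0), pow_one]; exact h
    have h2 := Submodule.add_mem _ (Loc_anti hk (hfs 0)) h1
    rw [sub_add_cancel] at h2
    exact (Loc_prime C.prime (C.not_dvd 0) (hs.1 0) (hx.1 0) h2).elim hs0 hx0
  have hf0 : f ≠ 0 := fun h => hFf (h ▸ dvd_zero F)
  obtain ⟨e, he, hfe⟩ := IsHom.poly hD hf hf0
  exact ⟨f, e, he, hfe, hFf, hfs⟩

lemma const_of_deriv {d : ℕ} {α : Fin 3 → ℕ} {l : S5} (C : Cov F d a α l) {f : S5} {e : ℕ}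
    (hf : f.IsHomogeneous e) (hFf : ¬ F ∣ f) (h : ∀ i, F ∣ pderiv i f) :
    ∃ c : ℂ, c ≠ 0 ∧ f = MvPolynomial.C c := by
  have hE : ∑ i, X i * pderiv i f = e • f := hf.sum_X_mul_pderiv
  have h1 : F ∣ e • f := by
    rw [← hE]
    exact Finset.dvd_sum fun i _ => (h i).mul_left _
  have he : e = 0 := by
    by_contra he
    apply hFf
    have h2 : f = MvPolynomial.C ((e : ℂ)⁻¹) * (e • f) := by
      rw [nsmul_eq_mul, ← mul_assoc, ← map_natCast (MvPolynomial.C : ℂ →+* S5) e, ← map_mul,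
        inv_mul_cancel₀ (Nat.cast_ne_zero.mpr he), map_one, one_mul]
    rw [h2]
    exact h1.mul_left _
  subst he
  have h3 : f = MvPolynomial.C (coeff 0 f) :=
    totalDegree_eq_zero_iff_eq_C.mp (Nat.le_zero.mp hf.totalDegree_le)
  refine ⟨coeff 0 f, fun h0 => ?_, h3⟩
  apply hFf
  rw [h3, h0, map_zero]
  exact dvd_zero _

end

end FacFormal

open FacFormal in
theorem formal_trivial {K : Type} [Field K] [Algebra S5 K] [IsFractionRing S5 K]
    {D : Fin 5 → Derivation ℤ K K}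
    (hD : ∀ i p, D i (algebraMap S5 K p) = algebraMap S5 K (pderiv i p))
    {F : S5} {d : ℕ} {a : Fin 3 → S5} {α : Fin 3 → ℕ} {l : S5} (C : Cov F d a α l)
    (γ : Fin 3 → ℤ) (U : ℕ → Fin 3 → Fin 3 → K) (hU : ∀ k, 1 ≤ k → Coc D F a γ k (U k))
    (hcomp : ∀ k, 1 ≤ k → ∀ i j, U (k + 1) i j - U k i j ∈ Loc K F (a i * a j) k) :
    ∃ (m : ℤ) (s x : Fin 3 → K), Sec F a (U 1) 1 s ∧ SHom D γ m s ∧
      Sec F a (tr (U 1)) 1 x ∧ ∀ i, s i * x i - 1 ∈ Loc K F (a i) 1 := by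
  have hU1 : ∀ k, 1 ≤ k → ∀ i q, U k i q - U 1 i q ∈ Loc K F (a i * a q) 1 := by
    intro k hk
    induction k, hk using Nat.le_induction with
    | base => intro i q; simp
    | succ k hjk ih =>
      intro i q
      have h := Submodule.add_mem _ (Loc_anti hjk (hcomp k (by omega) i q)) (ih i q)
      convert h using 1
      ring
  obtain ⟨mp, hmp⟩ := exists_sections hD C γ U hU hcomp
  obtain ⟨mm, hmm⟩ := exists_sections hD C (fun i => - γ i) (fun k => tr (U k))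
    (fun k hk => (hU k hk).tr) (fun k hk i j => Loc_comm (hcomp k hk j i))
  obtain ⟨n, hn⟩ : ∃ n : ℕ, mp + mm ≤ n := ⟨(mp + mm).toNat, Int.self_le_toNat _⟩
  obtain ⟨s, hs, hsm, hs0⟩ := hmp (n + 2) (by omega)
  obtain ⟨x, hx, hxm, hx0⟩ := hmm (n + 2) (by omega)
  have hUk := hU (n + 2) (by omega)
  obtain ⟨A, hA⟩ := exists_conn hD C (by omega) hUk
  have hA' := Conn.tr hD C hUk hA
  have hB : ∀ (m : ℤ) (s' : Fin 3 → K), Sec F a (U (n + 2)) 1 s' → SHom D γ m s' →
      s' 0 ∉ Loc K F (a 0) 1 → -mm ≤ m := by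
    intro m s' h1 h2 h3
    obtain ⟨f, e, he, -⟩ := pair hD C le_rfl h1 (Sec.mono (by omega : 1 ≤ n + 2) hx) h2 hxm h3 hx0
    omega
  have hB' : ∀ (m : ℤ) (x' : Fin 3 → K), Sec F a (tr (U (n + 2))) 1 x' →
      SHom D (fun i => - γ i) m x' → x' 0 ∉ Loc K F (a 0) 1 → -mp ≤ m := by
    intro m x' h1 h2 h3
    obtain ⟨f, e, he, -⟩ := pair hD C le_rfl (Sec.mono (by omega : 1 ≤ n + 2) hs) h1 hsm h2 hs0 h3
    omega
  obtain ⟨m1, s1, hs1, hsm1, hs10, hfl⟩ := exists_flat hD C γ (n + 2) (by omega) (U (n + 2)) hUk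
    A hA (-mm) hB n (n + 2) le_rfl le_rfl mp (by omega) s hs hsm hs0
  obtain ⟨m2, x1, hx1, hxm1, hx10, hfl'⟩ := exists_flat hD C (fun i => - γ i) (n + 2) (by omega)
    (tr (U (n + 2))) hUk.tr (fun m i => - A m i) hA' (-mp) hB' n (n + 2) le_rfl le_rfl mm
    (by omega) x hx hxm hx0
  obtain ⟨f, e, he, hfe, hFf, hfs⟩ := pair hD C (by omega : 1 ≤ 2) hs1 hx1 hsm1 hxm1 hs10 hx10
  have hder : ∀ i, F ∣ pderiv i f := by
    intro i
    have h1 := D_mem_Loc D hD (C.ne_zero 0) i (hfs 0)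
    rw [map_sub, hD, Derivation.leibniz, smul_eq_mul, smul_eq_mul] at h1
    have h2 := Submodule.add_mem _ (Loc_mul_right (hfl i 0) (hx1.1 0))
      (Loc_mul_left (hs1.1 0) (hfl' i 0))
    have h3 := Submodule.sub_mem _ h2 h1
    have h4 : algebraMap S5 K (pderiv i f) ∈ Loc K F (a 0) 1 := by
      convert h3 using 1
      ring
    rw [algMap_mem_iff C.prime (C.not_dvd 0), pow_one] at h4
    exact h4
  obtain ⟨c, hc, rfl⟩ := const_of_deriv C hfe hFf hder
  have hcc : algebraMap S5 K (MvPolynomial.C c⁻¹) * algebraMap S5 K (MvPolynomial.C c) = 1 := by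
    rw [← map_mul, ← map_mul, inv_mul_cancel₀ hc, map_one, map_one]
  refine ⟨m1, s1, fun i => algebraMap S5 K (MvPolynomial.C c⁻¹) * x1 i, ?_, hsm1, ?_, fun i => ?_⟩
  · refine Sec.congr C (fun i j => ?_) (Sec.mono (by omega : 1 ≤ 2) hs1)
    have h := Submodule.neg_mem _ (hU1 (n + 2) (by omega) i j)
    convert h using 1
    ring
  · have h5 : Sec F a (tr (U 1)) 1 x1 := by
      refine Sec.congr C (fun i j => ?_) (Sec.mono (by omega : 1 ≤ 2) hx1)
      have h := Submodule.neg_mem _ (hU1 (n + 2) (by omega) j i)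
      refine Loc_comm ?_
      convert h using 1
      simp only [tr]; ring
    refine ⟨fun i => Loc_mul_left (algMap_mem _ _ _) (h5.1 i), fun i j => ?_⟩
    have h6 := Loc_mul_left (algMap_mem F (a i * a j) (MvPolynomial.C c⁻¹)) (h5.2 i j)
    convert h6 using 1
    ring
  · have h7 := Loc_mul_left (algMap_mem F (a i) (MvPolynomial.C c⁻¹)) (hfs i)
    have h8 := Loc_anti (by omega : 1 ≤ 2) h7
    convert h8 using 1
    rw [mul_sub, hcc]; ring

end Pc2352a
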