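import Pool.Agent.Lib.Pc2352a.FacLoc

set_option autoImplicit false

/-!
# FacHom (1h): derivations of the fraction field and the Euler grading `IsHom`

* `exists_deriv`: the partial derivatives extend to any fraction field `K` of `S5`
  (lift the ring hom `p ↦ p + (pderiv i p) ε` to `K → DualNumber K` / `TrivSqZeroExt K K` by
  `IsLocalization.lift`, or quotient rule by hand).
* `deriv_comm`: `D i ∘ D j - D j ∘ D i` is a derivation (commutator) that vanishes on `S5`, hence on `K`.
* `IsHom` closure properties: Leibniz. `IsHom.deriv`: `Σ X_j D_j (D_i x) = D_i (Σ X_j D_j x) - D_i x`.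
* `IsHom_algMap_iff`: Mathlib has Euler's identity `IsHomogeneous.sum_X_mul_pderiv`; conversely if
  `Σ X_i pderiv i p = m p` then every monomial of `p` has degree `m` (compare coefficients, char 0).
-/

namespace Pc2352a

open MvPolynomial

namespace FacHomAux

variable {K : Type} [Field K] [Algebra S5 K] [IsFractionRing S5 K]

lemma deriv_zero_of (E : Derivation ℤ K K) (hE : ∀ p : S5, E (algebraMap S5 K p) = 0) (x : K) :
    E x = 0 := by
  obtain ⟨a, b, hb, rfl⟩ := IsFractionRing.div_surjective (A := S5) x
  have hb' : algebraMap S5 K b ≠ 0 := by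
    intro h
    exact (nonZeroDivisors.ne_zero hb)
      ((IsFractionRing.injective S5 K) (by rw [h, map_zero]))
  have h1 : algebraMap S5 K a / algebraMap S5 K b * algebraMap S5 K b = algebraMap S5 K a := by
    field_simp
  have h2 := congrArg E h1
  rw [E.leibniz, hE, hE, smul_zero, zero_add, smul_eq_mul] at h2
  exact (mul_eq_zero.1 h2).resolve_left hb'

lemma pderiv_comm (i j : Fin 5) (p : S5) :
    pderiv i (pderiv j p) = pderiv j (pderiv i p) := by
  have h : ⁅(pderiv i : Derivation ℂ S5 S5), (pderiv j : Derivation ℂ S5 S5)⁆ = 0 := by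
    apply MvPolynomial.derivation_ext
    intro k
    rw [Derivation.commutator_apply, pderiv_X, pderiv_X]
    simp only [Derivation.zero_apply]
    have h0 : ∀ (a b : Fin 5) (c : Fin 5), pderiv a ((Pi.single b (1 : S5) : Fin 5 → S5) c) = 0 := by
      intro a b c
      by_cases hbc : c = b
      · subst hbc
        rw [Pi.single_eq_same, pderiv_one]
      · rw [Pi.single_eq_of_ne hbc, map_zero]
    rw [h0, h0, sub_zero]
  have h2 := congrArg (fun D : Derivation ℂ S5 S5 => D p) h
  simp only [Derivation.commutator_apply, Derivation.zero_apply] at h2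
  exact sub_eq_zero.1 h2

lemma charZero (K : Type) [Field K] [Algebra S5 K] [IsFractionRing S5 K] : CharZero K :=
  charZero_of_injective_algebraMap (IsFractionRing.injective S5 K)

/-- the Euler operator on monomials -/
lemma coeff_euler (p : S5) (s : Fin 5 →₀ ℕ) :
    coeff s (∑ i, X i * pderiv i p) = (s.degree : ℂ) * coeff s p := by
  induction p using MvPolynomial.induction_on' with
  | monomial t a =>
    have h := (isHomogeneous_monomial (σ := Fin 5) (R := ℂ) (d := t) a
      (n := t.degree) rfl).sum_X_mul_pderiv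
    rw [h, coeff_smul, nsmul_eq_mul]
    by_cases hst : t = s
    · subst hst
      rfl
    · rw [coeff_monomial, if_neg hst, mul_zero, mul_zero]
  | add p q hp hq =>
    simp only [map_add, mul_add, Finset.sum_add_distrib, coeff_add]
    rw [hp, hq]

end FacHomAux

section
variable {K : Type} [Field K] [Algebra S5 K] [IsFractionRing S5 K]

theorem exists_deriv (K : Type) [Field K] [Algebra S5 K] [IsFractionRing S5 K] :
    ∃ D : Fin 5 → Derivation ℤ K K,
      ∀ i p, D i (algebraMap S5 K p) = algebraMap S5 K (pderiv i p) := by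
  suffices h : ∀ i : Fin 5, ∃ D : Derivation ℤ K K,
      ∀ p, D (algebraMap S5 K p) = algebraMap S5 K (pderiv i p) by
    choose D hD using h
    exact ⟨D, hD⟩
  intro i
  let φ : S5 →+* DualNumber K :=
    { toFun := fun p => TrivSqZeroExt.inl (algebraMap S5 K p) +
        TrivSqZeroExt.inr (algebraMap S5 K (pderiv i p))
      map_one' := by
        rw [pderiv_one, map_one, map_zero, TrivSqZeroExt.inr_zero, add_zero]
        rfl
      map_mul' := by
        intro p q
        apply TrivSqZeroExt.ext
        · simp only [TrivSqZeroExt.fst_add, TrivSqZeroExt.fst_inl, TrivSqZeroExt.fst_inr,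
            add_zero, TrivSqZeroExt.fst_mul, map_mul]
        · simp only [TrivSqZeroExt.fst_add, TrivSqZeroExt.fst_inl, TrivSqZeroExt.fst_inr,
            TrivSqZeroExt.snd_add, TrivSqZeroExt.snd_inl, TrivSqZeroExt.snd_inr,
            add_zero, zero_add, TrivSqZeroExt.snd_mul]
          rw [pderiv_mul, map_add, map_mul, map_mul, smul_eq_mul, op_smul_eq_mul]
          ring
      map_zero' := by
        rw [map_zero, map_zero, map_zero, TrivSqZeroExt.inr_zero, TrivSqZeroExt.inl_zero, add_zero]
      map_add' := by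
        intro p q
        rw [map_add, map_add, map_add, TrivSqZeroExt.inl_add, TrivSqZeroExt.inr_add]
        abel }
  have hφ : ∀ p, φ p = TrivSqZeroExt.inl (algebraMap S5 K p) +
        TrivSqZeroExt.inr (algebraMap S5 K (pderiv i p)) := fun p => rfl
  have hunit : ∀ y : nonZeroDivisors S5, IsUnit (φ y) := by
    intro y
    rw [TrivSqZeroExt.isUnit_iff_isUnit_fst, hφ]
    simp only [TrivSqZeroExt.fst_add, TrivSqZeroExt.fst_inl, TrivSqZeroExt.fst_inr, add_zero]
    exact IsLocalization.map_units K y
  let ψ : K →+* DualNumber K := IsLocalization.lift hunit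
  have hψ : ∀ p, ψ (algebraMap S5 K p) = φ p := fun p => IsLocalization.lift_eq hunit p
  have hfst : ∀ x, (ψ x).fst = x := by
    have h1 : (TrivSqZeroExt.fstHom ℤ K K : DualNumber K →+* K).comp ψ = RingHom.id K := by
      apply IsLocalization.ringHom_ext (nonZeroDivisors S5)
      ext p
      · simp only [RingHom.comp_apply, RingHom.id_apply]
        rw [hψ, hφ]
        simp
      · simp only [RingHom.comp_apply, RingHom.id_apply]
        rw [hψ, hφ]
        simp
    intro x
    exact congrArg (fun F : K →+* K => F x) h1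
  refine ⟨Derivation.mk' (AddMonoidHom.toIntLinearMap
    { toFun := fun x => (ψ x).snd
      map_zero' := by rw [map_zero, TrivSqZeroExt.snd_zero]
      map_add' := by intro x y; rw [map_add, TrivSqZeroExt.snd_add] }) ?_, ?_⟩
  · intro x y
    change (ψ (x * y)).snd = x • (ψ y).snd + y • (ψ x).snd
    rw [map_mul, TrivSqZeroExt.snd_mul, hfst, hfst, op_smul_eq_mul, smul_eq_mul,
      smul_eq_mul, mul_comm ((ψ x).snd) y]
  · intro p
    change (ψ (algebraMap S5 K p)).snd = _
    rw [hψ, hφ]
    simp only [TrivSqZeroExt.snd_add, TrivSqZeroExt.snd_inl, TrivSqZeroExt.snd_inr, zero_add]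

variable {D : Fin 5 → Derivation ℤ K K}
  (hD : ∀ i p, D i (algebraMap S5 K p) = algebraMap S5 K (pderiv i p))
variable {x y : K} {m n : ℤ}

include hD in
theorem deriv_comm (i j : Fin 5) (x : K) : D i (D j x) = D j (D i x) := by
  have h := FacHomAux.deriv_zero_of ⁅D i, D j⁆ (by
    intro p
    rw [Derivation.commutator_apply, hD, hD, hD, hD, FacHomAux.pderiv_comm, sub_self]) x
  rw [Derivation.commutator_apply] at h
  exact sub_eq_zero.1 h

omit [IsFractionRing S5 K] in
lemma IsHom.zero (m : ℤ) : IsHom D m (0 : K) := by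
  simp [IsHom]

omit [IsFractionRing S5 K] in
lemma IsHom.one : IsHom D 0 (1 : K) := by
  simp [IsHom]

omit [IsFractionRing S5 K] in
lemma IsHom.add (hx : IsHom D m x) (hy : IsHom D m y) : IsHom D m (x + y) := by
  unfold IsHom at *
  simp only [map_add, mul_add, Finset.sum_add_distrib, hx, hy]

omit [IsFractionRing S5 K] in
lemma IsHom.neg (hx : IsHom D m x) : IsHom D m (-x) := by
  unfold IsHom at *
  simp only [map_neg, mul_neg, Finset.sum_neg_distrib, hx]

omit [IsFractionRing S5 K] in
lemma IsHom.sub (hx : IsHom D m x) (hy : IsHom D m y) : IsHom D m (x - y) := by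
  rw [sub_eq_add_neg]
  exact hx.add hy.neg

omit [IsFractionRing S5 K] in
/-- Leibniz rule for the Euler operator -/
lemma FacHomAux.euler_mul (D : Fin 5 → Derivation ℤ K K) (x y : K) :
    ∑ i, algebraMap S5 K (X i) * D i (x * y) =
      x * (∑ i, algebraMap S5 K (X i) * D i y) + y * (∑ i, algebraMap S5 K (X i) * D i x) := by
  rw [Finset.mul_sum, Finset.mul_sum, ← Finset.sum_add_distrib]
  apply Finset.sum_congr rfl
  intro i _
  rw [Derivation.leibniz, smul_eq_mul, smul_eq_mul]
  ring

omit [IsFractionRing S5 K] in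
lemma IsHom.mul (hx : IsHom D m x) (hy : IsHom D n y) : IsHom D (m + n) (x * y) := by
  unfold IsHom at *
  rw [FacHomAux.euler_mul, hx, hy]
  push_cast
  ring

omit [IsFractionRing S5 K] in
lemma IsHom.inv (hx : IsHom D m x) : IsHom D (-m) x⁻¹ := by
  unfold IsHom at *
  by_cases h0 : x = 0
  · subst h0; simp
  have h1 : ∀ i, algebraMap S5 K (X i) * D i x⁻¹ =
      -(x⁻¹ ^ 2) * (algebraMap S5 K (X i) * D i x) := by
    intro i
    rw [Derivation.leibniz_inv, smul_eq_mul]
    ring
  rw [Finset.sum_congr rfl (fun i _ => h1 i), ← Finset.mul_sum, hx]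
  push_cast
  field_simp

include hD in
/-- Euler -/
lemma IsHom.algMap {p : S5} {k : ℕ} (hp : p.IsHomogeneous k) :
    IsHom D k (algebraMap S5 K p) := by
  unfold IsHom
  have h1 : ∀ i, algebraMap S5 K (X i) * D i (algebraMap S5 K p) =
      algebraMap S5 K (X i * pderiv i p) := by
    intro i
    rw [hD, map_mul]
  rw [Finset.sum_congr rfl (fun i _ => h1 i), ← map_sum, hp.sum_X_mul_pderiv]
  simp

include hD in
/-- the converse of Euler's identity -/
lemma IsHom.poly {p : S5} (hp : IsHom D m (algebraMap S5 K p)) (h0 : p ≠ 0) :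
    ∃ k : ℕ, (k : ℤ) = m ∧ p.IsHomogeneous k := by
  unfold IsHom at hp
  have h1 : ∀ i, algebraMap S5 K (X i) * D i (algebraMap S5 K p) =
      algebraMap S5 K (X i * pderiv i p) := by
    intro i
    rw [hD, map_mul]
  rw [Finset.sum_congr rfl (fun i _ => h1 i), ← map_sum] at hp
  have h2 : ∑ i, X i * pderiv i p = (m : S5) * p := by
    apply IsFractionRing.injective S5 K
    rw [hp, map_mul, map_intCast]
  have h3 : ∀ s, (s.degree : ℂ) * coeff s p = (m : ℂ) * coeff s p := by
    intro s
    rw [← FacHomAux.coeff_euler, h2]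
    have : (m : S5) = C (m : ℂ) := by simp
    rw [this, coeff_C_mul]
  have h4 : ∀ s, coeff s p ≠ 0 → (s.degree : ℤ) = m := by
    intro s hs
    have h5 := mul_right_cancel₀ hs (h3 s)
    exact_mod_cast h5
  obtain ⟨s, hs⟩ := MvPolynomial.ne_zero_iff.1 h0
  refine ⟨s.degree, h4 s hs, ?_⟩
  intro t ht
  have h5 := (h4 t ht).trans (h4 s hs).symm
  have h6 : t.degree = s.degree := by exact_mod_cast h5
  rw [← h6, Finsupp.degree_eq_weight_one]
  rfl

include hD in
lemma IsHom.deriv (hx : IsHom D m x) (i : Fin 5) : IsHom D (m - 1) (D i x) := by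
  unfold IsHom at *
  have h1 := congrArg (D i) hx
  rw [map_sum] at h1
  have h2 : ∀ j, D i (algebraMap S5 K (X j) * D j x) =
      algebraMap S5 K (X j) * D j (D i x) + algebraMap S5 K (pderiv i (X j)) * D j x := by
    intro j
    rw [Derivation.leibniz, smul_eq_mul, smul_eq_mul, hD, deriv_comm hD i j x]
    ring
  rw [Finset.sum_congr rfl (fun j _ => h2 j), Finset.sum_add_distrib] at h1
  have h3 : ∑ j, algebraMap S5 K (pderiv i (X j)) * D j x = D i x := by
    rw [Finset.sum_eq_single i]
    · rw [pderiv_X_self, map_one, one_mul]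
    · intro j _ hj
      rw [pderiv_X_of_ne hj, map_zero, zero_mul]
    · intro h
      exact absurd (Finset.mem_univ i) h
  rw [h3, Derivation.leibniz, Derivation.map_intCast, smul_zero, add_zero, smul_eq_mul] at h1
  push_cast
  rw [sub_mul, one_mul, ← h1]
  ring

include hD in
/-- left cancellation: if `x ≠ 0` and `x`, `x * y` are homogeneous then so is `y` -/
lemma IsHom.of_mul (hx : IsHom D m x) (hx0 : x ≠ 0) (hxy : IsHom D (m + n) (x * y)) :
    IsHom D n y := by
  unfold IsHom at *
  rw [FacHomAux.euler_mul, hx] at hxy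
  apply mul_left_cancel₀ hx0
  push_cast at hxy
  linear_combination hxy

include hD in
lemma IsHom.unique (hx : IsHom D m x) (hx' : IsHom D n x) (hx0 : x ≠ 0) : m = n := by
  have := FacHomAux.charZero K
  unfold IsHom at *
  rw [hx] at hx'
  have h := mul_right_cancel₀ hx0 hx'
  exact_mod_cast h

include hD in
/-- numerators of homogeneous elements are homogeneous -/
lemma IsHom.num {g r : S5} {δ N : ℕ} (hg : g.IsHomogeneous δ) (hx : IsHom D m x)
    (h : algebraMap S5 K (g ^ N) * x = algebraMap S5 K r) (hr : r ≠ 0) :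
    ∃ k : ℕ, (k : ℤ) = m + N * δ ∧ r.IsHomogeneous k := by
  apply IsHom.poly hD ?_ hr
  rw [← h]
  have h1 := (IsHom.algMap hD (hg.pow N)).mul hx
  have h2 : ((δ * N : ℕ) : ℤ) + m = m + N * δ := by
    push_cast
    ring
  rwa [h2] at h1

end

end Pc2352a
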