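import Pool.Agent.Lib.Pc2352a.FacCovReg
import Pool.Agent.Lib.Pc2352a.FacHom

set_option autoImplicit false

/-!
# FacH (1.5h): `H^0(U, S/F^k) = S/F^k` and `H^1(U, S/F^k) = 0` for the cover `a_i ≠ 0`, i = 0,1,2

`H0`: `x_i = r_i / a_i^N` (common `N ≥ 1`). `x_0 - x_1 ∈ F^k S[1/(a_0 a_1)]` means (after cancelling powers of
`a_0 a_1`, nonzero divisors mod `F^k`, `Cov.reg` with `T = ∅`) `a_1^N r_0 - a_0^N r_1 ∈ (F^k)`. So
`a_1^N r_0 ∈ (F^k, a_0^N)`, so `r_0 ∈ (F^k, a_0^N)` (`Cov.reg`, `T = {0}`), `r_0 = a_0^N y + F^k t`. So `x_0 = y` mod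
`F^k S[1/a_0]`; for `i = 1, 2`: `x_i - y ∈ S[1/a_i]` lies in `F^k S[1/(a_0 a_i)]`, hence in `F^k S[1/a_i]`
(`Loc_inter`, `Cov.not_dvd`). (`k = 0`: `y = 0`.)
`H0hom`: if all `x_i` are homogeneous of degree `m`, then so are the `r_i` (`IsHom.num`), and `y` can be taken to be
the homogeneous component (of degree `m`) of `y` (zero if `m < 0`).

`H1`: `c0 = r0/(a_0 a_1)^N` etc.; `a_2^N r0 + a_0^N r1 + a_1^N r2 ∈ (F^k)`. So `a_2^N r0 ∈ (F^k, a_0^N, a_1^N)`,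
so `r0 ∈ (F^k, a_0^N, a_1^N)`, `r0 = a_0^N p - a_1^N q` mod `F^k`, i.e. `c0 = p/a_1^N - q/a_0^N` mod `F^k`:
put `e_1 = p / a_1^N`, `e_0 = q / a_0^N`. Then
`a_0^N (r1 + a_2^N p) + a_1^N (r2 - a_2^N q) ∈ (F^k)`, so `r1 + a_2^N p ∈ (F^k, a_1^N)`, `= a_1^N w` mod `F^k`,
and then `r2 - a_2^N q = - a_0^N w` mod `F^k`. Put `e_2 = w / a_2^N`:
`c1 = r1/(a_1 a_2)^N = w/a_2^N - p/a_1^N = e_2 - e_1` and `c2 = -w/a_2^N + q/a_0^N = e_0 - e_2` mod `F^k`.
`H1hom`: the same with homogeneous coefficients.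
It may be easier to prove only the homogeneous and the inhomogeneous version from one lemma
choose p, q, w; if the r's are homogeneous choose them homogeneous.
-/

namespace Pc2352a

open MvPolynomial

namespace FacHAux

attribute [local instance] MvPolynomial.gradedAlgebra in
lemma homComp_mul {δ : ℕ} {g : S5} (hg : g.IsHomogeneous δ) (y : S5) (n : ℕ) :
    homogeneousComponent n (g * y) = if δ ≤ n then g * homogeneousComponent (n - δ) y else 0 := by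
  classical
  have h := DirectSum.coe_decompose_mul_of_left_mem (homogeneousSubmodule (Fin 5) ℂ) n
    (a := g) (b := y) hg
  rw [← decomposition.decompose'_apply, ← decomposition.decompose'_apply]
  exact h

/-- The component of degree `m` (`m` an integer). -/
noncomputable def comp (m : ℤ) (y : S5) : S5 :=
  if 0 ≤ m then homogeneousComponent m.toNat y else 0

lemma comp_add (m : ℤ) (x y : S5) : comp m (x + y) = comp m x + comp m y := by
  unfold comp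
  split_ifs
  · exact map_add _ _ _
  · rw [add_zero]

lemma comp_sub (m : ℤ) (x y : S5) : comp m (x - y) = comp m x - comp m y := by
  unfold comp
  split_ifs
  · exact map_sub _ _ _
  · rw [sub_zero]

lemma comp_hom {m : ℤ} {n : ℕ} (h : (n : ℤ) = m) (y : S5) : (comp m y).IsHomogeneous n := by
  unfold comp
  rw [if_pos (by omega)]
  have h1 : m.toNat = n := by omega
  rw [h1]
  exact homogeneousComponent_isHomogeneous n y

lemma comp_neg {m : ℤ} (h : m < 0) (y : S5) : comp m y = 0 := by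
  unfold comp
  rw [if_neg (by omega)]

lemma comp_self {m : ℤ} {n : ℕ} (h : (n : ℤ) = m) {y : S5} (hy : y = 0 ∨ y.IsHomogeneous n) :
    comp m y = y := by
  unfold comp
  rw [if_pos (by omega)]
  have h1 : m.toNat = n := by omega
  rw [h1]
  rcases hy with rfl | hy
  · exact map_zero _
  · rw [homogeneousComponent_of_mem (m := n) (n := n) hy, if_pos rfl]

lemma comp_mul {δ : ℕ} {g : S5} (hg : g.IsHomogeneous δ) (y : S5) (m : ℤ) :
    comp (m + δ) (g * y) = g * comp m y := by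
  unfold comp
  by_cases h0 : 0 ≤ m
  · rw [if_pos h0, if_pos (by omega), homComp_mul hg, if_pos (by omega)]
    congr 2
    have : (m + (δ:ℤ)).toNat - δ = m.toNat := by omega
    rw [this]
  · rw [if_neg h0, mul_zero]
    by_cases h1 : 0 ≤ m + (δ:ℤ)
    · rw [if_pos h1, homComp_mul hg, if_neg (by omega)]
    · rw [if_neg h1]

lemma comp_mul' {δ : ℕ} {g : S5} (hg : g.IsHomogeneous δ) (y : S5) (m m' : ℤ)
    (h : m' = m + δ) : comp m' (g * y) = g * comp m y := by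
  rw [h, comp_mul hg]

section
variable {K : Type} [Field K] [Algebra S5 K] [IsFractionRing S5 K]
variable {D : Fin 5 → Derivation ℤ K K}
  (hD : ∀ i p, D i (algebraMap S5 K p) = algebraMap S5 K (pderiv i p))

include hD in
lemma comp_isHom (m : ℤ) (y : S5) : IsHom D m (algebraMap S5 K (comp m y)) := by
  by_cases h : 0 ≤ m
  · have h1 : ((m.toNat : ℕ) : ℤ) = m := by omega
    have h2 := IsHom.algMap hD (comp_hom h1 y)
    rwa [h1] at h2
  · rw [comp_neg (by omega), map_zero]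
    exact IsHom.zero m

omit [IsFractionRing S5 K] in
lemma loc_iff (F g : S5) (k : ℕ) (x : K) : x ∈ Loc K F g k ↔ ∃ (n : ℕ) (r : S5),
    algebraMap S5 K (g ^ n) * x = algebraMap S5 K (F ^ k * r) := Iff.rfl

omit [IsFractionRing S5 K] in
lemma loc_large {F g : S5} {k : ℕ} {x : K} (hx : x ∈ Loc K F g k) : ∃ n₀ : ℕ, ∀ n, n₀ ≤ n →
    ∃ r : S5, algebraMap S5 K (g ^ n) * x = algebraMap S5 K (F ^ k * r) := by
  obtain ⟨n₀, r, hr⟩ := hx
  refine ⟨n₀, fun n hn => ⟨g ^ (n - n₀) * r, ?_⟩⟩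
  have h1 : g ^ n = g ^ (n - n₀) * g ^ n₀ := by rw [← pow_add]; congr 1; omega
  rw [h1, map_mul, mul_assoc, hr]
  simp only [map_mul]
  ring

omit [IsFractionRing S5 K] in
lemma loc_large0 {F g : S5} {x : K} (hx : x ∈ Loc K F g 0) : ∃ n₀ : ℕ, ∀ n, n₀ ≤ n →
    ∃ r : S5, algebraMap S5 K (g ^ n) * x = algebraMap S5 K r := by
  obtain ⟨n₀, h⟩ := loc_large hx
  refine ⟨n₀, fun n hn => ?_⟩
  obtain ⟨r, hr⟩ := h n hn
  rw [pow_zero, one_mul] at hr
  exact ⟨r, hr⟩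

include hD in
/-- The numerator of a homogeneous element is zero or homogeneous of the right degree. -/
lemma num' {g r : S5} {δ N n : ℕ} {m : ℤ} {x : K} (hg : g.IsHomogeneous δ) (hx : IsHom D m x)
    (h : algebraMap S5 K (g ^ N) * x = algebraMap S5 K r) (hn : (n:ℤ) = m + N * δ) :
    r = 0 ∨ r.IsHomogeneous n := by
  by_cases hr : r = 0
  · exact Or.inl hr
  · obtain ⟨k, hk1, hk2⟩ := IsHom.num hD hg hx h hr
    have : k = n := by omega
    rw [← this]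
    exact Or.inr hk2

include hD in
/-- Taking components preserves membership in `Loc`. -/
lemma comp_mem {F g y : S5} {d δ k : ℕ} {m : ℤ} {x : K} (hF : F.IsHomogeneous d)
    (hg : g.IsHomogeneous δ) (hδ : 0 < δ) (hx : IsHom D m x)
    (hxy : x - algebraMap S5 K y ∈ Loc K F g k) :
    x - algebraMap S5 K (comp m y) ∈ Loc K F g k := by
  obtain ⟨n₀, h⟩ := loc_large hxy
  set N := n₀ + m.natAbs with hN
  obtain ⟨s, hs⟩ := h N (by omega)
  have hNm : 0 ≤ m + (N:ℤ) * δ := by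
    have h1 : (N:ℤ) * 1 ≤ (N:ℤ) * δ :=
      mul_le_mul_of_nonneg_left (by exact_mod_cast hδ) (Int.natCast_nonneg N)
    have h2 : (m.natAbs : ℤ) ≤ N := by rw [hN]; push_cast; omega
    omega
  obtain ⟨n, hn⟩ : ∃ n : ℕ, (n:ℤ) = m + N * δ := ⟨(m + (N:ℤ) * δ).toNat, by omega⟩
  have h1 : algebraMap S5 K (g ^ N) * x = algebraMap S5 K (g ^ N * y + F ^ k * s) := by
    rw [map_add, ← hs, map_mul]; ring
  have h2 := num' hD hg hx h1 hn
  have h3 := comp_self hn h2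
  have hgN : (g ^ N).IsHomogeneous (δ * N) := hg.pow N
  have hFk : (F ^ k).IsHomogeneous (d * k) := hF.pow k
  rw [comp_add, comp_mul' hgN y m (m + N * δ) (by push_cast; ring),
    comp_mul' hFk s (m + N * δ - d * k) (m + N * δ) (by push_cast; ring)] at h3
  refine ⟨N, comp (m + N * δ - d * k) s, ?_⟩
  rw [mul_sub, h1, ← h3, map_add, map_mul (algebraMap S5 K) (g ^ N) (comp m y)]
  ring

end

section
variable {F : S5} {d : ℕ} {a : Fin 3 → S5} {α : Fin 3 → ℕ} {l : S5}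

lemma mem_CI0 {k N : ℕ} {b : S5} : b ∈ CI F a k (fun _ => N) ∅ ↔ ∃ t, b = F ^ k * t := by
  unfold CI
  rw [Set.image_empty, Set.union_empty, Ideal.mem_span_singleton']
  constructor
  · rintro ⟨t, rfl⟩
    exact ⟨t, mul_comm _ _⟩
  · rintro ⟨t, rfl⟩
    exact ⟨t, mul_comm _ _⟩

lemma mem_CI1 {k N : ℕ} {b : S5} {i : Fin 3} : b ∈ CI F a k (fun _ => N) {i} ↔
    ∃ t u, b = F ^ k * t + a i ^ N * u := by
  unfold CI
  rw [Set.image_singleton, Set.singleton_union, Ideal.mem_span_pair]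
  constructor
  · rintro ⟨t, u, rfl⟩
    exact ⟨t, u, by ring⟩
  · rintro ⟨t, u, rfl⟩
    exact ⟨t, u, by ring⟩

lemma mem_CI2 {k N : ℕ} {b : S5} {i j : Fin 3} : b ∈ CI F a k (fun _ => N) {i, j} ↔
    ∃ t u v, b = F ^ k * t + a i ^ N * u + a j ^ N * v := by
  unfold CI
  rw [Set.image_pair, Set.singleton_union, Ideal.mem_span_insert]
  constructor
  · rintro ⟨t, z, hz, rfl⟩
    obtain ⟨u, v, rfl⟩ := Ideal.mem_span_pair.1 hz
    exact ⟨t, u, v, by ring⟩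
  · rintro ⟨t, u, v, rfl⟩
    exact ⟨t, u * a i ^ N + v * a j ^ N, Ideal.mem_span_pair.2 ⟨u, v, rfl⟩, by ring⟩

/-- The polynomial core of `H1`. -/
lemma core1 (C : Cov F d a α l) (k N : ℕ) (hN : 1 ≤ N) (r0 r1 r2 s : S5)
    (h : a 2 ^ N * r0 + a 0 ^ N * r1 + a 1 ^ N * r2 = F ^ k * s) :
    ∃ p q w t0 t1 t2 : S5, r0 = a 0 ^ N * p - a 1 ^ N * q + F ^ k * t0 ∧
      r1 = a 1 ^ N * w - a 2 ^ N * p + F ^ k * t1 ∧
      r2 = a 2 ^ N * q - a 0 ^ N * w + F ^ k * t2 := by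
  have h1 : r0 ∈ CI F a k (fun _ => N) {0, 1} := by
    refine C.reg k (fun _ => N) (fun _ => hN) {0, 1} 2 (by decide) N r0 ?_
    rw [mem_CI2]
    refine ⟨s, -r1, -r2, ?_⟩
    linear_combination h
  obtain ⟨t0, p, q', hr0⟩ := mem_CI2.1 h1
  have h2 : r1 + a 2 ^ N * p ∈ CI F a k (fun _ => N) {1} := by
    refine C.reg k (fun _ => N) (fun _ => hN) {1} 0 (by decide) N _ ?_
    rw [mem_CI1]
    refine ⟨s - a 2 ^ N * t0, -(r2 + a 2 ^ N * q'), ?_⟩
    rw [hr0] at h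
    linear_combination h
  obtain ⟨t1, w, hr1⟩ := mem_CI1.1 h2
  have h3 : a 0 ^ N * w + r2 + a 2 ^ N * q' ∈ CI F a k (fun _ => N) ∅ := by
    refine C.reg k (fun _ => N) (fun _ => hN) ∅ 1 (Set.notMem_empty _) N _ ?_
    rw [mem_CI0]
    refine ⟨s - a 2 ^ N * t0 - a 0 ^ N * t1, ?_⟩
    rw [hr0] at h
    linear_combination h - a 0 ^ N * hr1
  obtain ⟨t2, hr2⟩ := mem_CI0.1 h3
  refine ⟨p, -q', w, t0, t1, t2, ?_, ?_, ?_⟩
  · rw [hr0]; ring
  · linear_combination hr1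
  · linear_combination hr2

end

section
variable {K : Type} [Field K] [Algebra S5 K] [IsFractionRing S5 K]
variable {F : S5} {d : ℕ} {a : Fin 3 → S5} {α : Fin 3 → ℕ} {l : S5}

lemma not_dvd_mul (C : Cov F d a α l) (i j : Fin 3) : ¬ F ∣ a i * a j := by
  intro h
  rcases C.prime.dvd_or_dvd h with h | h
  · exact C.not_dvd i h
  · exact C.not_dvd j h

/-- Assembly of `H1` from the polynomial relations. -/
lemma build (C : Cov F d a α l) (k N : ℕ) (c0 c1 c2 : K) (r0 r1 r2 p q w t0 t1 t2 : S5)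
    (e0 : algebraMap S5 K ((a 0 * a 1) ^ N) * c0 = algebraMap S5 K r0)
    (e1 : algebraMap S5 K ((a 1 * a 2) ^ N) * c1 = algebraMap S5 K r1)
    (e2 : algebraMap S5 K ((a 2 * a 0) ^ N) * c2 = algebraMap S5 K r2)
    (h0 : r0 = a 0 ^ N * p - a 1 ^ N * q + F ^ k * t0)
    (h1 : r1 = a 1 ^ N * w - a 2 ^ N * p + F ^ k * t1)
    (h2 : r2 = a 2 ^ N * q - a 0 ^ N * w + F ^ k * t2) :
    c0 - ((algebraMap S5 K (a 1 ^ N))⁻¹ * algebraMap S5 K p -
        (algebraMap S5 K (a 0 ^ N))⁻¹ * algebraMap S5 K q) ∈ Loc K F (a 0 * a 1) k ∧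
    c1 - ((algebraMap S5 K (a 2 ^ N))⁻¹ * algebraMap S5 K w -
        (algebraMap S5 K (a 1 ^ N))⁻¹ * algebraMap S5 K p) ∈ Loc K F (a 1 * a 2) k ∧
    c2 - ((algebraMap S5 K (a 0 ^ N))⁻¹ * algebraMap S5 K q -
        (algebraMap S5 K (a 2 ^ N))⁻¹ * algebraMap S5 K w) ∈ Loc K F (a 2 * a 0) k := by
  have hne : ∀ i, algebraMap S5 K (a i ^ N) ≠ 0 := fun i => algMap_ne (pow_ne_zero N (C.ne_zero i))
  have n0 := hne 0
  have n1 := hne 1
  have n2 := hne 2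
  refine ⟨⟨N, t0, ?_⟩, ⟨N, t1, ?_⟩, ⟨N, t2, ?_⟩⟩
  · rw [mul_sub, e0, h0, mul_pow]
    simp only [map_add, map_sub, map_mul]
    generalize algebraMap S5 K (a 0 ^ N) = x0 at n0 ⊢
    generalize algebraMap S5 K (a 1 ^ N) = x1 at n1 ⊢
    field_simp
    ring
  · rw [mul_sub, e1, h1, mul_pow]
    simp only [map_add, map_sub, map_mul]
    generalize algebraMap S5 K (a 1 ^ N) = x0 at n1 ⊢
    generalize algebraMap S5 K (a 2 ^ N) = x1 at n2 ⊢
    field_simp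
    ring
  · rw [mul_sub, e2, h2, mul_pow]
    simp only [map_add, map_sub, map_mul]
    generalize algebraMap S5 K (a 2 ^ N) = x0 at n2 ⊢
    generalize algebraMap S5 K (a 0 ^ N) = x1 at n0 ⊢
    field_simp
    ring

/-- Common numerators for a cocycle. -/
lemma nums (C : Cov F d a α l) (k : ℕ) (c0 c1 c2 : K) (h0 : c0 ∈ Loc K F (a 0 * a 1) 0)
    (h1 : c1 ∈ Loc K F (a 1 * a 2) 0) (h2 : c2 ∈ Loc K F (a 2 * a 0) 0)
    (hs : c0 + c1 + c2 ∈ Loc K F (a 0 * a 1 * a 2) k) : ∃ N₀ : ℕ, ∀ N, N₀ ≤ N →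
    ∃ r0 r1 r2 s : S5, algebraMap S5 K ((a 0 * a 1) ^ N) * c0 = algebraMap S5 K r0 ∧
      algebraMap S5 K ((a 1 * a 2) ^ N) * c1 = algebraMap S5 K r1 ∧
      algebraMap S5 K ((a 2 * a 0) ^ N) * c2 = algebraMap S5 K r2 ∧
      a 2 ^ N * r0 + a 0 ^ N * r1 + a 1 ^ N * r2 = F ^ k * s := by
  obtain ⟨n0, H0⟩ := loc_large0 h0
  obtain ⟨n1, H1⟩ := loc_large0 h1
  obtain ⟨n2, H2⟩ := loc_large0 h2
  refine ⟨n0 + n1 + n2, fun N hN => ?_⟩
  obtain ⟨r0, hr0⟩ := H0 N (by omega)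
  obtain ⟨r1, hr1⟩ := H1 N (by omega)
  obtain ⟨r2, hr2⟩ := H2 N (by omega)
  have hmem : algebraMap S5 K (a 2 ^ N * r0 + a 0 ^ N * r1 + a 1 ^ N * r2) ∈
      Loc K F (a 0 * a 1 * a 2) k := by
    have h3 : algebraMap S5 K (a 2 ^ N * r0 + a 0 ^ N * r1 + a 1 ^ N * r2) =
        ((a 0 * a 1 * a 2) ^ N) • (c0 + c1 + c2) := by
      rw [Algebra.smul_def]
      simp only [map_add, map_mul]
      rw [← hr0, ← hr1, ← hr2]
      simp only [map_mul, mul_pow, map_pow]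
      ring
    rw [h3]
    exact Submodule.smul_mem _ _ hs
  have hnd : ¬ F ∣ a 0 * a 1 * a 2 := by
    intro h
    rcases C.prime.dvd_or_dvd h with h | h
    · exact not_dvd_mul C 0 1 h
    · exact C.not_dvd 2 h
  obtain ⟨s, hs'⟩ := (algMap_mem_iff C.prime hnd).1 hmem
  exact ⟨r0, r1, r2, s, hr0, hr1, hr2, hs'⟩

end

end FacHAux

section
variable {K : Type} [Field K] [Algebra S5 K] [IsFractionRing S5 K]
variable {D : Fin 5 → Derivation ℤ K K}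
  (hD : ∀ i p, D i (algebraMap S5 K p) = algebraMap S5 K (pderiv i p))
variable {F : S5} {d : ℕ} {a : Fin 3 → S5} {α : Fin 3 → ℕ} {l : S5}

theorem H0 (C : Cov F d a α l) (k : ℕ) (x : Fin 3 → K) (hx : ∀ i, x i ∈ Loc K F (a i) 0)
    (hxx : ∀ i j, x i - x j ∈ Loc K F (a i * a j) k) :
    ∃ y : S5, ∀ i, x i - algebraMap S5 K y ∈ Loc K F (a i) k := by
  obtain ⟨n0, H0⟩ := FacHAux.loc_large0 (hx 0)
  obtain ⟨n1, H1⟩ := FacHAux.loc_large0 (hx 1)
  obtain ⟨r0, hr0⟩ := H0 (n0 + n1 + 1) (by omega)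
  obtain ⟨r1, hr1⟩ := H1 (n0 + n1 + 1) (by omega)
  set N := n0 + n1 + 1 with hN
  have hmem : algebraMap S5 K (a 1 ^ N * r0 - a 0 ^ N * r1) ∈ Loc K F (a 0 * a 1) k := by
    have h3 : algebraMap S5 K (a 1 ^ N * r0 - a 0 ^ N * r1) =
        ((a 0 * a 1) ^ N) • (x 0 - x 1) := by
      rw [Algebra.smul_def, map_sub, map_mul, map_mul, ← hr0, ← hr1]
      simp only [map_mul, mul_pow, map_pow]
      ring
    rw [h3]
    exact Submodule.smul_mem _ _ (hxx 0 1)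
  obtain ⟨s, hs⟩ := (algMap_mem_iff C.prime (FacHAux.not_dvd_mul C 0 1)).1 hmem
  have h1 : r0 ∈ CI F a k (fun _ => N) {0} := by
    refine C.reg k (fun _ => N) (fun _ => by omega) {0} 1 (by decide) N _ ?_
    rw [FacHAux.mem_CI1]
    exact ⟨s, r1, by linear_combination hs⟩
  obtain ⟨t, y, hy⟩ := FacHAux.mem_CI1.1 h1
  have hne : algebraMap S5 K (a 0 ^ N) ≠ 0 := algMap_ne (pow_ne_zero N (C.ne_zero 0))
  have h0 : x 0 - algebraMap S5 K y ∈ Loc K F (a 0) k := by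
    refine ⟨N, t, ?_⟩
    rw [mul_sub, hr0, hy, map_add, map_mul (algebraMap S5 K) (a 0 ^ N) y]
    ring
  refine ⟨y, fun i => ?_⟩
  have hmi : x i - algebraMap S5 K y ∈ Loc K F (a i) 0 :=
    Submodule.sub_mem _ (hx i) (algMap_mem F (a i) y)
  refine Loc_inter C.prime (C.not_dvd i) (FacHAux.not_dvd_mul C i 0) hmi ?_
  have h2 : x i - algebraMap S5 K y = (x i - x 0) + (x 0 - algebraMap S5 K y) := by ring
  rw [h2]
  refine Submodule.add_mem _ (hxx i 0) ?_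
  refine Loc_of_dvd_pow (n := 1) ?_ h0
  rw [pow_one]
  exact Dvd.intro_left (a i) rfl

include hD in
theorem H0hom (C : Cov F d a α l) (k : ℕ) (x : Fin 3 → K) (hx : ∀ i, x i ∈ Loc K F (a i) 0)
    (hxx : ∀ i j, x i - x j ∈ Loc K F (a i * a j) k) (m : ℤ) (hm : ∀ i, IsHom D m (x i)) :
    ∃ y : S5, IsHom D m (algebraMap S5 K y) ∧
      ∀ i, x i - algebraMap S5 K y ∈ Loc K F (a i) k := by
  obtain ⟨y, hy⟩ := H0 C k x hx hxx
  exact ⟨FacHAux.comp m y, FacHAux.comp_isHom hD m y, fun i =>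
    FacHAux.comp_mem hD C.hF (C.ha i) (C.αpos i) (hm i) (hy i)⟩

theorem H1 (C : Cov F d a α l) (k : ℕ) (c0 c1 c2 : K) (h0 : c0 ∈ Loc K F (a 0 * a 1) 0)
    (h1 : c1 ∈ Loc K F (a 1 * a 2) 0) (h2 : c2 ∈ Loc K F (a 2 * a 0) 0)
    (hs : c0 + c1 + c2 ∈ Loc K F (a 0 * a 1 * a 2) k) :
    ∃ e : Fin 3 → K, (∀ i, e i ∈ Loc K F (a i) 0) ∧
      c0 - (e 1 - e 0) ∈ Loc K F (a 0 * a 1) k ∧ c1 - (e 2 - e 1) ∈ Loc K F (a 1 * a 2) k ∧
      c2 - (e 0 - e 2) ∈ Loc K F (a 2 * a 0) k := by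
  obtain ⟨N₀, hN₀⟩ := FacHAux.nums C k c0 c1 c2 h0 h1 h2 hs
  obtain ⟨r0, r1, r2, s, hr0, hr1, hr2, hrs⟩ := hN₀ (N₀ + 1) (by omega)
  obtain ⟨p, q, w, t0, t1, t2, e0, e1, e2⟩ :=
    FacHAux.core1 C k (N₀ + 1) (by omega) r0 r1 r2 s hrs
  have hb := FacHAux.build C k (N₀ + 1) c0 c1 c2 r0 r1 r2 p q w t0 t1 t2 hr0 hr1 hr2 e0 e1 e2
  refine ⟨![(algebraMap S5 K (a 0 ^ (N₀ + 1)))⁻¹ * algebraMap S5 K q,
    (algebraMap S5 K (a 1 ^ (N₀ + 1)))⁻¹ * algebraMap S5 K p,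
    (algebraMap S5 K (a 2 ^ (N₀ + 1)))⁻¹ * algebraMap S5 K w], fun i => ?_, hb⟩
  fin_cases i
  · exact Loc_mul_left (inv_pow_mem F (C.ne_zero 0) _) (algMap_mem F _ q)
  · exact Loc_mul_left (inv_pow_mem F (C.ne_zero 1) _) (algMap_mem F _ p)
  · exact Loc_mul_left (inv_pow_mem F (C.ne_zero 2) _) (algMap_mem F _ w)

include hD in
theorem H1hom (C : Cov F d a α l) (k : ℕ) (c0 c1 c2 : K) (h0 : c0 ∈ Loc K F (a 0 * a 1) 0)
    (h1 : c1 ∈ Loc K F (a 1 * a 2) 0) (h2 : c2 ∈ Loc K F (a 2 * a 0) 0)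
    (hs : c0 + c1 + c2 ∈ Loc K F (a 0 * a 1 * a 2) k) (m : ℤ) (hc0 : IsHom D m c0)
    (hc1 : IsHom D m c1) (hc2 : IsHom D m c2) :
    ∃ e : Fin 3 → K, (∀ i, e i ∈ Loc K F (a i) 0) ∧ (∀ i, IsHom D m (e i)) ∧
      c0 - (e 1 - e 0) ∈ Loc K F (a 0 * a 1) k ∧ c1 - (e 2 - e 1) ∈ Loc K F (a 1 * a 2) k ∧
      c2 - (e 0 - e 2) ∈ Loc K F (a 2 * a 0) k := by
  obtain ⟨N₀, hN₀⟩ := FacHAux.nums C k c0 c1 c2 h0 h1 h2 hs
  set N := N₀ + 1 + m.natAbs with hN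
  obtain ⟨r0, r1, r2, s, hr0, hr1, hr2, hrs⟩ := hN₀ N (by omega)
  obtain ⟨p, q, w, t0, t1, t2, e0, e1, e2⟩ :=
    FacHAux.core1 C k N (by omega) r0 r1 r2 s hrs
  -- degrees of the numerators
  have hdeg : ∀ i j : Fin 3, ∃ n : ℕ, (n:ℤ) = m + N * ((α i + α j : ℕ) : ℤ) := by
    intro i j
    have h3 : (N:ℤ) * 1 ≤ (N:ℤ) * ((α i + α j : ℕ) : ℤ) := by
      refine mul_le_mul_of_nonneg_left ?_ (Int.natCast_nonneg N)
      have := C.αpos i
      exact_mod_cast (by omega : 1 ≤ α i + α j)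
    have h4 : (m.natAbs : ℤ) ≤ N := by rw [hN]; push_cast; omega
    exact ⟨(m + (N:ℤ) * ((α i + α j : ℕ) : ℤ)).toNat, by omega⟩
  have hnum : ∀ (i j : Fin 3) (c : K) (r : S5), IsHom D m c →
      algebraMap S5 K ((a i * a j) ^ N) * c = algebraMap S5 K r →
      FacHAux.comp (m + N * ((α i + α j : ℕ) : ℤ)) r = r := by
    intro i j c r hc hr
    obtain ⟨n, hn⟩ := hdeg i j
    exact FacHAux.comp_self hn (FacHAux.num' hD ((C.ha i).mul (C.ha j)) hc hr hn)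
  have f0 := hnum 0 1 c0 r0 hc0 hr0
  have f1 := hnum 1 2 c1 r1 hc1 hr1
  have f2 := hnum 2 0 c2 r2 hc2 hr2
  have hpw : ∀ (i : Fin 3) (y : S5) (M M' : ℤ), M' = M + N * α i →
      FacHAux.comp M' (a i ^ N * y) = a i ^ N * FacHAux.comp M y := by
    intro i y M M' h
    have h3 : (a i ^ N).IsHomogeneous (α i * N) := (C.ha i).pow N
    exact FacHAux.comp_mul' h3 y M M' (by rw [h]; push_cast; ring)
  have hFw : ∀ (y : S5) (M' : ℤ),
      FacHAux.comp M' (F ^ k * y) = F ^ k * FacHAux.comp (M' - d * k) y := by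
    intro y M'
    have h3 : (F ^ k).IsHomogeneous (d * k) := C.hF.pow k
    exact FacHAux.comp_mul' h3 y _ M' (by push_cast; ring)
  have g0 : r0 = a 0 ^ N * FacHAux.comp (m + N * α 1) p - a 1 ^ N *
      FacHAux.comp (m + N * α 0) q + F ^ k *
        FacHAux.comp (m + N * ((α 0 + α 1 : ℕ) : ℤ) - d * k) t0 := by
    rw [← f0]
    conv_lhs => rw [e0]
    rw [FacHAux.comp_add, FacHAux.comp_sub, hFw,
      hpw 0 p (m + N * α 1) _ (by push_cast; ring),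
      hpw 1 q (m + N * α 0) _ (by push_cast; ring)]
  have g1 : r1 = a 1 ^ N * FacHAux.comp (m + N * α 2) w - a 2 ^ N *
      FacHAux.comp (m + N * α 1) p + F ^ k *
        FacHAux.comp (m + N * ((α 1 + α 2 : ℕ) : ℤ) - d * k) t1 := by
    rw [← f1]
    conv_lhs => rw [e1]
    rw [FacHAux.comp_add, FacHAux.comp_sub, hFw,
      hpw 1 w (m + N * α 2) _ (by push_cast; ring),
      hpw 2 p (m + N * α 1) _ (by push_cast; ring)]
  have g2 : r2 = a 2 ^ N * FacHAux.comp (m + N * α 0) q - a 0 ^ N *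
      FacHAux.comp (m + N * α 2) w + F ^ k *
        FacHAux.comp (m + N * ((α 2 + α 0 : ℕ) : ℤ) - d * k) t2 := by
    rw [← f2]
    conv_lhs => rw [e2]
    rw [FacHAux.comp_add, FacHAux.comp_sub, hFw,
      hpw 2 q (m + N * α 0) _ (by push_cast; ring),
      hpw 0 w (m + N * α 2) _ (by push_cast; ring)]
  have hb := FacHAux.build C k N c0 c1 c2 r0 r1 r2 _ _ _ _ _ _ hr0 hr1 hr2 g0 g1 g2
  have hhom : ∀ (i : Fin 3) (y : S5), IsHom D m ((algebraMap S5 K (a i ^ N))⁻¹ *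
      algebraMap S5 K (FacHAux.comp (m + N * α i) y)) := by
    intro i y
    have h3 : IsHom D (((α i * N : ℕ)) : ℤ) (algebraMap S5 K (a i ^ N)) :=
      IsHom.algMap hD ((C.ha i).pow N)
    have h4 := h3.inv.mul (FacHAux.comp_isHom hD (m + N * α i) y)
    have h5 : -((α i * N : ℕ) : ℤ) + (m + N * α i) = m := by push_cast; ring
    rwa [h5] at h4
  refine ⟨![(algebraMap S5 K (a 0 ^ N))⁻¹ *
      algebraMap S5 K (FacHAux.comp (m + N * α 0) q),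
    (algebraMap S5 K (a 1 ^ N))⁻¹ * algebraMap S5 K (FacHAux.comp (m + N * α 1) p),
    (algebraMap S5 K (a 2 ^ N))⁻¹ * algebraMap S5 K (FacHAux.comp (m + N * α 2) w)],
    fun i => ?_, fun i => ?_, hb⟩
  · fin_cases i
    · exact Loc_mul_left (inv_pow_mem F (C.ne_zero 0) _) (algMap_mem F _ _)
    · exact Loc_mul_left (inv_pow_mem F (C.ne_zero 1) _) (algMap_mem F _ _)
    · exact Loc_mul_left (inv_pow_mem F (C.ne_zero 2) _) (algMap_mem F _ _)
  · fin_cases i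
    · exact hhom 0 q
    · exact hhom 1 p
    · exact hhom 2 w

end

end Pc2352a
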