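import Pool.Agent.Lib.Pc2352a.FacDefs

set_option autoImplicit false

/-!
# FacHt (1.5h): heights of primes of `S5 = C[x_0..x_4]`, ideals of lines through the origin

`lineIdeal w` = kernel of `S5 → C[t]`, `X_i ↦ w_i t` (all polynomials vanishing on the line `C w`).
* `height_top_le`: every prime (indeed every proper ideal) has height `≤ 5` (`MvPolynomial.ringKrullDim_of_isNoetherianRing`,
  `Ideal.height_le_ringKrullDim_of_ne_top`); `height_lineIdeal_le`: for every `w` `lineIdeal w` is strictly contained in
  the prime `(X_0, ..., X_4) = ker (eval 0)` (if `w ≠ 0`, `lineIdeal w` does not contain some `X_i`), so its height is `≤ 4`.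
* `four_le_height_lineIdeal`, `w ≠ 0`: choose a basis `v_1 = w, v_2, ..., v_5` of `C^5`; the kernels of the five
  substitutions `S5 → MvPolynomial (Fin j) ℂ`, `X_i ↦ Σ_(r<j) (v_r)_i X_r`, j = 5, 4, 3, 2, 1, form a strictly increasing chain of
  primes (a linear form vanishing on `v_1..v_j` and not on `v_(j+1)` shows that it is strict); use
  `Ideal.height_add_one_le_of_lt_of_isPrime`. (Or any other argument.)
* `height_maxI`: `lineIdeal w < maxI` gives `≥ 5`.
* `radical_eq_maxI`: Mathlib `MvPolynomial.vanishingIdeal_zeroLocus_eq_radical`.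
-/

namespace Pc2352a

open MvPolynomial

/-- the ideal of all polynomials vanishing on the line through `w` -/
noncomputable def lineIdeal (w : Fin 5 → ℂ) : Ideal S5 :=
  RingHom.ker (aeval (fun i => Polynomial.C (w i) * Polynomial.X : Fin 5 → Polynomial ℂ))

/-- the ideal of the origin -/
noncomputable def maxI : Ideal S5 := RingHom.ker (eval (0 : Fin 5 → ℂ))

namespace FacHtAux

lemma eval_smul_of_homog {n : ℕ} {G : S5} (hG : G.IsHomogeneous n) (c : ℂ) (v : Fin 5 → ℂ) :
    eval (c • v) G = c ^ n * eval v G := by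
  rw [eval_eq', eval_eq', Finset.mul_sum]
  refine Finset.sum_congr rfl fun m hm => ?_
  have h1 : ∑ i, m i = n := by
    rw [← Finsupp.degree_eq_sum, Finsupp.degree_eq_weight_one]
    exact hG (mem_support_iff.1 hm)
  have h2 : ∏ i, (c • v) i ^ m i = c ^ n * ∏ i, v i ^ m i := by
    simp only [Pi.smul_apply, smul_eq_mul, mul_pow]
    rw [Finset.prod_mul_distrib, Finset.prod_pow_eq_pow_sum, h1]
  rw [h2]; ring

/-- The ideal of all polynomials vanishing on a subspace. -/
noncomputable def IV (V : Submodule ℂ (Fin 5 → ℂ)) : Ideal S5 where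
  carrier := {g | ∀ v ∈ V, eval v g = 0}
  add_mem' := by
    intro a b ha hb v hv
    rw [map_add, ha v hv, hb v hv, add_zero]
  zero_mem' := fun v _ => by simp
  smul_mem' := by
    intro c a ha v hv
    rw [smul_eq_mul, map_mul, ha v hv, mul_zero]

lemma mem_IV {V : Submodule ℂ (Fin 5 → ℂ)} {g : S5} : g ∈ IV V ↔ ∀ v ∈ V, eval v g = 0 := Iff.rfl

/-- Restriction of a polynomial to an affine line. -/
noncomputable def res (v u : Fin 5 → ℂ) : S5 →ₐ[ℂ] Polynomial ℂ :=
  aeval (fun i => Polynomial.C (v i) + Polynomial.C (u i) * Polynomial.X)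

lemma eval_res (v u : Fin 5 → ℂ) (g : S5) (t : ℂ) :
    Polynomial.eval t (res v u g) = eval (v + t • u) g := by
  have h : (Polynomial.evalRingHom t).comp (res v u : S5 →+* Polynomial ℂ) =
      (eval (v + t • u) : S5 →+* ℂ) := by
    apply MvPolynomial.ringHom_ext
    · intro r
      show Polynomial.eval t (aeval _ (C r)) = eval _ (C r)
      rw [aeval_C, eval_C]
      exact Polynomial.eval_C
    · intro i
      show Polynomial.eval t (aeval _ (X i)) = eval _ (X i)
      rw [aeval_X, eval_X, Polynomial.eval_add, Polynomial.eval_C, Polynomial.eval_mul,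
        Polynomial.eval_C, Polynomial.eval_X]
      show v i + u i * t = v i + t * u i
      ring
  exact congrArg (fun φ => φ g) h

lemma IV_isPrime (V : Submodule ℂ (Fin 5 → ℂ)) : (IV V).IsPrime := by
  refine ⟨?_, ?_⟩
  · intro h
    have h1 : (1 : S5) ∈ IV V := by rw [h]; trivial
    have := h1 0 V.zero_mem
    rw [map_one] at this
    exact one_ne_zero this
  · intro g h hgh
    by_contra hcon
    push Not at hcon
    obtain ⟨hg, hh⟩ := hcon
    simp only [mem_IV, not_forall] at hg hh
    obtain ⟨v, hv, hvg⟩ := hg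
    obtain ⟨v', hv', hvh⟩ := hh
    have h1 : res v (v' - v) (g * h) = 0 := by
      apply Polynomial.funext
      intro t
      rw [eval_res, Polynomial.eval_zero]
      exact hgh _ (V.add_mem hv (V.smul_mem t (V.sub_mem hv' hv)))
    rw [map_mul] at h1
    rcases mul_eq_zero.1 h1 with h2 | h2
    · apply hvg
      have := eval_res v (v' - v) g 0
      rw [h2, Polynomial.eval_zero, zero_smul, add_zero] at this
      exact this.symm
    · apply hvh
      have := eval_res v (v' - v) h 1
      rw [h2, Polynomial.eval_zero, one_smul, add_sub_cancel] at this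
      exact this.symm

/-- Linear forms as polynomials. -/
noncomputable def lin (f : (Fin 5 → ℂ) →ₗ[ℂ] ℂ) : S5 := ∑ i, C (f (Pi.single i 1)) * X i

lemma eval_lin (f : (Fin 5 → ℂ) →ₗ[ℂ] ℂ) (v : Fin 5 → ℂ) : eval v (lin f) = f v := by
  have h1 : v = ∑ i, v i • (Pi.single i 1 : Fin 5 → ℂ) := by
    ext j
    simp [Finset.sum_apply, Pi.single_apply]
  conv_rhs => rw [h1]
  unfold lin
  rw [map_sum, map_sum]
  refine Finset.sum_congr rfl fun i _ => ?_
  rw [map_mul, eval_C, eval_X, map_smul, smul_eq_mul, mul_comm]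

lemma IV_lt {V V' : Submodule ℂ (Fin 5 → ℂ)} (hle : V ≤ V') {v : Fin 5 → ℂ} (hv : v ∈ V')
    (hvV : v ∉ V) : IV V' < IV V := by
  refine lt_of_le_of_ne (fun g hg u hu => hg u (hle hu)) ?_
  intro heq
  obtain ⟨f, hf, hfV⟩ := Submodule.exists_le_ker_of_notMem hvV
  have h1 : lin f ∈ IV V := fun u hu => by
    rw [eval_lin]; exact hfV hu
  rw [← heq] at h1
  have h2 := h1 v hv
  rw [eval_lin] at h2
  exact hf h2

lemma five_le (n : ℕ) (V : Submodule ℂ (Fin 5 → ℂ)) (hn : 5 ≤ n + Module.finrank ℂ V) :
    (5 : ℕ∞) ≤ (IV V).height + Module.finrank ℂ V := by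
  induction n generalizing V with
  | zero =>
    have : (5 : ℕ∞) ≤ (Module.finrank ℂ V : ℕ∞) := by
      rw [zero_add] at hn
      exact_mod_cast hn
    exact this.trans le_add_self
  | succ n ih =>
    by_cases hV : V = ⊤
    · have h1 : Module.finrank ℂ V = 5 := by
        rw [hV, finrank_top]; simp
      rw [h1]
      exact le_add_self
    · obtain ⟨v, hv⟩ : ∃ v, v ∉ V := by
        by_contra hc
        push Not at hc
        exact hV (eq_top_iff.2 fun v _ => hc v)
      set V' := V ⊔ Submodule.span ℂ {v} with hV'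
      have hvV' : v ∈ V' := Submodule.mem_sup_right (Submodule.mem_span_singleton_self v)
      have hlt : V < V' := lt_of_le_of_ne le_sup_left (fun h => hv (h ▸ hvV'))
      have h1 : Module.finrank ℂ V < Module.finrank ℂ V' := Submodule.finrank_lt_finrank_of_lt hlt
      have h2 : Module.finrank ℂ V' ≤ Module.finrank ℂ V + 1 := by
        refine (Submodule.finrank_add_le_finrank_add_finrank _ _).trans ?_
        apply Nat.add_le_add_left
        exact (finrank_span_le_card ({v} : Set (Fin 5 → ℂ))).trans (by simp)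
      have h3 : Module.finrank ℂ V' = Module.finrank ℂ V + 1 := by omega
      have h4 := ih V' (by omega)
      have hp := IV_isPrime V
      have hp' := IV_isPrime V'
      have h5 := Ideal.height_add_one_le_of_lt_of_isPrime (IV_lt le_sup_left hvV' hv)
      rw [h3] at h4
      calc (5 : ℕ∞) ≤ (IV V').height + ((Module.finrank ℂ V + 1 : ℕ) : ℕ∞) := h4
        _ = ((IV V').height + 1) + (Module.finrank ℂ V : ℕ∞) := by push_cast; ring
        _ ≤ (IV V).height + (Module.finrank ℂ V : ℕ∞) := by gcongr

end FacHtAux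

open FacHtAux

theorem lineIdeal_isPrime (w : Fin 5 → ℂ) : (lineIdeal w).IsPrime := by
  unfold lineIdeal
  exact RingHom.ker_isPrime _

theorem maxI_isPrime : maxI.IsPrime := by
  unfold maxI
  exact RingHom.ker_isPrime _

theorem mem_lineIdeal_iff (w : Fin 5 → ℂ) (g : S5) :
    g ∈ lineIdeal w ↔ ∀ c : ℂ, eval (c • w) g = 0 := by
  have key : ∀ c : ℂ, Polynomial.eval c
      (aeval (fun i => Polynomial.C (w i) * Polynomial.X : Fin 5 → Polynomial ℂ) g) =
      eval (c • w) g := by
    intro c
    have h := eval_res 0 w g c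
    rw [zero_add] at h
    rw [← h]
    unfold res
    simp
  unfold lineIdeal
  rw [RingHom.mem_ker]
  constructor
  · intro h c
    rw [← key c]
    have h' : aeval (fun i => Polynomial.C (w i) * Polynomial.X : Fin 5 → Polynomial ℂ) g = 0 := h
    rw [h', Polynomial.eval_zero]
  · intro h
    apply Polynomial.funext
    intro c
    rw [Polynomial.eval_zero]
    exact (key c).trans (h c)

/-- for a form it is enough to vanish at `w` -/
theorem mem_lineIdeal_of_form (w : Fin 5 → ℂ) (g : S5) (n : ℕ) (hn : 0 < n)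
    (hg : g.IsHomogeneous n) (h : eval w g = 0) : g ∈ lineIdeal w := by
  rw [mem_lineIdeal_iff]
  intro c
  rw [eval_smul_of_homog hg, h, mul_zero]

namespace FacHtAux

lemma lineIdeal_eq (w : Fin 5 → ℂ) : lineIdeal w = IV (Submodule.span ℂ {w}) := by
  ext g
  rw [mem_lineIdeal_iff, mem_IV]
  constructor
  · intro h v hv
    obtain ⟨c, rfl⟩ := Submodule.mem_span_singleton.1 hv
    exact h c
  · intro h c
    exact h _ (Submodule.smul_mem _ c (Submodule.mem_span_singleton_self w))

lemma maxI_eq : maxI = IV ⊥ := by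
  ext g
  unfold maxI
  rw [RingHom.mem_ker, mem_IV]
  constructor
  · intro h v hv
    rw [(Submodule.mem_bot ℂ).1 hv]; exact h
  · intro h
    exact h 0 (Submodule.zero_mem _)

lemma height_le_five (I : Ideal S5) (hI : I ≠ ⊤) : I.height ≤ 5 := by
  have h1 := Ideal.height_le_ringKrullDim_of_ne_top hI
  rw [MvPolynomial.ringKrullDim_of_isNoetherianRing, ringKrullDim_eq_zero_of_field] at h1
  have h2 : ((I.height : ℕ∞) : WithBot ℕ∞) ≤ ((5 : ℕ∞) : WithBot ℕ∞) := by
    refine h1.trans ?_
    simp
  exact_mod_cast h2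

end FacHtAux

theorem height_maxI : maxI.height = 5 := by
  apply le_antisymm
  · exact height_le_five maxI maxI_isPrime.ne_top
  · have h := five_le 5 ⊥ (by omega)
    rw [finrank_bot, Nat.cast_zero, add_zero, ← maxI_eq] at h
    exact h

theorem height_lineIdeal (w : Fin 5 → ℂ) (hw : w ≠ 0) : (lineIdeal w).height = 4 := by
  have hp := lineIdeal_isPrime w
  have hp' := maxI_isPrime
  have hlt : lineIdeal w < maxI := by
    rw [lineIdeal_eq, maxI_eq]
    exact IV_lt bot_le (Submodule.mem_span_singleton_self w) (by simpa using hw)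
  have h1 := Ideal.height_add_one_le_of_lt_of_isPrime hlt
  rw [height_maxI] at h1
  have h2 := five_le 5 (Submodule.span ℂ {w}) (by omega)
  rw [finrank_span_singleton hw, Nat.cast_one, ← lineIdeal_eq] at h2
  have hne : (lineIdeal w).height ≠ ⊤ := by
    intro htop
    rw [htop] at h1
    exact absurd h1 (by simp)
  lift (lineIdeal w).height to ℕ using hne with n hn
  norm_cast at h1 h2 ⊢
  omega

/-- Nullstellensatz: forms without nontrivial common zero generate an ideal with radical `maxI` -/
theorem radical_eq_maxI (I : Ideal S5) (hI : I ≤ maxI)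
    (h0 : ∀ w : Fin 5 → ℂ, (∀ g ∈ I, eval w g = 0) → w = 0) : I.radical = maxI := by
  rw [← vanishingIdeal_zeroLocus_eq_radical (K := ℂ) I]
  have h1 : zeroLocus ℂ I = {0} := by
    ext w
    rw [mem_zeroLocus_iff, Set.mem_singleton_iff]
    constructor
    · intro h
      apply h0
      intro g hg
      have := h g hg
      rwa [aeval_eq_eval] at this
    · rintro rfl g hg
      rw [aeval_eq_eval]
      exact hI hg
  rw [h1]
  ext g
  rw [mem_vanishingIdeal_singleton_iff, aeval_eq_eval]
  exact Iff.rfl

end Pc2352a
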