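import Pool.Agent.Lib.Pc2352a.FacAvoid

set_option autoImplicit false

/-!
# FacInhom: from homogeneous to arbitrary height two primes

Assume every homogeneous prime of height 2 containing the prime form `F` is `(F, q)` with a form `q`. Then every
prime of height 2 containing `F` is `(F, G)` for some `G`.
-/

namespace Pc2352a

open MvPolynomial

namespace Inhom

/-- the components of a product with a form -/
theorem comp_mul {q : S5} {e : ℕ} (hq : q.IsHomogeneous e) (y : S5) (j : ℕ) :
    homogeneousComponent j (q * y) =
      if e ≤ j then q * homogeneousComponent (j - e) y else 0 := by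
  have hy := sum_homogeneousComponent y
  have h1 : homogeneousComponent j (q * y) =
      ∑ i ∈ Finset.range (y.totalDegree + 1), if j = e + i then q * homogeneousComponent i y else 0 := by
    conv_lhs => rw [← hy]
    rw [Finset.mul_sum, map_sum]
    refine Finset.sum_congr rfl fun i _ => ?_
    have hm : q * homogeneousComponent i y ∈ homogeneousSubmodule (Fin 5) ℂ (e + i) :=
      hq.mul (homogeneousComponent_isHomogeneous i y)
    rw [homogeneousComponent_of_mem hm]
  rw [h1]
  split_ifs with h
  · by_cases hr : j - e ∈ Finset.range (y.totalDegree + 1)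
    · rw [Finset.sum_eq_single (j - e)]
      · rw [if_pos (by omega)]
      · intro b _ hb
        rw [if_neg (by omega)]
      · intro hb; exact absurd hr hb
    · have h0 : homogeneousComponent (j - e) y = 0 := by
        apply homogeneousComponent_eq_zero
        rw [Finset.mem_range] at hr
        omega
      rw [h0, mul_zero]
      refine Finset.sum_eq_zero fun i _ => ?_
      split_ifs with hi
      · have : i = j - e := by omega
        rw [this, h0, mul_zero]
      · rfl
  · refine Finset.sum_eq_zero fun i _ => ?_
    rw [if_neg (by omega)]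

/-- `r` has components only in the degrees `lo, ..., lo + n` -/
def Sup (r : S5) (lo n : ℕ) : Prop := ∀ i, (i < lo ∨ lo + n < i) → homogeneousComponent i r = 0

theorem Sup.eq_sum {r : S5} {lo n : ℕ} (h : Sup r lo n) :
    r = ∑ i ∈ Finset.Icc lo (lo + n), homogeneousComponent i r := by
  conv_lhs => rw [← sum_homogeneousComponent r]
  have h1 : ∑ i ∈ Finset.range (r.totalDegree + 1), homogeneousComponent i r =
      ∑ i ∈ Finset.range (r.totalDegree + 1) ∪ Finset.Icc lo (lo + n),
        homogeneousComponent i r := by
    refine Finset.sum_subset Finset.subset_union_left fun i _ hi => ?_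
    apply homogeneousComponent_eq_zero
    rw [Finset.mem_range] at hi
    omega
  rw [h1]
  symm
  refine Finset.sum_subset Finset.subset_union_right fun i _ hi => ?_
  apply h
  rw [Finset.mem_Icc] at hi
  omega

theorem exists_sup (r : S5) : Sup r 0 r.totalDegree := by
  intro i hi
  apply homogeneousComponent_eq_zero
  omega

theorem comp_comp (r : S5) (i j : ℕ) :
    homogeneousComponent i (homogeneousComponent j r) =
      if i = j then homogeneousComponent j r else 0 :=
  homogeneousComponent_of_mem (homogeneousComponent_isHomogeneous j r)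

/-- splitting off the top component -/
theorem Sup.sub_top {r : S5} {lo n : ℕ} (h : Sup r lo (n + 1)) :
    Sup (r - homogeneousComponent (lo + (n + 1)) r) lo n := by
  intro i hi
  rw [map_sub, comp_comp]
  split_ifs with hh
  · rw [hh, sub_self]
  · rw [sub_zero]
    apply h
    omega

/-- splitting off the bottom component -/
theorem Sup.eq_of_zero {r : S5} {lo : ℕ} (h : Sup r lo 0) : homogeneousComponent lo r = r := by
  have := h.eq_sum
  rw [add_zero, Finset.Icc_self, Finset.sum_singleton] at this
  exact this.symm

theorem Sup.form_mul {q r : S5} {e lo n : ℕ} (hq : q.IsHomogeneous e) (h : Sup r lo n) :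
    Sup (q * r) (e + lo) n := by
  intro i hi
  rw [comp_mul hq]
  split_ifs with h1
  · rw [h (i - e) (by omega), mul_zero]
  · rfl

end Inhom

open Inhom

theorem inhom {F : S5} {d : ℕ} (hd : 0 < d) (hF : F.IsHomogeneous d) (hFp : Prime F)
    (h : ∀ P : Ideal S5, P.IsPrime → HIdeal P → F ∈ P → P.height = 2 →
      ∃ (q : S5) (n : ℕ), q.IsHomogeneous n ∧ P = Ideal.span {F, q})
    (P : Ideal S5) (hP : P.IsPrime) (hFP : F ∈ P) (hP2 : P.height = 2) :
    ∃ G : S5, P = Ideal.span {F, G} := by
  classical
  have hF0 : F ≠ 0 := hFp.ne_zero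
  have hSF : (Ideal.span {F} : Ideal S5).IsPrime := (Ideal.span_singleton_prime hF0).mpr hFp
  have hbot : (⊥ : Ideal S5) < Ideal.span {F} := by
    rw [bot_lt_iff_ne_bot, Ne, Ideal.span_singleton_eq_bot]
    exact hF0
  have hbotP : (⊥ : Ideal S5).IsPrime := Ideal.isPrime_bot
  have hone : (1 : ℕ∞) ≤ (Ideal.span {F} : Ideal S5).height := by
    have := Ideal.height_add_one_le_of_lt_of_isPrime hbot
    exact le_trans (by simp) this
  -- a prime strictly containing `(F)` has height at least two
  have htwo : ∀ Q : Ideal S5, Q.IsPrime → F ∈ Q → (∃ g ∈ Q, g ∉ Ideal.span {F}) → 2 ≤ Q.height := by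
    intro Q hQ hFQ ⟨g, hg, hgF⟩
    have hlt : Ideal.span {F} < Q := by
      refine lt_of_le_of_ne ((Ideal.span_singleton_le_iff_mem _).mpr hFQ) ?_
      intro heq
      rw [heq] at hgF
      exact hgF hg
    have := Ideal.height_add_one_le_of_lt_of_isPrime hlt
    refine le_trans ?_ this
    have h2 : (2 : ℕ∞) = 1 + 1 := by norm_num
    rw [h2]
    gcongr
  by_cases hst : ∃ (g : S5) (n : ℕ), g.IsHomogeneous n ∧ g ∈ P ∧ g ∉ Ideal.span {F}
  · -- the homogeneous core
    obtain ⟨g, n, hg, hgP, hgF⟩ := hst
    obtain ⟨P', hP', hH, hle, hcore'⟩ := hcore P hP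
    have hFP' : F ∈ P' := hcore' F d hF hFP
    have h2 : 2 ≤ P'.height := htwo P' hP' hFP' ⟨g, hcore' g n hg hgP, hgF⟩
    have heq : P' = P := by
      by_contra hne
      have hlt : P' < P := lt_of_le_of_ne hle hne
      have := Ideal.height_add_one_le_of_lt_of_isPrime hlt
      rw [hP2] at this
      have h3 : (2 : ℕ∞) + 1 ≤ 2 := le_trans (by gcongr) this
      exact absurd h3 (by decide)
    rw [heq] at hH
    obtain ⟨q, m, _, hq⟩ := h P hP hH hFP hP2
    exact ⟨q, hq⟩
  push Not at hst
  -- there is an element outside `(F)`
  have hPF : ∃ g ∈ P, g ∉ Ideal.span {F} := by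
    by_contra hcon
    push Not at hcon
    have heq : P = Ideal.span {F} :=
      le_antisymm hcon ((Ideal.span_singleton_le_iff_mem _).mpr hFP)
    have hmin : P ∈ (Ideal.span ({F} : Set S5)).minimalPrimes := by
      rw [heq]
      refine ⟨⟨hSF, le_rfl⟩, fun q hq _ => hq.2⟩
    have h1 := Ideal.height_le_card_of_mem_minimalPrimes_span (Set.finite_singleton F) hmin
    rw [hP2, Set.ncard_singleton] at h1
    exact absurd h1 (by decide)
  -- minimal width, then minimal lowest degree
  have hex : ∃ n : ℕ, ∃ (lo : ℕ) (r : S5), r ∈ P ∧ r ∉ Ideal.span {F} ∧ Sup r lo n := by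
    obtain ⟨g, hg, hgF⟩ := hPF
    exact ⟨g.totalDegree, 0, g, hg, hgF, exists_sup g⟩
  set n := Nat.find hex with hn
  have hex2 : ∃ (lo : ℕ) (r : S5), r ∈ P ∧ r ∉ Ideal.span {F} ∧ Sup r lo n := Nat.find_spec hex
  have hnmin : ∀ m, m < n → ∀ (lo : ℕ) (r : S5), r ∈ P → Sup r lo m → r ∈ Ideal.span {F} := by
    intro m hm lo r hr hs
    by_contra hcon
    exact Nat.find_min hex hm ⟨lo, r, hr, hcon, hs⟩
  set lo := Nat.find hex2 with hlo
  obtain ⟨π, hπP, hπF, hπs⟩ := Nat.find_spec hex2
  rw [← hlo] at hπs
  have hlomin : ∀ l, l < lo → ∀ r : S5, r ∈ P → Sup r l n → r ∈ Ideal.span {F} := by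
    intro l hl r hr hs
    by_contra hcon
    exact Nat.find_min hex2 hl ⟨r, hr, hcon, hs⟩
  set τ := homogeneousComponent (lo + n) π with hτ
  have hτh : τ.IsHomogeneous (lo + n) := homogeneousComponent_isHomogeneous _ _
  have hτF : τ ∉ Ideal.span {F} := by
    intro hcon
    rcases Nat.eq_zero_or_pos n with h0 | hpos
    · have hs : Sup π lo 0 := by rw [← h0]; exact hπs
      have := hs.eq_of_zero
      rw [hτ, h0, add_zero, this] at hcon
      exact hπF hcon
    · obtain ⟨m, hm⟩ : ∃ m, n = m + 1 := ⟨n - 1, by omega⟩
      have hs : Sup π lo (m + 1) := by rw [← hm]; exact hπs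
      have hs' := hs.sub_top
      rw [← hm, ← hτ] at hs'
      have hle : Ideal.span {F} ≤ P := (Ideal.span_singleton_le_iff_mem _).mpr hFP
      have h1 := hnmin m (by omega) lo (π - τ) (P.sub_mem hπP (hle hcon)) hs'
      apply hπF
      have := (Ideal.span {F} : Ideal S5).add_mem h1 hcon
      rwa [sub_add_cancel] at this
  have hSFle : (Ideal.span {F} : Ideal S5) ≤ Ideal.span {F, π} :=
    Ideal.span_mono (by simp)
  -- (b)
  have hb : ∀ m : ℕ, ∀ (l : ℕ) (a : S5), a ∈ P → Sup a l m →
      ∃ (c : S5) (e : ℕ), c.IsHomogeneous e ∧ c ∉ Ideal.span {F} ∧ c * a ∈ Ideal.span {F, π} := by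
    intro m
    have hSFne : (1 : S5) ∉ Ideal.span {F} := fun h1 => hSF.ne_top (Ideal.eq_top_of_isUnit_mem _ h1 isUnit_one)
    induction m using Nat.strong_induction_on with
    | _ m ih =>
    intro l a ha hs
    by_cases haF : a ∈ Ideal.span {F}
    · exact ⟨1, 0, isHomogeneous_one _ _, hSFne, by rw [one_mul]; exact hSFle haF⟩
    have hmn : n ≤ m := by
      by_contra hlt
      exact haF (hnmin m (by omega) l a ha hs)
    set σ := homogeneousComponent (l + m) a with hσ
    have hσh : σ.IsHomogeneous (l + m) := homogeneousComponent_isHomogeneous _ _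
    by_cases hσF : σ ∈ Ideal.span {F}
    · rcases Nat.eq_zero_or_pos m with h0 | hpos
      · exfalso
        have hs0 : Sup a l 0 := by rw [← h0]; exact hs
        have := hs0.eq_of_zero
        rw [hσ, h0, add_zero, this] at hσF
        exact haF hσF
      · obtain ⟨m', hm'⟩ : ∃ m', m = m' + 1 := ⟨m - 1, by omega⟩
        have hs1 : Sup a l (m' + 1) := by rw [← hm']; exact hs
        have hs' := hs1.sub_top
        rw [← hm', ← hσ] at hs'
        have hle : Ideal.span {F} ≤ P := (Ideal.span_singleton_le_iff_mem _).mpr hFP
        obtain ⟨c, e, hc, hcF, hca⟩ := ih m' (by omega) l (a - σ) (P.sub_mem ha (hle hσF)) hs'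
        refine ⟨c, e, hc, hcF, ?_⟩
        have h1 : c * σ ∈ Ideal.span {F, π} := hSFle (Ideal.mul_mem_left _ _ hσF)
        have h2 := (Ideal.span {F, π} : Ideal S5).add_mem hca h1
        have h3 : c * (a - σ) + c * σ = c * a := by ring
        rwa [h3] at h2
    -- reduce the width
    have hπs1 : Sup (σ * π) (l + m + lo) n := hπs.form_mul hσh
    have has1 : Sup (τ * a) (lo + n + l) m := hs.form_mul hτh
    set a' := τ * a - σ * π with ha'
    have ha'P : a' ∈ P := P.sub_mem (P.mul_mem_left _ ha) (P.mul_mem_left _ hπP)
    rcases Nat.eq_zero_or_pos m with h0 | hpos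
    · have hn0 : n = 0 := by omega
      have e1 : σ = a := by
        have hs0 : Sup a l 0 := by rw [← h0]; exact hs
        rw [hσ, h0, add_zero]; exact hs0.eq_of_zero
      refine ⟨τ, lo + n, hτh, hτF, ?_⟩
      have e2 : τ = π := by
        have hs0 : Sup π lo 0 := by rw [← hn0]; exact hπs
        rw [hτ, hn0, add_zero]; exact hs0.eq_of_zero
      rw [e2]
      exact Ideal.mul_mem_right _ _ (Ideal.subset_span (by simp))
    · have hs' : Sup a' (lo + n + l) (m - 1) := by
        intro i hi
        rw [ha', map_sub]
        rcases hi with hi | hi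
        · rw [has1 i (Or.inl hi), hπs1 i (Or.inl (by omega)), sub_zero]
        · by_cases hi2 : i = lo + n + l + m
          · -- top component cancels
            rw [comp_mul hτh, comp_mul hσh, if_pos (by omega), if_pos (by omega)]
            have e1 : i - (lo + n) = l + m := by omega
            have e2 : i - (l + m) = lo + n := by omega
            rw [e1, e2, ← hσ, ← hτ]
            ring
          · rw [has1 i (Or.inr (by omega)), hπs1 i (Or.inr (by omega)), sub_zero]
      obtain ⟨c, e, hc, hcF, hca⟩ := ih (m - 1) (by omega) _ a' ha'P hs'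
      refine ⟨c * τ, e + (lo + n), hc.mul hτh, ?_, ?_⟩
      · intro hcon
        rcases hSF.mem_or_mem hcon with h1 | h1
        · exact hcF h1
        · exact hτF h1
      · have h1 : c * σ * π ∈ Ideal.span {F, π} :=
          Ideal.mul_mem_left _ _ (Ideal.subset_span (by simp))
        have h2 := (Ideal.span {F, π} : Ideal S5).add_mem hca h1
        have h3 : c * a' + c * σ * π = c * τ * a := by rw [ha']; ring
        rwa [h3] at h2
  -- (a)
  have ha : ∀ (q : S5) (e : ℕ), 0 < e → q.IsHomogeneous e → q ∉ Ideal.span {F} →
      π ∉ Ideal.span {F, q} := by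
    intro q e he hq hqF hcon
    have hqP : q ∉ P := fun hqP => hqF (hst q e hq hqP)
    rw [Ideal.mem_span_pair] at hcon
    obtain ⟨x, y, hxy⟩ := hcon
    have hFle : Ideal.span {F} ≤ P := (Ideal.span_singleton_le_iff_mem _).mpr hFP
    -- restrict the components of `y`
    set y' := ∑ i ∈ (Finset.range (y.totalDegree + 1)).filter (fun i => lo ≤ i + e ∧ i + e ≤ lo + n),
      homogeneousComponent i y with hy'
    have hcy : ∀ i, homogeneousComponent i y' =
        if lo ≤ i + e ∧ i + e ≤ lo + n then homogeneousComponent i y else 0 := by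
      intro i
      rw [hy', map_sum]
      split_ifs with hi
      · by_cases hr : i ∈ Finset.range (y.totalDegree + 1)
        · rw [Finset.sum_eq_single i]
          · rw [comp_comp, if_pos rfl]
          · intro b _ hb
            rw [comp_comp, if_neg (Ne.symm hb)]
          · intro hb
            exact absurd (Finset.mem_filter.mpr ⟨hr, hi⟩) hb
        · have h0 : homogeneousComponent i y = 0 := by
            apply homogeneousComponent_eq_zero
            rw [Finset.mem_range] at hr
            omega
          rw [h0]
          refine Finset.sum_eq_zero fun b _ => ?_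
          rw [comp_comp]
          split_ifs with hb
          · rw [← hb, h0]
          · rfl
      · refine Finset.sum_eq_zero fun b hb => ?_
        rw [comp_comp]
        split_ifs with hb2
        · exfalso
          rw [Finset.mem_filter] at hb
          rw [← hb2] at hb
          exact hi hb.2
        · rfl
    -- `π - q y'` is divisible by `F`
    have hdiv : π - q * y' ∈ Ideal.span {F} := by
      rw [← sum_homogeneousComponent (π - q * y')]
      refine Ideal.sum_mem _ fun j _ => ?_
      rw [map_sub, comp_mul hq]
      have hπj : homogeneousComponent j π =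
          (if d ≤ j then F * homogeneousComponent (j - d) x else 0) +
          (if e ≤ j then q * homogeneousComponent (j - e) y else 0) := by
        rw [← hxy, map_add, mul_comm x F, mul_comm y q, comp_mul hF, comp_mul hq]
      have hFx : (if d ≤ j then F * homogeneousComponent (j - d) x else 0) ∈ Ideal.span {F} := by
        split_ifs
        · exact Ideal.mul_mem_right _ _ (Ideal.subset_span rfl)
        · exact Ideal.zero_mem _
      by_cases hj : j < lo ∨ lo + n < j
      · rw [hπs j hj]
        split_ifs with hje
        · rw [hcy, if_neg (by omega), mul_zero, sub_zero]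
          exact Ideal.zero_mem _
        · rw [sub_zero]; exact Ideal.zero_mem _
      · split_ifs with hje
        · rw [hcy, if_pos (by omega)]
          rw [if_pos hje] at hπj
          rw [hπj, add_sub_cancel_right]
          exact hFx
        · rw [if_neg hje, add_zero] at hπj
          rw [hπj, sub_zero]
          exact hFx
    have hy'P : y' ∈ P := by
      have h1 : q * y' ∈ P := by
        have := P.sub_mem hπP (hFle hdiv)
        rwa [sub_sub_cancel] at this
      rcases hP.mem_or_mem h1 with h2 | h2
      · exact absurd h2 hqP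
      · exact h2
    have hy'F : y' ∉ Ideal.span {F} := by
      intro h1
      apply hπF
      have := (Ideal.span {F} : Ideal S5).add_mem hdiv (Ideal.mul_mem_left _ q h1)
      rwa [sub_add_cancel] at this
    rcases Nat.lt_or_ge lo e with hle | hle
    · rcases Nat.lt_or_ge (lo + n) e with h2 | h2
      · -- `y' = 0`
        apply hy'F
        rw [← sum_homogeneousComponent y']
        refine Ideal.sum_mem _ fun j _ => ?_
        rw [hcy, if_neg (by omega)]
        exact Ideal.zero_mem _
      · refine hy'F (hnmin (lo + n - e) (by omega) 0 y' hy'P ?_)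
        intro i hi
        rw [hcy, if_neg (by omega)]
    · refine hy'F (hlomin (lo - e) (by omega) y' hy'P ?_)
      intro i hi
      rw [hcy, if_neg (by omega)]
  -- (c)
  have hc : ∀ e : ℕ, ∀ (a c : S5), a ∈ P → c.IsHomogeneous e → c ∉ Ideal.span {F} →
      c * a ∈ Ideal.span {F, π} → a ∈ Ideal.span {F, π} := by
    intro e
    induction e using Nat.strong_induction_on with
    | _ e ih =>
    intro a c haP hch hcF hca
    rcases Nat.eq_zero_or_pos e with h0 | hpos
    · -- constant
      rw [h0] at hch
      have hcC : c = C (coeff 0 c) := totalDegree_eq_zero_iff_eq_C.mp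
        (Nat.le_zero.mp (hch.totalDegree_le))
      have hne : coeff 0 c ≠ 0 := by
        intro hz
        rw [hz, C_0] at hcC
        exact hcF (by rw [hcC]; exact Ideal.zero_mem _)
      have hu : IsUnit c := by
        rw [hcC]
        exact (IsUnit.mk0 _ hne).map C
      exact (Ideal.unit_mul_mem_iff_mem _ hu).mp hca
    · set I : Ideal S5 := Ideal.span {F, c} with hI
      have hIH : HIdeal I := hideal_span _ (by
        intro g hg
        rcases hg with hg | hg
        · exact ⟨d, by rw [hg]; exact hF⟩
        · exact ⟨e, by rw [Set.mem_singleton_iff.mp hg]; exact hch⟩)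
      have hev : ∀ (g : S5) (m : ℕ), 0 < m → g.IsHomogeneous m → eval (0 : Fin 5 → ℂ) g = 0 := by
        intro g m hm hg
        have h1 : eval (0 : Fin 5 → ℂ) g = coeff 0 g := by
          rw [MvPolynomial.eval_zero, constantCoeff_eq]
        rw [h1]
        exact hg.coeff_eq_zero (by simp; omega)
      have hItop : I ≠ ⊤ := by
        intro htop
        have h1 : (1 : S5) ∈ I := by rw [htop]; exact Submodule.mem_top
        rw [hI, Ideal.mem_span_pair] at h1
        obtain ⟨x, y, hxy⟩ := h1
        have := congrArg (eval (0 : Fin 5 → ℂ)) hxy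
        rw [map_add, map_mul, map_mul, hev F d hd hF, hev c e hpos hch, mul_zero, mul_zero,
          add_zero, map_one] at this
        exact zero_ne_one this
      obtain ⟨Q, hQ⟩ := Ideal.nonempty_minimalPrimes hItop
      have hQp : Q.IsPrime := hQ.1.1
      have hFQ : F ∈ Q := hQ.1.2 (Ideal.subset_span (by simp))
      have hcQ : c ∈ Q := hQ.1.2 (Ideal.subset_span (by simp))
      have hQH : HIdeal Q := hideal_minimalPrimes I hIH Q hQ
      have hQ2 : Q.height = 2 := by
        refine le_antisymm ?_ (htwo Q hQp hFQ ⟨c, hcQ, hcF⟩)
        have h1 := Ideal.height_le_card_of_mem_minimalPrimes_span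
          (s := ({F, c} : Set S5)) (by simp) hQ
        refine le_trans h1 ?_
        have h2 : ({F, c} : Set S5).ncard ≤ 2 := by
          have h3 := Set.ncard_insert_le F ({c} : Set S5)
          rwa [Set.ncard_singleton] at h3
        exact_mod_cast h2
      obtain ⟨q, e', hqh, hqQ⟩ := h Q hQp hQH hFQ hQ2
      have hqQ' : q ∈ Q := by rw [hqQ]; exact Ideal.subset_span (by simp)
      have hqF : q ∉ Ideal.span {F} := by
        intro hcon
        apply hcF
        have h1 : Q ≤ Ideal.span {F} := by
          rw [hqQ, Ideal.span_le]
          intro g hg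
          rcases hg with hg | hg
          · rw [hg]; exact Ideal.subset_span rfl
          · rw [Set.mem_singleton_iff.mp hg]; exact hcon
        exact h1 hcQ
      have he'pos : 0 < e' := by
        rcases Nat.eq_zero_or_pos e' with h1 | h1
        · exfalso
          rw [h1] at hqh
          have hqC : q = C (coeff 0 q) := totalDegree_eq_zero_iff_eq_C.mp
            (Nat.le_zero.mp (hqh.totalDegree_le))
          have hne : coeff 0 q ≠ 0 := by
            intro hz
            rw [hz, C_0] at hqC
            exact hqF (by rw [hqC]; exact Ideal.zero_mem _)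
          have hu : IsUnit q := by
            rw [hqC]
            exact (IsUnit.mk0 _ hne).map C
          exact hQp.ne_top (Ideal.eq_top_of_isUnit_mem _ hqQ' hu)
        · exact h1
      -- write `c = F c0 + q c'`
      have hcc : c ∈ Ideal.span {F, q} := by rw [← hqQ]; exact hcQ
      rw [Ideal.mem_span_pair] at hcc
      obtain ⟨x, y, hxy⟩ := hcc
      have hce : c = (if d ≤ e then F * homogeneousComponent (e - d) x else 0) +
          (if e' ≤ e then q * homogeneousComponent (e - e') y else 0) := by
        have h1 : homogeneousComponent e c = c := homogeneousComponent_eq_self hch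
        rw [← h1]
        conv_lhs => rw [← hxy]
        rw [map_add, mul_comm x F, mul_comm y q, comp_mul hF, comp_mul hqh]
      have hFx : (if d ≤ e then F * homogeneousComponent (e - d) x else 0) ∈ Ideal.span {F} := by
        split_ifs
        · exact Ideal.mul_mem_right _ _ (Ideal.subset_span rfl)
        · exact Ideal.zero_mem _
      have he'e : e' ≤ e := by
        by_contra hcon
        rw [if_neg hcon, add_zero] at hce
        apply hcF
        rw [hce]; exact hFx
      rw [if_pos he'e] at hce
      set z := (if d ≤ e then F * homogeneousComponent (e - d) x else 0) with hz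
      set c' := homogeneousComponent (e - e') y with hc'
      have hc'h : c'.IsHomogeneous (e - e') := homogeneousComponent_isHomogeneous _ _
      have hc'F : c' ∉ Ideal.span {F} := by
        intro hcon
        apply hcF
        rw [hce]
        exact (Ideal.span {F} : Ideal S5).add_mem hFx (Ideal.mul_mem_left _ _ hcon)
      -- the relation
      rw [Ideal.mem_span_pair] at hca
      obtain ⟨u, v, huv⟩ := hca
      have hvQ : v ∈ Q := by
        have h1 : v * π ∈ Q := by
          have h2 : v * π = c * a - u * F := by rw [← huv]; ring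
          rw [h2]
          exact Q.sub_mem (Q.mul_mem_right _ hcQ) (Q.mul_mem_left _ hFQ)
        rcases hQp.mem_or_mem h1 with h2 | h2
        · exact h2
        · exfalso
          exact ha q e' he'pos hqh hqF (by rw [← hqQ]; exact h2)
      rw [hqQ, Ideal.mem_span_pair] at hvQ
      obtain ⟨v0, v1, hv⟩ := hvQ
      have hkey : q * (c' * a - v1 * π) ∈ Ideal.span {F} := by
        have h1 : q * (c' * a - v1 * π) = (u + v0 * π) * F - z * a := by
          have h2 : u * F + (v0 * F + v1 * q) * π = (z + q * c') * a := by
            rw [hv, ← hce]; exact huv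
          linear_combination -h2
        rw [h1]
        exact (Ideal.span {F} : Ideal S5).sub_mem
          (Ideal.mul_mem_left _ _ (Ideal.subset_span rfl)) (Ideal.mul_mem_right _ _ hFx)
      have hkey2 : c' * a - v1 * π ∈ Ideal.span {F} := by
        rcases hSF.mem_or_mem hkey with h1 | h1
        · exact absurd h1 hqF
        · exact h1
      have hkey3 : c' * a ∈ Ideal.span {F, π} := by
        have h1 : v1 * π ∈ Ideal.span {F, π} :=
          Ideal.mul_mem_left _ _ (Ideal.subset_span (by simp))
        have h2 := (Ideal.span {F, π} : Ideal S5).add_mem (hSFle hkey2) h1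
        rwa [sub_add_cancel] at h2
      exact ih (e - e') (by omega) a c' haP hc'h hc'F hkey3
  refine ⟨π, le_antisymm ?_ ?_⟩
  · intro a haP
    obtain ⟨c, e, hch, hcF, hca⟩ := hb a.totalDegree 0 a haP (exists_sup a)
    exact hc e a c haP hch hcF hca
  · rw [Ideal.span_le]
    intro g hg
    rcases hg with hg | hg
    · rw [hg]; exact hFP
    · rw [Set.mem_singleton_iff.mp hg]; exact hπP

end Pc2352a
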