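import Pool.Agent.Lib.Pc2352a.FacAux

set_option autoImplicit false

/-!
# FacInj (1h): obstruction zero implies liftable

Let `(s, 0)` be in `EE` with `b`. Put `c i := b i i / a_i^N ∈ S[1/a_i]`. (ii) with `m = i`, `y = 0`: `A l b i i ≡ A i b l i` mod
`F S[1/a_i]`, `A l ≡ t i x l i`, `A i ≡ t i x i i = t i a_i^N`, so `t i (x l i b i i - a_i^N b l i) ≡ 0`, so
`x l i b i i ≡ a_i^N b l i` (`Loc_cancel`, `ht1`), so `x l i c i ≡ b l i` mod `F S[1/a_i]` for all `l, i`.
(i) with `l = i`: `x i i (s i - v i j s j) - F^k (b i j - b i i) ∈ F^(k+1)`, and `b i j ≡ x i j c j ≡ v i j x i i c j` (mod `F S[1/(a_i a_j)]`),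
`b i i = x i i c i`. So `a_i^N [(s i - v i j s j) - F^k (v i j c j - c i)] ∈ F^(k+1) S[1/(a_i a_j)]`; divide by `a_i^N`:
`(s i + F^k c i) - v i j (s j + F^k c j) ∈ F^(k+1) S[1/(a_i a_j)]`.
-/

namespace Pc2352a

open MvPolynomial

theorem lift_of_obs_zero {K : Type} [Field K] [Algebra S5 K] [IsFractionRing S5 K]
    {D : Fin 5 → Derivation ℤ K K}
    {F : S5} {d : ℕ} {a : Fin 3 → S5} {α : Fin 3 → ℕ} {l : S5} (C : Cov F d a α l)
    {γ : Fin 3 → ℤ} {u v : Fin 3 → Fin 3 → K} {N : ℕ} {x : Fin 3 → Fin 3 → K} {t : Fin 3 → K}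
    {A : Fin 3 → S5} (hA : Aux F a u N x t A) {k : ℕ} (hv : Coc D F a γ (k + 1) v)
    (huv : ∀ i j, v i j - u i j ∈ Loc K F (a i * a j) 1) (s : Fin 3 → K)
    (hs : EE F a x A k v s 0) :
    ∃ c : Fin 3 → K, (∀ i, c i ∈ Loc K F (a i) 0) ∧
      Sec F a v (k + 1) (fun i => s i + algebraMap S5 K (F ^ k) * c i) := by
  classical
  obtain ⟨hsec, b, hb, h1, h2⟩ := hs
  have hF0 : F ≠ 0 := C.prime.ne_zero
  have ha0 : ∀ i, a i ≠ 0 := fun i => C.ne_zero i
  have hpa : ∀ i, algebraMap S5 K (a i ^ N) ≠ 0 := fun i => algMap_ne (pow_ne_zero _ (ha0 i))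
  have hinv : ∀ i, (algebraMap S5 K (a i ^ N))⁻¹ ∈ Loc K F (a i) 0 := fun i =>
    inv_pow_mem F (ha0 i) N
  have up1 : ∀ (i j : Fin 3) (m : ℕ) (z : K), z ∈ Loc K F (a i) m → z ∈ Loc K F (a i * a j) m := by
    intro i j m z hz
    exact Loc_of_dvd_pow (n := 1) (by rw [pow_one]; exact dvd_mul_right _ _) hz
  have up2 : ∀ (i j : Fin 3) (m : ℕ) (z : K), z ∈ Loc K F (a j) m → z ∈ Loc K F (a i * a j) m := by
    intro i j m z hz
    exact Loc_of_dvd_pow (n := 1) (by rw [pow_one]; exact dvd_mul_left _ _) hz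
  -- step 1
  have key : ∀ l i, x l i * ((algebraMap S5 K (a i ^ N))⁻¹ * b i i) - b l i ∈ Loc K F (a i) 1 := by
    intro l i
    have e1 := h2 l i i
    have e2 : (algebraMap S5 K (A l) - t i * x l i) * b i i ∈ Loc K F (a i) 1 :=
      Loc_mul_right (hA.hA l i) (hb i i)
    have e3 : (algebraMap S5 K (A i) - t i * x i i) * b l i ∈ Loc K F (a i) 1 :=
      Loc_mul_right (hA.hA i i) (hb l i)
    have e4 := (Loc K F (a i) 1).add_mem ((Loc K F (a i) 1).sub_mem e1 e2) e3
    have e5 : (x l i * b i i - algebraMap S5 K (a i ^ N) * b l i) * t i ∈ Loc K F (a i) 1 := by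
      have : (x l i * b i i - algebraMap S5 K (a i ^ N) * b l i) * t i =
          algebraMap S5 K (A l) * b i i - algebraMap S5 K (A i) * b l i -
            algebraMap S5 K ((0 : Fin 3 → Fin 3 → S5) l i) -
            (algebraMap S5 K (A l) - t i * x l i) * b i i +
            (algebraMap S5 K (A i) - t i * x i i) * b l i := by
        rw [hA.hxd i]
        simp only [Pi.zero_apply, map_zero]
        ring
      rw [this]
      exact e4
    have e6 : x l i * b i i - algebraMap S5 K (a i ^ N) * b l i ∈ Loc K F (a i) 0 :=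
      (Loc K F (a i) 0).sub_mem (Loc_mul_left (hA.hx l i) (hb i i))
        (Loc_mul_left (algMap_mem F (a i) _) (hb l i))
    have e7 := Loc_cancel C.prime (C.not_dvd i) e6 (hA.ht i) (hA.ht1 i) e5
    have e8 := Loc_mul_left (hinv i) e7
    have e9 : x l i * ((algebraMap S5 K (a i ^ N))⁻¹ * b i i) - b l i =
        (algebraMap S5 K (a i ^ N))⁻¹ * (x l i * b i i - algebraMap S5 K (a i ^ N) * b l i) := by
      have := hpa i
      field_simp
    rw [e9]
    exact e8
  set c : Fin 3 → K := fun i => (algebraMap S5 K (a i ^ N))⁻¹ * b i i with hc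
  have hcm : ∀ i, c i ∈ Loc K F (a i) 0 := fun i => Loc_mul_left (hinv i) (hb i i)
  refine ⟨c, hcm, ?_, ?_⟩
  · intro i
    exact (Loc K F (a i) 0).add_mem (hsec.1 i) (Loc_mul_left (algMap_mem F (a i) _) (hcm i))
  · intro i j
    have hcj : c j ∈ Loc K F (a i * a j) 0 := up2 i j 0 _ (hcm j)
    have hxii : x i i ∈ Loc K F (a i * a j) 0 := up1 i j 0 _ (hA.hx i i)
    have g1 : x i j * c j - b i j ∈ Loc K F (a i * a j) 1 := up2 i j 1 _ (key i j)
    have g2 : (x i j - u i j * x i i) * c j ∈ Loc K F (a i * a j) 1 :=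
      Loc_mul_right (hA.hxs i i j) hcj
    have g3 : (v i j - u i j) * (x i i * c j) ∈ Loc K F (a i * a j) 1 :=
      Loc_mul_right (huv i j) (Loc_mul_left hxii hcj)
    have g4 : b i j - v i j * x i i * c j ∈ Loc K F (a i * a j) 1 := by
      have : b i j - v i j * x i i * c j =
          - (x i j * c j - b i j) + (x i j - u i j * x i i) * c j -
            (v i j - u i j) * (x i i * c j) := by ring
      rw [this]
      exact (Loc K F (a i * a j) 1).sub_mem
        ((Loc K F (a i * a j) 1).add_mem ((Loc K F (a i * a j) 1).neg_mem g1) g2) g3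
    have hFk : algebraMap S5 K (F ^ k) ∈ Loc K F (a i * a j) k := by
      have := F_pow_mem (K := K) F (a i * a j) k 1
      rwa [mul_one] at this
    have g5 : algebraMap S5 K (F ^ k) * (b i j - v i j * x i i * c j) ∈
        Loc K F (a i * a j) (k + 1) := Loc_mul hFk g4
    have g6 := h1 i j i
    have hbii : b i i = x i i * c i := by
      rw [hA.hxd i, hc]
      have := hpa i
      field_simp
    have g7 : x i i * ((s i + algebraMap S5 K (F ^ k) * c i) -
        v i j * (s j + algebraMap S5 K (F ^ k) * c j)) ∈ Loc K F (a i * a j) (k + 1) := by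
      have : x i i * ((s i + algebraMap S5 K (F ^ k) * c i) -
          v i j * (s j + algebraMap S5 K (F ^ k) * c j)) =
          (x i i * (s i - v i j * s j) - algebraMap S5 K (F ^ k) * (b i j - b i i)) +
          algebraMap S5 K (F ^ k) * (b i j - v i j * x i i * c j) := by
        rw [hbii]; ring
      rw [this]
      exact (Loc K F (a i * a j) (k + 1)).add_mem g6 g5
    have g8 := Loc_mul_left (up1 i j 0 _ (hinv i)) g7
    have g9 : (algebraMap S5 K (a i ^ N))⁻¹ * (x i i * ((s i + algebraMap S5 K (F ^ k) * c i) -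
        v i j * (s j + algebraMap S5 K (F ^ k) * c j))) =
        (s i + algebraMap S5 K (F ^ k) * c i) -
        v i j * (s j + algebraMap S5 K (F ^ k) * c j) := by
      rw [hA.hxd i, ← mul_assoc, inv_mul_cancel₀ (hpa i), one_mul]
    rw [g9] at g8
    exact g8

end Pc2352a
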