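import Pool.Agent.Lib.Pc2352a.FacCovReg
import Pool.Agent.Lib.Pc2352a.FacHom

set_option autoImplicit false

/-!
# FacTriv (1h): when is `h ∈ S[1/(a_0 a_1 a_2)]` a coboundary modulo `F`?

`triv_iff`: `τ / (a_0 a_1 a_2)^N` is trivial iff `τ ∈ (F, a_0^N, a_1^N, a_2^N)`.
(←) `τ = F q + a_0^N r_0 + a_1^N r_1 + a_2^N r_2`, so `h = F q/(..)^N + r_0/(a_1 a_2)^N + ...`.
(→) write `w0 = r0/(a_0 a_1)^M'` etc. with a common exponent `N + M`; clearing denominators
`(a_0 a_1 a_2)^M τ ∈ (F, a_0^(N+M), a_1^(N+M), a_2^(N+M))` (after cancelling a power of `a_0 a_1 a_2`, put it into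
`M`). Then remove `a_0^M`: if `a_0^M y ∈ (F, a_0^(N+M), a_1^s, a_2^t)` then
`a_0^M (y - a_0^N z) ∈ (F, a_1^s, a_2^t)`, so `y ∈ (F, a_0^N, a_1^s, a_2^t)` (`Cov.reg`), similarly for `a_1`, `a_2`.
`Triv.hom`: if `h` is homogeneous, write `h = τ / (a_0 a_1 a_2)^N` with `τ` homogeneous (`IsHom.num`), use
`triv_iff` and `Cov.coeffs`, then read off homogeneous `w`'s.
-/

namespace Pc2352a

open MvPolynomial

namespace FacTrivAux

lemma F_mem_CI (F : S5) (a : Fin 3 → S5) (k : ℕ) (p : Fin 3 → ℕ) (T : Set (Fin 3)) (q : S5) :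
    F ^ k * q ∈ CI F a k p T :=
  Ideal.mul_mem_right _ _ (Ideal.subset_span (Or.inl rfl))

lemma a_mem_CI (F : S5) (a : Fin 3 → S5) (k : ℕ) (p : Fin 3 → ℕ) (T : Set (Fin 3)) (r : S5)
    {j : Fin 3} (hj : j ∈ T) : a j ^ p j * r ∈ CI F a k p T :=
  Ideal.mul_mem_right _ _ (Ideal.subset_span (Or.inr ⟨j, hj, rfl⟩))

lemma mem_CI_univ {F : S5} {a : Fin 3 → S5} {k : ℕ} {p : Fin 3 → ℕ} {τ : S5}
    (h : τ ∈ CI F a k p Set.univ) :
    ∃ (q : S5) (r : Fin 3 → S5), τ = F ^ k * q + ∑ j, a j ^ p j * r j := by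
  classical
  unfold CI at h
  refine Submodule.span_induction (p := fun τ _ => ∃ (q : S5) (r : Fin 3 → S5),
    τ = F ^ k * q + ∑ j, a j ^ p j * r j) ?_ ?_ ?_ ?_ h
  · rintro x (hx | ⟨j, -, rfl⟩)
    · rw [Set.mem_singleton_iff] at hx
      exact ⟨1, fun _ => 0, by simp [hx]⟩
    · refine ⟨0, Pi.single j 1, ?_⟩
      simp [Pi.single_apply]
  · exact ⟨0, fun _ => 0, by simp⟩
  · rintro x y - - ⟨q, r, h⟩ ⟨q', r', h'⟩
    refine ⟨q + q', fun j => r j + r' j, ?_⟩
    rw [h, h']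
    simp only [mul_add, Finset.sum_add_distrib]
    ring
  · rintro c x - ⟨q, r, h⟩
    refine ⟨c * q, fun j => c * r j, ?_⟩
    rw [h, smul_eq_mul, mul_add, Finset.mul_sum]
    congr 1
    · ring
    · exact Finset.sum_congr rfl (fun j _ => by ring)

/-- removing a power of `a i` -/
lemma remove {F : S5} {d : ℕ} {a : Fin 3 → S5} {α : Fin 3 → ℕ} {l : S5} (C : Cov F d a α l)
    (p : Fin 3 → ℕ) (hp : ∀ i, 1 ≤ p i) (i : Fin 3) (N M : ℕ) (hpi : p i = N + M) (y : S5)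
    (hy : a i ^ M * y ∈ CI F a 1 p Set.univ) :
    y ∈ CI F a 1 (Function.update p i N) Set.univ := by
  classical
  obtain ⟨q, r, h⟩ := mem_CI_univ hy
  have hsum : ∑ j, a j ^ p j * r j = a i ^ p i * r i +
      ∑ j ∈ Finset.univ.erase i, a j ^ p j * r j :=
    (Finset.add_sum_erase Finset.univ (fun j => a j ^ p j * r j) (Finset.mem_univ i)).symm
  have h1 : a i ^ M * (y - a i ^ N * r i) = F ^ 1 * q +
      ∑ j ∈ Finset.univ.erase i, a j ^ p j * r j := by
    rw [mul_sub, h, hsum, hpi, pow_add]; ring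
  have h2 : a i ^ M * (y - a i ^ N * r i) ∈ CI F a 1 p {i}ᶜ := by
    rw [h1]
    refine Ideal.add_mem _ (F_mem_CI _ _ _ _ _ _) (Ideal.sum_mem _ (fun j hj => ?_))
    exact a_mem_CI _ _ _ _ _ _ (by simpa using hj)
  have h3 := C.reg 1 p hp {i}ᶜ i (by simp) M _ h2
  have h4 : CI F a 1 p {i}ᶜ ≤ CI F a 1 (Function.update p i N) Set.univ := by
    unfold CI
    refine Ideal.span_mono ?_
    rintro x (hx | ⟨j, hj, rfl⟩)
    · exact Or.inl hx
    · refine Or.inr ⟨j, trivial, ?_⟩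
      have : j ≠ i := by simpa using hj
      simp [Function.update_of_ne this]
  have h5 : a i ^ N * r i ∈ CI F a 1 (Function.update p i N) Set.univ := by
    have := a_mem_CI F a 1 (Function.update p i N) Set.univ (r i) (j := i) trivial
    simpa using this
  have := Ideal.add_mem _ (h4 h3) h5
  simpa using this

end FacTrivAux

open FacTrivAux

section
variable {K : Type} [Field K] [Algebra S5 K] [IsFractionRing S5 K]
variable {D : Fin 5 → Derivation ℤ K K}
  (hD : ∀ i p, D i (algebraMap S5 K p) = algebraMap S5 K (pderiv i p))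
variable {F : S5} {d : ℕ} {a : Fin 3 → S5} {α : Fin 3 → ℕ} {l : S5}

namespace FacTrivAux

/-- explicit coefficients give explicit `w`'s -/
lemma split_of_coeffs (ha : ∀ i, a i ≠ 0) (N : ℕ) (τ : S5) (h : K)
    (hh : algebraMap S5 K ((a 0 * a 1 * a 2) ^ N) * h = algebraMap S5 K τ)
    (q : S5) (r : Fin 3 → S5) (e : τ = F ^ 1 * q + ∑ j, a j ^ N * r j) :
    (algebraMap S5 K (r 2) * (algebraMap S5 K ((a 0 * a 1) ^ N))⁻¹) ∈ Loc K F (a 0 * a 1) 0 ∧
    (algebraMap S5 K (r 0) * (algebraMap S5 K ((a 1 * a 2) ^ N))⁻¹) ∈ Loc K F (a 1 * a 2) 0 ∧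
    (algebraMap S5 K (r 1) * (algebraMap S5 K ((a 2 * a 0) ^ N))⁻¹) ∈ Loc K F (a 2 * a 0) 0 ∧
    h - (algebraMap S5 K (r 2) * (algebraMap S5 K ((a 0 * a 1) ^ N))⁻¹ +
      algebraMap S5 K (r 0) * (algebraMap S5 K ((a 1 * a 2) ^ N))⁻¹ +
      algebraMap S5 K (r 1) * (algebraMap S5 K ((a 2 * a 0) ^ N))⁻¹) ∈
      Loc K F (a 0 * a 1 * a 2) 1 := by
  have A0 : algebraMap S5 K (a 0) ≠ 0 := algMap_ne (ha 0)
  have A1 : algebraMap S5 K (a 1) ≠ 0 := algMap_ne (ha 1)
  have A2 : algebraMap S5 K (a 2) ≠ 0 := algMap_ne (ha 2)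
  refine ⟨Loc_mul_left (algMap_mem F _ _) (inv_pow_mem F (mul_ne_zero (ha 0) (ha 1)) N),
    Loc_mul_left (algMap_mem F _ _) (inv_pow_mem F (mul_ne_zero (ha 1) (ha 2)) N),
    Loc_mul_left (algMap_mem F _ _) (inv_pow_mem F (mul_ne_zero (ha 2) (ha 0)) N), N, q, ?_⟩
  have e' : algebraMap S5 K τ = algebraMap S5 K (F ^ 1 * q) + (algebraMap S5 K (a 0) ^ N *
      algebraMap S5 K (r 0) + algebraMap S5 K (a 1) ^ N * algebraMap S5 K (r 1) +
      algebraMap S5 K (a 2) ^ N * algebraMap S5 K (r 2)) := by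
    rw [e, map_add, Fin.sum_univ_three]
    simp only [map_add, map_mul, map_pow]
  rw [mul_sub, hh, e']
  simp only [map_mul, map_pow, mul_pow]
  field_simp
  ring

end FacTrivAux

theorem triv_iff (C : Cov F d a α l) (N : ℕ) (hN : 1 ≤ N) (τ : S5) (h : K)
    (hh : algebraMap S5 K ((a 0 * a 1 * a 2) ^ N) * h = algebraMap S5 K τ) :
    Triv F a h ↔ τ ∈ CI F a 1 (fun _ => N) Set.univ := by
  classical
  constructor
  · rintro ⟨w0, w1, w2, ⟨n0, r0, h0⟩, ⟨n1, r1, h1⟩, ⟨n2, r2, h2⟩, ⟨n3, r3, h3⟩⟩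
    obtain ⟨M, hM0, hM1, hM2, hM3⟩ : ∃ M, n0 ≤ M ∧ n1 ≤ M ∧ n2 ≤ M ∧ n3 ≤ M :=
      ⟨n0 + n1 + n2 + n3, by omega, by omega, by omega, by omega⟩
    obtain ⟨m0, rfl⟩ := Nat.exists_eq_add_of_le hM0
    obtain ⟨m1, hm1⟩ := Nat.exists_eq_add_of_le hM1
    obtain ⟨m2, hm2⟩ := Nat.exists_eq_add_of_le hM2
    obtain ⟨m3, hm3⟩ := Nat.exists_eq_add_of_le hM3
    set M := n0 + m0 with hM
    have key : (a 0 * a 1 * a 2) ^ M * τ =
        F ^ 1 * ((a 0 * a 1 * a 2) ^ (N + m3) * r3) +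
        a 2 ^ (N + M) * ((a 0 * a 1) ^ (N + m0) * r0) +
        a 0 ^ (N + M) * ((a 1 * a 2) ^ (N + m1) * r1) +
        a 1 ^ (N + M) * ((a 2 * a 0) ^ (N + m2) * r2) := by
      have hinj : Function.Injective (algebraMap S5 K) := IsFractionRing.injective S5 K
      apply hinj
      rw [map_mul, ← hh]
      have e3 : algebraMap S5 K ((a 0 * a 1 * a 2) ^ (N + M)) * (h - (w0 + w1 + w2)) =
          algebraMap S5 K (F ^ 1 * ((a 0 * a 1 * a 2) ^ (N + m3) * r3)) := by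
        have : algebraMap S5 K ((a 0 * a 1 * a 2) ^ (N + M)) =
            algebraMap S5 K ((a 0 * a 1 * a 2) ^ (N + m3)) *
            algebraMap S5 K ((a 0 * a 1 * a 2) ^ n3) := by
          rw [← map_mul, ← pow_add]; congr 2; omega
        rw [this, mul_assoc, h3, ← map_mul]
        congr 1; ring
      have e0 : algebraMap S5 K ((a 0 * a 1) ^ (N + M)) * w0 =
          algebraMap S5 K ((a 0 * a 1) ^ (N + m0) * r0) := by
        have : algebraMap S5 K ((a 0 * a 1) ^ (N + M)) =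
            algebraMap S5 K ((a 0 * a 1) ^ (N + m0)) *
            algebraMap S5 K ((a 0 * a 1) ^ n0) := by
          rw [← map_mul, ← pow_add]; congr 2; omega
        rw [this, mul_assoc, h0, ← map_mul]
        congr 1; ring
      have e1 : algebraMap S5 K ((a 1 * a 2) ^ (N + M)) * w1 =
          algebraMap S5 K ((a 1 * a 2) ^ (N + m1) * r1) := by
        have : algebraMap S5 K ((a 1 * a 2) ^ (N + M)) =
            algebraMap S5 K ((a 1 * a 2) ^ (N + m1)) *
            algebraMap S5 K ((a 1 * a 2) ^ n1) := by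
          rw [← map_mul, ← pow_add]; congr 2; omega
        rw [this, mul_assoc, h1, ← map_mul]
        congr 1; ring
      have e2 : algebraMap S5 K ((a 2 * a 0) ^ (N + M)) * w2 =
          algebraMap S5 K ((a 2 * a 0) ^ (N + m2) * r2) := by
        have : algebraMap S5 K ((a 2 * a 0) ^ (N + M)) =
            algebraMap S5 K ((a 2 * a 0) ^ (N + m2)) *
            algebraMap S5 K ((a 2 * a 0) ^ n2) := by
          rw [← map_mul, ← pow_add]; congr 2; omega
        rw [this, mul_assoc, h2, ← map_mul]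
        congr 1; ring
      rw [map_add, map_add, map_add, ← e3, map_mul _ (a 2 ^ (N + M)), ← e0,
        map_mul _ (a 0 ^ (N + M)), ← e1, map_mul _ (a 1 ^ (N + M)), ← e2]
      simp only [map_mul, map_pow, mul_pow, pow_add]
      ring
    have mem0 : (a 0 * a 1 * a 2) ^ M * τ ∈ CI F a 1 (fun _ => N + M) Set.univ := by
      rw [key]
      refine Ideal.add_mem _ (Ideal.add_mem _ (Ideal.add_mem _ (F_mem_CI _ _ _ _ _ _) ?_) ?_) ?_
      · exact a_mem_CI F a 1 (fun _ => N + M) Set.univ _ (j := 2) trivial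
      · exact a_mem_CI F a 1 (fun _ => N + M) Set.univ _ (j := 0) trivial
      · exact a_mem_CI F a 1 (fun _ => N + M) Set.univ _ (j := 1) trivial
    have s0 := remove C (fun _ => N + M) (fun _ => by omega) 0 N M rfl (a 1 ^ M * (a 2 ^ M * τ))
      (by convert mem0 using 1; ring)
    have s1 := remove C _ (fun i => by
      fin_cases i <;> simp [Function.update] <;> omega) 1 N M (by simp [Function.update])
      (a 2 ^ M * τ) s0
    have s2 := remove C _ (fun i => by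
      fin_cases i <;> simp [Function.update] <;> omega) 2 N M (by simp [Function.update]) τ s1
    convert s2 using 2
    funext i
    fin_cases i <;> simp [Function.update]
  · intro hτ
    obtain ⟨q, r, e⟩ := mem_CI_univ hτ
    exact ⟨_, _, _, split_of_coeffs C.ne_zero N τ h hh q r e⟩

include hD in
theorem Triv.hom (C : Cov F d a α l) (h : K) (hmem : h ∈ Loc K F (a 0 * a 1 * a 2) 0) (m : ℤ)
    (hh : IsHom D m h) (ht : Triv F a h) :
    ∃ w0 w1 w2 : K, w0 ∈ Loc K F (a 0 * a 1) 0 ∧ w1 ∈ Loc K F (a 1 * a 2) 0 ∧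
      w2 ∈ Loc K F (a 2 * a 0) 0 ∧ h - (w0 + w1 + w2) ∈ Loc K F (a 0 * a 1 * a 2) 1 ∧
      IsHom D m w0 ∧ IsHom D m w1 ∧ IsHom D m w2 := by
  by_cases h0 : h = 0
  · refine ⟨0, 0, 0, Submodule.zero_mem _, Submodule.zero_mem _, Submodule.zero_mem _, ?_,
      IsHom.zero m, IsHom.zero m, IsHom.zero m⟩
    rw [h0]; simp
  obtain ⟨n, r, hr⟩ := hmem
  rw [pow_zero, one_mul] at hr
  have hg : a 0 * a 1 * a 2 ≠ 0 := mul_ne_zero (mul_ne_zero (C.ne_zero 0) (C.ne_zero 1)) (C.ne_zero 2)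
  have hN : algebraMap S5 K ((a 0 * a 1 * a 2) ^ (n + 1)) * h =
      algebraMap S5 K ((a 0 * a 1 * a 2) * r) := by
    rw [pow_succ', map_mul, mul_assoc, hr, ← map_mul]
  set τ := (a 0 * a 1 * a 2) * r with hτdef
  set N := n + 1 with hNdef
  have hτ0 : τ ≠ 0 := by
    intro hz
    rw [hz, map_zero] at hN
    rcases mul_eq_zero.1 hN with h1 | h1
    · exact algMap_ne (pow_ne_zero _ hg) h1
    · exact h0 h1
  have hgh : (a 0 * a 1 * a 2).IsHomogeneous (α 0 + α 1 + α 2) :=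
    ((C.ha 0).mul (C.ha 1)).mul (C.ha 2)
  obtain ⟨k, hk, hkh⟩ := IsHom.num hD hgh hh hN hτ0
  have hCI := (triv_iff C N (by omega) τ h hN).1 ht
  obtain ⟨q, r', e, -, hr'⟩ := C.coeffs 1 (fun _ => N) k hkh hCI
  obtain ⟨m0, m1, m2, m3⟩ := split_of_coeffs C.ne_zero N τ h hN q r' e
  refine ⟨_, _, _, m0, m1, m2, m3, ?_, ?_, ?_⟩
  · rcases hr' 2 with hz | ⟨e2, he2, hh2⟩
    · rw [hz]; simpa using IsHom.zero m
    · have hp : IsHom D ((N * (α 0 + α 1) : ℕ) : ℤ) (algebraMap S5 K ((a 0 * a 1) ^ N)) := by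
        have := ((C.ha 0).mul (C.ha 1)).pow N
        rw [mul_comm (α 0 + α 1) N] at this
        exact IsHom.algMap hD this
      have := (IsHom.algMap hD hh2).mul hp.inv
      convert this using 1
      have h1 : (e2 : ℤ) + N * α 2 = k := by exact_mod_cast he2
      push_cast at hk ⊢
      linarith
  · rcases hr' 0 with hz | ⟨e2, he2, hh2⟩
    · rw [hz]; simpa using IsHom.zero m
    · have hp : IsHom D ((N * (α 1 + α 2) : ℕ) : ℤ) (algebraMap S5 K ((a 1 * a 2) ^ N)) := by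
        have := ((C.ha 1).mul (C.ha 2)).pow N
        rw [mul_comm (α 1 + α 2) N] at this
        exact IsHom.algMap hD this
      have := (IsHom.algMap hD hh2).mul hp.inv
      convert this using 1
      have h1 : (e2 : ℤ) + N * α 0 = k := by exact_mod_cast he2
      push_cast at hk ⊢
      linarith
  · rcases hr' 1 with hz | ⟨e2, he2, hh2⟩
    · rw [hz]; simpa using IsHom.zero m
    · have hp : IsHom D ((N * (α 2 + α 0) : ℕ) : ℤ) (algebraMap S5 K ((a 2 * a 0) ^ N)) := by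
        have := ((C.ha 2).mul (C.ha 0)).pow N
        rw [mul_comm (α 2 + α 0) N] at this
        exact IsHom.algMap hD this
      have := (IsHom.algMap hD hh2).mul hp.inv
      convert this using 1
      have h1 : (e2 : ℤ) + N * α 1 = k := by exact_mod_cast he2
      push_cast at hk ⊢
      linarith

end

end Pc2352a
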