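import Pool.Agent.Lib.Pc2352a.FacH
import Pool.Agent.Lib.Pc2352a.FacTriv

set_option autoImplicit false

/-!
# FacLift (1.5h): lifting a cocycle modulo `F^k` to a cocycle modulo `F^(k+1)`

Write `ε k` for 'element of `F^k S[1/..]`'. `p = u01, q = u12, r = u20` and improved inverses
`p' = u10 (2 - u01 u10)`, `q' = u21 (2 - u12 u21)`, `r' = u02 (2 - u20 u02)`: `p p' = 1 - (1 - u01 u10)^2`, and
`1 - u01 u10 ∈ F^k S[1/(a_0 a_1)]` (`coc 0 1 0`, `one`, `Loc_of_dvd_pow`), so `p p' - 1 ∈ F^(2k) ⊆ F^(k+1)`; same for q, r.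
`p q r - 1 ∈ F^k S[1/(a_0 a_1 a_2)]` (`u01 u12 - u02`, `u02 u20 - u00`), `= F^k h` (`exists_of_mem_Loc`), `h` is homogeneous
of degree `- k d` (`p q r` and `1` have degree 0). With `c0 = p' D_m p`, `c1 = q' D_m q`, `c2 = r' D_m r`:
`D_m (p q r) = q r D_m p + ...` and `q r = p' (p q r) + ε(k+1) = p' + ε k`, so
`c0 + c1 + c2 = D_m (p q r) + ε k = D_m (F^k h) + ε k = k F^(k-1) F_m h + ε k`.
`H1` (with `k - 1`) gives `c0 = e_1 - e_0 + F^(k-1) w0` etc., so `F^(k-1) (w0 + w1 + w2) = k F^(k-1) F_m h + ε k`,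
so `k F_m h - (w0 + w1 + w2) ∈ F S[..]` and `F_m h` is `Triv` (divide by the constant `k`).
`hobs` gives `Triv F a h`, `Triv.hom` homogeneous `w0 w1 w2` of degree `- k d` with `h = w0 + w1 + w2 + ε 1`. Put
`u'01 = p (1 - F^k w0)`, `u'10 = p' (1 + F^k w0)`, `u'12 = q (1 - F^k w1)`, `u'21 = q' (1 + F^k w1)`,
`u'20 = r (1 - F^k w2)`, `u'02 = r' (1 + F^k w2)`, `u'ii = 1`. Then `u'ij u'ji = 1 + ε (k+1)` and
`u'01 u'12 u'20 = (1 + F^k h)(1 - F^k w0)(1 - F^k w1)(1 - F^k w2) = 1 + F^k (h - w0 - w1 - w2) + ε(2k) = 1 + ε(k+1)`.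
-/

namespace Pc2352a

open MvPolynomial

namespace Lift

section
variable {K : Type} [Field K] [Algebra S5 K] [IsFractionRing S5 K]
variable {F g : S5} {k : ℕ}

lemma one_mem : (1 : K) ∈ Loc K F g 0 := by
  have := algMap_mem (K := K) F g 1
  rwa [map_one] at this

lemma two_mem : (2 : K) ∈ Loc K F g 0 := by
  have := algMap_mem (K := K) F g 2
  rwa [map_ofNat] at this

lemma Fpow_mem0 : algebraMap S5 K (F ^ k) ∈ Loc K F g 0 := algMap_mem F g _

lemma Fpow_mem : algebraMap S5 K (F ^ k) ∈ Loc K F g k := by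
  have := F_pow_mem (K := K) F g k 1
  rwa [mul_one] at this

/-- the formal part: everything follows from four identities -/
lemma formal {n : ℕ} {v : Fin 3 → Fin 3 → K} (hv : ∀ i j, v i j ∈ Loc K F g 0)
    (h1 : ∀ i, v i i = 1) (h01 : v 0 1 * v 1 0 - 1 ∈ Loc K F g n)
    (h12 : v 1 2 * v 2 1 - 1 ∈ Loc K F g n) (h20 : v 2 0 * v 0 2 - 1 ∈ Loc K F g n)
    (h012 : v 0 1 * v 1 2 * v 2 0 - 1 ∈ Loc K F g n) (i j l : Fin 3) :
    v i j * v j l - v i l ∈ Loc K F g n := by
  have hw : ∀ i j, v i j - v i 0 * v 0 j ∈ Loc K F g n := by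
    intro i j
    fin_cases i <;> fin_cases j
    · show v 0 0 - v 0 0 * v 0 0 ∈ _
      rw [h1]; simp
    · show v 0 1 - v 0 0 * v 0 1 ∈ _
      rw [h1]; simp
    · show v 0 2 - v 0 0 * v 0 2 ∈ _
      rw [h1]; simp
    · show v 1 0 - v 1 0 * v 0 0 ∈ _
      rw [h1]; simp
    · show v 1 1 - v 1 0 * v 0 1 ∈ _
      rw [h1]
      have e : 1 - v 1 0 * v 0 1 = -(v 0 1 * v 1 0 - 1) := by ring
      rw [e]
      exact Submodule.neg_mem _ h01
    · show v 1 2 - v 1 0 * v 0 2 ∈ _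
      have e : v 1 2 - v 1 0 * v 0 2 = -(v 1 2 * (v 0 1 * v 1 0 - 1))
          - (v 1 2 * v 0 1 * v 1 0) * (v 2 0 * v 0 2 - 1)
          + v 1 0 * v 0 2 * (v 0 1 * v 1 2 * v 2 0 - 1) := by ring
      rw [e]
      exact Submodule.add_mem _ (Submodule.sub_mem _
        (Submodule.neg_mem _ (Loc_mul_left (hv 1 2) h01))
        (Loc_mul_left (Loc_mul_left (Loc_mul_left (hv 1 2) (hv 0 1)) (hv 1 0)) h20))
        (Loc_mul_left (Loc_mul_left (hv 1 0) (hv 0 2)) h012)
    · show v 2 0 - v 2 0 * v 0 0 ∈ _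
      rw [h1]; simp
    · show v 2 1 - v 2 0 * v 0 1 ∈ _
      have e : v 2 1 - v 2 0 * v 0 1 = v 2 0 * v 0 1 * (v 1 2 * v 2 1 - 1)
          - v 2 1 * (v 0 1 * v 1 2 * v 2 0 - 1) := by ring
      rw [e]
      exact Submodule.sub_mem _ (Loc_mul_left (Loc_mul_left (hv 2 0) (hv 0 1)) h12)
        (Loc_mul_left (hv 2 1) h012)
    · show v 2 2 - v 2 0 * v 0 2 ∈ _
      rw [h1]
      have e : 1 - v 2 0 * v 0 2 = -(v 2 0 * v 0 2 - 1) := by ring
      rw [e]
      exact Submodule.neg_mem _ h20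
  have hj : v 0 j * v j 0 - 1 ∈ Loc K F g n := by
    fin_cases j
    · show v 0 0 * v 0 0 - 1 ∈ _
      rw [h1]; simp
    · exact h01
    · show v 0 2 * v 2 0 - 1 ∈ _
      rw [mul_comm]; exact h20
  have e : v i j * v j l - v i l = (v i j - v i 0 * v 0 j) * v j l
      + v i 0 * v 0 j * (v j l - v j 0 * v 0 l)
      + v i 0 * v 0 l * (v 0 j * v j 0 - 1) - (v i l - v i 0 * v 0 l) := by ring
  rw [e]
  exact Submodule.sub_mem _ (Submodule.add_mem _ (Submodule.add_mem _
    (Loc_mul_right (hw i j) (hv j l))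
    (Loc_mul_left (Loc_mul_left (hv i 0) (hv 0 j)) (hw j l)))
    (Loc_mul_left (Loc_mul_left (hv i 0) (hv 0 l)) hj)) (hw i l)

/-- improved inverse -/
lemma inv_improve {x y : K} (hx : x ∈ Loc K F g 0) (hy : y ∈ Loc K F g 0) (hk : 1 ≤ k)
    (h : x * y - 1 ∈ Loc K F g k) :
    y * (2 - x * y) ∈ Loc K F g 0 ∧ x * (y * (2 - x * y)) - 1 ∈ Loc K F g (k + 1) ∧
      y * (2 - x * y) - y ∈ Loc K F g k := by
  refine ⟨Loc_mul_left hy (Submodule.sub_mem _ two_mem (Loc_mul_left hx hy)), ?_, ?_⟩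
  · have e : x * (y * (2 - x * y)) - 1 = -((x * y - 1) * (x * y - 1)) := by ring
    rw [e]
    exact Submodule.neg_mem _ (Loc_anti (by omega) (Loc_mul h h))
  · have e : y * (2 - x * y) - y = -(y * (x * y - 1)) := by ring
    rw [e]
    exact Submodule.neg_mem _ (Loc_mul_left hy h)

/-- the modified pair -/
lemma pair {x y z : K} (hx : x ∈ Loc K F g 0) (hy : y ∈ Loc K F g 0) (hz : z ∈ Loc K F g 0)
    (hk : 1 ≤ k) (h : x * y - 1 ∈ Loc K F g (k + 1)) :
    x * (1 - algebraMap S5 K (F ^ k) * z) ∈ Loc K F g 0 ∧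
      y * (1 + algebraMap S5 K (F ^ k) * z) ∈ Loc K F g 0 ∧
      (x * (1 - algebraMap S5 K (F ^ k) * z)) * (y * (1 + algebraMap S5 K (F ^ k) * z)) - 1
        ∈ Loc K F g (k + 1) ∧
      x * (1 - algebraMap S5 K (F ^ k) * z) - x ∈ Loc K F g k ∧
      y * (1 + algebraMap S5 K (F ^ k) * z) - y ∈ Loc K F g k := by
  set t : K := algebraMap S5 K (F ^ k) * z with ht
  have ht0 : t ∈ Loc K F g 0 := Loc_mul_left Fpow_mem0 hz
  have htk : t ∈ Loc K F g k := Loc_mul_right Fpow_mem hz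
  refine ⟨Loc_mul_left hx (Submodule.sub_mem _ one_mem ht0),
    Loc_mul_left hy (Submodule.add_mem _ one_mem ht0), ?_, ?_, ?_⟩
  · have e : (x * (1 - t)) * (y * (1 + t)) - 1 = (x * y - 1) * (1 - t * t) - t * t := by ring
    rw [e]
    exact Submodule.sub_mem _ (Loc_mul_right h (Submodule.sub_mem _ one_mem (Loc_mul_left ht0 ht0)))
      (Loc_anti (by omega) (Loc_mul htk htk))
  · have e : x * (1 - t) - x = -(x * t) := by ring
    rw [e]
    exact Submodule.neg_mem _ (Loc_mul_left hx htk)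
  · have e : y * (1 + t) - y = y * t := by ring
    rw [e]
    exact Loc_mul_left hy htk

lemma IsHom_one' {D : Fin 5 → Derivation ℤ K K} : IsHom D 0 (1 : K) := IsHom.one

lemma IsHom_two {D : Fin 5 → Derivation ℤ K K} : IsHom D 0 (2 : K) := by
  have := IsHom.add (K := K) (D := D) (m := 0) IsHom.one IsHom.one
  rwa [one_add_one_eq_two] at this

lemma IsHom.congr' {D : Fin 5 → Derivation ℤ K K} {m n : ℤ} {x : K} (h : IsHom D m x) (e : m = n) :
    IsHom D n x := e ▸ h

end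

end Lift

open Lift

theorem lift_coc {K : Type} [Field K] [Algebra S5 K] [IsFractionRing S5 K]
    {D : Fin 5 → Derivation ℤ K K}
    (hD : ∀ i p, D i (algebraMap S5 K p) = algebraMap S5 K (pderiv i p))
    {F : S5} {d : ℕ} {a : Fin 3 → S5} {α : Fin 3 → ℕ} {l : S5} (C : Cov F d a α l)
    (γ : Fin 3 → ℤ) (k : ℕ) (hk : 1 ≤ k)
    (hobs : ∀ h : K, h ∈ Loc K F (a 0 * a 1 * a 2) 0 → IsHom D (-((k : ℤ) * d)) h →
      (∀ m, Triv F a (algebraMap S5 K (pderiv m F) * h)) → Triv F a h)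
    (u : Fin 3 → Fin 3 → K) (hu : Coc D F a γ k u) :
    ∃ u' : Fin 3 → Fin 3 → K, Coc D F a γ (k + 1) u' ∧
      ∀ i j, u' i j - u i j ∈ Loc K F (a i * a j) k := by
  classical
  have hF : Prime F := C.prime
  have hF0 : F ≠ 0 := hF.ne_zero
  set G : S5 := a 0 * a 1 * a 2 with hG
  have hane : ∀ i, a i ≠ 0 := C.ne_zero
  have hG0 : G ≠ 0 := mul_ne_zero (mul_ne_zero (hane 0) (hane 1)) (hane 2)
  have hFG : ¬ F ∣ G := by
    intro h
    rcases hF.dvd_or_dvd h with h | h
    · rcases hF.dvd_or_dvd h with h | h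
      · exact C.not_dvd 0 h
      · exact C.not_dvd 1 h
    · exact C.not_dvd 2 h
  have haG : ∀ i, a i ∣ G := by
    intro i
    fin_cases i
    · show a 0 ∣ G
      exact ⟨a 1 * a 2, by rw [hG]; ring⟩
    · show a 1 ∣ G
      exact ⟨a 0 * a 2, by rw [hG]; ring⟩
    · show a 2 ∣ G
      exact ⟨a 0 * a 1, by rw [hG]; ring⟩
  have h2G : ∀ i j, a i * a j ∣ G ^ 2 := fun i j => by
    rw [pow_two]; exact mul_dvd_mul (haG i) (haG j)
  have h3G : ∀ i j m, a i * a j * a m ∣ G ^ 3 := fun i j m => by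
    rw [pow_succ, pow_two]; exact mul_dvd_mul (mul_dvd_mul (haG i) (haG j)) (haG m)
  have to2 : ∀ {i j n} {x : K}, x ∈ Loc K F (a i * a j) n → x ∈ Loc K F G n :=
    fun hx => Loc_of_dvd_pow (h2G _ _) hx
  have to3 : ∀ {i j m n} {x : K}, x ∈ Loc K F (a i * a j * a m) n → x ∈ Loc K F G n :=
    fun hx => Loc_of_dvd_pow (h3G _ _ _) hx
  have huG : ∀ i j, u i j ∈ Loc K F G 0 := fun i j => to2 (hu.mem i j)
  have hswap : ∀ {i j n} {x : K}, x ∈ Loc K F (a i * a j) n → x ∈ Loc K F (a j * a i) n := by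
    intro i j n x hx
    rwa [mul_comm] at hx
  -- pairs
  have hpair : ∀ i j, u i j * u j i - 1 ∈ Loc K F (a i * a j) k := by
    intro i j
    have h1 := hu.coc i j i
    rw [hu.one] at h1
    refine Loc_of_dvd_pow (n := 2) ?_ h1
    exact ⟨a j, by ring⟩
  obtain ⟨mp', ip, dp⟩ := inv_improve (hu.mem 0 1) (hswap (hu.mem 1 0)) hk (hpair 0 1)
  obtain ⟨mq', iq, dq⟩ := inv_improve (hu.mem 1 2) (hswap (hu.mem 2 1)) hk (hpair 1 2)
  obtain ⟨mr', ir, dr⟩ := inv_improve (hu.mem 2 0) (hswap (hu.mem 0 2)) hk (hpair 2 0)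
  set p := u 0 1 with hp
  set q := u 1 2 with hq
  set r := u 2 0 with hr
  set p' := u 1 0 * (2 - p * u 1 0) with hp'
  set q' := u 2 1 * (2 - q * u 2 1) with hq'
  set r' := u 0 2 * (2 - r * u 0 2) with hr'
  have mp : p ∈ Loc K F (a 0 * a 1) 0 := hu.mem 0 1
  have mq : q ∈ Loc K F (a 1 * a 2) 0 := hu.mem 1 2
  have mr : r ∈ Loc K F (a 2 * a 0) 0 := hu.mem 2 0
  have Gp := to2 mp
  have Gq := to2 mq
  have Gr := to2 mr
  have Gp' := to2 mp'
  have Gq' := to2 mq'
  have Gr' := to2 mr'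
  have Gip := to2 ip
  have Giq := to2 iq
  have Gir := to2 ir
  -- the triple product
  have hpqr : p * q * r - 1 ∈ Loc K F G k := by
    have h1 := to3 (hu.coc 0 1 2)
    have h2 := to3 (hu.coc 0 2 0)
    rw [hu.one] at h2
    have e : p * q * r - 1 = (p * q - u 0 2) * r + (u 0 2 * r - 1) := by ring
    rw [e]
    exact Submodule.add_mem _ (Loc_mul_right h1 Gr) h2
  obtain ⟨h, mh, hh⟩ := exists_of_mem_Loc hF0 hpqr
  have hFk0 : algebraMap S5 K (F ^ k) ≠ 0 := algMap_ne (pow_ne_zero _ hF0)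
  have homF : IsHom D ((k : ℤ) * d) (algebraMap S5 K (F ^ k)) := by
    have h1 := IsHom.algMap (D := D) hD (C.hF.pow k)
    refine IsHom.congr' h1 ?_
    push_cast
    ring
  have homp : IsHom D (γ 1 - γ 0) p := hu.hom 0 1
  have homq : IsHom D (γ 2 - γ 1) q := hu.hom 1 2
  have homr : IsHom D (γ 0 - γ 2) r := hu.hom 2 0
  have homp' : IsHom D (γ 0 - γ 1) p' := by
    have h1 := (hu.hom 1 0).mul (IsHom.sub (IsHom_two (D := D))
      (IsHom.congr' (homp.mul (hu.hom 1 0)) (by ring)))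
    exact IsHom.congr' h1 (by ring)
  have homq' : IsHom D (γ 1 - γ 2) q' := by
    have h1 := (hu.hom 2 1).mul (IsHom.sub (IsHom_two (D := D))
      (IsHom.congr' (homq.mul (hu.hom 2 1)) (by ring)))
    exact IsHom.congr' h1 (by ring)
  have homr' : IsHom D (γ 2 - γ 0) r' := by
    have h1 := (hu.hom 0 2).mul (IsHom.sub (IsHom_two (D := D))
      (IsHom.congr' (homr.mul (hu.hom 0 2)) (by ring)))
    exact IsHom.congr' h1 (by ring)
  have homh : IsHom D (-((k : ℤ) * d)) h := by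
    refine IsHom.of_mul hD homF hFk0 ?_
    rw [← hh]
    refine IsHom.congr' (m := 0) ?_ (by ring)
    exact IsHom.sub (IsHom.congr' ((homp.mul homq).mul homr) (by ring)) IsHom.one
  -- the obstruction
  have htriv : Triv F a h := by
    refine hobs h mh homh fun m => ?_
    have mDp := D_mem_Loc0 D hD (mul_ne_zero (hane 0) (hane 1)) m mp
    have mDq := D_mem_Loc0 D hD (mul_ne_zero (hane 1) (hane 2)) m mq
    have mDr := D_mem_Loc0 D hD (mul_ne_zero (hane 2) (hane 0)) m mr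
    have mc0 : p' * D m p ∈ Loc K F (a 0 * a 1) 0 := Loc_mul_left mp' mDp
    have mc1 : q' * D m q ∈ Loc K F (a 1 * a 2) 0 := Loc_mul_left mq' mDq
    have mc2 : r' * D m r ∈ Loc K F (a 2 * a 0) 0 := Loc_mul_left mr' mDr
    have hqr : q * r - p' ∈ Loc K F G k := by
      have e : q * r - p' = -(q * r * (p * p' - 1)) + p' * (p * q * r - 1) := by ring
      rw [e]
      exact Submodule.add_mem _ (Submodule.neg_mem _ (Loc_mul_left (Loc_mul_left Gq Gr)
        (Loc_anti (by omega) Gip))) (Loc_mul_left Gp' hpqr)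
    have hpr : p * r - q' ∈ Loc K F G k := by
      have e : p * r - q' = -(p * r * (q * q' - 1)) + q' * (p * q * r - 1) := by ring
      rw [e]
      exact Submodule.add_mem _ (Submodule.neg_mem _ (Loc_mul_left (Loc_mul_left Gp Gr)
        (Loc_anti (by omega) Giq))) (Loc_mul_left Gq' hpqr)
    have hpq : p * q - r' ∈ Loc K F G k := by
      have e : p * q - r' = -(p * q * (r * r' - 1)) + r' * (p * q * r - 1) := by ring
      rw [e]
      exact Submodule.add_mem _ (Submodule.neg_mem _ (Loc_mul_left (Loc_mul_left Gp Gq)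
        (Loc_anti (by omega) Gir))) (Loc_mul_left Gr' hpqr)
    obtain ⟨k', rfl⟩ : ∃ k', k = k' + 1 := ⟨k - 1, by omega⟩
    have hDprod : D m (p * q * r) = q * r * D m p + p * r * D m q + p * q * D m r := by
      simp only [Derivation.leibniz, smul_eq_mul]
      ring
    have hDF : D m (algebraMap S5 K (F ^ (k' + 1)) * h)
        = ((k' + 1 : ℕ) : K) * (algebraMap S5 K (F ^ k') * (algebraMap S5 K (pderiv m F) * h))
          + algebraMap S5 K (F ^ (k' + 1)) * D m h := by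
      rw [Derivation.leibniz, smul_eq_mul, smul_eq_mul, hD]
      have e : pderiv m (F ^ (k' + 1)) = ((k' + 1 : ℕ) : S5) * (F ^ k' * pderiv m F) := by
        rw [Derivation.leibniz_pow]
        simp only [Nat.add_sub_cancel, nsmul_eq_mul, smul_eq_mul]
      rw [e, map_mul, map_mul, map_natCast]
      ring
    have hDeq : D m (p * q * r) = D m (algebraMap S5 K (F ^ (k' + 1)) * h) := by
      have e : p * q * r = 1 + algebraMap S5 K (F ^ (k' + 1)) * h := by
        rw [← hh]; ring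
      rw [e, map_add, Derivation.map_one_eq_zero, zero_add]
    have mDh : D m h ∈ Loc K F G 0 := D_mem_Loc0 D hD hG0 m mh
    have hsum : p' * D m p + q' * D m q + r' * D m r
        - ((k' + 1 : ℕ) : K) * (algebraMap S5 K (F ^ k') * (algebraMap S5 K (pderiv m F) * h))
        ∈ Loc K F G (k' + 1) := by
      have e : p' * D m p + q' * D m q + r' * D m r
        - ((k' + 1 : ℕ) : K) * (algebraMap S5 K (F ^ k') * (algebraMap S5 K (pderiv m F) * h))
        = -((q * r - p') * D m p) - (p * r - q') * D m q - (p * q - r') * D m r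
          + algebraMap S5 K (F ^ (k' + 1)) * D m h := by
        have h1 := hDprod.symm.trans (hDeq.trans hDF)
        linear_combination h1
      rw [e]
      exact Submodule.add_mem _ (Submodule.sub_mem _ (Submodule.sub_mem _
        (Submodule.neg_mem _ (Loc_mul_right hqr (to2 mDp))) (Loc_mul_right hpr (to2 mDq)))
        (Loc_mul_right hpq (to2 mDr))) (Loc_mul_right Fpow_mem mDh)
    have hFm : algebraMap S5 K (pderiv m F) * h ∈ Loc K F G 0 := Loc_mul_left (algMap_mem _ _ _) mh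
    have hcast : ((k' + 1 : ℕ) : K) ∈ Loc K F G 0 := by
      have := algMap_mem (K := K) F G ((k' + 1 : ℕ) : S5)
      rwa [map_natCast] at this
    have hsum' : p' * D m p + q' * D m q + r' * D m r ∈ Loc K F G k' := by
      have e : p' * D m p + q' * D m q + r' * D m r = (p' * D m p + q' * D m q + r' * D m r
        - ((k' + 1 : ℕ) : K) * (algebraMap S5 K (F ^ k') * (algebraMap S5 K (pderiv m F) * h)))
        + ((k' + 1 : ℕ) : K) * (algebraMap S5 K (F ^ k') * (algebraMap S5 K (pderiv m F) * h)) := by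
        ring
      rw [e]
      exact Submodule.add_mem _ (Loc_anti (by omega) hsum)
        (Loc_mul_left hcast (Loc_mul_right Fpow_mem hFm))
    obtain ⟨e, he, e0, e1, e2⟩ := H1 C k' _ _ _ mc0 mc1 mc2 hsum'
    obtain ⟨w0, mw0, hw0⟩ := exists_of_mem_Loc hF0 e0
    obtain ⟨w1, mw1, hw1⟩ := exists_of_mem_Loc hF0 e1
    obtain ⟨w2, mw2, hw2⟩ := exists_of_mem_Loc hF0 e2
    have hdiff : w0 + w1 + w2 - ((k' + 1 : ℕ) : K) * (algebraMap S5 K (pderiv m F) * h)
        ∈ Loc K F G 1 := by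
      rw [← F_mul_mem_iff (j := k') hF0]
      have e' : algebraMap S5 K (F ^ k')
          * (w0 + w1 + w2 - ((k' + 1 : ℕ) : K) * (algebraMap S5 K (pderiv m F) * h))
          = p' * D m p + q' * D m q + r' * D m r
        - ((k' + 1 : ℕ) : K) * (algebraMap S5 K (F ^ k') * (algebraMap S5 K (pderiv m F) * h)) := by
        linear_combination -hw0 - hw1 - hw2
      rw [e']
      exact hsum
    -- divide by the constant
    set cst : K := algebraMap S5 K (MvPolynomial.C (((k' + 1 : ℕ) : ℂ)⁻¹)) with hcst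
    have hcst1 : cst * ((k' + 1 : ℕ) : K) = 1 := by
      have h1 : ((k' + 1 : ℕ) : K) = algebraMap S5 K (MvPolynomial.C ((k' + 1 : ℕ) : ℂ)) := by
        rw [map_natCast, map_natCast]
      rw [h1, hcst, ← map_mul, ← map_mul, inv_mul_cancel₀ (by exact_mod_cast Nat.succ_ne_zero k'),
        map_one, map_one]
    have mcst : ∀ g', cst ∈ Loc K F g' 0 := fun g' => algMap_mem _ _ _
    refine ⟨cst * w0, cst * w1, cst * w2, Loc_mul_left (mcst _) mw0, Loc_mul_left (mcst _) mw1,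
      Loc_mul_left (mcst _) mw2, ?_⟩
    have e' : algebraMap S5 K (pderiv m F) * h - (cst * w0 + cst * w1 + cst * w2)
        = -(cst * (w0 + w1 + w2 - ((k' + 1 : ℕ) : K) * (algebraMap S5 K (pderiv m F) * h))) := by
      linear_combination -(algebraMap S5 K (pderiv m F) * h) * hcst1
    rw [e']
    exact Submodule.neg_mem _ (Loc_mul_left (mcst _) hdiff)
  obtain ⟨w0, w1, w2, mw0, mw1, mw2, hw, homw0, homw1, homw2⟩ := Triv.hom hD C h mh _ homh htriv
  obtain ⟨m01, m10, i01, d01, d10⟩ := pair mp mp' mw0 hk ip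
  obtain ⟨m12, m21, i12, d12, d21⟩ := pair mq mq' mw1 hk iq
  obtain ⟨m20, m02, i20, d20, d02⟩ := pair mr mr' mw2 hk ir
  set P := algebraMap S5 K (F ^ k) with hP
  have homPw : ∀ {w : K}, IsHom D (-((k : ℤ) * d)) w → IsHom D 0 (P * w) := fun hw =>
    IsHom.congr' (homF.mul hw) (by ring)
  set v : Fin 3 → Fin 3 → K := fun i j =>
    ![![1, p * (1 - P * w0), r' * (1 + P * w2)],
      ![p' * (1 + P * w0), 1, q * (1 - P * w1)],
      ![r * (1 - P * w2), q' * (1 + P * w1), 1]] i j with hv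
  have v00 : v 0 0 = 1 := rfl
  have v11 : v 1 1 = 1 := rfl
  have v22 : v 2 2 = 1 := rfl
  have v01 : v 0 1 = p * (1 - P * w0) := rfl
  have v10 : v 1 0 = p' * (1 + P * w0) := rfl
  have v12 : v 1 2 = q * (1 - P * w1) := rfl
  have v21 : v 2 1 = q' * (1 + P * w1) := rfl
  have v20 : v 2 0 = r * (1 - P * w2) := rfl
  have v02 : v 0 2 = r' * (1 + P * w2) := rfl
  clear_value v
  have vmem : ∀ i j, v i j ∈ Loc K F (a i * a j) 0 := by
    intro i j
    fin_cases i <;> fin_cases j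
    · show v 0 0 ∈ _; rw [v00]; exact one_mem
    · show v 0 1 ∈ _; rw [v01]; exact m01
    · show v 0 2 ∈ Loc K F (a 0 * a 2) 0; rw [v02]; exact hswap m02
    · show v 1 0 ∈ Loc K F (a 1 * a 0) 0; rw [v10]; exact hswap m10
    · show v 1 1 ∈ _; rw [v11]; exact one_mem
    · show v 1 2 ∈ _; rw [v12]; exact m12
    · show v 2 0 ∈ _; rw [v20]; exact m20
    · show v 2 1 ∈ Loc K F (a 2 * a 1) 0; rw [v21]; exact hswap m21
    · show v 2 2 ∈ _; rw [v22]; exact one_mem
  have vone : ∀ i, v i i = 1 := by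
    intro i
    fin_cases i
    · exact v00
    · exact v11
    · exact v22
  have vG : ∀ i j, v i j ∈ Loc K F G 0 := fun i j => to2 (vmem i j)
  have GP : P ∈ Loc K F G k := Fpow_mem
  have GP0 : P ∈ Loc K F G 0 := Fpow_mem0
  have Gw0 := to2 mw0
  have Gw1 := to2 mw1
  have Gw2 := to2 mw2
  have v012 : v 0 1 * v 1 2 * v 2 0 - 1 ∈ Loc K F G (k + 1) := by
    rw [v01, v12, v20]
    have hPP : P * P ∈ Loc K F G (k + 1) := Loc_anti (by omega) (Loc_mul GP GP)
    have e : p * (1 - P * w0) * (q * (1 - P * w1)) * (r * (1 - P * w2)) - 1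
        = P * (h - (w0 + w1 + w2))
          + P * P * (w0 * w1 + w1 * w2 + w2 * w0 - P * w0 * w1 * w2
            - h * (w0 + w1 + w2) + P * h * (w0 * w1 + w1 * w2 + w2 * w0)
            - P * P * h * w0 * w1 * w2) := by
      have e1 : p * q * r = 1 + P * h := by rw [← hh]; ring
      linear_combination (1 - P * w0) * (1 - P * w1) * (1 - P * w2) * e1
    rw [e]
    refine Submodule.add_mem _ ?_ (Loc_mul_right hPP ?_)
    · exact Loc_mul GP hw
    · have a1 := Loc_mul_left Gw0 Gw1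
      have a2 := Loc_mul_left Gw1 Gw2
      have a3 := Loc_mul_left Gw2 Gw0
      have a4 := Submodule.add_mem _ (Submodule.add_mem _ a1 a2) a3
      have a5 : P * w0 * w1 * w2 ∈ Loc K F G 0 :=
        Loc_mul_left (Loc_mul_left (Loc_mul_left GP0 Gw0) Gw1) Gw2
      have a6 : h * (w0 + w1 + w2) ∈ Loc K F G 0 :=
        Loc_mul_left mh (Submodule.add_mem _ (Submodule.add_mem _ Gw0 Gw1) Gw2)
      have a7 : P * h * (w0 * w1 + w1 * w2 + w2 * w0) ∈ Loc K F G 0 :=
        Loc_mul_left (Loc_mul_left GP0 mh) a4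
      have a8 : P * P * h * w0 * w1 * w2 ∈ Loc K F G 0 :=
        Loc_mul_left (Loc_mul_left (Loc_mul_left (Loc_mul_left (Loc_mul_left GP0 GP0) mh) Gw0) Gw1)
          Gw2
      exact Submodule.sub_mem _ (Submodule.add_mem _ (Submodule.sub_mem _
        (Submodule.sub_mem _ a4 a5) a6) a7) a8
  refine ⟨v, ⟨vmem, vone, ?_, ?_⟩, ?_⟩
  · intro i j m
    have h1 := formal vG vone (by rw [v01, v10]; exact to2 i01) (by rw [v12, v21]; exact to2 i12)
      (by rw [v20, v02]; exact to2 i20) v012 i j m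
    have hx0 : v i j * v j m - v i m ∈ Loc K F (a i * a j * a m) 0 := by
      refine Submodule.sub_mem _ (Loc_mul_left ?_ ?_) ?_
      · exact Loc_of_dvd_pow (n := 1) ⟨a m, by rw [pow_one]⟩ (vmem i j)
      · exact Loc_of_dvd_pow (n := 1) ⟨a i, by rw [pow_one]; ring⟩ (vmem j m)
      · exact Loc_of_dvd_pow (n := 1) ⟨a j, by rw [pow_one]; ring⟩ (vmem i m)
    refine Loc_inter hF ?_ hFG hx0 h1
    intro hdvd
    rcases hF.dvd_or_dvd hdvd with h2 | h2
    · rcases hF.dvd_or_dvd h2 with h3 | h3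
      · exact C.not_dvd _ h3
      · exact C.not_dvd _ h3
    · exact C.not_dvd _ h2
  · intro i j
    fin_cases i <;> fin_cases j
    · show IsHom D (γ 0 - γ 0) (v 0 0)
      rw [v00, sub_self]; exact IsHom.one
    · show IsHom D (γ 1 - γ 0) (v 0 1)
      rw [v01]
      exact IsHom.congr' (homp.mul (IsHom.sub IsHom.one (homPw homw0))) (by ring)
    · show IsHom D (γ 2 - γ 0) (v 0 2)
      rw [v02]
      exact IsHom.congr' (homr'.mul (IsHom.add IsHom.one (homPw homw2))) (by ring)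
    · show IsHom D (γ 0 - γ 1) (v 1 0)
      rw [v10]
      exact IsHom.congr' (homp'.mul (IsHom.add IsHom.one (homPw homw0))) (by ring)
    · show IsHom D (γ 1 - γ 1) (v 1 1)
      rw [v11, sub_self]; exact IsHom.one
    · show IsHom D (γ 2 - γ 1) (v 1 2)
      rw [v12]
      exact IsHom.congr' (homq.mul (IsHom.sub IsHom.one (homPw homw1))) (by ring)
    · show IsHom D (γ 0 - γ 2) (v 2 0)
      rw [v20]
      exact IsHom.congr' (homr.mul (IsHom.sub IsHom.one (homPw homw2))) (by ring)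
    · show IsHom D (γ 1 - γ 2) (v 2 1)
      rw [v21]
      exact IsHom.congr' (homq'.mul (IsHom.add IsHom.one (homPw homw1))) (by ring)
    · show IsHom D (γ 2 - γ 2) (v 2 2)
      rw [v22, sub_self]; exact IsHom.one
  · intro i j
    have zero : ∀ i, v i i - u i i ∈ Loc K F (a i * a i) k := fun i => by
      rw [vone, hu.one, sub_self]; exact Submodule.zero_mem _
    fin_cases i <;> fin_cases j
    · exact zero 0
    · show v 0 1 - u 0 1 ∈ Loc K F (a 0 * a 1) k
      rw [v01]; exact d01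
    · show v 0 2 - u 0 2 ∈ Loc K F (a 0 * a 2) k
      rw [v02]
      have e : r' * (1 + P * w2) - u 0 2 = (r' * (1 + P * w2) - r') + (r' - u 0 2) := by ring
      rw [e]
      exact hswap (Submodule.add_mem _ d02 dr)
    · show v 1 0 - u 1 0 ∈ Loc K F (a 1 * a 0) k
      rw [v10]
      have e : p' * (1 + P * w0) - u 1 0 = (p' * (1 + P * w0) - p') + (p' - u 1 0) := by ring
      rw [e]
      exact hswap (Submodule.add_mem _ d10 dp)
    · exact zero 1
    · show v 1 2 - u 1 2 ∈ Loc K F (a 1 * a 2) k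
      rw [v12]; exact d12
    · show v 2 0 - u 2 0 ∈ Loc K F (a 2 * a 0) k
      rw [v20]; exact d20
    · show v 2 1 - u 2 1 ∈ Loc K F (a 2 * a 1) k
      rw [v21]
      have e : q' * (1 + P * w1) - u 2 1 = (q' * (1 + P * w1) - q') + (q' - u 2 1) := by ring
      rw [e]
      exact hswap (Submodule.add_mem _ d21 dq)
    · exact zero 2

end Pc2352a
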