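import Pool.Agent.Lib.Pc2352a.FacDefs

set_option autoImplicit false

/-!
# FacLoc (0.8h): basic lemmas on `Loc K F g k = F^k S5[1/g]`

All elementary: write `x = F^k r / g^n`, clear denominators, injectivity of `algebraMap S5 K`.
`Loc_inter`: `x = r / g^n`, `x = F^k s / g'^m`, so `F^k` divides `r g'^m`; `F` prime and `F` does not
divide `g'`, so `F^k` divides `r`. `Loc_cancel` similar (`y = r/g^n` with `F` not dividing `r`).
`D_mem_Loc`: `g^n x = F^(k+1) r`, apply `D i`: `g^n D x + n g^(n-1) D g x = F^k(...)`, multiply by `g`.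
-/

namespace Pc2352a

open MvPolynomial

section
variable {K : Type} [Field K] [Algebra S5 K] [IsFractionRing S5 K]
variable {F g g' : S5} {j k : ℕ} {x y : K}

lemma algMap_ne {p : S5} (hp : p ≠ 0) : algebraMap S5 K p ≠ 0 :=
  (map_ne_zero_iff _ (IsFractionRing.injective S5 K)).mpr hp

lemma algMap_mem (F g p : S5) : algebraMap S5 K p ∈ Loc K F g 0 :=
  ⟨0, p, by simp⟩

lemma F_pow_mem (F g : S5) (k : ℕ) (p : S5) : algebraMap S5 K (F ^ k * p) ∈ Loc K F g k :=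
  ⟨0, p, by simp⟩

lemma inv_pow_mem (F : S5) (hg : g ≠ 0) (n : ℕ) : (algebraMap S5 K (g ^ n))⁻¹ ∈ Loc K F g 0 := by
  refine ⟨n, 1, ?_⟩
  rw [mul_inv_cancel₀ (algMap_ne (pow_ne_zero n hg))]
  simp

lemma Loc_anti (h : j ≤ k) (hx : x ∈ Loc K F g k) : x ∈ Loc K F g j := by
  obtain ⟨n, r, hr⟩ := hx
  refine ⟨n, F ^ (k - j) * r, ?_⟩
  rw [hr, ← mul_assoc, ← pow_add, Nat.add_sub_cancel' h]

lemma Loc_of_dvd_pow {n : ℕ} (h : g ∣ g' ^ n) (hx : x ∈ Loc K F g k) : x ∈ Loc K F g' k := by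
  obtain ⟨q, hq⟩ := h
  obtain ⟨m, r, hr⟩ := hx
  refine ⟨n * m, q ^ m * r, ?_⟩
  rw [pow_mul, hq, mul_pow, map_mul, mul_comm (algebraMap S5 K (g ^ m)), mul_assoc, hr, ← map_mul]
  congr 1
  ring

lemma Loc_mul (hx : x ∈ Loc K F g j) (hy : y ∈ Loc K F g k) : x * y ∈ Loc K F g (j + k) := by
  obtain ⟨n, r, hr⟩ := hx
  obtain ⟨m, s, hs⟩ := hy
  refine ⟨n + m, r * s, ?_⟩
  have e : algebraMap S5 K (g ^ (n + m)) * (x * y) =
      (algebraMap S5 K (g ^ n) * x) * (algebraMap S5 K (g ^ m) * y) := by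
    rw [pow_add, map_mul]; ring
  rw [e, hr, hs, ← map_mul]
  congr 1
  ring

lemma Loc_mul_left (hx : x ∈ Loc K F g 0) (hy : y ∈ Loc K F g k) : x * y ∈ Loc K F g k := by
  have h := Loc_mul hx hy
  rwa [zero_add] at h

lemma Loc_mul_right (hx : x ∈ Loc K F g k) (hy : y ∈ Loc K F g 0) : x * y ∈ Loc K F g k := by
  have h := Loc_mul hx hy
  rwa [add_zero] at h

lemma Loc_pow (n : ℕ) (hx : x ∈ Loc K F g 0) : x ^ n ∈ Loc K F g 0 := by
  induction n with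
  | zero => rw [pow_zero]; exact ⟨0, 1, by simp⟩
  | succ n ih => rw [pow_succ]; exact Loc_mul_right ih hx

/-- every element of `F^k S5[1/g]` is `F^k y` with `y` in `S5[1/g]` -/
lemma exists_of_mem_Loc (hF : F ≠ 0) (hx : x ∈ Loc K F g k) :
    ∃ y ∈ Loc K F g 0, x = algebraMap S5 K (F ^ k) * y := by
  obtain ⟨n, r, hr⟩ := hx
  have h0 := algMap_ne (K := K) (pow_ne_zero k hF)
  refine ⟨(algebraMap S5 K (F ^ k))⁻¹ * x, ⟨n, r, ?_⟩, ?_⟩
  · have e : algebraMap S5 K (g ^ n) * ((algebraMap S5 K (F ^ k))⁻¹ * x) =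
        (algebraMap S5 K (F ^ k))⁻¹ * (algebraMap S5 K (g ^ n) * x) := by ring
    rw [e, hr, map_mul, ← mul_assoc, inv_mul_cancel₀ h0]
    simp
  · rw [← mul_assoc, mul_inv_cancel₀ h0, one_mul]

lemma F_mul_mem_iff (hF : F ≠ 0) :
    algebraMap S5 K (F ^ j) * x ∈ Loc K F g (j + k) ↔ x ∈ Loc K F g k := by
  constructor
  · rintro ⟨n, r, hr⟩
    refine ⟨n, r, ?_⟩
    have h0 := algMap_ne (K := K) (pow_ne_zero j hF)
    apply mul_left_cancel₀ h0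
    have e : algebraMap S5 K (F ^ j) * (algebraMap S5 K (g ^ n) * x) =
      algebraMap S5 K (g ^ n) * (algebraMap S5 K (F ^ j) * x) := by ring
    rw [e, hr, ← map_mul]
    congr 1
    ring
  · intro hx
    have h := Loc_mul (F_pow_mem (K := K) F g j 1) hx
    rwa [mul_one] at h

lemma algMap_mem_iff (hF : Prime F) (hg : ¬ F ∣ g) {p : S5} :
    algebraMap S5 K p ∈ Loc K F g k ↔ F ^ k ∣ p := by
  constructor
  · rintro ⟨n, r, hr⟩
    rw [← map_mul] at hr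
    have h1 : g ^ n * p = F ^ k * r := IsFractionRing.injective S5 K hr
    have h2 : F ^ k ∣ g ^ n * p := ⟨r, h1⟩
    exact hF.pow_dvd_of_dvd_mul_left k (fun h => hg (hF.dvd_of_dvd_pow h)) h2
  · rintro ⟨r, rfl⟩
    exact F_pow_mem F g k r

lemma Loc_inter (hF : Prime F) (hg : ¬ F ∣ g) (hg' : ¬ F ∣ g') (hx : x ∈ Loc K F g 0)
    (hx' : x ∈ Loc K F g' k) : x ∈ Loc K F g k := by
  obtain ⟨n, r, hr⟩ := hx
  obtain ⟨m, s, hs⟩ := hx'
  rw [pow_zero, one_mul] at hr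
  have h1 : algebraMap S5 K (g' ^ m * r) = algebraMap S5 K (F ^ k * (g ^ n * s)) := by
    rw [map_mul, ← hr, show F ^ k * (g ^ n * s) = g ^ n * (F ^ k * s) by ring, map_mul, ← hs]
    ring
  have h2 : g' ^ m * r = F ^ k * (g ^ n * s) := IsFractionRing.injective S5 K h1
  have h3 : F ^ k ∣ r :=
    hF.pow_dvd_of_dvd_mul_left k (fun h => hg' (hF.dvd_of_dvd_pow h)) ⟨_, h2⟩
  obtain ⟨q, rfl⟩ := h3
  exact ⟨n, q, hr⟩

lemma Loc_cancel (hF : Prime F) (hg : ¬ F ∣ g) (hx : x ∈ Loc K F g 0) (hy : y ∈ Loc K F g 0)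
    (hy1 : y ∉ Loc K F g 1) (hxy : x * y ∈ Loc K F g k) : x ∈ Loc K F g k := by
  obtain ⟨n, r, hr⟩ := hx
  obtain ⟨m, s, hs⟩ := hy
  obtain ⟨l, t, ht⟩ := hxy
  rw [pow_zero, one_mul] at hr hs
  have hs1 : ¬ F ∣ s := by
    rintro ⟨q, rfl⟩
    exact hy1 ⟨m, q, by rw [pow_one]; exact hs⟩
  have h1 : algebraMap S5 K (g ^ l * s * r) = algebraMap S5 K (F ^ k * (g ^ (n + m) * t)) := by
    rw [map_mul, map_mul, ← hr, ← hs,
      show F ^ k * (g ^ (n + m) * t) = g ^ n * g ^ m * (F ^ k * t) by rw [pow_add]; ring,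
      map_mul _ (g ^ n * g ^ m), ← ht, map_mul]
    ring
  have h2 := IsFractionRing.injective S5 K h1
  have h3 : ¬ F ∣ g ^ l * s := fun h => (hF.dvd_or_dvd h).elim
    (fun h => hg (hF.dvd_of_dvd_pow h)) hs1
  have h4 : F ^ k ∣ r := hF.pow_dvd_of_dvd_mul_left k h3 ⟨_, h2⟩
  obtain ⟨q, rfl⟩ := h4
  exact ⟨n, q, hr⟩

lemma Loc_prime (hF : Prime F) (hg : ¬ F ∣ g) (hx : x ∈ Loc K F g 0) (hy : y ∈ Loc K F g 0)
    (hxy : x * y ∈ Loc K F g 1) : x ∈ Loc K F g 1 ∨ y ∈ Loc K F g 1 := by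
  by_cases h : y ∈ Loc K F g 1
  · exact Or.inr h
  · exact Or.inl (Loc_cancel hF hg hx hy h hxy)

lemma mul_pow_mem_Loc {h : S5} (hx : x ∈ Loc K F (g * h) k) :
    ∃ N0 : ℕ, ∀ N, N0 ≤ N → algebraMap S5 K (h ^ N) * x ∈ Loc K F g k := by
  obtain ⟨n, r, hr⟩ := hx
  refine ⟨n, fun N hN => ⟨n, h ^ (N - n) * r, ?_⟩⟩
  have e : h ^ N = h ^ n * h ^ (N - n) := by rw [← pow_add, Nat.add_sub_cancel' hN]
  rw [e, show F ^ k * (h ^ (N - n) * r) = h ^ (N - n) * (F ^ k * r) by ring,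
    map_mul _ (h ^ (N - n)), ← hr, mul_pow, map_mul, map_mul]
  ring

variable (D : Fin 5 → Derivation ℤ K K)
  (hD : ∀ i p, D i (algebraMap S5 K p) = algebraMap S5 K (pderiv i p))

include hD in
lemma D_mem_Loc (hg : g ≠ 0) (i : Fin 5) (hx : x ∈ Loc K F g (k + 1)) : D i x ∈ Loc K F g k := by
  obtain ⟨n, r, hr⟩ := hx
  have h1 := congrArg (D i) hr
  rw [Derivation.leibniz, hD, hD, smul_eq_mul, smul_eq_mul] at h1
  refine ⟨n + n, g ^ n * ((k + 1 : ℕ) * pderiv i F * r + F * pderiv i r) -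
    F * r * pderiv i (g ^ n), ?_⟩
  have e1 : pderiv i (F ^ (k + 1) * r) = F ^ k * ((k + 1 : ℕ) * pderiv i F * r + F * pderiv i r) := by
    rw [Derivation.leibniz, Derivation.leibniz_pow, smul_eq_mul, smul_eq_mul, smul_eq_mul,
      nsmul_eq_mul, Nat.add_sub_cancel, pow_succ]
    ring
  have e2 : algebraMap S5 K (g ^ (n + n)) * D i x =
      algebraMap S5 K (g ^ n) * (algebraMap S5 K (g ^ n) * D i x +
        x * algebraMap S5 K (pderiv i (g ^ n))) -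
      (algebraMap S5 K (g ^ n) * x) * algebraMap S5 K (pderiv i (g ^ n)) := by
    rw [pow_add, map_mul]; ring
  rw [e2, h1, hr, e1, ← map_mul, ← map_mul, ← map_sub]
  congr 1
  rw [pow_succ]
  ring

include hD in
lemma D_mem_Loc0 (hg : g ≠ 0) (i : Fin 5) (hx : x ∈ Loc K F g 0) : D i x ∈ Loc K F g 0 := by
  obtain ⟨n, r, hr⟩ := hx
  have h1 := congrArg (D i) hr
  rw [pow_zero, one_mul] at hr h1
  rw [Derivation.leibniz, hD, hD, smul_eq_mul, smul_eq_mul] at h1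
  refine ⟨n + n, g ^ n * pderiv i r - r * pderiv i (g ^ n), ?_⟩
  have e2 : algebraMap S5 K (g ^ (n + n)) * D i x =
      algebraMap S5 K (g ^ n) * (algebraMap S5 K (g ^ n) * D i x +
        x * algebraMap S5 K (pderiv i (g ^ n))) -
      (algebraMap S5 K (g ^ n) * x) * algebraMap S5 K (pderiv i (g ^ n)) := by
    rw [pow_add, map_mul]; ring
  rw [e2, h1, hr, pow_zero, one_mul, ← map_mul, ← map_mul, ← map_sub]

end

end Pc2352a
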