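import Pool.Agent.Lib.Pc2352a.FacDefs

set_option autoImplicit false

/-!
# FacNode (1.5h): at a node the partial derivatives generate the ideal of the point

`J = (F_0, ..., F_4)`, `F_m = pderiv m F`.

`node_local`: let `z ≠ 0`, all `F_m(z) = 0`, Hessian of rank 4 at `z`. Then there is a form `h` with `h(z) ≠ 0`
and `h g ∈ J` for every form `g` with `g(z) = 0`.
Proof: let `λ` be a linear form with `λ(z) = 1`, and `y_j := X_j - z_j λ` (j = 0..4): linear forms vanishing at `z`,
generating the ideal `I_z` of all forms vanishing at `z` (substitute `X_j = y_j + z_j λ` in `g`: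
`g = g(z) λ^deg + (y)`). Euler for `F_m` at `z`: `H(z) z = (d-1) grad F(z) = 0`, so the symmetric rank 4 matrix
`H = (F_mj(z))` has kernel `C z`, so the map `y ↦ H y` is injective on the hyperplane `λ = 0`; there is
a 5x5 matrix `B` with `B H v = v` for all `v` with `λ(v) = 0` (so `B H y = y` as a vector of linear forms,
as `λ(y) = Σ λ_j y_j = λ - λ(z) λ = 0`). Taylor: `F_m = λ^(d-2) Σ_j H_mj y_j + Σ_jk (..) y_j y_k`
(substitute `X_j = y_j + z_j λ`, the coefficients `(..)` are forms of degree `d - 3`; if `d = 2` there is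
no such term). Hence `λ^(d-2) y_i = Σ_m B_im F_m - Σ_j q_ij y_j` with forms `q_ij ∈ I_z` of degree `d-2`. So
`(λ^(d-2) 1 + Q) y ∈ J^5`, and multiplying with the adjugate matrix, `h := det (λ^(d-2) 1 + Q)` satisfies
`h y_i ∈ J` for all `i`, and `h(z) = 1`. `h` is a form (of degree `5 (d-2)`).

`sat_nodes`: let `g` be a form vanishing on all nodes, `l` a linear form that vanishes at no node. Then
`l^n g ∈ J` for some `n`. Proof: the ideal `(J : g)` has zero set contained in `{0}`: it contains `J`, so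
a nonzero zero `w` would be `c z`, `z ∈ Z`, `c ≠ 0`; but `h_z ∈ (J : g)` and `h_z(c z) = c^deg h_z(z) ≠ 0`.
So `l` vanishes on the zero set (even `λ X_i` for any i), and by the Nullstellensatz
(`MvPolynomial.vanishingIdeal_zeroLocus_eq_radical`) `l^n ∈ (J : g)`.
-/

namespace Pc2352a

open MvPolynomial

namespace FacNodeAux

/-- The linear form with coefficients `lam`. -/
noncomputable def lf (lam : Fin 5 → ℂ) : S5 := ∑ i, C (lam i) * X i

/-- The linear forms vanishing at `z`. -/
noncomputable def yy (lam z : Fin 5 → ℂ) (j : Fin 5) : S5 := X j - C (z j) * lf lam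

lemma lf_hom (lam : Fin 5 → ℂ) : (lf lam).IsHomogeneous 1 := by
  unfold lf
  refine IsHomogeneous.sum _ _ _ fun i _ => ?_
  have h := (isHomogeneous_C (Fin 5) (lam i)).mul (isHomogeneous_X ℂ i)
  rwa [zero_add] at h

lemma eval_lf (lam z : Fin 5 → ℂ) : eval z (lf lam) = ∑ i, lam i * z i := by
  unfold lf
  rw [map_sum]
  refine Finset.sum_congr rfl fun i _ => ?_
  rw [map_mul, eval_C, eval_X]

lemma pderiv_lf (lam : Fin 5 → ℂ) (i : Fin 5) : pderiv i (lf lam) = C (lam i) := by
  unfold lf
  rw [map_sum, Finset.sum_eq_single i]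
  · rw [pderiv_C_mul, pderiv_X_self, mul_one]
  · intro b _ hb
    rw [pderiv_C_mul, pderiv_X_of_ne hb, mul_zero]
  · intro h
    exact absurd (Finset.mem_univ _) h

lemma pderiv_yy (lam z : Fin 5 → ℂ) (i j : Fin 5) :
    pderiv i (yy lam z j) = (if j = i then 1 else 0) - C (z j * lam i) := by
  unfold yy
  rw [map_sub, pderiv_C_mul, pderiv_lf, C_mul]
  congr 1
  by_cases h : j = i
  · rw [if_pos h, h, pderiv_X_self]
  · rw [if_neg h, pderiv_X_of_ne h]

lemma eval_yy (lam z : Fin 5 → ℂ) (hz : ∑ i, lam i * z i = 1) (j : Fin 5) :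
    eval z (yy lam z j) = 0 := by
  unfold yy
  rw [map_sub, map_mul, eval_X, eval_C, eval_lf, hz, mul_one, sub_self]

lemma lam_yy (lam z : Fin 5 → ℂ) (hz : ∑ i, lam i * z i = 1) :
    ∑ j, C (lam j) * yy lam z j = 0 := by
  have h1 : ∑ j, C (lam j) * yy lam z j =
      lf lam - C (∑ j, lam j * z j) * lf lam := by
    unfold yy
    rw [map_sum, Finset.sum_mul]
    conv_rhs => rw [show lf lam = ∑ j, C (lam j) * X j from rfl]
    rw [← Finset.sum_sub_distrib]
    refine Finset.sum_congr rfl fun j _ => ?_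
    rw [C_mul]
    unfold lf
    ring
  rw [h1, hz, C_1, one_mul, sub_self]

/-- `G = G(z) lam^e` plus a combination of the linear forms vanishing at `z`. -/
def Dec (lam z : Fin 5 → ℂ) (e : ℕ) (G : S5) : Prop :=
  ∃ c : Fin 5 → S5, (∀ j, (c j).IsHomogeneous (e - 1)) ∧ (e = 0 → ∀ j, c j = 0) ∧
    G = C (eval z G) * (lf lam) ^ e + ∑ j, c j * yy lam z j

lemma dec_zero (lam z : Fin 5 → ℂ) (e : ℕ) : Dec lam z e 0 := by
  refine ⟨fun _ => 0, fun j => isHomogeneous_zero _ _ _, fun _ _ => rfl, ?_⟩
  simp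

lemma dec_add (lam z : Fin 5 → ℂ) (e : ℕ) (G G' : S5) (h : Dec lam z e G)
    (h' : Dec lam z e G') : Dec lam z e (G + G') := by
  obtain ⟨c, hc1, hc2, hc3⟩ := h
  obtain ⟨c', hc1', hc2', hc3'⟩ := h'
  refine ⟨fun j => c j + c' j, fun j => (hc1 j).add (hc1' j), fun he j => ?_, ?_⟩
  · show c j + c' j = 0
    rw [hc2 he j, hc2' he j, add_zero]
  · have e1 : ∑ j, (c j + c' j) * yy lam z j =
        ∑ j, c j * yy lam z j + ∑ j, c' j * yy lam z j := by
      rw [← Finset.sum_add_distrib]
      exact Finset.sum_congr rfl fun j _ => add_mul _ _ _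
    show G + G' = C (eval z (G + G')) * lf lam ^ e + ∑ j, (c j + c' j) * yy lam z j
    rw [e1, map_add, C_add]
    calc G + G' = (C (eval z G) * lf lam ^ e + ∑ j, c j * yy lam z j) +
          (C (eval z G') * lf lam ^ e + ∑ j, c' j * yy lam z j) := by rw [← hc3, ← hc3']
      _ = _ := by ring

lemma dec_monomial (lam z : Fin 5 → ℂ) (a : ℂ) (e : ℕ) : ∀ d : Fin 5 →₀ ℕ, d.degree = e →
    Dec lam z e (monomial d a) := by
  induction e with
  | zero =>
    intro d hd
    have h0 : d = 0 := by
      rwa [Finsupp.degree_eq_zero_iff] at hd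
    subst h0
    refine ⟨fun _ => 0, fun j => isHomogeneous_zero _ _ _, fun _ _ => rfl, ?_⟩
    have h1 : (monomial 0 a : S5) = C a := rfl
    rw [h1, eval_C]
    simp
  | succ e ih =>
    intro d hdeg
    obtain ⟨i, hi⟩ : ∃ i, d i ≠ 0 := by
      by_contra hc
      push Not at hc
      have : d = 0 := Finsupp.ext hc
      rw [this] at hdeg
      simp at hdeg
    have hd' : d = Finsupp.single i 1 + (d - Finsupp.single i 1) := by
      rw [add_tsub_cancel_of_le]
      rw [Finsupp.single_le_iff]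
      omega
    have h2 : (d - Finsupp.single i 1).degree = e := by
      have h3 := congrArg Finsupp.degree hd'
      rw [map_add, Finsupp.degree_single, hdeg] at h3
      omega
    have hm : monomial d a = (X i : S5) * monomial (d - Finsupp.single i 1) a := by
      rw [X, monomial_mul, one_mul, ← hd']
    obtain ⟨c, hc1, hc2, hc3⟩ := ih _ h2
    set G : S5 := monomial (d - Finsupp.single i 1) a with hG
    rw [hm]
    refine ⟨fun j => X i * c j + (if j = i then C (eval z G) * lf lam ^ e else 0), fun j => ?_,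
      fun he => absurd he (Nat.succ_ne_zero e), ?_⟩
    · refine IsHomogeneous.add ?_ ?_
      · rcases Nat.eq_zero_or_pos e with he | he
        · rw [hc2 he j, mul_zero]
          exact isHomogeneous_zero _ _ _
        · have h3 := (isHomogeneous_X ℂ i).mul (hc1 j)
          rwa [show 1 + (e - 1) = e + 1 - 1 by omega] at h3
      · split_ifs
        · have h3 := (isHomogeneous_C (Fin 5) (eval z G)).mul ((lf_hom lam).pow e)
          rwa [zero_add, one_mul] at h3
        · exact isHomogeneous_zero _ _ _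
    · have e1 : ∑ j, (X i * c j + (if j = i then C (eval z G) * lf lam ^ e else 0)) *
          yy lam z j = X i * (∑ j, c j * yy lam z j) +
            C (eval z G) * lf lam ^ e * yy lam z i := by
        have e2 : ∀ j, (X i * c j + (if j = i then C (eval z G) * lf lam ^ e else 0)) *
            yy lam z j = X i * (c j * yy lam z j) +
              (if j = i then C (eval z G) * lf lam ^ e * yy lam z i else 0) := by
          intro j
          by_cases hj : j = i
          · rw [if_pos hj, if_pos hj, hj]; ring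
          · rw [if_neg hj, if_neg hj]; ring
        rw [Finset.sum_congr rfl fun j _ => e2 j, Finset.sum_add_distrib, ← Finset.mul_sum,
          Finset.sum_ite_eq', if_pos (Finset.mem_univ _)]
      show X i * G = C (eval z (X i * G)) * lf lam ^ (e + 1) + _
      rw [e1, map_mul, eval_X, C_mul]
      have e3 : yy lam z i = X i - C (z i) * lf lam := rfl
      calc X i * G = X i * (C (eval z G) * lf lam ^ e + ∑ j, c j * yy lam z j) := by rw [← hc3]
        _ = C (z i) * C (eval z G) * lf lam ^ (e + 1) + (X i * ∑ j, c j * yy lam z j +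
            C (eval z G) * lf lam ^ e * yy lam z i) := by rw [e3, pow_succ]; ring

lemma dec_of_hom (lam z : Fin 5 → ℂ) (e : ℕ) (G : S5) (hG : G.IsHomogeneous e) :
    Dec lam z e G := by
  rw [G.as_sum]
  refine Finset.sum_induction _ (Dec lam z e) (dec_add lam z e) (dec_zero lam z e) ?_
  intro d hd
  refine dec_monomial lam z _ e d ?_
  rw [Finsupp.degree_eq_weight_one]
  exact hG (mem_support_iff.mp hd)

lemma eval_smul_hom {n : ℕ} {h : S5} (hh : h.IsHomogeneous n) (c : ℂ) (z : Fin 5 → ℂ) :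
    eval (c • z) h = c ^ n * eval z h := by
  rw [eval_eq', eval_eq', Finset.mul_sum]
  refine Finset.sum_congr rfl fun d hd => ?_
  have hdeg : ∑ i, d i = n := by
    rw [← Finsupp.degree_eq_sum, Finsupp.degree_eq_weight_one]
    exact hh (mem_support_iff.mp hd)
  have e1 : ∏ i, (c • z) i ^ d i = c ^ n * ∏ i, z i ^ d i := by
    rw [← hdeg, ← Finset.prod_pow_eq_pow_sum, ← Finset.prod_mul_distrib]
    refine Finset.prod_congr rfl fun i _ => ?_
    rw [Pi.smul_apply, smul_eq_mul, mul_pow]
  rw [e1]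
  ring

lemma det_hom {n : ℕ} (M : Matrix (Fin 5) (Fin 5) S5) (hM : ∀ i j, (M i j).IsHomogeneous n) :
    M.det.IsHomogeneous (5 * n) := by
  rw [Matrix.det_apply']
  refine IsHomogeneous.sum _ _ _ fun σ _ => ?_
  have h1 : (∏ i, M (σ i) i).IsHomogeneous (∑ _i : Fin 5, n) :=
    IsHomogeneous.prod _ _ _ fun i _ => hM _ _
  rw [Finset.sum_const, Finset.card_univ, Fintype.card_fin, smul_eq_mul] at h1
  have h2 : (((Equiv.Perm.sign σ : ℤˣ) : ℤ) : S5).IsHomogeneous 0 := by
    rw [← map_intCast (C : ℂ →+* S5)]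
    exact isHomogeneous_C _ _
  have h3 := h2.mul h1
  rwa [zero_add] at h3

/-- The linear algebra at the node. -/
lemma det_ne (M : Matrix (Fin 5) (Fin 5) ℂ) (hr : M.rank = 4) (z lam : Fin 5 → ℂ)
    (hMz : M.mulVec z = 0) (hz : ∑ i, lam i * z i = 1) :
    ∃ w : Fin 5 → ℂ, (Matrix.of fun m i => M m i + w m * lam i).det ≠ 0 := by
  have hrank : Module.finrank ℂ (LinearMap.range M.mulVecLin) = 4 := hr
  obtain ⟨w, hw⟩ : ∃ w, w ∉ LinearMap.range M.mulVecLin := by
    by_contra hc
    push Not at hc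
    have : LinearMap.range M.mulVecLin = ⊤ := by
      rw [eq_top_iff]
      intro x _
      exact hc x
    rw [this, finrank_top] at hrank
    simp at hrank
  have hz0 : z ≠ 0 := by
    rintro rfl
    simp at hz
  have hker : Module.finrank ℂ (LinearMap.ker M.mulVecLin) = 1 := by
    have h1 := LinearMap.finrank_range_add_finrank_ker M.mulVecLin
    rw [hrank] at h1
    simp at h1
    omega
  refine ⟨w, fun hdet => ?_⟩
  obtain ⟨v, hv0, hv⟩ := Matrix.exists_mulVec_eq_zero_iff.2 hdet
  have hv' : M.mulVec v + (∑ i, lam i * v i) • w = 0 := by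
    rw [← hv]
    ext m
    simp only [Matrix.mulVec, dotProduct, Pi.add_apply, Pi.smul_apply, smul_eq_mul,
      Matrix.of_apply]
    rw [Finset.sum_mul, ← Finset.sum_add_distrib]
    refine Finset.sum_congr rfl fun i _ => ?_
    ring
  have hlam : ∑ i, lam i * v i = 0 := by
    by_contra hne
    apply hw
    refine ⟨(-(∑ i, lam i * v i)⁻¹) • v, ?_⟩
    rw [map_smul, Matrix.mulVecLin_apply, eq_neg_of_add_eq_zero_left hv', smul_neg, neg_smul,
      neg_neg, smul_smul, inv_mul_cancel₀ hne, one_smul]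
  rw [hlam, zero_smul, add_zero] at hv'
  have h1 : ∀ u : LinearMap.ker M.mulVecLin, ∃ c : ℂ,
      c • (⟨z, hMz⟩ : LinearMap.ker M.mulVecLin) = u :=
    (finrank_eq_one_iff_of_nonzero' _ (by
      intro h
      exact hz0 (congrArg Subtype.val h))).1 hker
  obtain ⟨c, hc⟩ := h1 ⟨v, hv'⟩
  have hc' : c • z = v := congrArg Subtype.val hc
  have h2 : ∑ i, lam i * v i = c := by
    rw [← hc']
    calc ∑ i, lam i * (c • z) i = c * ∑ i, lam i * z i := by
          rw [Finset.mul_sum]
          refine Finset.sum_congr rfl fun i _ => ?_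
          rw [Pi.smul_apply, smul_eq_mul]; ring
      _ = c := by rw [hz, mul_one]
  rw [hlam] at h2
  apply hv0
  rw [← hc', ← h2, zero_smul]

end FacNodeAux

theorem node_local {F : S5} {d : ℕ} (hd : 2 ≤ d) (hF : F.IsHomogeneous d) (z : Fin 5 → ℂ)
    (hz : z ≠ 0) (hz' : ∀ i, eval z (pderiv i F) = 0)
    (hr : (Matrix.of (fun i j : Fin 5 => eval z (pderiv i (pderiv j F)))).rank = 4) :
    ∃ (h : S5) (n : ℕ), h.IsHomogeneous n ∧ eval z h ≠ 0 ∧
      ∀ (g : S5) (e : ℕ), g.IsHomogeneous e → eval z g = 0 →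
        h * g ∈ Ideal.span (Set.range fun i => pderiv i F) := by
  obtain ⟨i₀, hi₀⟩ : ∃ i, z i ≠ 0 := Function.ne_iff.1 hz
  obtain ⟨lam, hlam⟩ : ∃ lam : Fin 5 → ℂ, ∑ i, lam i * z i = 1 := by
    refine ⟨Pi.single i₀ (z i₀)⁻¹, ?_⟩
    rw [Finset.sum_eq_single i₀]
    · rw [Pi.single_eq_same, inv_mul_cancel₀ hi₀]
    · intro b _ hb
      rw [Pi.single_eq_of_ne hb, zero_mul]
    · intro h
      exact absurd (Finset.mem_univ _) h
  have hFm : ∀ m, (pderiv m F).IsHomogeneous (d - 1) := fun m => hF.pderiv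
  have hdec := fun m => FacNodeAux.dec_of_hom lam z (d - 1) (pderiv m F) (hFm m)
  choose c hc1 _ hc3 using hdec
  have hc4 : ∀ m, pderiv m F = ∑ j, c m j * FacNodeAux.yy lam z j := by
    intro m
    have h1 := hc3 m
    rw [hz' m, C_0, zero_mul, zero_add] at h1
    exact h1
  -- the Hessian
  set M : Matrix (Fin 5) (Fin 5) ℂ :=
    (Matrix.of (fun i j : Fin 5 => eval z (pderiv i (pderiv j F)))).transpose with hM
  have hMr : M.rank = 4 := by rw [hM, Matrix.rank_transpose, hr]
  have hMz : M.mulVec z = 0 := by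
    ext m
    have h1 := (hFm m).sum_X_mul_pderiv
    have h2 := congrArg (eval z) h1
    rw [map_sum, map_nsmul, hz' m, nsmul_zero] at h2
    rw [Pi.zero_apply, ← h2]
    simp only [Matrix.mulVec, dotProduct, hM, Matrix.transpose_apply, Matrix.of_apply]
    refine Finset.sum_congr rfl fun i _ => ?_
    rw [map_mul, eval_X, mul_comm]
  obtain ⟨w, hw⟩ := FacNodeAux.det_ne M hMr z lam hMz hlam
  have hMe : ∀ m i, M m i = eval z (c m i) - lam i * ∑ j, eval z (c m j) * z j := by
    intro m i
    show eval z (pderiv i (pderiv m F)) = _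
    rw [hc4 m, map_sum, map_sum]
    have h1 : ∀ j, eval z (pderiv i (c m j * FacNodeAux.yy lam z j)) =
        (if j = i then eval z (c m j) else 0) - lam i * (eval z (c m j) * z j) := by
      intro j
      rw [pderiv_mul, map_add, map_mul, map_mul, FacNodeAux.eval_yy lam z hlam,
        FacNodeAux.pderiv_yy, map_sub, eval_C, mul_zero, zero_add]
      by_cases hj : j = i
      · rw [if_pos hj, if_pos hj, map_one]; ring
      · rw [if_neg hj, if_neg hj, map_zero]; ring
    rw [Finset.sum_congr rfl fun j _ => h1 j, Finset.sum_sub_distrib, Finset.sum_ite_eq',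
      if_pos (Finset.mem_univ _), ← Finset.mul_sum]
  -- the matrix
  set u : Fin 5 → ℂ := fun m => w m - ∑ j, eval z (c m j) * z j with hu
  set N : Matrix (Fin 5) (Fin 5) S5 :=
    Matrix.of fun m j => c m j + C (u m * lam j) * FacNodeAux.lf lam ^ (d - 2) with hN
  have hNhom : ∀ m j, (N m j).IsHomogeneous (d - 2) := by
    intro m j
    show (c m j + C (u m * lam j) * FacNodeAux.lf lam ^ (d - 2)).IsHomogeneous (d - 2)
    refine IsHomogeneous.add ?_ ?_
    · have := hc1 m j
      rwa [show d - 1 - 1 = d - 2 by omega] at this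
    · have h3 := (isHomogeneous_C (Fin 5) (u m * lam j)).mul
        ((FacNodeAux.lf_hom lam).pow (d - 2))
      rwa [zero_add, one_mul] at h3
  have hNy : ∀ m, ∑ j, N m j * FacNodeAux.yy lam z j = pderiv m F := by
    intro m
    have h1 : ∀ j, N m j * FacNodeAux.yy lam z j = c m j * FacNodeAux.yy lam z j +
        C (u m) * FacNodeAux.lf lam ^ (d - 2) * (C (lam j) * FacNodeAux.yy lam z j) := by
      intro j
      show (c m j + C (u m * lam j) * FacNodeAux.lf lam ^ (d - 2)) * FacNodeAux.yy lam z j = _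
      rw [C_mul]; ring
    rw [Finset.sum_congr rfl fun j _ => h1 j, Finset.sum_add_distrib, ← Finset.mul_sum,
      FacNodeAux.lam_yy lam z hlam, mul_zero, add_zero, ← hc4]
  have hNz : eval z N.det ≠ 0 := by
    rw [RingHom.map_det]
    have h1 : (eval z).mapMatrix N = Matrix.of fun m i => M m i + w m * lam i := by
      ext m i
      rw [RingHom.mapMatrix_apply, Matrix.map_apply, Matrix.of_apply, hMe]
      show eval z (c m i + C (u m * lam i) * FacNodeAux.lf lam ^ (d - 2)) = _
      rw [map_add, map_mul, map_pow, eval_C, FacNodeAux.eval_lf, hlam, one_pow, mul_one]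
      show _ = eval z (c m i) - lam i * ∑ j, eval z (c m j) * z j + w m * lam i
      have h2 : u m = w m - ∑ j, eval z (c m j) * z j := rfl
      rw [h2]; ring
    rw [h1]
    exact hw
  refine ⟨N.det, 5 * (d - 2), FacNodeAux.det_hom N hNhom, hNz, fun g e hg hgz => ?_⟩
  have hy : ∀ i, N.det * FacNodeAux.yy lam z i ∈
      Ideal.span (Set.range fun i => pderiv i F) := by
    intro i
    have h1 : N.adjugate.mulVec (N.mulVec (FacNodeAux.yy lam z)) =
        N.det • FacNodeAux.yy lam z := by
      rw [Matrix.mulVec_mulVec, Matrix.adjugate_mul, Matrix.smul_mulVec, Matrix.one_mulVec]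
    have h2 := congrFun h1 i
    rw [Pi.smul_apply, smul_eq_mul] at h2
    rw [← h2]
    show ∑ m, N.adjugate i m * (∑ j, N m j * FacNodeAux.yy lam z j) ∈ _
    refine Ideal.sum_mem _ fun m _ => ?_
    rw [hNy]
    exact Ideal.mul_mem_left _ _ (Ideal.subset_span ⟨m, rfl⟩)
  obtain ⟨b, _, _, hb⟩ := FacNodeAux.dec_of_hom lam z e g hg
  rw [hgz, C_0, zero_mul, zero_add] at hb
  rw [hb, Finset.mul_sum]
  refine Ideal.sum_mem _ fun j _ => ?_
  rw [show N.det * (b j * FacNodeAux.yy lam z j) = b j * (N.det * FacNodeAux.yy lam z j) by ring]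
  exact Ideal.mul_mem_left _ _ (hy j)

theorem sat_nodes {F : S5} {d : ℕ} (hd : 2 ≤ d) (hF : F.IsHomogeneous d) (hn : Nodal F)
    {Z : Finset (Fin 5 → ℂ)} (hZ : NodeSet F Z) {l : S5} (hl : l.IsHomogeneous 1) (g : S5) (e : ℕ)
    (hg : g.IsHomogeneous e) (hgZ : ∀ z ∈ Z, eval z g = 0) :
    ∃ n : ℕ, l ^ n * g ∈ Ideal.span (Set.range fun i => pderiv i F) := by
  set J : Ideal S5 := Ideal.span (Set.range fun i => pderiv i F) with hJ
  let I : Ideal S5 :=
    { carrier := {h | h * g ∈ J}
      add_mem' := fun {a b} ha hb => by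
        show (a + b) * g ∈ J
        rw [add_mul]
        exact J.add_mem ha hb
      zero_mem' := by
        show 0 * g ∈ J
        rw [zero_mul]
        exact J.zero_mem
      smul_mem' := fun c a ha => by
        show (c • a) * g ∈ J
        rw [smul_eq_mul, mul_assoc]
        exact J.mul_mem_left c ha }
  have hIJ : J ≤ I := fun h hh => J.mul_mem_right g hh
  have hl0 : eval (0 : Fin 5 → ℂ) l = 0 := by
    have h1 := FacNodeAux.eval_smul_hom hl (0:ℂ) (0 : Fin 5 → ℂ)
    rw [zero_smul, pow_one, zero_mul] at h1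
    exact h1
  have hvan : l ∈ vanishingIdeal ℂ (zeroLocus ℂ I) := by
    rw [mem_vanishingIdeal_iff]
    intro w hw
    rw [mem_zeroLocus_iff] at hw
    rw [aeval_eq_eval]
    have hwF : ∀ i, eval w (pderiv i F) = 0 := by
      intro i
      have h1 := hw _ (hIJ (Ideal.subset_span ⟨i, rfl⟩))
      rw [aeval_eq_eval] at h1
      exact h1
    rcases hZ.2 w hwF with rfl | ⟨z, hzZ, c, rfl⟩
    · exact hl0
    · by_cases hc : c = 0
      · rw [hc, zero_smul]
        exact hl0
      · exfalso
        obtain ⟨hz0, hz1⟩ := hZ.1 z hzZ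
        obtain ⟨h, n, hh1, hh2, hh3⟩ := node_local hd hF z hz0 hz1 (hn z hz0 hz1)
        have h1 : h ∈ I := hh3 g e hg (hgZ z hzZ)
        have h2 := hw h h1
        rw [aeval_eq_eval] at h2
        have h3 : eval (c • z) h = 0 := h2
        rw [FacNodeAux.eval_smul_hom hh1] at h3
        exact (mul_ne_zero (pow_ne_zero n hc) hh2) h3
  rw [vanishingIdeal_zeroLocus_eq_radical] at hvan
  obtain ⟨n, hn'⟩ := hvan
  exact ⟨n, hn'⟩

end Pc2352a
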