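import Pool.Agent.Lib.Pc2352a.FacObsEx
import Pool.Agent.Lib.Pc2352a.FacInj
import Pool.Agent.Lib.Pc2352a.FacComp

set_option autoImplicit false

/-!
# FacNoeth (1.8h): sections of bounded degree for all `k` (by Noetherianity)

`U k` (`k ≥ 1`) compatible cocycles modulo `F^k`. CLAIM: there is a degree `m` such that for every `k ≥ 1` there is a
homogeneous section modulo `F^k` of degree `m`, not zero modulo `F`.
Black boxes: `exists_aux` (for `u = U 1`), `exists_obs`, `lift_of_obs_zero` (with `v = U (k+1)`; `U (k+1) ≡ U 1` mod `F` by induction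
from `hcomp`), `Coc.mono`, `Sec.mono`, `Sec.congr`, `exists_comp`.

1. Write `E k s y := EE F a x A k (U (k+1)) s y` for `k ≥ 1`. `E k` is closed under sums and multiplication by `r : S5`
   (take `b + b'`, `r b`). `Q k := {y | ∃ s, E k s y}` is a submodule of the Noetherian `S5`-module `Fin 3 → Fin 3 → S5`.
2. `E k s y → E (k+1) (F s) y` with the same `b`: `F s i - U(k+2) i j F s j = F (s i - U(k+1) i j s j) + F (U(k+1) - U(k+2)) s j` and
   `U(k+2) - U(k+1) ∈ F^(k+1)`. So `Q k ≤ Q (k+1)` and there is `k0 ≥ 1` with `Q k = Q k0` for all `k ≥ k0`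
   (`monotone_stabilizes_iff_noetherian`, index shift to have `k ≥ 1`).
3. Let `k ≥ k0 + 1` and `s` a section mod `F^k` (for `U k`, equivalently for `U (k+1)`, `Sec.congr`). There is a section `s'` mod
   `F^(k+1)` for `U (k+1)` with `s' i - s i ∈ F S[1/a_i]` for all `i`: `E k s y` for some `y` (`exists_obs`), `y ∈ Q k = Q (k-1)`, so
   `E (k-1) s'' y`, `E k (F s'') y`, `E k (s - F s'') 0`, apply `lift_of_obs_zero` (`k ≥ 1`, so `F^k c ∈ F`).
4. Start with `k1 = k0 + 1` and `s i = a_0^N' U k1 i 0`, a section mod `F^k1` (`coc i j 0`, `Loc_inter`; `N'` large so that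
   `s i ∈ S[1/a_i]`), homogeneous of degree `m = N' α_0 + γ_0`, `s 0 = a_0^N' ∉ F S[1/a_0]`. By induction for all `k ≥ k1` there is a
   section mod `F^k` for `U k` congruent to `s` mod `F`.
5. Homogeneous components: let `π` be as in `exists_comp`. If `s'` is a section mod `F^k` for `U k`, then so is
   `s'' i := π (m - γ i) (s' i)`: `π (m - γ i) (s' i - U k i j s' j) = π (m - γ i) (s' i) - U k i j π (m - γ j) (s' j)`. It is homogeneous of
   degree `m`, and congruent to `s` mod `F` if `s'` is (`π (m - γ i) (s i) = s i`). For `k < k1` use `Sec.mono`, `Sec.congr`.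
-/

namespace Pc2352a

open MvPolynomial

namespace FacNoeth

variable {K : Type} [Field K] [Algebra S5 K]
variable {F : S5} {a : Fin 3 → S5} {x : Fin 3 → Fin 3 → K} {A : Fin 3 → S5} {k : ℕ}
  {v v' : Fin 3 → Fin 3 → K} {s s' : Fin 3 → K} {y y' : Fin 3 → Fin 3 → S5}

lemma sec_sub (hs : Sec F a v k s) (hs' : Sec F a v k s') : Sec F a v k (s - s') := by
  refine ⟨fun i => Submodule.sub_mem _ (hs.1 i) (hs'.1 i), fun i j => ?_⟩
  have h := Submodule.sub_mem _ (hs.2 i j) (hs'.2 i j)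
  have e : (s - s') i - v i j * (s - s') j = s i - v i j * s j - (s' i - v i j * s' j) := by
    simp only [Pi.sub_apply]; ring
  rw [e]; exact h

lemma sec_add (hs : Sec F a v k s) (hs' : Sec F a v k s') : Sec F a v k (s + s') := by
  refine ⟨fun i => Submodule.add_mem _ (hs.1 i) (hs'.1 i), fun i j => ?_⟩
  have h := Submodule.add_mem _ (hs.2 i j) (hs'.2 i j)
  have e : (s + s') i - v i j * (s + s') j = s i - v i j * s j + (s' i - v i j * s' j) := by
    simp only [Pi.add_apply]; ring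
  rw [e]; exact h

lemma sec_smul (r : S5) (hs : Sec F a v k s) : Sec F a v k (r • s) := by
  refine ⟨fun i => Submodule.smul_mem _ r (hs.1 i), fun i j => ?_⟩
  have h := Submodule.smul_mem _ r (hs.2 i j)
  have e : (r • s) i - v i j * (r • s) j = r • (s i - v i j * s j) := by
    simp only [Pi.smul_apply, Algebra.smul_def]; ring
  rw [e]; exact h

lemma ee_sub (h : EE F a x A k v s y) (h' : EE F a x A k v s' y') :
    EE F a x A k v (s - s') (y - y') := by
  obtain ⟨hs, b, hb, h1, h2⟩ := h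
  obtain ⟨hs', b', hb', h1', h2'⟩ := h'
  refine ⟨sec_sub hs hs', fun l i => b l i - b' l i, fun l i => Submodule.sub_mem _ (hb l i) (hb' l i),
    fun i j l => ?_, fun l m i => ?_⟩
  · have h := Submodule.sub_mem _ (h1 i j l) (h1' i j l)
    convert h using 1
    simp only [Pi.sub_apply]; ring
  · have h := Submodule.sub_mem _ (h2 l m i) (h2' l m i)
    convert h using 1
    simp only [Pi.sub_apply, map_sub]; ring

lemma ee_add (h : EE F a x A k v s y) (h' : EE F a x A k v s' y') :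
    EE F a x A k v (s + s') (y + y') := by
  obtain ⟨hs, b, hb, h1, h2⟩ := h
  obtain ⟨hs', b', hb', h1', h2'⟩ := h'
  refine ⟨sec_add hs hs', fun l i => b l i + b' l i, fun l i => Submodule.add_mem _ (hb l i) (hb' l i),
    fun i j l => ?_, fun l m i => ?_⟩
  · have h := Submodule.add_mem _ (h1 i j l) (h1' i j l)
    convert h using 1
    simp only [Pi.add_apply]; ring
  · have h := Submodule.add_mem _ (h2 l m i) (h2' l m i)
    convert h using 1
    simp only [Pi.add_apply, map_add]; ring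

lemma ee_smul (r : S5) (h : EE F a x A k v s y) : EE F a x A k v (r • s) (r • y) := by
  obtain ⟨hs, b, hb, h1, h2⟩ := h
  refine ⟨sec_smul r hs, fun l i => algebraMap S5 K r * b l i, fun l i => ?_,
    fun i j l => ?_, fun l m i => ?_⟩
  · have h := Submodule.smul_mem _ r (hb l i)
    rwa [Algebra.smul_def] at h
  · have h := Submodule.smul_mem _ r (h1 i j l)
    convert h using 1
    simp only [Pi.smul_apply, Algebra.smul_def]; ring
  · have h := Submodule.smul_mem _ r (h2 l m i)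
    convert h using 1
    simp only [Pi.smul_apply, smul_eq_mul, Algebra.smul_def, map_mul]; ring

lemma ee_zero : EE F a x A k v 0 0 := by
  refine ⟨⟨fun i => Submodule.zero_mem _, fun i j => by simp⟩, fun _ _ => 0,
    fun _ _ => Submodule.zero_mem _, fun i j l => by simp, fun l m i => by simp⟩

/-- the obstruction submodule -/
noncomputable def Q (F : S5) (a : Fin 3 → S5) (x : Fin 3 → Fin 3 → K) (A : Fin 3 → S5) (k : ℕ)
    (v : Fin 3 → Fin 3 → K) : Submodule S5 (Fin 3 → Fin 3 → S5) where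
  carrier := {y | ∃ s, EE F a x A k v s y}
  zero_mem' := ⟨0, ee_zero⟩
  add_mem' := by
    rintro y y' ⟨s, hs⟩ ⟨s', hs'⟩
    exact ⟨s + s', ee_add hs hs'⟩
  smul_mem' := by
    rintro r y ⟨s, hs⟩
    exact ⟨r • s, ee_smul r hs⟩

variable [IsFractionRing S5 K]

lemma F_mem_one {g : S5} {z : K} (hz : z ∈ Loc K F g k) :
    algebraMap S5 K F * z ∈ Loc K F g (k + 1) := by
  have h1 : algebraMap S5 K (F ^ 1 * 1) ∈ Loc K F g 1 := F_pow_mem F g 1 1
  have h := Loc_mul h1 hz
  rw [pow_one, mul_one] at h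
  rwa [add_comm] at h

/-- multiplication by `F` -/
lemma ee_F (hx : ∀ l i, x l i ∈ Loc K F (a i) 0)
    (hvv : ∀ i j, v' i j - v i j ∈ Loc K F (a i * a j) (k + 1)) (h : EE F a x A k v s y) :
    EE F a x A (k + 1) v' (F • s) y := by
  obtain ⟨hs, b, hb, h1, h2⟩ := h
  have key : ∀ i j, (F • s) i - v' i j * (F • s) j =
      algebraMap S5 K F * (s i - v i j * s j) -
        algebraMap S5 K F * ((v' i j - v i j) * s j) := by
    intro i j
    simp only [Pi.smul_apply, Algebra.smul_def]; ring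
  have hsj : ∀ i j, s j ∈ Loc K F (a i * a j) 0 := fun i j =>
    Loc_of_dvd_pow (n := 1) (by rw [pow_one]; exact dvd_mul_left _ _) (hs.1 j)
  have hxi : ∀ l i j, x l i ∈ Loc K F (a i * a j) 0 := fun l i j =>
    Loc_of_dvd_pow (n := 1) (by rw [pow_one]; exact dvd_mul_right _ _) (hx l i)
  refine ⟨⟨fun i => Submodule.smul_mem _ _ (hs.1 i), fun i j => ?_⟩, b, hb, fun i j l => ?_, h2⟩
  · rw [key]
    refine Submodule.sub_mem _ (F_mem_one (hs.2 i j)) ?_
    exact Loc_anti (by omega) (F_mem_one (Loc_mul_right (hvv i j) (hsj i j)))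
  · rw [key]
    have e : x l i * (algebraMap S5 K F * (s i - v i j * s j) -
        algebraMap S5 K F * ((v' i j - v i j) * s j)) -
        algebraMap S5 K (F ^ (k + 1)) * (b l j - b l i) =
        algebraMap S5 K F * (x l i * (s i - v i j * s j) -
          algebraMap S5 K (F ^ k) * (b l j - b l i)) -
        algebraMap S5 K F * (x l i * ((v' i j - v i j) * s j)) := by
      rw [pow_succ, map_mul]; ring
    rw [e]
    refine Submodule.sub_mem _ (F_mem_one (h1 i j l)) ?_
    exact F_mem_one (Loc_mul_left (hxi l i j) (Loc_mul_right (hvv i j) (hsj i j)))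

end FacNoeth

open FacNoeth in
theorem exists_sections {K : Type} [Field K] [Algebra S5 K] [IsFractionRing S5 K]
    {D : Fin 5 → Derivation ℤ K K}
    (hD : ∀ i p, D i (algebraMap S5 K p) = algebraMap S5 K (pderiv i p))
    {F : S5} {d : ℕ} {a : Fin 3 → S5} {α : Fin 3 → ℕ} {l : S5} (C : Cov F d a α l)
    (γ : Fin 3 → ℤ) (U : ℕ → Fin 3 → Fin 3 → K) (hU : ∀ k, 1 ≤ k → Coc D F a γ k (U k))
    (hcomp : ∀ k, 1 ≤ k → ∀ i j, U (k + 1) i j - U k i j ∈ Loc K F (a i * a j) k) :
    ∃ m : ℤ, ∀ k, 1 ≤ k → ∃ s : Fin 3 → K, Sec F a (U k) k s ∧ SHom D γ m s ∧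
      s 0 ∉ Loc K F (a 0) 1 := by
  have hFp : Prime F := C.prime
  have hF0 : F ≠ 0 := hFp.ne_zero
  have hna : ∀ i, ¬ F ∣ a i := C.not_dvd
  have hna2 : ∀ i j, ¬ F ∣ a i * a j := fun i j h => (hFp.dvd_or_dvd h).elim (hna i) (hna j)
  have hna3 : ∀ i j q, ¬ F ∣ a i * a j * a q := fun i j q h =>
    (hFp.dvd_or_dvd h).elim (hna2 i j) (hna q)
  have hcomp' : ∀ j k, 1 ≤ j → j ≤ k → ∀ i q, U k i q - U j i q ∈ Loc K F (a i * a q) j := by
    intro j k hj hjk
    induction k, hjk using Nat.le_induction with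
    | base => intro i q; simp
    | succ k hjk ih =>
      intro i q
      have h := Submodule.add_mem _ (Loc_anti hjk (hcomp k (by omega) i q)) (ih i q)
      convert h using 1
      ring
  have hU1 : ∀ k, 1 ≤ k → ∀ i q, U k i q - U 1 i q ∈ Loc K F (a i * a q) 1 :=
    fun k hk => hcomp' 1 k le_rfl hk
  obtain ⟨N, x, t, A, hA⟩ := exists_aux C (hU 1 le_rfl)
  -- the Noetherian chain
  let Q' : ℕ →o Submodule S5 (Fin 3 → Fin 3 → S5) :=
    ⟨fun n => Q F a x A (n + 1) (U (n + 2)), monotone_nat_of_le_succ (fun n y => by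
      rintro ⟨s, hs⟩
      exact ⟨F • s, ee_F hA.hx (hcomp (n + 2) (by omega)) hs⟩)⟩
  obtain ⟨n0, hn0⟩ := monotone_stabilizes_iff_noetherian.mpr
    (inferInstance : IsNoetherian S5 (Fin 3 → Fin 3 → S5)) Q'
  -- lifting
  have step : ∀ n, n0 ≤ n → ∀ s, Sec F a (U (n + 2)) (n + 2) s →
      ∃ s', Sec F a (U (n + 3)) (n + 3) s' ∧ ∀ i, s' i - s i ∈ Loc K F (a i) 1 := by
    intro n hn s hs
    have hs1 : Sec F a (U (n + 3)) (n + 2) s := Sec.congr C (hcomp (n + 2) (by omega)) hs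
    obtain ⟨y, hy⟩ := exists_obs C hA (by omega : 1 ≤ n + 2) (hU (n + 3) (by omega))
      (hU1 (n + 3) (by omega)) s hs1
    have hyQ : y ∈ Q' (n + 1) := ⟨s, hy⟩
    rw [← hn0 (n + 1) (by omega), hn0 n hn] at hyQ
    obtain ⟨s'', hs''⟩ := hyQ
    have h1 : EE F a x A (n + 2) (U (n + 3)) (F • s'') y :=
      ee_F hA.hx (hcomp (n + 2) (by omega)) hs''
    have h2 := ee_sub hy h1
    rw [sub_self] at h2
    obtain ⟨c, hc, hc'⟩ := lift_of_obs_zero C hA (hU (n + 3) (by omega))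
      (hU1 (n + 3) (by omega)) _ h2
    refine ⟨_, hc', fun i => ?_⟩
    have e : (s - F • s'') i + algebraMap S5 K (F ^ (n + 2)) * c i - s i =
        algebraMap S5 K F * (algebraMap S5 K (F ^ (n + 1)) * c i - s'' i) := by
      have e1 : (F • s'') i = algebraMap S5 K F * s'' i := by
        rw [Pi.smul_apply, Algebra.smul_def]
      rw [Pi.sub_apply, e1, show n + 2 = (n + 1) + 1 from rfl, pow_succ F (n + 1), map_mul]; ring
    rw [e]
    refine F_mem_one (k := 0) (Submodule.sub_mem _ ?_ (hs''.1.1 i))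
    exact Loc_mul_left (algMap_mem _ _ _) (hc i)
  -- the initial section
  have hex : ∀ i, ∃ N0 : ℕ, ∀ N', N0 ≤ N' → algebraMap S5 K (a 0 ^ N') * U (n0 + 2) i 0 ∈
      Loc K F (a i) 0 := fun i => mul_pow_mem_Loc ((hU (n0 + 2) (by omega)).mem i 0)
  choose N0 hN0 using hex
  obtain ⟨M, hM⟩ : ∃ M, ∀ i, N0 i ≤ M :=
    ⟨∑ i, N0 i, fun i => Finset.single_le_sum (fun _ _ => Nat.zero_le _) (Finset.mem_univ i)⟩
  let s0 : Fin 3 → K := fun i => algebraMap S5 K (a 0 ^ M) * U (n0 + 2) i 0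
  have hs0 : Sec F a (U (n0 + 2)) (n0 + 2) s0 := by
    refine ⟨fun i => hN0 i M (hM i), fun i j => ?_⟩
    refine Loc_inter hFp (hna2 i j) (hna3 i j 0) ?_ ?_
    · refine Submodule.sub_mem _ ?_ ?_
      · exact Loc_of_dvd_pow (n := 1) (by rw [pow_one]; exact dvd_mul_right _ _) (hN0 i M (hM i))
      · refine Loc_mul_left ((hU (n0 + 2) (by omega)).mem i j) ?_
        exact Loc_of_dvd_pow (n := 1) (by rw [pow_one]; exact dvd_mul_left _ _) (hN0 j M (hM j))
    · have h := (hU (n0 + 2) (by omega)).coc i j 0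
      have h' := Submodule.neg_mem _ (Loc_mul_left (algMap_mem F (a i * a j * a 0) (a 0 ^ M)) h)
      convert h' using 1
      simp only [s0]; ring
  let m : ℤ := (M * α 0 : ℕ) + γ 0
  have hs0h : SHom D γ m s0 := by
    intro i
    have h1 : IsHom D ((M * α 0 : ℕ) : ℤ) (algebraMap S5 K (a 0 ^ M)) := by
      refine IsHom.algMap hD ?_
      rw [mul_comm]
      exact (C.ha 0).pow M
    have h2 := h1.mul ((hU (n0 + 2) (by omega)).hom i 0)
    have e : m - γ i = ((M * α 0 : ℕ) : ℤ) + (γ 0 - γ i) := by simp only [m]; ring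
    rw [e]; exact h2
  have hs00 : s0 0 ∉ Loc K F (a 0) 1 := by
    have e : s0 0 = algebraMap S5 K (a 0 ^ M) := by
      simp only [s0, (hU (n0 + 2) (by omega)).one, mul_one]
    rw [e, algMap_mem_iff hFp (hna 0), pow_one]
    exact fun h => hna 0 (hFp.dvd_of_dvd_pow h)
  have main : ∀ n, n0 ≤ n → ∃ s', Sec F a (U (n + 2)) (n + 2) s' ∧
      ∀ i, s' i - s0 i ∈ Loc K F (a i) 1 := by
    intro n hn
    induction n, hn using Nat.le_induction with
    | base => exact ⟨s0, hs0, fun i => by simp⟩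
    | succ n hn ih =>
      obtain ⟨s', hs', hc⟩ := ih
      obtain ⟨s'', hs'', hc''⟩ := step n hn s' hs'
      refine ⟨s'', hs'', fun i => ?_⟩
      have h := Submodule.add_mem _ (hc'' i) (hc i)
      convert h using 1
      ring
  -- homogeneous components
  obtain ⟨π, hπ1, hπ2, hπ3, hπ4⟩ := exists_comp (K := K) hD
  have hFh : ∃ e, F.IsHomogeneous e := ⟨d, C.hF⟩
  have hah : ∀ i, ∃ e, (a i).IsHomogeneous e := fun i => ⟨α i, C.ha i⟩
  have ha2h : ∀ i j, ∃ e, (a i * a j).IsHomogeneous e := fun i j =>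
    ⟨α i + α j, (C.ha i).mul (C.ha j)⟩
  have ha0 : ∀ i, a i ≠ 0 := C.ne_zero
  have ha20 : ∀ i j, a i * a j ≠ 0 := fun i j => mul_ne_zero (ha0 i) (ha0 j)
  have hHD : ∀ (i : Fin 3) (z : K), z ∈ Loc K F (a i) 0 → z ∈ HD K := fun i z hz =>
    Loc_subset_HD (ha0 i) (hah i) hz
  have hHD2 : ∀ (i j : Fin 3) (z : K), z ∈ Loc K F (a i * a j) 0 → z ∈ HD K := fun i j z hz =>
    Loc_subset_HD (ha20 i j) (ha2h i j) hz
  have fin : ∀ n, n0 ≤ n → ∃ s', Sec F a (U (n + 2)) (n + 2) s' ∧ SHom D γ m s' ∧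
      s' 0 ∉ Loc K F (a 0) 1 := by
    intro n hn
    obtain ⟨s', hs', hc⟩ := main n hn
    have hU' := hU (n + 2) (by omega)
    refine ⟨fun i => π (m - γ i) (s' i), ⟨fun i => ?_, fun i j => ?_⟩, fun i => ?_, ?_⟩
    · exact (hπ4 F (a i) 0 _ _ (ha0 i) (hah i) hFh (hs'.1 i)).1
    · have h1 : π (m - γ i) (U (n + 2) i j * s' j) = U (n + 2) i j * π (m - γ j) (s' j) := by
        have h := hπ3 (m - γ j) (γ j - γ i) (U (n + 2) i j) (s' j) (hU'.hom i j)
          (hHD2 i j _ (hU'.mem i j)) (hHD j _ (hs'.1 j))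
        rw [← h]
        congr 1
        ring
      show π (m - γ i) (s' i) - U (n + 2) i j * π (m - γ j) (s' j) ∈ _
      rw [← h1, ← hπ2 _ _ _ (hHD i _ (hs'.1 i))
        (HD_mul (hHD2 i j _ (hU'.mem i j)) (hHD j _ (hs'.1 j)))]
      exact (hπ4 F (a i * a j) (n + 2) _ _ (ha20 i j) (ha2h i j) hFh (hs'.2 i j)).1
    · exact (hπ4 F (a i) 0 _ _ (ha0 i) (hah i) hFh (hs'.1 i)).2
    · intro hcon
      apply hs00
      have h2 : π (m - γ 0) (s0 0) = s0 0 := hπ1 _ _ (hHD 0 _ (hs0.1 0)) (hs0h 0)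
      have h3 := (hπ4 F (a 0) 1 (m - γ 0) _ (ha0 0) (hah 0) hFh (hc 0)).1
      rw [hπ2 _ _ _ (hHD 0 _ (hs'.1 0)) (hHD 0 _ (hs0.1 0)), h2] at h3
      have h4 := Submodule.sub_mem _ hcon h3
      convert h4 using 1
      ring
  refine ⟨m, fun k hk => ?_⟩
  by_cases hk2 : n0 + 2 ≤ k
  · obtain ⟨n, rfl⟩ : ∃ n, k = n + 2 := ⟨k - 2, by omega⟩
    exact fin n (by omega)
  · obtain ⟨s', h1, h2, h3⟩ := fin n0 le_rfl
    refine ⟨s', ?_, h2, h3⟩
    refine Sec.congr C (fun i j => ?_) (Sec.mono (by omega : k ≤ n0 + 2) h1)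
    have h := Submodule.neg_mem _ (hcomp' k (n0 + 2) hk (by omega) i j)
    convert h using 1
    ring

end Pc2352a
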