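import Pool.Agent.Lib.Pc2352a.FacTriv
import Pool.Agent.Lib.Pc2352a.FacNode

set_option autoImplicit false

/-!
# FacObs (1.2h): the obstructions vanish (Cayley-Bacharach by the socle degree)
-/

namespace Pc2352a

open MvPolynomial

namespace ObsAux

/-- The homogeneous component of degree `e + 1` of `l * b` for a linear form `l`. -/
lemma comp_mul {l : S5} (hl : l.IsHomogeneous 1) (b : S5) (e : ℕ) :
    ∃ b' : S5, b'.IsHomogeneous e ∧ homogeneousComponent (1 + e) (l * b) = l * b' := by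
  let _ := MvPolynomial.gradedAlgebra (σ := Fin 5) (R := ℂ)
  have hl' : l ∈ homogeneousSubmodule (Fin 5) ℂ 1 := hl
  have h := DirectSum.coe_decompose_mul_add_of_left_mem (j := e)
    (homogeneousSubmodule (Fin 5) ℂ) (b := b) hl'
  refine ⟨(DirectSum.decompose (homogeneousSubmodule (Fin 5) ℂ) b e : S5), ?_, ?_⟩
  · exact (DirectSum.decompose (homogeneousSubmodule (Fin 5) ℂ) b e).2
  · rw [← h]
    exact (decomposition.decompose'_apply (l * b) (1 + e)).symm

lemma comp_mul_zero {l : S5} (hl : l.IsHomogeneous 1) (b : S5) :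
    homogeneousComponent 0 (l * b) = 0 := by
  have h0 : coeff 0 l = 0 := by
    by_contra hne
    have := hl hne
    simp at this
  have h1 : coeff 0 (l * b) = 0 := by
    rw [← constantCoeff_eq, map_mul, constantCoeff_eq, h0, zero_mul]
  rw [homogeneousComponent_zero, h1, map_zero]

lemma hom_CI {F : S5} {d : ℕ} {a : Fin 3 → S5} {α : Fin 3 → ℕ} {l : S5} (C : Cov F d a α l)
    (k : ℕ) (p : Fin 3 → ℕ) (T : Set (Fin 3)) {x : S5} (hx : x ∈ CI F a k p T) (n : ℕ) :
    homogeneousComponent n x ∈ CI F a k p T := by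
  let _ := MvPolynomial.gradedAlgebra (σ := Fin 5) (R := ℂ)
  refine homogeneousComponent_mem_of_mem ?_ hx n
  refine Ideal.homogeneous_span _ _ ?_
  rintro y (hy | ⟨j, _, rfl⟩)
  · rw [Set.mem_singleton_iff] at hy
    subst hy
    exact ⟨d * k, C.hF.pow k⟩
  · exact ⟨α j * p j, (C.ha j).pow (p j)⟩

end ObsAux

theorem obs_kill {F : S5} {d : ℕ} {a : Fin 3 → S5} {α : Fin 3 → ℕ} {l : S5} (C : Cov F d a α l)
    (hd : 3 ≤ d) (hn : Nodal F) {Z : Finset (Fin 5 → ℂ)} (hZ : NodeSet F Z)
    (hl : ∀ z ∈ Z, eval z l ≠ 0) (hsurj : EvalOnto Z (2 * d - 5)) (N : ℕ) (hN : 1 ≤ N) (τ : S5)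
    (e : ℕ) (hτ : τ.IsHomogeneous e) (he : e + d ≤ N * ∑ i, α i)
    (hJ : ∀ i, pderiv i F * τ ∈ CI F a 1 (fun _ => N) Set.univ) :
    τ ∈ CI F a 1 (fun _ => N) Set.univ := by
  set I := CI F a 1 (fun _ => N) Set.univ with hI
  have hregl : ∀ (n : ℕ) (b : S5), l ^ n * b ∈ I → b ∈ I := by
    intro n
    induction n with
    | zero => intro b hb; simpa using hb
    | succ n ih =>
      intro b hb
      refine ih b (C.reg_l 1 (fun _ => N) (fun _ => hN) Set.univ _ ?_)
      rw [← mul_assoc, ← pow_succ']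
      exact hb
  -- forms vanishing on the nodes
  have hvan : ∀ (g : S5) (s : ℕ), g.IsHomogeneous s → (∀ z ∈ Z, eval z g = 0) → g * τ ∈ I := by
    intro g s hg hgZ
    obtain ⟨n, hn'⟩ := sat_nodes (by omega) C.hF hn hZ C.hl g s hg hgZ
    apply hregl n
    have hle : ∀ x ∈ Ideal.span (Set.range fun i => pderiv i F), x * τ ∈ I := by
      intro x hx
      induction hx using Submodule.span_induction with
      | mem x hx =>
        obtain ⟨i, rfl⟩ := hx
        exact hJ i
      | zero => rw [zero_mul]; exact I.zero_mem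
      | add x y _ _ h1 h2 => rw [add_mul]; exact I.add_mem h1 h2
      | smul c x _ h1 => rw [smul_eq_mul, mul_assoc]; exact I.mul_mem_left c h1
    have := hle _ hn'
    rwa [mul_assoc] at this
  clear hJ
  induction e using Nat.strong_induction_on generalizing τ with
  | _ e IH =>
  -- forms of degree j ≤ 2 d - 4
  have hdown : ∀ (i j : ℕ), j + i = 2 * d - 4 → ∀ g : S5, g.IsHomogeneous j →
      g * τ ∈ I ⊔ Ideal.span {l} := by
    intro i
    induction i with
    | zero =>
      intro j hj g hg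
      obtain ⟨g', hg', hgz⟩ := hsurj (fun z => eval z g / eval z l)
      have h1 : (g - l * g').IsHomogeneous j := by
        refine hg.sub ?_
        have h2 := C.hl.mul hg'
        have h3 : 1 + (2 * d - 5) = j := by omega
        rwa [h3] at h2
      have h2 : ∀ z ∈ Z, eval z (g - l * g') = 0 := by
        intro z hz
        rw [map_sub, map_mul, hgz z hz, mul_div_cancel₀ _ (hl z hz), sub_self]
      have h3 := hvan _ _ h1 h2
      have h4 : g * τ = (g - l * g') * τ + l * (g' * τ) := by ring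
      rw [h4]
      refine Ideal.add_mem _ (Ideal.mem_sup_left h3) (Ideal.mem_sup_right ?_)
      exact Ideal.mul_mem_right _ _ (Ideal.mem_span_singleton_self l)
    | succ i ih =>
      intro j hj g hg
      refine C.soc (fun _ => N) (fun _ => hN) (m := j + e) (hg.mul hτ) ?_ ?_
      · rw [← Finset.mul_sum]
        omega
      · intro m
        have h1 : (X m * g : S5).IsHomogeneous (1 + j) := (isHomogeneous_X ℂ m).mul hg
        have h2 := ih (1 + j) (by omega) _ h1
        rwa [mul_assoc] at h2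
  have hτl : τ ∈ I ⊔ Ideal.span {l} := by
    have h := hdown (2 * d - 4) 0 (by omega) 1 (isHomogeneous_one _ _)
    rwa [one_mul] at h
  obtain ⟨c, hc, x, hx, hcx⟩ := Submodule.mem_sup.1 hτl
  obtain ⟨b, rfl⟩ := Ideal.mem_span_singleton'.1 hx
  have hcomp : homogeneousComponent e τ = τ := homogeneousComponent_of_mem hτ |>.trans (if_pos rfl)
  have hcomp2 : τ = homogeneousComponent e c + homogeneousComponent e (l * b) := by
    rw [← map_add, mul_comm l b, hcx, hcomp]
  have hce : homogeneousComponent e c ∈ I := ObsAux.hom_CI C _ _ _ hc e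
  rcases Nat.eq_zero_or_pos e with he0 | he0
  · subst he0
    rw [ObsAux.comp_mul_zero C.hl, add_zero] at hcomp2
    rw [hcomp2]
    exact hce
  · obtain ⟨e', rfl⟩ : ∃ e', e = 1 + e' := ⟨e - 1, by omega⟩
    obtain ⟨b', hb', hbb⟩ := ObsAux.comp_mul C.hl b e'
    rw [hbb] at hcomp2
    have hb'I : b' ∈ I := by
      refine IH e' (by omega) b' hb' (by omega) ?_
      intro g s hg hgZ
      have h1 := hvan g s hg hgZ
      apply C.reg_l 1 (fun _ => N) (fun _ => hN) Set.univ
      have h2 : l * (g * b') = g * τ - g * homogeneousComponent (1 + e') c := by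
        linear_combination (-g) * hcomp2
      rw [h2]
      exact I.sub_mem h1 (I.mul_mem_left _ hce)
    rw [hcomp2]
    exact I.add_mem hce (I.mul_mem_left _ hb'I)

theorem obs {K : Type} [Field K] [Algebra S5 K] [IsFractionRing S5 K]
    {D : Fin 5 → Derivation ℤ K K}
    (hD : ∀ i p, D i (algebraMap S5 K p) = algebraMap S5 K (pderiv i p))
    {F : S5} {d : ℕ} {a : Fin 3 → S5} {α : Fin 3 → ℕ} {l : S5} (C : Cov F d a α l)
    (hd : 3 ≤ d) (hn : Nodal F) {Z : Finset (Fin 5 → ℂ)} (hZ : NodeSet F Z)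
    (hl : ∀ z ∈ Z, eval z l ≠ 0) (hsurj : EvalOnto Z (2 * d - 5)) (k : ℕ) (hk : 1 ≤ k) (h : K)
    (hmem : h ∈ Loc K F (a 0 * a 1 * a 2) 0) (hh : IsHom D (-((k : ℤ) * d)) h)
    (hJ : ∀ m, Triv F a (algebraMap S5 K (pderiv m F) * h)) : Triv F a h := by
  obtain ⟨n, r, hr⟩ := hmem
  set g : S5 := a 0 * a 1 * a 2 with hg
  have hN : 1 ≤ n + 1 := by omega
  have hr' : algebraMap S5 K (g ^ (n + 1)) * h = algebraMap S5 K (g * r) := by
    rw [pow_succ', map_mul, mul_assoc, hr]
    simp
  rw [triv_iff C (n + 1) hN (g * r) h hr']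
  by_cases h0 : g * r = 0
  · rw [h0]; exact Ideal.zero_mem _
  have hgh : g.IsHomogeneous (∑ i, α i) := by
    rw [Fin.sum_univ_three]
    exact ((C.ha 0).mul (C.ha 1)).mul (C.ha 2)
  obtain ⟨e, he, hhom⟩ := IsHom.num hD hgh hh hr' h0
  refine obs_kill C hd hn hZ hl hsurj (n + 1) hN (g * r) e hhom ?_ ?_
  · have h1 : (d : ℤ) ≤ k * d := by
      have : (1 : ℤ) ≤ k := by exact_mod_cast hk
      nlinarith [Int.natCast_nonneg d]
    have h2 : (e : ℤ) + d ≤ ((n + 1 : ℕ) : ℤ) * ((∑ i, α i : ℕ) : ℤ) := by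
      rw [he]; linarith
    exact_mod_cast h2
  · intro m
    rw [← triv_iff C (n + 1) hN (pderiv m F * (g * r)) (algebraMap S5 K (pderiv m F) * h) ?_]
    · exact hJ m
    · rw [map_mul, ← hr']
      ring

end Pc2352a
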