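import Pool.Agent.Lib.Pc2352a.FacAux

set_option autoImplicit false

/-!
# FacObsEx (1.2h): every section modulo `F^k` has an obstruction `y`

`v` is a cocycle modulo `F^(k+1)`, `v ≡ u` modulo `F`, `s` a section for `v` modulo `F^k`, `k ≥ 1`.
`s i - v i j s j = F^k τ_ij` (`exists_of_mem_Loc`). Fix `l`. `c0 = x l 0 τ_01`, `c1 = x l 1 τ_12`, `c2 = x l 2 τ_20`. Then
`F^k (c0 + c1 + c2)`, modulo `F^(k+1)`, is (using `x l 1 ≡ v 0 1 x l 0`, `x l 2 ≡ v 0 2 x l 0` mod `F`, `F^k τ ∈ F^k`)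
`x l 0 [(s0 - v01 s1) + v01 (s1 - v12 s2) + v02 (s2 - v20 s0)] = x l 0 [s0 (1 - v02 v20) + s2 (v02 - v01 v12)] ≡ 0`.
So `c0 + c1 + c2 ∈ F S[1/(a_0 a_1 a_2)]` (`F_mul_mem_iff`), and `H1` (k = 1) gives `e`, `b l i := e i`:
`x l i τ_ij ≡ b l j - b l i` mod `F` for `(i,j) = (0,1), (1,2), (2,0)`. For `(j,i)`: `x l j F^k τ_ji ≡ v_ij x l i (s j - v_ji s i) ≡ x l i (v_ij s j - s i)
= - x l i F^k τ_ij` modulo `F^(k+1)`. For `(i,i)`: `v i i = 1`.
`y`: fix `l, m`. `Y i := A l * b m i - A m * b l i ∈ S[1/a_i]`. `Y j - Y i = A l (b m j - b m i) - A m (b l j - b l i)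
≡ A l x m i τ_ij - A m x l i τ_ij ≡ t i x l i x m i τ_ij - t i x m i x l i τ_ij = 0` mod `F`. `H0` (k = 1) gives `y l m`.
-/

namespace Pc2352a

open MvPolynomial

namespace ObsEx

section
variable {K : Type} [Field K] [Algebra S5 K] [IsFractionRing S5 K] {F : S5} {k : ℕ} {w : K}

lemma up {g g' : S5} (h : g ∣ g') (hw : w ∈ Loc K F g k) : w ∈ Loc K F g' k :=
  Loc_of_dvd_pow (n := 1) (by simpa using h) hw

lemma swap {g g' : S5} (hw : w ∈ Loc K F (g * g') k) : w ∈ Loc K F (g' * g) k := by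
  rwa [mul_comm g' g]

end

section
variable {K : Type} [Field K] [Algebra S5 K] [IsFractionRing S5 K]
    {D : Fin 5 → Derivation ℤ K K}
    {F : S5} {d : ℕ} {a : Fin 3 → S5} {α : Fin 3 → ℕ} {l : S5}
    {γ : Fin 3 → ℤ} {u v : Fin 3 → Fin 3 → K} {N : ℕ} {x : Fin 3 → Fin 3 → K} {t : Fin 3 → K}
    {A : Fin 3 → S5} {k : ℕ}

lemma xv (hA : Aux F a u N x t A)
    (huv : ∀ i j, v i j - u i j ∈ Loc K F (a i * a j) 1) (l i j : Fin 3) :
    x l j - v i j * x l i ∈ Loc K F (a i * a j) 1 := by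
  have h1 := hA.hxs l i j
  have h2 : (v i j - u i j) * x l i ∈ Loc K F (a i * a j) 1 :=
    Loc_mul_right (huv i j) (up (dvd_mul_right _ _) (hA.hx l i))
  have h3 := Submodule.sub_mem _ h1 h2
  have e : x l j - u i j * x l i - (v i j - u i j) * x l i = x l j - v i j * x l i := by ring
  rwa [e] at h3

lemma anti (hA : Aux F a u N x t A) (hv : Coc D F a γ (k + 1) v)
    (huv : ∀ i j, v i j - u i j ∈ Loc K F (a i * a j) 1) {s : Fin 3 → K}
    (hs : Sec F a v k s) (l i j : Fin 3) :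
    x l j * (s j - v j i * s i) + x l i * (s i - v i j * s j) ∈ Loc K F (a i * a j) (k + 1) := by
  have h1 : (x l j - v i j * x l i) * (s j - v j i * s i) ∈ Loc K F (a i * a j) (1 + k) :=
    Loc_mul (xv hA huv l i j) (swap (hs.2 j i))
  rw [add_comm 1 k] at h1
  have h2 : v i j * v j i - v i i ∈ Loc K F (a i * a j) (k + 1) :=
    Loc_of_dvd_pow (n := 2) ⟨a j, by ring⟩ (hv.coc i j i)
  rw [hv.one i] at h2
  have h3 : (x l i * s i) * (v i j * v j i - 1) ∈ Loc K F (a i * a j) (k + 1) :=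
    Loc_mul_left (Loc_mul_left (up (dvd_mul_right _ _) (hA.hx l i))
      (up (dvd_mul_right _ _) (hs.1 i))) h2
  have h4 := Submodule.sub_mem _ h1 h3
  have e : (x l j - v i j * x l i) * (s j - v j i * s i) - (x l i * s i) * (v i j * v j i - 1) =
      x l j * (s j - v j i * s i) + x l i * (s i - v i j * s j) := by ring
  rwa [e] at h4

lemma cyc (hA : Aux F a u N x t A) (hv : Coc D F a γ (k + 1) v)
    (huv : ∀ i j, v i j - u i j ∈ Loc K F (a i * a j) 1) {s : Fin 3 → K}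
    (hs : Sec F a v k s) (l : Fin 3) :
    x l 0 * (s 0 - v 0 1 * s 1) + x l 1 * (s 1 - v 1 2 * s 2) + x l 2 * (s 2 - v 2 0 * s 0) ∈
      Loc K F (a 0 * a 1 * a 2) (k + 1) := by
  have d0 : a 0 ∣ a 0 * a 1 * a 2 := ⟨a 1 * a 2, by ring⟩
  have d1 : a 1 ∣ a 0 * a 1 * a 2 := ⟨a 0 * a 2, by ring⟩
  have d2 : a 2 ∣ a 0 * a 1 * a 2 := ⟨a 0 * a 1, by ring⟩
  have d01 : a 0 * a 1 ∣ a 0 * a 1 * a 2 := ⟨a 2, by ring⟩
  have d12 : a 1 * a 2 ∣ a 0 * a 1 * a 2 := ⟨a 0, by ring⟩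
  have d20 : a 2 * a 0 ∣ a 0 * a 1 * a 2 := ⟨a 1, by ring⟩
  have d02 : a 0 * a 2 ∣ a 0 * a 1 * a 2 := ⟨a 1, by ring⟩
  have h1 : (x l 1 - v 0 1 * x l 0) * (s 1 - v 1 2 * s 2) ∈ Loc K F (a 0 * a 1 * a 2) (1 + k) :=
    Loc_mul (up d01 (xv hA huv l 0 1)) (up d12 (hs.2 1 2))
  have h2 : (x l 2 - v 0 2 * x l 0) * (s 2 - v 2 0 * s 0) ∈ Loc K F (a 0 * a 1 * a 2) (1 + k) :=
    Loc_mul (up d02 (xv hA huv l 0 2)) (up d20 (hs.2 2 0))
  rw [add_comm 1 k] at h1 h2
  have h3 : v 0 2 * v 2 0 - v 0 0 ∈ Loc K F (a 0 * a 1 * a 2) (k + 1) :=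
    Loc_of_dvd_pow (n := 2) ⟨a 1 ^ 2 * a 2, by ring⟩ (hv.coc 0 2 0)
  rw [hv.one 0] at h3
  have h4 : v 0 1 * v 1 2 - v 0 2 ∈ Loc K F (a 0 * a 1 * a 2) (k + 1) := hv.coc 0 1 2
  have h5 : (x l 0 * s 0) * (v 0 2 * v 2 0 - 1) ∈ Loc K F (a 0 * a 1 * a 2) (k + 1) :=
    Loc_mul_left (Loc_mul_left (up d0 (hA.hx l 0)) (up d0 (hs.1 0))) h3
  have h6 : (x l 0 * s 2) * (v 0 1 * v 1 2 - v 0 2) ∈ Loc K F (a 0 * a 1 * a 2) (k + 1) :=
    Loc_mul_left (Loc_mul_left (up d0 (hA.hx l 0)) (up d2 (hs.1 2))) h4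
  have h7 := Submodule.sub_mem _ (Submodule.sub_mem _ (Submodule.add_mem _ h1 h2) h5) h6
  have e : (x l 1 - v 0 1 * x l 0) * (s 1 - v 1 2 * s 2) +
      (x l 2 - v 0 2 * x l 0) * (s 2 - v 2 0 * s 0) -
      (x l 0 * s 0) * (v 0 2 * v 2 0 - 1) - (x l 0 * s 2) * (v 0 1 * v 1 2 - v 0 2) =
      x l 0 * (s 0 - v 0 1 * s 1) + x l 1 * (s 1 - v 1 2 * s 2) +
        x l 2 * (s 2 - v 2 0 * s 0) := by ring
  rwa [e] at h7

end

end ObsEx

open ObsEx in
theorem exists_obs {K : Type} [Field K] [Algebra S5 K] [IsFractionRing S5 K]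
    {D : Fin 5 → Derivation ℤ K K}
    {F : S5} {d : ℕ} {a : Fin 3 → S5} {α : Fin 3 → ℕ} {l : S5} (C : Cov F d a α l)
    {γ : Fin 3 → ℤ} {u v : Fin 3 → Fin 3 → K} {N : ℕ} {x : Fin 3 → Fin 3 → K} {t : Fin 3 → K}
    {A : Fin 3 → S5} (hA : Aux F a u N x t A) {k : ℕ} (hk : 1 ≤ k) (hv : Coc D F a γ (k + 1) v)
    (huv : ∀ i j, v i j - u i j ∈ Loc K F (a i * a j) 1) (s : Fin 3 → K)
    (hs : Sec F a v k s) : ∃ y, EE F a x A k v s y := by
  have hF : F ≠ 0 := C.prime.ne_zero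
  have hτ : ∀ i j, ∃ z ∈ Loc K F (a i * a j) 0, s i - v i j * s j = algebraMap S5 K (F ^ k) * z :=
    fun i j => exists_of_mem_Loc hF (hs.2 i j)
  choose τ hτm hτe using hτ
  -- the elements b
  have hb : ∀ l : Fin 3, ∃ e : Fin 3 → K, (∀ i, e i ∈ Loc K F (a i) 0) ∧
      ∀ i j, x l i * (s i - v i j * s j) - algebraMap S5 K (F ^ k) * (e j - e i) ∈
        Loc K F (a i * a j) (k + 1) := by
    intro l
    have hm : ∀ i j, x l i * τ i j ∈ Loc K F (a i * a j) 0 := fun i j =>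
      Loc_mul_left (up (dvd_mul_right _ _) (hA.hx l i)) (hτm i j)
    have hsum : x l 0 * τ 0 1 + x l 1 * τ 1 2 + x l 2 * τ 2 0 ∈ Loc K F (a 0 * a 1 * a 2) 1 := by
      rw [← F_mul_mem_iff (j := k) hF]
      have h := cyc hA hv huv hs l
      rw [hτe 0 1, hτe 1 2, hτe 2 0] at h
      have e : algebraMap S5 K (F ^ k) * (x l 0 * τ 0 1 + x l 1 * τ 1 2 + x l 2 * τ 2 0) =
          x l 0 * (algebraMap S5 K (F ^ k) * τ 0 1) + x l 1 * (algebraMap S5 K (F ^ k) * τ 1 2) +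
          x l 2 * (algebraMap S5 K (F ^ k) * τ 2 0) := by ring
      rwa [e]
    obtain ⟨e, he, h01, h12, h20⟩ := H1 C 1 _ _ _ (hm 0 1) (hm 1 2) (hm 2 0) hsum
    refine ⟨e, he, ?_⟩
    have pos : ∀ i j, x l i * τ i j - (e j - e i) ∈ Loc K F (a i * a j) 1 →
        x l i * (s i - v i j * s j) - algebraMap S5 K (F ^ k) * (e j - e i) ∈
          Loc K F (a i * a j) (k + 1) := by
      intro i j h
      rw [← F_mul_mem_iff (j := k) hF] at h
      rw [hτe i j]
      have e' : algebraMap S5 K (F ^ k) * (x l i * τ i j - (e j - e i)) =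
          x l i * (algebraMap S5 K (F ^ k) * τ i j) - algebraMap S5 K (F ^ k) * (e j - e i) := by
        ring
      rwa [e'] at h
    have neg : ∀ i j, x l i * (s i - v i j * s j) - algebraMap S5 K (F ^ k) * (e j - e i) ∈
          Loc K F (a i * a j) (k + 1) →
        x l j * (s j - v j i * s i) - algebraMap S5 K (F ^ k) * (e i - e j) ∈
          Loc K F (a j * a i) (k + 1) := by
      intro i j h
      have h2 := Submodule.sub_mem _ (anti hA hv huv hs l i j) h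
      apply swap
      have e' : x l j * (s j - v j i * s i) + x l i * (s i - v i j * s j) -
          (x l i * (s i - v i j * s j) - algebraMap S5 K (F ^ k) * (e j - e i)) =
          x l j * (s j - v j i * s i) - algebraMap S5 K (F ^ k) * (e i - e j) := by ring
      rwa [e'] at h2
    have self : ∀ i, x l i * (s i - v i i * s i) - algebraMap S5 K (F ^ k) * (e i - e i) ∈
          Loc K F (a i * a i) (k + 1) := by
      intro i
      rw [hv.one i]
      have e' : x l i * (s i - 1 * s i) - algebraMap S5 K (F ^ k) * (e i - e i) = 0 := by ring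
      rw [e']
      exact Submodule.zero_mem _
    have p01 := pos 0 1 h01
    have p12 := pos 1 2 h12
    have p20 := pos 2 0 h20
    intro i j
    fin_cases i <;> fin_cases j
    · exact self 0
    · exact p01
    · exact neg 2 0 p20
    · exact neg 0 1 p01
    · exact self 1
    · exact p12
    · exact p20
    · exact neg 1 2 p12
    · exact self 2
  choose b hbm hbe using hb
  have hbt : ∀ l i j, x l i * τ i j - (b l j - b l i) ∈ Loc K F (a i * a j) 1 := by
    intro l i j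
    rw [← F_mul_mem_iff (j := k) hF]
    have h := hbe l i j
    rw [hτe i j] at h
    have e' : algebraMap S5 K (F ^ k) * (x l i * τ i j - (b l j - b l i)) =
        x l i * (algebraMap S5 K (F ^ k) * τ i j) -
          algebraMap S5 K (F ^ k) * (b l j - b l i) := by ring
    rwa [e']
  have hy : ∀ l m : Fin 3, ∃ y : S5, ∀ i, algebraMap S5 K (A l) * b m i -
      algebraMap S5 K (A m) * b l i - algebraMap S5 K y ∈ Loc K F (a i) 1 := by
    intro l m
    apply H0 C 1 (fun i => algebraMap S5 K (A l) * b m i - algebraMap S5 K (A m) * b l i)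
    · intro i
      exact Submodule.sub_mem _ (Loc_mul_left (algMap_mem _ _ _) (hbm m i))
        (Loc_mul_left (algMap_mem _ _ _) (hbm l i))
    · intro i j
      -- difference
      have q1 : (algebraMap S5 K (A l) - t i * x l i) * (x m i * τ i j) ∈
          Loc K F (a i * a j) 1 :=
        Loc_mul_right (up (dvd_mul_right _ _) (hA.hA l i))
          (Loc_mul_left (up (dvd_mul_right _ _) (hA.hx m i)) (hτm i j))
      have q2 : (algebraMap S5 K (A m) - t i * x m i) * (x l i * τ i j) ∈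
          Loc K F (a i * a j) 1 :=
        Loc_mul_right (up (dvd_mul_right _ _) (hA.hA m i))
          (Loc_mul_left (up (dvd_mul_right _ _) (hA.hx l i)) (hτm i j))
      have q3 : algebraMap S5 K (A l) * (x m i * τ i j - (b m j - b m i)) ∈
          Loc K F (a i * a j) 1 := Loc_mul_left (algMap_mem _ _ _) (hbt m i j)
      have q4 : algebraMap S5 K (A m) * (x l i * τ i j - (b l j - b l i)) ∈
          Loc K F (a i * a j) 1 := Loc_mul_left (algMap_mem _ _ _) (hbt l i j)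
      have q5 := Submodule.sub_mem _ (Submodule.sub_mem _ q3 q4) (Submodule.sub_mem _ q1 q2)
      have e' : algebraMap S5 K (A l) * (x m i * τ i j - (b m j - b m i)) -
          algebraMap S5 K (A m) * (x l i * τ i j - (b l j - b l i)) -
          ((algebraMap S5 K (A l) - t i * x l i) * (x m i * τ i j) -
            (algebraMap S5 K (A m) - t i * x m i) * (x l i * τ i j)) =
          (algebraMap S5 K (A l) * b m i - algebraMap S5 K (A m) * b l i) -
            (algebraMap S5 K (A l) * b m j - algebraMap S5 K (A m) * b l j) := by ring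
      rw [e'] at q5
      exact q5
  choose y hy using hy
  exact ⟨y, hs, b, hbm, fun i j l => hbe l i j, hy⟩

end Pc2352a
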