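import Pool.Agent.Lib.Pc2352a.FacCover
import Pool.Agent.Lib.Pc2352a.FacBase
import Pool.Agent.Lib.Pc2352a.FacInhom
import Pool.Agent.Lib.Pc2352a.FacFormal
import Pool.Agent.Lib.Pc2352a.FacLift
import Pool.Agent.Lib.Pc2352a.FacObs

set_option autoImplicit false

/-!
# Part 2: if the nodes impose independent conditions on forms of degree `2d-5` then every height two
prime through `F` is `(F, G)`.
-/

namespace Pc2352a

open MvPolynomial

theorem exists_system {K : Type} [Field K] [Algebra S5 K]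
    {D : Fin 5 → Derivation ℤ K K} {F : S5} {a : Fin 3 → S5} (γ : Fin 3 → ℤ)
    (hlift : ∀ k, 1 ≤ k → ∀ u : Fin 3 → Fin 3 → K, Coc D F a γ k u →
      ∃ u' : Fin 3 → Fin 3 → K, Coc D F a γ (k + 1) u' ∧
      ∀ i j, u' i j - u i j ∈ Loc K F (a i * a j) k)
    (u : Fin 3 → Fin 3 → K) (hu : Coc D F a γ 1 u) :
    ∃ U : ℕ → Fin 3 → Fin 3 → K, U 1 = u ∧ (∀ k, 1 ≤ k → Coc D F a γ k (U k)) ∧
      ∀ k, 1 ≤ k → ∀ i j, U (k + 1) i j - U k i j ∈ Loc K F (a i * a j) k := by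
  choose! f hf using hlift
  let V : ∀ n : ℕ, {v : Fin 3 → Fin 3 → K // Coc D F a γ (n + 1) v} := fun n =>
    Nat.rec ⟨u, hu⟩ (fun n v => ⟨f (n + 1) v.1, (hf (n + 1) (by omega) v.1 v.2).1⟩) n
  refine ⟨fun k => (V (k - 1)).1, rfl, ?_, ?_⟩
  · intro k hk
    obtain ⟨n, rfl⟩ : ∃ n, k = n + 1 := ⟨k - 1, by omega⟩
    exact (V n).2
  · intro k hk
    obtain ⟨n, rfl⟩ : ∃ n, k = n + 1 := ⟨k - 1, by omega⟩
    exact (hf (n + 1) (by omega) (V n).1 (V n).2).2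

theorem part2_hom {F : S5} {d : ℕ} (hd : 3 ≤ d) (hF : F.IsHomogeneous d) (hn : Nodal F)
    {Z : Finset (Fin 5 → ℂ)} (hZ : NodeSet F Z) (hsurj : EvalOnto Z (2 * d - 5))
    (P : Ideal S5) (hP : P.IsPrime) (hPh : HIdeal P) (hFP : F ∈ P) (hP2 : P.height = 2) :
    ∃ (q : S5) (n : ℕ), q.IsHomogeneous n ∧ P = Ideal.span {F, q} := by
  have hFp : Prime F := prime_of_nodal (by omega) hF hn
  obtain ⟨a, G, α, g, l, C, hl, hG, haP, hPa⟩ :=
    exists_cover (by omega) hF hFp hZ P hP hPh hFP hP2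
  obtain ⟨D, hD⟩ := exists_deriv (FractionRing S5)
  obtain ⟨u, hu, huG⟩ := exists_base hD C P G g hG haP
  obtain ⟨U, hU1, hU, hcomp⟩ := exists_system (fun i => (g i : ℤ))
    (fun k hk v hv => lift_coc hD C _ k hk
      (fun h hmem hh hJ => obs hD C hd hn hZ hl hsurj k hk h hmem hh hJ) v hv) u hu
  obtain ⟨m, s, x, hs, hsm, hx, hsx⟩ := formal_trivial hD C _ U hU hcomp
  rw [hU1] at hs hx
  exact conclude hD C P hP hFP hPa G g hG haP u hu huG m s x hs hsm hx hsx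

/-- Part 2 (factoriality) -/
theorem part2 {F : S5} {d : ℕ} (hd : 3 ≤ d) (hF : F.IsHomogeneous d) (hn : Nodal F)
    {Z : Finset (Fin 5 → ℂ)} (hZ : NodeSet F Z) (hsurj : EvalOnto Z (2 * d - 5))
    (P : Ideal S5) (hP : P.IsPrime) (hFP : F ∈ P) (hP2 : P.height = 2) :
    ∃ G : S5, P = Ideal.span {F, G} :=
  inhom (by omega) hF (prime_of_nodal (by omega) hF hn)
    (fun Q hQ hQh hFQ hQ2 => part2_hom hd hF hn hZ hsurj Q hQ hQh hFQ hQ2) P hP hFP hP2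

end Pc2352a
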