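import Pool.Agent.Lib.Pc2352a.FacRegInd

set_option autoImplicit false

/-!
# FacReg (1.5h): a system is a regular sequence in every order

Apply `sys_induction` with `Good f e := ∀ T i b, i ∉ T → f i * b ∈ span (f '' T) → b ∈ span (f '' T)`.

Base (all `f i` linear, only trivial common zero): the `f i` are linearly independent linear forms, so
there is a graded automorphism of `MvPolynomial (Fin n) ℂ` with `X i ↦ f i`; reduce to
`X i * b ∈ span (X '' T) → b ∈ span (X '' T)` which follows from `MvPolynomial.mem_ideal_span_X_image`.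

Step: let `g j = f j` for `j ≠ i`, and `L` in place of `f i`. By `Sys.pow_mem`,
`L^N = c f_i` modulo `(g_j : j ≠ i)`. By the induction hypothesis `L`, hence `L^N`, is a nonzero divisor
modulo `span (f '' {j ≠ i})`, so `f i` is a nonzero divisor modulo `span (f '' {j ≠ i})`. Moreover (IH) the
family `(f j)_{j ≠ i}` has the property for all subsets. Then:
(1) `b := f i` is a nonzero divisor modulo `span (f '' T)` for every `T ⊆ {j ≠ i}`: descending induction on
  `T`. If `j ∉ T`, `j ≠ i`: `b` regular mod `T ∪ {j}`, `f j` regular mod `T`. Let `b u ∈ (T)`, `u` homogeneous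
  (the ideal is homogeneous, decompose), strong induction on the degree of `u`: `u ∈ (T, f j)`, write
  `u = f j u' + (T)` with `u'` homogeneous of lower degree, `f j b u' ∈ (T)`, so `b u' ∈ (T)`, so `u' ∈ (T)`.
(2) `f k`, `k ≠ i`, is a nonzero divisor modulo `(T, b)`, `T ⊆ {j ≠ i, k}`: `f k u = b w + (T)` gives
  `b w ∈ (T, f k)`, so by (1) `w ∈ (T, f k)`, `w = f k w' + (T)`, so `f k (u - b w') ∈ (T)`, so
  `u - b w' ∈ (T)`.
-/

namespace Pc2352a

open MvPolynomial

namespace FacRegAux

variable {n : ℕ}

section graded

attribute [local instance] MvPolynomial.gradedAlgebra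

lemma comp_mul_right {a g : MvPolynomial (Fin n) ℂ} {e d : ℕ} (hg : g.IsHomogeneous e) :
    homogeneousComponent (d + e) (a * g) = homogeneousComponent d a * g := by
  have h := DirectSum.coe_decompose_mul_add_of_right_mem (homogeneousSubmodule (Fin n) ℂ)
    (i := d) (j := e) (a := a) (b := g) hg
  rw [← decomposition.decompose'_apply, ← decomposition.decompose'_apply]
  exact h

lemma comp_mul_right_of_lt {a g : MvPolynomial (Fin n) ℂ} {e d : ℕ} (hg : g.IsHomogeneous e)
    (h : d < e) : homogeneousComponent d (a * g) = 0 := by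
  have h := DirectSum.coe_decompose_mul_of_right_mem_of_not_le
    (homogeneousSubmodule (Fin n) ℂ) (i := e) (n := d) (a := a) (b := g) hg (by omega)
  rw [← decomposition.decompose'_apply]
  exact h

lemma span_homog {f : Fin n → MvPolynomial (Fin n) ℂ} {e : Fin n → ℕ}
    (hf : ∀ i, (f i).IsHomogeneous (e i)) (T : Set (Fin n)) {p : MvPolynomial (Fin n) ℂ}
    (hp : p ∈ Ideal.span (f '' T)) (d : ℕ) :
    homogeneousComponent d p ∈ Ideal.span (f '' T) := by
  refine homogeneousComponent_mem_of_mem ?_ hp d
  apply Ideal.homogeneous_span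
  rintro _ ⟨i, _, rfl⟩
  exact ⟨e i, hf i⟩

end graded

lemma base_X {T : Set (Fin n)} {i : Fin n} (hi : i ∉ T) {b : MvPolynomial (Fin n) ℂ}
    (hb : X i * b ∈ Ideal.span (X '' T : Set (MvPolynomial (Fin n) ℂ))) :
    b ∈ Ideal.span (X '' T : Set (MvPolynomial (Fin n) ℂ)) := by
  rw [mem_ideal_span_X_image] at hb ⊢
  intro m hm
  have h1 : Finsupp.single i 1 + m ∈ (X i * b).support := by
    rw [mem_support_iff, coeff_X_mul]
    exact mem_support_iff.1 hm
  obtain ⟨t, ht, hne⟩ := hb _ h1
  refine ⟨t, ht, ?_⟩
  have hti : i ≠ t := fun h => hi (h ▸ ht)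
  simpa [Finsupp.single_eq_of_ne' hti, Finsupp.single_apply, hti] using hne

/-- regularity of all the `f i` in every order -/
def Good (n : ℕ) (f : Fin n → MvPolynomial (Fin n) ℂ) : Prop :=
  ∀ (T : Set (Fin n)) (i : Fin n), i ∉ T → ∀ b, f i * b ∈ Ideal.span (f '' T) →
    b ∈ Ideal.span (f '' T)

lemma base {f : Fin n → MvPolynomial (Fin n) ℂ} {e : Fin n → ℕ} (hs : Sys n f e)
    (h1 : ∀ i, e i = 1) : Good n f := by
  obtain ⟨_, hhom, hz⟩ := hs
  have hlin : ∀ i, ∃ c : Fin n → ℂ, ∑ j, c j • (X j : MvPolynomial (Fin n) ℂ) = f i := by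
    intro i
    have h2 : f i ∈ homogeneousSubmodule (Fin n) ℂ 1 := by
      have := hhom i
      rw [h1 i] at this
      exact this
    rw [homogeneousSubmodule_one_eq_span_X] at h2
    exact (Submodule.mem_span_range_iff_exists_fun ℂ).1 h2
  choose M hM using hlin
  let A : Matrix (Fin n) (Fin n) ℂ := M
  have hinj : Function.Injective A.mulVec := by
    have : Function.Injective (Matrix.mulVecLin A) := by
      rw [← LinearMap.ker_eq_bot, LinearMap.ker_eq_bot']
      intro w hw
      apply hz
      intro i
      have h3 := congrFun hw i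
      rw [← hM i, map_sum]
      simp only [Matrix.mulVecLin_apply, Pi.zero_apply] at h3
      rw [← h3]
      simp [Matrix.mulVec, dotProduct, A]
    exact this
  have hu : IsUnit A := Matrix.mulVec_injective_iff_isUnit.1 hinj
  obtain ⟨B, hAB, hBA⟩ := isUnit_iff_exists.1 hu
  let ψ : MvPolynomial (Fin n) ℂ →ₐ[ℂ] MvPolynomial (Fin n) ℂ :=
    aeval (fun j => ∑ k, B j k • (X k : MvPolynomial (Fin n) ℂ))
  let φ : MvPolynomial (Fin n) ℂ →ₐ[ℂ] MvPolynomial (Fin n) ℂ := aeval f
  have hφX : ∀ i, φ (X i) = f i := fun i => aeval_X _ _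
  have hψX : ∀ j, ψ (X j) = ∑ k, B j k • (X k : MvPolynomial (Fin n) ℂ) := fun j => aeval_X _ _
  have hψf : ∀ i, ψ (f i) = X i := by
    intro i
    rw [← hM i, map_sum]
    simp only [map_smul, hψX, Finset.smul_sum, smul_smul]
    rw [Finset.sum_comm]
    simp only [← Finset.sum_smul]
    have h4 : ∀ k, ∑ j, M i j * B j k = (1 : Matrix (Fin n) (Fin n) ℂ) i k := by
      intro k
      rw [← hAB]
      rfl
    simp only [h4, Matrix.one_apply, ite_smul, one_smul, zero_smul]
    simp
  have hφψ : ∀ p, φ (ψ p) = p := by
    intro p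
    have : φ.comp ψ = AlgHom.id ℂ _ := by
      apply MvPolynomial.algHom_ext
      intro j
      simp only [AlgHom.comp_apply, hψX, map_sum, map_smul, hφX, AlgHom.id_apply]
      simp only [← hM, Finset.smul_sum, smul_smul]
      rw [Finset.sum_comm]
      simp only [← Finset.sum_smul]
      have h4 : ∀ k, ∑ l, B j l * M l k = (1 : Matrix (Fin n) (Fin n) ℂ) j k := by
        intro k
        rw [← hBA]
        rfl
      simp only [h4, Matrix.one_apply, ite_smul, one_smul, zero_smul]
      simp
    exact congrArg (fun F => F p) this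
  intro T i hi b hb
  have hmap1 : Ideal.map ψ (Ideal.span (f '' T)) =
      Ideal.span (X '' T : Set (MvPolynomial (Fin n) ℂ)) := by
    rw [Ideal.map_span, Set.image_image]
    simp only [hψf]
  have hmap2 : Ideal.map φ (Ideal.span (X '' T : Set (MvPolynomial (Fin n) ℂ))) =
      Ideal.span (f '' T) := by
    rw [Ideal.map_span, Set.image_image]
    simp only [hφX]
  have h5 : X i * ψ b ∈ Ideal.span (X '' T : Set (MvPolynomial (Fin n) ℂ)) := by
    rw [← hmap1, ← hψf i, ← map_mul]
    exact Ideal.mem_map_of_mem _ hb
  have h6 := base_X hi h5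
  rw [← hφψ b, ← hmap2]
  exact Ideal.mem_map_of_mem _ h6

lemma mem_insert {f : Fin n → MvPolynomial (Fin n) ℂ} {T : Set (Fin n)} {j : Fin n}
    {x : MvPolynomial (Fin n) ℂ} :
    x ∈ Ideal.span (f '' insert j T) ↔ ∃ a, ∃ z ∈ Ideal.span (f '' T), x = a * f j + z := by
  rw [Set.image_insert_eq, Ideal.mem_span_insert]

lemma step {f : Fin n → MvPolynomial (Fin n) ℂ} {e : Fin n → ℕ} {i : Fin n}
    {L : MvPolynomial (Fin n) ℂ} (hs : Sys n f e) (hL : L.IsHomogeneous 1)
    (hG : Good n (Function.update f i L)) : Good n f := by
  obtain ⟨hpos, hhom, hz⟩ := hs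
  have himg : ∀ T : Set (Fin n), i ∉ T → (Function.update f i L) '' T = f '' T := by
    intro T hT
    apply Set.image_congr
    intro j hj
    have hji : j ≠ i := by
      rintro rfl
      exact hT hj
    rw [Function.update_of_ne hji]
  -- the other members are regular
  have hreg : ∀ (T : Set (Fin n)) (k : Fin n), i ∉ T → k ≠ i → k ∉ T → ∀ b,
      f k * b ∈ Ideal.span (f '' T) → b ∈ Ideal.span (f '' T) := by
    intro T k hiT hki hkT b hb
    have h := hG T k hkT b
    rw [himg T hiT, Function.update_of_ne hki] at h
    exact h hb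
  have hregL : ∀ (T : Set (Fin n)), i ∉ T → ∀ b,
      L * b ∈ Ideal.span (f '' T) → b ∈ Ideal.span (f '' T) := by
    intro T hiT b hb
    have h := hG T i hiT b
    rw [himg T hiT, Function.update_self] at h
    exact h hb
  have hregLN : ∀ (T : Set (Fin n)), i ∉ T → ∀ N b,
      L ^ N * b ∈ Ideal.span (f '' T) → b ∈ Ideal.span (f '' T) := by
    intro T hiT N
    induction N with
    | zero => intro b hb; simpa using hb
    | succ N ih =>
      intro b hb
      apply hregL T hiT
      apply ih
      rw [← mul_assoc, ← pow_succ]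
      exact hb
  -- `f i` is regular modulo all the others
  have h0 : ∀ b, f i * b ∈ Ideal.span (f '' {j | j ≠ i}) → b ∈ Ideal.span (f '' {j | j ≠ i}) := by
    intro b hb
    obtain ⟨N, _, c, _, hc⟩ := Sys.pow_mem ⟨hpos, hhom, hz⟩ L hL i
    apply hregLN _ (by simp) N
    have h1 : L ^ N * b = (L ^ N - c * f i) * b + c * (f i * b) := by ring
    rw [h1]
    exact add_mem (Ideal.mul_mem_right _ _ hc) (Ideal.mul_mem_left _ _ hb)
  -- `f i` is regular modulo every subset of the others
  have h1 : ∀ m (T : Set (Fin n)), i ∉ T → ({j | j ≠ i} \ T).ncard = m → ∀ b,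
      f i * b ∈ Ideal.span (f '' T) → b ∈ Ideal.span (f '' T) := by
    intro m
    induction m with
    | zero =>
      intro T hiT hcard b hb
      have h2 : {j | j ≠ i} \ T = ∅ := (Set.ncard_eq_zero (Set.toFinite _)).1 hcard
      have hT : T = {j | j ≠ i} := by
        apply Set.Subset.antisymm
        · intro j hj h
          exact hiT (h ▸ hj)
        · exact Set.sdiff_eq_empty.1 h2
      rw [hT] at hb ⊢
      exact h0 b hb
    | succ m ih =>
      intro T hiT hcard
      have hne : ({j | j ≠ i} \ T).Nonempty := by
        rw [← Set.ncard_pos (Set.toFinite _)]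
        omega
      obtain ⟨j, hji, hjT⟩ := hne
      have hji' : j ≠ i := hji
      have hins : ∀ b, f i * b ∈ Ideal.span (f '' insert j T) →
          b ∈ Ideal.span (f '' insert j T) := by
        apply ih (insert j T)
        · rintro (h | h)
          · exact hji' h.symm
          · exact hiT h
        · have h3 : ({j | j ≠ i} \ insert j T) = ({j | j ≠ i} \ T) \ {j} := by
            ext x
            simp only [Set.mem_sdiff, Set.mem_insert_iff, Set.mem_singleton_iff]
            tauto
          have h4 : j ∈ {j | j ≠ i} \ T := ⟨hji, hjT⟩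
          rw [h3, Set.ncard_sdiff_singleton_of_mem h4, hcard]
          rfl
      -- homogeneous elements
      have hom : ∀ d (u : MvPolynomial (Fin n) ℂ), u.IsHomogeneous d →
          f i * u ∈ Ideal.span (f '' T) → u ∈ Ideal.span (f '' T) := by
        intro d
        induction d using Nat.strong_induction_on with
        | _ d ihd =>
          intro u hu hfu
          have h4 : u ∈ Ideal.span (f '' insert j T) := by
            apply hins
            exact Ideal.span_mono (Set.image_mono (Set.subset_insert j T)) hfu
          obtain ⟨a, t, ht, hut⟩ := mem_insert.1 h4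
          by_cases hd : e j ≤ d
          · obtain ⟨d', rfl⟩ := Nat.exists_eq_add_of_le' hd
            have h5 : u = homogeneousComponent d' a * f j + homogeneousComponent (d' + e j) t := by
              have h6 : homogeneousComponent (d' + e j) u = u := homogeneousComponent_eq_self hu
              rw [← comp_mul_right (hhom j), ← map_add, ← hut, h6]
            have ht' : homogeneousComponent (d' + e j) t ∈ Ideal.span (f '' T) :=
              span_homog hhom T ht _
            have h7 : homogeneousComponent d' a ∈ Ideal.span (f '' T) := by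
              apply ihd d' (by have := hpos j; omega) _ (homogeneousComponent_isHomogeneous _ _)
              apply hreg T j hiT hji' hjT
              have h8 : f j * (f i * homogeneousComponent d' a) =
                  f i * u - f i * homogeneousComponent (d' + e j) t := by
                conv_rhs => rw [h5]
                ring
              rw [h8]
              exact sub_mem hfu (Ideal.mul_mem_left _ _ ht')
            rw [h5]
            exact add_mem (Ideal.mul_mem_right _ _ h7) ht'
          · have h5 : u = homogeneousComponent d t := by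
              have h6 : homogeneousComponent d u = u := homogeneousComponent_eq_self hu
              rw [← h6, hut, map_add, comp_mul_right_of_lt (hhom j) (by omega), zero_add]
            rw [h5]
            exact span_homog hhom T ht _
      intro b hb
      rw [← sum_homogeneousComponent b]
      apply Ideal.sum_mem
      intro d _
      apply hom d _ (homogeneousComponent_isHomogeneous _ _)
      rw [mul_comm, ← comp_mul_right (hhom i), mul_comm]
      exact span_homog hhom T hb _
  intro T k hkT b hb
  by_cases hki : k = i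
  · subst hki
    exact h1 _ T hkT rfl b hb
  · by_cases hiT : i ∈ T
    · -- `T = insert i T'`
      obtain ⟨T', hiT', hTT'⟩ : ∃ T' : Set (Fin n), i ∉ T' ∧ T = insert i T' := by
        refine ⟨T \ {i}, by simp, ?_⟩
        rw [Set.insert_sdiff_singleton, Set.insert_eq_of_mem hiT]
      have hkT' : k ∉ T' := fun h => hkT (hTT' ▸ Set.mem_insert_of_mem _ h)
      rw [hTT'] at hb ⊢
      obtain ⟨w, t, ht, hbt⟩ := mem_insert.1 hb
      have h2 : f i * w ∈ Ideal.span (f '' insert k T') := by
        rw [mem_insert]
        refine ⟨b, -t, neg_mem ht, ?_⟩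
        have : w * f i = f k * b - t := by rw [hbt]; ring
        rw [mul_comm, this]; ring
      have h3 : w ∈ Ideal.span (f '' insert k T') := by
        apply h1 _ (insert k T') ?_ rfl w h2
        rintro (h | h)
        · exact hki h.symm
        · exact hiT' h
      obtain ⟨w', t', ht', hwt⟩ := mem_insert.1 h3
      have h4 : f k * (b - w' * f i) ∈ Ideal.span (f '' T') := by
        have : f k * (b - w' * f i) = t + t' * f i := by
          rw [mul_sub, hbt, hwt]; ring
        rw [this]
        exact add_mem ht (Ideal.mul_mem_right _ _ ht')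
      have h5 := hreg T' k hiT' hki hkT' _ h4
      rw [mem_insert]
      exact ⟨w', b - w' * f i, h5, by ring⟩
    · exact hreg T k hiT hki hkT b hb

end FacRegAux

theorem sys_reg {n : ℕ} {f : Fin n → MvPolynomial (Fin n) ℂ} {e : Fin n → ℕ} (hs : Sys n f e)
    (T : Set (Fin n)) (i : Fin n) (hi : i ∉ T) (b : MvPolynomial (Fin n) ℂ)
    (hb : f i * b ∈ Ideal.span (f '' T)) : b ∈ Ideal.span (f '' T) := by
  have h := sys_induction n (fun f _ => FacRegAux.Good n f)
    (fun f e hs h1 => FacRegAux.base hs h1)
    (fun f e i L hs hL _ hG => FacRegAux.step hs hL hG) f e hs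
  exact h T i hi b hb

end Pc2352a
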