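import Mathlib

set_option autoImplicit false

/-!
# FacRegInd: induction over systems of `n` forms in `n` variables

`Sys n f e`: `f 0, ..., f (n-1)` forms of positive degrees `e i` in `n` variables over `ℂ` whose only
common zero is the origin.

* `Sys.exists_linear`: for each `i` there is a linear form `L` such that replacing `f i` by `L` gives
  again a system. Proof: let `I' = (f j : j ≠ i)`. For a nonzero common zero `w` of the `f j`, `j ≠ i`,
  the ideal `Qw` of the line `ℂ w` is a minimal prime of `I'`: otherwise there is a minimal prime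
  `q < Qw < m`, `m` the ideal of the origin, and `m` is minimal over `q ⊔ (f i)` by the Nullstellensatz,
  so by Krull's theorem the height of `m / q` is at most one. Hence there are only finitely many lines,
  and a linear form that does not vanish on any of them exists.
* `Sys.pow_mem`: Nullstellensatz, then take homogeneous components of the coefficients.
* `sys_induction`: strong induction on the number of `i` with `e i ≠ 1`.
-/

namespace Pc2352a

open MvPolynomial

/-- `n` forms of positive degree in `n` variables with only the trivial common zero -/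
def Sys (n : ℕ) (f : Fin n → MvPolynomial (Fin n) ℂ) (e : Fin n → ℕ) : Prop :=
  (∀ i, 0 < e i) ∧ (∀ i, (f i).IsHomogeneous (e i)) ∧
    ∀ w : Fin n → ℂ, (∀ i, eval w (f i) = 0) → w = 0

namespace RegIndAux

variable {n : ℕ}

/-- Restriction to the line through `w`. -/
noncomputable def lineMap (w : Fin n → ℂ) : MvPolynomial (Fin n) ℂ →ₐ[ℂ] Polynomial ℂ :=
  aeval fun i => Polynomial.C (w i) * Polynomial.X

theorem lineMap_hom (w : Fin n → ℂ) {p : MvPolynomial (Fin n) ℂ} {k : ℕ} (hp : p.IsHomogeneous k) :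
    lineMap w p = Polynomial.C (eval w p) * Polynomial.X ^ k := by
  unfold lineMap
  rw [aeval_def, eval₂_eq, eval_eq, map_sum, Finset.sum_mul]
  apply Finset.sum_congr rfl
  intro d hd
  have hdeg : ∑ i ∈ d.support, d i = k := by
    have := hp (mem_support_iff.mp hd)
    rw [← this, Finsupp.weight_apply]
    simp [Finsupp.sum]
  rw [map_mul, map_prod, mul_assoc]
  congr 1
  rw [← hdeg, ← Finset.prod_pow_eq_pow_sum, ← Finset.prod_mul_distrib]
  apply Finset.prod_congr rfl
  intro i _
  rw [mul_pow, map_pow]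

theorem lineMap_eval (w : Fin n → ℂ) (p : MvPolynomial (Fin n) ℂ) (t : ℂ) :
    Polynomial.eval t (lineMap w p) = eval (fun i => w i * t) p := by
  have : ((Polynomial.aeval t).comp (lineMap w)) = (aeval (fun i => w i * t) :
      MvPolynomial (Fin n) ℂ →ₐ[ℂ] ℂ) := by
    ext i
    simp [lineMap]
  have h := congrArg (fun φ => φ p) this
  simp only [AlgHom.comp_apply] at h
  rw [Polynomial.coe_aeval_eq_eval] at h
  rw [h]
  rfl

/-- The ideal of the line through `w`. -/
noncomputable def lineIdeal (w : Fin n → ℂ) : Ideal (MvPolynomial (Fin n) ℂ) :=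
  RingHom.ker (lineMap w).toRingHom

instance (w : Fin n → ℂ) : (lineIdeal w).IsPrime :=
  RingHom.ker_isPrime (lineMap w).toRingHom

theorem mem_lineIdeal {w : Fin n → ℂ} {p : MvPolynomial (Fin n) ℂ} :
    p ∈ lineIdeal w ↔ lineMap w p = 0 := RingHom.mem_ker

theorem mem_lineIdeal_of_hom {w : Fin n → ℂ} {p : MvPolynomial (Fin n) ℂ} {k : ℕ}
    (hp : p.IsHomogeneous k) : p ∈ lineIdeal w ↔ eval w p = 0 := by
  rw [mem_lineIdeal, lineMap_hom w hp]
  simp

/-- The ideal of the origin. -/
noncomputable def orig (n : ℕ) : Ideal (MvPolynomial (Fin n) ℂ) :=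
  vanishingIdeal ℂ {(0 : Fin n → ℂ)}

instance : (orig n).IsPrime := by
  unfold orig; infer_instance

theorem mem_orig {p : MvPolynomial (Fin n) ℂ} : p ∈ orig n ↔ eval 0 p = 0 := by
  unfold orig
  rw [mem_vanishingIdeal_singleton_iff]
  rfl

theorem lineIdeal_lt {w : Fin n → ℂ} (hw : w ≠ 0) : lineIdeal w < orig n := by
  refine lt_of_le_of_ne ?_ ?_
  · intro p hp
    rw [mem_lineIdeal] at hp
    rw [mem_orig]
    have := lineMap_eval w p 0
    rw [hp] at this
    simp only [Polynomial.eval_zero, mul_zero] at this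
    exact this.symm
  · intro h
    obtain ⟨i, hi⟩ := Function.ne_iff.mp hw
    have h1 : (X i : MvPolynomial (Fin n) ℂ) ∈ orig n := by
      rw [mem_orig]; simp
    rw [← h, mem_lineIdeal_of_hom (isHomogeneous_X ℂ i)] at h1
    simp at h1
    exact hi h1

theorem orig_le_radical {f : Fin n → MvPolynomial (Fin n) ℂ} {e : Fin n → ℕ}
    (hs : Sys n f e) : orig n ≤ (Ideal.span (Set.range f)).radical := by
  rw [← vanishingIdeal_zeroLocus_eq_radical (K := ℂ)]
  unfold orig
  apply vanishingIdeal_anti_mono
  intro w hw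
  rw [mem_zeroLocus_iff] at hw
  rw [Set.mem_singleton_iff]
  exact hs.2.2 w fun i => hw (f i) (Ideal.subset_span ⟨i, rfl⟩)

theorem lineIdeal_minimal {f : Fin n → MvPolynomial (Fin n) ℂ} {e : Fin n → ℕ}
    (hs : Sys n f e) (i : Fin n) {w : Fin n → ℂ} (hw : w ≠ 0)
    (hz : ∀ j, j ≠ i → eval w (f j) = 0) :
    lineIdeal w ∈ (Ideal.span (f '' {j | j ≠ i})).minimalPrimes := by
  have hle : Ideal.span (f '' {j | j ≠ i}) ≤ lineIdeal w := by
    rw [Ideal.span_le]
    rintro _ ⟨j, hj, rfl⟩
    exact (mem_lineIdeal_of_hom (hs.2.1 j)).2 (hz j hj)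
  obtain ⟨q, hq, hqle⟩ := Ideal.exists_minimalPrimes_le hle
  rcases eq_or_lt_of_le hqle with h | h
  · rw [← h]; exact hq
  exfalso
  have hqp : q.IsPrime := hq.isPrime
  have hlt := lineIdeal_lt hw
  have hmin : orig n ∈ (q ⊔ Ideal.span {f i}).minimalPrimes := by
    refine ⟨⟨inferInstance, ?_⟩, ?_⟩
    · refine sup_le (h.le.trans hlt.le) ?_
      rw [Ideal.span_singleton_le_iff_mem, mem_orig]
      have h1 : f i ∈ orig n ↔ eval 0 (f i) = 0 := mem_orig
      by_cases hi : eval (0 : Fin n → ℂ) (f i) = 0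
      · exact hi
      · exfalso
        apply hi
        have h2 := (hs.2.1 i).coeff_eq_zero (d := 0) (by
          have := hs.1 i
          simp only [map_zero]; omega)
        rw [eval_zero]
        exact h2
    · rintro r ⟨hr, hle'⟩ _
      refine (orig_le_radical hs).trans (hr.radical_le_iff.2 ?_)
      rw [Ideal.span_le]
      rintro _ ⟨j, rfl⟩
      by_cases hj : j = i
      · subst hj
        exact hle' (Ideal.mem_sup_right (Ideal.mem_span_singleton_self _))
      · exact hle' (Ideal.mem_sup_left (hq.le (Ideal.subset_span ⟨j, hj, rfl⟩)))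
  have hht := Ideal.map_height_le_one_of_mem_minimalPrimes hmin
  have hqm : q ≤ orig n := h.le.trans hlt.le
  have hP1 : (Ideal.map (Ideal.Quotient.mk q) (lineIdeal w)).IsPrime :=
    Ideal.isPrime_map_quotientMk_of_isPrime h.le
  have hP2 : (Ideal.map (Ideal.Quotient.mk q) (orig n)).IsPrime :=
    Ideal.isPrime_map_quotientMk_of_isPrime hqm
  have hlt2 : Ideal.map (Ideal.Quotient.mk q) (lineIdeal w) <
      Ideal.map (Ideal.Quotient.mk q) (orig n) := by
    refine lt_of_le_of_ne (Ideal.map_mono hlt.le) fun heq => hlt.ne ?_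
    rw [← Ideal.comap_map_mk h.le, heq, Ideal.comap_map_mk hqm]
  have hlt1 : (⊥ : Ideal (MvPolynomial (Fin n) ℂ ⧸ q)) <
      Ideal.map (Ideal.Quotient.mk q) (lineIdeal w) := by
    refine lt_of_le_of_ne bot_le fun heq => h.ne ?_
    rw [← Ideal.comap_map_mk h.le, ← heq, ← RingHom.ker_eq_comap_bot, Ideal.mk_ker]
  have hb : (⊥ : Ideal (MvPolynomial (Fin n) ℂ ⧸ q)).IsPrime := Ideal.isPrime_bot
  have h1 := Ideal.height_strict_mono_of_isPrime_of_isPrime hlt1
  have h2 := Ideal.height_strict_mono_of_isPrime_of_isPrime hlt2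
  have h3 := h2.trans_le hht
  have h4 := Order.lt_one_iff.mp h3
  rw [h4] at h1
  exact not_lt_bot h1

/-- A linear form. -/
noncomputable def lin (c : Fin n → ℂ) : MvPolynomial (Fin n) ℂ := ∑ i, C (c i) * X i

theorem lin_hom (c : Fin n → ℂ) : (lin c).IsHomogeneous 1 := by
  unfold lin
  apply IsHomogeneous.sum
  intro i _
  have := (isHomogeneous_C (Fin n) (c i)).mul (isHomogeneous_X ℂ i)
  rwa [zero_add] at this

theorem eval_lin (c w : Fin n → ℂ) : eval w (lin c) = ∑ i, c i * w i := by
  unfold lin
  simp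

attribute [local instance] MvPolynomial.gradedAlgebra

theorem hc_eq (p : MvPolynomial (Fin n) ℂ) (k : ℕ) : homogeneousComponent k p =
    (DirectSum.decompose (homogeneousSubmodule (Fin n) ℂ) p k : MvPolynomial (Fin n) ℂ) :=
  (decomposition.decompose'_apply p k).symm

theorem comp_mul_le {f a : MvPolynomial (Fin n) ℂ} {e : ℕ} (hf : f.IsHomogeneous e) {N : ℕ}
    (h : e ≤ N) : homogeneousComponent N (a * f) = homogeneousComponent (N - e) a * f := by
  rw [hc_eq, hc_eq]
  exact DirectSum.coe_decompose_mul_of_right_mem_of_le _ hf h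

theorem comp_mul_not_le {f a : MvPolynomial (Fin n) ℂ} {e : ℕ} (hf : f.IsHomogeneous e) {N : ℕ}
    (h : ¬ e ≤ N) : homogeneousComponent N (a * f) = 0 := by
  rw [hc_eq]
  exact DirectSum.coe_decompose_mul_of_right_mem_of_not_le _ hf h

end RegIndAux

open RegIndAux

theorem Sys.exists_linear {n : ℕ} {f : Fin n → MvPolynomial (Fin n) ℂ} {e : Fin n → ℕ}
    (hs : Sys n f e) (i : Fin n) : ∃ L : MvPolynomial (Fin n) ℂ, L.IsHomogeneous 1 ∧
      Sys n (Function.update f i L) (Function.update e i 1) := by
  classical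
  set T : Set (Ideal (MvPolynomial (Fin n) ℂ)) :=
    {P | ∃ w : Fin n → ℂ, w ≠ 0 ∧ (∀ j, j ≠ i → eval w (f j) = 0) ∧ P = lineIdeal w} with hT
  have hfin : T.Finite := by
    refine (Ideal.finite_minimalPrimes_of_isNoetherianRing _
      (Ideal.span (f '' {j | j ≠ i}))).subset ?_
    rintro P ⟨w, hw, hz, rfl⟩
    exact lineIdeal_minimal hs i hw hz
  have : Finite T := hfin
  choose W hW1 hW2 hW3 using fun P : T => P.2
  obtain ⟨c, hc⟩ := Module.Dual.exists_forall_ne_zero_of_forall_exists
    (K := ℂ) (M := Fin n → ℂ) (ι := T)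
    (fun P => ∑ k, W P k • LinearMap.proj k) (by
      intro P
      obtain ⟨k, hk⟩ := Function.ne_iff.mp (hW1 P)
      refine ⟨Pi.single k 1, ?_⟩
      simp only [LinearMap.sum_apply, LinearMap.smul_apply, LinearMap.proj_apply, smul_eq_mul]
      rw [Finset.sum_eq_single k]
      · simpa using hk
      · intro b _ hb
        simp [hb]
      · intro h; exact absurd (Finset.mem_univ _) h)
  refine ⟨lin c, lin_hom c, ?_, ?_, ?_⟩
  · intro j
    by_cases hj : j = i
    · subst hj; simp
    · rw [Function.update_of_ne hj]; exact hs.1 j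
  · intro j
    by_cases hj : j = i
    · subst hj; simpa using lin_hom c
    · rw [Function.update_of_ne hj, Function.update_of_ne hj]; exact hs.2.1 j
  · intro w hw
    by_contra hne
    have hz : ∀ j, j ≠ i → eval w (f j) = 0 := by
      intro j hj
      have := hw j
      rwa [Function.update_of_ne hj] at this
    have hl : eval w (lin c) = 0 := by
      have := hw i
      rwa [Function.update_self] at this
    have hmem : lineIdeal w ∈ T := ⟨w, hne, hz, rfl⟩
    have h1 : lin c ∈ lineIdeal w := (mem_lineIdeal_of_hom (lin_hom c)).2 hl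
    have h2 := hW3 ⟨lineIdeal w, hmem⟩
    simp only at h2
    rw [h2, mem_lineIdeal_of_hom (lin_hom c), eval_lin] at h1
    apply hc ⟨lineIdeal w, hmem⟩
    simp only [LinearMap.sum_apply, LinearMap.smul_apply, LinearMap.proj_apply, smul_eq_mul]
    rw [← h1]
    exact Finset.sum_congr rfl fun k _ => mul_comm _ _

theorem Sys.pow_mem {n : ℕ} {f : Fin n → MvPolynomial (Fin n) ℂ} {e : Fin n → ℕ}
    (hs : Sys n f e) (L : MvPolynomial (Fin n) ℂ) (hL : L.IsHomogeneous 1) (i : Fin n) :
    ∃ N : ℕ, e i ≤ N ∧ ∃ c : MvPolynomial (Fin n) ℂ, c.IsHomogeneous (N - e i) ∧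
      L ^ N - c * f i ∈ Ideal.span (f '' {j | j ≠ i}) := by
  have h0 : L ∈ (Ideal.span (Set.range f)).radical := by
    apply orig_le_radical hs
    rw [mem_orig]
    have h2 := hL.coeff_eq_zero (d := 0) (by simp)
    rw [eval_zero]
    exact h2
  obtain ⟨M, hM⟩ := h0
  have hN : L ^ (M + e i) ∈ Ideal.span (Set.range f) := by
    rw [pow_add]; exact Ideal.mul_mem_right _ _ hM
  set N := M + e i with hNdef
  refine ⟨N, by omega, ?_⟩
  obtain ⟨a, ha⟩ := (Ideal.mem_span_range_iff_exists_fun).mp hN
  have hcomp : homogeneousComponent N (L ^ N) = L ^ N := by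
    have h1 : (L ^ N).IsHomogeneous (1 * N) := hL.pow N
    rw [one_mul] at h1
    rw [homogeneousComponent_of_mem (h1 : L ^ N ∈ homogeneousSubmodule (Fin n) ℂ N), if_pos rfl]
  rw [← ha, map_sum] at hcomp
  rw [ha] at hcomp
  refine ⟨homogeneousComponent (N - e i) (a i), homogeneousComponent_isHomogeneous _ _, ?_⟩
  have hi : homogeneousComponent N (a i * f i) = homogeneousComponent (N - e i) (a i) * f i :=
    comp_mul_le (hs.2.1 i) (by omega)
  rw [← hi, ← hcomp, ← Finset.add_sum_erase _ _ (Finset.mem_univ i), add_sub_cancel_left]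
  apply Ideal.sum_mem
  intro j hj
  have hji : j ≠ i := (Finset.mem_erase.mp hj).1
  by_cases hle : e j ≤ N
  · rw [comp_mul_le (hs.2.1 j) hle]
    exact Ideal.mul_mem_left _ _ (Ideal.subset_span ⟨j, hji, rfl⟩)
  · rw [comp_mul_not_le (hs.2.1 j) hle]
    exact Ideal.zero_mem _

theorem sys_induction (n : ℕ) (Good : (Fin n → MvPolynomial (Fin n) ℂ) → (Fin n → ℕ) → Prop)
    (base : ∀ f e, Sys n f e → (∀ i, e i = 1) → Good f e)
    (step : ∀ f e i L, Sys n f e → L.IsHomogeneous 1 →
      Sys n (Function.update f i L) (Function.update e i 1) →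
      Good (Function.update f i L) (Function.update e i 1) → Good f e) :
    ∀ f e, Sys n f e → Good f e := by
  classical
  have key : ∀ (m : ℕ) (f : Fin n → MvPolynomial (Fin n) ℂ) (e : Fin n → ℕ), Sys n f e →
      (Finset.univ.filter fun i => e i ≠ 1).card = m → Good f e := by
    intro m
    induction m using Nat.strong_induction_on with
    | _ m ih =>
      intro f e hs hm
      by_cases hall : ∀ i, e i = 1
      · exact base f e hs hall
      · push Not at hall
        obtain ⟨i, hi⟩ := hall
        obtain ⟨L, hL, hs'⟩ := hs.exists_linear i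
        refine step f e i L hs hL hs' (ih _ ?_ _ _ hs' rfl)
        rw [← hm]
        apply Finset.card_lt_card
        refine Finset.ssubset_iff_of_subset ?_ |>.2 ⟨i, ?_, ?_⟩
        · intro j hj
          simp only [Finset.mem_filter, Finset.mem_univ, true_and] at hj ⊢
          by_cases hji : j = i
          · subst hji; exact hi
          · rwa [Function.update_of_ne hji] at hj
        · simp [hi]
        · simp
  intro f e hs
  exact key _ f e hs rfl

end Pc2352a
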