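import Pool.Agent.Lib.Pc2352a.FacReg

set_option autoImplicit false

/-!
# FacSoc (1.2h): the socle of `S / (f_0, ..., f_(n-1))` lives in one degree only

`sys_soc`: if `τ` is homogeneous of degree `m`, `m ≠ Σ (e_i - 1)`, and `X_i τ ∈ (f)` for all `i`, then
`τ ∈ (f)`. Apply `sys_induction` with
`Good f e := ∀ τ m, τ.IsHomogeneous m → m + n ≠ Σ e i → (∀ i, X i * τ ∈ (f)) → τ ∈ (f)`.

Base: all linear, `(f) = (X_0..X_(n-1))` (Nullstellensatz or linear algebra: the `f i` are linearly
independent), `m ≠ 0`, and every form of positive degree is in it.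

Step (`L` in place of `f i`, `f' := (f j)_{j ≠ i}`), two substeps:
(a) from `(L, f')` to `(L^N, f')`: `X_j τ ∈ (L^N, f')` for all `j`, so `L τ ∈ (L^N, f')`,
  `L τ = L^N c + (f')`; `L` is a nonzero divisor mod `(f')` (`sys_reg`), so `τ = L^(N-1) c + (f')`, where `c`
  may be taken homogeneous of degree `m - (N-1)` (or `τ ∈ (f')` already). Then
  `X_j L^(N-1) c ∈ (L^N, f')` gives `L^(N-1) (X_j c - L e_j) ∈ (f')`, so `X_j c ∈ (L, f')`. If
  `deg c + n ≠ Σ (update e i 1)` then `c ∈ (L, f')` by hypothesis and `τ ∈ (L^N, f')`. Otherwise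
  `m + n = N + Σ_{j≠i} e_j`.
(b) from `(L^N, f')` to `(f_i, f')`: `L^N = c f_i` mod `(f')` with `c` homogeneous of degree `N - e_i`
  (`Sys.pow_mem`), and multiplication by `c` is injective `S/(f_i, f') → S/(L^N, f')`:
  `c z = L^N w = c f_i w` mod `(f')`, `c` is a nonzero divisor mod `(f')` since `c f_i = L^N` is. If
  `X_j τ ∈ (f_i, f')` for all `j`, then `X_j c τ ∈ (L^N, f')` for all `j`, and by (a) either
  `c τ ∈ (L^N, f')`, so `τ ∈ (f_i, f')`, or `deg (c τ) + n = N + Σ_{j≠i} e_j`, i.e. `m + n = Σ e`.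
-/

namespace Pc2352a

open MvPolynomial

namespace FacSocAux

variable {n : ℕ}

attribute [local instance] MvPolynomial.gradedAlgebra

lemma comp_mul {a b : MvPolynomial (Fin n) ℂ} {i : ℕ} (hb : b.IsHomogeneous i) (d : ℕ) :
    homogeneousComponent d (a * b) = if i ≤ d then homogeneousComponent (d - i) a * b else 0 := by
  have h := DirectSum.coe_decompose_mul_of_right_mem (𝒜 := homogeneousSubmodule (Fin n) ℂ)
    (a := a) (b := b) (i := i) d hb
  have h1 : ∀ (x : MvPolynomial (Fin n) ℂ) (j : ℕ),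
      ((DirectSum.decompose (homogeneousSubmodule (Fin n) ℂ) x j : homogeneousSubmodule (Fin n) ℂ j)
        : MvPolynomial (Fin n) ℂ) = homogeneousComponent j x :=
    fun x j => decomposition.decompose'_apply x j
  rw [h1, h1] at h
  exact h

lemma comp_mem {s : Set (MvPolynomial (Fin n) ℂ)} (hs : ∀ x ∈ s, ∃ d : ℕ, x.IsHomogeneous d)
    {z : MvPolynomial (Fin n) ℂ} (hz : z ∈ Ideal.span s) (d : ℕ) :
    homogeneousComponent d z ∈ Ideal.span s := by
  refine homogeneousComponent_mem_of_mem ?_ hz d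
  refine Ideal.homogeneous_span _ _ fun x hx => ?_
  obtain ⟨e, he⟩ := hs x hx
  exact ⟨e, he⟩

lemma range_eq_insert (f : Fin n → MvPolynomial (Fin n) ℂ) (i : Fin n) :
    Set.range f = insert (f i) (f '' {j | j ≠ i}) := by
  ext x
  constructor
  · rintro ⟨j, rfl⟩
    by_cases hj : j = i
    · exact Or.inl (by rw [hj])
    · exact Or.inr ⟨j, hj, rfl⟩
  · rintro (h | ⟨j, -, rfl⟩)
    · exact ⟨i, h.symm⟩
    · exact ⟨j, rfl⟩

lemma mem_range_iff (f : Fin n → MvPolynomial (Fin n) ℂ) (i : Fin n)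
    (z : MvPolynomial (Fin n) ℂ) :
    z ∈ Ideal.span (Set.range f) ↔ ∃ a, z - a * f i ∈ Ideal.span (f '' {j | j ≠ i}) := by
  rw [range_eq_insert f i, Ideal.mem_span_insert']
  constructor
  · rintro ⟨a, ha⟩
    exact ⟨-a, by rwa [neg_mul, sub_neg_eq_add]⟩
  · rintro ⟨a, ha⟩
    exact ⟨-a, by rwa [neg_mul, ← sub_eq_add_neg]⟩

lemma image_update (f : Fin n → MvPolynomial (Fin n) ℂ) (i : Fin n) (L : MvPolynomial (Fin n) ℂ) :
    Function.update f i L '' {j | j ≠ i} = f '' {j | j ≠ i} := by
  refine Set.image_congr fun j hj => ?_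
  exact Function.update_of_ne hj _ _

lemma linear_mem {m : ℕ} (hm : m ≠ 0) {τ : MvPolynomial (Fin n) ℂ} (hτ : τ.IsHomogeneous m) :
    τ ∈ Ideal.span (Set.range (X : Fin n → MvPolynomial (Fin n) ℂ)) := by
  rw [← Set.image_univ, mem_ideal_span_X_image]
  intro d hd
  by_contra hcon
  push Not at hcon
  have h0 : d = 0 := by
    ext j
    exact hcon j (Set.mem_univ j)
  have h1 : d.degree = m := by
    by_contra hne
    exact (mem_support_iff.1 hd) (hτ.coeff_eq_zero hne)
  rw [h0] at h1
  exact hm (by simpa using h1.symm)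

lemma mul_mem_of_X {P : Ideal (MvPolynomial (Fin n) ℂ)} {τ L : MvPolynomial (Fin n) ℂ}
    (hL : L.IsHomogeneous 1) (hx : ∀ j, X j * τ ∈ P) : L * τ ∈ P := by
  have h := linear_mem one_ne_zero hL
  refine Submodule.span_induction (p := fun x _ => x * τ ∈ P) ?_ ?_ ?_ ?_ h
  · rintro _ ⟨j, rfl⟩
    exact hx j
  · simp
  · intro x y _ _ h1 h2
    rw [add_mul]
    exact P.add_mem h1 h2
  · intro a x _ h1
    rw [smul_eq_mul, mul_assoc]
    exact P.mul_mem_left a h1

lemma eq_sum_of_linear {g : MvPolynomial (Fin n) ℂ} (hg : g.IsHomogeneous 1) :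
    g = ∑ j, C (coeff (Finsupp.single j 1) g) * X j := by
  ext m
  rw [coeff_sum]
  simp only [coeff_C_mul, coeff_X]
  by_cases hm : m.degree = 1
  · obtain ⟨j, rfl⟩ : ∃ j, m = Finsupp.single j 1 := by
      have hne : m ≠ 0 := by
        rintro rfl
        simp at hm
      obtain ⟨j, hj⟩ : ∃ j, m j ≠ 0 := by
        by_contra hcon
        push Not at hcon
        exact hne (Finsupp.ext hcon)
      refine ⟨j, ?_⟩
      have hle : Finsupp.single j 1 ≤ m := by
        rw [Finsupp.single_le_iff]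
        omega
      obtain ⟨m', hm'⟩ := exists_add_of_le hle
      have hd : m'.degree = 0 := by
        rw [hm', map_add, Finsupp.degree_single] at hm
        omega
      rw [Finsupp.degree_eq_zero_iff] at hd
      rw [hm', hd, add_zero]
    rw [Finset.sum_eq_single j]
    · simp
    · intro b _ hb
      rw [if_neg, mul_zero]
      intro h
      exact hb (Finsupp.single_left_injective one_ne_zero h)
    · intro h; exact absurd (Finset.mem_univ j) h
  · rw [hg.coeff_eq_zero hm]
    symm
    refine Finset.sum_eq_zero fun j _ => ?_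
    rw [if_neg, mul_zero]
    rintro rfl
    exact hm (by simp)

/-- The case of linear forms. -/
lemma base_case {f : Fin n → MvPolynomial (Fin n) ℂ} {e : Fin n → ℕ} (hs : Sys n f e)
    (he : ∀ i, e i = 1) (j : Fin n) : X j ∈ Ideal.span (Set.range f) := by
  obtain ⟨-, hhom, hzero⟩ := hs
  set A : Matrix (Fin n) (Fin n) ℂ := Matrix.of fun i j => coeff (Finsupp.single j 1) (f i) with hA
  have hf : ∀ i, f i = ∑ j, C (A i j) * X j := fun i =>
    eq_sum_of_linear (by have := hhom i; rwa [he i] at this)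
  have hdet : A.det ≠ 0 := by
    intro h0
    obtain ⟨w, hw, hAw⟩ := Matrix.exists_mulVec_eq_zero_iff.2 h0
    refine hw (hzero w fun i => ?_)
    rw [hf i, map_sum]
    simp only [map_mul, eval_C, eval_X]
    exact congrFun hAw i
  have hinv : A⁻¹ * A = 1 := Matrix.nonsing_inv_mul A (isUnit_iff_ne_zero.2 hdet)
  have hX : (X j : MvPolynomial (Fin n) ℂ) = ∑ i, C (A⁻¹ j i) * f i := by
    calc (X j : MvPolynomial (Fin n) ℂ) = ∑ l, C ((1 : Matrix (Fin n) (Fin n) ℂ) j l) * X l := by
          rw [Finset.sum_eq_single j]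
          · simp
          · intro b _ hb
            rw [Matrix.one_apply_ne (Ne.symm hb)]
            simp
          · intro h; exact absurd (Finset.mem_univ j) h
      _ = ∑ l, C (∑ i, A⁻¹ j i * A i l) * X l := by
          rw [← hinv]
          rfl
      _ = ∑ i, C (A⁻¹ j i) * f i := by
          simp only [hf, map_sum, map_mul, Finset.sum_mul, Finset.mul_sum]
          rw [Finset.sum_comm]
          refine Finset.sum_congr rfl fun i _ => Finset.sum_congr rfl fun l _ => ?_
          ring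
  rw [hX]
  exact Ideal.sum_mem _ fun i _ => Ideal.mul_mem_left _ _ (Ideal.subset_span ⟨i, rfl⟩)

/-- The statement proved by induction. -/
def Good (f : Fin n → MvPolynomial (Fin n) ℂ) (e : Fin n → ℕ) : Prop :=
  ∀ (τ : MvPolynomial (Fin n) ℂ) (m : ℕ), τ.IsHomogeneous m → m + n ≠ ∑ i, e i →
    (∀ i, X i * τ ∈ Ideal.span (Set.range f)) → τ ∈ Ideal.span (Set.range f)

lemma sum_update (e : Fin n → ℕ) (i : Fin n) (x : ℕ) :
    ∑ j, Function.update e i x j = x + ∑ j ∈ Finset.univ.erase i, e j := by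
  rw [← Finset.add_sum_erase _ _ (Finset.mem_univ i), Function.update_self]
  congr 1
  refine Finset.sum_congr rfl fun j hj => ?_
  exact Function.update_of_ne (Finset.ne_of_mem_erase hj) _ _

lemma sum_eq (e : Fin n → ℕ) (i : Fin n) : ∑ j, e j = e i + ∑ j ∈ Finset.univ.erase i, e j :=
  (Finset.add_sum_erase _ _ (Finset.mem_univ i)).symm

/-- Substep (a). -/
lemma step_a {f : Fin n → MvPolynomial (Fin n) ℂ} {e : Fin n → ℕ} (i : Fin n)
    {L : MvPolynomial (Fin n) ℂ} (hhom : ∀ i, (f i).IsHomogeneous (e i)) (hL : L.IsHomogeneous 1)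
    (hreg : ∀ b, L * b ∈ Ideal.span (f '' {j | j ≠ i}) → b ∈ Ideal.span (f '' {j | j ≠ i}))
    (hgood : Good (Function.update f i L) (Function.update e i 1)) (N : ℕ) (hN : 1 ≤ N)
    {τ : MvPolynomial (Fin n) ℂ} {m : ℕ} (hτ : τ.IsHomogeneous m)
    (hm : m + n ≠ N + ∑ j ∈ Finset.univ.erase i, e j)
    (hx : ∀ j, ∃ a, X j * τ - a * L ^ N ∈ Ideal.span (f '' {j | j ≠ i})) :
    ∃ a, τ - a * L ^ N ∈ Ideal.span (f '' {j | j ≠ i}) := by
  set I := Ideal.span (f '' {j | j ≠ i}) with hI
  have hcomp : ∀ z ∈ I, ∀ d, homogeneousComponent d z ∈ I := fun z hz d =>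
    comp_mem (by rintro x ⟨j, -, rfl⟩; exact ⟨e j, hhom j⟩) hz d
  obtain ⟨N, rfl⟩ : ∃ M, N = M + 1 := ⟨N - 1, by omega⟩
  -- `L τ ∈ (L ^ N, f')`
  have h1 : ∃ a, L * τ - a * L ^ (N+1) ∈ I := by
    have key : L * τ ∈ Ideal.span (insert (L ^ (N+1)) (f '' {j | j ≠ i})) := by
      refine mul_mem_of_X hL fun j => ?_
      obtain ⟨a, ha⟩ := hx j
      rw [Ideal.mem_span_insert']
      exact ⟨-a, by rwa [neg_mul, ← sub_eq_add_neg]⟩
    rw [Ideal.mem_span_insert'] at key
    obtain ⟨a, ha⟩ := key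
    exact ⟨-a, by rwa [neg_mul, sub_neg_eq_add]⟩
  obtain ⟨a, ha⟩ := h1
  have h2 : τ - a * L ^ N ∈ I := by
    refine hreg _ ?_
    have : L * (τ - a * L ^ N) = L * τ - a * L ^ (N+1) := by ring
    rw [this]
    exact ha
  have hLN : (L ^ N).IsHomogeneous N := by simpa using hL.pow N
  have h3 := hcomp _ h2 m
  rw [map_sub, homogeneousComponent_eq_self hτ, comp_mul hLN] at h3
  split_ifs at h3 with hNm
  · set c := homogeneousComponent (m - N) a with hc
    have hchom : c.IsHomogeneous (m - N) := homogeneousComponent_isHomogeneous _ _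
    have hcX : ∀ j, X j * c ∈ Ideal.span (Set.range (Function.update f i L)) := by
      intro j
      rw [mem_range_iff _ i, image_update, Function.update_self]
      obtain ⟨b, hb⟩ := hx j
      refine ⟨b, ?_⟩
      have h4 : L ^ N * (X j * c - b * L) ∈ I := by
        have : L ^ N * (X j * c - b * L) = (X j * τ - b * L ^ (N+1)) - X j * (τ - c * L ^ N) := by
          ring
        rw [this]
        exact I.sub_mem hb (I.mul_mem_left _ h3)
      have h5 : ∀ M : ℕ, ∀ z, L ^ M * z ∈ I → z ∈ I := by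
        intro M
        induction M with
        | zero => intro z hz; simpa using hz
        | succ M ih =>
          intro z hz
          refine ih z (hreg _ ?_)
          rw [← mul_assoc, ← pow_succ']
          exact hz
      exact h5 N _ h4
    by_cases hd : (m - N) + n = ∑ j, Function.update e i 1 j
    · exfalso
      rw [sum_update] at hd
      omega
    · have h6 := hgood c (m - N) hchom hd hcX
      rw [mem_range_iff _ i, image_update, Function.update_self] at h6
      obtain ⟨b, hb⟩ := h6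
      refine ⟨b, ?_⟩
      have : τ - b * L ^ (N+1) = (τ - c * L ^ N) + L ^ N * (c - b * L) := by ring
      rw [this]
      exact I.add_mem h3 (I.mul_mem_left _ hb)
  · exact ⟨0, by simpa using h3⟩

end FacSocAux

open FacSocAux in
theorem sys_soc {n : ℕ} {f : Fin n → MvPolynomial (Fin n) ℂ} {e : Fin n → ℕ} (hs : Sys n f e)
    {τ : MvPolynomial (Fin n) ℂ} {m : ℕ} (hτ : τ.IsHomogeneous m) (hm : m + n ≠ ∑ i, e i)
    (hx : ∀ i, X i * τ ∈ Ideal.span (Set.range f)) : τ ∈ Ideal.span (Set.range f) := by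
  refine sys_induction n (Good (n := n)) ?_ ?_ f e hs τ m hτ hm hx
  · -- base
    intro f e hs he τ m hτ hm _
    have hm0 : m ≠ 0 := by
      rintro rfl
      apply hm
      simp [he]
    refine Ideal.span_le.2 ?_ (linear_mem hm0 hτ)
    rintro _ ⟨j, rfl⟩
    exact base_case hs he j
  · intro f e i L hs hL hs' hgood τ m hτ hm hx
    obtain ⟨hpos, hhom, -⟩ := id hs
    obtain ⟨N, hN, c, hc, hcL⟩ := hs.pow_mem L hL i
    set I := Ideal.span (f '' {j | j ≠ i}) with hI
    have hreg : ∀ b, L * b ∈ I → b ∈ I := by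
      intro b hb
      have h := sys_reg hs' {j | j ≠ i} i (by simp) b
      rw [image_update, Function.update_self] at h
      exact h hb
    have hregN : ∀ M : ℕ, ∀ z, L ^ M * z ∈ I → z ∈ I := by
      intro M
      induction M with
      | zero => intro z hz; simpa using hz
      | succ M ih =>
        intro z hz
        refine ih z (hreg _ ?_)
        rw [← mul_assoc, ← pow_succ']
        exact hz
    have hei := hpos i
    rw [sum_eq e i] at hm
    have h1 : ∃ a, c * τ - a * L ^ N ∈ I := by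
      refine step_a i hhom hL hreg hgood N (by omega) (hc.mul hτ) (by omega) fun j => ?_
      have h2 := hx j
      rw [mem_range_iff _ i] at h2
      obtain ⟨a, ha⟩ := h2
      refine ⟨a, ?_⟩
      have : X j * (c * τ) - a * L ^ N = c * (X j * τ - a * f i) - a * (L ^ N - c * f i) := by ring
      rw [this]
      exact I.sub_mem (I.mul_mem_left _ ha) (I.mul_mem_left _ hcL)
    obtain ⟨w, hw⟩ := h1
    rw [mem_range_iff _ i]
    refine ⟨w, hregN N _ ?_⟩
    have : L ^ N * (τ - w * f i) = (L ^ N - c * f i) * (τ - w * f i) +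
        f i * ((c * τ - w * L ^ N) + w * (L ^ N - c * f i)) := by ring
    rw [this]
    exact I.add_mem (I.mul_mem_right _ hcL)
      (I.mul_mem_left _ (I.add_mem hw (I.mul_mem_left _ hcL)))

end Pc2352a
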