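import Pool.Agent.Lib.Pc2352a.Part1b
import Pool.Agent.Lib.Pc2352a.FacPart2

/-!
# The full answer
-/

open MvPolynomial Module

namespace Pool.Agent.Lib.Pc2352a.Asm

/-- If there is no relation between the points in degree `m`, evaluation is onto. -/
lemma onto_of_no_relation (T : Finset Vec) (m : ℕ)
    (hno : ¬ ∃ w₀ : Vec → ℂ, (∃ v ∈ T, w₀ v ≠ 0) ∧ ∀ g ∈ Fm m, fnl T w₀ g = 0)
    (φ : Vec → ℂ) : ∃ g : Poly, g.IsHomogeneous m ∧ ∀ z ∈ T, eval z g = φ z := by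
  classical
  let E : Fm m →ₗ[ℂ] (T → ℂ) :=
    { toFun := fun g v => eval (v : Vec) (g : Poly)
      map_add' := fun a b => by funext v; simp
      map_smul' := fun c a => by funext v; simp [smul_eval] }
  have hsurj : LinearMap.range E = ⊤ := by
    by_contra hne
    obtain ⟨f, hf0, hf⟩ := Submodule.exists_le_ker_of_lt_top _ (lt_top_iff_ne_top.mpr hne)
    apply hno
    refine ⟨fun v => if h : v ∈ T then f (Pi.single ⟨v, h⟩ 1) else 0, ?_, ?_⟩
    · by_contra hall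
      push Not at hall
      apply hf0
      refine LinearMap.pi_ext' fun v => ?_
      ext
      have h1 := hall v.1 v.2
      rw [dif_pos v.2] at h1
      simpa using h1
    · intro g hg
      have h1 : f (E ⟨g, hg⟩) = 0 := hf ⟨⟨g, hg⟩, rfl⟩
      have h2 : E ⟨g, hg⟩ = ∑ v : T, (eval (v : Vec) g) • (Pi.single v (1:ℂ) : T → ℂ) := by
        funext u
        simp [E, Pi.single_apply, Finset.sum_apply]
      rw [h2, map_sum] at h1
      rw [fnl_apply, ← Finset.sum_coe_sort T]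
      rw [← h1]
      refine Finset.sum_congr rfl fun v _ => ?_
      rw [dif_pos v.2, map_smul, smul_eq_mul]
      ring
  have h1 : (fun v : T => φ v) ∈ LinearMap.range E := by rw [hsurj]; trivial
  obtain ⟨g, hg⟩ := h1
  exact ⟨g.1, g.2, fun z hz => congrFun hg ⟨z, hz⟩⟩

theorem final (d : ℕ) (F : Poly) (hd : d = 4 ∨ d = 5 ∨ d = 6) (hF : F.IsHomogeneous d)
    (hnod : ∀ p : Projectivization ℂ Vec, eval p.rep F = 0 →
      (∀ i : Fin 5, eval p.rep (pderiv i F) = 0) → (hess F p.rep).rank = 4)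
    (hcard : (SingP F).encard ≤ ((2 * (d - 2) * (d - 1) : ℕ) : ℕ∞))
    (hP : ∃ P : Ideal Poly, P.IsPrime ∧ F ∈ P ∧ P.height = 2 ∧
      ∀ G : Poly, P ≠ Ideal.span {F, G}) :
    ((∃ L : (Fin 3 → ℂ) →ₗ[ℂ] (Fin 5 → ℂ),
          Function.Injective L ∧ ∀ v, eval (L v) F = 0) ∨
        (∃ (L : (Fin 4 → ℂ) →ₗ[ℂ] (Fin 5 → ℂ)) (q : MvPolynomial (Fin 4) ℂ),
          Function.Injective L ∧ q.IsHomogeneous 2 ∧ Irreducible q ∧
          ∀ v, eval v q = 0 → eval (L v) F = 0)) ∧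
      ((∃ (L : (Fin 4 → ℂ) →ₗ[ℂ] (Fin 5 → ℂ)) (q : MvPolynomial (Fin 4) ℂ),
          Function.Injective L ∧ q.IsHomogeneous 2 ∧ Irreducible q ∧
          ∀ v, eval v q = 0 → eval (L v) F = 0) →
        (SingP F).encard = ((2 * (d - 2) * (d - 1) : ℕ) : ℕ∞)) := by
  obtain ⟨P, hPp, hFP, hht, hPG⟩ := hP
  refine part1_final d F hd hF hnod hcard ?_
  intro l T hl hl1 hTs hT
  by_contra hno
  have hT0 : ∀ z ∈ T, z ≠ 0 := by
    rintro z hz rfl
    have h1 := hl1 0 hz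
    obtain ⟨c, rfl⟩ := exists_lin hl
    rw [eval_lin] at h1
    simp at h1
  have hn : _root_.Pc2352a.Nodal F := fun v hv hs => hess_rank d (by omega) F hF hnod v hv hs
  have hZ : _root_.Pc2352a.NodeSet F T := by
    refine ⟨fun z hz => ⟨hT0 z hz, hTs z hz⟩, fun w hw => ?_⟩
    by_cases h0 : w = 0
    · exact Or.inl h0
    · obtain ⟨c, v, hv, hcv⟩ := hT w h0 hw
      exact Or.inr ⟨v, hv, c, hcv⟩
  have hsurj : _root_.Pc2352a.EvalOnto T (2 * d - 5) :=
    fun φ => onto_of_no_relation T (2 * d - 5) hno φ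
  obtain ⟨G, hG⟩ := _root_.Pc2352a.part2 (by omega) hF hn hZ hsurj P hPp hFP hht
  exact hPG G hG

end Pool.Agent.Lib.Pc2352a.Asm
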