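import Pool.Agent.Lib.Pc2352a.Basic

/-!
# Gorenstein ideals

PROOF (black boxes: Basic). ann_symm: dl (ann L s) k is the rank of the bilinear form
(g, h) ↦ L (g h) on Fm k × Fm (s-k) (J_k is its left kernel, J_{s-k} its right kernel); left and
right rank agree. ann_colon: unfold (both are {g ∈ Fm k | k ≤ s → ∀ h ∈ Fm (s-k), L (l g h) = 0}).
ann_zero: Fm 0 = constants, J_0 = 0.
-/

open MvPolynomial Module

namespace Pool.Agent.Lib.Pc2352a

/-- The multiplication pairing. -/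
private noncomputable def pr (L : Poly →ₗ[ℂ] ℂ) (a b : ℕ) : Fm a →ₗ[ℂ] Module.Dual ℂ (Fm b) :=
  LinearMap.mk₂ ℂ (fun (g : Fm a) (h : Fm b) => L ((g : Poly) * (h : Poly)))
    (fun g g' h => by simp [add_mul])
    (fun c g h => by simp)
    (fun g h h' => by simp [mul_add])
    (fun c g h => by simp)

private lemma pr_apply (L : Poly →ₗ[ℂ] ℂ) (a b : ℕ) (g : Fm a) (h : Fm b) :
    pr L a b g h = L ((g : Poly) * (h : Poly)) := rfl

private lemma ann_J_left (L : Poly →ₗ[ℂ] ℂ) (s k : ℕ) (hk : k ≤ s) :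
    (ann L s).J k = (LinearMap.ker (pr L k (s - k))).map (Fm k).subtype := by
  ext g
  constructor
  · intro hg
    refine ⟨⟨g, hg.1⟩, ?_, rfl⟩
    rw [SetLike.mem_coe, LinearMap.mem_ker]
    ext h
    rw [pr_apply]
    exact hg.2 hk h h.2
  · rintro ⟨g', hg', rfl⟩
    rw [SetLike.mem_coe, LinearMap.mem_ker] at hg'
    refine ⟨g'.2, fun _ h hh => ?_⟩
    have := congrArg (fun f => f ⟨h, hh⟩) hg'
    exact this

private lemma ann_J_right (L : Poly →ₗ[ℂ] ℂ) (s k : ℕ) (hk : k ≤ s) :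
    (ann L s).J (s - k) =
      (LinearMap.range (pr L k (s - k))).dualCoannihilator.map (Fm (s - k)).subtype := by
  have hsk : s - (s - k) = k := by omega
  ext h
  constructor
  · intro hh
    refine ⟨⟨h, hh.1⟩, ?_, rfl⟩
    rw [SetLike.mem_coe, Submodule.mem_dualCoannihilator]
    rintro _ ⟨g, rfl⟩
    rw [pr_apply]
    have h1 := hh.2 (by omega) g.1 (by rw [hsk]; exact g.2)
    rw [mul_comm] at h1
    exact h1
  · rintro ⟨h', hh', rfl⟩
    rw [SetLike.mem_coe, Submodule.mem_dualCoannihilator] at hh'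
    refine ⟨h'.2, fun _ g hg => ?_⟩
    rw [hsk] at hg
    have h1 := hh' _ ⟨⟨g, hg⟩, rfl⟩
    rw [pr_apply] at h1
    rw [mul_comm]
    exact h1

lemma ann_symm (L : Poly →ₗ[ℂ] ℂ) (s k : ℕ) (hk : k ≤ s) :
    dl (ann L s) k = dl (ann L s) (s - k) := by
  have e1 : finrank ℂ ((ann L s).J k) = finrank ℂ (LinearMap.ker (pr L k (s - k))) := by
    rw [ann_J_left L s k hk]
    exact Submodule.finrank_map_subtype_eq _ _
  have e2 : finrank ℂ ((ann L s).J (s - k)) =
      finrank ℂ (LinearMap.range (pr L k (s - k))).dualCoannihilator := by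
    rw [ann_J_right L s k hk]
    exact Submodule.finrank_map_subtype_eq _ _
  have h1 := LinearMap.finrank_range_add_finrank_ker (pr L k (s - k))
  have h2 := Subspace.finrank_add_finrank_dualCoannihilator_eq
    (LinearMap.range (pr L k (s - k)))
  unfold dl
  rw [e1, e2]
  omega

lemma ann_colon (L : Poly →ₗ[ℂ] ℂ) (s : ℕ) (l : Poly) (hl : l ∈ Fm 1) (k : ℕ) :
    (colon (ann L (s + 1)) l hl).J k = (ann (L.comp (LinearMap.mulLeft ℂ l)) s).J k := by
  have hsk : s + 1 - (k + 1) = s - k := by omega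
  ext g
  constructor
  · intro hg
    refine ⟨hg.1, fun hk h hh => ?_⟩
    have h1 : l * g ∈ (ann L (s + 1)).J (k + 1) := hg.2
    have h2 := h1.2 (by omega) h (by rw [hsk]; exact hh)
    rw [LinearMap.comp_apply, LinearMap.mulLeft_apply, ← mul_assoc]
    exact h2
  · intro hg
    refine ⟨hg.1, ?_⟩
    show l * g ∈ (ann L (s + 1)).J (k + 1)
    refine ⟨mul_mem_Fm hl hg.1, fun hk h hh => ?_⟩
    rw [hsk] at hh
    have h1 := hg.2 (by omega) h hh
    rw [LinearMap.comp_apply, LinearMap.mulLeft_apply, ← mul_assoc] at h1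
    exact h1

lemma ann_zero (L : Poly →ₗ[ℂ] ℂ) (s : ℕ) (h : ∃ g ∈ Fm s, L g ≠ 0) : dl (ann L s) 0 = 1 := by
  refine le_antisymm (dl_zero_le _) ?_
  rw [Nat.one_le_iff_ne_zero]
  intro h0
  rw [dl_eq_zero_iff] at h0
  obtain ⟨g, hg, hLg⟩ := h
  have h1 : (1 : Poly) ∈ (ann L s).J 0 := by
    rw [h0]
    exact isHomogeneous_one _ _
  have h2 := h1.2 (Nat.zero_le _) g (by rw [Nat.sub_zero]; exact hg)
  rw [one_mul] at h2
  exact hLg h2

lemma ann_ne (L : Poly →ₗ[ℂ] ℂ) (s : ℕ) (l : Poly) (hl : l ∈ Fm 1)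
    (h : l ∉ (ann L (s + 1)).J 1) : ∃ g ∈ Fm s, L (l * g) ≠ 0 := by
  by_contra hcon
  push Not at hcon
  exact h ⟨hl, fun _ g hg => hcon g hg⟩

end Pool.Agent.Lib.Pc2352a
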