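import Pool.Agent.Lib.Pc2352a.Points
import Pool.Agent.Lib.Pc2352a.Pull

/-!
# Gradients of the polar forms

PROOF SKETCH. pull L (pderiv k F) vanishes on Z' and is a form of degree e+1 (pull_mem), so it is in
vanN Z' (e+1); its gradient at y is j ↦ ∑ i, (L e_j)_i * hess F (L y) i k (pderiv_pull, eval_pull,
pderiv commute). So the span contains the image of the column space of hess F (L y) (dimension 4)
under the map ℂ⁵ → ℂ⁴, x ↦ (j ↦ ∑ i (L e_j)_i x_i), which is onto (L injective) with kernel of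
dimension 1. So the dimension is ≥ 3.
-/

open MvPolynomial Module

namespace Pool.Agent.Lib.Pc2352a

namespace Grad

/-- The transpose of `L`. -/
noncomputable def tr (L : (Fin 4 → ℂ) →ₗ[ℂ] Vec) : Vec →ₗ[ℂ] (Fin 4 → ℂ) :=
  (LinearMap.toMatrix' L).transpose.mulVecLin

lemma tr_apply (L : (Fin 4 → ℂ) →ₗ[ℂ] Vec) (x : Vec) (j : Fin 4) :
    tr L x j = ∑ i, L (Pi.single j 1) i * x i := by
  rw [tr, Matrix.mulVecLin_apply]
  simp only [Matrix.mulVec, dotProduct, Matrix.transpose_apply, LinearMap.toMatrix'_apply]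

lemma tr_ker (L : (Fin 4 → ℂ) →ₗ[ℂ] Vec) (hL : Function.Injective L) :
    finrank ℂ (LinearMap.ker (tr L)) = 1 := by
  have h1 : finrank ℂ (LinearMap.range (tr L)) = 4 := by
    have h2 : (LinearMap.toMatrix' L).transpose.rank = 4 := by
      rw [Matrix.rank_transpose]
      have h3 : (LinearMap.toMatrix' L).mulVecLin = L := by
        rw [← Matrix.toLin'_apply', Matrix.toLin'_toMatrix']
      rw [Matrix.rank, h3, LinearMap.finrank_range_of_inj hL]
      simp
    exact h2
  have h2 := LinearMap.finrank_range_add_finrank_ker (tr L)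
  simp only [finrank_fintype_fun_eq_card, Fintype.card_fin] at h2
  omega

end Grad

open Grad

theorem grad_span (e : ℕ) (F : Poly) (hF : F.IsHomogeneous (e + 2))
    (L : (Fin 4 → ℂ) →ₗ[ℂ] Vec) (hL : Function.Injective L) (Z' : Finset (Fin 4 → ℂ))
    (hZ : ∀ y ∈ Z', ∀ i, eval (L y) (pderiv i F) = 0) (y : Fin 4 → ℂ) (hy : y ∈ Z')
    (hr : (hess F (L y)).rank = 4) :
    3 ≤ finrank ℂ (Submodule.span ℂ
      {u : Fin 4 → ℂ | ∃ g ∈ vanN Z' (e + 1), u = fun i => eval y (pderiv i g)}) := by
  set W := Submodule.span ℂ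
      {u : Fin 4 → ℂ | ∃ g ∈ vanN Z' (e + 1), u = fun i => eval y (pderiv i g)} with hW
  have hcol : ∀ k, tr L ((hess F (L y)).col k) ∈ W := by
    intro k
    apply Submodule.subset_span
    refine ⟨pull L (pderiv k F), ⟨?_, ?_⟩, ?_⟩
    · exact pull_mem L (hF.pderiv : (pderiv k F).IsHomogeneous (e + 2 - 1))
    · intro v hv
      rw [eval_pull]
      exact hZ v hv k
    · funext j
      rw [tr_apply, pderiv_pull, map_sum]
      refine Finset.sum_congr rfl fun i _ => ?_
      rw [map_mul, eval_C, eval_pull]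
      rfl
  have hle : (LinearMap.range (hess F (L y)).mulVecLin).map (tr L) ≤ W := by
    rintro _ ⟨_, ⟨x, rfl⟩, rfl⟩
    rw [Matrix.mulVecLin_apply, Matrix.mulVec_eq_sum, map_sum]
    refine Submodule.sum_mem _ fun k _ => ?_
    rw [op_smul_eq_smul, map_smul]
    exact Submodule.smul_mem _ _ (hcol k)
  have h1 := Submodule.finrank_mono hle
  have h2 := LinearMap.finrank_range_add_finrank_ker
    ((tr L).domRestrict (LinearMap.range (hess F (L y)).mulVecLin))
  have h3 : finrank ℂ (LinearMap.range (hess F (L y)).mulVecLin) = 4 := hr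
  rw [h3, LinearMap.range_domRestrict] at h2
  have h4 : finrank ℂ (LinearMap.ker
      ((tr L).domRestrict (LinearMap.range (hess F (L y)).mulVecLin))) ≤ 1 := by
    rw [← tr_ker L hL, LinearMap.ker_domRestrict, ← Submodule.finrank_map_subtype_eq,
      Submodule.map_comap_subtype]
    exact Submodule.finrank_mono inf_le_right
  omega

end Pool.Agent.Lib.Pc2352a
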