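import Pool.Agent.Lib.Pc2352a.Basic

/-!
# Not every hyperplane contains exactly one base point

PROOF SKETCH (black boxes: Basic). Suppose dl (addl I l) (t+1) = 1 = dl (addl I l) t for all
l ∈ Fm 1 \ J_1. Fix such l. There is a nonzero functional φ on Fm (t+1) vanishing on
J_{t+1} + l Fm t. Let N = {x ∈ Fm 1 : φ (x g) = 0 for all g ∈ Fm t}. The functionals g ↦ φ (x g)
on Fm t vanish on (addl I l)_t (which has codimension 1), so N has codimension ≤ 1 in Fm 1; N is not
Fm 1 because φ ≠ 0 and Fm (t+1) is spanned by Fm 1 · Fm t. So N is the space of linear forms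
vanishing at a vector p(l) ≠ 0 and φ is a multiple of evaluation at p (a form of degree t+1 vanishing
at p is in N · Fm t). Hence: J_{t+1} vanishes at p(l), l(p(l)) = 0, and J_1 vanishes at p(l)
(J_1 · Fm t ⊆ J_{t+1} ⊆ ker φ, so J_1 ⊆ N). Choose l' ∉ N, then l' ∉ J_1 and p' = p(l') is not
proportional to p. V(J_1) has dimension dl I 1 ≥ 3 and contains p, p', so there is a linear form l''
vanishing at p and p' but not on V(J_1), i.e. l'' ∉ J_1. Evaluations at p and p' on Fm (t+1) are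
independent and vanish on J_{t+1} + l'' Fm t, so dl (addl I l'') (t+1) ≥ 2, contradiction.
-/

open MvPolynomial Module

namespace Pool.Agent.Lib.Pc2352a

namespace PtAux

lemma lin_eval (lam : Poly →ₗ[ℂ] ℂ) {x : Poly} (hx : x ∈ Fm 1) :
    lam x = eval (fun i => lam (X i)) x := by
  unfold Fm at hx
  rw [homogeneousSubmodule_one_eq_span_X] at hx
  induction hx using Submodule.span_induction with
  | mem y hy => obtain ⟨i, rfl⟩ := hy; simp
  | zero => simp
  | add a b _ _ ha hb => rw [map_add, map_add, ha, hb]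
  | smul c a _ ha => rw [map_smul, smul_eval, ha, smul_eq_mul]

lemma pow_mem_Fm {x : Poly} (hx : x ∈ Fm 1) (j : ℕ) : x ^ j ∈ Fm j := by
  have := (hx : x.IsHomogeneous 1).pow j
  rw [one_mul] at this
  exact this

lemma mul_pow_mem (I : GId) {u : Poly} (hu : u ∈ I.J 1) {x : Poly} (hx : x ∈ Fm 1) (t : ℕ) :
    x ^ t * u ∈ I.J (t + 1) := by
  induction t with
  | zero => simpa using hu
  | succ t ih =>
    have := I.mul _ _ ih x hx
    rwa [← mul_assoc, ← pow_succ'] at this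

lemma exists_notMem {I : GId} {k : ℕ} (h : dl I k ≠ 0) : ∃ F ∈ Fm k, F ∉ I.J k := by
  by_contra hcon
  push Not at hcon
  apply h
  rw [dl_eq_zero_iff]
  exact le_antisymm (I.le k) hcon

lemma exists_point (I : GId) (t : ℕ) (l : Poly) (hl : l ∈ Fm 1)
    (h1 : dl (addl I l hl) (t + 1) = 1) (h2 : dl (addl I l hl) t = 1) :
    ∃ p : Vec, p ≠ 0 ∧ eval p l = 0 ∧ (∀ u ∈ I.J 1, eval p u = 0) ∧
      ∀ F ∈ I.J (t + 1), eval p F = 0 := by
  obtain ⟨F₀, hF₀, hF₀V⟩ := exists_notMem (I := addl I l hl) (k := t + 1) (by omega)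
  obtain ⟨φ, hφF, hφV⟩ := Submodule.exists_le_ker_of_notMem hF₀V
  obtain ⟨g₀, hg₀, hg₀A⟩ := exists_notMem (I := addl I l hl) (k := t) (by omega)
  have hAle := (addl I l hl).le t
  have hAfin : FiniteDimensional ℂ ((addl I l hl).J t) := Submodule.finiteDimensional_of_le hAle
  -- `Fm t` is spanned by `A` and `g₀`
  have hsup : (addl I l hl).J t ⊔ Submodule.span ℂ {g₀} = Fm t := by
    have hle : (addl I l hl).J t ⊔ Submodule.span ℂ {g₀} ≤ Fm t := by
      refine sup_le hAle ?_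
      rw [Submodule.span_singleton_le_iff_mem]
      exact hg₀
    apply Submodule.eq_of_le_of_finrank_eq hle
    have hdisj : (addl I l hl).J t ⊓ Submodule.span ℂ {g₀} = ⊥ := by
      rw [eq_bot_iff]
      intro u hu
      obtain ⟨hu1, hu2⟩ := Submodule.mem_inf.mp hu
      obtain ⟨c, rfl⟩ := Submodule.mem_span_singleton.mp hu2
      by_cases hc : c = 0
      · rw [hc, zero_smul]; exact Submodule.zero_mem _
      · exfalso
        apply hg₀A
        have := Submodule.smul_mem _ c⁻¹ hu1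
        rwa [smul_smul, inv_mul_cancel₀ hc, one_smul] at this
    have hfin := Submodule.finrank_sup_add_finrank_inf_eq ((addl I l hl).J t)
      (Submodule.span ℂ {g₀})
    have hg00 : g₀ ≠ 0 := fun h => hg₀A (by rw [h]; exact Submodule.zero_mem _)
    rw [hdisj, finrank_bot, add_zero, finrank_span_singleton hg00] at hfin
    have h3 := dl_add (addl I l hl) t
    omega
  let lam : Poly →ₗ[ℂ] ℂ := φ ∘ₗ LinearMap.mulRight ℂ g₀
  have hlam : ∀ x, lam x = φ (x * g₀) := fun x => rfl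
  set p : Vec := fun i => lam (X i) with hp
  have hlin : ∀ x ∈ Fm 1, φ (x * g₀) = eval p x := fun x hx => by
    rw [← hlam]; exact lin_eval lam hx
  have hV0 : ∀ F ∈ (addl I l hl).J (t + 1), φ F = 0 := fun F hF => hφV hF
  have key1 : ∀ g ∈ Fm t, ∃ c : ℂ, ∀ x ∈ Fm 1, φ (x * g) = c * eval p x := by
    intro g hg
    rw [← hsup] at hg
    obtain ⟨a, ha, b, hb, rfl⟩ := Submodule.mem_sup.mp hg
    obtain ⟨c, rfl⟩ := Submodule.mem_span_singleton.mp hb
    refine ⟨c, fun x hx => ?_⟩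
    rw [mul_add, map_add, hV0 _ ((addl I l hl).mul t a ha x hx), zero_add, mul_smul_comm,
      map_smul, hlin x hx, smul_eq_mul]
  have hp0 : p ≠ 0 := by
    intro h0
    have h3 : Fm (t + 1) ≤ LinearMap.ker φ := by
      apply span_mul
      intro x hx g hg
      obtain ⟨c, hc⟩ := key1 g hg
      have h4 : eval p x = 0 := by
        have := lin_eval (0 : Poly →ₗ[ℂ] ℂ) hx
        rw [LinearMap.zero_apply] at this
        rw [h0]
        exact this.symm
      show φ (x * g) = 0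
      rw [hc x hx, h4, mul_zero]
    exact hφF (h3 hF₀)
  obtain ⟨i, hi⟩ : ∃ i, p i ≠ 0 := by
    by_contra hcon
    push Not at hcon
    exact hp0 (funext hcon)
  obtain ⟨x₀, hx₀, hx₀p⟩ : ∃ x₀ ∈ Fm 1, eval p x₀ = 1 := by
    refine ⟨(p i)⁻¹ • X i, Submodule.smul_mem _ _ (isHomogeneous_X ℂ i), ?_⟩
    rw [smul_eval, eval_X, inv_mul_cancel₀ hi]
  have key2 : ∀ y ∈ Fm 1, ∀ g ∈ Fm t, φ (y * g) = eval p y * φ (x₀ * g) := by
    intro y hy g hg
    obtain ⟨c, hc⟩ := key1 g hg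
    rw [hc y hy, hc x₀ hx₀, hx₀p, mul_one, mul_comm]
  have key3 : ∀ j, j ≤ t + 1 → ∀ F ∈ Fm j,
      φ (F * x₀ ^ (t + 1 - j)) = eval p F * φ (x₀ ^ (t + 1)) := by
    intro j
    induction j with
    | zero =>
      intro _ F hF
      have h3 : F.totalDegree = 0 := (totalDegree_zero_iff_isHomogeneous (Fin 5)).2 hF
      obtain ⟨c, rfl⟩ : ∃ c, F = C c := ⟨_, totalDegree_eq_zero_iff_eq_C.1 h3⟩
      rw [eval_C, C_mul', map_smul, smul_eq_mul, Nat.sub_zero]
    | succ j ih =>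
      intro hj
      have h4 : Fm (j + 1) ≤ LinearMap.ker (φ ∘ₗ LinearMap.mulRight ℂ (x₀ ^ (t + 1 - (j + 1))) -
          φ (x₀ ^ (t + 1)) • (aeval p : Poly →ₐ[ℂ] ℂ).toLinearMap) := by
        apply span_mul
        intro y hy G hG
        rw [LinearMap.mem_ker, LinearMap.sub_apply, LinearMap.smul_apply, LinearMap.comp_apply,
          LinearMap.mulRight_apply, AlgHom.toLinearMap_apply, aeval_eq_eval, smul_eq_mul]
        have h5 : G * x₀ ^ (t + 1 - (j + 1)) ∈ Fm t := by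
          have h6 := (hG : G.IsHomogeneous j).mul
            (pow_mem_Fm hx₀ (t + 1 - (j + 1)) : (x₀ ^ (t + 1 - (j + 1))).IsHomogeneous _)
          rw [show j + (t + 1 - (j + 1)) = t by omega] at h6
          exact h6
        have h7 : x₀ * (G * x₀ ^ (t + 1 - (j + 1))) = G * x₀ ^ (t + 1 - j) := by
          rw [show t + 1 - j = (t + 1 - (j + 1)) + 1 by omega, pow_succ]
          ring
        rw [mul_assoc, key2 y hy _ h5, h7, ih (by omega) G hG, map_mul]
        ring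
      intro F hF
      have h5 := h4 hF
      rw [LinearMap.mem_ker, LinearMap.sub_apply, LinearMap.smul_apply, LinearMap.comp_apply,
        LinearMap.mulRight_apply, AlgHom.toLinearMap_apply, aeval_eq_eval, smul_eq_mul,
        sub_eq_zero] at h5
      rw [h5, mul_comm]
  have key4 : ∀ F ∈ Fm (t + 1), φ F = eval p F * φ (x₀ ^ (t + 1)) := by
    intro F hF
    have := key3 (t + 1) le_rfl F hF
    rwa [Nat.sub_self, pow_zero, mul_one] at this
  have hκ : φ (x₀ ^ (t + 1)) ≠ 0 := by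
    intro h0
    apply hφF
    rw [key4 F₀ hF₀, h0, mul_zero]
  have key5 : ∀ F ∈ (addl I l hl).J (t + 1), eval p F = 0 := by
    intro F hF
    have h3 := key4 F ((addl I l hl).le _ hF)
    rw [hV0 F hF] at h3
    exact (mul_eq_zero.1 h3.symm).resolve_right hκ
  refine ⟨p, hp0, ?_, ?_, ?_⟩
  · have h3 : l * x₀ ^ t ∈ (addl I l hl).J (t + 1) := by
      show l * x₀ ^ t ∈ I.J (t + 1) ⊔ (Fm t).map (LinearMap.mulLeft ℂ l)
      exact Submodule.mem_sup_right ⟨x₀ ^ t, pow_mem_Fm hx₀ t, rfl⟩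
    have h4 := key5 _ h3
    rwa [map_mul, map_pow, hx₀p, one_pow, mul_one] at h4
  · intro u hu
    have h3 := key5 _ (le_addl I l hl (t + 1) (mul_pow_mem I hu hx₀ t))
    rwa [map_mul, map_pow, hx₀p, one_pow, one_mul] at h3
  · intro F hF
    exact key5 _ (le_addl I l hl (t + 1) hF)

/-- Evaluation at two points. -/
noncomputable def ev2 (p q : Vec) (k : ℕ) : Fm k →ₗ[ℂ] ℂ × ℂ :=
  ((aeval p : Poly →ₐ[ℂ] ℂ).toLinearMap ∘ₗ (Fm k).subtype).prod
    ((aeval q : Poly →ₐ[ℂ] ℂ).toLinearMap ∘ₗ (Fm k).subtype)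

lemma ev2_apply (p q : Vec) (k : ℕ) (F : Fm k) :
    ev2 p q k F = (eval p (F : Poly), eval q (F : Poly)) := by
  show (aeval p (F : Poly), aeval q (F : Poly)) = _
  rw [aeval_eq_eval, aeval_eq_eval]

end PtAux

open PtAux in
theorem pt (I : GId) (t : ℕ) (h3 : 3 ≤ dl I 1) :
    ∃ (l : Poly) (hl : l ∈ Fm 1), l ∉ I.J 1 ∧
      ¬ (dl (addl I l hl) (t + 1) = 1 ∧ dl (addl I l hl) t = 1) := by
  by_contra hcon
  push Not at hcon
  have hall : ∀ (l : Poly) (hl : l ∈ Fm 1), l ∉ I.J 1 →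
      dl (addl I l hl) (t + 1) = 1 ∧ dl (addl I l hl) t = 1 := by
    exact hcon
  obtain ⟨l₁, hl₁, hl₁I⟩ := exists_notMem (I := I) (k := 1) (by omega)
  obtain ⟨p, hp0, -, hpJ, hpF⟩ := exists_point I t l₁ hl₁ (hall l₁ hl₁ hl₁I).1 (hall l₁ hl₁ hl₁I).2
  obtain ⟨i, hi⟩ : ∃ i, p i ≠ 0 := by
    by_contra hc
    push Not at hc
    exact hp0 (funext hc)
  have hX : (X i : Poly) ∈ Fm 1 := isHomogeneous_X ℂ i
  have hXI : (X i : Poly) ∉ I.J 1 := by
    intro h
    have := hpJ _ h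
    rw [eval_X] at this
    exact hi this
  obtain ⟨q, hq0, hqX, hqJ, hqF⟩ := exists_point I t (X i) hX (hall _ hX hXI).1 (hall _ hX hXI).2
  rw [eval_X] at hqX
  obtain ⟨j, hj⟩ : ∃ j, q j ≠ 0 := by
    by_contra hc
    push Not at hc
    exact hq0 (funext hc)
  have hXj : (X j : Poly) ∈ Fm 1 := isHomogeneous_X ℂ j
  -- evaluation at the two points is onto
  have hsurj : ∀ k, LinearMap.range (ev2 p q (k + 1)) = ⊤ := by
    intro k
    rw [eq_top_iff]
    rintro ⟨a, b⟩ _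
    have e1 : (X i : Poly) ^ (k + 1) ∈ Fm (k + 1) := pow_mem_Fm hX _
    have e2 : (X j : Poly) ^ (k + 1) ∈ Fm (k + 1) := pow_mem_Fm hXj _
    have hpi : (p i) ^ (k + 1) ≠ 0 := pow_ne_zero _ hi
    have hqj : (q j) ^ (k + 1) ≠ 0 := pow_ne_zero _ hj
    let d : ℂ := b / (q j) ^ (k + 1)
    let c : ℂ := (a - d * (p j) ^ (k + 1)) / (p i) ^ (k + 1)
    refine ⟨⟨c • (X i : Poly) ^ (k + 1) + d • (X j : Poly) ^ (k + 1),
      Submodule.add_mem _ (Submodule.smul_mem _ _ e1) (Submodule.smul_mem _ _ e2)⟩, ?_⟩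
    rw [ev2_apply]
    simp only [map_add, smul_eval, map_pow, eval_X, hqX]
    refine Prod.ext ?_ ?_
    · show c * p i ^ (k + 1) + d * p j ^ (k + 1) = a
      rw [div_mul_cancel₀ _ hpi]; ring
    · show c * 0 ^ (k + 1) + d * q j ^ (k + 1) = b
      rw [zero_pow (Nat.succ_ne_zero k), mul_zero, zero_add, div_mul_cancel₀ _ hqj]
  have hker : ∀ k, finrank ℂ (LinearMap.ker (ev2 p q (k + 1))) + 2 = finrank ℂ (Fm (k + 1)) := by
    intro k
    have h1 := LinearMap.finrank_range_add_finrank_ker (ev2 p q (k + 1))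
    rw [hsurj k, finrank_top, Module.finrank_prod, Module.finrank_self] at h1
    omega
  -- a linear form vanishing at the two points, not in the ideal
  obtain ⟨l₃, hl₃, hl₃I, hl₃p, hl₃q⟩ : ∃ l₃ ∈ Fm 1, l₃ ∉ I.J 1 ∧ eval p l₃ = 0 ∧
      eval q l₃ = 0 := by
    by_contra hc
    push Not at hc
    have h4 : (LinearMap.ker (ev2 p q 1)).map (Fm 1).subtype ≤ I.J 1 := by
      rintro _ ⟨F, hF, rfl⟩
      have hF' : ev2 p q 1 F = 0 := hF
      rw [ev2_apply] at hF'
      by_contra hFI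
      exact hc F F.2 hFI (congrArg Prod.fst hF') (congrArg Prod.snd hF')
    have hfin : FiniteDimensional ℂ (I.J 1) := Submodule.finiteDimensional_of_le (I.le 1)
    have h5 := Submodule.finrank_mono h4
    rw [Submodule.finrank_map_subtype_eq] at h5
    have h6 := hker 0
    have h7 := dl_add I 1
    rw [zero_add] at h6
    omega
  have h4 : (addl I l₃ hl₃).J (t + 1) ≤ (LinearMap.ker (ev2 p q (t + 1))).map
      (Fm (t + 1)).subtype := by
    intro F hF
    have hFm := (addl I l₃ hl₃).le _ hF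
    refine ⟨⟨F, hFm⟩, ?_, rfl⟩
    show ev2 p q (t + 1) ⟨F, hFm⟩ = 0
    rw [ev2_apply]
    have hF' : F ∈ I.J (t + 1) ⊔ (Fm t).map (LinearMap.mulLeft ℂ l₃) := hF
    obtain ⟨a, ha, b, hb, rfl⟩ := Submodule.mem_sup.mp hF'
    obtain ⟨g, hg, rfl⟩ := hb
    refine Prod.ext ?_ ?_
    · show eval p (a + l₃ * g) = 0
      rw [map_add, map_mul, hpF a ha, hl₃p, zero_mul, add_zero]
    · show eval q (a + l₃ * g) = 0
      rw [map_add, map_mul, hqF a ha, hl₃q, zero_mul, add_zero]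
  have h5 := Submodule.finrank_mono h4
  rw [Submodule.finrank_map_subtype_eq] at h5
  have h6 := hker t
  have h7 := dl_add (addl I l₃ hl₃) (t + 1)
  have h8 := (hall l₃ hl₃ hl₃I).1
  omega

end Pool.Agent.Lib.Pc2352a
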