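import Pool.Agent.Lib.Pc2352a.Basic

/-!
# Macaulay's bound and Gotzmann's theorem for small values
-/

open MvPolynomial Module

namespace Pool.Agent.Lib.Pc2352a

lemma const_of_Fm_zero {g : Poly} (hg : g ∈ Fm 0) : ∃ c : ℂ, g = C c := by
  have hg' : g ∈ (1 : Submodule ℂ Poly) := by
    rw [← homogeneousSubmodule_zero]
    exact hg
  obtain ⟨c, hc⟩ := Submodule.mem_one.1 hg'
  exact ⟨c, by rw [← hc]; rfl⟩

/-- The product of an element of `J 1` and a form of degree `k`. -/
lemma one_mul_mem (I : GId) {a : Poly} (ha : a ∈ I.J 1) (k : ℕ) :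
    ∀ g ∈ Fm k, a * g ∈ I.J (k + 1) := by
  induction k with
  | zero =>
    intro g hg
    obtain ⟨c, rfl⟩ := const_of_Fm_zero hg
    rw [mul_comm, C_mul']
    exact Submodule.smul_mem _ c ha
  | succ k ih =>
    have h := span_mul k ((I.J (k + 1 + 1)).comap (LinearMap.mulLeft ℂ a)) (by
      intro l hl g hg
      rw [Submodule.mem_comap, LinearMap.mulLeft_apply]
      have := I.mul (k + 1) (a * g) (ih g hg) l hl
      rwa [show a * (l * g) = l * (a * g) by ring])
    intro g hg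
    exact h hg

lemma eval_lin (v : Vec) {a : Poly} (ha : a ∈ Fm 1) :
    eval v a = ∑ i, v i * coeff (Finsupp.single i 1) a := by
  have h1 : a ∈ Submodule.span ℂ (Set.range (X : Fin 5 → Poly)) := by
    rw [← homogeneousSubmodule_one_eq_span_X]
    exact ha
  induction h1 using Submodule.span_induction with
  | mem x hx =>
    obtain ⟨j, rfl⟩ := hx
    rw [eval_X, Finset.sum_eq_single j]
    · simp
    · intro i _ hij
      rw [coeff_X, if_neg, mul_zero]
      intro h2
      exact hij (Finsupp.single_left_injective (by norm_num) h2).symm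
    · simp
  | zero => simp
  | add x y hx hy ihx ihy =>
    have hx' : x ∈ Fm 1 := by
      show x ∈ homogeneousSubmodule (Fin 5) ℂ 1
      rw [homogeneousSubmodule_one_eq_span_X]
      exact hx
    have hy' : y ∈ Fm 1 := by
      show y ∈ homogeneousSubmodule (Fin 5) ℂ 1
      rw [homogeneousSubmodule_one_eq_span_X]
      exact hy
    rw [map_add, ihx hx', ihy hy', ← Finset.sum_add_distrib]
    apply Finset.sum_congr rfl
    intro i _
    rw [coeff_add]
    ring
  | smul c x hx ih =>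
    have hx' : x ∈ Fm 1 := by
      show x ∈ homogeneousSubmodule (Fin 5) ℂ 1
      rw [homogeneousSubmodule_one_eq_span_X]
      exact hx
    rw [smul_eval, ih hx', Finset.mul_sum]
    apply Finset.sum_congr rfl
    intro i _
    rw [coeff_smul, smul_eq_mul]
    ring

lemma finrank_Fm_one : finrank ℂ (Fm 1) ≤ 5 := by
  have h1 : Fm 1 = Submodule.span ℂ (Set.range (X : Fin 5 → Poly)) :=
    homogeneousSubmodule_one_eq_span_X
  rw [h1]
  have h2 := finrank_range_le_card (R := ℂ) (X : Fin 5 → Poly)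
  rw [Fintype.card_fin] at h2
  exact h2

/-- A common zero of the linear forms in the ideal. -/
lemma exists_zero (I : GId) (h : 1 ≤ dl I 1) : ∃ p : Vec, p ≠ 0 ∧ ∀ a ∈ I.J 1, eval p a = 0 := by
  have hJ : finrank ℂ (I.J 1) < 5 := by
    have h1 := dl_add I 1
    have h2 := finrank_Fm_one
    omega
  have : FiniteDimensional ℂ (I.J 1) := Submodule.finiteDimensional_of_le (I.le 1)
  let Φ : Vec →ₗ[ℂ] Module.Dual ℂ (I.J 1) :=
    { toFun := fun v =>
        { toFun := fun a => ∑ i, v i * coeff (Finsupp.single i 1) (a : Poly)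
          map_add' := by
            intro a b
            rw [← Finset.sum_add_distrib]
            apply Finset.sum_congr rfl
            intro i _
            rw [Submodule.coe_add, coeff_add]
            ring
          map_smul' := by
            intro c a
            rw [RingHom.id_apply, smul_eq_mul, Finset.mul_sum]
            apply Finset.sum_congr rfl
            intro i _
            rw [Submodule.coe_smul, coeff_smul, smul_eq_mul]
            ring }
      map_add' := by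
        intro v w
        ext a
        simp [add_mul, Finset.sum_add_distrib]
      map_smul' := by
        intro c v
        ext a
        simp [Finset.mul_sum, mul_assoc] }
  have hker : LinearMap.ker Φ ≠ ⊥ := by
    apply LinearMap.ker_ne_bot_of_finrank_lt
    rw [Subspace.dual_finrank_eq]
    simpa using hJ
  obtain ⟨p, hp, hp0⟩ := (Submodule.ne_bot_iff _).1 hker
  refine ⟨p, hp0, ?_⟩
  intro a ha
  rw [eval_lin p (I.le 1 ha)]
  have h3 : Φ p ⟨a, ha⟩ = 0 := by
    rw [LinearMap.mem_ker.1 hp]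
    rfl
  exact h3

/-- The structure in the case of one linear form modulo the ideal. -/
lemma decomp_one (I : GId) {w : Poly} (hw : w ∈ Fm 1)
    (h1 : Fm 1 ≤ I.J 1 ⊔ Submodule.span ℂ {w}) (p : Vec) (hp : ∀ a ∈ I.J 1, eval p a = 0) (k : ℕ) :
    Fm k ≤ (I.J k ⊓ LinearMap.ker (aeval p : Poly →ₐ[ℂ] ℂ).toLinearMap) ⊔
      Submodule.span ℂ {w ^ k} := by
  induction k with
  | zero =>
    intro g hg
    obtain ⟨c, rfl⟩ := const_of_Fm_zero hg
    apply Submodule.mem_sup_right
    rw [Submodule.mem_span_singleton]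
    exact ⟨c, by rw [pow_zero, smul_eq_C_mul, mul_one]⟩
  | succ k ih =>
    apply span_mul
    intro l hl g hg
    obtain ⟨a, ha, a', ha', rfl⟩ := Submodule.mem_sup.1 (h1 hl)
    obtain ⟨c, rfl⟩ := Submodule.mem_span_singleton.1 ha'
    obtain ⟨b, hb, b', hb', hg'⟩ := Submodule.mem_sup.1 (ih hg)
    obtain ⟨d, rfl⟩ := Submodule.mem_span_singleton.1 hb'
    have h2 : (a + c • w) * g = (a * g + c • (w * b)) + (c * d) • w ^ (k + 1) := by
      rw [add_mul, ← hg']
      simp only [smul_eq_C_mul, map_mul]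
      ring
    rw [h2]
    refine Submodule.add_mem_sup (Submodule.add_mem _ ?_ (Submodule.smul_mem _ _ ?_))
      (Submodule.mem_span_singleton.2 ⟨_, rfl⟩)
    · refine Submodule.mem_inf.2 ⟨one_mul_mem I ha k g hg, ?_⟩
      rw [LinearMap.mem_ker]
      have h3 : eval p a = 0 := hp a ha
      show aeval p (a * g) = 0
      rw [map_mul]
      have h4 : aeval p a = eval p a := by
        rw [aeval_eq_eval]
      rw [h4, h3, zero_mul]
    · obtain ⟨hb1, hb2⟩ := Submodule.mem_inf.1 hb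
      refine Submodule.mem_inf.2 ⟨I.mul k b hb1 w hw, ?_⟩
      rw [LinearMap.mem_ker] at hb2 ⊢
      show aeval p (w * b) = 0
      have h5 : aeval p b = 0 := hb2
      rw [map_mul, h5, mul_zero]

lemma finrank_le_of_sup {V W : Submodule ℂ Poly} [FiniteDimensional ℂ W] {w : Poly}
    (h : V ≤ W ⊔ Submodule.span ℂ {w}) : finrank ℂ V ≤ finrank ℂ W + 1 := by
  have h1 : finrank ℂ V ≤ finrank ℂ (W ⊔ Submodule.span ℂ {w} : Submodule ℂ Poly) :=
    Submodule.finrank_mono h
  have h2 := Submodule.finrank_add_le_finrank_add_finrank W (Submodule.span ℂ {w})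
  have h3 : finrank ℂ (Submodule.span ℂ {w}) ≤ 1 := by
    have := finrank_span_le_card (R := ℂ) ({w} : Set Poly)
    simpa using this
  omega

instance finJ (I : GId) (k : ℕ) : FiniteDimensional ℂ (I.J k) :=
  Submodule.finiteDimensional_of_le (I.le k)

/-- The case of one linear form. -/
lemma case_one (I : GId) (t : ℕ) (hn : dl I 1 = 1) (h0 : 0 < dl I t) :
    dl I (t + 1) ≤ dl I t ∧ (Bpf I (t + 1) → dl I (t + 1) < dl I t) := by
  obtain ⟨p, hp0, hp⟩ := exists_zero I hn.ge
  have hne : I.J 1 ≠ Fm 1 := by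
    intro h
    rw [(dl_eq_zero_iff I 1).2 h] at hn
    omega
  obtain ⟨w, hw, hwJ⟩ := SetLike.exists_of_lt (lt_of_le_of_ne (I.le 1) hne)
  have h1 : Fm 1 ≤ I.J 1 ⊔ Submodule.span ℂ {w} := by
    have h2 : I.J 1 < I.J 1 ⊔ Submodule.span ℂ {w} := by
      refine lt_of_le_of_ne le_sup_left ?_
      intro h
      apply hwJ
      rw [h]
      exact Submodule.mem_sup_right (Submodule.mem_span_singleton_self w)
    have h3 : I.J 1 ⊔ Submodule.span ℂ {w} ≤ Fm 1 := by
      refine sup_le (I.le 1) ?_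
      rw [Submodule.span_singleton_le_iff_mem]
      exact hw
    have h4 := Submodule.finrank_lt_finrank_of_lt h2
    have h5 := dl_add I 1
    exact (Submodule.eq_of_le_of_finrank_le h3 (by omega)).ge
  have hd := decomp_one I hw h1 p hp
  have hle : ∀ k, dl I k ≤ 1 := by
    intro k
    have h6 : Fm k ≤ I.J k ⊔ Submodule.span ℂ {w ^ k} :=
      (hd k).trans (sup_le_sup_right inf_le_left _)
    have h7 := finrank_le_of_sup h6
    have h8 := dl_add I k
    omega
  have h9 := hle (t + 1)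
  refine ⟨by omega, ?_⟩
  intro hb
  obtain ⟨g, hg, hgp⟩ := hb p hp0
  obtain ⟨b, hb, b', hb', hg'⟩ := Submodule.mem_sup.1 (hd (t + 1) (I.le _ hg))
  obtain ⟨c, rfl⟩ := Submodule.mem_span_singleton.1 hb'
  obtain ⟨hb1, hb2⟩ := Submodule.mem_inf.1 hb
  have hc : c ≠ 0 := by
    rintro rfl
    rw [zero_smul, add_zero] at hg'
    apply hgp
    rw [← hg']
    rw [LinearMap.mem_ker] at hb2
    have h5 : aeval p b = 0 := hb2
    rwa [aeval_eq_eval] at h5
  have hwt : w ^ (t + 1) ∈ I.J (t + 1) := by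
    have h10 : c • w ^ (t + 1) ∈ I.J (t + 1) := by
      have : c • w ^ (t + 1) = g - b := by rw [← hg']; ring
      rw [this]
      exact Submodule.sub_mem _ hg hb1
    have := Submodule.smul_mem _ c⁻¹ h10
    rwa [smul_smul, inv_mul_cancel₀ hc, one_smul] at this
  have h11 : I.J (t + 1) = Fm (t + 1) := by
    apply le_antisymm (I.le _)
    refine (hd (t + 1)).trans (sup_le inf_le_left ?_)
    rw [Submodule.span_singleton_le_iff_mem]
    exact hwt
  rw [(dl_eq_zero_iff I (t + 1)).2 h11]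
  exact h0

/-- The graded pieces of the quotient. -/
abbrev Gq (I : GId) (k : ℕ) : Type := (Fm k) ⧸ (I.J k).submoduleOf (Fm k)

lemma finrank_Gq (I : GId) (k : ℕ) : finrank ℂ (Gq I k) = dl I k := by
  have h1 : finrank ℂ (Gq I k) + finrank ℂ ((I.J k).submoduleOf (Fm k)) = finrank ℂ (Fm k) :=
    ((I.J k).submoduleOf (Fm k)).finrank_quotient_add_finrank
  have h2 : finrank ℂ ((I.J k).submoduleOf (Fm k)) = finrank ℂ (I.J k) :=
    (Submodule.submoduleOfEquivOfLe (I.le k)).finrank_eq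
  have h3 := dl_add I k
  omega

/-- Multiplication by a linear form on the quotient. -/
noncomputable def Mq (I : GId) (k : ℕ) (l : Poly) (hl : l ∈ Fm 1) : Gq I k →ₗ[ℂ] Gq I (k + 1) :=
  Submodule.mapQ _ _ ((LinearMap.mulLeft ℂ l).restrict
    (fun g (hg : g ∈ Fm k) => (mul_mem_Fm hl hg : l * g ∈ Fm (k + 1)))) (by
      intro g hg
      exact I.mul k (g : Poly) hg l hl)

lemma Mq_mk (I : GId) (k : ℕ) (l : Poly) (hl : l ∈ Fm 1) (g : Poly) (hg : g ∈ Fm k) :
    Mq I k l hl (Submodule.Quotient.mk ⟨g, hg⟩) =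
      Submodule.Quotient.mk ⟨l * g, mul_mem_Fm hl hg⟩ := rfl

lemma mk_eq_zero (I : GId) (k : ℕ) (g : Poly) (hg : g ∈ Fm k) :
    (Submodule.Quotient.mk ⟨g, hg⟩ : Gq I k) = 0 ↔ g ∈ I.J k := by
  rw [Submodule.Quotient.mk_eq_zero]
  rfl

/-- A linear form with proper image. -/
lemma exists_good (I : GId) (t : ℕ) (hn : 2 ≤ dl I 1) (h0 : 0 < dl I t)
    (hge : dl I t ≤ dl I (t + 1)) :
    ∃ l, ∃ hl : l ∈ Fm 1, l ∉ I.J 1 ∧ dl (colon I l hl) t < dl I (t + 1) := by
  have hne : I.J 1 ≠ Fm 1 := by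
    intro h
    rw [(dl_eq_zero_iff I 1).2 h] at hn
    omega
  obtain ⟨l₁, hl₁, hl₁J⟩ := SetLike.exists_of_lt (lt_of_le_of_ne (I.le 1) hne)
  obtain ⟨l₀, hl₀, hl₀J⟩ : ∃ l₀ ∈ Fm 1, l₀ ∉ I.J 1 ⊔ Submodule.span ℂ {l₁} := by
    by_contra hcon
    push Not at hcon
    have h1 : Fm 1 ≤ I.J 1 ⊔ Submodule.span ℂ {l₁} := hcon
    have h2 := finrank_le_of_sup h1
    have h3 := dl_add I 1
    omega
  by_cases hlt : dl I t < dl I (t + 1)
  · exact ⟨l₁, hl₁, hl₁J, (dl_mono t (le_colon I l₁ hl₁ t)).trans_lt hlt⟩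
  have heq : dl I t = dl I (t + 1) := by omega
  by_contra hcon
  push Not at hcon
  have hinj : ∀ l, ∀ hl : l ∈ Fm 1, l ∉ I.J 1 → ∀ g ∈ Fm t, l * g ∈ I.J (t + 1) → g ∈ I.J t := by
    intro l hl hlJ g hg hlg
    have h1 := hcon l hl hlJ
    have h2 := dl_add I t
    have h3 := dl_add (colon I l hl) t
    have h4 : I.J t = (colon I l hl).J t :=
      Submodule.eq_of_le_of_finrank_le (le_colon I l hl t) (by omega)
    rw [h4]
    exact Submodule.mem_inf.2 ⟨hg, hlg⟩
  have hM1 : Function.Injective (Mq I t l₁ hl₁) := by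
    rw [injective_iff_map_eq_zero]
    intro x hx
    obtain ⟨⟨g, hg⟩, rfl⟩ := Submodule.Quotient.mk_surjective _ x
    rw [Mq_mk, mk_eq_zero] at hx
    rw [mk_eq_zero]
    exact hinj l₁ hl₁ hl₁J g hg hx
  set e := LinearEquiv.ofInjectiveOfFinrankEq (Mq I t l₁ hl₁) hM1 (by
    rw [finrank_Gq, finrank_Gq]; exact heq) with he
  have hnt : Nontrivial (Gq I t) := by
    apply Module.nontrivial_of_finrank_pos (R := ℂ)
    rw [finrank_Gq]
    exact h0
  obtain ⟨μ, hμ⟩ := Module.End.exists_eigenvalue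
    ((e.symm : Gq I (t + 1) →ₗ[ℂ] Gq I t) ∘ₗ Mq I t l₀ hl₀)
  obtain ⟨x, hx⟩ := hμ.exists_hasEigenvector
  have hx1 := hx.apply_eq_smul
  have hx0 : x ≠ 0 := hx.2
  have hx2 : Mq I t l₀ hl₀ x = μ • Mq I t l₁ hl₁ x := by
    have h5 := congrArg e hx1
    rw [LinearMap.comp_apply, LinearEquiv.coe_coe, LinearEquiv.apply_symm_apply, map_smul] at h5
    exact h5
  obtain ⟨⟨g, hg⟩, rfl⟩ := Submodule.Quotient.mk_surjective _ x
  have hl : l₀ - μ • l₁ ∈ Fm 1 := Submodule.sub_mem _ hl₀ (Submodule.smul_mem _ _ hl₁)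
  have hlJ : l₀ - μ • l₁ ∉ I.J 1 := by
    intro h6
    apply hl₀J
    have h7 : l₀ = (l₀ - μ • l₁) + μ • l₁ := by ring
    rw [h7]
    exact Submodule.add_mem_sup h6 (Submodule.mem_span_singleton.2 ⟨μ, rfl⟩)
  apply hx0
  rw [mk_eq_zero]
  apply hinj _ hl hlJ g hg
  rw [Mq_mk, Mq_mk, ← Submodule.Quotient.mk_smul, Submodule.Quotient.eq] at hx2
  have h8 : l₀ * g - μ • (l₁ * g) ∈ I.J (t + 1) := hx2
  have h9 : (l₀ - μ • l₁) * g = l₀ * g - μ • (l₁ * g) := by
    rw [sub_mul, smul_mul_assoc]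
  rw [h9]
  exact h8

lemma both (N : ℕ) : ∀ (I : GId) (t : ℕ), dl I t + dl I 1 ≤ N → dl I t ≤ t →
    dl I (t + 1) ≤ dl I t ∧ (Bpf I (t + 1) → 0 < dl I t → dl I (t + 1) < dl I t) := by
  induction N with
  | zero =>
    intro I t hN _
    have h0 : dl I t = 0 := by omega
    rw [dl_zero_succ h0, h0]
    exact ⟨le_rfl, fun _ h => h⟩
  | succ N ih =>
    intro I t hN ht
    by_cases h0 : dl I t = 0
    · rw [dl_zero_succ h0, h0]
      exact ⟨le_rfl, fun _ h => h⟩
    by_cases hlt : dl I (t + 1) < dl I t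
    · exact ⟨hlt.le, fun _ _ => hlt⟩
    have hge : dl I t ≤ dl I (t + 1) := by omega
    have hzero : ∀ k, dl I 1 = 0 → dl I (k + 1) = 0 := by
      intro k h1
      induction k with
      | zero => exact h1
      | succ k ih2 => exact dl_zero_succ ih2
    have ht1 : 1 ≤ t := by omega
    obtain ⟨t', rfl⟩ : ∃ t', t = t' + 1 := ⟨t - 1, by omega⟩
    have hn1 : 1 ≤ dl I 1 := by
      by_contra hn
      exact h0 (hzero t' (by omega))
    by_cases hn : dl I 1 = 1
    · have h1 := case_one I (t' + 1) hn (by omega)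
      exact ⟨h1.1, fun hb _ => h1.2 hb⟩
    obtain ⟨l, hl, hlJ, hlt2⟩ := exists_good I (t' + 1) (by omega) (by omega) hge
    have hl0 : l ≠ 0 := by
      rintro rfl
      exact hlJ (Submodule.zero_mem _)
    have e1 := dl_exact I l hl hl0 t'
    have e2 := dl_exact I l hl hl0 (t' + 1)
    have e3 := dl_addl_one I l hl hlJ
    have e4 : dl (addl I l hl) (t' + 1) ≠ 0 := by
      intro h
      have := dl_zero_succ h
      omega
    have e5 := dl_mono 1 (le_colon I l hl 1)
    have e6 := dl_mono (t' + 1) (le_addl I l hl (t' + 1))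
    have f1 := ih (colon I l hl) t' (by omega) (by omega)
    have f2 := ih (addl I l hl) (t' + 1) (by omega) (by omega)
    refine ⟨by omega, ?_⟩
    intro hb _
    have f3 := f2.2 (bpf_of_le (le_addl I l hl _) hb) (by omega)
    omega

theorem mac (I : GId) (t : ℕ) (h : dl I t ≤ t) : dl I (t + 1) ≤ dl I t :=
  (both _ I t le_rfl h).1

theorem mac_strict (I : GId) (t : ℕ) (h : dl I t ≤ t) (hb : Bpf I (t + 1)) (h0 : 0 < dl I t) :
    dl I (t + 1) < dl I t :=
  (both _ I t le_rfl h).2 hb h0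

end Pool.Agent.Lib.Pc2352a
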