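import Pool.Agent.Lib.Pc2352a.Arith
import Pool.Agent.Lib.Pc2352a.Small
import Pool.Agent.Lib.Pc2352a.Gor
import Pool.Agent.Lib.Pc2352a.Bij
import Pool.Agent.Lib.Pc2352a.Pt

/-!
# The Hilbert functions of small Gorenstein ideals without base points
-/

open MvPolynomial Module

namespace Pool.Agent.Lib.Pc2352a

lemma bpf_up {I : GId} {a b : ℕ} (h : Bpf I a) (hab : a ≤ b) : Bpf I b := by
  induction b, hab using Nat.le_induction with
  | base => exact h
  | succ b _ ih => exact bpf_succ ih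

lemma strict_up {I : GId} {e t : ℕ} (hb : Bpf I (e + 1)) (ht : e ≤ t) (h0 : 0 < dl I t)
    (h : dl I t ≤ t) : dl I (t + 1) < dl I t :=
  mac_strict I t h (bpf_up hb (by omega)) h0

lemma strict_up' {I : GId} {e t : ℕ} (hb : Bpf I (e + 1)) (ht : e ≤ t)
    (h : dl I t ≤ t) : dl I (t + 1) < dl I t ∨ dl I t = 0 := by
  rcases Nat.eq_zero_or_pos (dl I t) with h0 | h0
  · exact Or.inr h0
  · exact Or.inl (strict_up hb ht h0 h)

lemma dl_congr {I I' : GId} {k : ℕ} (h : I.J k = I'.J k) : dl I k = dl I' k := by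
  unfold dl
  rw [h]

lemma dl_pos (L : Poly →ₗ[ℂ] ℂ) (s : ℕ) (h : ∃ g ∈ Fm s, L g ≠ 0) (k : ℕ) (hk : k ≤ s) :
    0 < dl (ann L s) k := by
  by_contra h0
  have h1 : dl (ann L s) k = 0 := by omega
  have h2 : dl (ann L s) s = 0 := by
    have : ∀ j, k ≤ j → dl (ann L s) j = 0 := by
      intro j hj
      induction j, hj using Nat.le_induction with
      | base => exact h1
      | succ j _ ih => exact dl_zero_succ ih
    exact this s hk
  rw [ann_symm L s s le_rfl, Nat.sub_self, ann_zero L s h] at h2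
  omega

/-- All the facts about one linear form. -/
lemma res_facts (L : Poly →ₗ[ℂ] ℂ) (s e : ℕ) (hb : Bpf (ann L (s + 1)) (e + 1)) (l : Poly)
    (hl : l ∈ Fm 1) (hl' : l ∉ (ann L (s + 1)).J 1) :
    ∃ G : GId, (∀ k, dl (colon (ann L (s + 1)) l hl) k = dl G k) ∧ dl G 0 = 1 ∧
      Bpf G (e + 1) ∧ (∀ k ≤ s, dl G k = dl G (s - k)) ∧ (∀ k ≤ s, 0 < dl G k) := by
  have h1 := ann_ne L s l hl hl'
  have h2 : ∃ g ∈ Fm s, (L.comp (LinearMap.mulLeft ℂ l)) g ≠ 0 := h1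
  refine ⟨ann (L.comp (LinearMap.mulLeft ℂ l)) s, fun k => dl_congr (ann_colon L s l hl k),
    ann_zero _ s h2, ?_, fun k hk => ann_symm _ s k hk, fun k hk => dl_pos _ s h2 k hk⟩
  have h3 : (ann L (s + 1)).J (e + 1) ≤ (ann (L.comp (LinearMap.mulLeft ℂ l)) s).J (e + 1) := by
    rw [← ann_colon L s l hl (e + 1)]
    exact le_colon _ l hl _
  exact bpf_of_le h3 hb

lemma ne_zero_of {I : GId} {l : Poly} (h : l ∉ I.J 1) : l ≠ 0 := by
  rintro rfl
  exact h (Submodule.zero_mem _)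

lemma exists_not_mem {I : GId} (h : 0 < dl I 1) : ∃ l ∈ Fm 1, l ∉ I.J 1 := by
  by_contra hc
  push Not at hc
  have : I.J 1 = Fm 1 := le_antisymm (I.le 1) hc
  rw [(dl_eq_zero_iff I 1).mpr this] at h
  omega

theorem num4 (L : Poly →ₗ[ℂ] ℂ) (h0 : ∃ g ∈ Fm 8, L g ≠ 0) (hb : Bpf (ann L 8) 5)
    (h4 : dl (ann L 8) 1 ≤ 4) (hs : ∑ i ∈ Finset.range 9, dl (ann L 8) i ≤ 40) :
    (dl (ann L 8) 1 = 2 ∧ dl (ann L 8) 2 = 3 ∧ dl (ann L 8) 3 = 4 ∧ dl (ann L 8) 4 = 5) ∨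
    (dl (ann L 8) 1 = 3 ∧ dl (ann L 8) 2 = 5 ∧ dl (ann L 8) 3 = 7 ∧ dl (ann L 8) 4 = 8) := by
  have d0 := ann_zero L 8 h0
  have s5 := ann_symm L 8 5 (by norm_num)
  have s6 := ann_symm L 8 6 (by norm_num)
  have s7 := ann_symm L 8 7 (by norm_num)
  have s8 := ann_symm L 8 8 (by norm_num)
  norm_num at s5 s6 s7 s8
  set I := ann L 8 with hI
  have p1 : 0 < dl I 1 := dl_pos L 8 h0 1 (by norm_num)
  have p3 : 0 < dl I 3 := dl_pos L 8 h0 3 (by norm_num)
  have p4 : 0 < dl I 4 := dl_pos L 8 h0 4 (by norm_num)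
  have p5 : 0 < dl I 5 := dl_pos L 8 h0 5 (by norm_num)
  have p6 : 0 < dl I 6 := dl_pos L 8 h0 6 (by norm_num)
  have p7 : 0 < dl I 7 := dl_pos L 8 h0 7 (by norm_num)
  have i4 := strict_up (t := 4) hb (by norm_num) p4
  have i5 := strict_up (t := 5) hb (by norm_num) p5
  have i6 := strict_up (t := 6) hb (by norm_num) p6
  have i7 := strict_up (t := 7) hb (by norm_num) p7
  have hsum : 2 * (1 + dl I 1 + dl I 2 + dl I 3) + dl I 4 ≤ 40 := by
    have : ∑ i ∈ Finset.range 9, dl I i = dl I 0 + dl I 1 + dl I 2 + dl I 3 + dl I 4 + dl I 5 +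
        dl I 6 + dl I 7 + dl I 8 := by simp [Finset.sum_range_succ]
    omega
  norm_num at i4 i5 i6 i7
  rw [s5] at i4 i5
  rw [s6] at i5 i6
  rw [s7] at i6 i7
  rw [s8, d0] at i7
  -- the facts for one linear form
  have key : ∀ (l : Poly) (hl : l ∈ Fm 1), l ∉ I.J 1 →
      (dl I 1 = 2 ∧ dl I 2 = 3 ∧ dl I 3 = 4 ∧ dl I 4 = 5) ∨
      (dl I 1 = 3 ∧ dl I 2 = 5 ∧ dl I 3 = 7 ∧ dl I 4 = 8) ∨
      (dl I 1 ≥ 3 ∧ dl I 3 = dl I 4 ∧ dl (colon I l hl) 3 = dl I 3) ∨
      (dl I 1 ≥ 3 ∧ dl I 3 ≠ dl I 4 ∧ dl (addl I l hl) 4 = 1 ∧ dl (addl I l hl) 3 = 1) := by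
    intro l hl hl'
    obtain ⟨G, hG, g0, gb, gs, gp⟩ := res_facts L 7 4 hb l hl hl'
    have hl0 : l ≠ 0 := ne_zero_of hl'
    have ex : ∀ k, dl I (k + 1) = dl G k + dl (addl I l hl) (k + 1) := by
      intro k
      rw [← hG k]
      exact dl_exact I l hl hl0 k
    have x1 := ex 0
    have x2 := ex 1
    have x3 := ex 2
    have x4 := ex 3
    have x5 := ex 4
    have x6 := ex 5
    have x7 := ex 6
    have q4 := gs 4 (by norm_num)
    have q5 := gs 5 (by norm_num)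
    have q6 := gs 6 (by norm_num)
    have q7 := gs 7 (by norm_num)
    norm_num at x1 x2 x3 x4 x5 x6 x7 q4 q5 q6 q7
    have c4 := strict_up (t := 4) gb (by norm_num) (gp 4 (by norm_num))
    have c5 := strict_up (t := 5) gb (by norm_num) (gp 5 (by norm_num))
    have c6 := strict_up (t := 6) gb (by norm_num) (gp 6 (by norm_num))
    norm_num at c4 c5 c6
    have ab : Bpf (addl I l hl) (4 + 1) := bpf_of_le (le_addl I l hl _) hb
    have a4 := strict_up' (t := 4) ab (by norm_num)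
    have a5 := strict_up' (t := 5) ab (by norm_num)
    have a6 := strict_up' (t := 6) ab (by norm_num)
    have z4 := dl_zero_succ (I := addl I l hl) (k := 4)
    have z5 := dl_zero_succ (I := addl I l hl) (k := 5)
    have z6 := dl_zero_succ (I := addl I l hl) (k := 6)
    have m1 := mac (addl I l hl) 1
    have m2 := mac (addl I l hl) 2
    have m3 := mac (addl I l hl) 3
    have o1 := dl_addl_one I l hl hl'
    norm_num at a4 a5 a6 z4 z5 z6 m1 m2 m3
    have hG3 := hG 3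
    rw [hG3]
    rw [q4] at x5 c4
    rw [q5] at x6 c4 c5
    rw [q6] at x7 c5 c6
    rw [q7, g0] at c6
    have := arith4 (dl I 1) (dl I 2) (dl I 3) (dl I 4) (dl G 1) (dl G 2) (dl G 3)
      (dl (addl I l hl) 2) (dl (addl I l hl) 3) (dl (addl I l hl) 4) (dl (addl I l hl) 5)
      (dl (addl I l hl) 6) (dl (addl I l hl) 7) h4 hsum i4 i5 i6 i7 c4 c5 c6 x2 x3 x4
      (by rw [← s5]; exact x5) (by rw [← s6]; exact x6) (by rw [← s7]; exact x7)
      (by clear * - m1 o1; omega) m2 m3 a4 z4 a5 z5 a6 z6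
    exact this
  obtain ⟨l, hl, hl'⟩ := exists_not_mem p1
  by_cases hn : 3 ≤ dl I 1
  · by_cases hcm : dl I 3 = dl I 4
    · obtain ⟨l2, hl2, hl2', hlt⟩ := bij I 3 hcm p3 (by omega)
      rcases key l2 hl2 hl2' with h | h | h | h
      · exact Or.inl h
      · exact Or.inr h
      · omega
      · exact absurd hcm h.2.1
    · obtain ⟨l2, hl2, hl2', hlt⟩ := pt I 3 hn
      rcases key l2 hl2 hl2' with h | h | h | h
      · exact Or.inl h
      · exact Or.inr h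
      · exact absurd h.2.1 hcm
      · exact absurd ⟨h.2.2.1, h.2.2.2⟩ hlt
  · rcases key l hl hl' with h | h | h | h
    · exact Or.inl h
    · exact Or.inr h
    · omega
    · omega

theorem num3 (L : Poly →ₗ[ℂ] ℂ) (h0 : ∃ g ∈ Fm 6, L g ≠ 0) (hb : Bpf (ann L 6) 4)
    (h4 : dl (ann L 6) 1 ≤ 4) (hs : ∑ i ∈ Finset.range 7, dl (ann L 6) i ≤ 24) :
    (dl (ann L 6) 1 = 2 ∧ dl (ann L 6) 2 = 3 ∧ dl (ann L 6) 3 = 4) ∨
    (dl (ann L 6) 1 = 3 ∧ dl (ann L 6) 2 = 5 ∧ dl (ann L 6) 3 = 6) := by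
  have d0 := ann_zero L 6 h0
  have s4 := ann_symm L 6 4 (by norm_num)
  have s5 := ann_symm L 6 5 (by norm_num)
  have s6 := ann_symm L 6 6 (by norm_num)
  norm_num at s4 s5 s6
  set I := ann L 6 with hI
  have p1 : 0 < dl I 1 := dl_pos L 6 h0 1 (by norm_num)
  have p2 : 0 < dl I 2 := dl_pos L 6 h0 2 (by norm_num)
  have p3 : 0 < dl I 3 := dl_pos L 6 h0 3 (by norm_num)
  have p4 : 0 < dl I 4 := dl_pos L 6 h0 4 (by norm_num)
  have p5 : 0 < dl I 5 := dl_pos L 6 h0 5 (by norm_num)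
  have i3 := strict_up (t := 3) hb (by norm_num) p3
  have i4 := strict_up (t := 4) hb (by norm_num) p4
  have i5 := strict_up (t := 5) hb (by norm_num) p5
  have hsum : 2 * (1 + dl I 1 + dl I 2) + dl I 3 ≤ 24 := by
    have : ∑ i ∈ Finset.range 7, dl I i = dl I 0 + dl I 1 + dl I 2 + dl I 3 + dl I 4 + dl I 5 +
        dl I 6 := by simp [Finset.sum_range_succ]
    omega
  norm_num at i3 i4 i5
  rw [s4] at i3 i4
  rw [s5] at i4 i5
  rw [s6, d0] at i5
  have key : ∀ (l : Poly) (hl : l ∈ Fm 1), l ∉ I.J 1 →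
      (dl I 1 = 2 ∧ dl I 2 = 3 ∧ dl I 3 = 4) ∨
      (dl I 1 = 3 ∧ dl I 2 = 5 ∧ dl I 3 = 6) ∨
      (dl I 1 ≥ 3 ∧ dl I 2 = dl I 3 ∧ dl (colon I l hl) 2 = dl I 2) ∨
      (dl I 1 ≥ 3 ∧ dl I 2 ≠ dl I 3 ∧ dl (addl I l hl) 3 = 1 ∧ dl (addl I l hl) 2 = 1) := by
    intro l hl hl'
    obtain ⟨G, hG, g0, gb, gs, gp⟩ := res_facts L 5 3 hb l hl hl'
    have hl0 : l ≠ 0 := ne_zero_of hl'
    have ex : ∀ k, dl I (k + 1) = dl G k + dl (addl I l hl) (k + 1) := by
      intro k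
      rw [← hG k]
      exact dl_exact I l hl hl0 k
    have x2 := ex 1
    have x3 := ex 2
    have x4 := ex 3
    have x5 := ex 4
    have q3 := gs 3 (by norm_num)
    have q4 := gs 4 (by norm_num)
    have q5 := gs 5 (by norm_num)
    norm_num at x2 x3 x4 x5 q3 q4 q5
    have c3 := strict_up (t := 3) gb (by norm_num) (gp 3 (by norm_num))
    have c4 := strict_up (t := 4) gb (by norm_num) (gp 4 (by norm_num))
    norm_num at c3 c4
    have ab : Bpf (addl I l hl) (3 + 1) := bpf_of_le (le_addl I l hl _) hb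
    have a3 := strict_up' (t := 3) ab (by norm_num)
    have a4 := strict_up' (t := 4) ab (by norm_num)
    have z3 := dl_zero_succ (I := addl I l hl) (k := 3)
    have z4 := dl_zero_succ (I := addl I l hl) (k := 4)
    have m1 := mac (addl I l hl) 1
    have m2 := mac (addl I l hl) 2
    have o1 := dl_addl_one I l hl hl'
    norm_num at a3 a4 z3 z4 m1 m2
    have hG2 := hG 2
    rw [hG2]
    rw [q3] at x4 c3
    rw [q4] at x5 c3 c4
    rw [q5, g0] at c4
    exact arith3 (dl I 1) (dl I 2) (dl I 3) (dl G 1) (dl G 2)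
      (dl (addl I l hl) 2) (dl (addl I l hl) 3) (dl (addl I l hl) 4) (dl (addl I l hl) 5)
      h4 hsum i3 i4 i5 c3 c4 x2 x3
      (by rw [← s4]; exact x4) (by rw [← s5]; exact x5)
      (by clear * - m1 o1; omega) m2 a3 z3 a4 z4
  obtain ⟨l, hl, hl'⟩ := exists_not_mem p1
  by_cases hn : 3 ≤ dl I 1
  · by_cases hcm : dl I 2 = dl I 3
    · obtain ⟨l2, hl2, hl2', hlt⟩ := bij I 2 hcm p2 (by omega)
      rcases key l2 hl2 hl2' with h | h | h | h
      · exact Or.inl h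
      · exact Or.inr h
      · omega
      · exact absurd hcm h.2.1
    · obtain ⟨l2, hl2, hl2', hlt⟩ := pt I 2 hn
      rcases key l2 hl2 hl2' with h | h | h | h
      · exact Or.inl h
      · exact Or.inr h
      · exact absurd h.2.1 hcm
      · exact absurd ⟨h.2.2.1, h.2.2.2⟩ hlt
  · rcases key l hl hl' with h | h | h | h
    · exact Or.inl h
    · exact Or.inr h
    · omega
    · omega

theorem num2 (L : Poly →ₗ[ℂ] ℂ) (h0 : ∃ g ∈ Fm 4, L g ≠ 0) (hb : Bpf (ann L 4) 3)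
    (h4 : dl (ann L 4) 1 ≤ 4) (hs : ∑ i ∈ Finset.range 5, dl (ann L 4) i ≤ 12) :
    (dl (ann L 4) 1 = 2 ∧ dl (ann L 4) 2 = 3) ∨
    (dl (ann L 4) 1 = 3 ∧ dl (ann L 4) 2 = 4) := by
  have d0 := ann_zero L 4 h0
  have s3 := ann_symm L 4 3 (by norm_num)
  have s4 := ann_symm L 4 4 (by norm_num)
  norm_num at s3 s4
  set I := ann L 4 with hI
  have p1 : 0 < dl I 1 := dl_pos L 4 h0 1 (by norm_num)
  have p2 : 0 < dl I 2 := dl_pos L 4 h0 2 (by norm_num)
  have p3 : 0 < dl I 3 := dl_pos L 4 h0 3 (by norm_num)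
  have i2 := strict_up (t := 2) hb (by norm_num) p2
  have i3 := strict_up (t := 3) hb (by norm_num) p3
  have hsum : 2 * (1 + dl I 1) + dl I 2 ≤ 12 := by
    have : ∑ i ∈ Finset.range 5, dl I i = dl I 0 + dl I 1 + dl I 2 + dl I 3 + dl I 4 := by
      simp [Finset.sum_range_succ]
    omega
  norm_num at i2 i3
  rw [s3] at i2 i3
  rw [s4, d0] at i3
  have key : ∀ (l : Poly) (hl : l ∈ Fm 1), l ∉ I.J 1 →
      (dl I 1 = 2 ∧ dl I 2 = 3) ∨
      (dl I 1 = 3 ∧ dl I 2 = 4) ∨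
      (dl I 1 ≥ 3 ∧ dl I 1 = dl I 2 ∧ dl (colon I l hl) 1 = dl I 1) := by
    intro l hl hl'
    obtain ⟨G, hG, g0, gb, gs, gp⟩ := res_facts L 3 2 hb l hl hl'
    have hl0 : l ≠ 0 := ne_zero_of hl'
    have ex : ∀ k, dl I (k + 1) = dl G k + dl (addl I l hl) (k + 1) := by
      intro k
      rw [← hG k]
      exact dl_exact I l hl hl0 k
    have x2 := ex 1
    have x3 := ex 2
    have q2 := gs 2 (by norm_num)
    have q3 := gs 3 (by norm_num)
    norm_num at x2 x3 q2 q3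
    have c2 := strict_up (t := 2) gb (by norm_num) (gp 2 (by norm_num))
    norm_num at c2
    have ab : Bpf (addl I l hl) (2 + 1) := bpf_of_le (le_addl I l hl _) hb
    have a2 := strict_up' (t := 2) ab (by norm_num)
    have z2 := dl_zero_succ (I := addl I l hl) (k := 2)
    have m1 := mac (addl I l hl) 1
    have o1 := dl_addl_one I l hl hl'
    norm_num at a2 z2 m1
    have hG1 := hG 1
    rw [hG1]
    rw [q2] at x3 c2
    rw [q3, g0] at c2
    exact arith2 (dl I 1) (dl I 2) (dl G 1)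
      (dl (addl I l hl) 2) (dl (addl I l hl) 3)
      h4 hsum i2 i3 c2 x2
      (by rw [← s3]; exact x3)
      (by clear * - m1 o1; omega) a2 z2
  obtain ⟨l, hl, hl'⟩ := exists_not_mem p1
  by_cases hn : 3 ≤ dl I 1
  · by_cases hcm : dl I 1 = dl I 2
    · obtain ⟨l2, hl2, hl2', hlt⟩ := bij I 1 hcm p1 (by omega)
      rcases key l2 hl2 hl2' with h | h | h
      · exact Or.inl h
      · exact Or.inr h
      · omega
    · rcases key l hl hl' with h | h | h
      · exact Or.inl h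
      · exact Or.inr h
      · exact absurd h.2.1 hcm
  · rcases key l hl hl' with h | h | h
    · exact Or.inl h
    · exact Or.inr h
    · omega

end Pool.Agent.Lib.Pc2352a
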