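import Pool.Agent.Lib.Pc2352a.Rel

/-!
# A minimal relation is not a relation in the next degree

PROOF SKETCH. Suppose fnl Z w vanishes on Fm (m+1). Let A k ⊆ (Z → ℂ) be the set of value vectors of
forms of degree k. By minimality the annihilator of A m (for the pairing ∑ v, w' v * a v) is the line
spanned by w, so A m = {a | ∑ w v * a v = 0} (duality in finite dimension). Hence every g ∈ Fm (m+1)
agrees on Z with some g' ∈ Fm m. By induction on k ≥ m (span_mul of Basic: Fm (k+1) is spanned by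
products x h; h agrees with h' ∈ Fm m, x h' ∈ Fm (m+1) agrees with some element of Fm m) every form of
degree k ≥ m agrees on Z with a form of degree m, so fnl Z w vanishes on Fm k for all k ≥ m.
But take v₀ ∈ Z, for every v ∈ Z, v ≠ v₀, a linear form x_v with x_v(v) = 0, x_v(v₀) ≠ 0 (v, v₀ are
not proportional because l = 1 on Z: e.g. x_v = (coordinate i) - v i * l with v i ≠ v₀ i), and
h = l^m * ∏ x_v: h vanishes on Z except at v₀, degree ≥ m, fnl Z w h = w v₀ * h(v₀) ≠ 0.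
-/

open MvPolynomial Module

namespace Pool.Agent.Lib.Pc2352a

namespace TopAux

/-- Evaluation on the points. -/
noncomputable def ev (Z : Finset Vec) : Poly →ₗ[ℂ] (Z → ℂ) where
  toFun g v := eval (v : Vec) g
  map_add' a b := by funext v; simp
  map_smul' c a := by funext v; simp [smul_eval]

lemma ev_eq (Z : Finset Vec) (a b : Poly) : ev Z a = ev Z b ↔ ∀ v ∈ Z, eval v a = eval v b :=
  ⟨fun h v hv => congrFun h ⟨v, hv⟩, fun h => funext fun v => h v.1 v.2⟩

lemma agree (Z : Finset Vec) (w : Vec → ℂ) (m : ℕ)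
    (hmin : ∀ w' : Vec → ℂ, (∀ g ∈ Fm m, fnl Z w' g = 0) → ∃ c : ℂ, ∀ v ∈ Z, w' v = c * w v)
    (g : Poly) (hg : fnl Z w g = 0) : ev Z g ∈ (Fm m).map (ev Z) := by
  classical
  by_contra hne
  obtain ⟨f, hfa, hf⟩ := Submodule.exists_le_ker_of_notMem hne
  have hrep : ∀ p : Poly,
      fnl Z (fun v => if h : v ∈ Z then f (Pi.single ⟨v, h⟩ 1) else 0) p = f (ev Z p) := by
    intro p
    have h2 : ev Z p = ∑ v : Z, (eval (v : Vec) p) • (Pi.single v (1:ℂ) : Z → ℂ) := by
      funext u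
      simp [ev, Pi.single_apply, Finset.sum_apply]
    rw [h2, map_sum, fnl_apply, ← Finset.sum_coe_sort Z]
    refine Finset.sum_congr rfl fun v _ => ?_
    rw [dif_pos v.2, map_smul, smul_eq_mul]
    ring
  obtain ⟨c, hc⟩ := hmin _ fun p hp => by
    rw [hrep p]
    exact hf ⟨p, hp, rfl⟩
  apply hfa
  rw [← hrep g, fnl_apply]
  rw [fnl_apply] at hg
  calc ∑ v ∈ Z, (if h : v ∈ Z then f (Pi.single ⟨v, h⟩ 1) else 0) * eval v g
      = ∑ v ∈ Z, c * (w v * eval v g) := by
        refine Finset.sum_congr rfl fun v hv => ?_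
        rw [hc v hv, mul_assoc]
    _ = 0 := by rw [← Finset.mul_sum, hg, mul_zero]

end TopAux

open TopAux in
theorem top_ne (Z : Finset Vec) (hZ : Z.Nonempty) (w : Vec → ℂ) (hw : ∀ v ∈ Z, w v ≠ 0)
    (l : Poly) (hl : l ∈ Fm 1) (hl1 : ∀ v ∈ Z, eval v l = 1) (m : ℕ)
    (hrel : ∀ g ∈ Fm m, fnl Z w g = 0)
    (hmin : ∀ w' : Vec → ℂ, (∀ g ∈ Fm m, fnl Z w' g = 0) → ∃ c : ℂ, ∀ v ∈ Z, w' v = c * w v) :
    ∃ g ∈ Fm (m + 1), fnl Z w g ≠ 0 := by
  classical
  by_contra hcon
  push Not at hcon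
  -- every form of degree at least `m` agrees with a form of degree `m`
  have key : ∀ k : ℕ, Fm (m + k) ≤ ((Fm m).map (ev Z)).comap (ev Z) := by
    intro k
    induction k with
    | zero => exact fun g hg => ⟨g, hg, rfl⟩
    | succ k ih =>
      refine span_mul (m + k) _ ?_
      intro x hx g hg
      obtain ⟨g', hg', he⟩ := ih hg
      have h1 : ev Z (x * g) = ev Z (x * g') := by
        rw [ev_eq] at he ⊢
        intro v hv
        rw [map_mul, map_mul, he v hv]
      rw [Submodule.mem_comap, h1]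
      exact agree Z w m hmin _ (hcon _ (mul_mem_Fm hx hg'))
  have key' : ∀ k : ℕ, ∀ g ∈ Fm (m + k), fnl Z w g = 0 := by
    intro k g hg
    obtain ⟨g', hg', he⟩ := key k hg
    rw [ev_eq] at he
    have h1 := hrel g' hg'
    rw [fnl_apply] at h1 ⊢
    rw [← h1]
    exact Finset.sum_congr rfl fun v hv => by rw [he v hv]
  obtain ⟨v₀, hv₀⟩ := hZ
  have hx : ∀ v : Vec, ∃ x ∈ Fm 1, v ∈ Z → v ≠ v₀ → (eval v x = 0 ∧ eval v₀ x ≠ 0) := by
    intro v
    by_cases hv : v = v₀
    · exact ⟨0, Submodule.zero_mem _, fun _ h => absurd hv h⟩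
    · obtain ⟨i, hi⟩ := Function.ne_iff.mp hv
      refine ⟨X i - C (v i) * l, ?_, fun hvZ _ => ⟨?_, ?_⟩⟩
      · refine Submodule.sub_mem _ (isHomogeneous_X ℂ i) ?_
        rw [← smul_eq_C_mul]
        exact Submodule.smul_mem _ _ hl
      · rw [map_sub, map_mul, eval_X, eval_C, hl1 v hvZ]; ring
      · rw [map_sub, map_mul, eval_X, eval_C, hl1 v₀ hv₀, mul_one, sub_ne_zero]
        exact fun h => hi h.symm
  choose x hx1 hx2 using hx
  have hprod : (∏ v ∈ Z.erase v₀, x v).IsHomogeneous (∑ v ∈ Z.erase v₀, 1) :=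
    IsHomogeneous.prod _ _ _ fun v _ => hx1 v
  have hlm : (l ^ m).IsHomogeneous m := by
    have := (hl : l.IsHomogeneous 1).pow m
    rwa [one_mul] at this
  have hh : (l ^ m * ∏ v ∈ Z.erase v₀, x v) ∈ Fm (m + ∑ v ∈ Z.erase v₀, 1) := hlm.mul hprod
  have h0 := key' _ _ hh
  rw [fnl_apply, Finset.sum_eq_single v₀] at h0
  · rw [map_mul, map_pow, hl1 v₀ hv₀, one_pow, one_mul, map_prod] at h0
    rcases mul_eq_zero.mp h0 with h | h
    · exact hw v₀ hv₀ h
    · obtain ⟨v, hv, hv0⟩ := Finset.prod_eq_zero_iff.mp h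
      exact (hx2 v (Finset.mem_of_mem_erase hv) (Finset.ne_of_mem_erase hv)).2 hv0
  · intro v hv hne
    rw [map_mul, map_prod]
    have : ∏ u ∈ Z.erase v₀, eval v (x u) = 0 :=
      Finset.prod_eq_zero (Finset.mem_erase.mpr ⟨hne, hv⟩) (hx2 v hv hne).1
    rw [this, mul_zero, mul_zero]
  · exact fun h => absurd hv₀ h

end Pool.Agent.Lib.Pc2352a
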