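import Pool.Agent.Lib.Pc2352a.QuadAsm
import Pool.Agent.Lib.Pc2352a.Top
import Pool.Agent.Lib.Pc2352a.CountA
import Pool.Agent.Lib.Pc2352a.CountC

/-!
# Part 1: dependent nodes force a plane or a quadric
-/

open MvPolynomial Module

namespace Pool.Agent.Lib.Pc2352a.Asm

theorem part1 (e : ℕ) (he : e = 2 ∨ e = 3 ∨ e = 4) (F : Poly) (hF : F.IsHomogeneous (e + 2))
    (hr : ∀ v : Vec, v ≠ 0 → (∀ i, eval v (pderiv i F) = 0) → (hess F v).rank = 4)
    (l : Poly) (hl : l ∈ Fm 1) (T : Finset Vec) (hl1 : ∀ v ∈ T, eval v l = 1)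
    (hTs : ∀ v ∈ T, ∀ i, eval v (pderiv i F) = 0)
    (hT : ∀ w : Vec, w ≠ 0 → (∀ i, eval w (pderiv i F) = 0) → ∃ c : ℂ, ∃ v ∈ T, w = c • v)
    (hcard : T.card ≤ 2 * e * (e + 1)) (w₀ : Vec → ℂ) (h0 : ∃ v ∈ T, w₀ v ≠ 0)
    (hrel₀ : ∀ g ∈ Fm (2 * e - 1), fnl T w₀ g = 0) :
    (∃ L : (Fin 3 → ℂ) →ₗ[ℂ] Vec, Function.Injective L ∧ ∀ v, eval (L v) F = 0) ∨
    (∃ (L : (Fin 4 → ℂ) →ₗ[ℂ] Vec) (q : MvPolynomial (Fin 4) ℂ), Function.Injective L ∧
      q.IsHomogeneous 2 ∧ Irreducible q ∧ ∀ v, eval v q = 0 → eval (L v) F = 0) := by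
  obtain ⟨Z, w, hZT, hZne, hw, hrel, hmin⟩ := exists_min T (2 * e - 1) w₀ h0 hrel₀
  have he1 : 2 * e - 1 + 1 = 2 * e := by omega
  have hlZ : ∀ v ∈ Z, eval v l = 1 := fun v hv => hl1 v (hZT hv)
  have hZs : ∀ v ∈ Z, ∀ i, eval v (pderiv i F) = 0 := fun v hv => hTs v (hZT hv)
  have htop := top_ne Z hZne w hw l hl hlZ (2 * e - 1) hrel hmin
  have hlm := l_mem Z w l hl hlZ (2 * e - 1) hrel
  have hone := dl_van_one Z hZne w hw l hl hlZ (2 * e - 1) hrel hmin
  have hsum := fun k => sum_le Z w l hl hlZ (2 * e - 1) hrel k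
  have heq := fun h k hk => eq_all Z w l hl hlZ (2 * e - 1) hrel h k hk
  have he1' : 2 * e - 1 + 2 = 2 * e + 1 := by omega
  rw [he1] at htop hlm hone
  simp only [he1] at hsum
  simp only [he1, he1'] at heq
  set I := ann (fnl Z w) (2 * e) with hI
  have hl0 : l ≠ 0 := by
    rintro rfl
    obtain ⟨v, hv⟩ := hZne
    have := hlZ v hv
    simp at this
  have h4 : dl I 1 ≤ 4 := by
    have h5 := dl_add I 1
    rw [finrank_linFm] at h5
    have h6 : 0 < finrank ℂ (I.J 1) := by
      have : FiniteDimensional ℂ (I.J 1) := Submodule.finiteDimensional_of_le (I.le 1)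
      rw [Module.finrank_pos_iff_exists_ne_zero]
      exact ⟨⟨l, hlm⟩, fun h => hl0 (congrArg Subtype.val h)⟩
    omega
  have hlpow : ∀ k, l ^ (k + 1) ∈ I.J (k + 1) := by
    intro k
    induction k with
    | zero => simpa using hlm
    | succ k ih =>
      rw [pow_succ, mul_comm]
      exact I.mul _ _ ih l hl
  have hb : Bpf I (e + 1) := by
    intro v hv
    by_cases hs : ∀ i, eval v (pderiv i F) = 0
    · obtain ⟨c, t, ht, hct⟩ := hT v hv hs
      refine ⟨l ^ (e + 1), hlpow e, ?_⟩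
      rw [map_pow]
      apply pow_ne_zero
      have hc : c ≠ 0 := by
        rintro rfl
        exact hv (by rw [hct, zero_smul])
      obtain ⟨a, rfl⟩ := exists_lin hl
      have h5 := hl1 t ht
      rw [eval_lin] at h5 ⊢
      rw [hct]
      have h6 : ∑ i, a i * (c • t) i = c * ∑ i, a i * t i := by
        rw [Finset.mul_sum]
        refine Finset.sum_congr rfl fun i _ => ?_
        simp only [Pi.smul_apply, smul_eq_mul]
        ring
      rw [h6, h5, mul_one]
      exact hc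
    · push Not at hs
      obtain ⟨i, hi⟩ := hs
      refine ⟨pderiv i F, van_le_ann Z w (2 * e) (e + 1) ⟨?_, fun v hv => hZs v hv i⟩, hi⟩
      have := hF.pderiv (i := i)
      exact this
  have hZcard : Z.card ≤ 2 * e * (e + 1) := (Finset.card_le_card hZT).trans hcard
  have hsumle : ∑ i ∈ Finset.range (2 * e + 1), dl I i ≤ 2 * e * (e + 1) :=
    ((hsum (2 * e)).trans (dl_van_le Z (2 * e))).trans hZcard
  have d0 := ann_zero (fnl Z w) (2 * e) htop
  rw [← hI] at d0
  -- planar and quadric alternatives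
  have hplanar : dl I 1 = 2 → (e + 3).choose 2 ≤ (∑ i ∈ Finset.range (e + 2), dl I i) + 2 →
      ∃ L : (Fin 3 → ℂ) →ₗ[ℂ] Vec, Function.Injective L ∧ ∀ v, eval (L v) F = 0 := by
    intro h1 h2
    refine planar (e + 2) (by omega) F hF T hT Z hZs (by rw [hone, h1]) ?_
    have h3 := hsum (e + 1)
    have h5 : e + 2 - 1 = e + 1 := by omega
    rw [h5]
    have h6 : e + 2 + 1 = e + 3 := by omega
    rw [h6]
    have h7 : e + 1 + 1 = e + 2 := by omega
    rw [h7] at h3
    omega
  have hquad : dl I 1 = 3 → 2 * e * (e + 1) ≤ ∑ i ∈ Finset.range (2 * e + 1), dl I i →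
      (3 ≤ e → dl I 2 = 5) →
      (∑ i ∈ Finset.range (e + 1), dl I i = e ^ 2 + 2 * e) →
      (∑ i ∈ Finset.range (e + 2), dl I i = e ^ 2 + 4 * e - 1) →
      (∃ L : (Fin 3 → ℂ) →ₗ[ℂ] Vec, Function.Injective L ∧ ∀ v, eval (L v) F = 0) ∨
      (∃ (L : (Fin 4 → ℂ) →ₗ[ℂ] Vec) (q : MvPolynomial (Fin 4) ℂ), Function.Injective L ∧
        q.IsHomogeneous 2 ∧ Irreducible q ∧ ∀ v, eval v q = 0 → eval (L v) F = 0) := by
    intro h1 h2 h3 h5 h6
    have hE := heq (hZcard.trans h2)
    refine quadCase e he F hF hr Z w hw l hl hlZ hrel hmin hb hZs (by rw [hone, h1]) ?_ ?_ ?_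
    · intro he3
      rw [← hE 2 (by omega)]
      simp only [Finset.sum_range_succ, Finset.sum_range_zero, d0, h1, h3 he3]
    · rw [← hE e (by omega), h5]
    · rw [← hE (e + 1) (by omega), h6]
  rcases he with rfl | rfl | rfl
  · have s3 := ann_symm (fnl Z w) 4 3 (by norm_num)
    have s4 := ann_symm (fnl Z w) 4 4 (by norm_num)
    norm_num at s3 s4
    have hI' : I = ann (fnl Z w) 4 := rfl
    rw [← hI'] at s3 s4
    rcases num2 (fnl Z w) htop hb h4 hsumle with h | h
    · rw [← hI'] at h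
      refine Or.inl (hplanar h.1 ?_)
      have : (2 + 3).choose 2 = 10 := by decide
      simp only [Finset.sum_range_succ, Finset.sum_range_zero, d0, h.1, h.2, s3]
      omega
    · rw [← hI'] at h
      refine hquad h.1 ?_ (by omega) ?_ ?_
      · simp only [Finset.sum_range_succ, Finset.sum_range_zero, d0, h.1, h.2, s3, s4]
        omega
      · simp only [Finset.sum_range_succ, Finset.sum_range_zero, d0, h.1, h.2, s3, s4]
        omega
      · simp only [Finset.sum_range_succ, Finset.sum_range_zero, d0, h.1, h.2, s3, s4]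
        omega
  · have s4 := ann_symm (fnl Z w) 6 4 (by norm_num)
    have s5 := ann_symm (fnl Z w) 6 5 (by norm_num)
    have s6 := ann_symm (fnl Z w) 6 6 (by norm_num)
    norm_num at s4 s5 s6
    have hI' : I = ann (fnl Z w) 6 := rfl
    rw [← hI'] at s4 s5 s6
    rcases num3 (fnl Z w) htop hb h4 hsumle with h | h
    · rw [← hI'] at h
      refine Or.inl (hplanar h.1 ?_)
      have : (3 + 3).choose 2 = 15 := by decide
      simp only [Finset.sum_range_succ, Finset.sum_range_zero, d0, h.1, h.2.1, h.2.2, s4]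
      omega
    · rw [← hI'] at h
      refine hquad h.1 ?_ (fun _ => h.2.1) ?_ ?_
      · simp only [Finset.sum_range_succ, Finset.sum_range_zero, d0, h.1, h.2.1, h.2.2, s4, s5, s6]
        omega
      · simp only [Finset.sum_range_succ, Finset.sum_range_zero, d0, h.1, h.2.1, h.2.2, s4, s5, s6]
        omega
      · simp only [Finset.sum_range_succ, Finset.sum_range_zero, d0, h.1, h.2.1, h.2.2, s4, s5, s6]
        omega
  · have s5 := ann_symm (fnl Z w) 8 5 (by norm_num)
    have s6 := ann_symm (fnl Z w) 8 6 (by norm_num)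
    have s7 := ann_symm (fnl Z w) 8 7 (by norm_num)
    have s8 := ann_symm (fnl Z w) 8 8 (by norm_num)
    norm_num at s5 s6 s7 s8
    have hI' : I = ann (fnl Z w) 8 := rfl
    rw [← hI'] at s5 s6 s7 s8
    rcases num4 (fnl Z w) htop hb h4 hsumle with h | h
    · rw [← hI'] at h
      refine Or.inl (hplanar h.1 ?_)
      have : (4 + 3).choose 2 = 21 := by decide
      simp only [Finset.sum_range_succ, Finset.sum_range_zero, d0, h.1, h.2.1, h.2.2.1, h.2.2.2,
        s5]
      omega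
    · rw [← hI'] at h
      refine hquad h.1 ?_ (fun _ => h.2.1) ?_ ?_
      · simp only [Finset.sum_range_succ, Finset.sum_range_zero, d0, h.1, h.2.1, h.2.2.1,
          h.2.2.2, s5, s6, s7, s8]
        omega
      · simp only [Finset.sum_range_succ, Finset.sum_range_zero, d0, h.1, h.2.1, h.2.2.1,
          h.2.2.2, s5, s6, s7, s8]
        omega
      · simp only [Finset.sum_range_succ, Finset.sum_range_zero, d0, h.1, h.2.1, h.2.2.1,
          h.2.2.2, s5, s6, s7, s8]
        omega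

end Pool.Agent.Lib.Pc2352a.Asm
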