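import Pool.Agent.Lib.Pc2352a.Part1

/-!
# Part 1: the number of nodes when there is a quadric surface, and the final form
-/

open MvPolynomial Module

namespace Pool.Agent.Lib.Pc2352a.Asm

theorem count_quadric (d : ℕ) (hd : 3 ≤ d) (F : Poly) (hF : F.IsHomogeneous d)
    (hr : ∀ v : Vec, v ≠ 0 → (∀ i, eval v (pderiv i F) = 0) → (hess F v).rank = 4)
    (T : Finset Vec)
    (hT : ∀ w : Vec, w ≠ 0 → (∀ i, eval w (pderiv i F) = 0) → ∃ c : ℂ, ∃ v ∈ T, w = c • v)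
    (L : (Fin 4 → ℂ) →ₗ[ℂ] Vec) (hL : Function.Injective L) (q : MvPolynomial (Fin 4) ℂ)
    (hq : q.IsHomogeneous 2) (hqi : Irreducible q)
    (hqF : ∀ v, eval v q = 0 → eval (L v) F = 0) : 2 * (d - 1) * (d - 2) ≤ T.card := by
  classical
  obtain ⟨A, B, hA, hB, hsing, hind⟩ := countA d hd F hF hr L hL q hq hqi hqF
  obtain ⟨M, hM⟩ := LinearMap.exists_leftInverse_of_injective L (LinearMap.ker_eq_bot.mpr hL)
  have hM' : ∀ y, M (L y) = y := fun y => LinearMap.congr_fun hM y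
  have hLy : ∀ y, y ≠ 0 → L y ≠ 0 := by
    intro y hy h
    exact hy (hL (by rw [h, map_zero]))
  have hex : ∀ y, y ≠ 0 → eval y q = 0 → eval y A = 0 → eval y B = 0 →
      ∃ c : ℂ, ∃ v ∈ T, L y = c • v := fun y hy h1 h2 h3 => hT (L y) (hLy y hy) (hsing y h1 h2 h3)
  obtain ⟨Z', k₀, hZ', hprop, hk₀⟩ := countB2 q A B (d - 1) (d - 2) (by omega) (by omega) hq hA hB
    (T.image M) (by
      intro y hy h1 h2 h3
      obtain ⟨c, v, hv, hcv⟩ := hex y hy h1 h2 h3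
      refine ⟨M v, Finset.mem_image_of_mem _ hv, c, ?_⟩
      rw [← map_smul, ← hcv, hM']) hind
  have h1 := countB1 q A B (d - 1) (d - 2) (k₀ + (d - 1) + (d - 2) + 2) (by omega) (by omega)
    (by omega) hq hqi hA hB
  have h2 := hk₀ (k₀ + (d - 1) + (d - 2) + 2) (by omega)
  have h3 : 2 * (d - 1) * (d - 2) ≤ Z'.card := by omega
  refine h3.trans ?_
  have hex' : ∀ y ∈ Z', ∃ v ∈ T, ∃ c : ℂ, L y = c • v := by
    intro y hy
    obtain ⟨h4, h5, h6, h7⟩ := hZ' y hy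
    obtain ⟨c, v, hv, hcv⟩ := hex y h4 h5 h6 h7
    exact ⟨v, hv, c, hcv⟩
  choose! φ hφ c hc using hex'
  refine Finset.card_le_card_of_injOn φ (fun y hy => hφ y hy) ?_
  intro y hy y' hy' hyy
  have h4 := hc y hy
  have h5 := hc y' hy'
  have h6 : c y' ≠ 0 := by
    intro h
    rw [h, zero_smul] at h5
    exact hLy y' (hZ' y' hy').1 h5
  refine hprop y hy y' hy' (c y / c y') (hL ?_)
  rw [map_smul, h5, h4, ← hyy, smul_smul, div_mul_cancel₀ _ h6]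

/-- The conclusion of the question for a form with dependent nodes. -/
theorem part1_final (d : ℕ) (F : Poly) (hd : d = 4 ∨ d = 5 ∨ d = 6) (hF : F.IsHomogeneous d)
    (hnod : ∀ p : Projectivization ℂ Vec, eval p.rep F = 0 →
      (∀ i : Fin 5, eval p.rep (pderiv i F) = 0) → (hess F p.rep).rank = 4)
    (hcard : (SingP F).encard ≤ ((2 * (d - 2) * (d - 1) : ℕ) : ℕ∞))
    (hrel : ∀ (l : Poly) (T : Finset Vec), l ∈ Fm 1 → (∀ v ∈ T, eval v l = 1) →
      (∀ v ∈ T, ∀ i, eval v (pderiv i F) = 0) →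
      (∀ w : Vec, w ≠ 0 → (∀ i, eval w (pderiv i F) = 0) → ∃ c : ℂ, ∃ v ∈ T, w = c • v) →
      ∃ w₀ : Vec → ℂ, (∃ v ∈ T, w₀ v ≠ 0) ∧ ∀ g ∈ Fm (2 * d - 5), fnl T w₀ g = 0) :
    ((∃ L : (Fin 3 → ℂ) →ₗ[ℂ] (Fin 5 → ℂ),
          Function.Injective L ∧ ∀ v, eval (L v) F = 0) ∨
        (∃ (L : (Fin 4 → ℂ) →ₗ[ℂ] (Fin 5 → ℂ)) (q : MvPolynomial (Fin 4) ℂ),
          Function.Injective L ∧ q.IsHomogeneous 2 ∧ Irreducible q ∧
          ∀ v, eval v q = 0 → eval (L v) F = 0)) ∧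
      ((∃ (L : (Fin 4 → ℂ) →ₗ[ℂ] (Fin 5 → ℂ)) (q : MvPolynomial (Fin 4) ℂ),
          Function.Injective L ∧ q.IsHomogeneous 2 ∧ Irreducible q ∧
          ∀ v, eval v q = 0 → eval (L v) F = 0) →
        (SingP F).encard = ((2 * (d - 2) * (d - 1) : ℕ) : ℕ∞)) := by
  have hfin : (SingP F).Finite := Set.finite_of_encard_le_coe hcard
  obtain ⟨l, T, hl, hl1, hTs, hT, hTc, _⟩ := exists_T d (by omega) F hF hfin
  have hr : ∀ v : Vec, v ≠ 0 → (∀ i, eval v (pderiv i F) = 0) → (hess F v).rank = 4 :=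
    fun v hv hs => hess_rank d (by omega) F hF hnod v hv hs
  have hTcard : T.card ≤ 2 * (d - 2) * (d - 1) := by
    rw [hTc] at hcard
    exact_mod_cast hcard
  obtain ⟨w₀, h0, hrel₀⟩ := hrel l T hl hl1 hTs hT
  constructor
  · have he : d - 2 = 2 ∨ d - 2 = 3 ∨ d - 2 = 4 := by omega
    have e1 : d - 2 + 2 = d := by omega
    have e2 : d - 2 + 1 = d - 1 := by omega
    have e3 : 2 * (d - 2) - 1 = 2 * d - 5 := by omega
    refine part1 (d - 2) he F (by rw [e1]; exact hF) hr l hl T hl1 hTs hT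
      (by rw [e2]; exact hTcard) w₀ h0 (by rw [e3]; exact hrel₀)
  · rintro ⟨L, q, hL, hq, hqi, hqF⟩
    have h1 := count_quadric d (by omega) F hF hr T hT L hL q hq hqi hqF
    have h2 : T.card = 2 * (d - 2) * (d - 1) := by
      have h3 : 2 * (d - 1) * (d - 2) = 2 * (d - 2) * (d - 1) := by ring
      omega
    rw [hTc, h2]

end Pool.Agent.Lib.Pc2352a.Asm
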