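import Pool.Agent.Lib.Pc2352a.Basic

/-!
# From a relation between points to a Gorenstein ideal

PROOF SKETCH (black boxes: Basic). Z finite, l = 1 on Z, w a relation in degree m, s = m+1.
l_mem: fnl (l h) = fnl h for every h since l = 1 on Z (fnl_apply). colon (van Z) l = van Z in every
degree, so dl_exact gives dl (van Z) (k+1) = dl (van Z) k + dl (addl (van Z) l) (k+1), and
(addl (van Z) l)_k ⊆ (ann (fnl Z w) (m+1))_k (van_le_ann, l_mem), so the increments are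
≥ dl (ann) (k+1); in degree 0: dl (van Z) 0 = 1 if Z is nonempty (if Z is empty all dl (ann) i = 0).
dl_van_le: the evaluation map Fm k → (Z → ℂ) has kernel (van Z)_k.
eq_all: the increments are ≥ dl (ann) i and their sum up to m+1 is ≤ Z.card.
dl_van_one: by minimality every u ∈ (ann)_1 is c l + (van Z)_1: (w v · u v) is again a relation.
So (ann)_1 = (van Z)_1 ⊕ ℂ l.
-/

open MvPolynomial Module

namespace Pool.Agent.Lib.Pc2352a

lemma fnl_apply (Z : Finset Vec) (w : Vec → ℂ) (g : Poly) :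
    fnl Z w g = ∑ v ∈ Z, w v * eval v g := by
  unfold fnl
  rw [LinearMap.sum_apply]
  refine Finset.sum_congr rfl fun v _ => ?_
  rw [LinearMap.smul_apply, smul_eq_mul, AlgHom.toLinearMap_apply, aeval_eq_eval]

lemma van_le_ann (Z : Finset Vec) (w : Vec → ℂ) (s k : ℕ) :
    (van Z).J k ≤ (ann (fnl Z w) s).J k := by
  intro g hg
  refine ⟨hg.1, fun _ h _ => ?_⟩
  rw [fnl_apply]
  refine Finset.sum_eq_zero fun v hv => ?_
  rw [map_mul, hg.2 v hv, zero_mul, mul_zero]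

namespace RelAux

lemma fnl_l_mul (Z : Finset Vec) (w : Vec → ℂ) (l : Poly) (hl1 : ∀ v ∈ Z, eval v l = 1)
    (h : Poly) : fnl Z w (l * h) = fnl Z w h := by
  rw [fnl_apply, fnl_apply]
  refine Finset.sum_congr rfl fun v hv => ?_
  rw [map_mul, hl1 v hv, one_mul]

lemma l_mul_mem (Z : Finset Vec) (w : Vec → ℂ) (l : Poly) (hl : l ∈ Fm 1)
    (hl1 : ∀ v ∈ Z, eval v l = 1) (m : ℕ) (hrel : ∀ g ∈ Fm m, fnl Z w g = 0) (k : ℕ) (g : Poly)
    (hg : g ∈ Fm k) : l * g ∈ (ann (fnl Z w) (m + 1)).J (k + 1) := by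
  refine ⟨mul_mem_Fm hl hg, fun hk h hh => ?_⟩
  rw [mul_assoc, fnl_l_mul Z w l hl1]
  apply hrel
  have h1 := (hg : g.IsHomogeneous k).mul (hh : h.IsHomogeneous (m + 1 - (k + 1)))
  have h2 : k + (m + 1 - (k + 1)) = m := by omega
  rw [h2] at h1
  exact h1

lemma dl_colon_van (Z : Finset Vec) (l : Poly) (hl : l ∈ Fm 1) (hl1 : ∀ v ∈ Z, eval v l = 1)
    (k : ℕ) : dl (colon (van Z) l hl) k = dl (van Z) k := by
  have h1 : (colon (van Z) l hl).J k = (van Z).J k := by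
    apply le_antisymm
    · intro g hg
      have hg1 := Submodule.mem_inf.mp hg
      refine ⟨hg1.1, fun v hv => ?_⟩
      have h2 : l * g ∈ (van Z).J (k + 1) := hg1.2
      have h3 := h2.2 v hv
      rwa [map_mul, hl1 v hv, one_mul] at h3
    · exact le_colon (van Z) l hl k
  unfold dl
  rw [h1]

lemma step (Z : Finset Vec) (w : Vec → ℂ) (l : Poly) (hl : l ∈ Fm 1)
    (hl1 : ∀ v ∈ Z, eval v l = 1) (m : ℕ) (hrel : ∀ g ∈ Fm m, fnl Z w g = 0) (k : ℕ) :
    dl (van Z) k + dl (ann (fnl Z w) (m + 1)) (k + 1) ≤ dl (van Z) (k + 1) := by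
  rcases Z.eq_empty_or_nonempty with rfl | ⟨v0, hv0⟩
  · have e1 : ∀ j, dl (van ∅) j = 0 := fun j => by
      rw [dl_eq_zero_iff]
      apply le_antisymm ((van ∅).le j)
      intro g hg
      exact ⟨hg, fun v hv => absurd hv (Finset.notMem_empty v)⟩
    have e2 : dl (ann (fnl ∅ w) (m + 1)) (k + 1) = 0 := by
      rw [dl_eq_zero_iff]
      apply le_antisymm ((ann (fnl ∅ w) (m + 1)).le (k + 1))
      intro g hg
      refine ⟨hg, fun _ h _ => ?_⟩
      rw [fnl_apply, Finset.sum_empty]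
    rw [e1, e1, e2]
  · have hl0 : l ≠ 0 := by
      intro h0
      have := hl1 v0 hv0
      rw [h0, map_zero] at this
      exact zero_ne_one this
    rw [dl_exact (van Z) l hl hl0 k, dl_colon_van Z l hl hl1 k]
    apply Nat.add_le_add_left
    apply dl_mono
    show (van Z).J (k + 1) ⊔ (Fm k).map (LinearMap.mulLeft ℂ l) ≤ _
    refine sup_le (van_le_ann Z w _ _) ?_
    rintro _ ⟨g, hg, rfl⟩
    exact l_mul_mem Z w l hl hl1 m hrel k g hg

lemma steps (Z : Finset Vec) (w : Vec → ℂ) (l : Poly) (hl : l ∈ Fm 1)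
    (hl1 : ∀ v ∈ Z, eval v l = 1) (m : ℕ) (hrel : ∀ g ∈ Fm m, fnl Z w g = 0) (k j : ℕ) :
    dl (van Z) k + ∑ i ∈ Finset.range j, dl (ann (fnl Z w) (m + 1)) (k + 1 + i) ≤
      dl (van Z) (k + j) := by
  induction j with
  | zero => simp
  | succ j ih =>
    rw [Finset.sum_range_succ]
    have h1 := step Z w l hl hl1 m hrel (k + j)
    rw [show k + 1 + j = k + j + 1 by omega, show k + (j + 1) = k + j + 1 by omega]
    omega

end RelAux

lemma l_mem (Z : Finset Vec) (w : Vec → ℂ) (l : Poly) (hl : l ∈ Fm 1) (hl1 : ∀ v ∈ Z, eval v l = 1)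
    (m : ℕ) (hrel : ∀ g ∈ Fm m, fnl Z w g = 0) : l ∈ (ann (fnl Z w) (m + 1)).J 1 := by
  refine ⟨hl, fun _ h hh => ?_⟩
  rw [RelAux.fnl_l_mul Z w l hl1]
  exact hrel h hh

lemma dl_van_le (Z : Finset Vec) (k : ℕ) : dl (van Z) k ≤ Z.card := by
  let E : Fm k →ₗ[ℂ] (Z → ℂ) :=
    LinearMap.pi fun v => (aeval (v : Vec) : Poly →ₐ[ℂ] ℂ).toLinearMap ∘ₗ (Fm k).subtype
  have hE : ∀ (g : Fm k) (v : Z), E g v = eval (v : Vec) (g : Poly) := fun g v => by
    show aeval (v : Vec) (g : Poly) = _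
    rw [aeval_eq_eval]
  have h1 := LinearMap.finrank_range_add_finrank_ker E
  have h2 : finrank ℂ (LinearMap.range E) ≤ Z.card := by
    refine (Submodule.finrank_le _).trans ?_
    rw [Module.finrank_pi]
    simp
  have h3 : (LinearMap.ker E).map (Fm k).subtype = (van Z).J k := by
    apply le_antisymm
    · rintro _ ⟨g, hg, rfl⟩
      refine ⟨g.2, fun v hv => ?_⟩
      have h4 : E g = 0 := hg
      have h5 := hE g ⟨v, hv⟩
      rw [h4] at h5
      exact h5.symm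
    · intro g hg
      refine ⟨⟨g, hg.1⟩, ?_, rfl⟩
      show E ⟨g, hg.1⟩ = 0
      ext v
      rw [hE]
      exact hg.2 v v.2
  have h4 : finrank ℂ ((van Z).J k) = finrank ℂ (LinearMap.ker E) := by
    rw [← h3]
    exact Submodule.finrank_map_subtype_eq _ _
  unfold dl
  rw [h4]
  omega

theorem sum_le (Z : Finset Vec) (w : Vec → ℂ) (l : Poly) (hl : l ∈ Fm 1)
    (hl1 : ∀ v ∈ Z, eval v l = 1) (m : ℕ) (hrel : ∀ g ∈ Fm m, fnl Z w g = 0) (k : ℕ) :
    ∑ i ∈ Finset.range (k + 1), dl (ann (fnl Z w) (m + 1)) i ≤ dl (van Z) k := by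
  induction k with
  | zero =>
    rw [Finset.sum_range_one]
    exact dl_mono 0 (van_le_ann Z w _ _)
  | succ k ih =>
    rw [Finset.sum_range_succ]
    have := RelAux.step Z w l hl hl1 m hrel k
    omega

theorem eq_all (Z : Finset Vec) (w : Vec → ℂ) (l : Poly) (hl : l ∈ Fm 1)
    (hl1 : ∀ v ∈ Z, eval v l = 1) (m : ℕ) (hrel : ∀ g ∈ Fm m, fnl Z w g = 0)
    (hZ : Z.card ≤ ∑ i ∈ Finset.range (m + 2), dl (ann (fnl Z w) (m + 1)) i) (k : ℕ)
    (hk : k ≤ m + 1) :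
    ∑ i ∈ Finset.range (k + 1), dl (ann (fnl Z w) (m + 1)) i = dl (van Z) k := by
  apply le_antisymm (sum_le Z w l hl hl1 m hrel k)
  have h1 := RelAux.steps Z w l hl hl1 m hrel k (m + 1 - k)
  have h2 : k + (m + 1 - k) = m + 1 := by omega
  rw [h2] at h1
  have h3 := dl_van_le Z (m + 1)
  have h4 : m + 2 = (k + 1) + (m + 1 - k) := by omega
  rw [h4, Finset.sum_range_add] at hZ
  omega

theorem dl_van_one (Z : Finset Vec) (hZ : Z.Nonempty) (w : Vec → ℂ) (hw : ∀ v ∈ Z, w v ≠ 0)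
    (l : Poly) (hl : l ∈ Fm 1) (hl1 : ∀ v ∈ Z, eval v l = 1) (m : ℕ)
    (hrel : ∀ g ∈ Fm m, fnl Z w g = 0)
    (hmin : ∀ w' : Vec → ℂ, (∀ g ∈ Fm m, fnl Z w' g = 0) → ∃ c : ℂ, ∀ v ∈ Z, w' v = c * w v) :
    dl (van Z) 1 = dl (ann (fnl Z w) (m + 1)) 1 + 1 := by
  obtain ⟨v0, hv0⟩ := hZ
  have hle := (van Z).le 1
  haveI : FiniteDimensional ℂ ((van Z).J 1) := Submodule.finiteDimensional_of_le hle
  have hl0 : l ≠ 0 := by
    intro h0
    have := hl1 v0 hv0
    rw [h0, map_zero] at this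
    exact zero_ne_one this
  have hsup : (ann (fnl Z w) (m + 1)).J 1 = (van Z).J 1 ⊔ Submodule.span ℂ {l} := by
    apply le_antisymm
    · intro u hu
      have h1 : ∀ h ∈ Fm m, fnl Z w (u * h) = 0 := fun h hh => hu.2 (by omega) h hh
      obtain ⟨c, hc⟩ := hmin (fun v => w v * eval v u) (fun h hh => by
        have h2 := h1 h hh
        rw [fnl_apply] at h2 ⊢
        rw [← h2]
        refine Finset.sum_congr rfl fun v _ => ?_
        rw [map_mul, mul_assoc])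
      have h2 : ∀ v ∈ Z, eval v u = c := fun v hv => by
        have := hc v hv
        rw [mul_comm c] at this
        exact mul_left_cancel₀ (hw v hv) this
      have h3 : u = (u - c • l) + c • l := by ring
      rw [h3]
      refine Submodule.add_mem_sup ?_ (Submodule.smul_mem _ _ (Submodule.mem_span_singleton_self l))
      refine ⟨Submodule.sub_mem _ hu.1 (Submodule.smul_mem _ c hl), fun v hv => ?_⟩
      rw [map_sub, smul_eval, hl1 v hv, h2 v hv, mul_one, sub_self]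
    · refine sup_le (van_le_ann Z w _ _) ?_
      rw [Submodule.span_singleton_le_iff_mem]
      exact l_mem Z w l hl hl1 m hrel
  have hdisj : (van Z).J 1 ⊓ Submodule.span ℂ {l} = ⊥ := by
    rw [eq_bot_iff]
    intro u hu
    obtain ⟨hu1, hu2⟩ := Submodule.mem_inf.mp hu
    obtain ⟨c, rfl⟩ := Submodule.mem_span_singleton.mp hu2
    have h1 := hu1.2 v0 hv0
    rw [smul_eval, hl1 v0 hv0, mul_one] at h1
    rw [h1, zero_smul]
    exact Submodule.zero_mem _
  have hfin := Submodule.finrank_sup_add_finrank_inf_eq ((van Z).J 1) (Submodule.span ℂ {l})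
  rw [hdisj, finrank_bot, add_zero, finrank_span_singleton hl0, ← hsup] at hfin
  have h1 := dl_add (van Z) 1
  have h2 := dl_add (ann (fnl Z w) (m + 1)) 1
  omega

theorem exists_min (T : Finset Vec) (m : ℕ) (w₀ : Vec → ℂ) (h0 : ∃ v ∈ T, w₀ v ≠ 0)
    (hrel : ∀ g ∈ Fm m, fnl T w₀ g = 0) :
    ∃ (Z : Finset Vec) (w : Vec → ℂ), Z ⊆ T ∧ Z.Nonempty ∧ (∀ v ∈ Z, w v ≠ 0) ∧
      (∀ g ∈ Fm m, fnl Z w g = 0) ∧
      ∀ w' : Vec → ℂ, (∀ g ∈ Fm m, fnl Z w' g = 0) → ∃ c : ℂ, ∀ v ∈ Z, w' v = c * w v := by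
  classical
  let S : Finset (Finset Vec) := T.powerset.filter fun Z =>
    ∃ w : Vec → ℂ, (∃ v ∈ Z, w v ≠ 0) ∧ ∀ g ∈ Fm m, fnl Z w g = 0
  have hS : S.Nonempty := ⟨T, by
    simp only [S, Finset.mem_filter, Finset.mem_powerset]
    exact ⟨Finset.Subset.refl T, w₀, h0, hrel⟩⟩
  obtain ⟨Z, hZS, hZmin⟩ := Finset.exists_min_image S Finset.card hS
  simp only [S, Finset.mem_filter, Finset.mem_powerset] at hZS hZmin
  obtain ⟨hZT, w, ⟨v1, hv1, hw1⟩, hwrel⟩ := hZS
  -- a relation on a proper subset is trivial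
  have hsub : ∀ (Z' : Finset Vec) (w' : Vec → ℂ), Z' ⊂ Z → (∀ g ∈ Fm m, fnl Z' w' g = 0) →
      ∀ v ∈ Z', w' v = 0 := by
    intro Z' w' hZ' hr v hv
    by_contra hne
    have := hZmin Z' ⟨hZ'.subset.trans hZT, w', ⟨v, hv, hne⟩, hr⟩
    exact absurd this (not_le.2 (Finset.card_lt_card hZ'))
  -- a relation vanishing somewhere vanishes everywhere
  have hzero : ∀ w' : Vec → ℂ, (∀ g ∈ Fm m, fnl Z w' g = 0) → ∀ v ∈ Z, w' v = 0 →
      ∀ u ∈ Z, w' u = 0 := by
    intro w' hr v hv hv0 u hu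
    by_cases huv : u = v
    · rw [huv]; exact hv0
    · refine hsub (Z.erase v) w' (Finset.erase_ssubset hv) (fun g hg => ?_) u
        (Finset.mem_erase.2 ⟨huv, hu⟩)
      have h1 := hr g hg
      rw [fnl_apply] at h1 ⊢
      rw [← Finset.add_sum_erase Z _ hv, hv0, zero_mul, zero_add] at h1
      exact h1
  refine ⟨Z, w, hZT, ⟨v1, hv1⟩, fun v hv h => hw1 (hzero w hwrel v hv h v1 hv1), hwrel, ?_⟩
  intro w' hr
  refine ⟨w' v1 / w v1, fun v hv => ?_⟩
  have h1 := hzero (fun u => w' u - w' v1 / w v1 * w u) (fun g hg => by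
    have h2 := hr g hg
    have h3 := hwrel g hg
    rw [fnl_apply] at h2 h3 ⊢
    have h4 : ∑ v ∈ Z, (w' v - w' v1 / w v1 * w v) * eval v g =
        ∑ v ∈ Z, w' v * eval v g - w' v1 / w v1 * ∑ v ∈ Z, w v * eval v g := by
      rw [Finset.mul_sum, ← Finset.sum_sub_distrib]
      refine Finset.sum_congr rfl fun v _ => ?_
      ring
    rw [h4, h2, h3, mul_zero, sub_zero]) v1 hv1 (by field_simp; ring) v hv
  exact sub_eq_zero.1 h1

end Pool.Agent.Lib.Pc2352a
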