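import Pool.Agent.Lib.Pc2352a.Ternary
import Pool.Agent.Lib.Pc2352a.Rel

/-!
# The planar case
-/

open MvPolynomial Module

namespace Pool.Agent.Lib.Pc2352a.Asm

/-- Linear forms and coefficient vectors. -/
noncomputable def lin (c : Vec) : Poly := ∑ i, C (c i) * X i

lemma lin_mem (c : Vec) : lin c ∈ Fm 1 := by
  refine Submodule.sum_mem _ fun i _ => ?_
  have h1 : (C (c i) : Poly).IsHomogeneous 0 := isHomogeneous_C _ _
  have h2 : (X i : Poly).IsHomogeneous 1 := isHomogeneous_X _ _
  have := h1.mul h2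
  rwa [zero_add] at this

lemma eval_lin (c v : Vec) : eval v (lin c) = ∑ i, c i * v i := by
  simp [lin]

lemma exists_lin {g : Poly} (hg : g ∈ Fm 1) : ∃ c : Vec, g = lin c := by
  have h1 : (Fm 1 : Submodule ℂ Poly) = Submodule.span ℂ (Set.range X) :=
    homogeneousSubmodule_one_eq_span_X
  rw [h1] at hg
  obtain ⟨c, hc⟩ := (Submodule.mem_span_range_iff_exists_fun ℂ).mp hg
  refine ⟨c, ?_⟩
  rw [← hc, lin]
  refine Finset.sum_congr rfl fun i _ => ?_
  rw [smul_eq_C_mul]

lemma lin_injective : Function.Injective lin := by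
  intro c c' h
  funext i
  have h1 := congrArg (eval (Pi.single i 1)) h
  rw [eval_lin, eval_lin] at h1
  simpa [Pi.single_apply] using h1

/-- `lin` as a linear map. -/
noncomputable def linL : Vec →ₗ[ℂ] Poly where
  toFun := lin
  map_add' a b := by simp [lin, add_mul, Finset.sum_add_distrib]
  map_smul' r a := by simp [lin, Finset.smul_sum, smul_eq_C_mul, mul_assoc]

lemma finrank_linFm : finrank ℂ (Fm 1) = 5 := by
  have h1 : (Fm 1 : Submodule ℂ Poly) = LinearMap.range linL := by
    ext g
    constructor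
    · intro hg
      obtain ⟨c, hc⟩ := exists_lin hg
      exact ⟨c, hc.symm⟩
    · rintro ⟨c, rfl⟩
      exact lin_mem c
  rw [h1, LinearMap.finrank_range_of_inj (f := linL) lin_injective]
  simp

lemma dl_van_span (Z : Finset Vec) : dl (van Z) 1 = finrank ℂ (Submodule.span ℂ (Z : Set Vec)) := by
  have h1 : finrank ℂ ((van Z).J 1) + finrank ℂ (Submodule.span ℂ (Z : Set Vec)) = 5 := by
    set S := Submodule.span ℂ (Z : Set Vec) with hS
    have h2 : (van Z).J 1 =
        (S.dualAnnihilator.comap (dotProductEquiv ℂ (Fin 5)).toLinearMap).map linL := by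
      ext g
      constructor
      · rintro ⟨hg, hv⟩
        obtain ⟨c, rfl⟩ := exists_lin hg
        refine ⟨c, ?_, rfl⟩
        refine Submodule.mem_comap.mpr ((Submodule.mem_dualAnnihilator _).mpr ?_)
        intro w hw
        induction hw using Submodule.span_induction with
        | mem x hx =>
          have := hv x hx
          rw [eval_lin] at this
          simpa [dotProduct] using this
        | zero => simp
        | add x y _ _ hx hy => rw [map_add, hx, hy, add_zero]
        | smul a x _ hx => rw [map_smul, hx, smul_zero]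
      · rintro ⟨c, hc, rfl⟩
        refine ⟨lin_mem c, fun v hv => ?_⟩
        have := (Submodule.mem_dualAnnihilator _).mp (Submodule.mem_comap.mp hc) v
          (Submodule.subset_span hv)
        show eval v (lin c) = 0
        rw [eval_lin]
        simpa [dotProduct] using this
    have h3 : finrank ℂ ((S.dualAnnihilator.comap (dotProductEquiv ℂ (Fin 5)).toLinearMap).map
        linL) = finrank ℂ (S.dualAnnihilator.comap (dotProductEquiv ℂ (Fin 5)).toLinearMap) :=
      (Submodule.equivMapOfInjective linL lin_injective _).finrank_eq.symm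
    have h4 : finrank ℂ (S.dualAnnihilator.comap (dotProductEquiv ℂ (Fin 5)).toLinearMap) =
        finrank ℂ S.dualAnnihilator := by
      have h6 := LinearEquiv.finrank_map_eq (dotProductEquiv ℂ (Fin 5))
        (S.dualAnnihilator.comap (dotProductEquiv ℂ (Fin 5)).toLinearMap)
      rw [← h6]
      have h7 : Submodule.map (dotProductEquiv ℂ (Fin 5)).toLinearMap
          (S.dualAnnihilator.comap (dotProductEquiv ℂ (Fin 5)).toLinearMap) = S.dualAnnihilator :=
        Submodule.map_comap_eq_of_surjective (dotProductEquiv ℂ (Fin 5)).surjective _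
      exact congrArg (fun (W : Submodule ℂ (Dual ℂ Vec)) => finrank ℂ W) h7
    have h5 := Subspace.finrank_add_finrank_dualAnnihilator_eq S
    rw [h2, h3, h4]
    simp only [finrank_fin_fun] at h5
    omega
  have h2 := dl_add (van Z) 1
  rw [finrank_linFm] at h2
  omega

/-- A finite set spans a parametrised subspace. -/
lemma exists_param (Z : Finset Vec) (n : ℕ) (h : dl (van Z) 1 = n) :
    ∃ (L : (Fin n → ℂ) →ₗ[ℂ] Vec) (M : Vec →ₗ[ℂ] (Fin n → ℂ)), Function.Injective L ∧
      (∀ y, M (L y) = y) ∧ ∀ v ∈ Z, L (M v) = v := by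
  rw [dl_van_span] at h
  set S := Submodule.span ℂ (Z : Set Vec) with hS
  let e : (Fin n → ℂ) ≃ₗ[ℂ] S := LinearEquiv.ofFinrankEq _ _ (by simp [h])
  let L : (Fin n → ℂ) →ₗ[ℂ] Vec := S.subtype.comp e.toLinearMap
  have hL : Function.Injective L := fun a b hab => e.injective (Subtype.ext hab)
  obtain ⟨M, hM⟩ := LinearMap.exists_leftInverse_of_injective L (LinearMap.ker_eq_bot.mpr hL)
  have hM' : ∀ y, M (L y) = y := fun y => LinearMap.congr_fun hM y
  refine ⟨L, M, hL, hM', fun v hv => ?_⟩
  have h1 : L (e.symm ⟨v, Submodule.subset_span hv⟩) = v := by simp [L]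
  rw [← h1, hM']

theorem planar (d : ℕ) (hd : 3 ≤ d) (F : Poly) (hF : F.IsHomogeneous d) (T : Finset Vec)
    (hT : ∀ w : Vec, w ≠ 0 → (∀ i, eval w (pderiv i F) = 0) → ∃ c : ℂ, ∃ v ∈ T, w = c • v)
    (Z : Finset Vec) (hZ : ∀ v ∈ Z, ∀ i, eval v (pderiv i F) = 0)
    (h1 : dl (van Z) 1 = 3) (h2 : (d + 1).choose 2 ≤ dl (van Z) (d - 1) + 2) :
    ∃ L : (Fin 3 → ℂ) →ₗ[ℂ] Vec, Function.Injective L ∧ ∀ v, eval (L v) F = 0 := by
  classical
  obtain ⟨L, M, hL, hM, hLM⟩ := exists_param Z 3 h1
  have hZim : ∀ v, v ∈ Z ↔ ∃ y ∈ Z.image M, L y = v := by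
    intro v
    constructor
    · intro hv
      exact ⟨M v, Finset.mem_image_of_mem _ hv, hLM v hv⟩
    · rintro ⟨y, hy, rfl⟩
      obtain ⟨v, hv, rfl⟩ := Finset.mem_image.mp hy
      rwa [hLM v hv]
  have hpull : ∀ i, pull L (pderiv i F) ∈ vanN (Z.image M) (d - 1) := by
    intro i
    refine ⟨pull_mem L (hF.pderiv), ?_⟩
    intro y hy
    obtain ⟨v, hv, rfl⟩ := Finset.mem_image.mp hy
    rw [eval_pull, hLM v hv]
    exact hZ v hv i
  refine ⟨L, hL, ?_⟩
  have hzero : pull L F = 0 := by
    refine ternary d (by omega) (pull L F) (pull_mem L hF) (Z.image M)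
      (vanN (Z.image M) (d - 1)) (fun g hg => hg.1) ?_ ?_ (T.image M) ?_ ?_ ?_
    · have h3 := pull_dim L hL (Z.image M) Z hZim (d - 1)
      rw [card_forms3] at h3
      have h4 : d - 1 + 2 = d + 1 := by omega
      rw [h4] at h3
      omega
    · intro j
      rw [pderiv_pull]
      refine Submodule.sum_mem _ fun i _ => ?_
      rw [← smul_eq_C_mul]
      exact Submodule.smul_mem _ _ (hpull i)
    · intro w hw hg
      have h3 : ∀ i, eval (L w) (pderiv i F) = 0 := by
        intro i
        rw [← eval_pull]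
        exact hg _ (hpull i)
      have h4 : L w ≠ 0 := by
        intro h
        apply hw
        apply hL
        rw [h, map_zero]
      obtain ⟨c, v, hv, hcv⟩ := hT (L w) h4 h3
      refine ⟨M v, Finset.mem_image_of_mem _ hv, c, ?_⟩
      rw [← map_smul, ← hcv, hM]
    · intro z hz g hg
      exact hg.2 z hz
    · intro u hu huz
      have h3 := pull_dim L hL (Z.image M) Z hZim 1
      rw [card_forms3, h1] at h3
      have h4 : finrank ℂ (vanN (Z.image M) 1) = 0 := by
        have : (1 + 2).choose 2 = 3 := by decide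
        omega
      have h5 : FiniteDimensional ℂ (vanN (Z.image M) 1) :=
        Submodule.finiteDimensional_of_le (fun g hg => hg.1 : vanN (Z.image M) 1 ≤ Fn 3 1)
      have h6 : vanN (Z.image M) 1 = ⊥ := Submodule.finrank_eq_zero.mp h4
      have h7 : u ∈ vanN (Z.image M) 1 := ⟨hu, huz⟩
      rw [h6] at h7
      exact (Submodule.mem_bot ℂ).mp h7
  intro v
  rw [← eval_pull, hzero, map_zero]

end Pool.Agent.Lib.Pc2352a.Asm
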