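import Pool.Agent.Lib.Pc2352a.Basic

/-!
# Normalised singular points

PROOF SKETCH. S = set of singular points (finite). Choose a linear form l not vanishing at the
finitely many nonzero vectors p.rep, p ∈ S (ℂ infinite: a vector space is not a finite union of
proper subspaces; e.g. Module.Dual.exists_forall_mem_ne_zero_of_forall_exists or a one parameter
family l = ∑ t^i X i and a polynomial with finitely many roots). T = image of S under
p ↦ (l(p.rep))⁻¹ • p.rep, injective. If w ≠ 0 has all partial derivatives zero then F(w) = 0 by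
Euler's identity (∑ X i * pderiv i F = d F, MvPolynomial.IsHomogeneous.sum_X_mul_pderiv or
similar, d ≥ 1) and p = mk w is in S (partial derivatives are homogeneous), w = c • v.
hess_rank: the entries of the Hessian are homogeneous of degree d - 2, so the matrix at c • w is
c^(d-2) times the matrix at w.
-/

open MvPolynomial Module

namespace Pool.Agent.Lib.Pc2352a

/-- The singular points of `F = 0` as in the frozen statement. -/
def SingP (F : Poly) : Set (Projectivization ℂ Vec) :=
  {p | eval p.rep F = 0 ∧ ∀ i : Fin 5, eval p.rep (pderiv i F) = 0}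

/-- The Hessian matrix. -/
noncomputable def hess (F : Poly) (v : Vec) : Matrix (Fin 5) (Fin 5) ℂ :=
  Matrix.of (fun i j : Fin 5 => eval v (pderiv i (pderiv j F)))

namespace PointsAux

lemma eval_smul_of_homog {n : ℕ} {G : Poly} (hG : G.IsHomogeneous n) (c : ℂ) (v : Vec) :
    eval (c • v) G = c ^ n * eval v G := by
  rw [eval_eq', eval_eq', Finset.mul_sum]
  refine Finset.sum_congr rfl fun m hm => ?_
  have h1 : ∑ i, m i = n := by
    rw [← Finsupp.degree_eq_sum, Finsupp.degree_eq_weight_one]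
    exact hG (mem_support_iff.1 hm)
  have h2 : ∏ i, (c • v) i ^ m i = c ^ n * ∏ i, v i ^ m i := by
    simp only [Pi.smul_apply, smul_eq_mul, mul_pow]
    rw [Finset.prod_mul_distrib, Finset.prod_pow_eq_pow_sum, h1]
  rw [h2]; ring

lemma pderiv_smul {d : ℕ} {F : Poly} (hF : F.IsHomogeneous d) {c : ℂ} {v : Vec}
    (h : ∀ i, eval v (pderiv i F) = 0) (i : Fin 5) : eval (c • v) (pderiv i F) = 0 := by
  rw [eval_smul_of_homog (hF.pderiv (i := i)), h i, mul_zero]

lemma euler_zero {d : ℕ} (hd : 1 ≤ d) {F : Poly} (hF : F.IsHomogeneous d) {v : Vec}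
    (h : ∀ i, eval v (pderiv i F) = 0) : eval v F = 0 := by
  have h1 := congrArg (eval v) hF.sum_X_mul_pderiv
  rw [map_sum, nsmul_eq_mul, map_mul, map_natCast] at h1
  have h2 : ∑ i, eval v (X i * pderiv i F) = 0 := by
    refine Finset.sum_eq_zero fun i _ => ?_
    rw [map_mul, h i, mul_zero]
  rw [h2] at h1
  have h3 : (d : ℂ) ≠ 0 := by
    have : d ≠ 0 := by omega
    exact_mod_cast this
  exact (mul_eq_zero.1 h1.symm).resolve_left h3

end PointsAux

open PointsAux in
theorem exists_T (d : ℕ) (hd : 2 ≤ d) (F : Poly) (hF : F.IsHomogeneous d)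
    (hfin : (SingP F).Finite) :
    ∃ (l : Poly) (T : Finset Vec), l ∈ Fm 1 ∧ (∀ v ∈ T, eval v l = 1) ∧
      (∀ v ∈ T, ∀ i, eval v (pderiv i F) = 0) ∧
      (∀ w : Vec, w ≠ 0 → (∀ i, eval w (pderiv i F) = 0) → ∃ c : ℂ, ∃ v ∈ T, w = c • v) ∧
      (SingP F).encard = T.card ∧
      ∀ v ∈ T, ∃ p ∈ SingP F, ∃ c : ℂ, c ≠ 0 ∧ v = c • p.rep := by
  classical
  have hfin' : Finite (SingP F) := hfin
  obtain ⟨f, hf⟩ := Module.exists_dual_forall_apply_ne_zero (K := ℂ) (M := Vec)
    (fun p : SingP F => (p : Projectivization ℂ Vec).rep) (fun p => p.1.rep_nonzero)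
  let l : Poly := ∑ i, C (f (Pi.single i 1)) * X i
  have hl : l ∈ Fm 1 := by
    refine Submodule.sum_mem _ fun i _ => ?_
    exact isHomogeneous_C_mul_X _ _
  have hlf : ∀ v : Vec, eval v l = f v := by
    intro v
    have h1 : v = ∑ i, v i • (Pi.single i 1 : Vec) := by
      ext j
      simp [Finset.sum_apply, Pi.single_apply]
    conv_rhs => rw [h1]
    rw [map_sum, map_sum]
    refine Finset.sum_congr rfl fun i _ => ?_
    rw [map_mul, eval_C, eval_X, map_smul, smul_eq_mul, mul_comm]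
  have hlne : ∀ p ∈ SingP F, eval p.rep l ≠ 0 := fun p hp => by
    rw [hlf]; exact hf ⟨p, hp⟩
  have hlsmul : ∀ (c : ℂ) (v : Vec), eval (c • v) l = c * eval v l := fun c v => by
    rw [eval_smul_of_homog hl, pow_one]
  let g : Projectivization ℂ Vec → Vec := fun p => (eval p.rep l)⁻¹ • p.rep
  refine ⟨l, hfin.toFinset.image g, hl, ?_, ?_, ?_, ?_, ?_⟩
  · intro v hv
    obtain ⟨p, hp, rfl⟩ := Finset.mem_image.1 hv
    rw [Set.Finite.mem_toFinset] at hp
    show eval ((eval p.rep l)⁻¹ • p.rep) l = 1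
    rw [hlsmul, inv_mul_cancel₀ (hlne p hp)]
  · intro v hv i
    obtain ⟨p, hp, rfl⟩ := Finset.mem_image.1 hv
    rw [Set.Finite.mem_toFinset] at hp
    exact pderiv_smul hF hp.2 i
  · intro w hw hwF
    obtain ⟨a, ha⟩ := Projectivization.exists_smul_eq_mk_rep ℂ w hw
    set p := Projectivization.mk ℂ w hw with hp
    have ha' : (a : ℂ) • w = p.rep := ha
    have hpS : p ∈ SingP F := by
      have h1 : ∀ i, eval p.rep (pderiv i F) = 0 := fun i => by
        rw [← ha']; exact pderiv_smul hF hwF i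
      exact ⟨euler_zero (by omega) hF h1, h1⟩
    refine ⟨(a : ℂ)⁻¹ * eval p.rep l, g p, Finset.mem_image.2 ⟨p, by simpa using hpS, rfl⟩, ?_⟩
    show w = ((a : ℂ)⁻¹ * eval p.rep l) • ((eval p.rep l)⁻¹ • p.rep)
    rw [smul_smul, mul_assoc, mul_inv_cancel₀ (hlne p hpS), mul_one, ← ha', smul_smul,
      inv_mul_cancel₀ a.ne_zero, one_smul]
  · rw [hfin.encard_eq_coe_toFinset_card, Finset.card_image_of_injOn]
    intro p hp q hq hpq
    have hp' : p ∈ SingP F := by simpa using hp
    have hq' : q ∈ SingP F := by simpa using hq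
    have h1 : (eval p.rep l)⁻¹ • p.rep = (eval q.rep l)⁻¹ • q.rep := hpq
    have h2 : (eval p.rep l * (eval q.rep l)⁻¹) • q.rep = p.rep := by
      rw [← smul_smul, ← h1, smul_smul, mul_inv_cancel₀ (hlne p hp'), one_smul]
    rw [← Projectivization.mk_rep p, ← Projectivization.mk_rep q,
      Projectivization.mk_eq_mk_iff']
    exact ⟨_, h2⟩
  · intro v hv
    obtain ⟨p, hp, rfl⟩ := Finset.mem_image.1 hv
    rw [Set.Finite.mem_toFinset] at hp
    exact ⟨p, hp, (eval p.rep l)⁻¹, inv_ne_zero (hlne p hp), rfl⟩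

open PointsAux in
theorem hess_rank (d : ℕ) (hd : 2 ≤ d) (F : Poly) (hF : F.IsHomogeneous d)
    (hnod : ∀ p : Projectivization ℂ Vec, eval p.rep F = 0 →
      (∀ i : Fin 5, eval p.rep (pderiv i F) = 0) → (hess F p.rep).rank = 4)
    (v : Vec) (hv : v ≠ 0) (hs : ∀ i, eval v (pderiv i F) = 0) : (hess F v).rank = 4 := by
  obtain ⟨a, ha⟩ := Projectivization.exists_smul_eq_mk_rep ℂ v hv
  set p := Projectivization.mk ℂ v hv with hp
  have ha' : (a : ℂ) • v = p.rep := ha
  have h1 : ∀ i, eval p.rep (pderiv i F) = 0 := fun i => by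
    rw [← ha']; exact pderiv_smul hF hs i
  have h2 := hnod p (euler_zero (by omega) hF h1) h1
  have h3 : hess F p.rep = ((a : ℂ) ^ (d - 1 - 1)) • hess F v := by
    ext i j
    show eval p.rep (pderiv i (pderiv j F)) = (a : ℂ) ^ (d - 1 - 1) *
      eval v (pderiv i (pderiv j F))
    rw [← ha', eval_smul_of_homog ((hF.pderiv (i := j)).pderiv (i := i))]
  rw [h3, Matrix.rank_smul_of_mem_nonZeroDivisors] at h2
  · exact h2
  · exact mem_nonZeroDivisors_of_ne_zero (pow_ne_zero _ a.ne_zero)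

end Pool.Agent.Lib.Pc2352a
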