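import Pool.Agent.Lib.Pc2352a.Pull

/-!
# The quadric case in four variables

PROOF SKETCH. V k = vanN Z k. Take 0 ≠ q ∈ V 2. q * Fn 4 (e-2) ⊆ V e has dimension (e+1).choose 3
(multiplication by q is injective, card_forms4), so there is g ∈ V e not in it, and g is not
divisible by q (a quotient would be a form of degree e-2). Claim: q A = g l with A ∈ Fn 4 (e-1),
l ∈ Fn 4 1 implies l = 0. Otherwise: if q is irreducible it divides l (degree) or g, impossible. If
q = m u, m and u linear forms ≠ 0 (factors of a form are forms): m u A = g l. If m ∣ g, g = m g',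
g' ∈ Fn 4 (e-1), u does not divide g' (otherwise q ∣ g): m u and m g' vanish on Z, contradicting hR.
If m ∤ g then m ∣ l, l = c m, so u A = c g, u ∣ g: same with m and u exchanged.
Hence q Fn 4 (e-1) + g Fn 4 1 ⊆ V (e+1) has dimension (e+2).choose 3 + 4, and
V (e+1) = q Fn 4 (e-1) + g Fn 4 1 + ℂ g₂. All pderiv i f are in V (e+1); Euler:
(e+2) f = ∑ X i * pderiv i f, so f = q A + g u + g₂ v with A ∈ Fn 4 e, u ∈ Fn 4 2, v ∈ Fn 4 1.
Gradient at z ∈ Z: 0 = A(z) ∇q + u(z) ∇g + v(z) ∇g₂, and the gradient at z of every element of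
V (e+1) is a combination of ∇q(z), ∇g(z), ∇g₂(z); by hg these three are independent. So A, u, v vanish
on Z: v = 0 (h1), u ∈ V 2, A ∈ V e. If e ≥ 3, u = c q (h2) and q ∣ f. If e = 2: V 2 = ⟨q, g⟩,
f = α q² + β q g + γ g²; if γ = 0, q ∣ f; otherwise f = γ (g - r q) (g - r' q), g - r q ≠ 0.
-/

open MvPolynomial Module

namespace Pool.Agent.Lib.Pc2352a

namespace Quat

/-- The polynomial ring in four variables. -/
abbrev R4 := MvPolynomial (Fin 4) ℂ

lemma hom_comp_mul {q : R4} {a : ℕ} (hq : q.IsHomogeneous a) (r : R4) (k : ℕ) :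
    homogeneousComponent (a + k) (q * r) = q * homogeneousComponent k r := by
  have h : ∀ i ∈ Finset.range (r.totalDegree + 1),
      homogeneousComponent (a + k) (q * homogeneousComponent i r) =
        if i = k then q * homogeneousComponent k r else 0 := by
    intro i _
    have h1 : (q * homogeneousComponent i r) ∈ homogeneousSubmodule (Fin 4) ℂ (a + i) :=
      hq.mul (homogeneousComponent_isHomogeneous i r)
    rw [homogeneousComponent_of_mem h1]
    by_cases hik : i = k
    · subst hik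
      simp
    · rw [if_neg (by omega), if_neg hik]
  conv_lhs => rw [← sum_homogeneousComponent r, Finset.mul_sum, map_sum]
  rw [Finset.sum_congr rfl h, Finset.sum_ite_eq']
  split_ifs with hk
  · rfl
  · rw [Finset.mem_range, not_lt] at hk
    rw [homogeneousComponent_eq_zero k r (by omega), mul_zero]

lemma hom_quot {q g h : R4} {a b : ℕ} (hq : q.IsHomogeneous a) (hg : g.IsHomogeneous (a + b))
    (e : g = q * h) : ∃ h' : R4, h'.IsHomogeneous b ∧ g = q * h' := by
  refine ⟨homogeneousComponent b h, homogeneousComponent_isHomogeneous b h, ?_⟩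
  rw [← hom_comp_mul hq, ← e]
  exact (homogeneousComponent_eq_self hg).symm

lemma not_dvd_of_lt {q l : R4} {a b : ℕ} (hq : q.IsHomogeneous a) (hl : l.IsHomogeneous b)
    (hab : b < a) (hl0 : l ≠ 0) : ¬ q ∣ l := by
  rintro ⟨h, rfl⟩
  have hq0 : q ≠ 0 := left_ne_zero_of_mul hl0
  have hh0 : h ≠ 0 := right_ne_zero_of_mul hl0
  have h1 := hl.totalDegree hl0
  rw [totalDegree_mul_of_isDomain hq0 hh0, hq.totalDegree hq0] at h1
  omega

lemma isUnit_of_totalDegree {a : R4} (ha : a ≠ 0) (h : a.totalDegree = 0) : IsUnit a := by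
  rw [totalDegree_eq_zero_iff_eq_C] at h
  have hc : coeff 0 a ≠ 0 := by
    intro h0
    rw [h0, C_0] at h
    exact ha h
  rw [h]
  exact (isUnit_iff_ne_zero.2 hc).map C

lemma not_isUnit_of_hom {m : R4} {k : ℕ} (hk : 0 < k) (hm : m.IsHomogeneous k) (hm0 : m ≠ 0) :
    ¬ IsUnit m := by
  rintro hu
  obtain ⟨u, hu'⟩ := hu.exists_right_inv
  have hu0 : u ≠ 0 := by
    rintro rfl
    rw [mul_zero] at hu'
    exact zero_ne_one hu'
  have h1 : (m * u).totalDegree = 0 := by
    rw [hu']
    exact totalDegree_one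
  rw [totalDegree_mul_of_isDomain hm0 hu0, hm.totalDegree hm0] at h1
  omega

lemma linear_irreducible {m : R4} (hm : m.IsHomogeneous 1) (hm0 : m ≠ 0) : Irreducible m := by
  refine ⟨not_isUnit_of_hom one_pos hm hm0, ?_⟩
  rintro a b rfl
  have ha0 : a ≠ 0 := left_ne_zero_of_mul hm0
  have hb0 : b ≠ 0 := right_ne_zero_of_mul hm0
  have h1 := hm.totalDegree hm0
  rw [totalDegree_mul_of_isDomain ha0 hb0] at h1
  rcases Nat.eq_zero_or_pos a.totalDegree with h | h
  · exact Or.inl (isUnit_of_totalDegree ha0 h)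
  · exact Or.inr (isUnit_of_totalDegree hb0 (by omega))

lemma linear_prime {m : R4} (hm : m.IsHomogeneous 1) (hm0 : m ≠ 0) : Prime m :=
  (linear_irreducible hm hm0).prime

lemma deg_one_decomp {a : R4} (h : a.totalDegree = 1) :
    a = homogeneousComponent 0 a + homogeneousComponent 1 a := by
  conv_lhs => rw [← sum_homogeneousComponent a]
  rw [h, Finset.sum_range_succ, Finset.sum_range_one]

lemma quad_split {q : R4} (hq : q.IsHomogeneous 2) (hq0 : q ≠ 0) (hirr : ¬ Irreducible q) :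
    ∃ m u : R4, m.IsHomogeneous 1 ∧ u.IsHomogeneous 1 ∧ m ≠ 0 ∧ u ≠ 0 ∧ q = m * u := by
  rw [irreducible_iff] at hirr
  push Not at hirr
  obtain ⟨a, b, hab, ha, hb⟩ := hirr (not_isUnit_of_hom two_pos hq hq0)
  have ha0 : a ≠ 0 := by
    rintro rfl
    rw [zero_mul] at hab
    exact hq0 hab
  have hb0 : b ≠ 0 := by
    rintro rfl
    rw [mul_zero] at hab
    exact hq0 hab
  have h1 := hq.totalDegree hq0
  rw [hab, totalDegree_mul_of_isDomain ha0 hb0] at h1
  have h2 : a.totalDegree ≠ 0 := fun h => ha (isUnit_of_totalDegree ha0 h)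
  have h3 : b.totalDegree ≠ 0 := fun h => hb (isUnit_of_totalDegree hb0 h)
  have h4 := deg_one_decomp (a := a) (by omega)
  have h5 := deg_one_decomp (a := b) (by omega)
  set a0 := homogeneousComponent 0 a with ha0'
  set a1 := homogeneousComponent 1 a with ha1'
  set b0 := homogeneousComponent 0 b with hb0'
  set b1 := homogeneousComponent 1 b with hb1'
  have ea0 : a0.IsHomogeneous 0 := homogeneousComponent_isHomogeneous 0 a
  have ea1 : a1.IsHomogeneous 1 := homogeneousComponent_isHomogeneous 1 a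
  have eb0 : b0.IsHomogeneous 0 := homogeneousComponent_isHomogeneous 0 b
  have eb1 : b1.IsHomogeneous 1 := homogeneousComponent_isHomogeneous 1 b
  have key : q = a1 * b1 := by
    have h6 : q = a1 * b1 + (a0 * b1 + a1 * b0) + a0 * b0 := by
      rw [hab, h4, h5]
      ring
    have h7 := congrArg (homogeneousComponent 2) h6
    rw [homogeneousComponent_eq_self hq, map_add, map_add] at h7
    have e1 : homogeneousComponent 2 (a1 * b1) = a1 * b1 :=
      homogeneousComponent_eq_self (ea1.mul eb1)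
    have e2 : homogeneousComponent 2 (a0 * b1 + a1 * b0) = 0 := by
      have h8 : (a0 * b1 + a1 * b0) ∈ homogeneousSubmodule (Fin 4) ℂ 1 :=
        (ea0.mul eb1).add (ea1.mul eb0)
      rw [homogeneousComponent_of_mem h8, if_neg (by norm_num)]
    have e3 : homogeneousComponent 2 (a0 * b0) = 0 := by
      have h8 : (a0 * b0) ∈ homogeneousSubmodule (Fin 4) ℂ 0 := ea0.mul eb0
      rw [homogeneousComponent_of_mem h8, if_neg (by norm_num)]
    rw [e1, e2, e3, add_zero, add_zero] at h7
    exact h7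
  refine ⟨a1, b1, ea1, eb1, ?_, ?_, key⟩
  · intro h
    rw [h, zero_mul] at key
    exact hq0 key
  · intro h
    rw [h, mul_zero] at key
    exact hq0 key

instance finVan {n : ℕ} (Z : Finset (Fin n → ℂ)) (k : ℕ) : FiniteDimensional ℂ (vanN Z k) :=
  Submodule.finiteDimensional_of_le (S₂ := Fn n k) fun _ h => h.1

end Quat

open Quat

theorem quat (e : ℕ) (he : 2 ≤ e) (f : MvPolynomial (Fin 4) ℂ) (hf : f.IsHomogeneous (e + 2))
    (Z : Finset (Fin 4 → ℂ)) (h1 : vanN Z 1 = ⊥) (h2 : 3 ≤ e → finrank ℂ (vanN Z 2) = 1)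
    (he0 : finrank ℂ (vanN Z e) = (e + 1).choose 3 + 1)
    (he1 : finrank ℂ (vanN Z (e + 1)) = (e + 2).choose 3 + 5)
    (hf' : ∀ z ∈ Z, ∀ i, eval z (pderiv i f) = 0)
    (hg : ∀ z ∈ Z, 3 ≤ finrank ℂ (Submodule.span ℂ
      {u : Fin 4 → ℂ | ∃ g ∈ vanN Z (e + 1), u = fun i => eval z (pderiv i g)}))
    (hR : ∀ m ∈ Fn 4 1, ∀ u ∈ Fn 4 1, ∀ g' ∈ Fn 4 (e - 1), m ≠ 0 → u ≠ 0 → ¬ (u ∣ g') →
      (∀ z ∈ Z, eval z (m * u) = 0) → ¬ (∀ z ∈ Z, eval z (m * g') = 0)) :
    ∃ q : MvPolynomial (Fin 4) ℂ, q.IsHomogeneous 2 ∧ q ≠ 0 ∧ q ∣ f := by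
  classical
  obtain ⟨q, hqV, hq0⟩ : ∃ q ∈ vanN Z 2, q ≠ 0 := by
    have hpos : 0 < finrank ℂ (vanN Z 2) := by
      rcases Nat.lt_or_ge e 3 with h | h
      · have h' : e = 2 := by omega
        subst h'
        rw [he0]
        omega
      · rw [h2 h]
        exact one_pos
    by_contra hcon
    push Not at hcon
    have h3 : vanN Z 2 = ⊥ := (Submodule.eq_bot_iff _).2 fun x hx => hcon x hx
    rw [h3, finrank_bot] at hpos
    exact lt_irrefl _ hpos
  have hq : q.IsHomogeneous 2 := hqV.1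
  have hqz : ∀ z ∈ Z, eval z q = 0 := hqV.2
  -- g
  have hinj : Function.Injective (LinearMap.mulLeft ℂ q) := by
    intro a b hab
    exact mul_left_cancel₀ hq0 hab
  obtain ⟨g, hgV, hgW⟩ : ∃ g ∈ vanN Z e, g ∉ (Fn 4 (e - 2)).map (LinearMap.mulLeft ℂ q) := by
    by_contra hcon
    push Not at hcon
    have h3 : vanN Z e ≤ (Fn 4 (e - 2)).map (LinearMap.mulLeft ℂ q) := fun x hx => hcon x hx
    have h4 := Submodule.finrank_mono h3
    rw [← (Submodule.equivMapOfInjective _ hinj (Fn 4 (e - 2))).finrank_eq, card_forms4, he0,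
      show e - 2 + 3 = e + 1 by omega] at h4
    omega
  have hgh : g.IsHomogeneous e := hgV.1
  have hgz : ∀ z ∈ Z, eval z g = 0 := hgV.2
  have hqg : ¬ q ∣ g := by
    rintro ⟨h, hh⟩
    obtain ⟨h', hh', e'⟩ := hom_quot (b := e - 2) hq (by rwa [show 2 + (e - 2) = e by omega]) hh
    exact hgW ⟨h', hh', e'.symm⟩
  -- the claim
  have hR' : ∀ m u : R4, m.IsHomogeneous 1 → u.IsHomogeneous 1 → m ≠ 0 → u ≠ 0 → q = m * u →
      ¬ m ∣ g := by
    rintro m u hm hu hm0 hu0 hmu ⟨h, hh⟩
    obtain ⟨g', hg', e'⟩ := hom_quot (b := e - 1) hm (by rwa [show 1 + (e - 1) = e by omega]) hh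
    refine hR m hm u hu g' hg' hm0 hu0 ?_ ?_ ?_
    · rintro ⟨c, hc⟩
      exact hqg ⟨c, by rw [e', hc, hmu, mul_assoc]⟩
    · rw [← hmu]
      exact hqz
    · rw [← e']
      exact hgz
  have hclaim : ∀ A : R4, ∀ l ∈ Fn 4 1, q * A = g * l → l = 0 := by
    intro A l hl hAl
    by_contra hl0
    by_cases hirr : Irreducible q
    · have hp : Prime q := hirr.prime
      rcases hp.dvd_or_dvd ⟨A, hAl.symm⟩ with h | h
      · exact hqg h
      · exact not_dvd_of_lt hq hl (by norm_num) hl0 h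
    · obtain ⟨m, u, hm, hu, hm0, hu0, hmu⟩ := quad_split hq hq0 hirr
      have hmg := hR' m u hm hu hm0 hu0 hmu
      have hug := hR' u m hu hm hu0 hm0 (by rw [hmu, mul_comm])
      have h3 : m ∣ g * l := ⟨u * A, by rw [← hAl, hmu, mul_assoc]⟩
      rcases (linear_prime hm hm0).dvd_or_dvd h3 with h | h
      · exact hmg h
      · obtain ⟨c, hc⟩ := h
        have h4 : u * A = g * c := by
          have h5 : m * (u * A) = m * (g * c) := by
            rw [← mul_assoc, ← hmu, hAl, hc]
            ring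
          exact mul_left_cancel₀ hm0 h5
        have h5 : u ∣ g * c := ⟨A, h4.symm⟩
        rcases (linear_prime hu hu0).dvd_or_dvd h5 with h6 | h6
        · exact hug h6
        · obtain ⟨d, hd⟩ := h6
          have h7 : q ∣ l := ⟨d, by rw [hc, hd, hmu, mul_assoc]⟩
          exact not_dvd_of_lt hq hl (by norm_num) hl0 h7
  -- dimension count
  have hqmul : ∀ A ∈ Fn 4 (e - 1), q * A ∈ vanN Z (e + 1) := by
    intro A hA
    refine ⟨?_, fun z hz => by rw [map_mul, hqz z hz, zero_mul]⟩
    have h3 := hq.mul (hA : A.IsHomogeneous (e - 1))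
    rwa [show 2 + (e - 1) = e + 1 by omega] at h3
  have hgmul : ∀ l ∈ Fn 4 1, g * l ∈ vanN Z (e + 1) := by
    intro l hl
    exact ⟨hgh.mul (hl : l.IsHomogeneous 1), fun z hz => by rw [map_mul, hgz z hz, zero_mul]⟩
  let Φ : (Fn 4 (e - 1)) × (Fn 4 1) →ₗ[ℂ] R4 :=
    ((LinearMap.mulLeft ℂ q).comp (Fn 4 (e - 1)).subtype).coprod
      ((LinearMap.mulLeft ℂ g).comp (Fn 4 1).subtype)
  have hΦ : ∀ p, Φ p = q * (p.1 : R4) + g * (p.2 : R4) := by
    intro p
    simp [Φ]
  have hΦinj : Function.Injective Φ := by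
    rw [injective_iff_map_eq_zero]
    rintro ⟨A, l⟩ h
    rw [hΦ] at h
    have h3 : q * (-(A : R4)) = g * (l : R4) := by
      linear_combination -h
    have h4 := hclaim _ _ l.2 h3
    have h5 : q * (A : R4) = 0 := by
      have h6 : q * (A : R4) + g * (l : R4) = 0 := h
      rw [h4, mul_zero, add_zero] at h6
      exact h6
    have h6 : (A : R4) = 0 := (mul_eq_zero.1 h5).resolve_left hq0
    refine Prod.ext ?_ ?_
    · exact Subtype.ext h6
    · exact Subtype.ext h4
  have hΦrank : finrank ℂ (LinearMap.range Φ) = (e + 2).choose 3 + 4 := by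
    rw [LinearMap.finrank_range_of_inj hΦinj, Module.finrank_prod, card_forms4, card_forms4,
      show e - 1 + 3 = e + 2 by omega]
    rfl
  have hΦle : LinearMap.range Φ ≤ vanN Z (e + 1) := by
    rintro _ ⟨p, rfl⟩
    rw [hΦ]
    exact Submodule.add_mem _ (hqmul _ p.1.2) (hgmul _ p.2.2)
  obtain ⟨g₂, hg₂V, hg₂W⟩ : ∃ g₂ ∈ vanN Z (e + 1), g₂ ∉ LinearMap.range Φ := by
    by_contra hcon
    push Not at hcon
    have h3 : vanN Z (e + 1) ≤ LinearMap.range Φ := fun x hx => hcon x hx
    have : FiniteDimensional ℂ (LinearMap.range Φ) := Submodule.finiteDimensional_of_le hΦle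
    have h4 := Submodule.finrank_mono h3
    rw [hΦrank, he1] at h4
    omega
  have hspan : vanN Z (e + 1) = LinearMap.range Φ ⊔ Submodule.span ℂ {g₂} := by
    have hle : LinearMap.range Φ ⊔ Submodule.span ℂ {g₂} ≤ vanN Z (e + 1) := by
      refine sup_le hΦle ?_
      rw [Submodule.span_singleton_le_iff_mem]
      exact hg₂V
    have : FiniteDimensional ℂ (LinearMap.range Φ ⊔ Submodule.span ℂ {g₂} : Submodule ℂ R4) :=
      Submodule.finiteDimensional_of_le hle
    have hlt : LinearMap.range Φ < LinearMap.range Φ ⊔ Submodule.span ℂ {g₂} := by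
      refine lt_of_le_of_ne le_sup_left ?_
      intro h
      apply hg₂W
      rw [h]
      exact Submodule.mem_sup_right (Submodule.mem_span_singleton_self g₂)
    have h4 := Submodule.finrank_lt_finrank_of_lt hlt
    have h5 := Submodule.finrank_mono hle
    rw [hΦrank] at h4
    rw [he1] at h5
    refine (Submodule.eq_of_le_of_finrank_eq hle ?_).symm
    rw [he1]
    omega
  have hrep : ∀ h ∈ vanN Z (e + 1), ∃ A ∈ Fn 4 (e - 1), ∃ l ∈ Fn 4 1, ∃ c : ℂ,
      h = q * A + g * l + g₂ * C c := by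
    intro h hh
    rw [hspan] at hh
    obtain ⟨x, ⟨p, hp⟩, y, hy, hxy⟩ := Submodule.mem_sup.1 hh
    obtain ⟨c, hc⟩ := Submodule.mem_span_singleton.1 hy
    refine ⟨p.1, p.1.2, p.2, p.2.2, c, ?_⟩
    rw [← hxy, ← hp, ← hc, hΦ, smul_eq_C_mul, mul_comm g₂]
  have hg₂h : g₂.IsHomogeneous (e + 1) := hg₂V.1
  have hg₂z : ∀ z ∈ Z, eval z g₂ = 0 := hg₂V.2
  -- Euler
  have hpd : ∀ i, pderiv i f ∈ vanN Z (e + 1) := by
    intro i
    refine ⟨?_, fun z hz => hf' z hz i⟩
    have h3 := hf.pderiv (i := i)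
    exact h3
  choose A' hA' l' hl' c' hc' using fun i => hrep _ (hpd i)
  obtain ⟨A, hA, u, hu, v, hv, hfe⟩ : ∃ A ∈ Fn 4 e, ∃ u ∈ Fn 4 2, ∃ v ∈ Fn 4 1,
      f = q * A + g * u + g₂ * v := by
    have hne : ((e : ℂ) + 2) ≠ 0 := by
      have h3 : ((e : ℂ) + 2) = ((e + 2 : ℕ) : ℂ) := by push_cast; ring
      rw [h3]
      exact_mod_cast (by omega : e + 2 ≠ 0)
    refine ⟨C ((e : ℂ) + 2)⁻¹ * ∑ i, X i * A' i, ?_, C ((e : ℂ) + 2)⁻¹ * ∑ i, X i * l' i, ?_,
      C ((e : ℂ) + 2)⁻¹ * ∑ i, X i * C (c' i), ?_, ?_⟩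
    · refine IsHomogeneous.C_mul (IsHomogeneous.sum _ _ _ fun i _ => ?_) _
      have h3 := (isHomogeneous_X ℂ i).mul (hA' i : (A' i).IsHomogeneous (e - 1))
      rwa [show 1 + (e - 1) = e by omega] at h3
    · refine IsHomogeneous.C_mul (IsHomogeneous.sum _ _ _ fun i _ => ?_) _
      exact (isHomogeneous_X ℂ i).mul (hl' i : (l' i).IsHomogeneous 1)
    · refine IsHomogeneous.C_mul (IsHomogeneous.sum _ _ _ fun i _ => ?_) _
      exact (isHomogeneous_X ℂ i).mul (isHomogeneous_C (Fin 4) (c' i))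
    · have h3 := hf.sum_X_mul_pderiv
      have h4 : C ((e : ℂ) + 2) * f = ∑ i, X i * pderiv i f := by
        rw [h3, nsmul_eq_mul]
        congr 1
        rw [map_add]
        push_cast
        rfl
      have h5 : f = C ((e : ℂ) + 2)⁻¹ * ∑ i, X i * pderiv i f := by
        rw [← h4, ← mul_assoc, ← C_mul, inv_mul_cancel₀ hne, C_1, one_mul]
      have h6 : ∑ i, X i * pderiv i f =
          q * (∑ i, X i * A' i) + g * (∑ i, X i * l' i) + g₂ * (∑ i, X i * C (c' i)) := by
        rw [Finset.mul_sum, Finset.mul_sum, Finset.mul_sum, ← Finset.sum_add_distrib,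
          ← Finset.sum_add_distrib]
        refine Finset.sum_congr rfl fun i _ => ?_
        rw [hc' i]
        ring
      rw [h6] at h5
      rw [h5]
      ring
  -- gradients
  have hzero : ∀ z ∈ Z, eval z A = 0 ∧ eval z u = 0 ∧ eval z v = 0 := by
    intro z hz
    let G : Fin 3 → (Fin 4 → ℂ) := ![fun i => eval z (pderiv i q), fun i => eval z (pderiv i g),
      fun i => eval z (pderiv i g₂)]
    have hgrad : ∀ (a b c : R4) (i : Fin 4), eval z (pderiv i (q * a + g * b + g₂ * c)) =
        eval z a * eval z (pderiv i q) + eval z b * eval z (pderiv i g) +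
          eval z c * eval z (pderiv i g₂) := by
      intro a b c i
      simp only [map_add, Derivation.leibniz, smul_eq_mul, map_mul, hqz z hz, hgz z hz,
        hg₂z z hz]
      ring
    have hli : LinearIndependent ℂ G := by
      rw [linearIndependent_iff_card_le_finrank_span]
      refine le_trans ?_ (Submodule.finrank_mono (s := Submodule.span ℂ
        {u : Fin 4 → ℂ | ∃ g ∈ vanN Z (e + 1), u = fun i => eval z (pderiv i g)}) ?_)
      · simpa using hg z hz
      · rw [Submodule.span_le]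
        rintro _ ⟨h, hh, rfl⟩
        obtain ⟨a, _, b, _, c, habc⟩ := hrep h hh
        have h3 : (fun i => eval z (pderiv i h)) =
            eval z a • G 0 + eval z b • G 1 + c • G 2 := by
          funext i
          rw [habc, hgrad]
          simp [G]
        rw [h3]
        refine Submodule.add_mem _ (Submodule.add_mem _ ?_ ?_) ?_
        · exact Submodule.smul_mem _ _ (Submodule.subset_span ⟨0, rfl⟩)
        · exact Submodule.smul_mem _ _ (Submodule.subset_span ⟨1, rfl⟩)
        · exact Submodule.smul_mem _ _ (Submodule.subset_span ⟨2, rfl⟩)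
    have h3 := Fintype.linearIndependent_iff.1 hli ![eval z A, eval z u, eval z v] (by
      rw [Fin.sum_univ_three]
      funext i
      have h4 := hf' z hz i
      rw [hfe, hgrad] at h4
      simpa [G] using h4)
    exact ⟨by simpa using h3 0, by simpa using h3 1, by simpa using h3 2⟩
  have hv0 : v = 0 := by
    have h3 : v ∈ vanN Z 1 := ⟨hv, fun z hz => (hzero z hz).2.2⟩
    rw [h1] at h3
    exact (Submodule.mem_bot ℂ).1 h3
  rw [hv0, mul_zero, add_zero] at hfe
  have huV : u ∈ vanN Z 2 := ⟨hu, fun z hz => (hzero z hz).2.1⟩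
  have hAV : A ∈ vanN Z e := ⟨hA, fun z hz => (hzero z hz).1⟩
  rcases Nat.lt_or_ge e 3 with h3 | h3
  · have he2 : e = 2 := by omega
    subst he2
    have hli : LinearIndependent ℂ ![q, g] := by
      rw [LinearIndependent.pair_iff]
      intro s t hst
      have ht : t = 0 := by
        by_contra ht
        apply hqg
        refine ⟨C (-(t⁻¹ * s)), ?_⟩
        have h4 : t • g = -(s • q) := by
          rw [eq_neg_iff_add_eq_zero, add_comm]
          exact hst
        have h5 : g = t⁻¹ • (t • g) := by rw [smul_smul, inv_mul_cancel₀ ht, one_smul]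
        rw [h5, h4, smul_neg, smul_smul, smul_eq_C_mul, C_neg]
        ring
      refine ⟨?_, ht⟩
      rw [ht, zero_smul, add_zero] at hst
      exact (smul_eq_zero.1 hst).resolve_right hq0
    have hV2 : Submodule.span ℂ {q, g} = vanN Z 2 := by
      refine Submodule.eq_of_le_of_finrank_eq ?_ ?_
      · rw [Submodule.span_le]
        rintro x hx
        rcases hx with rfl | hx
        · exact hqV
        · rw [Set.mem_singleton_iff] at hx
          rw [hx]
          exact hgV
      · have h4 := finrank_span_eq_card hli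
        rw [Matrix.range_cons, Matrix.range_cons, Matrix.range_empty, Set.union_empty,
          Set.singleton_union, Fintype.card_fin] at h4
        rw [h4, he0]
        rfl
    rw [← hV2] at huV hAV
    obtain ⟨c, d, hcd⟩ := Submodule.mem_span_pair.1 huV
    obtain ⟨a, b, hab⟩ := Submodule.mem_span_pair.1 hAV
    rw [smul_eq_C_mul, smul_eq_C_mul] at hcd hab
    by_cases hd : d = 0
    · refine ⟨q, hq, hq0, ⟨A + C c * g, ?_⟩⟩
      rw [hfe, ← hcd, hd, C_0]
      ring
    · -- a root of d r² + (b + c) r + a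
      obtain ⟨r, hr⟩ : ∃ r : ℂ, d * (r * r) + (b + c) * r + a = 0 := by
        obtain ⟨s, hs⟩ := IsAlgClosed.exists_pow_nat_eq (discrim d (b + c) a) (n := 2) two_pos
        exact exists_quadratic_eq_zero hd ⟨s, by rw [← hs]; ring⟩
      refine ⟨g - C r * q, ?_, ?_, ⟨C d * g + C (b + c + d * r) * q, ?_⟩⟩
      · exact hgh.sub (hq.C_mul r)
      · intro h
        apply hqg
        exact ⟨C r, by rw [sub_eq_zero.1 h, mul_comm]⟩
      · have h4 : (C a : R4) = -(C d * (C r * C r) + (C b + C c) * C r) := by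
          rw [← C_mul, ← C_mul, ← C_add, ← C_mul, ← C_add, ← C_neg]
          congr 1
          linear_combination hr
        rw [hfe, ← hcd, ← hab, h4]
        simp only [C_add, C_mul]
        ring
  · have h4 := h2 h3
    have h5 : (⟨q, hqV⟩ : vanN Z 2) ≠ 0 := by
      intro h
      exact hq0 (congrArg Subtype.val h)
    obtain ⟨c, hc⟩ := (finrank_eq_one_iff_of_nonzero' _ h5).1 h4 ⟨u, huV⟩
    have h6 : u = C c * q := by
      have h7 := congrArg Subtype.val hc
      rw [← smul_eq_C_mul]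
      exact h7.symm
    refine ⟨q, hq, hq0, ⟨A + g * C c, ?_⟩⟩
    rw [hfe, h6]
    ring

end Pool.Agent.Lib.Pc2352a
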