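import Pool.Agent.Lib.Pc2352a.Num
import Pool.Agent.Lib.Pc2352a.Rel

/-!
# The residual set imposes independent conditions on plane curves of degree e - 1

PROOF SKETCH (black boxes: Num lemmas strict_up, dl_pos, ann_symm, ann_zero, Rel). Let
Z₂ = points of Z with m₅ ≠ 0, w₂ v = w v * eval v m₅. fnl Z₂ w₂ g = fnl Z w (m₅ g) for all g, so w₂
is a relation in degree 2e-2 and G = ann (fnl Z₂ w₂) (2e-1) contains ann (fnl Z w) (2e) in degree
e+1, so it is Bpf in degree e+1. fnl Z₂ w₂ is not zero on Fm (2e-1): otherwise all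
values w v * m₅ v = 0 by separating the finitely many (pairwise non proportional, as l = 1) points
with forms of degree 2e-1?? careful: instead use hnz. By strict_up and dl G (2e-1) = 1 (ann_symm,
ann_zero): dl G (2e-1-k) ≥ k+1 for k ≤ e-1 by induction on k (t = 2e-2-k ≥ e: either dl G t ≤ t and
dl G (t+1) < dl G t, or dl G t ≥ t+1 ≥ k+2). So dl G k ≥ k+1 for k ≤ e-1 by ann_symm and
∑_{k ≤ e-1} dl G k ≥ ∑ (k+1) = (e+1).choose 2; sum_le for Z₂, w₂, m = 2e-2, k = e-1.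
hnz: m₅ is not in (ann (fnl Z w) (2e)).J 1, i.e. fnl Z w (m₅ g) ≠ 0 for some g ∈ Fm (2e-1).
-/

open MvPolynomial Module

namespace Pool.Agent.Lib.Pc2352a

namespace ResidAux

lemma sum_succ (e : ℕ) : ∑ i ∈ Finset.range e, (i + 1) = (e + 1).choose 2 := by
  induction e with
  | zero => rfl
  | succ e ih =>
    have h1 : (e + 1 + 1).choose 2 = (e + 1).choose 1 + (e + 1).choose 2 :=
      Nat.choose_succ_succ' (e + 1) 1
    rw [Nat.choose_one_right] at h1
    rw [Finset.sum_range_succ, ih, h1]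
    omega

end ResidAux

theorem resid (e : ℕ) (he : 2 ≤ e) (Z : Finset Vec) (w : Vec → ℂ) (l : Poly) (hl : l ∈ Fm 1)
    (hl1 : ∀ v ∈ Z, eval v l = 1) (hrel : ∀ g ∈ Fm (2 * e - 1), fnl Z w g = 0)
    (hb : Bpf (ann (fnl Z w) (2 * e)) (e + 1)) (m₅ : Poly) (hm : m₅ ∈ Fm 1)
    (hnz : m₅ ∉ (ann (fnl Z w) (2 * e)).J 1) (Z₂ : Finset Vec)
    (hZ₂ : ∀ v, v ∈ Z₂ ↔ v ∈ Z ∧ eval v m₅ ≠ 0) :
    (e + 1).choose 2 ≤ dl (van Z₂) (e - 1) := by
  classical
  set w₂ : Vec → ℂ := fun v => w v * eval v m₅ with hw₂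
  have hfn : ∀ g, fnl Z₂ w₂ g = fnl Z w (m₅ * g) := by
    intro g
    rw [fnl_apply, fnl_apply]
    have hsub : Z₂ ⊆ Z := fun v hv => ((hZ₂ v).1 hv).1
    rw [← Finset.sum_subset hsub]
    · refine Finset.sum_congr rfl fun v _ => ?_
      rw [hw₂, map_mul]
      ring
    · intro v hv hv2
      have h1 : eval v m₅ = 0 := by
        by_contra hne
        exact hv2 ((hZ₂ v).2 ⟨hv, hne⟩)
      rw [map_mul, h1, zero_mul, mul_zero]
  have hrel2 : ∀ g ∈ Fm (2 * e - 2), fnl Z₂ w₂ g = 0 := by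
    intro g hg
    rw [hfn]
    apply hrel
    have h1 := mul_mem_Fm hm hg
    rwa [show 2 * e - 2 + 1 = 2 * e - 1 by omega] at h1
  have hnz2 : ∃ g ∈ Fm (2 * e - 1), fnl Z₂ w₂ g ≠ 0 := by
    by_contra hc
    push Not at hc
    apply hnz
    refine ⟨hm, fun _ h hh => ?_⟩
    rw [← hfn]
    exact hc h hh
  have hb2 : Bpf (ann (fnl Z₂ w₂) (2 * e - 1)) (e + 1) := by
    refine bpf_of_le ?_ hb
    intro g hg
    refine ⟨hg.1, fun _ h hh => ?_⟩
    rw [hfn, show m₅ * (g * h) = g * (m₅ * h) by ring]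
    refine hg.2 (by omega) (m₅ * h) ?_
    have h1 := mul_mem_Fm hm hh
    rwa [show 2 * e - 1 - (e + 1) + 1 = 2 * e - (e + 1) by omega] at h1
  set G := ann (fnl Z₂ w₂) (2 * e - 1) with hG
  have hsym : ∀ k ≤ 2 * e - 1, dl G k = dl G (2 * e - 1 - k) := fun k hk => ann_symm _ _ k hk
  have hzero : dl G 0 = 1 := ann_zero _ _ hnz2
  have hpos : ∀ k ≤ 2 * e - 1, 0 < dl G k := fun k hk => dl_pos _ _ hnz2 k hk
  have hup : ∀ k, k ≤ e - 1 → k + 1 ≤ dl G (2 * e - 1 - k) := by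
    intro k
    induction k with
    | zero =>
      intro _
      rw [← hsym 0 (Nat.zero_le _), hzero]
    | succ k ih =>
      intro hk
      have h1 := ih (by omega)
      have h2 : 2 * e - 1 - k = (2 * e - 1 - (k + 1)) + 1 := by omega
      rw [h2] at h1
      rcases Nat.lt_or_ge (2 * e - 1 - (k + 1)) (dl G (2 * e - 1 - (k + 1))) with h3 | h3
      · omega
      · have h4 := strict_up hb2 (t := 2 * e - 1 - (k + 1)) (by omega) (hpos _ (by omega)) h3
        omega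
  have hlow : ∀ k, k ≤ e - 1 → k + 1 ≤ dl G k := by
    intro k hk
    rw [hsym k (by omega)]
    exact hup k hk
  have hl2 : ∀ v ∈ Z₂, eval v l = 1 := fun v hv => hl1 v ((hZ₂ v).1 hv).1
  have hsum := sum_le Z₂ w₂ l hl hl2 (2 * e - 2) hrel2 (e - 1)
  rw [show 2 * e - 2 + 1 = 2 * e - 1 by omega, show e - 1 + 1 = e by omega, ← hG] at hsum
  refine le_trans ?_ hsum
  rw [← ResidAux.sum_succ e]
  refine Finset.sum_le_sum fun k hk => hlow k ?_
  have := Finset.mem_range.1 hk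
  omega

end Pool.Agent.Lib.Pc2352a
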