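import Pool.Agent.Lib.Pc2352a.PlanarAsm
import Pool.Agent.Lib.Pc2352a.Quat
import Pool.Agent.Lib.Pc2352a.Resid
import Pool.Agent.Lib.Pc2352a.Grad

/-!
# The quadric case
-/

open MvPolynomial Module

namespace Pool.Agent.Lib.Pc2352a.Asm

/-- A reducible quadratic form has a linear factor. -/
lemma quad_split (q : MvPolynomial (Fin 4) ℂ) (hq : q.IsHomogeneous 2) (hq0 : q ≠ 0)
    (hirr : ¬ Irreducible q) : ∃ m ∈ Fn 4 1, m ≠ 0 ∧ m ∣ q := by
  have hdeg : q.totalDegree = 2 := hq.totalDegree hq0
  have hnu : ¬ IsUnit q := by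
    intro h
    obtain ⟨r, hr, hrq⟩ := (MvPolynomial.isUnit_iff_eq_C_of_isReduced).mp h
    rw [hrq, totalDegree_C] at hdeg
    omega
  have : ∃ a b : MvPolynomial (Fin 4) ℂ, q = a * b ∧ ¬ IsUnit a ∧ ¬ IsUnit b := by
    by_contra hc
    push Not at hc
    exact hirr ⟨hnu, fun a b hab => by
      by_cases ha : IsUnit a
      · exact Or.inl ha
      · exact Or.inr (hc a b hab ha)⟩
  obtain ⟨a, b, hab, ha, hb⟩ := this
  have ha0 : a ≠ 0 := by rintro rfl; exact hq0 (by rw [hab, zero_mul])
  have hb0 : b ≠ 0 := by rintro rfl; exact hq0 (by rw [hab, mul_zero])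
  have hsum : a.totalDegree + b.totalDegree = 2 := by
    rw [← hdeg, hab, MvPolynomial.totalDegree_mul_of_isDomain ha0 hb0]
  have hda : a.totalDegree ≠ 0 := by
    intro h
    apply ha
    have := (totalDegree_eq_zero_iff_eq_C).mp h
    rw [this]
    refine (isUnit_iff_ne_zero.mpr ?_).map C
    intro h0
    apply ha0
    rw [this, h0, map_zero]
  have hdb : b.totalDegree ≠ 0 := by
    intro h
    apply hb
    have := (totalDegree_eq_zero_iff_eq_C).mp h
    rw [this]
    refine (isUnit_iff_ne_zero.mpr ?_).map C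
    intro h0
    apply hb0
    rw [this, h0, map_zero]
  have ha1 : a.totalDegree = 1 := by omega
  have hb1 : b.totalDegree = 1 := by omega
  have ea : a = homogeneousComponent 0 a + homogeneousComponent 1 a := by
    conv_lhs => rw [← sum_homogeneousComponent a]
    rw [ha1]
    simp [Finset.sum_range_succ]
  have eb : b = homogeneousComponent 0 b + homogeneousComponent 1 b := by
    conv_lhs => rw [← sum_homogeneousComponent b]
    rw [hb1]
    simp [Finset.sum_range_succ]
  have key : q = homogeneousComponent 1 a * homogeneousComponent 1 b := by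
    have h1 : homogeneousComponent 2 q = q := homogeneousComponent_of_mem hq |>.trans (by simp)
    rw [← h1, hab]
    conv_lhs => rw [ea, eb]
    have e00 : (homogeneousComponent 0 a * homogeneousComponent 0 b).IsHomogeneous (0 + 0) :=
      (homogeneousComponent_isHomogeneous 0 a).mul (homogeneousComponent_isHomogeneous 0 b)
    have e01 : (homogeneousComponent 0 a * homogeneousComponent 1 b).IsHomogeneous (0 + 1) :=
      (homogeneousComponent_isHomogeneous 0 a).mul (homogeneousComponent_isHomogeneous 1 b)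
    have e10 : (homogeneousComponent 1 a * homogeneousComponent 0 b).IsHomogeneous (1 + 0) :=
      (homogeneousComponent_isHomogeneous 1 a).mul (homogeneousComponent_isHomogeneous 0 b)
    have e11 : (homogeneousComponent 1 a * homogeneousComponent 1 b).IsHomogeneous (1 + 1) :=
      (homogeneousComponent_isHomogeneous 1 a).mul (homogeneousComponent_isHomogeneous 1 b)
    rw [add_mul, mul_add, mul_add, map_add, map_add, map_add,
      homogeneousComponent_of_mem e00, homogeneousComponent_of_mem e01,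
      homogeneousComponent_of_mem e10, homogeneousComponent_of_mem e11]
    simp
  refine ⟨homogeneousComponent 1 a, homogeneousComponent_isHomogeneous 1 a, ?_, ?_⟩
  · intro h
    apply hq0
    rw [key, h, zero_mul]
  · exact ⟨_, key⟩

/-- The zeros of a linear form in four variables contain a three-dimensional subspace. -/
lemma exists_plane (m : MvPolynomial (Fin 4) ℂ) (hm : m ∈ Fn 4 1) (hm0 : m ≠ 0) :
    ∃ L : (Fin 3 → ℂ) →ₗ[ℂ] (Fin 4 → ℂ), Function.Injective L ∧ ∀ v, eval (L v) m = 0 := by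
  have h1 : (Fn 4 1 : Submodule ℂ (MvPolynomial (Fin 4) ℂ)) = Submodule.span ℂ (Set.range X) :=
    homogeneousSubmodule_one_eq_span_X
  rw [h1] at hm
  obtain ⟨c, hc⟩ := (Submodule.mem_span_range_iff_exists_fun ℂ).mp hm
  have hev : ∀ y : Fin 4 → ℂ, eval y m = dotProductEquiv ℂ (Fin 4) c y := by
    intro y
    rw [← hc]
    simp [dotProduct, smul_eval]
  set φ := dotProductEquiv ℂ (Fin 4) c with hφ
  have hker : 3 ≤ finrank ℂ (LinearMap.ker φ) := by
    have h2 := LinearMap.finrank_range_add_finrank_ker φ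
    have h3 : finrank ℂ (LinearMap.range φ) ≤ 1 := by
      have := Submodule.finrank_le (LinearMap.range φ)
      simpa using this
    simp only [finrank_fin_fun] at h2
    omega
  obtain ⟨f, hf⟩ := exists_linearIndependent_of_le_finrank hker
  have hf' : Function.Injective (Fintype.linearCombination ℂ f) :=
    linearIndependent_iff_injective_fintypeLinearCombination.mp hf
  refine ⟨(LinearMap.ker φ).subtype.comp (Fintype.linearCombination ℂ f),
    fun a b hab => hf' (Subtype.ext hab), ?_⟩
  intro v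
  rw [hev]
  exact (Fintype.linearCombination ℂ f v).2

theorem quadCase (e : ℕ) (he : e = 2 ∨ e = 3 ∨ e = 4) (F : Poly) (hF : F.IsHomogeneous (e + 2))
    (hr : ∀ v : Vec, v ≠ 0 → (∀ i, eval v (pderiv i F) = 0) → (hess F v).rank = 4)
    (Z : Finset Vec) (w : Vec → ℂ) (hw : ∀ v ∈ Z, w v ≠ 0) (l : Poly) (hl : l ∈ Fm 1)
    (hl1 : ∀ v ∈ Z, eval v l = 1) (hrel : ∀ g ∈ Fm (2 * e - 1), fnl Z w g = 0)
    (hmin : ∀ w' : Vec → ℂ, (∀ g ∈ Fm (2 * e - 1), fnl Z w' g = 0) →
      ∃ c : ℂ, ∀ v ∈ Z, w' v = c * w v)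
    (hb : Bpf (ann (fnl Z w) (2 * e)) (e + 1)) (hZ : ∀ v ∈ Z, ∀ i, eval v (pderiv i F) = 0)
    (h1 : dl (van Z) 1 = 4) (h2 : 3 ≤ e → dl (van Z) 2 = 9)
    (h3 : dl (van Z) e = e ^ 2 + 2 * e) (h4 : dl (van Z) (e + 1) = e ^ 2 + 4 * e - 1) :
    (∃ L : (Fin 3 → ℂ) →ₗ[ℂ] Vec, Function.Injective L ∧ ∀ v, eval (L v) F = 0) ∨
    (∃ (L : (Fin 4 → ℂ) →ₗ[ℂ] Vec) (q : MvPolynomial (Fin 4) ℂ), Function.Injective L ∧
      q.IsHomogeneous 2 ∧ Irreducible q ∧ ∀ v, eval v q = 0 → eval (L v) F = 0) := by
  classical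
  have he2 : 2 ≤ e := by omega
  obtain ⟨L, M, hL, hM, hLM⟩ := exists_param Z 4 h1
  set Z' := Z.image M with hZ'
  have hZim : ∀ v, v ∈ Z ↔ ∃ y ∈ Z', L y = v := by
    intro v
    constructor
    · intro hv
      exact ⟨M v, Finset.mem_image_of_mem _ hv, hLM v hv⟩
    · rintro ⟨y, hy, rfl⟩
      obtain ⟨v, hv, rfl⟩ := Finset.mem_image.mp hy
      rwa [hLM v hv]
  have hZL : ∀ y ∈ Z', L y ∈ Z := fun y hy => (hZim _).mpr ⟨y, hy, rfl⟩
  have hfd : ∀ (Y : Finset (Fin 4 → ℂ)) (k : ℕ), FiniteDimensional ℂ (vanN Y k) := fun Y k =>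
    Submodule.finiteDimensional_of_le (fun g hg => hg.1 : vanN Y k ≤ Fn 4 k)
  have hV1 : vanN Z' 1 = ⊥ := by
    have h5 := pull_dim L hL Z' Z hZim 1
    rw [card_forms4, h1] at h5
    have h6 : finrank ℂ (vanN Z' 1) = 0 := by
      have : (1 + 3).choose 3 = 4 := by decide
      omega
    have := hfd Z' 1
    exact Submodule.finrank_eq_zero.mp h6
  have hV1' : ∀ u ∈ Fn 4 1, (∀ z ∈ Z', eval z u = 0) → u = 0 := by
    intro u hu huz
    have : u ∈ vanN Z' 1 := ⟨hu, huz⟩
    rw [hV1] at this
    exact (Submodule.mem_bot ℂ).mp this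
  have hR : ∀ m ∈ Fn 4 1, ∀ u ∈ Fn 4 1, ∀ g' ∈ Fn 4 (e - 1), m ≠ 0 → u ≠ 0 → ¬ (u ∣ g') →
      (∀ z ∈ Z', eval z (m * u) = 0) → ¬ (∀ z ∈ Z', eval z (m * g') = 0) := by
    intro m hm u hu g' hg' hm0 hu0 hug hmu hmg
    obtain ⟨m₅, hm₅, hpm⟩ := pull_surj L hL 1 m hm
    have hem : ∀ y, eval y m = eval (L y) m₅ := by
      intro y
      rw [← hpm, eval_pull]
    have hnz : m₅ ∉ (ann (fnl Z w) (2 * e)).J 1 := by
      intro hmem
      have h5 : ∀ g ∈ Fm (2 * e - 1), fnl Z (fun v => w v * eval v m₅) g = 0 := by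
        intro g hg
        have h6 := hmem.2 (by omega) g hg
        rw [fnl_apply] at h6
        rw [fnl_apply, ← h6]
        refine Finset.sum_congr rfl fun v _ => ?_
        rw [map_mul]
        ring
      obtain ⟨c, hc⟩ := hmin _ h5
      have hc' : ∀ v ∈ Z, eval v m₅ = c := by
        intro v hv
        have h6 := hc v hv
        have h7 := hw v hv
        have h8 : w v * (eval v m₅ - c) = 0 := by linear_combination h6
        rcases mul_eq_zero.mp h8 with h9 | h9
        · exact absurd h9 h7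
        · exact sub_eq_zero.mp h9
      by_cases hc0 : c = 0
      · apply hm0
        refine hV1' m hm fun z hz => ?_
        rw [hem, hc' _ (hZL z hz), hc0]
      · apply hu0
        refine hV1' u hu fun z hz => ?_
        have h6 := hmu z hz
        rw [map_mul, hem, hc' _ (hZL z hz)] at h6
        exact (mul_eq_zero.mp h6).resolve_left hc0
    have hres := resid e he2 Z w l hl hl1 hrel hb m₅ hm₅ hnz (Z.filter (fun v => eval v m₅ ≠ 0))
      (by intro v; simp)
    have hpd := pull_dim L hL (Z'.filter (fun y => eval y m ≠ 0))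
      (Z.filter (fun v => eval v m₅ ≠ 0)) (by
        intro v
        constructor
        · intro hv
          have hv' := Finset.mem_filter.mp hv
          obtain ⟨y, hy, rfl⟩ := (hZim v).mp hv'.1
          exact ⟨y, Finset.mem_filter.mpr ⟨hy, by rw [hem]; exact hv'.2⟩, rfl⟩
        · rintro ⟨y, hy, rfl⟩
          have hy' := Finset.mem_filter.mp hy
          exact Finset.mem_filter.mpr ⟨hZL y hy'.1, by rw [← hem]; exact hy'.2⟩) (e - 1)
    rw [card_forms4] at hpd
    set Z₂ := Z'.filter (fun y => eval y m ≠ 0) with hZ₂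
    have huZ₂ : ∀ z ∈ Z₂, eval z u = 0 := by
      intro z hz
      have hz' := Finset.mem_filter.mp hz
      have h6 := hmu z hz'.1
      rw [map_mul] at h6
      exact (mul_eq_zero.mp h6).resolve_left hz'.2
    have hgZ₂ : ∀ z ∈ Z₂, eval z g' = 0 := by
      intro z hz
      have hz' := Finset.mem_filter.mp hz
      have h6 := hmg z hz'.1
      rw [map_mul] at h6
      exact (mul_eq_zero.mp h6).resolve_left hz'.2
    set W0 : Submodule ℂ (MvPolynomial (Fin 4) ℂ) := (Fn 4 (e - 2)).map (LinearMap.mulLeft ℂ u)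
      with hW0
    have hinj : Function.Injective (LinearMap.mulLeft ℂ u) := fun a b hab =>
      mul_left_cancel₀ hu0 hab
    have hW0d : finrank ℂ W0 = (e - 2 + 3).choose 3 := by
      rw [hW0, ← card_forms4]
      exact (Submodule.equivMapOfInjective _ hinj _).finrank_eq.symm
    have hW0le : W0 ≤ vanN Z₂ (e - 1) := by
      rintro _ ⟨g, hg, rfl⟩
      refine ⟨?_, fun z hz => ?_⟩
      · have h6 := (hu : u.IsHomogeneous 1).mul (hg : g.IsHomogeneous (e - 2))
        have h7 : 1 + (e - 2) = e - 1 := by omega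
        rw [h7] at h6
        exact h6
      · rw [LinearMap.mulLeft_apply, map_mul, huZ₂ z hz, zero_mul]
    have hlt : W0 < vanN Z₂ (e - 1) := by
      refine lt_of_le_of_ne hW0le ?_
      intro heq
      have h6 : g' ∈ vanN Z₂ (e - 1) := ⟨hg', hgZ₂⟩
      rw [← heq] at h6
      obtain ⟨g, _, hgg⟩ := h6
      exact hug ⟨g, hgg.symm⟩
    have := hfd Z₂ (e - 1)
    have hlt' := Submodule.finrank_lt_finrank_of_lt hlt
    rw [hW0d] at hlt'
    rcases he with rfl | rfl | rfl
    · have e1 : (2 - 2 + 3).choose 3 = 1 := by decide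
      have e2 : (2 - 1 + 3).choose 3 = 4 := by decide
      have e3 : (2 + 1).choose 2 = 3 := by decide
      omega
    · have e1 : (3 - 2 + 3).choose 3 = 4 := by decide
      have e2 : (3 - 1 + 3).choose 3 = 10 := by decide
      have e3 : (3 + 1).choose 2 = 6 := by decide
      omega
    · have e1 : (4 - 2 + 3).choose 3 = 10 := by decide
      have e2 : (4 - 1 + 3).choose 3 = 20 := by decide
      have e3 : (4 + 1).choose 2 = 10 := by decide
      omega
  have hy0 : ∀ y ∈ Z', L y ≠ 0 := by
    intro y hy h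
    have h5 := hl1 _ (hZL y hy)
    rw [h] at h5
    obtain ⟨c, rfl⟩ := exists_lin hl
    rw [eval_lin] at h5
    simp at h5
  obtain ⟨q, hq2, hq0, hqd⟩ := quat e he2 (pull L F) (pull_mem L hF) Z' hV1
    (by
      intro he3
      have h5 := pull_dim L hL Z' Z hZim 2
      rw [card_forms4, h2 he3] at h5
      have : (2 + 3).choose 3 = 10 := by decide
      omega)
    (by
      have h5 := pull_dim L hL Z' Z hZim e
      rw [card_forms4, h3] at h5
      rcases he with rfl | rfl | rfl
      · have e1 : (2 + 3).choose 3 = 10 := by decide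
        have e2 : (2 + 1).choose 3 = 1 := by decide
        omega
      · have e1 : (3 + 3).choose 3 = 20 := by decide
        have e2 : (3 + 1).choose 3 = 4 := by decide
        omega
      · have e1 : (4 + 3).choose 3 = 35 := by decide
        have e2 : (4 + 1).choose 3 = 10 := by decide
        omega)
    (by
      have h5 := pull_dim L hL Z' Z hZim (e + 1)
      rw [card_forms4, h4] at h5
      rcases he with rfl | rfl | rfl
      · have e1 : (2 + 1 + 3).choose 3 = 20 := by decide
        have e2 : (2 + 2).choose 3 = 4 := by decide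
        omega
      · have e1 : (3 + 1 + 3).choose 3 = 35 := by decide
        have e2 : (3 + 2).choose 3 = 10 := by decide
        omega
      · have e1 : (4 + 1 + 3).choose 3 = 56 := by decide
        have e2 : (4 + 2).choose 3 = 20 := by decide
        omega)
    (by
      intro z hz i
      rw [pderiv_pull, map_sum]
      refine Finset.sum_eq_zero fun j _ => ?_
      rw [map_mul, eval_pull, hZ _ (hZL z hz) j, mul_zero])
    (fun z hz => grad_span e F hF L hL Z' (fun y hy i => hZ _ (hZL y hy) i) z hz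
      (hr _ (hy0 z hz) (hZ _ (hZL z hz)))) hR
  by_cases hirr : Irreducible q
  · right
    refine ⟨L, q, hL, hq2, hirr, fun v hv => ?_⟩
    obtain ⟨B, hB⟩ := hqd
    rw [← eval_pull, hB, map_mul, hv, zero_mul]
  · left
    obtain ⟨m, hm, hm0, hmq⟩ := quad_split q hq2 hq0 hirr
    obtain ⟨L', hL', hLm⟩ := exists_plane m hm hm0
    refine ⟨L.comp L', hL.comp hL', fun v => ?_⟩
    obtain ⟨B, hB⟩ := hmq.trans hqd
    rw [LinearMap.comp_apply, ← eval_pull, hB, map_mul, hLm, zero_mul]

end Pool.Agent.Lib.Pc2352a.Asm
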