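import Pool.Agent.Lib.Pc2352a.Pull

/-!
# A ternary form with derivatives in a small system is zero

PROOF SKETCH. For v ∈ ℂ³ let D_v f = ∑ v i * pderiv i f ∈ W. As dim W ≤ 2 there is v₀ ≠ 0 with
D_{v₀} f = 0. Suppose f ≠ 0; the span T of the partial derivatives is not zero (Euler, d ≥ 1).
Case dim T = 2: T = W. Every g ∈ T satisfies D_{v₀} g = 0 (derivatives commute), so
g (y + s v₀) = g y for all s. Take z ∈ Z not proportional to v₀ (Z is not contained in a line
through 0, h1): all z + s v₀ are common zeros of W, pairwise not proportional, contradicting the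
finiteness (hB).
Case dim T = 1: the kernel of v ↦ D_v f has dimension 2, f is invariant under translation by it, so
f(y) = c (u y)^d where u is a linear form with that kernel. As f and its derivatives vanish on Z
(Euler), u vanishes on Z, contradicting h1.
-/

open MvPolynomial Module

namespace Pool.Agent.Lib.Pc2352a

namespace TernaryAux

/-- The derivative in the direction `v`. -/
noncomputable def DD (v : Fin 3 → ℂ) :
    Derivation ℂ (MvPolynomial (Fin 3) ℂ) (MvPolynomial (Fin 3) ℂ) :=
  mkDerivation ℂ fun i => C (v i)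

lemma DD_X (v : Fin 3 → ℂ) (i : Fin 3) : DD v (X i) = C (v i) := by
  rw [DD, mkDerivation_X]

lemma DD_eq (v : Fin 3 → ℂ) (f : MvPolynomial (Fin 3) ℂ) :
    DD v f = ∑ i, v i • pderiv i f := by
  induction f using MvPolynomial.induction_on with
  | C a => simp
  | add p q hp hq =>
    simp only [map_add, hp, hq, smul_add, Finset.sum_add_distrib]
  | mul_X p j hp =>
    rw [Derivation.leibniz, hp, DD_X]
    simp only [Derivation.leibniz, smul_add, Finset.sum_add_distrib]
    congr 1
    · rw [Finset.sum_eq_single j]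
      · rw [pderiv_X_self, smul_eq_mul, smul_eq_mul, mul_one, smul_eq_C_mul, mul_comm]
      · intro i _ hij
        rw [pderiv_X_of_ne (Ne.symm hij)]
        simp
      · simp
    · rw [Finset.smul_sum]
      refine Finset.sum_congr rfl fun i _ => ?_
      rw [smul_comm]

lemma pderiv_comm (i j : Fin 3) (f : MvPolynomial (Fin 3) ℂ) :
    pderiv i (pderiv j f) = pderiv j (pderiv i f) := by
  have h : ⁅pderiv (R := ℂ) i, pderiv (R := ℂ) j⁆ = 0 := by
    refine MvPolynomial.derivation_ext fun l => ?_
    rw [Derivation.commutator_apply]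
    simp [pderiv_X, Pi.single_apply, apply_ite]
  have h2 := congrArg (fun D => D f) h
  simp only [Derivation.commutator_apply, Derivation.zero_apply, sub_eq_zero] at h2
  exact h2

lemma DD_pderiv (v : Fin 3 → ℂ) (f : MvPolynomial (Fin 3) ℂ) (i : Fin 3) :
    DD v (pderiv i f) = pderiv i (DD v f) := by
  rw [DD_eq, DD_eq, map_sum]
  refine Finset.sum_congr rfl fun j _ => ?_
  rw [Derivation.map_smul, pderiv_comm]

lemma hasDerivAt_eval (v y : Fin 3 → ℂ) (f : MvPolynomial (Fin 3) ℂ) (s : ℂ) :
    HasDerivAt (fun s : ℂ => eval (y + s • v) f) (eval (y + s • v) (DD v f)) s := by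
  induction f using MvPolynomial.induction_on with
  | C a => simpa using hasDerivAt_const s a
  | add p q hp hq =>
    have h2 := hp.add hq
    simp only [map_add]
    exact h2
  | mul_X p i hp =>
    have h1 : HasDerivAt (fun s : ℂ => eval (y + s • v) (X i : MvPolynomial (Fin 3) ℂ)) (v i) s := by
      simp only [eval_X, Pi.add_apply, Pi.smul_apply, smul_eq_mul]
      simpa using ((hasDerivAt_id s).mul_const (v i)).const_add (y i)
    have h2 := hp.mul h1
    have e : eval (y + s • v) (DD v (p * X i)) =
        eval (y + s • v) (DD v p) * eval (y + s • v) (X i) + eval (y + s • v) p * v i := by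
      rw [Derivation.leibniz, DD_X]
      simp only [smul_eq_mul, map_add, map_mul, eval_C]
      ring
    rw [e]
    simp only [map_mul]
    exact h2

lemma eval_translate {v : Fin 3 → ℂ} {f : MvPolynomial (Fin 3) ℂ} (h : DD v f = 0)
    (y : Fin 3 → ℂ) (s : ℂ) : eval (y + s • v) f = eval y f := by
  have h1 : ∀ s, HasDerivAt (fun s : ℂ => eval (y + s • v) f) 0 s := fun s => by
    have := hasDerivAt_eval v y f s
    rwa [h, map_zero] at this
  have h2 : Differentiable ℂ (fun s : ℂ => eval (y + s • v) f) :=
    fun s => (h1 s).differentiableAt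
  have h3 := is_const_of_deriv_eq_zero h2 (fun s => (h1 s).deriv) s 0
  simpa using h3

lemma eval_scale {d : ℕ} {f : MvPolynomial (Fin 3) ℂ} (hf : f.IsHomogeneous d) (c : ℂ)
    (y : Fin 3 → ℂ) : eval (c • y) f = c ^ d * eval y f := by
  rw [eval_eq', eval_eq', Finset.mul_sum]
  refine Finset.sum_congr rfl fun s hs => ?_
  have h1 : ∑ i, s i = d := by
    have := hf (mem_support_iff.1 hs)
    rw [← this, Finsupp.weight_apply, Finsupp.sum_fintype]
    · simp
    · simp
  simp only [Pi.smul_apply, smul_eq_mul, mul_pow, Finset.prod_mul_distrib, Finset.prod_pow_eq_pow_sum,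
    h1]
  ring

lemma euler {d : ℕ} {f : MvPolynomial (Fin 3) ℂ} (hf : f.IsHomogeneous d) (hd : 1 ≤ d)
    (y : Fin 3 → ℂ) (h : ∀ i, eval y (pderiv i f) = 0) : eval y f = 0 := by
  have h1 := congrArg (eval y) hf.sum_X_mul_pderiv
  simp only [map_sum, map_mul, h, mul_zero, Finset.sum_const_zero, map_nsmul] at h1
  have h2 : (d : ℂ) ≠ 0 := by exact_mod_cast (by omega : d ≠ 0)
  rw [nsmul_eq_mul] at h1
  exact (mul_eq_zero.1 h1.symm).resolve_left h2

/-- A linear functional as a form. -/
lemma exists_form (u : (Fin 3 → ℂ) →ₗ[ℂ] ℂ) :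
    ∃ U ∈ Fn 3 1, ∀ y, eval y U = u y := by
  refine ⟨∑ i, C (u (Pi.single i 1)) * X i, ?_, fun y => ?_⟩
  · refine Submodule.sum_mem _ fun i _ => ?_
    exact isHomogeneous_C_mul_X _ _
  · simp only [map_sum, map_mul, eval_C, eval_X]
    conv_rhs => rw [pi_eq_sum_univ y]
    rw [map_sum]
    refine Finset.sum_congr rfl fun i _ => ?_
    have : (fun j => if i = j then (1:ℂ) else 0) = Pi.single i (1:ℂ) := by
      ext j; rw [Pi.single_apply]; simp [eq_comm]
    rw [this, map_smul, smul_eq_mul, mul_comm]

end TernaryAux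

open TernaryAux in
theorem ternary (d : ℕ) (hd : 2 ≤ d) (f : MvPolynomial (Fin 3) ℂ) (hf : f.IsHomogeneous d)
    (Z : Finset (Fin 3 → ℂ)) (W : Submodule ℂ (MvPolynomial (Fin 3) ℂ)) (hW : W ≤ Fn 3 (d - 1))
    (hW2 : finrank ℂ W ≤ 2) (hpd : ∀ i, pderiv i f ∈ W)
    (B : Finset (Fin 3 → ℂ))
    (hB : ∀ w : Fin 3 → ℂ, w ≠ 0 → (∀ g ∈ W, eval w g = 0) → ∃ b ∈ B, ∃ c : ℂ, w = c • b)
    (hZ : ∀ z ∈ Z, ∀ g ∈ W, eval z g = 0)
    (h1 : ∀ u ∈ Fn 3 1, (∀ z ∈ Z, eval z u = 0) → u = 0) : f = 0 := by
  classical
  -- no nonzero functional vanishes on `Z`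
  have hfun : ∀ u : (Fin 3 → ℂ) →ₗ[ℂ] ℂ, (∀ z ∈ Z, u z = 0) → u = 0 := by
    intro u hu
    obtain ⟨U, hU, hUe⟩ := exists_form u
    have : U = 0 := h1 U hU fun z hz => by rw [hUe, hu z hz]
    ext i
    have h2 := hUe (Pi.single i 1)
    rw [this, map_zero] at h2
    simpa using h2.symm
  have hfZ : ∀ z ∈ Z, eval z f = 0 := fun z hz =>
    euler hf (by omega) z fun i => hZ z hz _ (hpd i)
  have hWfd : FiniteDimensional ℂ W := Submodule.finiteDimensional_of_le hW
  -- the linear map `v ↦ D_v f`
  let Φ : (Fin 3 → ℂ) →ₗ[ℂ] MvPolynomial (Fin 3) ℂ :=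
    { toFun := fun v => ∑ i, v i • pderiv i f
      map_add' := fun v w => by simp [add_smul, Finset.sum_add_distrib]
      map_smul' := fun c v => by simp [Finset.smul_sum, smul_smul] }
  have hΦ : ∀ v, Φ v = DD v f := fun v => (DD_eq v f).symm
  have hrange : LinearMap.range Φ ≤ W := by
    rintro _ ⟨v, rfl⟩
    show ∑ i, v i • pderiv i f ∈ W
    exact Submodule.sum_mem _ fun i _ => Submodule.smul_mem _ _ (hpd i)
  have hdim : finrank ℂ (LinearMap.range Φ) + finrank ℂ (LinearMap.ker Φ) = 3 := by
    rw [LinearMap.finrank_range_add_finrank_ker]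
    simp
  by_cases hTW : LinearMap.range Φ = W
  · -- a direction in which everything is constant
    exfalso
    have hker : 0 < finrank ℂ (LinearMap.ker Φ) := by
      rw [hTW] at hdim; omega
    obtain ⟨⟨v₀, hv₀k⟩, hv₀⟩ := Module.finrank_pos_iff_exists_ne_zero.1 hker
    have hv₀ne : v₀ ≠ 0 := fun h => hv₀ (Subtype.ext h)
    have hDf : DD v₀ f = 0 := by rw [← hΦ]; exact hv₀k
    have hDW : ∀ g ∈ W, DD v₀ g = 0 := by
      intro g hg
      rw [← hTW] at hg
      obtain ⟨v, rfl⟩ := hg
      show DD v₀ (∑ i, v i • pderiv i f) = 0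
      rw [map_sum]
      refine Finset.sum_eq_zero fun i _ => ?_
      rw [Derivation.map_smul, DD_pderiv, hDf, map_zero, smul_zero]
    -- a point of `Z` outside the line
    obtain ⟨z, hz, hzv⟩ : ∃ z ∈ Z, z ∉ Submodule.span ℂ {v₀} := by
      by_contra hcon
      push Not at hcon
      have hlt : Submodule.span ℂ {v₀} < ⊤ := by
        rw [lt_top_iff_ne_top]
        intro h
        have h2 := finrank_span_singleton (K := ℂ) hv₀ne
        rw [h, finrank_top] at h2
        simp at h2
      obtain ⟨u, hu0, hu⟩ := Submodule.exists_le_ker_of_lt_top _ hlt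
      exact hu0 (hfun u fun z hz => hu (hcon z hz))
    have hzero : ∀ s : ℂ, ∀ g ∈ W, eval (z + s • v₀) g = 0 := fun s g hg => by
      rw [eval_translate (hDW g hg), hZ z hz g hg]
    have hne : ∀ s : ℂ, z + s • v₀ ≠ 0 := by
      intro s h
      apply hzv
      have : z = (-s) • v₀ := by
        rw [neg_smul]; exact eq_neg_of_add_eq_zero_left h
      rw [this]
      exact Submodule.smul_mem _ _ (Submodule.mem_span_singleton_self _)
    choose b hbB c hc using fun s : ℂ => hB (z + s • v₀) (hne s) (hzero s)
    obtain ⟨s, -, t, -, hst, hbst⟩ : ∃ s ∈ (Set.univ : Set ℂ), ∃ t ∈ (Set.univ : Set ℂ), s ≠ t ∧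
        b s = b t :=
      Set.infinite_univ.exists_ne_map_eq_of_mapsTo (t := (B : Set (Fin 3 → ℂ)))
        (fun s _ => hbB s) B.finite_toSet
    have hcs : c s ≠ 0 := fun h => hne s (by rw [hc s, h, zero_smul])
    have e1 : c t • (z + s • v₀) = c s • (z + t • v₀) := by
      rw [hc s, hc t, hbst, smul_smul, smul_smul, mul_comm]
    have e2 : (c t - c s) • z = (c s * t - c t * s) • v₀ := by
      have := e1
      rw [smul_add, smul_add, smul_smul, smul_smul] at this
      rw [sub_smul, sub_smul, sub_eq_sub_iff_add_eq_add]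
      rw [this]; abel
    by_cases hct : c t = c s
    · rw [hct, sub_self, zero_smul, ← mul_sub] at e2
      have h3 := (smul_eq_zero.1 e2.symm).resolve_right hv₀ne
      rcases mul_eq_zero.1 h3 with h4 | h4
      · exact hcs h4
      · exact hst (sub_eq_zero.1 h4).symm
    · apply hzv
      have h3 : c t - c s ≠ 0 := sub_ne_zero.2 hct
      have h4 : z = ((c t - c s)⁻¹ * (c s * t - c t * s)) • v₀ := by
        rw [← smul_smul, ← e2, smul_smul, inv_mul_cancel₀ h3, one_smul]
      rw [h4]
      exact Submodule.smul_mem _ _ (Submodule.mem_span_singleton_self _)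
  · -- the kernel has dimension at least two
    have hlt : finrank ℂ (LinearMap.range Φ) < finrank ℂ W := by
      refine lt_of_le_of_ne (Submodule.finrank_mono hrange) fun h => hTW ?_
      exact Submodule.eq_of_le_of_finrank_eq hrange h
    have hker : 2 ≤ finrank ℂ (LinearMap.ker Φ) := by omega
    have htrans : ∀ v ∈ LinearMap.ker Φ, ∀ y, eval (y + v) f = eval y f := by
      intro v hv y
      have h2 : DD v f = 0 := by rw [← hΦ]; exact hv
      simpa using eval_translate h2 y 1
    by_cases htop : LinearMap.ker Φ = ⊤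
    · refine MvPolynomial.funext fun y => ?_
      have h2 := htrans y (by rw [htop]; trivial) 0
      rw [zero_add] at h2
      have h3 := eval_scale hf 0 (0 : Fin 3 → ℂ)
      rw [zero_smul, zero_pow (by omega), zero_mul] at h3
      rw [h2, h3, map_zero]
    · obtain ⟨u, hu0, hu⟩ := Submodule.exists_le_ker_of_lt_top _ (lt_top_iff_ne_top.2 htop)
      have hku : LinearMap.ker Φ = LinearMap.ker u := by
        refine Submodule.eq_of_le_of_finrank_le hu ?_
        have h2 : finrank ℂ (LinearMap.range u) + finrank ℂ (LinearMap.ker u) = 3 := by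
          rw [LinearMap.finrank_range_add_finrank_ker]; simp
        have h3 : 0 < finrank ℂ (LinearMap.range u) := by
          rw [Module.finrank_pos_iff_exists_ne_zero]
          by_contra hcon
          push Not at hcon
          apply hu0
          ext y
          have := congrArg Subtype.val (hcon ⟨u (Pi.single y 1), ⟨_, rfl⟩⟩)
          simpa using this
        omega
      obtain ⟨e', he'⟩ : ∃ e', u e' ≠ 0 := by
        by_contra hcon
        push Not at hcon
        exact hu0 (LinearMap.ext hcon)
      set e := (u e')⁻¹ • e' with he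
      have hue : u e = 1 := by
        rw [he, map_smul, smul_eq_mul, inv_mul_cancel₀ he']
      have hform : ∀ y, eval y f = u y ^ d * eval e f := by
        intro y
        have hk : y - u y • e ∈ LinearMap.ker Φ := by
          rw [hku, LinearMap.mem_ker, map_sub, map_smul, hue, smul_eq_mul, mul_one, sub_self]
        have h2 := htrans _ hk (u y • e)
        rw [add_sub_cancel] at h2
        rw [h2, eval_scale hf]
      by_cases hfe : eval e f = 0
      · refine MvPolynomial.funext fun y => ?_
        rw [hform, hfe, mul_zero, map_zero]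
      · exfalso
        apply hu0
        refine hfun u fun z hz => ?_
        have h2 := hform z
        rw [hfZ z hz] at h2
        exact (pow_eq_zero_iff (by omega)).1 ((mul_eq_zero.1 h2.symm).resolve_right hfe)

end Pool.Agent.Lib.Pc2352a
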